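import Pool.Agent.Work.MP_70e905_nt.M3.Defs
import Pool.Agent.Work.MP_70e905_nt.MT.C1

/-!
MODULE H1 (removing primes from `Nh`, local factors), size M.

Nh_one: the empty set. Nh_sdiff: as `U1_sdiff` in MT/C1: every `S ⊆ P` is `V ∪ U`, `V ⊆ E ∩ P`, `U ⊆ P \ E`,
`h (pd S) ≤ h (pd U)` (`1 ≤ pd U ≤ pd S`), and `∏_{p ∈ E ∩ P} (1 + gg p) ≤ (rt E)⁻¹`. Nh_sub: subset sum.
Nh_in: `∏_{p ∈ S} (1 - K gg p) ≥ 1 - ∑_{p ∈ S} K gg p` (factors in `[0,1]`), and for fixed `p` the sum over `S ∋ p` of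
`gg p HH S h (pd S)` is at most `gg p ^ 2 Nh P h` (`S ↦ S.erase p`, `h` decreasing).
Nh_out: `∏_{p ∈ S} (1 + k p) = ∑_{T ⊆ S} ∏_T k`; `S = T ∪ S'`, `h (pd S) ≤ h (pd S')`: the sum is at most
`(∑_{T ⊆ P} ∏_T k gg) Nh P h ≤ exp (∑ k gg) Nh P h`.
-/

set_option autoImplicit false

namespace Pool.Agent.Work.MP_70e905_nt.M3

open Finset Pool.Agent.Work.MP_73869e_nt.TH Pool.Agent.Work.MP_70e905_nt.MT

private theorem h1_fac (p : ℕ) : 0 ≤ 1 - 1 / (p : ℝ) ∧ 1 - 1 / (p : ℝ) ≤ 1 := by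
  rcases Nat.eq_zero_or_pos p with h | h
  · subst h
    simp
  · have h1 : (1 : ℝ) ≤ p := by exact_mod_cast h
    have h2 : 1 / (p : ℝ) ≤ 1 := by
      rw [div_le_one (by linarith)]
      exact h1
    have h3 : 0 ≤ 1 / (p : ℝ) := by positivity
    constructor <;> linarith

private theorem h1_gg {p : ℕ} (hp : p.Prime) : 0 ≤ gg p := by
  unfold gg
  have : (2 : ℝ) ≤ p := by exact_mod_cast hp.two_le
  apply div_nonneg zero_le_one
  linarith

private theorem h1_HH {S : Finset ℕ} (h : ∀ p ∈ S, p.Prime) : 0 ≤ HH S :=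
  Finset.prod_nonneg fun p hp => h1_gg (h p hp)

private theorem h1_pd {S : Finset ℕ} (h : ∀ p ∈ S, p.Prime) : 1 ≤ pd S :=
  Nat.one_le_iff_ne_zero.2 (Finset.prod_ne_zero_iff.2 fun p hp => (h p hp).ne_zero)

private theorem h1_nn (P : Finset ℕ) (hP : ∀ p ∈ P, p.Prime) (h : ℕ → ℝ) (h0 : ∀ n, 0 ≤ h n) :
    0 ≤ Nh P h :=
  Finset.sum_nonneg fun S hS => mul_nonneg
    (h1_HH fun p hp => hP p (mem_powerset.1 hS hp)) (h0 _)

theorem Nh_one (P : Finset ℕ) (hP : ∀ p ∈ P, p.Prime) (h : ℕ → ℝ) (h0 : ∀ n, 0 ≤ h n) (h1 : h 1 = 1) :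
    1 ≤ Nh P h := by
  have e : HH (∅ : Finset ℕ) * h (pd ∅) = 1 := by
    simp [HH, pd, h1]
  calc (1 : ℝ) = HH (∅ : Finset ℕ) * h (pd ∅) := e.symm
    _ ≤ _ := Finset.single_le_sum (f := fun S => HH S * h (pd S)) (fun S hS => mul_nonneg
        (h1_HH fun p hp => hP p (mem_powerset.1 hS hp)) (h0 _)) (empty_mem_powerset P)

private theorem h1_insert (P : Finset ℕ) (e : ℕ) (he : e ∉ P) (k h : ℕ → ℝ) :
    ∑ S ∈ (insert e P).powerset, (∏ p ∈ S, k p) * h (pd S) =
      ∑ S ∈ P.powerset, (∏ p ∈ S, k p) * h (pd S) +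
        k e * ∑ S ∈ P.powerset, (∏ p ∈ S, k p) * h (e * pd S) := by
  rw [Finset.sum_powerset_insert he, Finset.mul_sum]
  congr 1
  refine Finset.sum_congr rfl fun S hS => ?_
  have heS : e ∉ S := fun h => he (mem_powerset.1 hS h)
  unfold pd
  rw [Finset.prod_insert heS, Finset.prod_insert heS]
  ring

private theorem h1_Nh_insert (P : Finset ℕ) (e : ℕ) (he : e ∉ P) (h : ℕ → ℝ) :
    Nh (insert e P) h = Nh P h + gg e * Nh P (fun n => h (e * n)) :=
  h1_insert P e he gg h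

private theorem h1_le (P : Finset ℕ) (hP : ∀ p ∈ P, p.Prime) (h h' : ℕ → ℝ)
    (hh : ∀ n, 1 ≤ n → h' n ≤ h n) : Nh P h' ≤ Nh P h := by
  refine Finset.sum_le_sum fun S hS => ?_
  have hS' : ∀ p ∈ S, p.Prime := fun p hp => hP p (mem_powerset.1 hS hp)
  exact mul_le_mul_of_nonneg_left (hh _ (h1_pd hS')) (h1_HH hS')

private theorem h1_one (P : Finset ℕ) (e : ℕ) (hP : ∀ p ∈ P, p.Prime) (h : ℕ → ℝ)
    (h0 : ∀ n, 0 ≤ h n) (ha : ∀ m n, 1 ≤ m → m ≤ n → h n ≤ h m) :
    (1 - 1 / (e : ℝ)) * Nh P h ≤ Nh (P.erase e) h := by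
  by_cases he : e ∈ P
  · have hpr := hP e he
    have h2 : (2 : ℝ) ≤ e := by exact_mod_cast hpr.two_le
    have hne : e ∉ P.erase e := notMem_erase e P
    have hP' : ∀ p ∈ P.erase e, p.Prime := fun p hp => hP p (mem_of_mem_erase hp)
    have h3 : Nh P h ≤ (1 + gg e) * Nh (P.erase e) h := by
      conv_lhs => rw [← insert_erase he]
      rw [h1_Nh_insert _ _ hne, add_mul, one_mul]
      refine add_le_add le_rfl (mul_le_mul_of_nonneg_left ?_ (h1_gg hpr))
      exact h1_le _ hP' _ _ fun n hn => ha n (e * n) hn (Nat.le_mul_of_pos_left _ hpr.pos)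
    calc (1 - 1 / (e : ℝ)) * Nh P h ≤
        (1 - 1 / (e : ℝ)) * ((1 + gg e) * Nh (P.erase e) h) :=
          mul_le_mul_of_nonneg_left h3 (h1_fac e).1
      _ = Nh (P.erase e) h := by
          have h6 : (1 - 1 / (e : ℝ)) * (1 + gg e) = 1 := by
            unfold gg
            have h7 : (e : ℝ) - 1 ≠ 0 := by
              intro h
              linarith
            have h8 : (e : ℝ) ≠ 0 := by
              intro h
              linarith
            field_simp
            ring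
          rw [← mul_assoc, h6, one_mul]
  · rw [erase_eq_of_notMem he]
    have h1 := h1_nn P hP h h0
    have h2 := (h1_fac e).2
    nlinarith

theorem Nh_sdiff (P E : Finset ℕ) (hP : ∀ p ∈ P, p.Prime) (h : ℕ → ℝ) (h0 : ∀ n, 0 ≤ h n)
    (ha : ∀ m n, 1 ≤ m → m ≤ n → h n ≤ h m) : rt E * Nh P h ≤ Nh (P \ E) h := by
  induction E using Finset.induction_on with
  | empty =>
    unfold rt
    rw [Finset.prod_empty, one_mul, sdiff_empty]
  | insert e E he ih =>
    have h1 : rt (insert e E) = (1 - 1 / (e : ℝ)) * rt E := by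
      unfold rt
      rw [Finset.prod_insert he]
    have h2 : P \ insert e E = (P \ E).erase e := by
      ext y
      simp only [mem_sdiff, mem_insert, mem_erase]
      tauto
    rw [h1, h2, mul_assoc]
    refine (mul_le_mul_of_nonneg_left ih (h1_fac e).1).trans ?_
    exact h1_one (P \ E) e (fun p hp => hP p (mem_sdiff.1 hp).1) h h0 ha

theorem Nh_sub (P P' : Finset ℕ) (hPP' : P ⊆ P') (hP : ∀ p ∈ P', p.Prime) (h : ℕ → ℝ)
    (h0 : ∀ n, 0 ≤ h n) : Nh P h ≤ Nh P' h :=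
  Finset.sum_le_sum_of_subset_of_nonneg (powerset_mono.2 hPP') fun S hS _ =>
    mul_nonneg (h1_HH fun p hp => hP p (mem_powerset.1 hS hp)) (h0 _)

theorem Nh_in (K : ℕ) (P : Finset ℕ) (hP : ∀ p ∈ P, p.Prime ∧ K * gg p ≤ 1) (h : ℕ → ℝ)
    (h0 : ∀ n, 0 ≤ h n) (ha : ∀ m n, 1 ≤ m → m ≤ n → h n ≤ h m) :
    (1 - K * ∑ p ∈ P, gg p ^ 2) * Nh P h ≤
      ∑ S ∈ P.powerset, (∏ p ∈ S, (gg p * (1 - K * gg p))) * h (pd S) := by
  induction P using Finset.induction_on generalizing h with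
  | empty =>
    simp [Nh, HH, pd]
  | insert e P he ih =>
    have hPe := hP e (mem_insert_self e P)
    have hP' : ∀ p ∈ P, p.Prime ∧ K * gg p ≤ 1 := fun p hp => hP p (mem_insert_of_mem hp)
    have hPp : ∀ p ∈ P, p.Prime := fun p hp => (hP' p hp).1
    have hPi : ∀ p ∈ insert e P, p.Prime := fun p hp => (hP p hp).1
    have hg := h1_gg hPe.1
    set h' : ℕ → ℝ := fun n => h (e * n) with hh'
    have h0' : ∀ n, 0 ≤ h' n := fun n => h0 _
    have ha' : ∀ m n, 1 ≤ m → m ≤ n → h' n ≤ h' m := fun m n hm hmn =>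
      ha (e * m) (e * n) (Nat.one_le_iff_ne_zero.2 (mul_ne_zero hPe.1.ne_zero (by omega)))
        (Nat.mul_le_mul_left e hmn)
    have i1 := ih hP' h h0 ha
    have i2 := ih hP' h' h0' ha'
    rw [h1_insert P e he (fun p => gg p * (1 - K * gg p)) h]
    rw [Finset.sum_insert he, h1_Nh_insert P e he h]
    set A := ∑ S ∈ P.powerset, (∏ p ∈ S, (gg p * (1 - K * gg p))) * h (pd S) with hA
    set A' := ∑ S ∈ P.powerset, (∏ p ∈ S, (gg p * (1 - K * gg p))) * h (e * pd S) with hA'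
    set s := (K : ℝ) * ∑ p ∈ P, gg p ^ 2 with hs
    set N := Nh P h with hN
    set N' := Nh P h' with hN'
    have hNN : N' ≤ N := h1_le P hPp h h' fun n hn => ha n (e * n) hn
      (Nat.le_mul_of_pos_left _ hPe.1.pos)
    have hN0 : 0 ≤ N := h1_nn P hPp h h0
    have hN0' : 0 ≤ N' := h1_nn P hPp h' h0'
    have hs0 : 0 ≤ s := by positivity
    have hK0 : (0 : ℝ) ≤ K := Nat.cast_nonneg K
    have hc : 0 ≤ gg e * (1 - K * gg e) := mul_nonneg hg (by linarith [hPe.2])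
    have hpos : ∀ S ∈ P.powerset, 0 ≤ ∏ p ∈ S, (gg p * (1 - K * gg p)) := fun S hS =>
      Finset.prod_nonneg fun p hp => by
        have := hP' p (mem_powerset.1 hS hp)
        exact mul_nonneg (h1_gg this.1) (by linarith [this.2])
    have hA0 : 0 ≤ A := Finset.sum_nonneg fun S hS => mul_nonneg (hpos S hS) (h0 _)
    have hA0' : 0 ≤ A' := Finset.sum_nonneg fun S hS => mul_nonneg (hpos S hS) (h0 _)
    have e1 : (1 - K * (gg e ^ 2 + ∑ p ∈ P, gg p ^ 2)) = 1 - s - K * gg e ^ 2 := by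
      rw [hs]
      ring
    rw [e1]
    have hKg : 0 ≤ (K : ℝ) * gg e ^ 2 := by positivity
    rcases le_or_gt 0 (1 - s) with h1s | h1s
    · have e2 : A + gg e * (1 - K * gg e) * A' ≥ (1 - s) * N + gg e * (1 - K * gg e) * ((1 - s) * N') :=
        add_le_add i1 (mul_le_mul_of_nonneg_left i2 hc)
      have e3 : (1 - s) * (K * gg e ^ 2 * N') ≤ K * gg e ^ 2 * N' := by
        have : 0 ≤ K * gg e ^ 2 * N' := mul_nonneg hKg hN0'
        nlinarith
      have e4 : K * gg e ^ 2 * N' ≤ K * gg e ^ 2 * (N + gg e * N') := by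
        refine mul_le_mul_of_nonneg_left ?_ hKg
        have : 0 ≤ gg e * N' := mul_nonneg hg hN0'
        linarith
      have e5 : (1 - s) * N + gg e * (1 - K * gg e) * ((1 - s) * N') =
          (1 - s) * (N + gg e * N') - (1 - s) * (K * gg e ^ 2 * N') := by ring
      have e6 : (1 - s - K * gg e ^ 2) * (N + gg e * N') =
          (1 - s) * (N + gg e * N') - K * gg e ^ 2 * (N + gg e * N') := by ring
      rw [e6]
      linarith
    · have e2 : (1 - s - K * gg e ^ 2) * (N + gg e * N') ≤ 0 := by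
        refine mul_nonpos_of_nonpos_of_nonneg (by linarith) ?_
        exact add_nonneg hN0 (mul_nonneg hg hN0')
      have e3 : 0 ≤ A + gg e * (1 - K * gg e) * A' := add_nonneg hA0 (mul_nonneg hc hA0')
      linarith

theorem Nh_out (P : Finset ℕ) (hP : ∀ p ∈ P, p.Prime) (k : ℕ → ℝ) (hk : ∀ p ∈ P, 0 ≤ k p) (h : ℕ → ℝ)
    (h0 : ∀ n, 0 ≤ h n) (ha : ∀ m n, 1 ≤ m → m ≤ n → h n ≤ h m) :
    ∑ S ∈ P.powerset, (∏ p ∈ S, (gg p * (1 + k p))) * h (pd S) ≤
      Real.exp (∑ p ∈ P, k p * gg p) * Nh P h := by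
  induction P using Finset.induction_on generalizing h with
  | empty =>
    simp [Nh, HH, pd]
  | insert e P he ih =>
    have hPe := hP e (mem_insert_self e P)
    have hke := hk e (mem_insert_self e P)
    have hP' : ∀ p ∈ P, p.Prime := fun p hp => hP p (mem_insert_of_mem hp)
    have hk' : ∀ p ∈ P, 0 ≤ k p := fun p hp => hk p (mem_insert_of_mem hp)
    have hg := h1_gg hPe
    set h' : ℕ → ℝ := fun n => h (e * n) with hh'
    have h0' : ∀ n, 0 ≤ h' n := fun n => h0 _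
    have ha' : ∀ m n, 1 ≤ m → m ≤ n → h' n ≤ h' m := fun m n hm hmn =>
      ha (e * m) (e * n) (Nat.one_le_iff_ne_zero.2 (mul_ne_zero hPe.ne_zero (by omega)))
        (Nat.mul_le_mul_left e hmn)
    have i1 := ih hP' hk' h h0 ha
    have i2 := ih hP' hk' h' h0' ha'
    rw [h1_insert P e he (fun p => gg p * (1 + k p)) h]
    rw [Finset.sum_insert he, h1_Nh_insert P e he h, Real.exp_add]
    set A := ∑ S ∈ P.powerset, (∏ p ∈ S, (gg p * (1 + k p))) * h (pd S) with hA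
    set A' := ∑ S ∈ P.powerset, (∏ p ∈ S, (gg p * (1 + k p))) * h (e * pd S) with hA'
    set N := Nh P h with hN
    set N' := Nh P h' with hN'
    set X := Real.exp (∑ p ∈ P, k p * gg p) with hX
    have hX0 : 0 < X := Real.exp_pos _
    have hNN : N' ≤ N := h1_le P hP' h h' fun n hn => ha n (e * n) hn
      (Nat.le_mul_of_pos_left _ hPe.pos)
    have hN0 : 0 ≤ N := h1_nn P hP' h h0
    have hN0' : 0 ≤ N' := h1_nn P hP' h' h0'
    have hc : 0 ≤ gg e * (1 + k e) := mul_nonneg hg (by linarith)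
    have e2 : A + gg e * (1 + k e) * A' ≤ X * N + gg e * (1 + k e) * (X * N') :=
      add_le_add i1 (mul_le_mul_of_nonneg_left i2 hc)
    have hkg : 0 ≤ k e * gg e := mul_nonneg hke hg
    have e3 : X * N + gg e * (1 + k e) * (X * N') ≤ X * ((1 + k e * gg e) * (N + gg e * N')) := by
      have f1 : X * N + gg e * (1 + k e) * (X * N') = X * (N + gg e * N' + k e * gg e * N') := by ring
      rw [f1]
      refine mul_le_mul_of_nonneg_left ?_ hX0.le
      have f2 : k e * gg e * N' ≤ k e * gg e * (N + gg e * N') := by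
        refine mul_le_mul_of_nonneg_left ?_ hkg
        have : 0 ≤ gg e * N' := mul_nonneg hg hN0'
        linarith
      linarith
    have e4 : (1 + k e * gg e) ≤ Real.exp (k e * gg e) := by
      have := Real.add_one_le_exp (k e * gg e)
      linarith
    have hM0 : 0 ≤ N + gg e * N' := add_nonneg hN0 (mul_nonneg hg hN0')
    calc A + gg e * (1 + k e) * A' ≤ X * ((1 + k e * gg e) * (N + gg e * N')) := e2.trans e3
      _ ≤ X * (Real.exp (k e * gg e) * (N + gg e * N')) :=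
          mul_le_mul_of_nonneg_left (mul_le_mul_of_nonneg_right e4 hM0) hX0.le
      _ = Real.exp (k e * gg e) * X * (N + gg e * N') := by ring

end Pool.Agent.Work.MP_70e905_nt.M3
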