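import Pool.Agent.Work.MP_70e905_nt.M3.Defs
import Pool.Agent.Work.MP_70e905_nt.MT.C5

set_option autoImplicit false

/-!
MODULE LE (upper bounds of sums over tuples, general local factor), size M. As MT/C5 (`tuple_leU`).

The sum over `A ∈ LS K P` without labels `i, j` is at most the sum over all `A ⊆ P × Fin K` without these labels, a product over
the `K - 2` other labels (`prod_labels` of TH/T06) of `∑_{S ⊆ P} HH S yy (pd S)² ∏_{p ∈ S} g(p)`, `g(p) ≤ 1 + m gg p`. Expand
`∏ (1 + m gg)` over subsets: at most `(∏_{p ∈ P} (1 + m gg p²)) U2 P ≤ exp (m ∑ gg²) U2 P ≤ exp (2 m / D₀) U2 P`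
(`sum_gg2` of MT/A5). `(1 - 1/p)⁻¹ = 1 + gg p`.
-/

namespace Pool.Agent.Work.MP_70e905_nt.M3

open Finset Pool.Agent.Work.MP_73869e_nt.TH Pool.Agent.Work.MP_70e905_nt.MT

private theorem le_gg {p : ℕ} (hp : p.Prime) : 0 ≤ gg p := by
  unfold gg
  have : (2 : ℝ) ≤ p := by exact_mod_cast hp.two_le
  apply div_nonneg zero_le_one
  linarith

private theorem le_prod_lb {K : ℕ} (A : Finset (ℕ × Fin K)) (f : ℕ → ℝ) :
    ∏ a ∈ A, f a.1 = ∏ i, ∏ p ∈ lb i A, f p := by
  rw [← Finset.prod_fiberwise (s := A) (g := fun a : ℕ × Fin K => a.2) (f := fun a => f a.1)]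
  refine Finset.prod_congr rfl fun i _ => ?_
  unfold lb
  rw [Finset.prod_image]
  rintro ⟨p, k⟩ ha ⟨q, l⟩ hb hab
  have ha' := (mem_filter.1 ha).2
  have hb' := (mem_filter.1 hb).2
  simp only at ha' hb' hab
  rw [ha', hb', hab]

/-- comparison of the two weights -/
private theorem le_W (P : Finset ℕ) (hP : ∀ p ∈ P, p.Prime) (m : ℕ) (g : ℕ → ℝ)
    (hgg : ∀ p ∈ P, 0 ≤ g p ∧ g p ≤ 1 + m * gg p) :
    ∀ φ : ℕ → ℝ, Antitone φ → (∀ n, 0 ≤ φ n) →
    ∑ S ∈ P.powerset, (∏ p ∈ S, (gg p * g p)) * φ (pd S) ≤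
      (∏ p ∈ P, (1 + m * gg p ^ 2)) * ∑ S ∈ P.powerset, HH S * φ (pd S) := by
  induction P using Finset.induction_on with
  | empty =>
    intro φ _ _
    simp [HH]
  | insert q P hq ih =>
    intro φ hφ h0
    have ih' := ih (fun p hp => hP p (mem_insert_of_mem hp)) fun p hp => hgg p (mem_insert_of_mem hp)
    have hqp := hP q (mem_insert_self q P)
    have hgq := hgg q (mem_insert_self q P)
    have hg := le_gg hqp
    have hm : (0 : ℝ) ≤ m := Nat.cast_nonneg m
    have hH : ∀ S ∈ P.powerset, 0 ≤ HH S := fun S hS => Finset.prod_nonneg fun p hp =>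
      le_gg (hP p (mem_insert_of_mem (mem_powerset.1 hS hp)))
    have hC : 0 ≤ ∏ p ∈ P, (1 + m * gg p ^ 2) := Finset.prod_nonneg fun p _ => by positivity
    have hφ2 : Antitone (fun n => φ (q * n)) := fun a b hab => hφ (Nat.mul_le_mul_left q hab)
    have a1 := ih' φ hφ h0
    have a2 := ih' (fun n => φ (q * n)) hφ2 (fun n => h0 _)
    rw [Finset.sum_powerset_insert hq, Finset.sum_powerset_insert hq, Finset.prod_insert hq]
    have e1 : ∑ S ∈ P.powerset, (∏ p ∈ insert q S, (gg p * g p)) * φ (pd (insert q S)) =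
        gg q * g q * ∑ S ∈ P.powerset, (∏ p ∈ S, (gg p * g p)) * φ (q * pd S) := by
      rw [Finset.mul_sum]
      refine Finset.sum_congr rfl fun S hS => ?_
      have hqS : q ∉ S := fun h => hq (mem_powerset.1 hS h)
      unfold pd
      rw [Finset.prod_insert hqS, Finset.prod_insert hqS]
      ring
    have e2 : ∑ S ∈ P.powerset, HH (insert q S) * φ (pd (insert q S)) =
        gg q * ∑ S ∈ P.powerset, HH S * φ (q * pd S) := by
      rw [Finset.mul_sum]
      refine Finset.sum_congr rfl fun S hS => ?_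
      have hqS : q ∉ S := fun h => hq (mem_powerset.1 hS h)
      unfold pd HH
      rw [Finset.prod_insert hqS, Finset.prod_insert hqS]
      ring
    rw [e1, e2]
    set C := ∏ p ∈ P, (1 + m * gg p ^ 2) with hCdef
    set U := ∑ S ∈ P.powerset, HH S * φ (pd S) with hU
    set U' := ∑ S ∈ P.powerset, HH S * φ (q * pd S) with hU'
    have hUU : U' ≤ U := by
      refine Finset.sum_le_sum fun S hS => mul_le_mul_of_nonneg_left ?_ (hH S hS)
      exact hφ (Nat.le_mul_of_pos_left _ hqp.pos)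
    have hU0 : 0 ≤ U' := Finset.sum_nonneg fun S hS => mul_nonneg (hH S hS) (h0 _)
    have b0 : gg q * g q ≤ gg q * (1 + m * gg q) := mul_le_mul_of_nonneg_left hgq.2 hg
    have b1 : gg q * g q * ∑ S ∈ P.powerset, (∏ p ∈ S, (gg p * g p)) *
        φ (q * pd S) ≤ gg q * (1 + m * gg q) * (C * U') :=
      (mul_le_mul_of_nonneg_left a2 (mul_nonneg hg hgq.1)).trans
        (mul_le_mul_of_nonneg_right b0 (mul_nonneg hC hU0))
    have b2 : m * gg q ^ 2 * (C * U') ≤ m * gg q ^ 2 * (C * U) :=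
      mul_le_mul_of_nonneg_left (mul_le_mul_of_nonneg_left hUU hC) (by positivity)
    have b3 : 0 ≤ m * gg q ^ 2 * (C * (gg q * U')) := by positivity
    have b4 : (1 + m * gg q ^ 2) * C * (U + gg q * U') =
        C * U + m * gg q ^ 2 * (C * U) + gg q * (C * U') + m * gg q ^ 2 * (C * (gg q * U')) := by
      ring
    rw [b4]
    have b5 : gg q * (1 + m * gg q) * (C * U') = gg q * (C * U') + m * gg q ^ 2 * (C * U') := by
      ring
    linarith

theorem tuple_leg {K : ℕ} (x L D₀ m : ℕ) (P : Finset ℕ) (t₀ : ℝ) (i j : Fin K) (hij : i ≠ j)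
    (hD : 1 ≤ D₀) (hP : ∀ p ∈ P, p.Prime ∧ D₀ < p) (g : ℕ → ℝ)
    (hg : ∀ p ∈ P, 0 ≤ g p ∧ g p ≤ 1 + m * gg p) :
    ∑ A ∈ (LS K P).filter (fun A => ∀ c ∈ A, c.2 ≠ i ∧ c.2 ≠ j),
        (∏ l ∈ (univ.erase i).erase j, yy x L t₀ (pd (lb l A))) ^ 2 * (ga gg A * ∏ c ∈ A, g c.1) ≤
      Real.exp (2 * m * K / D₀) * U2 P x L t₀ ^ (K - 2) := by
  have hPp : ∀ p ∈ P, p.Prime := fun p hp => (hP p hp).1
  have hD0 : (0 : ℝ) < D₀ := by exact_mod_cast hD
  set f : ℕ → ℝ := fun p => gg p * g p with hf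
  have hf0 : ∀ p ∈ P, 0 ≤ f p := fun p hp => by
    have := le_gg (hPp p hp)
    rw [hf]
    exact mul_nonneg this (hg p hp).1
  set h : Fin K → Finset ℕ → ℝ := fun l S =>
    if l = i ∨ l = j then (if S = ∅ then 1 else 0) else (∏ p ∈ S, f p) * yy x L t₀ (pd S) ^ 2
    with hh
  set W : ℝ := ∑ S ∈ P.powerset, (∏ p ∈ S, f p) * yy x L t₀ (pd S) ^ 2 with hW
  have hhnn : ∀ l, ∀ S ∈ P.powerset, 0 ≤ h l S := by
    intro l S hS
    rw [hh]
    beta_reduce
    split_ifs
    · exact zero_le_one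
    · exact le_rfl
    · exact mul_nonneg (Finset.prod_nonneg fun p hp => hf0 p (mem_powerset.1 hS hp))
        (by positivity)
  have hW0 : 0 ≤ W := Finset.sum_nonneg fun S hS =>
    mul_nonneg (Finset.prod_nonneg fun p hp => hf0 p (mem_powerset.1 hS hp)) (by positivity)
  -- the whole sum
  have e1 : ∑ A ∈ (P ×ˢ (univ : Finset (Fin K))).powerset, ∏ l, h l (lb l A) = W ^ (K - 2) := by
    rw [prod_labels]
    have e2 : ∀ l, ∑ S ∈ P.powerset, h l S = if l = i ∨ l = j then 1 else W := by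
      intro l
      rw [hh]
      beta_reduce
      split_ifs
      · rw [Finset.sum_ite_eq' P.powerset ∅, if_pos (empty_mem_powerset _)]
      · rfl
    rw [Finset.prod_congr rfl fun l _ => e2 l]
    have hj : j ∈ univ.erase i := mem_erase.2 ⟨hij.symm, mem_univ _⟩
    rw [← Finset.mul_prod_erase univ _ (mem_univ i), ← Finset.mul_prod_erase _ _ hj,
      if_pos (Or.inl rfl), if_pos (Or.inr rfl), one_mul, one_mul,
      Finset.prod_congr rfl (g := fun _ => W)]
    · rw [Finset.prod_const, card_erase_of_mem hj, card_erase_of_mem (mem_univ i), card_univ,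
        Fintype.card_fin]
      rfl
    · intro l hl
      rw [if_neg]
      rintro (h1 | h1)
      · exact (mem_erase.1 (mem_erase.1 hl).2).1 h1
      · exact (mem_erase.1 hl).1 h1
  have e3 : ∑ A ∈ (LS K P).filter (fun A => ∀ c ∈ A, c.2 ≠ i ∧ c.2 ≠ j),
        (∏ l ∈ (univ.erase i).erase j, yy x L t₀ (pd (lb l A))) ^ 2 *
          (ga gg A * ∏ c ∈ A, g c.1) ≤ W ^ (K - 2) := by
    rw [← e1]
    calc ∑ A ∈ (LS K P).filter (fun A => ∀ c ∈ A, c.2 ≠ i ∧ c.2 ≠ j),
        (∏ l ∈ (univ.erase i).erase j, yy x L t₀ (pd (lb l A))) ^ 2 *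
          (ga gg A * ∏ c ∈ A, g c.1) =
        ∑ A ∈ (LS K P).filter (fun A => ∀ c ∈ A, c.2 ≠ i ∧ c.2 ≠ j), ∏ l, h l (lb l A) := by
          refine Finset.sum_congr rfl fun A hA => ?_
          rw [mem_filter] at hA
          obtain ⟨hA1, hA2⟩ := hA
          have g1 : ga gg A * ∏ c ∈ A, g c.1 = ∏ a ∈ A, f a.1 := by
            unfold ga
            rw [← Finset.prod_mul_distrib]
          have hj : j ∈ univ.erase i := mem_erase.2 ⟨hij.symm, mem_univ _⟩
          have hlbi : lb i A = ∅ := by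
            rw [eq_empty_iff_forall_notMem]
            intro p hp
            rw [mem_lb] at hp
            exact (hA2 _ hp).1 rfl
          have hlbj : lb j A = ∅ := by
            rw [eq_empty_iff_forall_notMem]
            intro p hp
            rw [mem_lb] at hp
            exact (hA2 _ hp).2 rfl
          rw [g1, le_prod_lb, ← Finset.mul_prod_erase univ (fun l => ∏ p ∈ lb l A, f p)
            (mem_univ i), ← Finset.mul_prod_erase _ (fun l => ∏ p ∈ lb l A, f p) hj,
            ← Finset.mul_prod_erase univ (fun l => h l (lb l A)) (mem_univ i),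
            ← Finset.mul_prod_erase _ (fun l => h l (lb l A)) hj, hlbi, hlbj,
            Finset.prod_empty, one_mul, one_mul]
          have g7 : h i ∅ = 1 := by
            rw [hh]
            beta_reduce
            rw [if_pos (Or.inl rfl), if_pos rfl]
          have g8 : h j ∅ = 1 := by
            rw [hh]
            beta_reduce
            rw [if_pos (Or.inr rfl), if_pos rfl]
          rw [g7, g8, one_mul, one_mul, ← Finset.prod_pow, ← Finset.prod_mul_distrib]
          refine Finset.prod_congr rfl fun l hl => ?_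
          rw [hh]
          beta_reduce
          rw [if_neg, mul_comm]
          rintro (h1 | h1)
          · exact (mem_erase.1 (mem_erase.1 hl).2).1 h1
          · exact (mem_erase.1 hl).1 h1
      _ ≤ _ := by
          refine Finset.sum_le_sum_of_subset_of_nonneg ?_ ?_
          · intro A hA
            exact (mem_filter.1 (mem_filter.1 hA).1).1
          · intro A hA _
            refine Finset.prod_nonneg fun l _ => hhnn l _ ?_
            rw [mem_powerset]
            intro p hp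
            rw [mem_lb] at hp
            exact (mem_product.1 (mem_powerset.1 hA hp)).1
  refine e3.trans ?_
  have hU0 : 0 ≤ U2 P x L t₀ := by
    unfold U2
    exact Finset.sum_nonneg fun S hS => mul_nonneg
      (Finset.prod_nonneg fun p hp => le_gg (hPp p (mem_powerset.1 hS hp))) (by positivity)
  have hWU : W ≤ Real.exp (2 * m / D₀) * U2 P x L t₀ := by
    have h1 := le_W P hPp m g hg (fun n => yy x L t₀ n ^ 2)
      (fun a b hab => pow_le_pow_left₀ (yy_bd x L t₀ _).1 (yy_anti x L t₀ a b hab) 2)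
      (fun n => by positivity)
    have h2 : ∏ p ∈ P, (1 + m * gg p ^ 2) ≤ Real.exp (2 * m / D₀) := by
      calc ∏ p ∈ P, (1 + m * gg p ^ 2) ≤ ∏ p ∈ P, Real.exp (m * gg p ^ 2) := by
            refine Finset.prod_le_prod (fun p _ => by positivity) fun p _ => ?_
            have := Real.add_one_le_exp (m * gg p ^ 2)
            linarith
        _ = Real.exp (m * ∑ p ∈ P, gg p ^ 2) := by rw [Finset.mul_sum, Real.exp_sum]
        _ ≤ Real.exp (2 * m / D₀) := by
            apply Real.exp_le_exp.2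
            have h3 := mul_le_mul_of_nonneg_left (sum_gg2 D₀ hD P fun p hp => (hP p hp).2)
              (Nat.cast_nonneg m : (0 : ℝ) ≤ m)
            refine h3.trans (le_of_eq ?_)
            ring
    exact h1.trans (mul_le_mul_of_nonneg_right h2 hU0)
  calc W ^ (K - 2) ≤ (Real.exp (2 * m / D₀) * U2 P x L t₀) ^ (K - 2) :=
        pow_le_pow_left₀ hW0 hWU _
    _ = Real.exp (2 * m / D₀) ^ (K - 2) * U2 P x L t₀ ^ (K - 2) := mul_pow _ _ _
    _ ≤ Real.exp (2 * m * K / D₀) * U2 P x L t₀ ^ (K - 2) := by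
        refine mul_le_mul_of_nonneg_right ?_ (pow_nonneg hU0 _)
        rw [← Real.exp_nat_mul]
        apply Real.exp_le_exp.2
        have h3 : ((K - 2 : ℕ) : ℝ) ≤ K := by exact_mod_cast Nat.sub_le K 2
        have h4 : 0 ≤ 2 * (m : ℝ) / (D₀ : ℝ) := by positivity
        calc ((K - 2 : ℕ) : ℝ) * (2 * m / D₀) ≤ K * (2 * m / D₀) :=
              mul_le_mul_of_nonneg_right h3 h4
          _ = _ := by ring

theorem rt_inv {K : ℕ} (P : Finset ℕ) (hP : ∀ p ∈ P, p.Prime) (A : Finset (ℕ × Fin K))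
    (hA : A ∈ LS K P) : (rt (A.image Prod.fst))⁻¹ = ∏ c ∈ A, (1 + gg c.1) := by
  have hA3 := mem_LS.1 hA
  have g2 : rt (A.image Prod.fst) = ∏ a ∈ A, (1 - 1 / (a.1 : ℝ)) := by
    unfold rt
    rw [Finset.prod_image]
    intro a ha b hb hab
    exact hA3.2 a ha b hb hab
  rw [g2, ← Finset.prod_inv_distrib]
  refine Finset.prod_congr rfl fun a ha => ?_
  have g3 : (2 : ℝ) ≤ a.1 := by exact_mod_cast (hP a.1 (hA3.1 a ha)).two_le
  unfold gg
  have g4 : (a.1 : ℝ) - 1 ≠ 0 := by
    intro h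
    linarith
  have g5 : (a.1 : ℝ) ≠ 0 := by
    intro h
    linarith
  have g6 : 1 - 1 / (a.1 : ℝ) ≠ 0 := by
    intro h
    apply g4
    field_simp at h
    linarith
  field_simp
  ring

theorem gg_pow (p : ℕ) (m : ℕ) (hp : (m : ℝ) * gg p ≤ 1) (h0 : 0 ≤ gg p) :
    (1 + gg p) ^ m ≤ 1 + 2 * m * gg p := by
  have hm : 0 ≤ (m : ℝ) * gg p := mul_nonneg (Nat.cast_nonneg m) h0
  have h1 : (1 + gg p) ^ m ≤ Real.exp (m * gg p) := by
    rw [Real.exp_nat_mul]
    refine pow_le_pow_left₀ (by linarith) ?_ m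
    have := Real.add_one_le_exp (gg p)
    linarith
  have h2 := Real.abs_exp_sub_one_sub_id_le (x := m * gg p) (by rw [abs_of_nonneg hm]; exact hp)
  have h3 := (abs_le.1 h2).2
  nlinarith

end Pool.Agent.Work.MP_70e905_nt.M3
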