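import Pool.Agent.Work.MP_70e905_nt.M3.Defs
import Pool.Agent.Work.MP_73869e_nt.TH.T01
import Pool.Agent.Work.MP_73869e_nt.TH.T06

set_option autoImplicit false

/-!
MODULE MA (product with a function of one label), size M-L.

Induction on `P'` (for all `Z, lam, MZ, ML`). Let `P' = insert p P''`, `g = gg p`, `F₀ = ff P'' Z`, `F_l = ff P'' (Z (insert (p,l) ·))`
(`F_j = 0` as `Z` vanishes on sets with label `j`), `Λ₀`, `Λ₁` the sums for `lam` and `lam (insert p ·)` over `P''.powerset`, all at
`ω' ∈ LS K P''`. `sum_LS_insert` (TH/T01): at `ω'`: `F = F₀ + g ∑_l F_l`, `Λ = Λ₀ + g Λ₁`; at `insert (p, l) ω'`: `F = F₀ + g ∑ - F_l`,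
`Λ = Λ₀ + g Λ₁` (`l ≠ j`), `F = F₀ + g ∑`, `Λ = Λ₀ + (g - 1) Λ₁` (`l = j`). The function `Φ = F Λ` equals `ff P' V` with
`V` given by `V(insert (p,l) ·) = [Z_l, lam₀] + g [Z_l, lam₁]` for `l ≠ j`, `V(insert (p,j) ·) = [Z, lam₁] + g ∑_l [Z_l, lam₁]`,
`V(·) = [Z, lam₀] - g² ∑_l [Z_l, lam₁]`, where `[Z, lam]` is the coefficient function given by the induction hypothesis
(check: `v_l = Φ(ω') - Φ(insert (p,l) ω')`, `u = Φ(ω') - g ∑ v_l`). Majorants: `MZ`, `ML` decrease, so `|[Z_l, lam₁]| (A) ≤ MZ A₁ * ML S * ..`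
and for `insert (p, l) A` (`insert (p, j) A`) the majorants `MZ (insert (p,l) A₁)` (`ML (insert p S)`) are kept, the new factors are
`1 + g`, `1 + K g`, `1 + K g²`. `loc A = ∏_{p ∈ P'} (1 + K gg p²) * ∏_{c ∈ A} (1 + K gg c.1)`. Support: by induction there are
`A₁, S` with `Z A₁ ≠ 0`, `lam S ≠ 0`, `A ⊆ A₁ ∪ S.image (·, j)`. Define `V A = 0` for `A ∉ LS K P'`.
-/

namespace Pool.Agent.Work.MP_70e905_nt.M3

open Finset Pool.Agent.Work.MP_73869e_nt.TH Pool.Agent.Work.MP_70e905_nt.MT

private theorem ma_xx_insert {K : ℕ} (γ : ℕ → ℝ) {P : Finset ℕ} {p : ℕ} (hp : p ∉ P)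
    {A : Finset (ℕ × Fin K)} (hA : A ∈ LS K P) (ω : Finset (ℕ × Fin K)) (i : Fin K) :
    xx γ (insert (p, i) A) ω = (γ p - if (p, i) ∈ ω then 1 else 0) * xx γ A ω := by
  unfold xx
  rw [prod_insert (notMem_of_LS hp hA i)]

private theorem ma_xx_of_insert {K : ℕ} (γ : ℕ → ℝ) {P : Finset ℕ} {p : ℕ} (hp : p ∉ P)
    {A : Finset (ℕ × Fin K)} (hA : A ∈ LS K P) (ω : Finset (ℕ × Fin K)) (j : Fin K) :
    xx γ A (insert (p, j) ω) = xx γ A ω := by
  unfold xx
  refine prod_congr rfl fun a ha => ?_
  have h : a ≠ (p, j) := by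
    rintro rfl
    exact notMem_of_LS hp hA j ha
  simp only [mem_insert, h, false_or]

private theorem ma_ff_same {K : ℕ} (γ : ℕ → ℝ) {P : Finset ℕ} {p : ℕ} (hp : p ∉ P)
    (Y : Finset (ℕ × Fin K) → ℝ) {ω : Finset (ℕ × Fin K)} (hω : ω ∈ LS K P) :
    ff γ (insert p P) Y ω =
      ff γ P Y ω + γ p * ∑ i : Fin K, ff γ P (fun A => Y (insert (p, i) A)) ω := by
  unfold ff
  rw [sum_LS_insert P p hp, sum_add_distrib, sum_comm, mul_sum]
  congr 1
  refine sum_congr rfl fun i _ => ?_
  rw [mul_sum]
  refine sum_congr rfl fun A hA => ?_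
  rw [ma_xx_insert γ hp hA, if_neg (notMem_of_LS hp hω i)]
  ring

private theorem ma_ff_lab {K : ℕ} (γ : ℕ → ℝ) {P : Finset ℕ} {p : ℕ} (hp : p ∉ P)
    (Y : Finset (ℕ × Fin K) → ℝ) {ω : Finset (ℕ × Fin K)} (hω : ω ∈ LS K P) (j : Fin K) :
    ff γ (insert p P) Y (insert (p, j) ω) =
      ff γ P Y ω + γ p * ∑ i : Fin K, ff γ P (fun A => Y (insert (p, i) A)) ω -
        ff γ P (fun A => Y (insert (p, j) A)) ω := by
  have h1 : ff γ (insert p P) Y (insert (p, j) ω) =
      ff γ P Y ω + ∑ i : Fin K, (γ p - if i = j then 1 else 0) *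
        ff γ P (fun A => Y (insert (p, i) A)) ω := by
    unfold ff
    rw [sum_LS_insert P p hp, sum_add_distrib, sum_comm]
    congr 1
    · refine sum_congr rfl fun A hA => ?_
      rw [ma_xx_of_insert γ hp hA]
    · refine sum_congr rfl fun i _ => ?_
      rw [mul_sum]
      refine sum_congr rfl fun A hA => ?_
      rw [ma_xx_insert γ hp hA, ma_xx_of_insert γ hp hA]
      have h2 : ((p, i) ∈ insert (p, j) ω) ↔ i = j := by
        rw [mem_insert]
        constructor
        · rintro (h | h)
          · exact (Prod.ext_iff.1 h).2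
          · exact absurd h (notMem_of_LS hp hω i)
        · rintro rfl
          exact Or.inl rfl
      simp only [h2]
      ring
  rw [h1]
  simp only [sub_mul, sum_sub_distrib, ite_mul, one_mul, zero_mul, sum_ite_eq', mem_univ, if_true]
  rw [mul_sum]
  ring

private noncomputable def maL {K : ℕ} (P : Finset ℕ) (j : Fin K) (lam : Finset ℕ → ℝ)
    (ω : Finset (ℕ × Fin K)) : ℝ :=
  ∑ S ∈ P.powerset, lam S * ∏ p ∈ S, (gg p - if (p, j) ∈ ω then 1 else 0)

private theorem maL_insert {K : ℕ} (P : Finset ℕ) (j : Fin K) (lam : Finset ℕ → ℝ)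
    (ω : Finset (ℕ × Fin K)) (p : ℕ) (hp : p ∉ P) :
    maL (insert p P) j lam ω = maL P j lam ω +
      (gg p - if (p, j) ∈ ω then 1 else 0) * maL P j (fun S => lam (insert p S)) ω := by
  unfold maL
  rw [sum_powerset_insert hp, mul_sum]
  congr 1
  refine sum_congr rfl fun S hS => ?_
  rw [prod_insert (fun h => hp (mem_powerset.1 hS h))]
  ring

private theorem maL_of_insert {K : ℕ} (P : Finset ℕ) (j l : Fin K) (lam : Finset ℕ → ℝ)
    (ω : Finset (ℕ × Fin K)) (p : ℕ) (hp : p ∉ P) :
    maL P j lam (insert (p, l) ω) = maL P j lam ω := by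
  unfold maL
  refine sum_congr rfl fun S hS => ?_
  congr 1
  refine prod_congr rfl fun q hq => ?_
  have h : (q, j) ≠ (p, l) := by
    intro h
    have h1 : q = p := (Prod.ext_iff.1 h).1
    exact hp (h1 ▸ mem_powerset.1 hS hq)
  simp only [mem_insert, h, false_or]

private noncomputable def maW {K : ℕ} (P : Finset ℕ) (A : Finset (ℕ × Fin K)) : ℝ :=
  (∏ p ∈ P, (1 + K * gg p ^ 2)) * ∏ c ∈ A, (1 + K * gg c.1)

private structure maD {K : ℕ} (P : Finset ℕ) (j : Fin K) (Z MZ : Finset (ℕ × Fin K) → ℝ)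
    (lam ML : Finset ℕ → ℝ) (V : Finset (ℕ × Fin K) → ℝ) : Prop where
  eq : ∀ ω ∈ LS K P, ff gg P Z ω * maL P j lam ω = ff gg P V ω
  bd : ∀ A ∈ LS K P, |V A| ≤ MZ (A.filter (fun c => c.2 ≠ j)) * ML (lb j A) * maW P A
  zero : ∀ A, A ∉ LS K P → V A = 0
  supp : ∀ A, V A ≠ 0 → ∃ A₁ S, Z A₁ ≠ 0 ∧ lam S ≠ 0 ∧ A₁ ∈ LS K P ∧ S ⊆ P ∧
        A ⊆ A₁ ∪ S.image (fun p => (p, j))

private theorem ma_cases {K : ℕ} {P : Finset ℕ} {p : ℕ} (hp : p ∉ P) {A : Finset (ℕ × Fin K)}
    (hA : A ∈ LS K (insert p P)) : A ∈ LS K P ∨ ∃ l, ∃ B ∈ LS K P, A = insert (p, l) B := by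
  rw [mem_LS] at hA
  obtain ⟨h1, h2⟩ := hA
  by_cases h3 : ∃ l, (p, l) ∈ A
  · obtain ⟨l, hl⟩ := h3
    refine Or.inr ⟨l, A.erase (p, l), ?_, (insert_erase hl).symm⟩
    rw [mem_LS]
    refine ⟨fun a ha => ?_, fun a ha b hb hab => h2 a (mem_of_mem_erase ha) b
      (mem_of_mem_erase hb) hab⟩
    rcases mem_insert.1 (h1 a (mem_of_mem_erase ha)) with h | h
    · exact absurd (h2 a (mem_of_mem_erase ha) (p, l) hl h) (ne_of_mem_erase ha)
    · exact h
  · refine Or.inl (mem_LS.2 ⟨fun a ha => ?_, h2⟩)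
    rcases mem_insert.1 (h1 a ha) with h | h
    · exact absurd ⟨a.2, by rw [← h]; exact ha⟩ h3
    · exact h

private theorem ma_sub {K : ℕ} {P : Finset ℕ} {p : ℕ} {A : Finset (ℕ × Fin K)}
    (hA : A ∈ LS K P) : A ∈ LS K (insert p P) := by
  rw [mem_LS] at hA ⊢
  exact ⟨fun a ha => mem_insert_of_mem (hA.1 a ha), hA.2⟩

private theorem ma_main {K : ℕ} (j : Fin K) (P : Finset ℕ) : (∀ p ∈ P, 0 ≤ gg p) →
    ∀ (Z MZ : Finset (ℕ × Fin K) → ℝ) (lam ML : Finset ℕ → ℝ),
    (∀ A, |Z A| ≤ MZ A) → (∀ A, (∃ c ∈ A, c.2 = j) → Z A = 0) →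
    (∀ A B, A ⊆ B → MZ B ≤ MZ A) → (∀ S, |lam S| ≤ ML S) → (∀ S T, S ⊆ T → ML T ≤ ML S) →
    ∃ V, maD P j Z MZ lam ML V := by
  induction P using Finset.induction_on with
  | empty =>
    intro _ Z MZ lam ML hZ hZj hMZ hlam hML
    have hLS : LS K (∅ : Finset ℕ) = {∅} := by
      ext A
      rw [mem_LS, mem_singleton]
      constructor
      · rintro ⟨h1, -⟩
        rw [eq_empty_iff_forall_notMem]
        intro a ha
        exact absurd (h1 a ha) (notMem_empty _)
      · rintro rfl
        exact ⟨fun a ha => absurd ha (notMem_empty _), fun a ha => absurd ha (notMem_empty _)⟩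
    refine ⟨fun A => if A = ∅ then Z ∅ * lam ∅ else 0, ?_, ?_, ?_, ?_⟩
    · intro ω hω
      unfold ff maL
      rw [hLS]
      simp [xx]
    · intro A hA
      rw [hLS, mem_singleton] at hA
      subst hA
      have h1 : lb j (∅ : Finset (ℕ × Fin K)) = ∅ := by simp [lb]
      rw [if_pos rfl, h1]
      simp only [filter_empty, maW, prod_empty, mul_one]
      rw [abs_mul]
      exact mul_le_mul (hZ _) (hlam _) (abs_nonneg _) ((abs_nonneg _).trans (hZ _))
    · intro A hA
      rw [hLS, mem_singleton] at hA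
      rw [if_neg hA]
    · intro A hA
      have h1 : A = ∅ := by
        by_contra h
        exact hA (if_neg h)
      subst h1
      rw [if_pos rfl] at hA
      refine ⟨∅, ∅, left_ne_zero_of_mul hA, right_ne_zero_of_mul hA, ?_, subset_rfl, empty_subset _⟩
      rw [hLS]
      exact mem_singleton_self _
  | insert p P hp ih =>
    intro hP' Z MZ lam ML hZ hZj hMZ hlam hML
    have hP : ∀ q ∈ P, 0 ≤ gg q := fun q hq => hP' q (mem_insert_of_mem hq)
    have hg : 0 ≤ gg p := hP' p (mem_insert_self _ _)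
    have hMZ0 : ∀ A, 0 ≤ MZ A := fun A => (abs_nonneg _).trans (hZ A)
    have hML0 : ∀ S, 0 ≤ ML S := fun S => (abs_nonneg _).trans (hlam S)
    obtain ⟨V00, h00⟩ := ih hP Z MZ lam ML hZ hZj hMZ hlam hML
    obtain ⟨V01, h01⟩ := ih hP Z MZ (fun S => lam (insert p S)) (fun S => ML (insert p S)) hZ hZj hMZ
      (fun S => hlam _) (fun S T h => hML _ _ (insert_subset_insert p h))
    have hZl : ∀ l : Fin K, ∀ A : Finset (ℕ × Fin K), (∃ c ∈ A, c.2 = j) →
        Z (insert (p, l) A) = 0 := by
      rintro l A ⟨c, hc, hcj⟩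
      exact hZj _ ⟨c, mem_insert_of_mem hc, hcj⟩
    choose V0 h0 using fun l : Fin K => ih hP (fun A => Z (insert (p, l) A))
      (fun A => MZ (insert (p, l) A)) lam ML (fun A => hZ _) (hZl l)
      (fun A B h => hMZ _ _ (insert_subset_insert _ h)) hlam hML
    choose V1 h1 using fun l : Fin K => ih hP (fun A => Z (insert (p, l) A))
      (fun A => MZ (insert (p, l) A)) (fun S => lam (insert p S)) (fun S => ML (insert p S))
      (fun A => hZ _) (hZl l) (fun A B h => hMZ _ _ (insert_subset_insert _ h))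
      (fun S => hlam _) (fun S T h => hML _ _ (insert_subset_insert p h))
    let V : Finset (ℕ × Fin K) → ℝ := fun A =>
      if A ∈ LS K (insert p P) then
        (if (p, j) ∈ A then V01 (A.filter (fun c => c.1 ≠ p)) +
            gg p * ∑ l, V1 l (A.filter (fun c => c.1 ≠ p))
        else if ∃ l, (p, l) ∈ A then
          ∑ l, (if (p, l) ∈ A then V0 l (A.filter (fun c => c.1 ≠ p)) +
            gg p * V1 l (A.filter (fun c => c.1 ≠ p)) else 0)
        else V00 (A.filter (fun c => c.1 ≠ p)) -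
          gg p ^ 2 * ∑ l, V1 l (A.filter (fun c => c.1 ≠ p)))
      else 0
    have hfil : ∀ B ∈ LS K P, B.filter (fun c => c.1 ≠ p) = B := by
      intro B hB
      rw [filter_eq_self]
      intro c hc h
      exact hp (h ▸ (mem_LS.1 hB).1 c hc)
    have hfil' : ∀ B ∈ LS K P, ∀ l : Fin K, (insert (p, l) B).filter (fun c => c.1 ≠ p) = B := by
      intro B hB l
      rw [filter_insert, if_neg (by simp), hfil B hB]
    have hmemi : ∀ B ∈ LS K P, ∀ l l' : Fin K, (p, l') ∈ insert (p, l) B ↔ l' = l := by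
      intro B hB l l'
      rw [mem_insert]
      constructor
      · rintro (h | h)
        · exact (Prod.ext_iff.1 h).2
        · exact absurd h (notMem_of_LS hp hB l')
      · rintro rfl
        exact Or.inl rfl
    have hV0 : ∀ B ∈ LS K P, V B = V00 B - gg p ^ 2 * ∑ l, V1 l B := by
      intro B hB
      simp only [V]
      rw [if_pos (ma_sub hB), if_neg (notMem_of_LS hp hB j),
        if_neg (fun ⟨l, hl⟩ => notMem_of_LS hp hB l hl), hfil B hB]
    have hVj : ∀ B ∈ LS K P, V (insert (p, j) B) = V01 B + gg p * ∑ l, V1 l B := by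
      intro B hB
      simp only [V]
      rw [if_pos (insert_mem_LS hp hB j), if_pos (mem_insert_self _ _), hfil' B hB j]
    have hVl : ∀ B ∈ LS K P, ∀ l, l ≠ j → V (insert (p, l) B) = V0 l B + gg p * V1 l B := by
      intro B hB l hl
      simp only [V]
      rw [if_pos (insert_mem_LS hp hB l), if_neg (fun h => hl ((hmemi B hB l j).1 h).symm),
        if_pos ⟨l, mem_insert_self _ _⟩, hfil' B hB l]
      simp only [hmemi B hB l]
      rw [sum_ite_eq' univ l, if_pos (mem_univ _)]
    refine ⟨V, ?_, ?_, ?_, ?_⟩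
    · -- the identity
      have key : ∀ ω ∈ LS K P, ∃ F0 SF L0 L1 : ℝ, ∃ Fl : Fin K → ℝ, SF = ∑ l, Fl l ∧ Fl j = 0 ∧
          ff gg P Z ω = F0 ∧ (∀ l, ff gg P (fun A => Z (insert (p, l) A)) ω = Fl l) ∧
          maL P j lam ω = L0 ∧ maL P j (fun S => lam (insert p S)) ω = L1 ∧
          ff gg P V ω = F0 * L0 - gg p ^ 2 * (SF * L1) ∧
          (∀ l, ff gg P (fun A => V (insert (p, l) A)) ω =
            Fl l * L0 + gg p * (Fl l * L1) + if l = j then F0 * L1 + gg p * (SF * L1) else 0) := by
        intro ω hω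
        refine ⟨ff gg P Z ω, ∑ l, ff gg P (fun A => Z (insert (p, l) A)) ω, maL P j lam ω,
          maL P j (fun S => lam (insert p S)) ω, fun l => ff gg P (fun A => Z (insert (p, l) A)) ω,
          rfl, ?_, rfl, fun _ => rfl, rfl, rfl, ?_, ?_⟩
        · unfold ff
          refine sum_eq_zero fun A _ => ?_
          beta_reduce
          rw [hZj _ ⟨(p, j), mem_insert_self _ _, rfl⟩, zero_mul]
        · have e1 : ff gg P V ω = ff gg P V00 ω - gg p ^ 2 * ∑ l, ff gg P (V1 l) ω := by
            unfold ff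
            rw [sum_comm, mul_sum, ← sum_sub_distrib]
            refine sum_congr rfl fun A hA => ?_
            rw [hV0 A hA, sub_mul, mul_assoc, sum_mul]
          rw [e1, ← h00.eq ω hω, sum_mul]
          congr 2
          refine sum_congr rfl fun l _ => ?_
          rw [← (h1 l).eq ω hω]
        · intro l
          by_cases hl : l = j
          · subst hl
            have e1 : ff gg P (fun A => V (insert (p, l) A)) ω =
                ff gg P V01 ω + gg p * ∑ l, ff gg P (V1 l) ω := by
              unfold ff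
              rw [sum_comm, mul_sum, ← sum_add_distrib]
              refine sum_congr rfl fun A hA => ?_
              beta_reduce
              rw [hVj A hA, add_mul, mul_assoc, sum_mul]
            have e2 : ff gg P (fun A => Z (insert (p, l) A)) ω = 0 := by
              unfold ff
              refine sum_eq_zero fun A _ => ?_
              beta_reduce
              rw [hZj _ ⟨(p, l), mem_insert_self _ _, rfl⟩, zero_mul]
            beta_reduce
            rw [e1, e2, if_pos rfl, ← h01.eq ω hω, sum_mul]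
            have e3 : ∑ l, ff gg P (V1 l) ω =
                ∑ i, ff gg P (fun A => Z (insert (p, i) A)) ω *
                  maL P l (fun S => lam (insert p S)) ω :=
              sum_congr rfl fun i _ => by rw [← (h1 i).eq ω hω]
            rw [e3]
            ring
          · have e1 : ff gg P (fun A => V (insert (p, l) A)) ω =
                ff gg P (V0 l) ω + gg p * ff gg P (V1 l) ω := by
              unfold ff
              rw [mul_sum, ← sum_add_distrib]
              refine sum_congr rfl fun A hA => ?_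
              beta_reduce
              rw [hVl A hA l hl]
              ring
            beta_reduce
            rw [e1, if_neg hl, ← (h0 l).eq ω hω, ← (h1 l).eq ω hω]
            ring
      intro ω hω
      rcases ma_cases hp hω with hω' | ⟨l, ω', hω', rfl⟩
      · obtain ⟨F0, SF, L0, L1, Fl, hSF, hFj, k1, k2, k3, k4, k5, k6⟩ := key ω hω'
        rw [ma_ff_same gg hp Z hω', maL_insert P j lam ω p hp, if_neg (notMem_of_LS hp hω' j),
          ma_ff_same gg hp V hω', k1, k3, k4, k5]
        simp only [k2, k6]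
        rw [sum_add_distrib, sum_add_distrib, ← sum_mul, ← mul_sum, ← sum_mul,
          sum_ite_eq' univ j, if_pos (mem_univ _), ← hSF]
        ring
      · obtain ⟨F0, SF, L0, L1, Fl, hSF, hFj, k1, k2, k3, k4, k5, k6⟩ := key ω' hω'
        rw [ma_ff_lab gg hp Z hω' l, maL_insert P j lam _ p hp, maL_of_insert P j l _ _ p hp,
          maL_of_insert P j l _ _ p hp, ma_ff_lab gg hp V hω' l, k1, k3, k4, k5]
        simp only [k2, k6, hmemi ω' hω' l j]
        rw [sum_add_distrib, sum_add_distrib, ← sum_mul, ← mul_sum, ← sum_mul,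
          sum_ite_eq' univ j, if_pos (mem_univ _), ← hSF]
        by_cases hl : l = j
        · subst hl
          rw [if_pos rfl, if_pos rfl, hFj]
          ring
        · rw [if_neg hl, if_neg (Ne.symm hl)]
          ring
    · -- the bound
      have hK : (1 : ℝ) ≤ K := by
        have : K ≠ 0 := by
          rintro rfl
          exact j.elim0
        exact_mod_cast Nat.one_le_iff_ne_zero.2 this
      have hW0 : ∀ B ∈ LS K P, 0 ≤ maW P B := by
        intro B hB
        unfold maW
        refine mul_nonneg (prod_nonneg fun q hq => ?_) (prod_nonneg fun c hc => ?_)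
        · positivity
        · have := hP c.1 ((mem_LS.1 hB).1 c hc)
          positivity
      have hW1 : ∀ B : Finset (ℕ × Fin K), maW (insert p P) B = (1 + K * gg p ^ 2) * maW P B := by
        intro B
        unfold maW
        rw [prod_insert hp, mul_assoc]
      have hW2 : ∀ B ∈ LS K P, ∀ l : Fin K, maW P (insert (p, l) B) = (1 + K * gg p) * maW P B := by
        intro B hB l
        unfold maW
        rw [prod_insert (notMem_of_LS hp hB l)]
        ring
      have b1 : ∀ B ∈ LS K P, ∀ l, |V1 l B| ≤ MZ (B.filter (fun c => c.2 ≠ j)) *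
          ML (insert p (lb j B)) * maW P B := by
        intro B hB l
        refine ((h1 l).bd B hB).trans ?_
        refine mul_le_mul_of_nonneg_right (mul_le_mul_of_nonneg_right
          (hMZ _ _ (subset_insert _ _)) (hML0 _)) (hW0 B hB)
      have b1' : ∀ B ∈ LS K P, ∑ l, |V1 l B| ≤ K * (MZ (B.filter (fun c => c.2 ≠ j)) *
          ML (insert p (lb j B)) * maW P B) := by
        intro B hB
        refine (sum_le_sum fun l _ => b1 B hB l).trans (le_of_eq ?_)
        rw [sum_const, card_univ, Fintype.card_fin, nsmul_eq_mul]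
      intro A hA
      rcases ma_cases hp hA with hB | ⟨l, B, hB, rfl⟩
      · rw [hV0 A hB, hW1]
        have e1 := h00.bd A hB
        have e2 := b1' A hB
        have e3 : MZ (A.filter (fun c => c.2 ≠ j)) * ML (insert p (lb j A)) * maW P A ≤
            MZ (A.filter (fun c => c.2 ≠ j)) * ML (lb j A) * maW P A :=
          mul_le_mul_of_nonneg_right (mul_le_mul_of_nonneg_left (hML _ _ (subset_insert _ _))
            (hMZ0 _)) (hW0 A hB)
        have e4 : |∑ l, V1 l A| ≤ K * (MZ (A.filter (fun c => c.2 ≠ j)) * ML (lb j A) * maW P A) :=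
          (abs_sum_le_sum_abs _ _).trans (e2.trans (mul_le_mul_of_nonneg_left e3 (by linarith)))
        calc |V00 A - gg p ^ 2 * ∑ l, V1 l A| ≤ |V00 A| + |gg p ^ 2 * ∑ l, V1 l A| := abs_sub _ _
          _ = |V00 A| + gg p ^ 2 * |∑ l, V1 l A| := by
            rw [abs_mul, abs_of_nonneg (sq_nonneg (gg p))]
          _ ≤ MZ (A.filter (fun c => c.2 ≠ j)) * ML (lb j A) * maW P A +
              gg p ^ 2 * (K * (MZ (A.filter (fun c => c.2 ≠ j)) * ML (lb j A) * maW P A)) :=
            add_le_add e1 (mul_le_mul_of_nonneg_left e4 (sq_nonneg _))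
          _ = _ := by ring
      · by_cases hl : l = j
        · subst hl
          have f1 : (insert (p, l) B).filter (fun c => c.2 ≠ l) = B.filter (fun c => c.2 ≠ l) := by
            rw [filter_insert, if_neg (by simp)]
          have f2 : lb l (insert (p, l) B) = insert p (lb l B) := by
            unfold lb
            rw [filter_insert, if_pos rfl, image_insert]
          rw [hVj B hB, hW1, hW2 B hB, f1, f2]
          have e1 := h01.bd B hB
          have e2 := (abs_sum_le_sum_abs _ _).trans (b1' B hB)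
          set X := MZ (B.filter (fun c => c.2 ≠ l)) * ML (insert p (lb l B)) * maW P B with hX
          have hX0 : 0 ≤ X := mul_nonneg (mul_nonneg (hMZ0 _) (hML0 _)) (hW0 B hB)
          calc |V01 B + gg p * ∑ l, V1 l B| ≤ |V01 B| + |gg p * ∑ l, V1 l B| := abs_add_le _ _
            _ = |V01 B| + gg p * |∑ l, V1 l B| := by rw [abs_mul (gg p), abs_of_nonneg hg]
            _ ≤ X + gg p * (K * X) := add_le_add e1 (mul_le_mul_of_nonneg_left e2 hg)
            _ = (1 + K * gg p) * X := by ring
            _ ≤ (1 + K * gg p ^ 2) * ((1 + K * gg p) * X) := by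
              refine le_mul_of_one_le_left (by positivity) ?_
              have : 0 ≤ (K : ℝ) * gg p ^ 2 := by positivity
              linarith
            _ = _ := by
              rw [hX]
              ring
        · have f1 : (insert (p, l) B).filter (fun c => c.2 ≠ j) =
              insert (p, l) (B.filter (fun c => c.2 ≠ j)) := by
            rw [filter_insert, if_pos (by simpa using hl)]
          have f2 : lb j (insert (p, l) B) = lb j B := by
            unfold lb
            rw [filter_insert, if_neg (by simpa using hl)]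
          rw [hVl B hB l hl, hW1, hW2 B hB, f1, f2]
          have e1 := (h0 l).bd B hB
          have e2 := (h1 l).bd B hB
          beta_reduce at e1 e2
          set X := MZ (insert (p, l) (B.filter (fun c => c.2 ≠ j))) * ML (lb j B) * maW P B with hX
          have hX0 : 0 ≤ X := mul_nonneg (mul_nonneg (hMZ0 _) (hML0 _)) (hW0 B hB)
          have e3 : |V1 l B| ≤ X := by
            refine e2.trans ?_
            rw [hX]
            exact mul_le_mul_of_nonneg_right (mul_le_mul_of_nonneg_left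
              (hML _ _ (subset_insert _ _)) (hMZ0 _)) (hW0 B hB)
          calc |V0 l B + gg p * V1 l B| ≤ |V0 l B| + |gg p * V1 l B| := abs_add_le _ _
            _ = |V0 l B| + gg p * |V1 l B| := by rw [abs_mul (gg p), abs_of_nonneg hg]
            _ ≤ X + gg p * X := add_le_add e1 (mul_le_mul_of_nonneg_left e3 hg)
            _ = (1 + gg p) * X := by ring
            _ ≤ (1 + K * gg p) * X := by
              refine mul_le_mul_of_nonneg_right ?_ hX0
              nlinarith
            _ ≤ (1 + K * gg p ^ 2) * ((1 + K * gg p) * X) := by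
              refine le_mul_of_one_le_left (by positivity) ?_
              have : 0 ≤ (K : ℝ) * gg p ^ 2 := by positivity
              linarith
            _ = _ := by
              rw [hX]
              ring
    · intro A hA
      simp only [V]
      rw [if_neg hA]
    · intro A hVA
      have hA : A ∈ LS K (insert p P) := by
        by_contra h
        apply hVA
        simp only [V]
        rw [if_neg h]
      have s1 : ∀ B, (∑ l, V1 l B) ≠ 0 → ∃ A₁ S, ∃ l : Fin K, Z (insert (p, l) A₁) ≠ 0 ∧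
          lam (insert p S) ≠ 0 ∧ A₁ ∈ LS K P ∧ S ⊆ P ∧ B ⊆ A₁ ∪ S.image (fun p => (p, j)) := by
        intro B hB
        obtain ⟨l, -, hl⟩ := exists_ne_zero_of_sum_ne_zero hB
        obtain ⟨A₁, S, k1, k2, k3, k4, k5⟩ := (h1 l).supp B hl
        exact ⟨A₁, S, l, k1, k2, k3, k4, k5⟩
      have t1 : ∀ A₁ : Finset (ℕ × Fin K), ∀ l : Fin K, ∀ B : Finset (ℕ × Fin K), ∀ S : Finset ℕ,
          B ⊆ A₁ ∪ S.image (fun p => (p, j)) →
          B ⊆ insert (p, l) A₁ ∪ (insert p S).image (fun p => (p, j)) := by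
        intro A₁ l B S h
        refine h.trans (union_subset_union (subset_insert _ _) ?_)
        exact image_subset_image (subset_insert _ _)
      rcases ma_cases hp hA with hB | ⟨l, B, hB, rfl⟩
      · rw [hV0 A hB] at hVA
        by_cases h2 : (∑ l, V1 l A) = 0
        · rw [h2, mul_zero, sub_zero] at hVA
          obtain ⟨A₁, S, k1, k2, k3, k4, k5⟩ := h00.supp A hVA
          exact ⟨A₁, S, k1, k2, ma_sub k3, k4.trans (subset_insert _ _), k5⟩
        · obtain ⟨A₁, S, l, k1, k2, k3, k4, k5⟩ := s1 A h2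
          exact ⟨insert (p, l) A₁, insert p S, k1, k2, insert_mem_LS hp k3 l,
            insert_subset_insert _ k4, t1 A₁ l A S k5⟩
      · by_cases hl : l = j
        · subst hl
          rw [hVj B hB] at hVA
          have hpS : ∀ S : Finset ℕ, (p, l) ∈ (insert p S).image (fun p => (p, l)) := fun S =>
            mem_image_of_mem _ (mem_insert_self _ _)
          by_cases h2 : (∑ l, V1 l B) = 0
          · rw [h2, mul_zero, add_zero] at hVA
            obtain ⟨A₁, S, k1, k2, k3, k4, k5⟩ := h01.supp B hVA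
            refine ⟨A₁, insert p S, k1, k2, ma_sub k3, insert_subset_insert _ k4, ?_⟩
            rw [insert_subset_iff]
            refine ⟨mem_union_right _ (hpS S), k5.trans (union_subset_union_right ?_)⟩
            exact image_subset_image (subset_insert _ _)
          · obtain ⟨A₁, S, l', k1, k2, k3, k4, k5⟩ := s1 B h2
            refine ⟨insert (p, l') A₁, insert p S, k1, k2, insert_mem_LS hp k3 l',
              insert_subset_insert _ k4, ?_⟩
            rw [insert_subset_iff]
            exact ⟨mem_union_right _ (hpS S), t1 A₁ l' B S k5⟩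
        · rw [hVl B hB l hl] at hVA
          by_cases h2 : V1 l B = 0
          · rw [h2, mul_zero, add_zero] at hVA
            obtain ⟨A₁, S, k1, k2, k3, k4, k5⟩ := (h0 l).supp B hVA
            refine ⟨insert (p, l) A₁, S, k1, k2, insert_mem_LS hp k3 l,
              k4.trans (subset_insert _ _), ?_⟩
            rw [insert_subset_iff]
            refine ⟨mem_union_left _ (mem_insert_self _ _), k5.trans (union_subset_union_left ?_)⟩
            exact subset_insert _ _
          · obtain ⟨A₁, S, k1, k2, k3, k4, k5⟩ := (h1 l).supp B h2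
            refine ⟨insert (p, l) A₁, insert p S, k1, k2, insert_mem_LS hp k3 l,
              insert_subset_insert _ k4, ?_⟩
            rw [insert_subset_iff]
            exact ⟨mem_union_left _ (mem_insert_self _ _), t1 A₁ l B S k5⟩

theorem dec {K : ℕ} (P' : Finset ℕ) (hP' : ∀ p ∈ P', 0 ≤ gg p) (j : Fin K)
    (Z MZ : Finset (ℕ × Fin K) → ℝ) (lam ML : Finset ℕ → ℝ)
    (hZ : ∀ A, |Z A| ≤ MZ A) (hZj : ∀ A, (∃ c ∈ A, c.2 = j) → Z A = 0)
    (hMZ : ∀ A B, A ⊆ B → MZ B ≤ MZ A) (hlam : ∀ S, |lam S| ≤ ML S)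
    (hML : ∀ S T, S ⊆ T → ML T ≤ ML S) :
    ∃ V : Finset (ℕ × Fin K) → ℝ,
      (∀ ω ∈ LS K P', ff gg P' Z ω *
          (∑ S ∈ P'.powerset, lam S * ∏ p ∈ S, (gg p - if (p, j) ∈ ω then 1 else 0)) =
        ff gg P' V ω) ∧
      (∀ A ∈ LS K P', |V A| ≤ MZ (A.filter (fun c => c.2 ≠ j)) * ML (lb j A) *
        ((∏ p ∈ P', (1 + K * gg p ^ 2)) * ∏ c ∈ A, (1 + K * gg c.1))) ∧
      (∀ A, A ∉ LS K P' → V A = 0) ∧
      (∀ A, V A ≠ 0 → ∃ A₁ S, Z A₁ ≠ 0 ∧ lam S ≠ 0 ∧ A₁ ∈ LS K P' ∧ S ⊆ P' ∧
        A ⊆ A₁ ∪ S.image (fun p => (p, j))) := by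
  obtain ⟨V, h⟩ := ma_main j P' hP' Z MZ lam ML hZ hZj hMZ hlam hML
  exact ⟨V, h.eq, h.bd, h.zero, h.supp⟩

end Pool.Agent.Work.MP_70e905_nt.M3
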