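import Pool.Agent.Work.MP_70e905_nt.M3.Defs
import Pool.Agent.Work.MP_70e905_nt.MT.F1

/-!
MODULE N3 (lower bound of `Nz`, elements of `P` of small size), size S.

`Q c W t ⊆ Q c W u`; `Nz_mono` and `Nz_low2` (MT/F1) with `u := t`.
-/

set_option autoImplicit false

namespace Pool.Agent.Work.MP_70e905_nt.M3

open Finset Pool.Agent.Work.MP_73869e_nt.TH Pool.Agent.Work.MP_70e905_nt.MT

theorem Nz_lowt {K : ℕ} (c : Cfg K) (W : ℕ) (t u : ℝ) (hx : 1 ≤ c.x) (ht : 0 ≤ t) (htu : t ≤ u)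
    (hu : u ≤ 1) (E : Finset ℕ) (hE : ∀ p ∈ E, p.Prime) :
    c.κ W * rt E * (t * Real.log c.x) ≤ Nz (Q c W u \ E) ((c.x : ℝ) ^ t) := by
  have hx1 : (1 : ℝ) ≤ c.x := by exact_mod_cast hx
  refine (Nz_low2 c W t hx ht (htu.trans hu) E hE).trans ?_
  refine Nz_mono _ _ ?_ ?_ _
  · intro p hp
    rw [mem_sdiff] at hp ⊢
    refine ⟨?_, hp.2⟩
    have h1 := hp.1
    unfold Q
    unfold Cfg.PZ at h1 ⊢
    rw [mem_filter, mem_Icc] at h1 ⊢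
    refine ⟨⟨h1.1.1, h1.1.2.trans ?_⟩, h1.2⟩
    exact Nat.floor_le_floor (Real.rpow_le_rpow_of_exponent_le hx1 htu)
  · intro p hp
    have h1 := (mem_sdiff.1 hp).1
    unfold Q Cfg.PZ at h1
    exact (mem_filter.1 h1).2.1

theorem Q_mem {K : ℕ} (c : Cfg K) (D₀ W A₀ C : ℕ) (u : ℝ) (hc : c.Ok D₀ W A₀ C) (hx : 1 ≤ c.x)
    (p : ℕ) : p ∈ Q c W u ↔ (p : ℝ) ≤ (c.x : ℝ) ^ u ∧ p.Prime ∧ ¬ p ∣ W ∧ ¬ bd c.a c.b p := by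
  have hx1 : (0 : ℝ) < c.x := by exact_mod_cast hx
  unfold Q Cfg.PZ
  rw [mem_filter, mem_Icc, Nat.le_floor_iff (Real.rpow_nonneg hx1.le u)]
  constructor
  · rintro ⟨⟨_, h2⟩, h3⟩
    exact ⟨h2, h3⟩
  · rintro ⟨h2, h3⟩
    exact ⟨⟨h3.1.one_lt.le, h2⟩, h3⟩

theorem Q_props {K : ℕ} (c : Cfg K) (D₀ W A₀ C : ℕ) (u : ℝ) (hc : c.Ok D₀ W A₀ C) (hx : 1 ≤ c.x)
    (p : ℕ) (hp : p ∈ Q c W u) : p.Prime ∧ D₀ < p ∧ ¬ p ∣ W ∧ (∀ i, ¬ p ∣ c.a i) ∧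
      ¬ bd c.a c.b p := by
  obtain ⟨-, h2, h3, h4⟩ := (Q_mem c D₀ W A₀ C u hc hx p).1 hp
  refine ⟨h2, ?_, h3, fun i hi => h3 (hc.haW i p h2 hi), h4⟩
  by_contra h5
  push Not at h5
  exact h3 ((h2.dvd_primorial_iff.2 h5).trans hc.hDW)

end Pool.Agent.Work.MP_70e905_nt.M3
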