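import Pool.Agent.Work.MP_70e905_nt.M3.Defs
import Pool.Agent.Work.MP_70e905_nt.M3.MA
import Pool.Agent.Work.MP_70e905_nt.M3.LE
import Pool.Agent.Work.MP_70e905_nt.M3.H1
import Pool.Agent.Work.MP_70e905_nt.M3.N3
import Pool.Agent.Work.MP_70e905_nt.MT.A1
import Pool.Agent.Work.MP_70e905_nt.MT.C2
import Pool.Agent.Work.MP_70e905_nt.MT.E1
import Pool.Agent.Work.MP_70e905_nt.MT.M0
import Pool.Agent.Work.MP_70e905_nt.MT.C6

set_option autoImplicit false

/-!
MODULE MB (the coefficients of the decoupled majorant), size M-L.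

`P = c.P W δ ⊆ P' = Q c W u`, `R = x^u`, `u = 1/4 - 2 δ`. Apply `dec` (MA) to `Z' A = if A ∈ LS K P then Zij A else 0`
(`ff gg P' Z' ω = ff gg P Zij (om P)` for `ω = om P' z`: `xx_om` of MT/A1, as in `ff_Yg` of MT/E1), `lam S = if pd S ≤ R ∧ S ⊆ P'
then 1 / Nz P' R else 0`, `MZ A = if (A has no label i, j) then (∏_{l ≠ i,j} yy (pd (lb l A))) U1² else 0` restricted to labels with
first coordinate `≥ 1` (decreasing: `yy_anti`; take the `lb l (A ∩ (P' × Fin K))` to have positive products), `ML S = lam`-like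
indicator `if pd (S ∩ P') ≤ R then 1 / Nz P' R else 0` (decreasing). `Lam P' R n_j` is the second factor at `ω = om P' z`
(`(p, j) ∈ ω ↔ p ∣ n_j` for `p ∈ P'`).
Consequences: (1) the product formula; (2) `V A = 0` if `A` has the label `i` (support: `A ⊆ A₁ ∪ S × j`, `Zij A₁ ≠ 0` has no
label `i`); (3) `pr A ≤ pr A₁ * pd S ≤ x^δ x^u` (`ZZ_supp`); (4) `|V A| ≤ 2^K (C₁ lx)² * exp (∑ K gg²) * exp (K ∑ gg) ≤ (lx)^(K+3)` for
large `x` (`U1_up`, `sum_gg`; `Nz ≥ 1`); (5) `∑_{A ∈ LS K P'} V A² ga gg A ≤ exp (20 K² / D₀) U1^4 U2^(K-2) / Nz P' R`: sum over all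
`A ⊆ P' × Fin K` without label `i` (`prod_labels`): factor `exp (4 K / D₀)` from `∏ (1 + K gg²)²`, for every label `l ≠ i, j` a factor
`∑_S HH S yy² ∏ (1 + K gg)² ≤ exp (6 K / D₀)`-multiple of `U2 P` (sets `S ⊄ P`: `MZ` may be taken `0` if some label `≠ j` has its
prime outside `P` — then `MZ` is still decreasing), for the label `j` `∑_{pd S ≤ R} HH S ∏ (1 + K gg)² / Nz² ≤ exp (6K/D₀) / Nz`
(`Nh_out` of H1 with `k = 3 K gg`, `∑ gg² ≤ 2 / D₀`, `K gg ≤ 1`).
-/

namespace Pool.Agent.Work.MP_70e905_nt.M3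

open Finset Pool.Agent.Work.MP_73869e_nt.TH Pool.Agent.Work.MP_70e905_nt.MT

private theorem mb_gg {p : ℕ} (hp : p.Prime) : 0 ≤ gg p := by
  have h2 : (2 : ℝ) ≤ p := by exact_mod_cast hp.two_le
  unfold gg
  have : (0 : ℝ) < (p : ℝ) - 1 := by linarith
  positivity

private theorem mb_HH {S : Finset ℕ} (hS : ∀ p ∈ S, p.Prime) : 0 ≤ HH S :=
  Finset.prod_nonneg fun p hp => mb_gg (hS p hp)

private theorem mb_pd {S : Finset ℕ} (h : ∀ p ∈ S, p.Prime) : 1 ≤ pd S :=
  Nat.one_le_iff_ne_zero.2 (Finset.prod_ne_zero_iff.2 fun p hp => (h p hp).ne_zero)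

private theorem mb_pd_mono {S T : Finset ℕ} (hT : ∀ p ∈ T, p.Prime) (h : S ⊆ T) : pd S ≤ pd T :=
  Finset.prod_le_prod_of_subset_of_one_le' h fun p hp _ => (hT p hp).one_lt.le

private theorem mb_prod_lb {K : ℕ} {M : Type*} [CommMonoid M] (A : Finset (ℕ × Fin K))
    (f : ℕ → M) : ∏ a ∈ A, f a.1 = ∏ i, ∏ p ∈ lb i A, f p := by
  rw [← Finset.prod_fiberwise (s := A) (g := fun a : ℕ × Fin K => a.2) (f := fun a => f a.1)]
  refine Finset.prod_congr rfl fun i _ => ?_
  unfold lb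
  rw [Finset.prod_image]
  rintro ⟨p, k⟩ ha ⟨q, l⟩ hb hab
  have ha' := (mem_filter.1 ha).2
  have hb' := (mem_filter.1 hb).2
  simp only at ha' hb' hab
  rw [ha', hb', hab]

private theorem mb_restrict {K : ℕ} {P P' : Finset ℕ} (h : P ⊆ P')
    (F : Finset (ℕ × Fin K) → ℝ) [DecidablePred fun A => A ∈ LS K P] :
    ∑ A ∈ LS K P', (if A ∈ LS K P then F A else 0) = ∑ A ∈ LS K P, F A := by
  rw [← Finset.sum_filter]
  congr 1
  ext A
  rw [mem_filter]
  refine ⟨fun h1 => h1.2, fun h1 => ⟨?_, h1⟩⟩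
  rw [mem_LS] at h1 ⊢
  exact ⟨fun a ha => h (h1.1 a ha), h1.2⟩

/-- the majorant of the first factor -/
private noncomputable def mbZ {K : ℕ} (P : Finset ℕ) (x L : ℕ) (t₀ : ℝ) (i j : Fin K)
    (A : Finset (ℕ × Fin K)) : ℝ :=
  open Classical in
  if (∀ q ∈ A, q.2 ≠ i ∧ q.2 ≠ j) ∧ (∀ q ∈ A, q.1 ∈ P) then
    (∏ l ∈ (univ.erase i).erase j, yy x L t₀ (pd (lb l A))) * U1 P x L t₀ ^ 2 else 0

/-- the coefficients of the second factor -/
private noncomputable def mbL (P' : Finset ℕ) (R : ℝ) (S : Finset ℕ) : ℝ :=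
  open Classical in
  if ((pd (S ∩ P') : ℕ) : ℝ) ≤ R then 1 / Nz P' R else 0

private theorem mbZ_nn {K : ℕ} (P : Finset ℕ) (x L : ℕ) (t₀ : ℝ) (i j : Fin K)
    (A : Finset (ℕ × Fin K)) : 0 ≤ mbZ P x L t₀ i j A := by
  unfold mbZ
  split_ifs
  · exact mul_nonneg (Finset.prod_nonneg fun l _ => (yy_bd x L t₀ _).1) (sq_nonneg _)
  · exact le_rfl

private theorem mbZ_anti {K : ℕ} (P : Finset ℕ) (hP : ∀ p ∈ P, p.Prime) (x L : ℕ) (t₀ : ℝ)
    (i j : Fin K) (A B : Finset (ℕ × Fin K)) (h : A ⊆ B) :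
    mbZ P x L t₀ i j B ≤ mbZ P x L t₀ i j A := by
  by_cases hB : (∀ q ∈ B, q.2 ≠ i ∧ q.2 ≠ j) ∧ (∀ q ∈ B, q.1 ∈ P)
  · have hA : (∀ q ∈ A, q.2 ≠ i ∧ q.2 ≠ j) ∧ (∀ q ∈ A, q.1 ∈ P) :=
      ⟨fun q hq => hB.1 q (h hq), fun q hq => hB.2 q (h hq)⟩
    unfold mbZ
    rw [if_pos hA, if_pos hB]
    refine mul_le_mul_of_nonneg_right ?_ (sq_nonneg _)
    refine Finset.prod_le_prod (fun l _ => (yy_bd x L t₀ _).1) fun l _ => ?_
    refine yy_anti x L t₀ _ _ (mb_pd_mono (fun p hp => ?_) fun p hp => ?_)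
    · rw [mem_lb] at hp
      exact hP _ (hB.2 _ hp)
    · rw [mem_lb] at hp ⊢
      exact h hp
  · have h1 : mbZ P x L t₀ i j B = 0 := by
      unfold mbZ
      rw [if_neg hB]
    rw [h1]
    exact mbZ_nn P x L t₀ i j A

private theorem mbL_nn (P' : Finset ℕ) (R : ℝ) (h : 0 < Nz P' R) (S : Finset ℕ) :
    0 ≤ mbL P' R S := by
  unfold mbL
  split_ifs
  · positivity
  · exact le_rfl

private theorem mbL_anti (P' : Finset ℕ) (hP' : ∀ p ∈ P', p.Prime) (R : ℝ) (h : 0 < Nz P' R)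
    (S T : Finset ℕ) (hST : S ⊆ T) : mbL P' R T ≤ mbL P' R S := by
  by_cases hT : ((pd (T ∩ P') : ℕ) : ℝ) ≤ R
  · have h1 : pd (S ∩ P') ≤ pd (T ∩ P') :=
      mb_pd_mono (fun p hp => hP' p (mem_inter.1 hp).2) (inter_subset_inter_right hST)
    have hS : ((pd (S ∩ P') : ℕ) : ℝ) ≤ R := by
      refine le_trans ?_ hT
      exact_mod_cast h1
    unfold mbL
    rw [if_pos hT, if_pos hS]
  · have h1 : mbL P' R T = 0 := by
      unfold mbL
      rw [if_neg hT]
    rw [h1]
    exact mbL_nn P' R h S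

/-- the sum of the squares of the majorants -/
private theorem mb_sum {K : ℕ} (D₀ : ℕ) (hD : 1 ≤ D₀) (P P' : Finset ℕ) (hPP' : P ⊆ P')
    (hP' : ∀ p ∈ P', p.Prime ∧ D₀ < p ∧ (K : ℝ) * gg p ≤ 1) (x L : ℕ) (t₀ : ℝ) (i j : Fin K)
    (hij : i ≠ j) (R : ℝ) (hR : 1 ≤ R) :
    ∑ A ∈ LS K P', (mbZ P x L t₀ i j (A.filter (fun q => q.2 ≠ j)) * mbL P' R (lb j A) *
        ((∏ p ∈ P', (1 + K * gg p ^ 2)) * ∏ q ∈ A, (1 + K * gg q.1))) ^ 2 * ga gg A ≤
      Real.exp (20 * (K : ℝ) ^ 2 / D₀) * U1 P x L t₀ ^ 4 * U2 P x L t₀ ^ (K - 2) / Nz P' R := by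
  classical
  have hp' : ∀ p ∈ P', p.Prime := fun p hp => (hP' p hp).1
  have hN1 : 1 ≤ Nz P' R := Nz_ge_one P' hp' R hR
  have hN : 0 < Nz P' R := lt_of_lt_of_le one_pos hN1
  have hD' : (0 : ℝ) < D₀ := by exact_mod_cast hD
  have hK1 : (1 : ℝ) ≤ K := by
    have : K ≠ 0 := by
      rintro rfl
      exact j.elim0
    exact_mod_cast Nat.one_le_iff_ne_zero.2 this
  have hg2 : ∑ p ∈ P', gg p ^ 2 ≤ 2 / D₀ := sum_gg2 D₀ hD P' fun p hp => (hP' p hp).2.1
  have hg2P : ∑ p ∈ P, gg p ^ 2 ≤ 2 / D₀ := sum_gg2 D₀ hD P fun p hp => (hP' p (hPP' hp)).2.1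
  set E : ℝ := ∏ p ∈ P', (1 + (K : ℝ) * gg p ^ 2) with hE
  have hE0 : 0 ≤ E := Finset.prod_nonneg fun p _ => by positivity
  have hE1 : E ≤ Real.exp (2 * K / D₀) := by
    have h1 : E ≤ Real.exp (∑ p ∈ P', (K : ℝ) * gg p ^ 2) := by
      rw [Real.exp_sum]
      refine Finset.prod_le_prod (fun p _ => by positivity) fun p _ => ?_
      have := Real.add_one_le_exp ((K : ℝ) * gg p ^ 2)
      linarith
    refine h1.trans (Real.exp_le_exp.2 ?_)
    rw [← Finset.mul_sum]
    have := mul_le_mul_of_nonneg_left hg2 (by linarith : (0 : ℝ) ≤ K)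
    calc (K : ℝ) * ∑ p ∈ P', gg p ^ 2 ≤ K * (2 / D₀) := this
      _ = _ := by ring
  have hE2 : E ^ 2 ≤ Real.exp (4 * K / D₀) := by
    calc E ^ 2 ≤ (Real.exp (2 * K / D₀)) ^ 2 := pow_le_pow_left₀ hE0 hE1 2
      _ = _ := by
        rw [← Real.exp_nat_mul]
        congr 1
        push_cast
        ring
  let h : Fin K → Finset ℕ → ℝ := fun l S =>
    if l = i then (if S = ∅ then 1 else 0)
    else if l = j then (if ((pd S : ℕ) : ℝ) ≤ R then (∏ p ∈ S, (gg p * (1 + 3 * K * gg p))) else 0)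
    else (if S ⊆ P then (∏ p ∈ S, (gg p * (1 + 3 * K * gg p))) * yy x L t₀ (pd S) ^ 2 else 0)
  have hh0 : ∀ l, ∀ S ⊆ P', 0 ≤ h l S := by
    intro l S hS
    have h1 : 0 ≤ ∏ p ∈ S, (gg p * (1 + 3 * K * gg p)) := by
      refine Finset.prod_nonneg fun p hp => ?_
      have := mb_gg (hp' p (hS hp))
      positivity
    simp only [h]
    split_ifs
    · exact zero_le_one
    · exact le_rfl
    · exact h1
    · exact le_rfl
    · positivity
    · exact le_rfl
  have hU1 : 0 ≤ U1 P x L t₀ := by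
    unfold U1
    refine Finset.sum_nonneg fun S hS => ?_
    exact mul_nonneg (mb_HH fun p hp => hp' p (hPP' (mem_powerset.1 hS hp))) (yy_bd x L t₀ _).1
  have hU2 : 0 ≤ U2 P x L t₀ := by
    unfold U2
    refine Finset.sum_nonneg fun S hS => ?_
    exact mul_nonneg (mb_HH fun p hp => hp' p (hPP' (mem_powerset.1 hS hp))) (sq_nonneg _)
  -- termwise bound
  have hterm : ∀ A ∈ LS K P', (mbZ P x L t₀ i j (A.filter (fun q => q.2 ≠ j)) * mbL P' R (lb j A) *
        (E * ∏ q ∈ A, (1 + K * gg q.1))) ^ 2 * ga gg A ≤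
      (Real.exp (4 * K / D₀) * U1 P x L t₀ ^ 4 / Nz P' R ^ 2) * ∏ l, h l (lb l A) := by
    intro A hA
    rw [mem_LS] at hA
    have hlbP : ∀ l, lb l A ⊆ P' := by
      intro l p hp
      rw [mem_lb] at hp
      exact hA.1 _ hp
    have hprod0 : 0 ≤ ∏ l, h l (lb l A) := Finset.prod_nonneg fun l _ => hh0 l _ (hlbP l)
    have hC0 : 0 ≤ Real.exp (4 * K / D₀) * U1 P x L t₀ ^ 4 / Nz P' R ^ 2 := by positivity
    have hlbf : ∀ l, l ≠ j → lb l (A.filter (fun q => q.2 ≠ j)) = lb l A := by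
      intro l hl
      ext p
      rw [mem_lb, mem_lb, mem_filter]
      exact ⟨fun hh => hh.1, fun hh => ⟨hh, hl⟩⟩
    by_cases hc1 : (∀ q ∈ A.filter (fun q => q.2 ≠ j), q.2 ≠ i ∧ q.2 ≠ j) ∧
        (∀ q ∈ A.filter (fun q => q.2 ≠ j), q.1 ∈ P)
    · by_cases hc2 : ((pd (lb j A) : ℕ) : ℝ) ≤ R
      · have e1 : mbZ P x L t₀ i j (A.filter (fun q => q.2 ≠ j)) =
            (∏ l ∈ (univ.erase i).erase j, yy x L t₀ (pd (lb l A))) * U1 P x L t₀ ^ 2 := by
          unfold mbZ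
          rw [if_pos hc1]
          congr 1
          refine Finset.prod_congr rfl fun l hl => ?_
          rw [hlbf l (ne_of_mem_erase hl)]
        have e2 : mbL P' R (lb j A) = 1 / Nz P' R := by
          unfold mbL
          rw [inter_eq_left.2 (hlbP j), if_pos hc2]
        have hi : lb i A = ∅ := by
          rw [eq_empty_iff_forall_notMem]
          intro p hp
          rw [mem_lb] at hp
          exact (hc1.1 (p, i) (mem_filter.2 ⟨hp, hij⟩)).1 rfl
        have e3 : ∏ l, h l (lb l A) = (∏ l ∈ (univ.erase i).erase j, yy x L t₀ (pd (lb l A))) ^ 2 *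
            ∏ q ∈ A, (gg q.1 * (1 + 3 * K * gg q.1)) := by
          rw [mb_prod_lb A (fun p => gg p * (1 + 3 * K * gg p)),
            ← mul_prod_erase univ _ (mem_univ i),
            ← mul_prod_erase (univ.erase i) _ (mem_erase.2 ⟨hij.symm, mem_univ j⟩),
            ← mul_prod_erase univ (fun l => ∏ p ∈ lb l A, gg p * (1 + 3 * K * gg p)) (mem_univ i),
            ← mul_prod_erase (univ.erase i) (fun l => ∏ p ∈ lb l A, gg p * (1 + 3 * K * gg p))
              (mem_erase.2 ⟨hij.symm, mem_univ j⟩)]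
          have e4 : h i (lb i A) = 1 := by
            simp only [h]
            rw [if_pos trivial, if_pos hi]
          have e5 : h j (lb j A) = ∏ p ∈ lb j A, gg p * (1 + 3 * K * gg p) := by
            simp only [h]
            rw [if_neg hij.symm, if_pos trivial, if_pos hc2]
          have e6 : ∏ l ∈ (univ.erase i).erase j, h l (lb l A) =
              (∏ l ∈ (univ.erase i).erase j, yy x L t₀ (pd (lb l A))) ^ 2 *
                ∏ l ∈ (univ.erase i).erase j, ∏ p ∈ lb l A, gg p * (1 + 3 * K * gg p) := by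
            rw [← Finset.prod_pow, ← Finset.prod_mul_distrib]
            refine Finset.prod_congr rfl fun l hl => ?_
            have hlj : l ≠ j := ne_of_mem_erase hl
            have hli : l ≠ i := ne_of_mem_erase (mem_of_mem_erase hl)
            have hlP : lb l A ⊆ P := by
              intro p hp
              rw [mem_lb] at hp
              exact hc1.2 (p, l) (mem_filter.2 ⟨hp, hlj⟩)
            simp only [h]
            rw [if_neg hli, if_neg hlj, if_pos hlP]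
            ring
          rw [e4, e5, e6, hi, prod_empty]
          ring
        have e7 : (∏ q ∈ A, (1 + (K : ℝ) * gg q.1)) ^ 2 * ga gg A ≤
            ∏ q ∈ A, (gg q.1 * (1 + 3 * K * gg q.1)) := by
          unfold ga
          rw [← Finset.prod_pow, ← Finset.prod_mul_distrib]
          refine Finset.prod_le_prod (fun q hq => ?_) fun q hq => ?_
          · have := mb_gg (hp' _ (hA.1 q hq))
            positivity
          · have h1 := mb_gg (hp' _ (hA.1 q hq))
            have h2 := (hP' _ (hA.1 q hq)).2.2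
            have h3 : (K : ℝ) * gg q.1 * (K * gg q.1) ≤ 1 * (K * gg q.1) :=
              mul_le_mul_of_nonneg_right h2 (by positivity)
            have h4 : (1 + (K : ℝ) * gg q.1) ^ 2 ≤ 1 + 3 * K * gg q.1 := by nlinarith
            calc (1 + (K : ℝ) * gg q.1) ^ 2 * gg q.1 ≤ (1 + 3 * K * gg q.1) * gg q.1 :=
                  mul_le_mul_of_nonneg_right h4 h1
              _ = _ := by ring
        rw [e1, e2, e3]
        have e8 : 0 ≤ (∏ l ∈ (univ.erase i).erase j, yy x L t₀ (pd (lb l A))) ^ 2 := sq_nonneg _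
        have e9 : 0 ≤ (∏ q ∈ A, (1 + (K : ℝ) * gg q.1)) ^ 2 * ga gg A := by
          refine mul_nonneg (sq_nonneg _) ?_
          exact Finset.prod_nonneg fun q hq => mb_gg (hp' _ (hA.1 q hq))
        calc ((∏ l ∈ (univ.erase i).erase j, yy x L t₀ (pd (lb l A))) * U1 P x L t₀ ^ 2 *
              (1 / Nz P' R) * (E * ∏ q ∈ A, (1 + (K : ℝ) * gg q.1))) ^ 2 * ga gg A
            = ((∏ l ∈ (univ.erase i).erase j, yy x L t₀ (pd (lb l A))) ^ 2 *
                (U1 P x L t₀ ^ 4 / Nz P' R ^ 2)) *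
                (E ^ 2 * ((∏ q ∈ A, (1 + (K : ℝ) * gg q.1)) ^ 2 * ga gg A)) := by
              field_simp
          _ ≤ ((∏ l ∈ (univ.erase i).erase j, yy x L t₀ (pd (lb l A))) ^ 2 *
                (U1 P x L t₀ ^ 4 / Nz P' R ^ 2)) *
                (Real.exp (4 * K / D₀) * ∏ q ∈ A, (gg q.1 * (1 + 3 * K * gg q.1))) := by
              refine mul_le_mul_of_nonneg_left ?_ (by positivity)
              exact mul_le_mul hE2 e7 e9 (Real.exp_pos _).le
          _ = _ := by ring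
      · have e2 : mbL P' R (lb j A) = 0 := by
          unfold mbL
          rw [inter_eq_left.2 (hlbP j), if_neg hc2]
        rw [e2]
        have : (0 : ℝ) ≤ (Real.exp (4 * K / D₀) * U1 P x L t₀ ^ 4 / Nz P' R ^ 2) *
            ∏ l, h l (lb l A) := mul_nonneg hC0 hprod0
        simpa using this
    · have e1 : mbZ P x L t₀ i j (A.filter (fun q => q.2 ≠ j)) = 0 := by
        unfold mbZ
        rw [if_neg hc1]
      rw [e1]
      have : (0 : ℝ) ≤ (Real.exp (4 * K / D₀) * U1 P x L t₀ ^ 4 / Nz P' R ^ 2) *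
          ∏ l, h l (lb l A) := mul_nonneg hC0 hprod0
      simpa using this
  -- sums over the labels
  have hsum : ∀ Q' : Finset ℕ, (∀ p ∈ Q', p.Prime) → ∑ p ∈ Q', gg p ^ 2 ≤ 2 / D₀ →
      ∀ g : ℕ → ℝ, (∀ n, 0 ≤ g n) → (∀ m n, 1 ≤ m → m ≤ n → g n ≤ g m) →
      ∑ S ∈ Q'.powerset, (∏ p ∈ S, (gg p * (1 + 3 * K * gg p))) * g (pd S) ≤
        Real.exp (6 * K / D₀) * Nh Q' g := by
    intro Q' hQ' hs g hg0 hga
    have h1 := Nh_out Q' hQ' (fun p => 3 * K * gg p) (fun p hp => by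
      have := mb_gg (hQ' p hp)
      positivity) g hg0 hga
    refine h1.trans ?_
    have h2 : 0 ≤ Nh Q' g := by
      unfold Nh
      exact Finset.sum_nonneg fun S hS =>
        mul_nonneg (mb_HH fun p hp => hQ' p (mem_powerset.1 hS hp)) (hg0 _)
    refine mul_le_mul_of_nonneg_right (Real.exp_le_exp.2 ?_) h2
    have h3 : ∑ p ∈ Q', 3 * (K : ℝ) * gg p * gg p = 3 * K * ∑ p ∈ Q', gg p ^ 2 := by
      rw [Finset.mul_sum]
      exact Finset.sum_congr rfl fun p _ => by ring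
    rw [h3]
    calc 3 * (K : ℝ) * ∑ p ∈ Q', gg p ^ 2 ≤ 3 * K * (2 / D₀) :=
          mul_le_mul_of_nonneg_left hs (by positivity)
      _ = _ := by ring
  have hsi : ∑ S ∈ P'.powerset, h i S = 1 := by
    simp only [h, if_true]
    rw [Finset.sum_ite_eq' P'.powerset ∅, if_pos (empty_mem_powerset P')]
  have hsj : ∑ S ∈ P'.powerset, h j S ≤ Real.exp (6 * K / D₀) * Nz P' R := by
    have h1 := hsum P' hp' hg2 (fun n => if (n : ℝ) ≤ R then 1 else 0)
      (fun n => by
        split_ifs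
        · exact zero_le_one
        · exact le_rfl)
      (fun m n _ hmn => by
        by_cases hn : (n : ℝ) ≤ R
        · have hm : (m : ℝ) ≤ R := le_trans (by exact_mod_cast hmn) hn
          rw [if_pos hn, if_pos hm]
        · rw [if_neg hn]
          split_ifs
          · exact zero_le_one
          · exact le_rfl)
    have h2 : Nh P' (fun n => if (n : ℝ) ≤ R then 1 else 0) = Nz P' R := by
      unfold Nh Nz
      rw [Finset.sum_filter]
      refine Finset.sum_congr rfl fun S _ => ?_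
      beta_reduce
      split_ifs
      · exact mul_one _
      · exact mul_zero _
    rw [h2] at h1
    refine le_trans (le_of_eq ?_) h1
    refine Finset.sum_congr rfl fun S _ => ?_
    simp only [h]
    rw [if_neg hij.symm, if_pos trivial]
    split_ifs
    · exact (mul_one _).symm
    · exact (mul_zero _).symm
  have hsl : ∀ l, l ≠ i → l ≠ j →
      ∑ S ∈ P'.powerset, h l S ≤ Real.exp (6 * K / D₀) * U2 P x L t₀ := by
    intro l hli hlj
    have h1 := hsum P (fun p hp => hp' p (hPP' hp)) hg2P (fun n => yy x L t₀ n ^ 2)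
      (fun n => sq_nonneg _)
      (fun m n _ hmn => pow_le_pow_left₀ (yy_bd x L t₀ n).1 (yy_anti x L t₀ m n hmn) 2)
    have h2 : Nh P (fun n => yy x L t₀ n ^ 2) = U2 P x L t₀ := rfl
    rw [h2] at h1
    refine le_trans (le_of_eq ?_) h1
    simp only [h]
    rw [← Finset.sum_subset (powerset_mono.2 hPP')]
    · refine Finset.sum_congr rfl fun S hS => ?_
      rw [if_neg hli, if_neg hlj, if_pos (mem_powerset.1 hS)]
    · intro S _ hS
      rw [if_neg hli, if_neg hlj, if_neg (fun hh => hS (mem_powerset.2 hh))]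
  have hcard : #((univ.erase i).erase j : Finset (Fin K)) = K - 2 := by
    rw [card_erase_of_mem (mem_erase.2 ⟨hij.symm, mem_univ j⟩), card_erase_of_mem (mem_univ i),
      card_univ, Fintype.card_fin]
    omega
  have hall : ∏ l, ∑ S ∈ P'.powerset, h l S ≤
      (Real.exp (6 * K / D₀) * Nz P' R) * (Real.exp (6 * K / D₀) * U2 P x L t₀) ^ (K - 2) := by
    rw [← mul_prod_erase univ _ (mem_univ i),
      ← mul_prod_erase (univ.erase i) _ (mem_erase.2 ⟨hij.symm, mem_univ j⟩), hsi, one_mul]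
    refine mul_le_mul hsj ?_ ?_ (by positivity)
    · rw [← hcard, ← Finset.prod_const]
      refine Finset.prod_le_prod (fun l _ => ?_) fun l hl => ?_
      · exact Finset.sum_nonneg fun S hS => hh0 l S (mem_powerset.1 hS)
      · exact hsl l (ne_of_mem_erase (mem_of_mem_erase hl)) (ne_of_mem_erase hl)
    · exact Finset.prod_nonneg fun l _ => Finset.sum_nonneg fun S hS => hh0 l S (mem_powerset.1 hS)
  have hK2 : 2 ≤ K := by
    by_contra hlt
    have hi := i.2
    have hj := j.2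
    apply hij
    ext
    omega
  calc ∑ A ∈ LS K P', (mbZ P x L t₀ i j (A.filter (fun q => q.2 ≠ j)) * mbL P' R (lb j A) *
        (E * ∏ q ∈ A, (1 + K * gg q.1))) ^ 2 * ga gg A
      ≤ ∑ A ∈ LS K P', (Real.exp (4 * K / D₀) * U1 P x L t₀ ^ 4 / Nz P' R ^ 2) *
          ∏ l, h l (lb l A) := Finset.sum_le_sum hterm
    _ ≤ ∑ A ∈ (P' ×ˢ (univ : Finset (Fin K))).powerset,
          (Real.exp (4 * K / D₀) * U1 P x L t₀ ^ 4 / Nz P' R ^ 2) * ∏ l, h l (lb l A) := by
        refine Finset.sum_le_sum_of_subset_of_nonneg (filter_subset _ _) fun A hA _ => ?_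
        refine mul_nonneg (by positivity) (Finset.prod_nonneg fun l _ => hh0 l _ ?_)
        intro p hp
        rw [mem_lb] at hp
        exact (mem_product.1 (mem_powerset.1 hA hp)).1
    _ = (Real.exp (4 * K / D₀) * U1 P x L t₀ ^ 4 / Nz P' R ^ 2) *
          ∏ l, ∑ S ∈ P'.powerset, h l S := by
        rw [← Finset.mul_sum, prod_labels]
    _ ≤ (Real.exp (4 * K / D₀) * U1 P x L t₀ ^ 4 / Nz P' R ^ 2) *
          ((Real.exp (6 * K / D₀) * Nz P' R) *
            (Real.exp (6 * K / D₀) * U2 P x L t₀) ^ (K - 2)) :=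
        mul_le_mul_of_nonneg_left hall (by positivity)
    _ = Real.exp (4 * K / D₀ + 6 * K / D₀ + (K - 2 : ℕ) * (6 * K / D₀)) *
          (U1 P x L t₀ ^ 4 * U2 P x L t₀ ^ (K - 2) / Nz P' R) := by
        rw [Real.exp_add, Real.exp_add, Real.exp_nat_mul, mul_pow]
        field_simp
    _ ≤ Real.exp (20 * (K : ℝ) ^ 2 / D₀) *
          (U1 P x L t₀ ^ 4 * U2 P x L t₀ ^ (K - 2) / Nz P' R) := by
        refine mul_le_mul_of_nonneg_right (Real.exp_le_exp.2 ?_) (by positivity)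
        have h1 : ((K - 2 : ℕ) : ℝ) = K - 2 := by
          rw [Nat.cast_sub hK2]
          norm_num
        rw [h1]
        have h2 : 4 * (K : ℝ) / D₀ + 6 * K / D₀ + ((K : ℝ) - 2) * (6 * K / D₀) =
            (6 * (K : ℝ) ^ 2 - 2 * K) / D₀ := by
          field_simp
          ring
        rw [h2]
        refine div_le_div_of_nonneg_right ?_ hD'.le
        nlinarith
    _ = _ := by ring

theorem dec_c (K L D₀ : ℕ) (s δ t₀ e : ℝ) (hpar : Par K L D₀ s δ t₀ e) (he6 : e ≤ 1 / 10 ^ 6)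
    (W A₀ C : ℕ) : ∃ X₀ : ℕ, ∀ c : Cfg K, c.Ok D₀ W A₀ C → X₀ ≤ c.x → ∀ i j : Fin K, i ≠ j →
      ∃ V : Finset (ℕ × Fin K) → ℝ,
        (∀ z : ℕ, FF c W L δ t₀ i j z *
            Lam (Q c W (1 / 4 - 2 * δ)) ((c.x : ℝ) ^ (1 / 4 - 2 * δ)) (c.a j * z + c.b j) =
          ff gg (Q c W (1 / 4 - 2 * δ)) V (om (Q c W (1 / 4 - 2 * δ)) c.a c.b z)) ∧
        (∀ A, (∃ q ∈ A, q.2 = i) → V A = 0) ∧
        (∀ A, V A ≠ 0 → (pr A : ℝ) ≤ (c.x : ℝ) ^ (1 / 4 - δ)) ∧
        (∀ A, |V A| ≤ (Real.log c.x) ^ (K + 3)) ∧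
        ∑ A ∈ LS K (Q c W (1 / 4 - 2 * δ)), (V A) ^ 2 * ga gg A ≤
          Real.exp (20 * (K : ℝ) ^ 2 / D₀) * U1 (c.P W δ) c.x L t₀ ^ 4 *
            U2 (c.P W δ) c.x L t₀ ^ (K - 2) /
              Nz (Q c W (1 / 4 - 2 * δ)) ((c.x : ℝ) ^ (1 / 4 - 2 * δ)) := by
  classical
  obtain ⟨C₁, hC₁, hU1up⟩ := U1_up
  obtain ⟨C₂, hC₂, hggup⟩ := sum_gg
  have hδ : 0 < δ := hpar.hδ
  have hδ6 : δ ≤ 1 / 10 ^ 6 := hpar.hδe.trans he6
  have hK2 : 2 ≤ K := hpar.hK
  have hK : (2 : ℝ) ≤ K := by exact_mod_cast hK2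
  have he : 0 < e := hpar.he
  have hDe : 16 * (K : ℝ) ^ 2 ≤ D₀ := by
    have h1 := hpar.hD
    have h2 : e * (D₀ : ℝ) ≤ 1 * D₀ := by
      refine mul_le_mul_of_nonneg_right ?_ (Nat.cast_nonneg _)
      refine he6.trans ?_
      norm_num
    linarith
  have hD0 : (1 : ℝ) ≤ D₀ := by nlinarith
  have hD1 : 1 ≤ D₀ := by exact_mod_cast hD0
  set M : ℝ := 2 ^ K * C₁ ^ 2 * Real.exp 1 * C₂ ^ K with hM
  have hM0 : 0 ≤ M := by positivity
  refine ⟨⌈Real.exp (M + 1)⌉₊ + 2, fun c hc hx i j hij => ?_⟩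
  have hx2 : 2 ≤ c.x := by omega
  have hx1 : 1 ≤ c.x := by omega
  have hx1' : (1 : ℝ) ≤ c.x := by exact_mod_cast hx1
  have hlx : M + 1 ≤ Real.log c.x := by
    rw [Real.le_log_iff_exp_le (by linarith)]
    have h1 : Real.exp (M + 1) ≤ (⌈Real.exp (M + 1)⌉₊ : ℝ) := Nat.le_ceil _
    have h2 : ((⌈Real.exp (M + 1)⌉₊ : ℕ) : ℝ) ≤ c.x := by
      exact_mod_cast (by omega : ⌈Real.exp (M + 1)⌉₊ ≤ c.x)
    exact h1.trans h2
  set u : ℝ := 1 / 4 - 2 * δ with hu
  have hu0 : 0 ≤ u := by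
    rw [hu]
    linarith
  have hδu : δ ≤ u := by
    rw [hu]
    linarith
  have hu1 : u ≤ 1 := by
    rw [hu]
    linarith
  set P' := Q c W u with hP'
  set P := c.P W δ with hP
  have hPQ : P = Q c W δ := rfl
  have hPP' : P ⊆ P' := by
    intro p hp
    rw [hPQ, Q_mem c D₀ W A₀ C δ hc hx1] at hp
    rw [hP', Q_mem c D₀ W A₀ C u hc hx1]
    refine ⟨hp.1.trans ?_, hp.2⟩
    exact Real.rpow_le_rpow_of_exponent_le hx1' hδu
  have hpr : ∀ p ∈ P', p.Prime ∧ D₀ < p ∧ (K : ℝ) * gg p ≤ 1 := by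
    intro p hp
    have h1 := Q_props c D₀ W A₀ C u hc hx1 p hp
    refine ⟨h1.1, h1.2.1, ?_⟩
    have h2 : (D₀ : ℝ) + 1 ≤ p := by exact_mod_cast h1.2.1
    unfold gg
    rw [mul_one_div, div_le_one (by linarith)]
    nlinarith
  have hp' : ∀ p ∈ P', p.Prime := fun p hp => (hpr p hp).1
  have hpP : ∀ p ∈ P, p.Prime := fun p hp => hp' p (hPP' hp)
  have hpx : ∀ p ∈ P', p.Prime ∧ p ≤ c.x := by
    intro p hp
    refine ⟨hp' p hp, ?_⟩
    rw [hP', Q_mem c D₀ W A₀ C u hc hx1] at hp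
    have h1 : (c.x : ℝ) ^ u ≤ (c.x : ℝ) ^ (1 : ℝ) :=
      Real.rpow_le_rpow_of_exponent_le hx1' hu1
    rw [Real.rpow_one] at h1
    exact_mod_cast hp.1.trans h1
  have hgg0 : ∀ p ∈ P', 0 ≤ gg p := fun p hp => mb_gg (hp' p hp)
  set R : ℝ := (c.x : ℝ) ^ u with hR
  have hR1 : 1 ≤ R := Real.one_le_rpow hx1' hu0
  have hN1 : 1 ≤ Nz P' R := Nz_ge_one P' hp' R hR1
  have hN : 0 < Nz P' R := lt_of_lt_of_le one_pos hN1
  have hZdef : ∀ A, Zij c W L δ t₀ i j A = Zj gg P j (Zj gg P i (YY c.x L t₀ δ)) A :=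
    fun _ => rfl
  have hZle : ∀ A, |(if A ∈ LS K P then Zij c W L δ t₀ i j A else 0)| ≤
      mbZ P c.x L t₀ i j A := by
    intro A
    by_cases hA : A ∈ LS K P
    · rw [if_pos hA]
      by_cases hl : ∃ q ∈ A, q.2 = i ∨ q.2 = j
      · rw [hZdef, ZZ_zero P i j _ A hl, abs_zero]
        exact mbZ_nn P c.x L t₀ i j A
      · have hl' : ∀ q ∈ A, q.2 ≠ i ∧ q.2 ≠ j := by
          intro q hq
          exact ⟨fun hh => hl ⟨q, hq, Or.inl hh⟩, fun hh => hl ⟨q, hq, Or.inr hh⟩⟩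
        have h1 := ZZ_leU c.x L P t₀ δ i j hij hpP A hl'
        rw [hZdef, abs_of_nonneg h1.1]
        unfold mbZ
        rw [if_pos ⟨hl', (mem_LS.1 hA).1⟩]
        exact h1.2
    · rw [if_neg hA, abs_zero]
      exact mbZ_nn P c.x L t₀ i j A
  obtain ⟨V, hV1, hV2, hV3, hV4⟩ := dec P' hgg0 j
    (fun A => if A ∈ LS K P then Zij c W L δ t₀ i j A else 0) (mbZ P c.x L t₀ i j)
    (mbL P' R) (mbL P' R) hZle
    (by
      rintro A ⟨q, hq, hqj⟩
      split_ifs
      · rw [hZdef]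
        exact ZZ_zero P i j _ A ⟨q, hq, Or.inr hqj⟩
      · rfl)
    (mbZ_anti P hpP c.x L t₀ i j)
    (fun S => by rw [abs_of_nonneg (mbL_nn P' R hN S)])
    (mbL_anti P' hp' R hN)
  refine ⟨V, ?_, ?_, ?_, ?_, ?_⟩
  · -- the product formula
    intro z
    have hom : om P' c.a c.b z ∈ LS K P' := by
      refine om_LS P' c.a c.b (fun p hp => ?_) z
      exact (Q_props c D₀ W A₀ C u hc hx1 p hp).2.2.2.2
    rw [← hV1 _ hom]
    congr 1
    · unfold FF ff
      have h1 : ∑ A ∈ LS K P', (if A ∈ LS K P then Zij c W L δ t₀ i j A else 0) *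
            xx gg A (om P' c.a c.b z) =
          ∑ A ∈ LS K P', (if A ∈ LS K P then
            Zij c W L δ t₀ i j A * xx gg A (om P' c.a c.b z) else 0) := by
        refine Finset.sum_congr rfl fun A _ => ?_
        split_ifs
        · rfl
        · rw [zero_mul]
      rw [h1, mb_restrict hPP']
      refine Finset.sum_congr rfl fun A hA => ?_
      rw [xx_om gg P P' hPP' c.a c.b z A hA]
    · unfold Lam
      rw [Finset.sum_filter, Finset.sum_div]
      refine Finset.sum_congr rfl fun S hS => ?_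
      have hS' : S ⊆ P' := mem_powerset.1 hS
      have h1 : ∏ p ∈ S, (gg p - if (p, j) ∈ om P' c.a c.b z then 1 else 0) =
          ∏ p ∈ S, (gg p - if p ∣ c.a j * z + c.b j then 1 else 0) := by
        refine Finset.prod_congr rfl fun p hp => ?_
        have h2 : ((p, j) ∈ om P' c.a c.b z) ↔ p ∣ c.a j * z + c.b j := by
          rw [mem_om]
          exact ⟨fun hh => hh.2, fun hh => ⟨hS' hp, hh⟩⟩
        simp only [h2]
      rw [h1]
      unfold mbL
      rw [inter_eq_left.2 hS']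
      split_ifs
      · rw [one_div, div_eq_inv_mul]
      · rw [zero_div, zero_mul]
  · -- no label i
    rintro A ⟨q, hq, hqi⟩
    by_contra hVA
    obtain ⟨A₁, S, h1, h2, h3, h4, h5⟩ := hV4 A hVA
    have h6 : q ∈ A₁ := by
      rcases mem_union.1 (h5 hq) with h | h
      · exact h
      · obtain ⟨p, _, rfl⟩ := mem_image.1 h
        exact absurd hqi.symm hij
    apply h1
    split_ifs
    · rw [hZdef]
      exact ZZ_zero P i j _ A₁ ⟨q, h6, Or.inl hqi⟩
    · rfl
  · -- support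
    intro A hVA
    obtain ⟨A₁, S, h1, h2, h3, h4, h5⟩ := hV4 A hVA
    have h6 : A₁ ∈ LS K P := by
      by_contra hh
      apply h1
      rw [if_neg hh]
    have h7 : Zj gg P j (Zj gg P i (YY c.x L t₀ δ)) A₁ ≠ 0 := by
      rw [if_pos h6, hZdef] at h1
      exact h1
    have h8 := ZZ_supp c.x L P t₀ δ i j hpP A₁ h7
    have h9 : ((pd S : ℕ) : ℝ) ≤ R := by
      unfold mbL at h2
      rw [inter_eq_left.2 h4] at h2
      by_contra hh
      exact h2 (if_neg hh)
    have h10 : pr A ≤ pr A₁ * pd S := by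
      have e1 : pr A ≤ pr (A₁ ∪ S.image (fun p => (p, j))) := by
        refine Finset.prod_le_prod_of_subset_of_one_le' h5 fun q hq _ => ?_
        rcases mem_union.1 hq with h | h
        · exact (hp' _ ((mem_LS.1 h3).1 q h)).one_lt.le
        · obtain ⟨p, hp, rfl⟩ := mem_image.1 h
          exact (hp' _ (h4 hp)).one_lt.le
      have e2 : pr (A₁ ∪ S.image (fun p => (p, j))) * pr (A₁ ∩ S.image (fun p => (p, j))) =
          pr A₁ * pr (S.image (fun p => (p, j))) := Finset.prod_union_inter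
      have e3 : pr (S.image (fun p => (p, j))) = pd S := by
        unfold pr pd
        rw [Finset.prod_image]
        intro p _ q _ hpq
        exact (Prod.ext_iff.1 hpq).1
      have e4 : 1 ≤ pr (A₁ ∩ S.image (fun p => (p, j))) := by
        refine Nat.one_le_iff_ne_zero.2 (Finset.prod_ne_zero_iff.2 fun q hq => ?_)
        exact (hp' _ ((mem_LS.1 h3).1 q (mem_inter.1 hq).1)).ne_zero
      calc pr A ≤ pr (A₁ ∪ S.image (fun p => (p, j))) := e1
        _ = pr (A₁ ∪ S.image (fun p => (p, j))) * 1 := (mul_one _).symm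
        _ ≤ _ := Nat.mul_le_mul_left _ e4
        _ = _ := by rw [e2, e3]
    calc (pr A : ℝ) ≤ ((pr A₁ * pd S : ℕ) : ℝ) := by exact_mod_cast h10
      _ = (pr A₁ : ℝ) * (pd S : ℝ) := by push_cast; rfl
      _ ≤ (c.x : ℝ) ^ δ * (c.x : ℝ) ^ u :=
        mul_le_mul h8 h9 (Nat.cast_nonneg _) (by positivity)
      _ = (c.x : ℝ) ^ (1 / 4 - δ) := by
        rw [← Real.rpow_add (by linarith)]
        congr 1
        rw [hu]
        ring
  · -- the bound
    intro A
    have hlx1 : 1 ≤ Real.log c.x := by linarith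
    have hlx0 : 0 ≤ Real.log c.x := by linarith
    by_cases hA : A ∈ LS K P'
    · refine (hV2 A hA).trans ?_
      have b1 : mbZ P c.x L t₀ i j (A.filter (fun q => q.2 ≠ j)) ≤
          2 ^ K * (C₁ * Real.log c.x) ^ 2 := by
        unfold mbZ
        split_ifs
        · have hU : 0 ≤ U1 P c.x L t₀ := by
            unfold U1
            refine Finset.sum_nonneg fun S hS => ?_
            exact mul_nonneg (mb_HH fun p hp => hpP p (mem_powerset.1 hS hp)) (yy_bd _ L t₀ _).1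
          refine mul_le_mul ?_ (pow_le_pow_left₀ hU (hU1up c.x hx2 P
            (fun p hp => hpx p (hPP' hp)) L t₀) 2) (sq_nonneg _) (by positivity)
          calc ∏ l ∈ (univ.erase i).erase j, yy c.x L t₀ (pd (lb l (A.filter (fun q => q.2 ≠ j))))
              ≤ ∏ l ∈ ((univ.erase i).erase j : Finset (Fin K)), (2 : ℝ) :=
                Finset.prod_le_prod (fun l _ => (yy_bd _ L t₀ _).1) fun l _ => (yy_bd _ L t₀ _).2
            _ = 2 ^ #((univ.erase i).erase j : Finset (Fin K)) := by rw [Finset.prod_const]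
            _ ≤ 2 ^ K := by
              refine pow_le_pow_right₀ (by norm_num) ?_
              refine (card_le_univ _).trans ?_
              rw [Fintype.card_fin]
        · positivity
      have b2 : mbL P' R (lb j A) ≤ 1 := by
        unfold mbL
        split_ifs
        · rw [div_le_one hN]
          exact hN1
        · exact zero_le_one
      have b3 : ∏ p ∈ P', (1 + (K : ℝ) * gg p ^ 2) ≤ Real.exp 1 := by
        have h1 : ∏ p ∈ P', (1 + (K : ℝ) * gg p ^ 2) ≤ Real.exp (∑ p ∈ P', (K : ℝ) * gg p ^ 2) := by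
          rw [Real.exp_sum]
          refine Finset.prod_le_prod (fun p _ => by positivity) fun p _ => ?_
          have := Real.add_one_le_exp ((K : ℝ) * gg p ^ 2)
          linarith
        refine h1.trans (Real.exp_le_exp.2 ?_)
        rw [← Finset.mul_sum]
        have h2 : ∑ p ∈ P', gg p ^ 2 ≤ 2 / D₀ := sum_gg2 D₀ hD1 P' fun p hp => (hpr p hp).2.1
        have h3 : (K : ℝ) * ∑ p ∈ P', gg p ^ 2 ≤ K * (2 / D₀) :=
          mul_le_mul_of_nonneg_left h2 (by linarith)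
        refine h3.trans ?_
        rw [mul_div_assoc', div_le_one (by linarith)]
        nlinarith
      have b4 : ∏ q ∈ A, (1 + (K : ℝ) * gg q.1) ≤ (C₂ * Real.log c.x) ^ K := by
        have hA' := mem_LS.1 hA
        have h1 : ∏ q ∈ A, (1 + (K : ℝ) * gg q.1) = ∏ p ∈ A.image Prod.fst, (1 + (K : ℝ) * gg p) := by
          rw [Finset.prod_image]
          intro q hq q' hq' hqq
          exact hA'.2 q hq q' hq' hqq
        have h2 : ∏ p ∈ A.image Prod.fst, (1 + (K : ℝ) * gg p) ≤ ∏ p ∈ P', (1 + (K : ℝ) * gg p) := by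
          refine Finset.prod_le_prod_of_subset_of_one_le ?_ (fun p hp => ?_) fun p hp _ => ?_
          · intro p hp
            obtain ⟨q, hq, rfl⟩ := mem_image.1 hp
            exact hA'.1 q hq
          · obtain ⟨q, hq, rfl⟩ := mem_image.1 hp
            have := hgg0 _ (hA'.1 q hq)
            positivity
          · have := hgg0 p hp
            have h3 : 0 ≤ (K : ℝ) * gg p := by positivity
            linarith
        have h4 : ∏ p ∈ P', (1 + (K : ℝ) * gg p) ≤ Real.exp (∑ p ∈ P', (K : ℝ) * gg p) := by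
          rw [Real.exp_sum]
          refine Finset.prod_le_prod (fun p hp => ?_) fun p _ => ?_
          · have := hgg0 p hp
            positivity
          · have := Real.add_one_le_exp ((K : ℝ) * gg p)
            linarith
        have h5 : Real.exp (∑ p ∈ P', (K : ℝ) * gg p) = (Real.exp (∑ p ∈ P', gg p)) ^ K := by
          rw [← Real.exp_nat_mul, Finset.mul_sum]
        rw [h1]
        refine h2.trans (h4.trans ?_)
        rw [h5]
        exact pow_le_pow_left₀ (Real.exp_pos _).le (hggup c.x hx2 P' hpx) K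
      have n1 := mbZ_nn P c.x L t₀ i j (A.filter (fun q => q.2 ≠ j))
      have n2 := mbL_nn P' R hN (lb j A)
      have n3 : 0 ≤ ∏ p ∈ P', (1 + (K : ℝ) * gg p ^ 2) := Finset.prod_nonneg fun p _ => by positivity
      have n4 : 0 ≤ ∏ q ∈ A, (1 + (K : ℝ) * gg q.1) := Finset.prod_nonneg fun q hq => by
        have := hgg0 _ ((mem_LS.1 hA).1 q hq)
        positivity
      calc mbZ P c.x L t₀ i j (A.filter (fun q => q.2 ≠ j)) * mbL P' R (lb j A) *
            ((∏ p ∈ P', (1 + (K : ℝ) * gg p ^ 2)) * ∏ q ∈ A, (1 + (K : ℝ) * gg q.1))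
          ≤ (2 ^ K * (C₁ * Real.log c.x) ^ 2 * 1) * (Real.exp 1 * (C₂ * Real.log c.x) ^ K) := by
            refine mul_le_mul (mul_le_mul b1 b2 n2 (by positivity))
              (mul_le_mul b3 b4 n4 (Real.exp_pos _).le) (mul_nonneg n3 n4) (by positivity)
        _ = M * Real.log c.x ^ (K + 2) := by
            rw [hM, mul_pow, mul_pow]
            ring
        _ ≤ Real.log c.x * Real.log c.x ^ (K + 2) :=
            mul_le_mul_of_nonneg_right (by linarith) (by positivity)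
        _ = _ := by ring
    · rw [hV3 A hA, abs_zero]
      positivity
  · -- the sum of the squares
    refine le_trans (Finset.sum_le_sum fun A hA => ?_)
      (mb_sum D₀ hD1 P P' hPP' hpr c.x L t₀ i j hij R hR1)
    refine mul_le_mul_of_nonneg_right ?_ ?_
    · rw [← sq_abs (V A)]
      exact pow_le_pow_left₀ (abs_nonneg _) (hV2 A hA) 2
    · exact Finset.prod_nonneg fun q hq => hgg0 _ ((mem_LS.1 hA).1 q hq)

end Pool.Agent.Work.MP_70e905_nt.M3
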