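import Pool.Agent.Work.MP_70e905_nt.M3.Defs
import Pool.Agent.Work.MP_70e905_nt.M3.MB
import Pool.Agent.Work.MP_70e905_nt.M3.N3
import Pool.Agent.Work.MP_70e905_nt.MT.B6
import Pool.Agent.Work.MP_70e905_nt.MT.F4
import Pool.Agent.Work.MP_70e905_nt.MT.F0
import Pool.Agent.Work.MP_70e905_nt.MT.C6
import Pool.Agent.Work.MP_70e905_nt.MT.A6
import Pool.Agent.Work.MP_70e905_nt.MT.D1
import Pool.Agent.Work.MP_73869e_nt.TH.T02

set_option autoImplicit false

/-!
MODULE MC (upper bound of the majorant sum), size M. As the end of MT/E2.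

With `V` from `dec_c` (MB): `W2 z * Lam² = 1[cop] (FF * Lam)² = 1[cop] (ff gg P' V (om P'))²`. `prime_fin` (MT/B6) for `P' = Q c W (1/4 - 2δ)
⊆ c.PZ W x`, `Y = V`, `η = δ` (`2 s ≤ δ`), support `x^(1/4 - δ)`, `Y₀ = (lx)^(K+3)`, exponent `A = 4 K + 20`. Main term: `N_asy` (MT/F4)
`≤ (1 + e) X`, `q2`, `Ex ≤ ∑ V² ga gg` (`Ex_upper`, `K gg ≤ 1`) `≤ exp (20 K²/D₀) U1^4 U2^(K-2) / Nz P' R`, and
`Nz P' R ≥ κ (1/4 - 2δ) lx` (`Nz_lowt`, `E = ∅`). `20 K² / D₀ ≤ (20/16) e`, so the constant is at most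
`(1 + e) exp (5 e / 4) / (1/4 - 2 e) + e ≤ 4 + 100 e` for `e ≤ 10^-6`. Error: `(lx)^(2K+6) x / (lx)^(4K+20) ≤ e Hm` for large `x`
(`q_ge`, `kappa_01`, `U_ge_one`).
-/

namespace Pool.Agent.Work.MP_70e905_nt.M3

open Finset Pool.Agent.Work.MP_73869e_nt.TH Pool.Agent.Work.MP_70e905_nt.MT

private theorem mc_const (e D : ℝ) (he : 0 < e) (he6 : e ≤ 1 / 10 ^ 6) (δ : ℝ) (hδ0 : 0 < δ)
    (hδ : δ ≤ e) (hD0 : 0 ≤ D) (hD : D ≤ 5 / 4 * e) :
    (1 + e) * Real.exp D / (1 / 4 - 2 * δ) + e ≤ 4 + 100 * e := by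
  have h1 : Real.exp D ≤ 1 + 2 * e := by
    have h2 := Real.exp_bound' hD0 (by nlinarith : D ≤ 1) (n := 2) (by norm_num)
    have h4 : ∑ m ∈ range 2, D ^ m / m.factorial = 1 + D := by
      simp [Finset.sum_range_succ]
    rw [h4] at h2
    refine h2.trans ?_
    norm_num
    nlinarith
  have h3 : 0 < 1 / 4 - 2 * δ := by
    have : (1 / 10 ^ 6 : ℝ) = 1 / 1000000 := by norm_num
    linarith
  have h5 : (1 + e) * Real.exp D ≤ (1 + e) * (1 + 2 * e) :=
    mul_le_mul_of_nonneg_left h1 (by linarith)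
  have h6 : (1 + e) * (1 + 2 * e) ≤ (4 + 99 * e) * (1 / 4 - 2 * δ) := by
    nlinarith
  have h7 : (1 + e) * Real.exp D / (1 / 4 - 2 * δ) ≤ 4 + 99 * e := by
    rw [div_le_iff₀ h3]
    exact h5.trans h6
  linarith

theorem maj (K L D₀ : ℕ) (s δ t₀ e : ℝ) (hpar : Par K L D₀ s δ t₀ e) (he6 : e ≤ 1 / 10 ^ 6)
    (hLD : ∀ t : ℝ, t < 1 / 2 → LD t) (hPNT : PNT) (W A₀ C : ℕ) : ∃ X₀ : ℕ,
    ∀ c : Cfg K, c.Ok D₀ W A₀ C → X₀ ≤ c.x → ∀ i j : Fin K, i ≠ j →
      ∑ z ∈ dp c W i, W2 c W L s δ t₀ i j z *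
          (Lam (Q c W (1 / 4 - 2 * δ)) ((c.x : ℝ) ^ (1 / 4 - 2 * δ)) (c.a j * z + c.b j)) ^ 2 ≤
        (4 + 100 * e) * Hm c W L s δ t₀ := by
  obtain ⟨hK, hL, hs, hδ, ht₀, hsδ, hsK, hLδ, he, hδe, hD⟩ := id hpar
  have h6r : (1 / 10 ^ 6 : ℝ) = 1 / 1000000 := by norm_num
  have hKr : (2 : ℝ) ≤ K := by exact_mod_cast hK
  have hDpos : (0 : ℝ) < D₀ := by
    by_contra hcon
    push Not at hcon
    have : e * (D₀ : ℝ) ≤ 0 := mul_nonpos_of_nonneg_of_nonpos he.le hcon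
    nlinarith
  have hKD : K < D₀ := by
    have h1 : (K : ℝ) < D₀ := by
      have h3 : e * D₀ ≤ 1 * D₀ := mul_le_mul_of_nonneg_right (by linarith) hDpos.le
      nlinarith
    exact_mod_cast h1
  obtain ⟨X1, hX1⟩ := dec_c K L D₀ s δ t₀ e hpar he6 W A₀ C
  obtain ⟨X2, hX2⟩ := prime_fin K hLD s δ hs hδ hsδ (4 * K + 20) W A₀ C D₀
  obtain ⟨X3, hX3⟩ := N_asy K hPNT e he D₀ W A₀ C
  obtain ⟨X4, hX4⟩ := q_ge K s hs
  obtain ⟨X5, h35, hX5⟩ := D1_log (Nat.totient W / e + 1)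
  refine ⟨max (max X1 X2) (max (max X3 X4) X5), fun c hc hx i j hij => ?_⟩
  simp only [max_le_iff] at hx
  obtain ⟨⟨x1, x2⟩, ⟨x3, x4⟩, x5⟩ := hx
  have hx3 : 3 ≤ c.x := h35.trans x5
  have hxr : (3 : ℝ) ≤ c.x := by exact_mod_cast hx3
  obtain ⟨V, V1, V2, V3, V4, V5⟩ := hX1 c hc x1 i j hij
  set u : ℝ := 1 / 4 - 2 * δ with hu
  have hu1 : u ≤ 1 := by linarith
  have hu0 : 0 ≤ u := by linarith
  have hlog := hX5 c.x x5
  have hφ1 : (1 : ℝ) ≤ Nat.totient W := by exact_mod_cast Nat.totient_pos.2 hc.hW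
  have hφe : 0 ≤ (Nat.totient W : ℝ) / e := by positivity
  have hlx : 1 ≤ Real.log c.x := by linarith
  have hlx0 : 0 < Real.log c.x := by linarith
  obtain ⟨q1', q2'⟩ := hX4 c D₀ W A₀ C hc hKD x4
  have hPf := D1_P c D₀ W A₀ C u hc hu1 (by omega)
  have hPf' := D1_P c D₀ W A₀ C δ hc (by linarith) (by omega)
  have hP : ∀ p ∈ c.P W δ, p.Prime := fun p hp => (hPf' p hp).1
  obtain ⟨v1, v2⟩ := U_ge_one (c.P W δ) hP c.x L t₀ (by omega) hL ht₀.le
  obtain ⟨k1, k2⟩ := kappa_01 c W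
  have hN := (hX3 c hc x3 i).2
  have hN0 := (hX3 c hc x3 i).1
  have hpf := hX2 c hc x2 i (Q c W u) (fun p hp => by
      have h := hPf p hp
      unfold Cfg.PZ
      rw [mem_filter, mem_Icc, Nat.floor_natCast]
      exact ⟨⟨h.1.one_lt.le, h.2.1⟩, h.1, h.2.2.2⟩) V ((Real.log c.x) ^ (K + 3)) V4 V3
      (fun A _ hA => V2 A hA)
  have hsum : ∑ z ∈ dp c W i, W2 c W L s δ t₀ i j z *
        (Lam (Q c W u) ((c.x : ℝ) ^ u) (c.a j * z + c.b j)) ^ 2 =
      ∑ z ∈ (c.dom W).filter (fun z => (c.a i * z + c.b i).Prime),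
          (if cop (c.P₀ W s) c.a c.b z then 1 else 0) *
            (ff gg (Q c W u) V (om (Q c W u) c.a c.b z)) ^ 2 := by
    refine sum_congr rfl fun z _ => ?_
    rw [← V1 z]
    unfold W2
    split_ifs
    · ring
    · ring
  rw [hsum]
  rw [abs_le] at hpf
  have h5 := hpf.2
  set S := ∑ z ∈ (c.dom W).filter (fun z => (c.a i * z + c.b i).Prime),
          (if cop (c.P₀ W s) c.a c.b z then (1 : ℝ) else 0) *
            (ff gg (Q c W u) V (om (Q c W u) c.a c.b z)) ^ 2 with hS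
  have hEx := Ex_upper (K := K) gg (Q c W u) (fun p hp => by
      have h := hPf p hp
      have hp2 : (2 : ℝ) ≤ p := by exact_mod_cast h.1.two_le
      have h3 : (K : ℝ) + 1 ≤ p := by
        have : K + 1 ≤ p := by omega
        exact_mod_cast this
      unfold gg
      refine ⟨div_nonneg zero_le_one (by linarith), ?_⟩
      rw [mul_one_div, div_le_one (by linarith)]
      linarith) V
  set E := Ex gg (Q c W u) (fun ω => (ff gg (Q c W u) V ω) ^ 2) with hE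
  have hNz := Nz_lowt c W u u (by omega) hu0 le_rfl hu1 ∅ (by simp)
  have hrt : rt ∅ = 1 := by unfold rt; exact prod_empty
  rw [hrt, sdiff_empty, mul_one] at hNz
  set N' := Nz (Q c W u) ((c.x : ℝ) ^ u) with hN'
  have hu' : 0 < u := by linarith
  have hNz0 : 0 < c.κ W * (u * Real.log c.x) := by positivity
  have hN'0 : 0 < N' := lt_of_lt_of_le hNz0 hNz
  set U := U1 (c.P W δ) c.x L t₀ ^ 4 * U2 (c.P W δ) c.x L t₀ ^ (K - 2) with hUdef
  have hU1' : 1 ≤ U := by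
    rw [hUdef]
    exact one_le_mul_of_one_le_of_one_le (one_le_pow₀ v1) (one_le_pow₀ v2)
  set D : ℝ := 20 * (K : ℝ) ^ 2 / D₀ with hDd
  have hD0' : 0 ≤ D := by positivity
  have hDe : D ≤ 5 / 4 * e := by
    rw [hDd, div_le_iff₀ hDpos]
    nlinarith
  have hX0 : 0 < c.X W := by
    unfold Cfg.X
    positivity
  have hq2 : 0 < c.q2 W s := by
    refine lt_of_lt_of_le ?_ (q1'.trans q2')
    positivity
  -- main term
  have hE1 : E ≤ Real.exp D * U / (c.κ W * (u * Real.log c.x)) := by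
    refine hEx.trans (V5.trans ?_)
    rw [mul_assoc]
    exact div_le_div_of_nonneg_left (by positivity) hNz0 hNz
  have hUm : Um c W L δ t₀ = U / (c.κ W * Real.log c.x) := rfl
  have hUm0 : 0 < Um c W L δ t₀ := by
    rw [hUm]
    positivity
  have hE2 : E ≤ Real.exp D / u * Um c W L δ t₀ := by
    refine hE1.trans (le_of_eq ?_)
    rw [hUm]
    field_simp
  have h6 : c.N i / Nat.totient (c.a i * W) * c.q2 W s * E ≤
      (1 + e) * c.X W * c.q2 W s * (Real.exp D / u * Um c W L δ t₀) := by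
    have k5 : c.N i / Nat.totient (c.a i * W) * c.q2 W s ≤ (1 + e) * c.X W * c.q2 W s :=
      mul_le_mul_of_nonneg_right hN hq2.le
    have k6 : 0 ≤ c.N i / Nat.totient (c.a i * W) * c.q2 W s := by
      refine mul_nonneg (le_trans ?_ hN0) hq2.le
      exact mul_nonneg (by linarith) hX0.le
    have k7 : 0 ≤ Real.exp D / u * Um c W L δ t₀ := by positivity
    calc _ ≤ c.N i / Nat.totient (c.a i * W) * c.q2 W s * (Real.exp D / u * Um c W L δ t₀) :=
          mul_le_mul_of_nonneg_left hE2 k6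
      _ ≤ _ := mul_le_mul_of_nonneg_right k5 k7
  have h7 : ((Real.log c.x) ^ (K + 3)) ^ 2 * c.x / Real.log c.x ^ (4 * K + 20) ≤
      e * (c.X W * c.q2 W s * Um c W L δ t₀) := by
    have e1 : ((Real.log c.x) ^ (K + 3)) ^ 2 * c.x / Real.log c.x ^ (4 * K + 20) =
        (Nat.totient W / Real.log c.x ^ (K + 11)) *
          (c.X W * (1 / Real.log c.x ^ (K + 1)) * (1 / Real.log c.x)) := by
      unfold Cfg.X
      have e2 : (Real.log c.x) ^ (4 * K + 20) =
          ((Real.log c.x) ^ (K + 3)) ^ 2 * (Real.log c.x ^ (K + 11) * Real.log c.x ^ (K + 1) *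
            Real.log c.x ^ 2) := by
        rw [← pow_mul, ← pow_add, ← pow_add, ← pow_add]
        congr 1
        ring
      rw [e2]
      have : Real.log c.x ≠ 0 := by positivity
      field_simp
    rw [e1]
    have e4 : (Nat.totient W : ℝ) / Real.log c.x ^ (K + 11) ≤ e := by
      rw [div_le_iff₀ (by positivity)]
      have e5 : (Nat.totient W : ℝ) / e ≤ Real.log c.x := by linarith
      rw [div_le_iff₀ he] at e5
      have e6 : Real.log c.x ^ 1 ≤ Real.log c.x ^ (K + 11) :=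
        pow_le_pow_right₀ hlx (by omega)
      rw [pow_one] at e6
      nlinarith
    have e7 : 1 / Real.log c.x ≤ Um c W L δ t₀ := by
      rw [hUm]
      have e8 : c.κ W * Real.log c.x ≤ 1 * Real.log c.x :=
        mul_le_mul_of_nonneg_right k2 hlx0.le
      rw [one_mul] at e8
      calc 1 / Real.log c.x ≤ 1 / (c.κ W * Real.log c.x) :=
            one_div_le_one_div_of_le (by positivity) e8
        _ ≤ U / (c.κ W * Real.log c.x) :=
            div_le_div_of_nonneg_right hU1' (by positivity)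
    have e9 : c.X W * (1 / Real.log c.x ^ (K + 1)) ≤ c.X W * c.q2 W s :=
      mul_le_mul_of_nonneg_left (q1'.trans q2') hX0.le
    have e10 : c.X W * (1 / Real.log c.x ^ (K + 1)) * (1 / Real.log c.x) ≤
        c.X W * c.q2 W s * Um c W L δ t₀ :=
      mul_le_mul e9 e7 (by positivity) (by positivity)
    exact mul_le_mul e4 e10 (by positivity) he.le
  have hfin := mc_const e D he he6 δ hδ hδe hD0' hDe
  rw [← hu] at hfin
  have hH0 : 0 ≤ c.X W * c.q2 W s * Um c W L δ t₀ := by positivity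
  have hcomb : S ≤ ((1 + e) * Real.exp D / u + e) * (c.X W * c.q2 W s * Um c W L δ t₀) := by
    have e1 : (1 + e) * c.X W * c.q2 W s * (Real.exp D / u * Um c W L δ t₀) =
        ((1 + e) * Real.exp D / u) * (c.X W * c.q2 W s * Um c W L δ t₀) := by ring
    rw [e1] at h6
    rw [add_mul]
    linarith
  exact hcomb.trans (mul_le_mul_of_nonneg_right hfin hH0)

end Pool.Agent.Work.MP_70e905_nt.M3
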