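import Mathlib
import Pool.Agent.Work.MP_70e905_nt.MT.Defs

set_option autoImplicit false

/-!
Definitions for the cluster theorem with FOUR clusters (constant 4 - 10^(-17) in the pair sums).

Notation of the headers: `x = c.x`, `lx = Real.log x`, `n_i = c.a i * z + c.b i`, `α_p = Real.log p / lx`,
`P = c.P W δ` (the primes of the weights), `Pz = c.Q W (1/8)`, `P' = c.Q W (1/4 - 2 δ)`, `κ = c.κ W`,
`U1, U2` = `U1 P x L t₀`, `U2 P x L t₀`, `g1 = 1 + gg`.
-/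

namespace Pool.Agent.Work.MP_70e905_nt.M3

open Finset Pool.Agent.Work.MP_73869e_nt.TH Pool.Agent.Work.MP_70e905_nt.MT

/-- the one variable function of the lower bound sieve: `(1 - log n / log x ^ r)⁺` -/
noncomputable def yv (x : ℕ) (r : ℝ) (n : ℕ) : ℝ := max 0 (1 - Real.log n / (r * Real.log x))

/-- sum of a function over the products of the primes of `P` -/
noncomputable def Nh (P : Finset ℕ) (h : ℕ → ℝ) : ℝ := ∑ S ∈ P.powerset, HH S * h (pd S)

/-- coupled coefficients: `Z` on the labels different from `j`, the function `h` on the label `j` -/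
noncomputable def Yh {K : ℕ} (P P' : Finset ℕ) (h : ℕ → ℝ) (j : Fin K) (Z : Finset (ℕ × Fin K) → ℝ)
    (A : Finset (ℕ × Fin K)) : ℝ :=
  open Classical in
  if ∀ c ∈ A, c.2 ≠ j → c.1 ∈ P then
    Z (A.filter (fun c => c.2 ≠ j)) * h (pd (lb j A)) /
      Nh (P' \ (A.filter (fun c => c.2 ≠ j)).image Prod.fst) h
  else 0

/-- coefficients on the outcomes which contain `(p, j)` -/
noncomputable def Vd {K : ℕ} (V : Finset (ℕ × Fin K) → ℝ) (p : ℕ) (j : Fin K)
    (A : Finset (ℕ × Fin K)) : ℝ :=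
  V A - V (insert (p, j) A) + gg p * ∑ l : Fin K, V (insert (p, l) A)

/-- the (decoupled) Selberg weight of level `R` with primes in `P'` -/
noncomputable def Lam (P' : Finset ℕ) (R : ℝ) (m : ℕ) : ℝ :=
  (∑ S ∈ P'.powerset.filter (fun S => ((pd S : ℕ) : ℝ) ≤ R),
    ∏ p ∈ S, (gg p - if p ∣ m then 1 else 0)) / Nz P' R

/-- the primes up to `x ^ u` not dividing `W` modulo which the zeros of the forms are different -/
noncomputable def Q {K : ℕ} (c : Cfg K) (W : ℕ) (u : ℝ) : Finset ℕ := c.PZ W ((c.x : ℝ) ^ u)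

/-- the special primes -/
noncomputable def II {K : ℕ} (c : Cfg K) (W : ℕ) : Finset ℕ :=
  (Q c W (1 / 8 + 1 / 2000)).filter (fun p : ℕ => (c.x : ℝ) ^ (1 / 8 : ℝ) < (p : ℝ))

/-- the integers of the range for which the form `i` is prime -/
def dp {K : ℕ} (c : Cfg K) (W : ℕ) (i : Fin K) : Finset ℕ :=
  (c.dom W).filter (fun z => (c.a i * z + c.b i).Prime)

/-- the coefficients with the labels `i` and `j` summed -/
noncomputable def Zij {K : ℕ} (c : Cfg K) (W L : ℕ) (δ t₀ : ℝ) (i j : Fin K) :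
    Finset (ℕ × Fin K) → ℝ :=
  Zj gg (c.P W δ) j (Zj gg (c.P W δ) i (YY c.x L t₀ δ))

/-- the weight without the labels `i` and `j` -/
noncomputable def FF {K : ℕ} (c : Cfg K) (W L : ℕ) (δ t₀ : ℝ) (i j : Fin K) (z : ℕ) : ℝ :=
  ff gg (c.P W δ) (Zij c W L δ t₀ i j) (om (c.P W δ) c.a c.b z)

/-- its square, restricted to the integers with no exceptional small prime -/
noncomputable def W2 {K : ℕ} (c : Cfg K) (W L : ℕ) (s δ t₀ : ℝ) (i j : Fin K) (z : ℕ) : ℝ :=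
  if cop (c.P₀ W s) c.a c.b z then (FF c W L δ t₀ i j z) ^ 2 else 0

/-- `U1 ^ 4 * U2 ^ (K - 2) / (κ * log x)` -/
noncomputable def Um {K : ℕ} (c : Cfg K) (W L : ℕ) (δ t₀ : ℝ) : ℝ :=
  U1 (c.P W δ) c.x L t₀ ^ 4 * U2 (c.P W δ) c.x L t₀ ^ (K - 2) / (c.κ W * Real.log c.x)

/-- the unit for the pair sums -/
noncomputable def Hm {K : ℕ} (c : Cfg K) (W L : ℕ) (s δ t₀ : ℝ) : ℝ :=
  c.X W * c.q2 W s * Um c W L δ t₀

/-- the parameters: `e` bounds all small quantities -/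
structure Par (K L D₀ : ℕ) (s δ t₀ e : ℝ) : Prop where
  hK : 2 ≤ K
  hL : 1 ≤ L
  hs : 0 < s
  hδ : 0 < δ
  ht₀ : 0 < t₀
  hsδ : 2 * s ≤ δ
  hsK : s * Real.log (K + 1) ≤ 1 / 10 ^ 5
  hLδ : (2 : ℝ) ^ L * t₀ ≤ δ / 4
  he : 0 < e
  hδe : δ ≤ e
  hD : 16 * (K : ℝ) ^ 2 ≤ e * D₀

/-- the sum over the divisors is concentrated on small divisors -/
def Conc {K : ℕ} (c : Cfg K) (W L : ℕ) (δ t₀ e : ℝ) : Prop :=
  4 * K * U2t (c.P W δ) c.x L t₀ ≤ e * δ * U2 (c.P W δ) c.x L t₀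

/-- `∫ (θ² - 2 θ³ / 3) ...`: the loss function of the lower bound sieve -/
noncomputable def hf (θ : ℝ) : ℝ := if θ ≤ 1 then θ ^ 2 - 2 / 3 * θ ^ 3 else 1 / 3

end Pool.Agent.Work.MP_70e905_nt.M3
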