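import Mathlib
import Pool.Agent.Work.MP_70e905_nt.M3.Defs
import Pool.Agent.Work.MP_70e905_nt.MT.F1

set_option autoImplicit false

/-!
MODULE N1 (sum of `μ²(m) / φ(m)`, upper bound with main term `log z`), size M-L. Mathlib only (plus `MT.F1`).

`S ↦ pd S` is injective on sets of primes and `HH S = 1 / φ(pd S)`. For a finite set `S` of primes let
`σ(S, y)` be the sum of `1 / e` over the integers `1 ≤ e ≤ y` all of whose prime factors are in `S`.
(1) RANKIN: for `y > 0`: `σ(S, y) ≥ ∏_{p ∈ S} (1 - 1/p)⁻¹ - y^{-1/2} ∏_{p ∈ S} (1 - p^{-1/2})⁻¹`: the sum of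
`1/e` over ALL `e` with prime factors in `S` is the first product
(`EulerProduct.prod_filter_prime_geometric_eq_tsum_factoredNumbers` / `Nat.factoredNumbers`; or induction on `S`),
and for `e > y`, `1/e ≤ y^{-1/2} e^{-1/2}`, whose sum over all `e` is the second product.
(2) Every `d ≥ 1` is uniquely `m e` with `m = rad d` squarefree and all prime factors of `e` dividing `m`. So
(with `m = pd S`, `y = z / m`) the sum of `1/d` over `d ≤ z` with prime factors in `P` is
`∑_{S ⊆ P, pd S ≤ z} (1 / pd S) σ(S, z / pd S)`, and `(1 / pd S) ∏_{p ∈ S} (1 - 1/p)⁻¹ = HH S`. Hence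
`Nz P z ≤ ∑_{d ≤ z} 1/d + ∑_{S ⊆ P, pd S ≤ z} (1 / pd S) (pd S / z)^{1/2} ∏_{p ∈ S} (1 - p^{-1/2})⁻¹`.
The first sum is at most `1 + log z`.
(3) The last sum: `∏_{p ∈ S} (1 - p^{-1/2})⁻¹ = ∏ (1 + l(p)) = ∑_{T ⊆ S} l(T)`, `l(p) = 1 / (√p - 1)`. It is at most
`z^{-1/2} ∑_T l(T) (pd T)^{-1/2} ∑_{m' ≤ z / pd T} m'^{-1/2} ≤ z^{-1/2} ∑_T l(T) (pd T)^{-1/2} 2 (z / pd T)^{1/2}
= 2 ∑_T l(T) / pd T ≤ 2 ∏_{p ∈ P} (1 + l(p)/p) ≤ 2 exp (∑_p 1 / (p (√p - 1)))`, and `∑_n 4 n^{-3/2}` converges
(`√p - 1 ≥ √p / 4` for `p ≥ 2`). So `C` is absolute.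
-/

namespace Pool.Agent.Work.MP_70e905_nt.M3

open Finset Pool.Agent.Work.MP_73869e_nt.TH Pool.Agent.Work.MP_70e905_nt.MT

private noncomputable def n1A (P : Finset ℕ) (n : ℕ) : ℝ :=
  ∑ d ∈ (Icc 1 n).filter (fun d => ∀ p ∈ d.primeFactors, p ∈ P), 1 / (d : ℝ)

private theorem n1_A_rec (P : Finset ℕ) (p : ℕ) (hp : p ∉ P) (hpp : p.Prime) (n : ℕ) :
    n1A (insert p P) n = n1A P n + 1 / p * n1A (insert p P) (n / p) := by
  unfold n1A
  set A := (Icc 1 n).filter (fun d => ∀ q ∈ d.primeFactors, q ∈ insert p P) with hA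
  have hsplit : ∑ d ∈ A, (1 : ℝ) / d = ∑ d ∈ A.filter (fun d => ¬ p ∣ d), (1 : ℝ) / d +
      ∑ d ∈ A.filter (fun d => p ∣ d), (1 : ℝ) / d := by
    have := Finset.sum_filter_add_sum_filter_not A (fun d => p ∣ d) (fun d => (1 : ℝ) / d)
    linarith
  rw [hsplit]
  congr 1
  · refine Finset.sum_congr ?_ fun _ _ => rfl
    ext d
    simp only [hA, Finset.mem_filter, Finset.mem_Icc]
    constructor
    · rintro ⟨⟨h1, h2⟩, h3⟩
      refine ⟨h1, fun q hq => ?_⟩
      rcases Finset.mem_insert.1 (h2 q hq) with h4 | h4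
      · exact absurd (h4 ▸ Nat.dvd_of_mem_primeFactors hq) h3
      · exact h4
    · rintro ⟨h1, h2⟩
      refine ⟨⟨h1, fun q hq => Finset.mem_insert_of_mem (h2 q hq)⟩, fun h3 => hp (h2 p ?_)⟩
      exact Nat.mem_primeFactors.2 ⟨hpp, h3, by omega⟩
  · rw [Finset.mul_sum]
    refine (Finset.sum_nbij' (fun e => p * e) (fun d => d / p) ?_ ?_ ?_ ?_ ?_).symm
    · intro e he
      simp only [hA, Finset.mem_filter, Finset.mem_Icc] at he ⊢
      obtain ⟨⟨h1, h2⟩, h3⟩ := he
      refine ⟨⟨⟨Nat.mul_pos hpp.pos h1, ?_⟩, ?_⟩, Nat.dvd_mul_right _ _⟩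
      · rw [mul_comm]; exact (Nat.le_div_iff_mul_le hpp.pos).1 h2
      · intro q hq
        rw [Nat.primeFactors_mul hpp.ne_zero (by omega), Finset.mem_union] at hq
        rcases hq with hq | hq
        · rw [hpp.primeFactors, Finset.mem_singleton] at hq
          rw [hq]; exact Finset.mem_insert_self _ _
        · exact h3 q hq
    · intro d hd
      simp only [hA, Finset.mem_filter, Finset.mem_Icc] at hd ⊢
      obtain ⟨⟨⟨h1, h2⟩, h3⟩, h4⟩ := hd
      refine ⟨⟨Nat.div_pos (Nat.le_of_dvd h1 h4) hpp.pos, Nat.div_le_div_right h2⟩, ?_⟩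
      intro q hq
      refine h3 q ?_
      exact Nat.primeFactors_mono (Nat.div_dvd_of_dvd h4) (by omega) hq
    · intro e _
      exact Nat.mul_div_cancel_left e hpp.pos
    · intro d hd
      simp only [hA, Finset.mem_filter] at hd
      exact Nat.mul_div_cancel' hd.2
    · intro e _
      push_cast
      rw [one_div_mul_one_div]


/-- the sum with a real bound -/
private noncomputable def n1B (P : Finset ℕ) (z : ℝ) : ℝ := n1A P ⌊z⌋₊

private theorem n1_B_rec (P : Finset ℕ) (p : ℕ) (hp : p ∉ P) (hpp : p.Prime) (z : ℝ) :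
    n1B (insert p P) z = n1B P z + 1 / p * n1B (insert p P) (z / p) := by
  unfold n1B
  rw [n1_A_rec P p hp hpp, Nat.floor_div_natCast]

private theorem n1_harm (m n : ℕ) (h : m + 1 ≤ n) :
    ∑ d ∈ Ioc m n, 1 / (d : ℝ) ≤ 1 + Real.log (n / (m + 1)) := by
  induction n, h using Nat.le_induction with
  | base =>
    have h1 : Ioc m (m + 1) = {m + 1} := by
      ext d
      simp only [Finset.mem_Ioc, Finset.mem_singleton]
      omega
    have h0 : (0 : ℝ) < (m : ℝ) + 1 := by positivity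
    rw [h1, Finset.sum_singleton]
    push_cast
    rw [div_self h0.ne', Real.log_one, add_zero]
    rw [div_le_one h0]
    have : (0 : ℝ) ≤ m := by positivity
    linarith
  | succ n hn ih =>
    have h0 : (0 : ℝ) < (m : ℝ) + 1 := by positivity
    have hn0 : (0 : ℝ) < n := by
      have : 0 < n := by omega
      exact_mod_cast this
    rw [← Finset.insert_Ioc_right_eq_Ioc_add_one (by omega : m ≤ n), Finset.sum_insert (by simp)]
    have h1 : 1 / ((n + 1 : ℕ) : ℝ) ≤ Real.log ((n + 1 : ℕ) : ℝ) - Real.log n := by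
      rw [← Real.log_div (by positivity) hn0.ne']
      have h2 := Real.one_sub_inv_le_log_of_pos (x := ((n + 1 : ℕ) : ℝ) / n) (by positivity)
      refine le_trans (le_of_eq ?_) h2
      push_cast
      field_simp
      ring
    rw [Real.log_div (by positivity) h0.ne'] at ih ⊢
    linarith

private theorem n1_B_incr (P : Finset ℕ) (z z' : ℝ) (hz' : 0 < z') (h : z' ≤ z) :
    0 ≤ n1B P z - n1B P z' ∧ n1B P z - n1B P z' ≤ 1 + Real.log (z / z') := by
  have hz : 0 < z := lt_of_lt_of_le hz' h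
  have hfl : ⌊z'⌋₊ ≤ ⌊z⌋₊ := Nat.floor_le_floor h
  have h1 : n1B P z - n1B P z' =
      ∑ d ∈ (Ioc ⌊z'⌋₊ ⌊z⌋₊).filter (fun d => ∀ p ∈ d.primeFactors, p ∈ P), 1 / (d : ℝ) := by
    unfold n1B n1A
    have h2 : (Icc 1 ⌊z⌋₊).filter (fun d => ∀ p ∈ d.primeFactors, p ∈ P) =
        (Icc 1 ⌊z'⌋₊).filter (fun d => ∀ p ∈ d.primeFactors, p ∈ P) ∪
          (Ioc ⌊z'⌋₊ ⌊z⌋₊).filter (fun d => ∀ p ∈ d.primeFactors, p ∈ P) := by
      rw [← Finset.filter_union]
      congr 1
      ext d
      simp only [Finset.mem_union, Finset.mem_Icc, Finset.mem_Ioc]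
      omega
    rw [h2, Finset.sum_union]
    · ring
    · rw [Finset.disjoint_left]
      intro d hd hd'
      simp only [Finset.mem_filter, Finset.mem_Icc, Finset.mem_Ioc] at hd hd'
      omega
  have hlog : 0 ≤ Real.log (z / z') := Real.log_nonneg ((one_le_div hz').2 h)
  rw [h1]
  refine ⟨Finset.sum_nonneg fun d _ => by positivity, ?_⟩
  refine le_trans (Finset.sum_le_sum_of_subset_of_nonneg (Finset.filter_subset _ _)
    fun d _ _ => by positivity) ?_
  rcases Nat.lt_or_ge ⌊z'⌋₊ ⌊z⌋₊ with h3 | h3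
  · refine le_trans (n1_harm _ _ h3) ?_
    have h4 : Real.log ((⌊z⌋₊ : ℝ) / (⌊z'⌋₊ + 1)) ≤ Real.log (z / z') := by
      apply Real.log_le_log
      · have : 0 < ⌊z⌋₊ := by omega
        positivity
      · apply div_le_div₀ hz.le (Nat.floor_le hz.le) hz'
        exact (Nat.lt_floor_add_one z').le
    linarith
  · rw [Finset.Ioc_eq_empty (by omega)]
    simp only [Finset.sum_empty]
    linarith

/-- the mixed sum -/
private noncomputable def n1F (Q R : Finset ℕ) (z : ℝ) : ℝ :=
  ∑ S ∈ Q.powerset, HH S * n1B R (z / pd S)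

private theorem n1_F_rec (Q R : Finset ℕ) (p : ℕ) (hpQ : p ∉ Q) (hpR : p ∉ R) (hpp : p.Prime)
    (z : ℝ) : n1F (insert p Q) R z = n1F Q (insert p R) z +
      1 / (p * (p - 1)) * (n1F Q (insert p R) (z / p) - n1F Q (insert p R) (z / p ^ 2)) := by
  have hp1 : (1 : ℝ) < p := by exact_mod_cast hpp.one_lt
  have hp0 : (0 : ℝ) < p := by linarith
  unfold n1F
  rw [Finset.sum_powerset_insert hpQ, ← Finset.sum_add_distrib, ← Finset.sum_sub_distrib,
    Finset.mul_sum, ← Finset.sum_add_distrib]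
  refine Finset.sum_congr rfl fun S hS => ?_
  have hpS : p ∉ S := fun h => hpQ (mem_powerset.1 hS h)
  have h1 : ((pd (insert p S) : ℕ) : ℝ) = p * pd S := by
    unfold pd
    rw [Finset.prod_insert hpS]
    push_cast
    rfl
  have h2 : HH (insert p S) = gg p * HH S := by
    unfold HH
    rw [Finset.prod_insert hpS]
  have e1 : z / p / pd S = z / pd S / p := by rw [div_div, div_div, mul_comm]
  have e2 : z / p ^ 2 / pd S = z / pd S / p / p := by
    rw [div_div, div_div, div_div]
    congr 1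
    ring
  have e3 : z / (p * pd S) = z / pd S / p := by rw [div_div, mul_comm]
  rw [h1, h2, e1, e2, e3]
  generalize z / pd S = y
  have h3 := n1_B_rec R p hpR hpp y
  have h4 := n1_B_rec R p hpR hpp (y / p)
  have h5 : n1B R y = n1B (insert p R) y - 1 / p * n1B (insert p R) (y / p) := by linarith
  have h6 : n1B R (y / p) = n1B (insert p R) (y / p) - 1 / p * n1B (insert p R) (y / p / p) := by
    linarith
  rw [h5, h6]
  unfold gg
  have hp2 : (p : ℝ) - 1 ≠ 0 := by linarith
  field_simp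
  ring

/-- the bound of the increments -/
private noncomputable def n1al (Q : Finset ℕ) : ℝ := ∏ p ∈ Q, (1 + 2 * (1 / ((p : ℝ) * (p - 1))))

private theorem n1_q_nonneg {p : ℕ} (hp : p.Prime) : 0 ≤ 1 / ((p : ℝ) * (p - 1)) := by
  have hp1 : (1 : ℝ) < p := by exact_mod_cast hp.one_lt
  have : (0 : ℝ) < (p : ℝ) * (p - 1) := by nlinarith
  positivity

private theorem n1_al_nonneg (Q : Finset ℕ) (hQ : ∀ p ∈ Q, p.Prime) : 0 ≤ n1al Q :=
  Finset.prod_nonneg fun p hp => by
    have := n1_q_nonneg (hQ p hp)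
    linarith

private theorem n1_key (Q : Finset ℕ) : ∀ R : Finset ℕ, Disjoint Q R → (∀ p ∈ Q, p.Prime) →
    (∀ z z' : ℝ, 0 < z' → z' ≤ z → |n1F Q R z - n1F Q R z'| ≤ n1al Q * (1 + Real.log (z / z'))) ∧
    (∀ z : ℝ, 1 ≤ z → n1F Q R z ≤ 2 + Real.log z +
      n1al Q * ∑ p ∈ Q, 1 / ((p : ℝ) * (p - 1)) * (1 + Real.log p)) := by
  induction Q using Finset.induction_on with
  | empty =>
    intro R _ _
    have h0 : ∀ z, n1F ∅ R z = n1B R z := by
      intro z
      unfold n1F
      rw [Finset.powerset_empty, Finset.sum_singleton]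
      have hpd : pd ∅ = 1 := rfl
      have hHH : HH ∅ = 1 := rfl
      rw [hpd, hHH, Nat.cast_one, div_one, one_mul]
    have h1 : n1al ∅ = 1 := by simp [n1al]
    refine ⟨fun z z' hz' h => ?_, fun z hz => ?_⟩
    · rw [h0, h0, h1, one_mul]
      obtain ⟨h2, h3⟩ := n1_B_incr R z z' hz' h
      rw [abs_of_nonneg h2]
      exact h3
    · rw [h0, Finset.sum_empty, mul_zero, add_zero]
      obtain ⟨h5, h6⟩ := n1_B_incr R z 1 (by norm_num) hz
      have h7 : n1B R 1 ≤ 1 := by
        unfold n1B n1A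
        rw [Nat.floor_one]
        refine le_trans (Finset.sum_le_sum_of_subset_of_nonneg (Finset.filter_subset _ _)
          fun d _ _ => by positivity) ?_
        simp
      rw [div_one] at h6
      linarith
  | insert p Q hp ih =>
    intro R hdis hpr
    have hpp : p.Prime := hpr p (Finset.mem_insert_self p Q)
    have hQ : ∀ q ∈ Q, q.Prime := fun q hq => hpr q (Finset.mem_insert_of_mem hq)
    rw [Finset.disjoint_insert_left] at hdis
    have hdis' : Disjoint Q (insert p R) := by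
      rw [Finset.disjoint_insert_right]
      exact ⟨hp, hdis.2⟩
    obtain ⟨ih1, ih2⟩ := ih (insert p R) hdis' hQ
    have hrec := n1_F_rec Q R p hp hdis.1 hpp
    have hp1 : (1 : ℝ) < p := by exact_mod_cast hpp.one_lt
    have hp0 : (0 : ℝ) < p := by linarith
    have hq0 := n1_q_nonneg hpp
    have hal0 := n1_al_nonneg Q hQ
    have hal : n1al (insert p Q) = (1 + 2 * (1 / ((p : ℝ) * (p - 1)))) * n1al Q := by
      unfold n1al
      rw [Finset.prod_insert hp]
    set q : ℝ := 1 / ((p : ℝ) * (p - 1)) with hq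
    set F := n1F Q (insert p R) with hF
    refine ⟨fun z z' hz' h => ?_, fun z hz => ?_⟩
    · have hz : 0 < z := lt_of_lt_of_le hz' h
      have h1 := ih1 z z' hz' h
      have h2 := ih1 (z / p) (z' / p) (by positivity) (by gcongr)
      have h3 := ih1 (z / p ^ 2) (z' / p ^ 2) (by positivity) (by gcongr)
      have e2 : z / p / (z' / p) = z / z' := by field_simp
      have e3 : z / p ^ 2 / (z' / p ^ 2) = z / z' := by field_simp
      rw [e2] at h2
      rw [e3] at h3
      rw [hrec, hrec, hal]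
      have e4 : F z + q * (F (z / p) - F (z / p ^ 2)) - (F z' + q * (F (z' / p) - F (z' / p ^ 2))) =
          (F z - F z') + q * ((F (z / p) - F (z' / p)) - (F (z / p ^ 2) - F (z' / p ^ 2))) := by ring
      rw [e4]
      refine le_trans (abs_add_le _ _) ?_
      rw [abs_mul, abs_of_nonneg hq0]
      have h4 : |(F (z / p) - F (z' / p)) - (F (z / p ^ 2) - F (z' / p ^ 2))| ≤
          n1al Q * (1 + Real.log (z / z')) + n1al Q * (1 + Real.log (z / z')) :=
        le_trans (abs_sub _ _) (add_le_add h2 h3)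
      have h5 := mul_le_mul_of_nonneg_left h4 hq0
      nlinarith
    · have h1 := ih2 z hz
      have h2 := ih1 (z / p) (z / p ^ 2) (by positivity)
        (div_le_div_of_nonneg_left (by linarith) hp0 (by nlinarith))
      have e1 : z / p / (z / p ^ 2) = p := by field_simp
      rw [e1] at h2
      have h3 := le_trans (le_abs_self _) h2
      have h4 := mul_le_mul_of_nonneg_left h3 hq0
      rw [hrec, hal, Finset.sum_insert hp]
      have hlogp : 0 ≤ Real.log p := Real.log_nonneg hp1.le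
      have hsum : 0 ≤ ∑ p ∈ Q, 1 / ((p : ℝ) * (p - 1)) * (1 + Real.log p) :=
        Finset.sum_nonneg fun p hp => mul_nonneg (n1_q_nonneg (hQ p hp))
          (add_nonneg zero_le_one (Real.log_natCast_nonneg p))
      set T0 := ∑ p ∈ Q, 1 / ((p : ℝ) * (p - 1)) * (1 + Real.log p) with hS
      have h5 : 0 ≤ q * n1al Q := mul_nonneg hq0 hal0
      have h6 : 0 ≤ q * n1al Q * T0 := mul_nonneg h5 hsum
      have h7 : 0 ≤ q * n1al Q * (q * (1 + Real.log p)) :=
        mul_nonneg h5 (mul_nonneg hq0 (by linarith))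
      nlinarith

theorem sum_phi : ∃ C : ℝ, 0 ≤ C ∧ ∀ P : Finset ℕ, (∀ p ∈ P, p.Prime) → ∀ z : ℝ, 1 ≤ z →
    Nz P z ≤ Real.log z + C := by
  have hsum : Summable (fun n : ℕ => 1 / ((n : ℝ) * (n - 1)) * (1 + Real.log n)) := by
    have h1 : Summable (fun n : ℕ => 6 * (1 / (n : ℝ) ^ (3 / 2 : ℝ))) :=
      (Real.summable_one_div_nat_rpow.2 (by norm_num)).mul_left 6
    refine Summable.of_nonneg_of_le (fun n => ?_) (fun n => ?_) h1
    · refine mul_nonneg ?_ (add_nonneg zero_le_one (Real.log_natCast_nonneg n))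
      rcases Nat.eq_zero_or_pos n with h | h
      · subst h
        simp
      · have : (1 : ℝ) ≤ n := by exact_mod_cast h
        exact div_nonneg zero_le_one (mul_nonneg (by linarith) (by linarith))
    · rcases Nat.lt_or_ge n 2 with h | h
      · have h2 : 1 / ((n : ℝ) * (n - 1)) = 0 := by
          interval_cases n <;> simp
        rw [h2, zero_mul]
        positivity
      · have hn : (2 : ℝ) ≤ n := by exact_mod_cast h
        have hn0 : (0 : ℝ) < n := by linarith
        have h3 : Real.log n ≤ 2 * Real.sqrt n - 2 := by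
          have h4 := Real.log_le_sub_one_of_pos (Real.sqrt_pos.2 hn0)
          rw [Real.log_sqrt hn0.le] at h4
          linarith
        have h5 : (n : ℝ) ^ (3 / 2 : ℝ) = n * Real.sqrt n := by
          rw [Real.sqrt_eq_rpow, ← Real.rpow_one_add' hn0.le (by norm_num)]
          norm_num
        have hs1 : 1 ≤ Real.sqrt n := by
          rw [Real.one_le_sqrt]
          linarith
        rw [h5, div_mul_eq_mul_div, mul_one_div, div_le_div_iff₀ (by nlinarith) (by nlinarith)]
        have h6 : Real.sqrt n * Real.sqrt n = n := Real.mul_self_sqrt hn0.le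
        have h7 : (1 + Real.log n) * Real.sqrt n ≤ 2 * n := by
          have : (1 + Real.log n) ≤ 2 * Real.sqrt n := by linarith
          nlinarith
        have h8 : (n : ℝ) ≤ 2 * (n - 1) := by linarith
        nlinarith
  set T := ∑' n : ℕ, 1 / ((n : ℝ) * (n - 1)) * (1 + Real.log n) with hT
  have hnn : ∀ n : ℕ, 0 ≤ 1 / ((n : ℝ) * (n - 1)) * (1 + Real.log n) := by
    intro n
    refine mul_nonneg ?_ (add_nonneg zero_le_one (Real.log_natCast_nonneg n))
    rcases Nat.eq_zero_or_pos n with h | h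
    · subst h
      simp
    · have : (1 : ℝ) ≤ n := by exact_mod_cast h
      exact div_nonneg zero_le_one (mul_nonneg (by linarith) (by linarith))
  have hT0 : 0 ≤ T := tsum_nonneg hnn
  refine ⟨2 + Real.exp (2 * T) * T, by positivity, fun P hP z hz => ?_⟩
  have h1 := (n1_key P ∅ (Finset.disjoint_empty_right _) hP).2 z hz
  have h2 : n1F P ∅ z = Nz P z := by
    unfold n1F Nz
    rw [Finset.sum_filter]
    refine Finset.sum_congr rfl fun S hS => ?_
    have hpd : (0 : ℝ) < ((pd S : ℕ) : ℝ) := by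
      have : 0 < pd S := Finset.prod_pos fun p hp => (hP p (mem_powerset.1 hS hp)).pos
      exact_mod_cast this
    have h3 : n1B ∅ (z / pd S) = if ((pd S : ℕ) : ℝ) ≤ z then 1 else 0 := by
      unfold n1B n1A
      split_ifs with h4
      · have h5 : 1 ≤ ⌊z / pd S⌋₊ := by
          rw [Nat.one_le_floor_iff, one_le_div hpd]
          exact h4
        have h6 : (Icc 1 ⌊z / pd S⌋₊).filter (fun d => ∀ p ∈ d.primeFactors, p ∈ (∅ : Finset ℕ)) =
            {1} := by
          ext d
          simp only [Finset.mem_filter, Finset.mem_Icc, Finset.mem_singleton]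
          constructor
          · rintro ⟨⟨h7, -⟩, h8⟩
            by_contra h9
            obtain ⟨q, hq, hqd⟩ := Nat.exists_prime_and_dvd h9
            exact absurd (h8 q (Nat.mem_primeFactors.2 ⟨hq, hqd, by omega⟩)) (Finset.notMem_empty q)
          · rintro rfl
            exact ⟨⟨le_rfl, h5⟩, by simp⟩
        rw [h6, Finset.sum_singleton]
        norm_num
      · have h5 : ⌊z / pd S⌋₊ = 0 := by
          rw [Nat.floor_eq_zero, div_lt_one hpd]
          exact not_le.1 h4
        rw [h5]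
        simp
    rw [h3]
    split_ifs <;> simp
  have h3 : ∑ p ∈ P, 1 / ((p : ℝ) * (p - 1)) * (1 + Real.log p) ≤ T :=
    hsum.sum_le_tsum P (fun n _ => hnn n)
  have h4 : n1al P ≤ Real.exp (2 * T) := by
    have h5 : n1al P ≤ Real.exp (∑ p ∈ P, 2 * (1 / ((p : ℝ) * (p - 1)))) := by
      rw [Real.exp_sum]
      unfold n1al
      refine Finset.prod_le_prod (fun p hp => ?_) (fun p hp => ?_)
      · have := n1_q_nonneg (hP p hp)
        linarith
      · have := Real.add_one_le_exp (2 * (1 / ((p : ℝ) * (p - 1))))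
        linarith
    refine le_trans h5 (Real.exp_le_exp.2 ?_)
    rw [← Finset.mul_sum]
    have h6 : ∑ p ∈ P, 1 / ((p : ℝ) * (p - 1)) ≤
        ∑ p ∈ P, 1 / ((p : ℝ) * (p - 1)) * (1 + Real.log p) := by
      refine Finset.sum_le_sum fun p hp => ?_
      have := n1_q_nonneg (hP p hp)
      have h7 := Real.log_natCast_nonneg p
      nlinarith
    linarith
  have h5 : n1al P * ∑ p ∈ P, 1 / ((p : ℝ) * (p - 1)) * (1 + Real.log p) ≤ Real.exp (2 * T) * T :=
    mul_le_mul h4 h3 (Finset.sum_nonneg fun n _ => hnn n) (Real.exp_nonneg _)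
  rw [h2] at h1
  linarith

end Pool.Agent.Work.MP_70e905_nt.M3
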