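import Pool.Agent.Work.MP_70e905_nt.M3.Defs
import Pool.Agent.Work.MP_70e905_nt.M3.N1
import Pool.Agent.Work.MP_70e905_nt.MT.F0
import Pool.Agent.Work.MP_70e905_nt.MT.F1

set_option autoImplicit false

/-!
MODULE N2 (sharp upper bound of `Nz`), size M.

`T` = the set of `κ` (primes `p ≤ x` with `p ∣ W` or `bd`), `κ = rt T`. Choose `σ > 0` with `σ log 4 ≤ ε / 4`, `y = σ lx`,
`Ts` = elements of `T` up to `y`, `Tl = T \ Ts`. `bad_sum` (MT/F0): `∑_{p ∈ Tl} 1/p ≤ C' lx / (y log y) =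
C' / (σ log (σ lx)) ≤ ε / 8` for large `x`, so `rt Tl ≥ 1 - ε/8` (`rt_ge`), `rt Ts ≤ κ / (1 - ε/8)` (product).
Let `V = Ts ∪ E` (disjoint, as no element of `E` is in `T`; `rt V = rt Ts * rt E`) and `Pt = Q c W u \ E`, disjoint from `V`.
For `S ⊆ Pt` with `pd S ≤ x^t` and `S' ⊆ V` the set `S ∪ S'` is a set of primes with `pd (S ∪ S') ≤ x^t pd V`; so
`Nz Pt (x^t) * ∏_{p ∈ V} (1 + gg p) ≤ Nz (Pt ∪ V) (x^t * pd V) ≤ log (x^t pd V) + C` (`sum_phi`), and
`∏_{p ∈ V} (1 + gg p) = (rt V)⁻¹`. Finally `pd Ts ≤ primorial ⌊y⌋ ≤ 4^y = x^{σ log 4} ≤ x^{ε/4}` (`primorial_le_four_pow`),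
`pd E ≤ x^d`, so `log (x^t pd V) + C ≤ (t + d + ε/4) lx + C ≤ (t + d + ε) lx` for large `x`, and
`1 / (1 - ε/8) ≤ 1 + ε`.
-/

namespace Pool.Agent.Work.MP_70e905_nt.M3

open Finset Pool.Agent.Work.MP_73869e_nt.TH Pool.Agent.Work.MP_70e905_nt.MT

private theorem n2_HH_nonneg (S : Finset ℕ) (hS : ∀ p ∈ S, p.Prime) : 0 ≤ HH S := by
  unfold HH
  refine Finset.prod_nonneg fun p hp => ?_
  unfold gg
  have : (1 : ℝ) < p := by exact_mod_cast (hS p hp).one_lt
  exact div_nonneg zero_le_one (by linarith)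

private theorem n2_mul (P V : Finset ℕ) (hd : Disjoint P V) (hP : ∀ p ∈ P, p.Prime)
    (hV : ∀ p ∈ V, p.Prime) (z : ℝ) :
    Nz P z * ∏ p ∈ V, (1 + gg p) ≤ Nz (P ∪ V) (z * pd V) := by
  classical
  rw [Finset.prod_one_add]
  unfold Nz
  rw [Finset.sum_mul_sum, ← Finset.sum_product']
  have h1 : ∀ x ∈ P.powerset.filter (fun S => ((pd S : ℕ) : ℝ) ≤ z) ×ˢ V.powerset,
      HH x.1 * ∏ p ∈ x.2, gg p = HH (x.1 ∪ x.2) := by
    rintro ⟨S, S'⟩ hx
    simp only [Finset.mem_product, Finset.mem_filter, Finset.mem_powerset] at hx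
    unfold HH
    rw [Finset.prod_union (Finset.disjoint_of_subset_left hx.1.1
      (Finset.disjoint_of_subset_right hx.2 hd))]
  rw [Finset.sum_congr rfl h1]
  have hinj : Set.InjOn (fun x : Finset ℕ × Finset ℕ => x.1 ∪ x.2)
      (P.powerset.filter (fun S => ((pd S : ℕ) : ℝ) ≤ z) ×ˢ V.powerset : Finset _) := by
    rintro ⟨S, S'⟩ hx ⟨U, U'⟩ hy hxy
    simp only [Finset.coe_product, Finset.coe_filter, Finset.mem_powerset, Set.mem_prod,
      Set.mem_ofPred_eq, Finset.coe_powerset, Set.mem_preimage, Set.mem_powerset_iff,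
      Finset.coe_subset] at hx hy
    simp only at hxy
    have e1 : ∀ {A B : Finset ℕ}, A ⊆ P → B ⊆ V → (A ∪ B) ∩ P = A := by
      intro A B hA hB
      rw [Finset.union_inter_distrib_right, Finset.inter_eq_left.2 hA]
      have : B ∩ P = ∅ := by
        rw [← Finset.disjoint_iff_inter_eq_empty]
        exact (Finset.disjoint_of_subset_right hB hd).symm
      rw [this, Finset.union_empty]
    have e2 : ∀ {A B : Finset ℕ}, A ⊆ P → B ⊆ V → (A ∪ B) ∩ V = B := by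
      intro A B hA hB
      rw [Finset.union_inter_distrib_right, Finset.inter_eq_left.2 hB]
      have : A ∩ V = ∅ := by
        rw [← Finset.disjoint_iff_inter_eq_empty]
        exact Finset.disjoint_of_subset_left hA hd
      rw [this, Finset.empty_union]
    have h2 : S = U := by rw [← e1 hx.1.1 hx.2, hxy, e1 hy.1.1 hy.2]
    have h3 : S' = U' := by rw [← e2 hx.1.1 hx.2, hxy, e2 hy.1.1 hy.2]
    rw [h2, h3]
  rw [← Finset.sum_image (f := HH) hinj]
  refine Finset.sum_le_sum_of_subset_of_nonneg ?_ ?_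
  · intro U hU
    rw [Finset.mem_image] at hU
    obtain ⟨⟨S, S'⟩, hx, rfl⟩ := hU
    simp only [Finset.mem_product, Finset.mem_filter, Finset.mem_powerset] at hx
    rw [Finset.mem_filter, Finset.mem_powerset]
    refine ⟨Finset.union_subset_union hx.1.1 hx.2, ?_⟩
    have h2 : pd (S ∪ S') = pd S * pd S' := by
      unfold pd
      rw [Finset.prod_union (Finset.disjoint_of_subset_left hx.1.1
        (Finset.disjoint_of_subset_right hx.2 hd))]
    have h3 : pd S' ≤ pd V := by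
      unfold pd
      exact Finset.prod_le_prod_of_subset_of_one_le' hx.2 fun p hp _ => (hV p hp).one_lt.le
    show ((pd (S ∪ S') : ℕ) : ℝ) ≤ z * pd V
    rw [h2]
    push_cast
    have h4 : ((pd S' : ℕ) : ℝ) ≤ pd V := by exact_mod_cast h3
    have h5 : (0 : ℝ) ≤ pd S := by positivity
    have h6 : (0 : ℝ) ≤ pd S' := by positivity
    exact mul_le_mul hx.1.2 h4 h6 (h5.trans hx.1.2)
  · intro U hU _
    rw [Finset.mem_filter, Finset.mem_powerset] at hU
    refine n2_HH_nonneg U fun p hp => ?_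
    rcases Finset.mem_union.1 (hU.1 hp) with h | h
    · exact hP p h
    · exact hV p h

private theorem n2_prod (V : Finset ℕ) (hV : ∀ p ∈ V, p.Prime) :
    rt V * ∏ p ∈ V, (1 + gg p) = 1 := by
  unfold rt
  rw [← Finset.prod_mul_distrib]
  refine Finset.prod_eq_one fun p hp => ?_
  unfold gg
  have h1 : (1 : ℝ) < p := by exact_mod_cast (hV p hp).one_lt
  have h2 : (p : ℝ) - 1 ≠ 0 := by linarith
  have h3 : (p : ℝ) ≠ 0 := by linarith
  field_simp
  ring

private theorem n2_rt_01 (V : Finset ℕ) (hV : ∀ p ∈ V, p.Prime) : 0 ≤ rt V ∧ rt V ≤ 1 := by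
  unfold rt
  have h1 : ∀ p ∈ V, 0 ≤ 1 - 1 / (p : ℝ) ∧ 1 - 1 / (p : ℝ) ≤ 1 := by
    intro p hp
    have h1 : (1 : ℝ) < p := by exact_mod_cast (hV p hp).one_lt
    have h2 : 1 / (p : ℝ) ≤ 1 := by
      rw [div_le_one (by linarith)]
      exact h1.le
    have h3 : 0 ≤ 1 / (p : ℝ) := by positivity
    constructor <;> linarith
  exact ⟨Finset.prod_nonneg fun p hp => (h1 p hp).1,
    Finset.prod_le_one (fun p hp => (h1 p hp).1) fun p hp => (h1 p hp).2⟩

theorem Nz_sharp (ε : ℝ) (hε : 0 < ε) (hε1 : ε ≤ 1) (K D₀ W A₀ C : ℕ) : ∃ X₀ : ℕ,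
    ∀ c : Cfg K, c.Ok D₀ W A₀ C → X₀ ≤ c.x → ∀ d u t : ℝ, 0 ≤ d → d ≤ 1 → u ≤ 1 → 0 ≤ t → t ≤ 1 →
    ∀ E : Finset ℕ, E ⊆ Q c W 1 → ((pd E : ℕ) : ℝ) ≤ (c.x : ℝ) ^ d →
      Nz (Q c W u \ E) ((c.x : ℝ) ^ t) ≤
        (1 + ε) * (c.κ W * rt E) * ((t + d + ε) * Real.log c.x) := by
  classical
  obtain ⟨C₀, hC₀, hphi⟩ := sum_phi
  obtain ⟨C', X₁, hbad⟩ := bad_sum K D₀ W A₀ C
  set σ : ℝ := ε / (4 * Real.log 4) with hσ
  have hlog4 : 0 < Real.log 4 := Real.log_pos (by norm_num)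
  have hσ0 : 0 < σ := by positivity
  -- conditions on log x
  obtain ⟨M, hM⟩ : ∃ M : ℝ, ∀ l : ℝ, M ≤ l → 2 ≤ σ * l ∧ (C' : ℝ) / (σ * Real.log (σ * l)) ≤ ε / 8 ∧
      C₀ ≤ ε / 2 * l := by
    have t1 : Filter.Tendsto (fun l : ℝ => σ * l) Filter.atTop Filter.atTop :=
      Filter.tendsto_id.const_mul_atTop hσ0
    have t2 : Filter.Tendsto (fun l : ℝ => σ * Real.log (σ * l)) Filter.atTop Filter.atTop :=
      (Real.tendsto_log_atTop.comp t1).const_mul_atTop hσ0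
    have t3 : Filter.Tendsto (fun l : ℝ => (C' : ℝ) / (σ * Real.log (σ * l))) Filter.atTop
        (nhds 0) := t2.const_div_atTop _
    have t4 : Filter.Tendsto (fun l : ℝ => ε / 2 * l) Filter.atTop Filter.atTop :=
      Filter.tendsto_id.const_mul_atTop (by positivity)
    have t5 := (t1.eventually_ge_atTop 2).and ((t3.eventually_le_const
      (show (0 : ℝ) < ε / 8 by positivity)).and (t4.eventually_ge_atTop C₀))
    obtain ⟨M, hM⟩ := Filter.eventually_atTop.1 t5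
    exact ⟨M, fun l hl => hM l hl⟩
  obtain ⟨X₂, hX₂⟩ : ∃ X₂ : ℕ, ∀ x : ℕ, X₂ ≤ x → M ≤ Real.log x :=
    Filter.eventually_atTop.1
      ((Real.tendsto_log_atTop.comp tendsto_natCast_atTop_atTop).eventually_ge_atTop M)
  refine ⟨max (max X₁ X₂) 2, fun c hc hx d u t hd hd1 hu ht ht1 E hE hpE => ?_⟩
  have hx1 : X₁ ≤ c.x := le_trans (le_trans (le_max_left _ _) (le_max_left _ _)) hx
  have hx2 : X₂ ≤ c.x := le_trans (le_trans (le_max_right _ _) (le_max_left _ _)) hx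
  have hx3 : 2 ≤ c.x := le_trans (le_max_right _ _) hx
  have hxr : (2 : ℝ) ≤ c.x := by exact_mod_cast hx3
  set l := Real.log c.x with hl
  have hl0 : 0 < l := Real.log_pos (by linarith)
  obtain ⟨hM1, hM2, hM3⟩ := hM l (hX₂ c.x hx2)
  set T := (Icc 1 c.x).filter (fun p => p.Prime ∧ (p ∣ W ∨ bd c.a c.b p)) with hT
  have hκ : c.κ W = rt T := rfl
  set y := σ * l with hy
  set Tl := T.filter (fun p : ℕ => y < (p : ℝ)) with hTl
  set Ts := T.filter (fun p : ℕ => ¬ y < (p : ℝ)) with hTs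
  have hrt : rt T = rt Tl * rt Ts := by
    unfold rt
    rw [hTl, hTs, Finset.prod_filter_mul_prod_filter_not]
  have hTp : ∀ p ∈ T, p.Prime := fun p hp => (Finset.mem_filter.1 hp).2.1
  have hTlp : ∀ p ∈ Tl, p.Prime := fun p hp => hTp p (Finset.mem_filter.1 hp).1
  have hTsp : ∀ p ∈ Ts, p.Prime := fun p hp => hTp p (Finset.mem_filter.1 hp).1
  have hrtl : 1 - ε / 8 ≤ rt Tl := by
    have h1 := hbad c hc hx1 y hM1
    have h2 := rt_ge Tl
    have h3 : (C' : ℝ) * Real.log c.x / (y * Real.log y) = C' / (σ * Real.log (σ * l)) := by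
      rw [← hl, hy]
      field_simp
    rw [h3] at h1
    linarith
  have hEp : ∀ p ∈ E, p.Prime ∧ ¬ p ∣ W ∧ ¬ bd c.a c.b p := fun p hp => by
    have h1 := hE hp
    unfold Q Cfg.PZ at h1
    exact (Finset.mem_filter.1 h1).2
  have hET : Disjoint Ts E := by
    rw [Finset.disjoint_left]
    intro p hp hp'
    have h1 := (Finset.mem_filter.1 (Finset.mem_filter.1 hp).1).2.2
    rcases h1 with h1 | h1
    · exact (hEp p hp').2.1 h1
    · exact (hEp p hp').2.2 h1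
  set V := Ts ∪ E with hV
  have hVp : ∀ p ∈ V, p.Prime := fun p hp => by
    rcases Finset.mem_union.1 hp with h | h
    · exact hTsp p h
    · exact (hEp p h).1
  set Pt := Q c W u \ E with hPt
  have hPtp : ∀ p ∈ Pt, p.Prime ∧ ¬ p ∣ W ∧ ¬ bd c.a c.b p := fun p hp => by
    have h1 := (Finset.mem_sdiff.1 hp).1
    unfold Q Cfg.PZ at h1
    exact (Finset.mem_filter.1 h1).2
  have hdis : Disjoint Pt V := by
    rw [Finset.disjoint_left]
    intro p hp hp'
    rcases Finset.mem_union.1 hp' with h | h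
    · have h1 := (Finset.mem_filter.1 (Finset.mem_filter.1 h).1).2.2
      rcases h1 with h1 | h1
      · exact (hPtp p hp).2.1 h1
      · exact (hPtp p hp).2.2 h1
    · exact (Finset.mem_sdiff.1 hp).2 h
  have hrtV : rt V = rt Ts * rt E := by
    unfold rt
    rw [hV, Finset.prod_union hET]
  have hpdV : pd V = pd Ts * pd E := by
    unfold pd
    rw [hV, Finset.prod_union hET]
  have hpdTs : ((pd Ts : ℕ) : ℝ) ≤ Real.exp (ε / 4 * l) := by
    have h1 : pd Ts ≤ primorial ⌊y⌋₊ := by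
      unfold pd primorial
      refine Finset.prod_le_prod_of_subset_of_one_le' ?_ fun p hp _ =>
        (Finset.mem_filter.1 hp).2.one_lt.le
      intro p hp
      have h2 := (Finset.mem_filter.1 hp).2
      rw [Finset.mem_filter, Finset.mem_range]
      exact ⟨Nat.lt_succ_of_le (Nat.le_floor (not_lt.1 h2)), hTsp p hp⟩
    have h2 : pd Ts ≤ 4 ^ ⌊y⌋₊ := h1.trans (primorial_le_four_pow _)
    have h3 : ((pd Ts : ℕ) : ℝ) ≤ (4 : ℝ) ^ ⌊y⌋₊ := by exact_mod_cast h2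
    refine h3.trans ?_
    rw [← Real.rpow_natCast, Real.rpow_def_of_pos (by norm_num)]
    apply Real.exp_le_exp.2
    have hy0 : 0 ≤ y := by positivity
    have h4 := Nat.floor_le hy0
    have h5 : ε / 4 * l = Real.log 4 * y := by
      rw [hy, hσ]
      field_simp
    rw [h5]
    exact mul_le_mul_of_nonneg_left h4 hlog4.le
  have hpdTs0 : 1 ≤ pd Ts := Nat.one_le_iff_ne_zero.2
    (Finset.prod_ne_zero_iff.2 fun p hp => (hTsp p hp).ne_zero)
  have hpdE0 : 1 ≤ pd E := Nat.one_le_iff_ne_zero.2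
    (Finset.prod_ne_zero_iff.2 fun p hp => (hEp p hp).1.ne_zero)
  have hpdV1 : (1 : ℝ) ≤ pd V := by
    have : 1 ≤ pd V := by
      rw [hpdV]
      exact Nat.mul_le_mul hpdTs0 hpdE0
    exact_mod_cast this
  have hxt : (1 : ℝ) ≤ (c.x : ℝ) ^ t := Real.one_le_rpow (by linarith) ht
  have hz1 : 1 ≤ (c.x : ℝ) ^ t * pd V := by nlinarith
  have h1 := n2_mul Pt V hdis (fun p hp => (hPtp p hp).1) hVp ((c.x : ℝ) ^ t)
  have h2 := hphi (Pt ∪ V) (fun p hp => by
    rcases Finset.mem_union.1 hp with h | h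
    · exact (hPtp p h).1
    · exact hVp p h) _ hz1
  have h3 : Real.log ((c.x : ℝ) ^ t * pd V) ≤ (t + d + ε / 4) * l := by
    rw [Real.log_mul (by positivity) (by positivity), Real.log_rpow (by linarith), hpdV]
    push_cast
    rw [Real.log_mul (by positivity) (by positivity)]
    have h4 : Real.log (pd Ts) ≤ ε / 4 * l := by
      rw [Real.log_le_iff_le_exp (by positivity)]
      exact hpdTs
    have h5 : Real.log (pd E) ≤ d * l := by
      rw [hl, ← Real.log_rpow (by linarith)]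
      exact Real.log_le_log (by positivity) hpE
    nlinarith
  obtain ⟨hV0, hV1⟩ := n2_rt_01 V hVp
  obtain ⟨hE0, hE1⟩ := n2_rt_01 E (fun p hp => (hEp p hp).1)
  obtain ⟨hTs0, hTs1⟩ := n2_rt_01 Ts hTsp
  have h4 : Nz Pt ((c.x : ℝ) ^ t) ≤ rt V * ((t + d + ε) * l) := by
    have h5 : Nz Pt ((c.x : ℝ) ^ t) = rt V * (Nz Pt ((c.x : ℝ) ^ t) * ∏ p ∈ V, (1 + gg p)) := by
      rw [mul_left_comm, n2_prod V hVp, mul_one]
    rw [h5]
    refine mul_le_mul_of_nonneg_left ?_ hV0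
    have : (t + d + ε) * l = (t + d + ε / 4) * l + 3 * ε / 4 * l := by ring
    have h6 : 0 ≤ ε / 4 * l := by positivity
    nlinarith
  have h5 : rt Ts ≤ (1 + ε) * rt T := by
    rw [hrt]
    have h6 : 1 ≤ (1 + ε) * rt Tl := by nlinarith
    nlinarith
  have h6 : 0 ≤ (t + d + ε) * l := by positivity
  refine h4.trans (mul_le_mul_of_nonneg_right ?_ h6)
  rw [hrtV, hκ]
  nlinarith

end Pool.Agent.Work.MP_70e905_nt.M3
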