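import Pool.Agent.Work.MP_70e905_nt.M3.Defs
import Pool.Agent.Work.MP_70e905_nt.M3.N2
import Pool.Agent.Work.MP_70e905_nt.M3.N3

set_option autoImplicit false

/-!
MODULE MD (values of the Selberg weight on rough numbers), size M.

Lam_one: if no `p ∈ P'` divides `m` the numerator is `∑_{pd S ≤ R} HH S = Nz P' R > 0` (`R ≥ 1`).
Lam_T: `T = {p ∈ P' : p ∣ m}`; the numerator is `∑_{S₁ ⊆ T} ∏_{p ∈ S₁} (gg p - 1) * Nz (P' \ T) (R / pd S₁)`; two primes of `T` have a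
product `> x^(1/4) ≥ R`, so only `#S₁ ≤ 1`: it is `N₀ - ∑_{p ∈ T} (1 - gg p) N_p` with `N₀ = Nz (P' \ T) R`, `N_p = Nz (P' \ T) (R / p)`,
and `Nz P' R = N₀ + ∑_{p ∈ T} gg p N_p` (same splitting). So `Lam = 1 - ∑_{p ∈ T} N_p / Nz P' R`.
Asymptotics (`ε` small, `u = 1/4 - 2δ`, `α_p = log p / lx ≤ u`, `R / p = x^(u - α_p)`):
`κ rt(T) (u - α_p) lx ≤ N_p ≤ (1 + ε) κ (u - α_p + ε) lx`, `κ u lx ≤ Nz P' R ≤ (1 + ε) κ (u + ε) lx` (`Nz_lowt`, `Nz_sharp` with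
`E = T` resp. `E = ∅`; for the upper bound of `N_p` use `N_p ≤ Nz P' (x^(u - α_p))`), `rt T ≥ 1 - 8 x^(-1/8)`. So
`|N_p / Nz - (1 - α_p / u)| ≤ 20 ε` and `|(1 - α_p/u) - (1 - 4 α_p)| = α_p |4 - 1/u| ≤ 9 δ` (`1/u - 4 = 8δ/u ≤ 33 δ`, `α_p ≤ 1/4`).
With `δ ≤ e ≤ 10^-9` and `ε = 10^-10`: the total over at most 8 primes is `≤ 10^-7 ≤ 10^-6`.
-/

namespace Pool.Agent.Work.MP_70e905_nt.M3

open Finset Pool.Agent.Work.MP_73869e_nt.TH Pool.Agent.Work.MP_70e905_nt.MT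

private theorem md_gg {p : ℕ} (hp : p.Prime) : 0 ≤ gg p := by
  unfold gg
  have : (2 : ℝ) ≤ p := by exact_mod_cast hp.two_le
  apply div_nonneg zero_le_one
  linarith

private theorem md_HH {S : Finset ℕ} (h : ∀ p ∈ S, p.Prime) : 0 ≤ HH S :=
  Finset.prod_nonneg fun p hp => md_gg (h p hp)

private theorem md_Nz (P' : Finset ℕ) (hP' : ∀ p ∈ P', p.Prime) (R : ℝ) (hR : 1 ≤ R) :
    1 ≤ Nz P' R := by
  have h0 : (∅ : Finset ℕ) ∈ P'.powerset.filter (fun S => ((pd S : ℕ) : ℝ) ≤ R) := by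
    rw [mem_filter]
    refine ⟨empty_mem_powerset _, ?_⟩
    unfold pd
    rw [prod_empty, Nat.cast_one]
    exact hR
  have h1 : HH (∅ : Finset ℕ) = 1 := by
    unfold HH
    exact prod_empty
  unfold Nz
  calc (1 : ℝ) = HH ∅ := h1.symm
    _ ≤ _ := Finset.single_le_sum (f := HH) (fun S hS => md_HH fun p hp =>
        hP' p (mem_powerset.1 (mem_filter.1 hS).1 hp)) h0

theorem Lam_one (P' : Finset ℕ) (hP' : ∀ p ∈ P', p.Prime) (R : ℝ) (hR : 1 ≤ R) (m : ℕ)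
    (h : ∀ p ∈ P', ¬ p ∣ m) : Lam P' R m = 1 := by
  have h1 := md_Nz P' hP' R hR
  unfold Lam
  have h2 : ∑ S ∈ P'.powerset.filter (fun S => ((pd S : ℕ) : ℝ) ≤ R),
      ∏ p ∈ S, (gg p - if p ∣ m then 1 else 0) = Nz P' R := by
    unfold Nz
    refine Finset.sum_congr rfl fun S hS => ?_
    unfold HH
    refine Finset.prod_congr rfl fun p hp => ?_
    rw [if_neg (h p (mem_powerset.1 (mem_filter.1 hS).1 hp)), sub_zero]
  rw [h2, div_self (by linarith)]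

private theorem md_split (P' : Finset ℕ) (hP' : ∀ p ∈ P', p.Prime) (R : ℝ) (m : ℕ)
    (h2 : ∀ p ∈ P', ∀ q ∈ P', p ∣ m → q ∣ m → p ≠ q → R < (p : ℝ) * q) :
    ∑ S ∈ P'.powerset.filter (fun S => ((pd S : ℕ) : ℝ) ≤ R),
        ∏ p ∈ S, (gg p - if p ∣ m then 1 else 0) =
      Nz P' R - ∑ p ∈ P'.filter (fun p => p ∣ m),
        Nz (P' \ P'.filter (fun p => p ∣ m)) (R / p) := by
  classical
  set T := P'.filter (fun p => p ∣ m) with hT
  set F := P'.powerset.filter (fun S => ((pd S : ℕ) : ℝ) ≤ R) with hF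
  have e1 : Nz P' R - ∑ S ∈ F, ∏ p ∈ S, (gg p - if p ∣ m then 1 else 0) =
      ∑ S ∈ F, (HH S - ∏ p ∈ S, (gg p - if p ∣ m then 1 else 0)) := by
    rw [Finset.sum_sub_distrib]
    rfl
  have e2 : ∑ S ∈ F, (HH S - ∏ p ∈ S, (gg p - if p ∣ m then 1 else 0)) =
      ∑ S ∈ F.filter (fun S => ∃ p ∈ S, p ∣ m),
        (HH S - ∏ p ∈ S, (gg p - if p ∣ m then 1 else 0)) := by
    rw [Finset.sum_filter (fun S => ∃ p ∈ S, p ∣ m)]
    refine Finset.sum_congr rfl fun S _ => ?_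
    split_ifs with h
    · rfl
    · push Not at h
      have : ∏ p ∈ S, (gg p - if p ∣ m then 1 else 0) = HH S := by
        unfold HH
        refine Finset.prod_congr rfl fun p hp => ?_
        rw [if_neg (h p hp), sub_zero]
      rw [this, sub_self]
  have e3 : ∑ p ∈ T, Nz (P' \ T) (R / p) =
      ∑ S ∈ F.filter (fun S => ∃ p ∈ S, p ∣ m),
        (HH S - ∏ p ∈ S, (gg p - if p ∣ m then 1 else 0)) := by
    unfold Nz
    rw [Finset.sum_sigma']
    refine Finset.sum_nbij (fun x => insert x.1 x.2) ?_ ?_ ?_ ?_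
    · rintro ⟨p, S⟩ hx
      obtain ⟨hp, hx2⟩ := mem_sigma.1 hx
      obtain ⟨hS, hpd⟩ := mem_filter.1 hx2
      rw [mem_powerset] at hS
      simp only at hp hS hpd ⊢
      have hp' := mem_filter.1 hp
      have hpS : p ∉ S := fun h => (mem_sdiff.1 (hS h)).2 hp
      have hp0 : (0 : ℝ) < p := by exact_mod_cast (hP' p hp'.1).pos
      refine mem_filter.2 ⟨mem_filter.2 ⟨mem_powerset.2 ?_, ?_⟩, p, mem_insert_self p S, hp'.2⟩
      · intro q hq
        rcases mem_insert.1 hq with rfl | hq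
        · exact hp'.1
        · exact (mem_sdiff.1 (hS hq)).1
      · unfold pd at hpd ⊢
        rw [Finset.prod_insert hpS]
        push_cast at hpd ⊢
        rw [le_div_iff₀ hp0] at hpd
        linarith
    · rintro ⟨p, S⟩ hx ⟨q, S'⟩ hy hxy
      obtain ⟨hp, hx2⟩ := mem_sigma.1 (mem_coe.1 hx)
      obtain ⟨hq, hy2⟩ := mem_sigma.1 (mem_coe.1 hy)
      have hS := mem_powerset.1 (mem_filter.1 hx2).1
      have hS' := mem_powerset.1 (mem_filter.1 hy2).1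
      simp only at hp hS hq hS' hxy
      have hpS : p ∉ S := fun h => (mem_sdiff.1 (hS h)).2 hp
      have hqS : q ∉ S' := fun h => (mem_sdiff.1 (hS' h)).2 hq
      have hpq : p = q := by
        have h3 : p ∈ insert q S' := by
          rw [← hxy]
          exact mem_insert_self p S
        rcases mem_insert.1 h3 with h4 | h4
        · exact h4
        · exact absurd hp (mem_sdiff.1 (hS' h4)).2
      subst hpq
      have : S = S' := by
        rw [← erase_insert hpS, hxy, erase_insert hqS]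
      rw [this]
    · intro S hS
      obtain ⟨hS1, p, hp, hpm⟩ := mem_filter.1 (mem_coe.1 hS)
      obtain ⟨hS2, hpd⟩ := mem_filter.1 hS1
      have hSP := mem_powerset.1 hS2
      have hSp : ∀ q ∈ S, q.Prime := fun q hq => hP' q (hSP hq)
      have hp0 : (0 : ℝ) < p := by exact_mod_cast (hSp p hp).pos
      refine ⟨⟨p, S.erase p⟩, ?_, insert_erase hp⟩
      rw [mem_coe]
      refine mem_sigma.2 ⟨mem_filter.2 ⟨hSP hp, hpm⟩, mem_filter.2 ⟨mem_powerset.2 ?_, ?_⟩⟩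
      · intro q hq
        have hq' := mem_erase.1 hq
        rw [mem_sdiff]
        refine ⟨hSP hq'.2, fun hqT => ?_⟩
        have h3 := h2 p (hSP hp) q (hSP hq'.2) hpm (mem_filter.1 hqT).2 hq'.1.symm
        have h4 : p * q ≤ pd S := by
          have h5 : ({p, q} : Finset ℕ) ⊆ S := by
            intro y hy
            rw [mem_insert, mem_singleton] at hy
            rcases hy with rfl | rfl
            · exact hp
            · exact hq'.2
          have h6 : ∏ y ∈ ({p, q} : Finset ℕ), y = p * q := by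
            rw [Finset.prod_insert (by rw [mem_singleton]; exact hq'.1.symm), prod_singleton]
          unfold pd
          rw [← h6]
          exact Finset.prod_le_prod_of_subset_of_one_le' h5 fun y hy _ => (hSp y hy).one_lt.le
        have h7 : (p : ℝ) * q ≤ pd S := by exact_mod_cast h4
        linarith
      · simp only
        rw [le_div_iff₀ hp0]
        have h3 : pd S = p * pd (S.erase p) := by
          unfold pd
          rw [Finset.mul_prod_erase S (fun y => y) hp]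
        rw [h3] at hpd
        push_cast at hpd
        linarith
    · rintro ⟨p, S⟩ hx
      obtain ⟨hp, hx2⟩ := mem_sigma.1 hx
      have hS := mem_powerset.1 (mem_filter.1 hx2).1
      simp only at hp hS ⊢
      have hp' := mem_filter.1 hp
      have hpS : p ∉ S := fun h => (mem_sdiff.1 (hS h)).2 hp
      have h3 : ∏ q ∈ S, (gg q - if q ∣ m then 1 else 0) = HH S := by
        unfold HH
        refine Finset.prod_congr rfl fun q hq => ?_
        have hq' := mem_sdiff.1 (hS hq)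
        rw [if_neg (fun h => hq'.2 (mem_filter.2 ⟨hq'.1, h⟩)), sub_zero]
      have h4 : HH (insert p S) = gg p * HH S := by
        unfold HH
        rw [Finset.prod_insert hpS]
      rw [Finset.prod_insert hpS, h3, h4, if_pos hp'.2]
      ring
  linarith

private theorem md_num {u v α δ ε η κ l N M : ℝ} (hu : u = 1 / 4 - 2 * δ) (hδ0 : 0 < δ)
    (hδ : δ ≤ 1 / 10 ^ 9) (hε : ε = 1 / 10 ^ 9) (hη : η ≤ 1 / 10 ^ 8)
    (hα : 0 ≤ α) (hv : v = u - α) (hv0 : 0 ≤ v) (hκl : 0 < κ * l)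
    (hM1 : κ * l * ((1 - η) * v) ≤ M) (hM2 : M ≤ κ * l * ((1 + ε) * (v + ε)))
    (hN1 : κ * l * u ≤ N) (hN2 : N ≤ κ * l * ((1 + ε) * (u + ε))) :
    |M / N - (1 - 4 * α)| ≤ 1 / 10 ^ 6 / 8 := by
  have hu1 : 1 / 5 ≤ u := by rw [hu]; linarith
  have hu2 : u ≤ 1 / 4 := by rw [hu]; linarith
  have hN0 : 0 < N := lt_of_lt_of_le (by positivity) hN1
  have hε0 : 0 < ε := by rw [hε]; positivity
  rw [abs_le]
  constructor
  · rw [le_sub_iff_add_le, le_div_iff₀ hN0]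
    refine le_trans ?_ hM1
    have h1 : -(1 / 10 ^ 6 / 8) + (1 - 4 * α) ≤ (1 - η) * v / ((1 + ε) * (u + ε)) := by
      rw [le_div_iff₀ (by positivity)]
      have e1 : v = u - α := hv
      have e2 : 1 - 4 * α = 4 * v + 8 * δ := by rw [e1, hu]; ring
      have hv4 : v ≤ 1 / 4 := by rw [e1]; linarith
      rw [e2, hu, hε]
      have hηv : η * v ≤ 1 / 10 ^ 8 * (1 / 4) := mul_le_mul hη hv4 hv0 (by norm_num)
      have hδv : 0 ≤ δ * v := by positivity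
      nlinarith
    have h2 : 0 ≤ κ * l * ((1 + ε) * (u + ε)) := by positivity
    by_cases h3 : 0 ≤ -(1 / 10 ^ 6 / 8) + (1 - 4 * α)
    · calc (-(1 / 10 ^ 6 / 8) + (1 - 4 * α)) * N ≤
          (-(1 / 10 ^ 6 / 8) + (1 - 4 * α)) * (κ * l * ((1 + ε) * (u + ε))) :=
            mul_le_mul_of_nonneg_left hN2 h3
        _ ≤ ((1 - η) * v / ((1 + ε) * (u + ε))) * (κ * l * ((1 + ε) * (u + ε))) :=
            mul_le_mul_of_nonneg_right h1 h2
        _ = κ * l * ((1 - η) * v) := by field_simp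
    · have h4 : (-(1 / 10 ^ 6 / 8) + (1 - 4 * α)) * N ≤ 0 :=
        mul_nonpos_of_nonpos_of_nonneg (not_le.1 h3).le hN0.le
      have h5 : 0 ≤ κ * l * ((1 - η) * v) :=
        mul_nonneg hκl.le (mul_nonneg (by linarith) hv0)
      linarith
  · rw [sub_le_iff_le_add, div_le_iff₀ hN0]
    refine hM2.trans ?_
    have h3 : (1 + ε) * (v + ε) ≤ (1 / 10 ^ 6 / 8 + (1 - 4 * α)) * u := by
      have e1 : v = u - α := hv
      have e2 : 1 - 4 * α = 4 * v + 8 * δ := by rw [e1, hu]; ring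
      have hv4 : v ≤ 1 / 4 := by rw [e1]; linarith
      rw [e2, hε]
      have hδv : δ * v ≤ 1 / 10 ^ 9 * (1 / 4) := mul_le_mul hδ hv4 hv0 (by norm_num)
      rw [hu]
      nlinarith
    have h4 : 0 ≤ 1 / 10 ^ 6 / 8 + (1 - 4 * α) := by
      rw [hv] at hv0
      linarith
    calc κ * l * ((1 + ε) * (v + ε)) ≤ κ * l * ((1 / 10 ^ 6 / 8 + (1 - 4 * α)) * u) :=
          mul_le_mul_of_nonneg_left h3 hκl.le
      _ = (1 / 10 ^ 6 / 8 + (1 - 4 * α)) * (κ * l * u) := by ring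
      _ ≤ _ := mul_le_mul_of_nonneg_left hN1 h4

theorem Lam_T (K L D₀ : ℕ) (s δ t₀ e : ℝ) (hpar : Par K L D₀ s δ t₀ e) (he9 : e ≤ 1 / 10 ^ 9)
    (W A₀ C : ℕ) : ∃ X₀ : ℕ, ∀ c : Cfg K, c.Ok D₀ W A₀ C → X₀ ≤ c.x → ∀ m : ℕ,
      (∀ p ∈ Q c W (1 / 8), ¬ p ∣ m) →
      #((Q c W (1 / 4 - 2 * δ)).filter (fun p => p ∣ m)) ≤ 8 →
      |Lam (Q c W (1 / 4 - 2 * δ)) ((c.x : ℝ) ^ (1 / 4 - 2 * δ)) m -
        (1 - ∑ p ∈ (Q c W (1 / 4 - 2 * δ)).filter (fun p => p ∣ m),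
          (1 - 4 * (Real.log p / Real.log c.x)))| ≤ 1 / 10 ^ 6 := by
  obtain ⟨X₁, hX₁⟩ := Nz_sharp (1 / 10 ^ 9) (by norm_num) (by norm_num) K D₀ W A₀ C
  refine ⟨max X₁ (10 ^ 80), fun c hc hx m hm h8 => ?_⟩
  have hx1 : X₁ ≤ c.x := (le_max_left _ _).trans hx
  have hx2 : 10 ^ 80 ≤ c.x := (le_max_right _ _).trans hx
  have hx11 : 1 ≤ c.x := le_trans (Nat.one_le_pow _ _ (by norm_num)) hx2
  have hxr : (10 : ℝ) ^ 80 ≤ c.x := by exact_mod_cast hx2
  have hxr1 : (1 : ℝ) < c.x := lt_of_lt_of_le (by norm_num) hxr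
  have hxr0 : (0 : ℝ) < c.x := by linarith
  have hl0 : 0 < Real.log c.x := Real.log_pos hxr1
  have hx8 : (10 : ℝ) ^ 10 ≤ (c.x : ℝ) ^ (1 / 8 : ℝ) := by
    have h1 : ((10 : ℝ) ^ 80) ^ (1 / 8 : ℝ) ≤ (c.x : ℝ) ^ (1 / 8 : ℝ) :=
      Real.rpow_le_rpow (by positivity) hxr (by norm_num)
    refine le_trans (le_of_eq ?_) h1
    rw [← Real.rpow_natCast, ← Real.rpow_natCast, ← Real.rpow_mul (by norm_num)]
    norm_num
  have hδ0 := hpar.hδ
  have hδ9 : δ ≤ 1 / 10 ^ 9 := hpar.hδe.trans he9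
  obtain ⟨u, hu⟩ : ∃ u : ℝ, u = 1 / 4 - 2 * δ := ⟨_, rfl⟩
  rw [← hu] at h8 ⊢
  have hu0 : 1 / 5 ≤ u := by rw [hu]; linarith
  have hu1 : u ≤ 1 / 4 := by rw [hu]; linarith
  have hP' : ∀ p ∈ Q c W u, p.Prime := fun p hp => (Q_props c D₀ W A₀ C u hc hx11 p hp).1
  have hR1 : 1 ≤ (c.x : ℝ) ^ u := Real.one_le_rpow hxr1.le (by linarith)
  have hTbig : ∀ p ∈ Q c W u, p ∣ m → (c.x : ℝ) ^ (1 / 8 : ℝ) < p := by
    intro p hp hpm
    by_contra hcon
    apply hm p _ hpm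
    rw [Q_mem c D₀ W A₀ C (1 / 8) hc hx11]
    exact ⟨not_lt.1 hcon, ((Q_mem c D₀ W A₀ C u hc hx11 p).1 hp).2⟩
  have h2 : ∀ p ∈ Q c W u, ∀ q ∈ Q c W u, p ∣ m → q ∣ m → p ≠ q →
      (c.x : ℝ) ^ u < (p : ℝ) * q := by
    intro p hp q hq hpm hqm _
    have e1 := hTbig p hp hpm
    have e2 := hTbig q hq hqm
    calc (c.x : ℝ) ^ u ≤ (c.x : ℝ) ^ (1 / 8 + 1 / 8 : ℝ) :=
          Real.rpow_le_rpow_of_exponent_le hxr1.le (by linarith)
      _ = (c.x : ℝ) ^ (1 / 8 : ℝ) * (c.x : ℝ) ^ (1 / 8 : ℝ) := Real.rpow_add hxr0 _ _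
      _ < (p : ℝ) * q := mul_lt_mul'' e1 e2 (by positivity) (by positivity)
  have hsplit := md_split (Q c W u) hP' ((c.x : ℝ) ^ u) m h2
  have hN := md_Nz (Q c W u) hP' ((c.x : ℝ) ^ u) hR1
  obtain ⟨T, hT⟩ : ∃ T, T = (Q c W u).filter (fun p => p ∣ m) := ⟨_, rfl⟩
  rw [← hT] at hsplit h8 ⊢
  obtain ⟨N, hNdef⟩ : ∃ N, N = Nz (Q c W u) ((c.x : ℝ) ^ u) := ⟨_, rfl⟩
  have hN0 : 0 < N := by rw [hNdef]; linarith
  have hLam : Lam (Q c W u) ((c.x : ℝ) ^ u) m =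
      1 - ∑ p ∈ T, Nz (Q c W u \ T) ((c.x : ℝ) ^ u / p) / N := by
    unfold Lam
    rw [hsplit, ← hNdef, sub_div, div_self hN0.ne', Finset.sum_div]
  rw [hLam]
  have hdiff : (1 - ∑ p ∈ T, Nz (Q c W u \ T) ((c.x : ℝ) ^ u / p) / N) -
      (1 - ∑ p ∈ T, (1 - 4 * (Real.log p / Real.log c.x))) =
      -∑ p ∈ T, (Nz (Q c W u \ T) ((c.x : ℝ) ^ u / p) / N -
        (1 - 4 * (Real.log p / Real.log c.x))) := by
    have hsd := Finset.sum_sub_distrib (s := T)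
      (fun p => Nz (Q c W u \ T) ((c.x : ℝ) ^ u / p) / N)
      (fun p => 1 - 4 * (Real.log (p : ℝ) / Real.log c.x))
    rw [hsd]
    ring
  rw [hdiff, abs_neg]
  refine (Finset.abs_sum_le_sum_abs _ _).trans ?_
  have hκ : 0 < c.κ W := by
    unfold Cfg.κ rt
    refine Finset.prod_pos fun p hp => ?_
    have h1 : (1 : ℝ) < p := by exact_mod_cast (Finset.mem_filter.1 hp).2.1.one_lt
    have h2 : 1 / (p : ℝ) < 1 := by
      rw [div_lt_one (by linarith)]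
      exact h1
    linarith
  have hTp : ∀ p ∈ T, p.Prime ∧ (c.x : ℝ) ^ (1 / 8 : ℝ) < p := by
    intro p hp
    rw [hT, mem_filter] at hp
    exact ⟨hP' p hp.1, hTbig p hp.1 hp.2⟩
  -- the factor `rt T`
  have hrt : 1 - 8 / (c.x : ℝ) ^ (1 / 8 : ℝ) ≤ rt T := by
    refine le_trans ?_ (rt_ge T)
    have h1 : ∑ p ∈ T, 1 / (p : ℝ) ≤ ∑ _p ∈ T, 1 / (c.x : ℝ) ^ (1 / 8 : ℝ) :=
      Finset.sum_le_sum fun p hp => one_div_le_one_div_of_le (by positivity) (hTp p hp).2.le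
    rw [Finset.sum_const, nsmul_eq_mul] at h1
    have h3 : (#T : ℝ) * (1 / (c.x : ℝ) ^ (1 / 8 : ℝ)) ≤ 8 * (1 / (c.x : ℝ) ^ (1 / 8 : ℝ)) := by
      refine mul_le_mul_of_nonneg_right ?_ (by positivity)
      exact_mod_cast h8
    have h4 : 8 / (c.x : ℝ) ^ (1 / 8 : ℝ) = 8 * (1 / (c.x : ℝ) ^ (1 / 8 : ℝ)) := by ring
    rw [h4]
    linarith
  have hη : 8 / (c.x : ℝ) ^ (1 / 8 : ℝ) ≤ 1 / 10 ^ 8 := by
    rw [div_le_iff₀ (by positivity)]
    linarith
  have hup : ∀ v : ℝ, 0 ≤ v → v ≤ 1 → Nz (Q c W u) ((c.x : ℝ) ^ v) ≤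
      c.κ W * Real.log c.x * ((1 + 1 / 10 ^ 9) * (v + 1 / 10 ^ 9)) := by
    intro v hv0 hv1
    have h1 := hX₁ c hc hx1 0 u v le_rfl zero_le_one (by linarith) hv0 hv1 ∅
      (empty_subset _) (by unfold pd; simp)
    rw [sdiff_empty] at h1
    refine h1.trans (le_of_eq ?_)
    have h3 : rt ∅ = 1 := by unfold rt; exact prod_empty
    rw [h3]
    ring
  have hbound : ∀ p ∈ T, |Nz (Q c W u \ T) ((c.x : ℝ) ^ u / p) / N -
      (1 - 4 * (Real.log p / Real.log c.x))| ≤ 1 / 10 ^ 6 / 8 := by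
    intro p hp
    have hpT := hp
    rw [hT, mem_filter] at hpT
    have hpp := hP' p hpT.1
    have hp1 : (1 : ℝ) ≤ p := by exact_mod_cast hpp.one_lt.le
    have hp0 : (0 : ℝ) < p := by linarith
    have hpu := ((Q_mem c D₀ W A₀ C u hc hx11 p).1 hpT.1).1
    obtain ⟨α, hα⟩ : ∃ α : ℝ, α = Real.log p / Real.log c.x := ⟨_, rfl⟩
    have hα0 : 0 ≤ α := by
      rw [hα]
      exact div_nonneg (Real.log_nonneg hp1) hl0.le
    have hαu : α ≤ u := by
      rw [hα, div_le_iff₀ hl0, ← Real.log_rpow hxr0]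
      exact Real.log_le_log hp0 hpu
    have hxα : (c.x : ℝ) ^ α = p := by
      rw [Real.rpow_def_of_pos hxr0, hα, mul_div_cancel₀ _ hl0.ne', Real.exp_log hp0]
    have hRp : (c.x : ℝ) ^ u / p = (c.x : ℝ) ^ (u - α) := by
      rw [Real.rpow_sub hxr0, hxα]
    rw [hRp, ← hα]
    refine md_num (u := u) (v := u - α) (ε := 1 / 10 ^ 9) (η := 8 / (c.x : ℝ) ^ (1 / 8 : ℝ))
      (κ := c.κ W) (l := Real.log c.x) hu hδ0 hδ9 rfl hη hα0 rfl (by linarith)
      (by positivity) ?_ ?_ ?_ ?_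
    · have h1 := Nz_lowt c W (u - α) u hx11 (by linarith) (by linarith) (by linarith) T
        (fun q hq => (hTp q hq).1)
      refine le_trans ?_ h1
      have h3 : c.κ W * rt T * ((u - α) * Real.log c.x) =
        c.κ W * Real.log c.x * (rt T * (u - α)) := by ring
      rw [h3]
      refine mul_le_mul_of_nonneg_left ?_ (by positivity)
      exact mul_le_mul_of_nonneg_right hrt (by linarith)
    · exact (Nz_mono _ _ sdiff_subset hP' _).trans (hup _ (by linarith) (by linarith))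
    · have h1 := Nz_lowt c W u u hx11 (by linarith) le_rfl (by linarith) ∅
        (fun q hq => absurd hq (notMem_empty q))
      rw [sdiff_empty, ← hNdef] at h1
      refine le_trans (le_of_eq ?_) h1
      have h3 : rt ∅ = 1 := by unfold rt; exact prod_empty
      rw [h3]
      ring
    · rw [hNdef]
      exact hup u (by linarith) (by linarith)
  calc ∑ p ∈ T, |Nz (Q c W u \ T) ((c.x : ℝ) ^ u / p) / N -
      (1 - 4 * (Real.log p / Real.log c.x))| ≤ ∑ _p ∈ T, (1 / 10 ^ 6 / 8 : ℝ) :=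
        Finset.sum_le_sum hbound
    _ = #T * (1 / 10 ^ 6 / 8 : ℝ) := by rw [Finset.sum_const, nsmul_eq_mul]
    _ ≤ 8 * (1 / 10 ^ 6 / 8 : ℝ) := by
        refine mul_le_mul_of_nonneg_right ?_ (by norm_num)
        exact_mod_cast h8
    _ = 1 / 10 ^ 6 := by norm_num

end Pool.Agent.Work.MP_70e905_nt.M3
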