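import Pool.Agent.Work.MP_70e905_nt.M3.Defs
import Pool.Agent.Work.MP_70e905_nt.M3.H1
import Pool.Agent.Work.MP_70e905_nt.MT.E1

/-!
MODULE H2 (coupled coefficients), size M. Copy of MT/E1 with a general function `h` instead of the indicator of
`pd ≤ R` (`Yg P P' R j Z` is the case `h n = 1[n ≤ R]`, `Nz _ R = Nh _ h`).

Yh_bd: `0 ≤ h ≤ 1`, `Nh ≥ 1`. Yh_zero: `A.filter (label ≠ j)` contains the label `i`. Yh_supp: `pr A = pr A₁ * pd (lb j A)`.
ff_Yh: `ff_Zj` (TH/T05) for `P'`; `Zj gg P' j (Yh P P' h j Z) A = if A ∈ LS K P then Z A else 0` for `A ∈ LS K P'` (for `A`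
without label `j` and `U ⊆ P' \ A.image fst` the set `A ∪ U.image (·, j)` has `A₁ = A`, `lb j = U`; the sum over `U` of
`HH U h (pd U)` is `Nh (P' \ A.image fst) h`, which cancels); then `xx_om` (MT/A1).
sum_Yh: `A ↦ (A₁, lb j A)` is a bijection from `LS K P'` to the pairs `(A₁, U)`, `A₁ ∈ LS K P'` without label `j`,
`U ⊆ P' \ A₁.image fst`; only `A₁ ∈ LS K P` contribute. (As `sum_Yg` in MT/E1, with a general local factor `k`.)
-/

set_option autoImplicit false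

namespace Pool.Agent.Work.MP_70e905_nt.M3

open Finset Pool.Agent.Work.MP_73869e_nt.TH Pool.Agent.Work.MP_70e905_nt.MT

private theorem h2_gg {p : ℕ} (hp : p.Prime) : 0 ≤ gg p := by
  have h2 : (2 : ℝ) ≤ p := by exact_mod_cast hp.two_le
  unfold gg
  have : (0 : ℝ) < (p : ℝ) - 1 := by linarith
  positivity

private theorem h2_HH {S : Finset ℕ} (hS : ∀ p ∈ S, p.Prime) : 0 ≤ HH S :=
  Finset.prod_nonneg fun p hp => h2_gg (hS p hp)


private theorem h2_sdiff {K : ℕ} {P' : Finset ℕ} (hP' : ∀ p ∈ P', p.Prime)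
    (A : Finset (ℕ × Fin K)) : ∀ p ∈ P' \ A.image Prod.fst, p.Prime := fun p hp =>
  hP' p (mem_sdiff.1 hp).1


private theorem h2_prod {K : ℕ} {M : Type*} [CommMonoid M] (j : Fin K) (A : Finset (ℕ × Fin K))
    (f : ℕ → M) : ∏ c ∈ A, f c.1 =
      (∏ c ∈ A.filter (fun c => c.2 ≠ j), f c.1) * ∏ p ∈ lb j A, f p := by
  rw [← Finset.prod_filter_mul_prod_filter_not A (fun c => c.2 ≠ j) (fun c => f c.1)]
  congr 1
  unfold lb
  have h1 : A.filter (fun c => ¬ c.2 ≠ j) = A.filter (fun c => c.2 = j) := by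
    refine Finset.filter_congr fun c _ => ?_
    rw [not_not]
  rw [h1, Finset.prod_image]
  intro c hc d hd hcd
  exact Prod.ext hcd ((mem_filter.1 hc).2.trans (mem_filter.1 hd).2.symm)


private theorem h2_filter {K : ℕ} (j : Fin K) (A : Finset (ℕ × Fin K)) (hA : ∀ c ∈ A, c.2 ≠ j)
    (U : Finset ℕ) : (A ∪ U.image (fun p => (p, j))).filter (fun a => a.2 ≠ j) = A := by
  ext a
  rw [mem_filter, mem_union, mem_image]
  constructor
  · rintro ⟨h4 | ⟨p, _, rfl⟩, h5⟩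
    · exact h4
    · exact absurd rfl h5
  · intro h4
    exact ⟨Or.inl h4, hA a h4⟩

private theorem h2_lb {K : ℕ} (j : Fin K) (A : Finset (ℕ × Fin K)) (hA : ∀ c ∈ A, c.2 ≠ j)
    (U : Finset ℕ) : lb j (A ∪ U.image (fun p => (p, j))) = U := by
  ext p
  rw [mem_lb, mem_union, mem_image]
  constructor
  · rintro (h | ⟨q, hq, hqp⟩)
    · exact absurd rfl (hA _ h)
    · have h2 : q = p := (Prod.ext_iff.1 hqp).1
      rw [← h2]
      exact hq
  · intro h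
    exact Or.inr ⟨p, h, rfl⟩

private theorem h2_sub {K : ℕ} {P P' : Finset ℕ} (h : P ⊆ P') : LS K P ⊆ LS K P' := by
  intro A hA
  rw [mem_LS] at hA ⊢
  exact ⟨fun a ha => h (hA.1 a ha), hA.2⟩

private theorem h2_restrict {K : ℕ} {P P' : Finset ℕ} (h : P ⊆ P') (F : Finset (ℕ × Fin K) → ℝ)
    [DecidablePred fun A => A ∈ LS K P] :
    ∑ A ∈ LS K P', (if A ∈ LS K P then F A else 0) = ∑ A ∈ LS K P, F A := by
  rw [← Finset.sum_filter]
  congr 1
  ext A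
  rw [mem_filter]
  exact ⟨fun h1 => h1.2, fun h1 => ⟨h2_sub h h1, h1⟩⟩

/-- the decomposition of a labelled set into the parts with label different from `j` and equal to `j` -/
private theorem h2_bij {K : ℕ} (P : Finset ℕ) (j : Fin K)
    (F : Finset (ℕ × Fin K) → Finset ℕ → ℝ) :
    ∑ A ∈ LS K P, F (A.filter (fun a => a.2 ≠ j)) (lb j A) =
      ∑ A ∈ (LS K P).filter (fun A => ∀ a ∈ A, a.2 ≠ j),
        ∑ U ∈ (P \ A.image Prod.fst).powerset, F A U := by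
  rw [Finset.sum_sigma']
  refine Finset.sum_nbij'
    (fun A => (⟨A.filter (fun a => a.2 ≠ j), lb j A⟩ : (_ : Finset (ℕ × Fin K)) × Finset ℕ))
    (fun x => x.1 ∪ x.2.image (fun p => (p, j))) ?_ ?_ ?_ ?_ ?_
  · intro A hA
    rw [mem_LS] at hA
    rw [mem_sigma]
    refine ⟨?_, ?_⟩
    · rw [mem_filter, mem_LS]
      refine ⟨⟨fun a ha => hA.1 a (mem_filter.1 ha).1, ?_⟩, fun a ha => (mem_filter.1 ha).2⟩
      intro a ha b hb hab
      exact hA.2 a (mem_filter.1 ha).1 b (mem_filter.1 hb).1 hab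
    · rw [mem_powerset]
      intro p hp
      rw [mem_lb] at hp
      rw [mem_sdiff]
      refine ⟨hA.1 _ hp, ?_⟩
      intro hc
      obtain ⟨b, hb, hba⟩ := mem_image.1 hc
      rw [mem_filter] at hb
      have := hA.2 b hb.1 _ hp hba
      rw [this] at hb
      exact hb.2 rfl
  · rintro ⟨A, U⟩ hx
    rw [mem_sigma] at hx
    obtain ⟨h2, h3⟩ := hx
    simp only at h2 h3
    rw [mem_filter, mem_LS] at h2
    rw [mem_powerset] at h3
    simp only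
    rw [mem_LS]
    refine ⟨?_, ?_⟩
    · intro a ha
      rcases mem_union.1 ha with h4 | h4
      · exact h2.1.1 a h4
      · obtain ⟨p, hp, rfl⟩ := mem_image.1 h4
        exact (mem_sdiff.1 (h3 hp)).1
    · intro a ha b hb hab
      rcases mem_union.1 ha with h4 | h4 <;> rcases mem_union.1 hb with h5 | h5
      · exact h2.1.2 a h4 b h5 hab
      · obtain ⟨p, hp, rfl⟩ := mem_image.1 h5
        exact absurd (mem_image.2 ⟨a, h4, hab⟩) (mem_sdiff.1 (h3 hp)).2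
      · obtain ⟨p, hp, rfl⟩ := mem_image.1 h4
        exact absurd (mem_image.2 ⟨b, h5, hab.symm⟩) (mem_sdiff.1 (h3 hp)).2
      · obtain ⟨p, hp, rfl⟩ := mem_image.1 h4
        obtain ⟨q, hq, rfl⟩ := mem_image.1 h5
        simp only at hab
        rw [hab]
  · intro A _
    simp only
    ext ⟨p, k⟩
    rw [mem_union, mem_filter, mem_image]
    constructor
    · rintro (h | ⟨q, hq, hqp⟩)
      · exact h.1
      · rw [mem_lb] at hq
        rw [← hqp]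
        exact hq
    · intro h
      by_cases hk : k = j
      · right
        subst hk
        exact ⟨p, (mem_lb _ _ _).2 h, rfl⟩
      · left
        exact ⟨h, hk⟩
  · rintro ⟨A, U⟩ hx
    rw [mem_sigma] at hx
    obtain ⟨h2, h3⟩ := hx
    simp only at h2 h3
    rw [mem_filter, mem_LS] at h2
    simp only
    rw [h2_filter j A h2.2 U, h2_lb j A h2.2 U]
  · intro A _
    rfl


theorem Yh_bd {K : ℕ} (P P' : Finset ℕ) (hP' : ∀ p ∈ P', p.Prime) (h : ℕ → ℝ)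
    (h0 : ∀ n, 0 ≤ h n ∧ h n ≤ 1) (h1 : h 1 = 1) (j : Fin K) (Z : Finset (ℕ × Fin K) → ℝ) (M : ℝ)
    (hM : ∀ A, |Z A| ≤ M) (A : Finset (ℕ × Fin K)) : |Yh P P' h j Z A| ≤ M := by
  have hM0 : 0 ≤ M := (abs_nonneg _).trans (hM ∅)
  unfold Yh
  split_ifs with hc
  · have h2 := Nh_one _ (h2_sdiff hP' (A.filter (fun c => c.2 ≠ j))) h (fun n => (h0 n).1) h1
    rw [abs_div, abs_of_pos (by linarith : 0 < Nh _ h), abs_mul, abs_of_nonneg (h0 _).1]
    refine (div_le_self (mul_nonneg (abs_nonneg _) (h0 _).1) h2).trans ?_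
    calc |Z (A.filter (fun c => c.2 ≠ j))| * h (pd (lb j A)) ≤ M * 1 :=
          mul_le_mul (hM _) (h0 _).2 (h0 _).1 hM0
      _ = M := mul_one M
  · rw [abs_zero]
    exact hM0

theorem Yh_zero {K : ℕ} (P P' : Finset ℕ) (h : ℕ → ℝ) (i j : Fin K) (hij : i ≠ j)
    (Z : Finset (ℕ × Fin K) → ℝ) (hZ : ∀ A, (∃ c ∈ A, c.2 = i) → Z A = 0)
    (A : Finset (ℕ × Fin K)) (hA : ∃ c ∈ A, c.2 = i) : Yh P P' h j Z A = 0 := by
  obtain ⟨c, hc, hci⟩ := hA
  unfold Yh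
  split_ifs with h
  · rw [hZ _ ⟨c, mem_filter.2 ⟨hc, by rw [hci]; exact hij⟩, hci⟩, zero_mul, zero_div]
  · rfl

theorem Yh_supp {K : ℕ} (P P' : Finset ℕ) (h : ℕ → ℝ) (R R₀ : ℝ) (hR : 0 ≤ R) (hR₀ : 0 ≤ R₀) (j : Fin K)
    (Z : Finset (ℕ × Fin K) → ℝ) (hZ : ∀ A, Z A ≠ 0 → (pr A : ℝ) ≤ R₀)
    (hh : ∀ n, h n ≠ 0 → (n : ℝ) ≤ R) (A : Finset (ℕ × Fin K)) (hA : Yh P P' h j Z A ≠ 0) :
    (pr A : ℝ) ≤ R₀ * R := by
  unfold Yh at hA
  split_ifs at hA with hc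
  · have h1 : Z (A.filter (fun c => c.2 ≠ j)) ≠ 0 := by
      intro h0
      rw [h0, zero_mul, zero_div] at hA
      exact hA rfl
    have h1' : h (pd (lb j A)) ≠ 0 := by
      intro h0
      rw [h0, mul_zero, zero_div] at hA
      exact hA rfl
    have h2 := hZ _ h1
    have h3 : pr A = pr (A.filter (fun c => c.2 ≠ j)) * pd (lb j A) :=
      h2_prod j A (fun p => p)
    rw [h3]
    push_cast
    exact mul_le_mul h2 (hh _ h1') (Nat.cast_nonneg _) hR₀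
  · exact absurd rfl hA

/-- the value of `Yh` in terms of the two parts -/
private theorem h2_Yh {K : ℕ} (P P' : Finset ℕ) (h : ℕ → ℝ) (j : Fin K)
    (Z : Finset (ℕ × Fin K) → ℝ)
    (A : Finset (ℕ × Fin K)) (p : Prop) [Decidable p]
    (hp : p ↔ ∀ c ∈ A.filter (fun c => c.2 ≠ j), c.1 ∈ P) :
    Yh P P' h j Z A = if p then
      (Z (A.filter (fun c => c.2 ≠ j)) * h (pd (lb j A)) /
        Nh (P' \ (A.filter (fun c => c.2 ≠ j)).image Prod.fst) h) else 0 := by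
  have h1 : (∀ c ∈ A, c.2 ≠ j → c.1 ∈ P) ↔ ∀ c ∈ A.filter (fun c => c.2 ≠ j), c.1 ∈ P := by
    constructor
    · intro h c hc
      exact h c (mem_filter.1 hc).1 (mem_filter.1 hc).2
    · intro h c hc hcj
      exact h c (mem_filter.2 ⟨hc, hcj⟩)
  unfold Yh
  by_cases hP : p
  · rw [if_pos hP, if_pos (h1.2 (hp.1 hP))]
  · rw [if_neg hP, if_neg fun h => hP (hp.2 (h1.1 h))]

private theorem h2_Zj {K : ℕ} (P P' : Finset ℕ) (hP' : ∀ p ∈ P', p.Prime) (h : ℕ → ℝ)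
    (h0 : ∀ n, 0 ≤ h n) (h1 : h 1 = 1) (j : Fin K)
    (Z : Finset (ℕ × Fin K) → ℝ) (hZ : ∀ A, (∃ c ∈ A, c.2 = j) → Z A = 0)
    (A : Finset (ℕ × Fin K)) (hA : A ∈ LS K P') :
    Zj gg P' j (Yh P P' h j Z) A = if A ∈ LS K P then Z A else 0 := by
  by_cases hj : ∃ a ∈ A, a.2 = j
  · have h1 : Zj gg P' j (Yh P P' h j Z) A = 0 := by
      unfold Zj
      rw [if_pos hj]
    rw [h1, hZ A hj]
    simp
  · have hj' : ∀ c ∈ A, c.2 ≠ j := fun c hc h => hj ⟨c, hc, h⟩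
    have h2 : Zj gg P' j (Yh P P' h j Z) A =
        ∑ U ∈ (P' \ A.image Prod.fst).powerset,
          HH U * Yh P P' h j Z (A ∪ U.image (fun p => (p, j))) := by
      unfold Zj
      rw [if_neg hj]
      rfl
    have hiff : A ∈ LS K P ↔ ∀ c ∈ A, c.1 ∈ P := by
      rw [mem_LS]
      exact ⟨fun h => h.1, fun h => ⟨h, (mem_LS.1 hA).2⟩⟩
    have h3 : ∀ U : Finset ℕ, Yh P P' h j Z (A ∪ U.image (fun p => (p, j))) =
        if A ∈ LS K P then (Z A * h (pd U) / Nh (P' \ A.image Prod.fst) h)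
          else 0 := by
      intro U
      rw [h2_Yh P P' h j Z _ (A ∈ LS K P) (by rw [h2_filter j A hj' U]; exact hiff),
        h2_filter j A hj' U, h2_lb j A hj' U]
    rw [h2]
    simp only [h3]
    by_cases hAP : A ∈ LS K P
    · simp only [if_pos hAP]
      have h4 := Nh_one _ (h2_sdiff hP' A) h h0 h1
      have h5 : ∑ U ∈ (P' \ A.image Prod.fst).powerset,
          HH U * (Z A * h (pd U) / Nh (P' \ A.image Prod.fst) h) =
          Z A / Nh (P' \ A.image Prod.fst) h * Nh (P' \ A.image Prod.fst) h := by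
        conv_rhs => rw [Nh, Finset.mul_sum]
        refine Finset.sum_congr rfl fun U _ => ?_
        unfold Nh
        ring
      rw [h5]
      exact div_mul_cancel₀ _ (by linarith : Nh (P' \ A.image Prod.fst) h ≠ 0)
    · simp only [if_neg hAP, mul_zero, Finset.sum_const_zero]

theorem ff_Yh {K : ℕ} (P P' : Finset ℕ) (hPP' : P ⊆ P') (hP' : ∀ p ∈ P', p.Prime) (h : ℕ → ℝ)
    (h0 : ∀ n, 0 ≤ h n) (h1 : h 1 = 1) (j : Fin K) (Z : Finset (ℕ × Fin K) → ℝ)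
    (hZ : ∀ A, (∃ c ∈ A, c.2 = j) → Z A = 0) (a b : Fin K → ℕ) (z : ℕ)
    (hz : ∀ c ∈ om P' a b z, c.2 ≠ j) :
    ff gg P' (Yh P P' h j Z) (om P' a b z) = ff gg P Z (om P a b z) := by
  rw [ff_Zj gg P' j _ _ hz]
  unfold ff
  have h2 : ∑ A ∈ LS K P', Zj gg P' j (Yh P P' h j Z) A * xx gg A (om P' a b z) =
      ∑ A ∈ LS K P', (if A ∈ LS K P then Z A * xx gg A (om P' a b z) else 0) := by
    refine Finset.sum_congr rfl fun A hA => ?_
    rw [h2_Zj P P' hP' h h0 h1 j Z hZ A hA]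
    split_ifs
    · rfl
    · rw [zero_mul]
  rw [h2, h2_restrict hPP']
  refine Finset.sum_congr rfl fun A hA => ?_
  rw [xx_om gg P P' hPP' a b z A hA]

theorem sum_Yh {K : ℕ} (P P' : Finset ℕ) (hPP' : P ⊆ P') (hP' : ∀ p ∈ P', p.Prime) (h : ℕ → ℝ)
    (k : ℕ → ℝ) (j : Fin K) (Z : Finset (ℕ × Fin K) → ℝ)
    (hZ : ∀ A, (∃ c ∈ A, c.2 = j) → Z A = 0) :
    ∑ A ∈ LS K P', (Yh P P' h j Z A) ^ 2 * ∏ c ∈ A, k c.1 =
      ∑ A ∈ LS K P, (Z A) ^ 2 * (∏ c ∈ A, k c.1) *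
        ((∑ S ∈ (P' \ A.image Prod.fst).powerset, (∏ p ∈ S, k p) * h (pd S) ^ 2) /
          Nh (P' \ A.image Prod.fst) h ^ 2) := by
  classical
  obtain ⟨F, hF⟩ : ∃ F : Finset (ℕ × Fin K) → Finset ℕ → ℝ, ∀ A₁ U, F A₁ U =
      (if (∀ c ∈ A₁, c.1 ∈ P) then (Z A₁ * h (pd U) / Nh (P' \ A₁.image Prod.fst) h) else 0) ^ 2 *
        ((∏ c ∈ A₁, k c.1) * ∏ p ∈ U, k p) :=
    ⟨_, fun _ _ => rfl⟩
  have h1 : ∑ A ∈ LS K P', (Yh P P' h j Z A) ^ 2 * ∏ c ∈ A, k c.1 =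
      ∑ A ∈ LS K P', F (A.filter (fun a => a.2 ≠ j)) (lb j A) := by
    refine Finset.sum_congr rfl fun A _ => ?_
    have e2 : ∏ c ∈ A, k c.1 = (∏ c ∈ A.filter (fun a => a.2 ≠ j), k c.1) * ∏ p ∈ lb j A, k p :=
      h2_prod j A k
    rw [hF, h2_Yh P P' h j Z A (∀ c ∈ A.filter (fun c => c.2 ≠ j), c.1 ∈ P) Iff.rfl, ← e2]
    congr!
  rw [h1, h2_bij P' j F]
  simp only [hF]
  have h2 : ∀ A ∈ (LS K P').filter (fun A => ∀ a ∈ A, a.2 ≠ j),
      ∑ U ∈ (P' \ A.image Prod.fst).powerset,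
        (if (∀ c ∈ A, c.1 ∈ P) then (Z A * h (pd U) / Nh (P' \ A.image Prod.fst) h) else 0) ^ 2 *
          ((∏ c ∈ A, k c.1) * ∏ p ∈ U, k p) =
      if A ∈ LS K P then (Z A) ^ 2 * (∏ c ∈ A, k c.1) *
        ((∑ S ∈ (P' \ A.image Prod.fst).powerset, (∏ p ∈ S, k p) * h (pd S) ^ 2) /
          Nh (P' \ A.image Prod.fst) h ^ 2) else 0 := by
    intro A hA
    rw [mem_filter] at hA
    have hiff : A ∈ LS K P ↔ ∀ c ∈ A, c.1 ∈ P := by
      rw [mem_LS]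
      exact ⟨fun h => h.1, fun h => ⟨h, (mem_LS.1 hA.1).2⟩⟩
    by_cases hAP : ∀ c ∈ A, c.1 ∈ P
    · rw [if_pos (hiff.2 hAP)]
      simp only [if_pos hAP]
      rw [Finset.sum_div, Finset.mul_sum]
      refine Finset.sum_congr rfl fun U _ => ?_
      rw [div_pow, mul_pow]
      ring
    · rw [if_neg fun h => hAP (hiff.1 h)]
      simp only [if_neg hAP]
      simp
  rw [Finset.sum_congr rfl h2, Finset.sum_filter]
  have h5 : ∀ A ∈ LS K P', (if (∀ a ∈ A, a.2 ≠ j) then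
      (if A ∈ LS K P then (Z A) ^ 2 * (∏ c ∈ A, k c.1) *
        ((∑ S ∈ (P' \ A.image Prod.fst).powerset, (∏ p ∈ S, k p) * h (pd S) ^ 2) /
          Nh (P' \ A.image Prod.fst) h ^ 2) else 0) else 0) =
      if A ∈ LS K P then (Z A) ^ 2 * (∏ c ∈ A, k c.1) *
        ((∑ S ∈ (P' \ A.image Prod.fst).powerset, (∏ p ∈ S, k p) * h (pd S) ^ 2) /
          Nh (P' \ A.image Prod.fst) h ^ 2) else 0 := by
    intro A _
    by_cases hj : ∀ a ∈ A, a.2 ≠ j
    · rw [if_pos hj]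
    · rw [if_neg hj]
      have h6 : ∃ c ∈ A, c.2 = j := by
        push Not at hj
        exact hj
      rw [hZ A h6]
      simp
  rw [Finset.sum_congr rfl h5, h2_restrict hPP']

end Pool.Agent.Work.MP_70e905_nt.M3
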