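import Pool.Agent.Work.MP_70e905_nt.M3.Defs
import Pool.Agent.Work.MP_70e905_nt.MT.C2
import Pool.Agent.Work.MP_70e905_nt.MT.C1
import Pool.Agent.Work.MP_70e905_nt.MT.A5

set_option autoImplicit false

/-!
MODULE LA (lower bound of the coefficients with two labels summed), size M. See `Zj_geU` (MT/C2).

`Zj gg P j (Zj gg P i YY) A` is the sum over `U ⊆ P \ A.image fst` of `HH U * Zj gg P i YY (A ∪ U.image (·, j))`, all terms `≥ 0`
(`Zj_leU`). Keep the `U` with `pd U ≤ x^(δ/4)`: the set `A' = A ∪ U.image (·, j)` is in `LS K P`, has no label `i` and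
`pr A' ≤ x^(δ/2)`, so `Zj_geU` gives `≥ (∏_{l ≠ i} yy (pd (lb l A'))) * (rt (A'.image fst) * U1 P)`, with `lb j A' = U`,
`lb l A' = lb l A` for `l ≠ j`, and `rt (A'.image fst) = rt (A.image fst) * rt U`. For `pd U > x^(δ/4) ≥ x^(2^l t₀)` (`l < L`)
`yy (pd U) = 0`. So the sum is at least
`∏_{l ≠ i, j} yy * rt (A.image fst) * U1 P * ∑_{U ⊆ P \ A.image fst} HH U yy (pd U) rt U`, and
`rt U ≥ 1 - ∑_{p ∈ U} 1/p`, `∑_{U ∋ p} HH U yy (pd U) ≤ gg p U1 (P \ A.image fst)`, `∑_p gg p / p ≤ ∑_p (gg p - go p) ≤ 1 / D₀`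
(`gg p / p = gg p - go p`, `sum_dif` of MT/A5), and `U1 (P \ A.image fst) ≥ rt (A.image fst) U1 P` (`U1_sdiff`).
-/

namespace Pool.Agent.Work.MP_70e905_nt.M3

open Finset Pool.Agent.Work.MP_73869e_nt.TH Pool.Agent.Work.MP_70e905_nt.MT

private theorem la_gg {p : ℕ} (hp : p.Prime) : 0 ≤ gg p := by
  unfold gg
  have : (2 : ℝ) ≤ p := by exact_mod_cast hp.two_le
  apply div_nonneg zero_le_one
  linarith

private theorem la_HH {S : Finset ℕ} (h : ∀ p ∈ S, p.Prime) : 0 ≤ HH S :=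
  Finset.prod_nonneg fun p hp => la_gg (h p hp)

private theorem la_U1_nn (P : Finset ℕ) (hP : ∀ p ∈ P, p.Prime) (x L : ℕ) (t₀ : ℝ) :
    0 ≤ U1 P x L t₀ := by
  unfold U1
  exact Finset.sum_nonneg fun S hS => mul_nonneg
    (la_HH fun p hp => hP p (mem_powerset.1 hS hp)) (yy_bd x L t₀ _).1

private theorem la_lb_self {K : ℕ} (A : Finset (ℕ × Fin K)) (i : Fin K) (hi : ∀ c ∈ A, c.2 ≠ i)
    (U : Finset ℕ) : lb i (A ∪ U.image (fun p => (p, i))) = U := by
  ext p
  rw [mem_lb, mem_union, mem_image]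
  constructor
  · rintro (h | ⟨x, hx, hx2⟩)
    · exact absurd rfl (hi _ h)
    · rw [Prod.mk.injEq] at hx2
      rw [← hx2.1]
      exact hx
  · intro h
    right
    exact ⟨p, h, rfl⟩

private theorem la_lb_ne {K : ℕ} (A : Finset (ℕ × Fin K)) (i l : Fin K) (hl : l ≠ i)
    (U : Finset ℕ) : lb l (A ∪ U.image (fun p => (p, i))) = lb l A := by
  ext p
  rw [mem_lb, mem_lb, mem_union, mem_image]
  constructor
  · rintro (h | ⟨x, hx, hx2⟩)
    · exact h
    · rw [Prod.mk.injEq] at hx2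
      exact absurd hx2.2.symm hl
  · intro h
    left
    exact h

private theorem la_pr {K : ℕ} (A : Finset (ℕ × Fin K)) (i : Fin K) (hi : ∀ c ∈ A, c.2 ≠ i)
    (U : Finset ℕ) : pr (A ∪ U.image (fun p => (p, i))) = pr A * pd U := by
  unfold pr pd
  rw [Finset.prod_union]
  · congr 1
    rw [Finset.prod_image]
    intro x _ y _ h
    beta_reduce at h
    rw [Prod.mk.injEq] at h
    exact h.1
  · rw [Finset.disjoint_left]
    intro a ha ha2
    rw [mem_image] at ha2
    obtain ⟨x, _, hx⟩ := ha2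
    apply hi a ha
    rw [← hx]

private theorem la_Zj {K : ℕ} (P : Finset ℕ) (i : Fin K) (Y : Finset (ℕ × Fin K) → ℝ)
    (A : Finset (ℕ × Fin K)) (hi : ∀ c ∈ A, c.2 ≠ i) :
    Zj gg P i Y A = ∑ U ∈ (P \ A.image Prod.fst).powerset, HH U *
      Y (A ∪ U.image (fun p => (p, i))) := by
  unfold Zj HH
  rw [if_neg (by push Not; exact hi)]

private theorem la_rt_ge (E : Finset ℕ) : 1 - ∑ p ∈ E, 1 / (p : ℝ) ≤ rt E := by
  induction E using Finset.induction_on with
  | empty => simp [rt]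
  | insert p E hp ih =>
    have h1 : rt (insert p E) = (1 - 1 / (p : ℝ)) * rt E := by
      unfold rt
      rw [Finset.prod_insert hp]
    rw [h1, Finset.sum_insert hp]
    obtain ⟨h2, h3⟩ := rt_01 E
    have h4 : 0 ≤ 1 / (p : ℝ) := by positivity
    nlinarith

/-- the sum over the sets containing `p` -/
private theorem la_contain (P : Finset ℕ) (hP : ∀ p ∈ P, p.Prime) (p : ℕ) (hp : p ∈ P) (x L : ℕ)
    (t₀ : ℝ) : ∑ U ∈ P.powerset, (if p ∈ U then HH U * yy x L t₀ (pd U) else 0) ≤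
      gg p * U1 P x L t₀ := by
  have hpr := hP p hp
  have hne : p ∉ P.erase p := notMem_erase p P
  have h1 : ∑ U ∈ P.powerset, (if p ∈ U then HH U * yy x L t₀ (pd U) else 0) =
      ∑ S ∈ (P.erase p).powerset, HH (insert p S) * yy x L t₀ (pd (insert p S)) := by
    conv_lhs => rw [← insert_erase hp]
    rw [Finset.sum_powerset_insert hne]
    have h2 : ∑ S ∈ (P.erase p).powerset, (if p ∈ S then HH S * yy x L t₀ (pd S) else 0) = 0 := by
      refine Finset.sum_eq_zero fun S hS => ?_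
      rw [if_neg]
      exact fun h => hne (mem_powerset.1 hS h)
    rw [h2, zero_add]
    refine Finset.sum_congr rfl fun S _ => ?_
    rw [if_pos (mem_insert_self p S)]
  rw [h1]
  calc ∑ S ∈ (P.erase p).powerset, HH (insert p S) * yy x L t₀ (pd (insert p S))
      ≤ ∑ S ∈ (P.erase p).powerset, gg p * (HH S * yy x L t₀ (pd S)) := by
        refine Finset.sum_le_sum fun S hS => ?_
        have hpS : p ∉ S := fun h => hne (mem_powerset.1 hS h)
        have h4 : HH (insert p S) = gg p * HH S := by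
          unfold HH
          rw [Finset.prod_insert hpS]
        have h5 : pd S ≤ pd (insert p S) := by
          unfold pd
          rw [Finset.prod_insert hpS]
          exact Nat.le_mul_of_pos_left _ hpr.pos
        rw [h4, mul_assoc]
        refine mul_le_mul_of_nonneg_left ?_ (la_gg hpr)
        refine mul_le_mul_of_nonneg_left (yy_anti x L t₀ _ _ h5) ?_
        exact la_HH fun q hq => hP q (mem_of_mem_erase (mem_powerset.1 hS hq))
    _ = gg p * U1 (P.erase p) x L t₀ := by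
        unfold U1
        rw [Finset.mul_sum]
    _ ≤ gg p * U1 P x L t₀ :=
        mul_le_mul_of_nonneg_left (U_mono _ P (erase_subset p P) hP x L t₀).1 (la_gg hpr)

private theorem la_wsum (D₀ : ℕ) (hD : 1 ≤ D₀) (P : Finset ℕ) (hP : ∀ p ∈ P, p.Prime ∧ D₀ < p)
    (x L : ℕ) (t₀ : ℝ) : (1 - 1 / (D₀ : ℝ)) * U1 P x L t₀ ≤
      ∑ V ∈ P.powerset, HH V * yy x L t₀ (pd V) * rt V := by
  have hP1 : ∀ p ∈ P, p.Prime := fun p hp => (hP p hp).1
  have hnn : ∀ V ∈ P.powerset, 0 ≤ HH V * yy x L t₀ (pd V) := fun V hV =>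
    mul_nonneg (la_HH fun p hp => hP1 p (mem_powerset.1 hV hp)) (yy_bd x L t₀ _).1
  have hU := la_U1_nn P hP1 x L t₀
  have h1 : ∑ V ∈ P.powerset, HH V * yy x L t₀ (pd V) * (1 - ∑ p ∈ V, 1 / (p : ℝ)) ≤
      ∑ V ∈ P.powerset, HH V * yy x L t₀ (pd V) * rt V :=
    Finset.sum_le_sum fun V hV => mul_le_mul_of_nonneg_left (la_rt_ge V) (hnn V hV)
  have h2 : ∑ V ∈ P.powerset, HH V * yy x L t₀ (pd V) * ∑ p ∈ V, 1 / (p : ℝ) =
      ∑ p ∈ P, 1 / (p : ℝ) *
        ∑ V ∈ P.powerset, (if p ∈ V then HH V * yy x L t₀ (pd V) else 0) := by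
    have e1 : ∀ V ∈ P.powerset, HH V * yy x L t₀ (pd V) * ∑ p ∈ V, 1 / (p : ℝ) =
        ∑ p ∈ P, 1 / (p : ℝ) * (if p ∈ V then HH V * yy x L t₀ (pd V) else 0) := by
      intro V hV
      rw [Finset.mul_sum]
      have e2 : ∑ p ∈ V, HH V * yy x L t₀ (pd V) * (1 / (p : ℝ)) =
          ∑ p ∈ V, 1 / (p : ℝ) * (if p ∈ V then HH V * yy x L t₀ (pd V) else 0) := by
        refine Finset.sum_congr rfl fun p hp => ?_
        rw [if_pos hp]
        ring
      rw [e2]
      refine Finset.sum_subset (mem_powerset.1 hV) fun p _ hp => ?_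
      rw [if_neg hp, mul_zero]
    rw [Finset.sum_congr rfl e1, Finset.sum_comm]
    refine Finset.sum_congr rfl fun p _ => ?_
    rw [Finset.mul_sum]
  have h3 : ∑ p ∈ P, 1 / (p : ℝ) *
      ∑ V ∈ P.powerset, (if p ∈ V then HH V * yy x L t₀ (pd V) else 0) ≤
        1 / (D₀ : ℝ) * U1 P x L t₀ := by
    calc _ ≤ ∑ p ∈ P, (gg p - go p) * U1 P x L t₀ := by
          refine Finset.sum_le_sum fun p hp => ?_
          have e1 := mul_le_mul_of_nonneg_left (la_contain P hP1 p hp x L t₀)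
            (by positivity : (0 : ℝ) ≤ 1 / (p : ℝ))
          refine e1.trans (le_of_eq ?_)
          have e2 : 1 / (p : ℝ) * gg p = gg p - go p := by
            unfold gg go
            have h5 : (2 : ℝ) ≤ p := by exact_mod_cast (hP1 p hp).two_le
            have h6 : (p : ℝ) - 1 ≠ 0 := by
              intro h
              linarith
            have h7 : (p : ℝ) ≠ 0 := by
              intro h
              linarith
            field_simp
            ring
          rw [← mul_assoc, e2]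
      _ = (∑ p ∈ P, (gg p - go p)) * U1 P x L t₀ := by rw [Finset.sum_mul]
      _ ≤ _ := mul_le_mul_of_nonneg_right (sum_dif D₀ hD P fun p hp => (hP p hp).2) hU
  have h4 : ∑ V ∈ P.powerset, HH V * yy x L t₀ (pd V) * (1 - ∑ p ∈ V, 1 / (p : ℝ)) =
      U1 P x L t₀ - ∑ V ∈ P.powerset, HH V * yy x L t₀ (pd V) * ∑ p ∈ V, 1 / (p : ℝ) := by
    unfold U1
    rw [← Finset.sum_sub_distrib]
    refine Finset.sum_congr rfl fun V _ => ?_
    ring
  rw [h4, h2] at h1
  linarith

theorem ZZ_geU {K : ℕ} (x L D₀ : ℕ) (P : Finset ℕ) (t₀ δ : ℝ) (i j : Fin K) (hij : i ≠ j) (hx : 2 ≤ x)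
    (hD : 1 ≤ D₀) (hP : ∀ p ∈ P, p.Prime ∧ D₀ < p) (ht₀ : 0 < t₀) (hLδ : (2 : ℝ) ^ L * t₀ ≤ δ / 4)
    (A : Finset (ℕ × Fin K)) (hA : A ∈ LS K P) (hi : ∀ c ∈ A, c.2 ≠ i ∧ c.2 ≠ j)
    (hA2 : (pr A : ℝ) ≤ (x : ℝ) ^ (δ / 4)) :
    (1 - 1 / D₀) * ((∏ l ∈ (univ.erase i).erase j, yy x L t₀ (pd (lb l A))) *
        (rt (A.image Prod.fst) * U1 P x L t₀) ^ 2) ≤
      Zj gg P j (Zj gg P i (YY x L t₀ δ)) A := by
  have hP1 : ∀ p ∈ P, p.Prime := fun p hp => (hP p hp).1
  have hx1 : (1 : ℝ) ≤ x := by exact_mod_cast (by omega : 1 ≤ x)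
  have hx0 : (0 : ℝ) < x := by linarith
  have hδ0 : 0 < δ := by
    have : 0 < (2 : ℝ) ^ L * t₀ := by positivity
    linarith
  have hjA : ∀ c ∈ A, c.2 ≠ j := fun c hc => (hi c hc).2
  set E := A.image Prod.fst with hE
  set Mij := ∏ l ∈ (univ.erase i).erase j, yy x L t₀ (pd (lb l A)) with hM
  have hM0 : 0 ≤ Mij := Finset.prod_nonneg fun l _ => (yy_bd x L t₀ _).1
  have hU := la_U1_nn P hP1 x L t₀
  have hrE := rt_01 E
  rw [la_Zj P j _ A hjA]
  have hB : ∀ V : Finset ℕ, ∀ c ∈ A ∪ V.image (fun p => (p, j)), c.2 ≠ i := by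
    intro V c hc
    rcases mem_union.1 hc with h | h
    · exact (hi c h).1
    · obtain ⟨p, _, hp⟩ := mem_image.1 h
      rw [← hp]
      exact hij.symm
  have key : ∀ V ∈ (P \ E).powerset, (Mij * (rt E * U1 P x L t₀)) * (yy x L t₀ (pd V) * rt V) ≤
      Zj gg P i (YY x L t₀ δ) (A ∪ V.image (fun p => (p, j))) := by
    intro V hV
    have hVs := mem_powerset.1 hV
    by_cases hVx : ((pd V : ℕ) : ℝ) ≤ (x : ℝ) ^ (δ / 4)
    · have hpr : (pr (A ∪ V.image (fun p => (p, j))) : ℝ) ≤ (x : ℝ) ^ (δ / 2) := by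
        rw [la_pr A j hjA V]
        push_cast
        calc (pr A : ℝ) * (pd V : ℝ) ≤ (x : ℝ) ^ (δ / 4) * (x : ℝ) ^ (δ / 4) :=
              mul_le_mul hA2 hVx (by positivity) (by positivity)
          _ = (x : ℝ) ^ (δ / 2) := by
              rw [← Real.rpow_add hx0]
              congr 1
              ring
      have hLS : A ∪ V.image (fun p => (p, j)) ∈ LS K P := by
        rw [mem_LS] at hA ⊢
        refine ⟨?_, ?_⟩
        · intro a ha
          rcases mem_union.1 ha with h | h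
          · exact hA.1 a h
          · obtain ⟨p, hp, rfl⟩ := mem_image.1 h
            exact (mem_sdiff.1 (hVs hp)).1
        · intro a ha b hb hab
          rcases mem_union.1 ha with h | h <;> rcases mem_union.1 hb with h' | h'
          · exact hA.2 a h b h' hab
          · obtain ⟨p, hp, rfl⟩ := mem_image.1 h'
            exact absurd (mem_image.2 ⟨a, h, hab⟩) (mem_sdiff.1 (hVs hp)).2
          · obtain ⟨p, hp, rfl⟩ := mem_image.1 h
            exact absurd (mem_image.2 ⟨b, h', hab.symm⟩) (mem_sdiff.1 (hVs hp)).2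
          · obtain ⟨p, hp, rfl⟩ := mem_image.1 h
            obtain ⟨q, hq, rfl⟩ := mem_image.1 h'
            simp only at hab
            rw [hab]
      have h1 := Zj_geU x L P t₀ δ i hx hP1 ht₀ (by linarith) _ hLS (hB V) hpr
      have hprod : ∏ l ∈ univ.erase i, yy x L t₀ (pd (lb l (A ∪ V.image (fun p => (p, j))))) =
          Mij * yy x L t₀ (pd V) := by
        have hj : j ∈ univ.erase i := mem_erase.2 ⟨hij.symm, mem_univ _⟩
        rw [← Finset.prod_erase_mul (univ.erase i) _ hj, la_lb_self A j hjA V]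
        congr 1
        refine Finset.prod_congr rfl fun l hl => ?_
        rw [la_lb_ne A j l (ne_of_mem_erase hl) V]
      have hrt : rt ((A ∪ V.image (fun p => (p, j))).image Prod.fst) = rt E * rt V := by
        have e1 : (A ∪ V.image (fun p => (p, j))).image Prod.fst = E ∪ V := by
          rw [image_union, image_image]
          congr 1
          exact image_id
        have e2 : Disjoint E V := by
          rw [Finset.disjoint_left]
          intro p hp hp'
          exact (mem_sdiff.1 (hVs hp')).2 hp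
        rw [e1]
        unfold rt
        rw [Finset.prod_union e2]
      rw [hprod, hrt] at h1
      refine le_trans (le_of_eq ?_) h1
      ring
    · have h0 : yy x L t₀ (pd V) = 0 := by
        unfold yy
        apply Finset.sum_eq_zero
        intro l hl
        rw [if_neg, mul_zero]
        intro h1
        apply hVx
        refine h1.trans ?_
        apply Real.rpow_le_rpow_of_exponent_le hx1
        refine le_trans ?_ hLδ
        apply mul_le_mul_of_nonneg_right _ ht₀.le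
        exact pow_le_pow_right₀ (by norm_num) (mem_range.1 hl).le
      rw [h0, zero_mul, mul_zero]
      exact (Zj_leU x L P t₀ δ i hP1 _ (hB V)).1
  have hH : ∀ V ∈ (P \ E).powerset, 0 ≤ HH V := fun V hV =>
    la_HH fun p hp => hP1 p (mem_sdiff.1 (mem_powerset.1 hV hp)).1
  have h2 : ∑ V ∈ (P \ E).powerset, HH V *
      ((Mij * (rt E * U1 P x L t₀)) * (yy x L t₀ (pd V) * rt V)) ≤
      ∑ V ∈ (P \ E).powerset, HH V *
        Zj gg P i (YY x L t₀ δ) (A ∪ V.image (fun p => (p, j))) :=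
    Finset.sum_le_sum fun V hV => mul_le_mul_of_nonneg_left (key V hV) (hH V hV)
  refine le_trans ?_ h2
  have h3 : ∑ V ∈ (P \ E).powerset, HH V *
      ((Mij * (rt E * U1 P x L t₀)) * (yy x L t₀ (pd V) * rt V)) =
      (Mij * (rt E * U1 P x L t₀)) *
        ∑ V ∈ (P \ E).powerset, HH V * yy x L t₀ (pd V) * rt V := by
    rw [Finset.mul_sum]
    refine Finset.sum_congr rfl fun V _ => ?_
    ring
  rw [h3]
  have h4 := la_wsum D₀ hD (P \ E) (fun p hp => hP p (mem_sdiff.1 hp).1) x L t₀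
  have h5 := U1_sdiff P E hP1 x L t₀
  have hD' : (1 : ℝ) ≤ D₀ := by exact_mod_cast hD
  have h6 : 0 ≤ 1 - 1 / (D₀ : ℝ) := by
    have : 1 / (D₀ : ℝ) ≤ 1 := by
      rw [div_le_one (by linarith)]
      exact hD'
    linarith
  have h7 : (1 - 1 / (D₀ : ℝ)) * (rt E * U1 P x L t₀) ≤
      ∑ V ∈ (P \ E).powerset, HH V * yy x L t₀ (pd V) * rt V :=
    (mul_le_mul_of_nonneg_left h5 h6).trans h4
  have h8 : 0 ≤ Mij * (rt E * U1 P x L t₀) := mul_nonneg hM0 (mul_nonneg hrE.1 hU)
  refine le_trans (le_of_eq ?_) (mul_le_mul_of_nonneg_left h7 h8)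
  ring

end Pool.Agent.Work.MP_70e905_nt.M3
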