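import Pool.Agent.Work.MP_70e905_nt.M3.Defs
import Pool.Agent.Work.MP_70e905_nt.MT.C3

set_option autoImplicit false

/-!
MODULE LB (lower bound of the sum over tuples, two labels removed), size M-L. Copy of MT/C3 (`tuple_geU`) with two labels
removed, the exponent 3 and `δ/4`.

With `F A = ∏_{l ≠ i, j} yy (pd (lb l A))²`, `V = U2 P x L t₀`: `(1 - 1/p)^3 (1 - K gg p) ≥ 1 - (K + 3) gg p` (`p > D₀`, factors in
`[0,1]`), so the product over `A` is `≥ 1 - ∑_{c ∈ A} (K + 3) gg c.1`. The sum of `F A ga gg A` over all `A ⊆ P × Fin K` without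
labels `i, j` is `V^(K-2)`. Subtract: (a) the `A` which are not `Lab`: at most `K² (∑ gg²) V^(K-2)`; (b) `pr A > x^(δ/4)`:
`1 ≤ (4/δ) ∑_l log (pd (lb l A)) / log x`, at most `(4/δ) K V^(K-3) U2t ≤ ε V^(K-2)` by `h3` (for `K = 2` there is no
label left and `A = ∅`); (c) at most `K (K + 3) (∑ gg²) V^(K-2)`. `∑ gg² ≤ 2 / D₀` (`sum_gg2` of MT/A5), and
`(2 K² + 3 K) (2 / D₀) ≤ 10 K² / D₀ ≤ ε`.
-/

namespace Pool.Agent.Work.MP_70e905_nt.M3

open Finset Pool.Agent.Work.MP_73869e_nt.TH Pool.Agent.Work.MP_70e905_nt.MT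

private theorem lb_gg {p : ℕ} (hp : p.Prime) : 0 ≤ gg p := by
  unfold gg
  have : (2 : ℝ) ≤ p := by exact_mod_cast hp.two_le
  apply div_nonneg zero_le_one
  linarith

private theorem lb_HH {S : Finset ℕ} (h : ∀ p ∈ S, p.Prime) : 0 ≤ HH S :=
  Finset.prod_nonneg fun p hp => lb_gg (h p hp)

/-- the factor of the label `i` -/
private noncomputable def lbh {K : ℕ} (N L : ℕ) (t₀ : ℝ) (j j' i : Fin K) (S : Finset ℕ) : ℝ :=
  if i = j ∨ i = j' then (if S = ∅ then 1 else 0) else HH S * yy N L t₀ (pd S) ^ 2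

private theorem lbh_nn {K : ℕ} (N L : ℕ) (t₀ : ℝ) (j j' i : Fin K) (S : Finset ℕ)
    (hS : ∀ p ∈ S, p.Prime) : 0 ≤ lbh N L t₀ j j' i S := by
  unfold lbh
  split_ifs
  · exact zero_le_one
  · exact le_refl _
  · exact mul_nonneg (lb_HH hS) (by positivity)

private theorem lbh_sum {K : ℕ} (N L : ℕ) (P : Finset ℕ) (t₀ : ℝ) (j j' i : Fin K) :
    ∑ S ∈ P.powerset, lbh N L t₀ j j' i S = if i = j ∨ i = j' then 1 else U2 P N L t₀ := by
  unfold lbh
  split_ifs
  · rw [Finset.sum_ite_eq' P.powerset ∅, if_pos (empty_mem_powerset _)]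
  · rfl

private theorem prod_lbh_sum {K : ℕ} (N L : ℕ) (P : Finset ℕ) (t₀ : ℝ) (j j' : Fin K) (hj : j ≠ j') :
    ∏ i, ∑ S ∈ P.powerset, lbh N L t₀ j j' i S = U2 P N L t₀ ^ (K - 2) := by
  rw [Finset.prod_congr rfl fun i _ => lbh_sum N L P t₀ j j' i]
  have hj' : j' ∈ univ.erase j := mem_erase.2 ⟨hj.symm, mem_univ _⟩
  rw [← Finset.mul_prod_erase univ _ (mem_univ j), if_pos (Or.inl rfl), one_mul,
    ← Finset.mul_prod_erase (univ.erase j) _ hj', if_pos (Or.inr rfl), one_mul]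
  rw [Finset.prod_congr rfl (g := fun _ => U2 P N L t₀)]
  · rw [Finset.prod_const, card_erase_of_mem hj', card_erase_of_mem (mem_univ j), card_univ,
      Fintype.card_fin]
    rfl
  · intro i hi
    rw [if_neg]
    rintro (h | h)
    · exact ne_of_mem_erase (mem_of_mem_erase hi) h
    · exact ne_of_mem_erase hi h

/-- the summand of a set `A` -/
private noncomputable def lbH {K : ℕ} (N L : ℕ) (t₀ : ℝ) (j j' : Fin K) (A : Finset (ℕ × Fin K)) : ℝ :=
  ∏ i, lbh N L t₀ j j' i (lb i A)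

private theorem lbH_nn {K : ℕ} (N L : ℕ) (t₀ : ℝ) (j j' : Fin K) (P : Finset ℕ)
    (hP : ∀ p ∈ P, p.Prime) (A : Finset (ℕ × Fin K))
    (hA : A ∈ (P ×ˢ (univ : Finset (Fin K))).powerset) :
    0 ≤ lbH N L t₀ j j' A := Finset.prod_nonneg fun i _ => lbh_nn _ _ _ _ _ _ _ fun p hp => by
      rw [mem_lb] at hp
      exact hP p (mem_product.1 (mem_powerset.1 hA hp)).1

private theorem lbH_eq {K : ℕ} (N L : ℕ) (t₀ : ℝ) (j j' : Fin K) (hj : j ≠ j')
    (A : Finset (ℕ × Fin K)) (hA : ∀ a ∈ A, a.2 ≠ j ∧ a.2 ≠ j') :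
    lbH N L t₀ j j' A = (∏ i ∈ (univ.erase j).erase j', yy N L t₀ (pd (lb i A))) ^ 2 *
      ga gg A := by
  have hj' : j' ∈ univ.erase j := mem_erase.2 ⟨hj.symm, mem_univ _⟩
  have h0 : lb j A = ∅ := by
    rw [eq_empty_iff_forall_notMem]
    intro p hp
    rw [mem_lb] at hp
    exact (hA _ hp).1 rfl
  have h0' : lb j' A = ∅ := by
    rw [eq_empty_iff_forall_notMem]
    intro p hp
    rw [mem_lb] at hp
    exact (hA _ hp).2 rfl
  unfold lbH
  rw [ga_HH, ← Finset.mul_prod_erase univ _ (mem_univ j),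
    ← Finset.mul_prod_erase univ (fun i => HH (lb i A)) (mem_univ j),
    ← Finset.mul_prod_erase (univ.erase j) _ hj',
    ← Finset.mul_prod_erase (univ.erase j) (fun i => HH (lb i A)) hj']
  have h1 : lbh N L t₀ j j' j (lb j A) = 1 := by
    unfold lbh
    rw [if_pos (Or.inl rfl), if_pos h0]
  have h1' : lbh N L t₀ j j' j' (lb j' A) = 1 := by
    unfold lbh
    rw [if_pos (Or.inr rfl), if_pos h0']
  have h2 : HH (lb j A) = 1 := by
    rw [h0]
    unfold HH
    rw [prod_empty]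
  have h2' : HH (lb j' A) = 1 := by
    rw [h0']
    unfold HH
    rw [prod_empty]
  rw [h1, h1', h2, h2', one_mul, one_mul, one_mul, one_mul, ← Finset.prod_pow,
    ← Finset.prod_mul_distrib]
  refine Finset.prod_congr rfl fun i hi => ?_
  unfold lbh
  rw [if_neg, mul_comm]
  rintro (h | h)
  · exact ne_of_mem_erase (mem_of_mem_erase hi) h
  · exact ne_of_mem_erase hi h

private theorem lbH_zero {K : ℕ} (N L : ℕ) (t₀ : ℝ) (j j' : Fin K) (A : Finset (ℕ × Fin K))
    (hA : ¬ ∀ a ∈ A, a.2 ≠ j ∧ a.2 ≠ j') : lbH N L t₀ j j' A = 0 := by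
  rw [not_forall] at hA
  obtain ⟨⟨p, k⟩, hA⟩ := hA
  rw [Classical.not_imp] at hA
  obtain ⟨ha, hk⟩ := hA
  simp only [ne_eq, not_and_or, not_not] at hk
  unfold lbH
  refine Finset.prod_eq_zero (mem_univ k) ?_
  unfold lbh
  rw [if_pos hk, if_neg]
  intro h
  have : p ∈ lb k A := (mem_lb A k p).2 ha
  rw [h] at this
  exact absurd this (notMem_empty _)

/-- the sum over sets of large product -/
private theorem lb_part1 {K : ℕ} (N L : ℕ) (P : Finset ℕ) (t₀ v ε : ℝ) (j j' : Fin K) (hj : j ≠ j')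
    (hN : 2 ≤ N)
    (hP : ∀ p ∈ P, p.Prime) (hv : 0 < v) (hε : 0 < ε)
    (h3 : 4 * K * U2t P N L t₀ ≤ ε * v * U2 P N L t₀) :
    ∑ A ∈ (P ×ˢ (univ : Finset (Fin K))).powerset.filter
        (fun A => ¬ (pr A : ℝ) ≤ (N : ℝ) ^ (v / 4)), lbH N L t₀ j j' A
      ≤ ε * U2 P N L t₀ ^ (K - 2) := by
  have hlogN : 0 < Real.log N := Real.log_pos (by exact_mod_cast hN)
  have hNpos : (0 : ℝ) < N := by positivity
  have hK : 0 < K := lt_of_le_of_lt (Nat.zero_le _) j.2
  have hK' : (0 : ℝ) < K := by exact_mod_cast hK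
  have hnn : ∀ i : Fin K, ∀ S ∈ P.powerset, 0 ≤ lbh N L t₀ j j' i S := fun i S hS =>
    lbh_nn _ _ _ _ _ _ _ fun p hp => hP p (mem_powerset.1 hS hp)
  -- the sum with the logarithm of one label
  have key : ∀ i₀ : Fin K, 4 * K * ∑ A ∈ (P ×ˢ (univ : Finset (Fin K))).powerset,
      lbH N L t₀ j j' A * (Real.log ((∏ p ∈ lb i₀ A, p : ℕ) : ℝ) / Real.log N) ≤
        ε * v * U2 P N L t₀ ^ (K - 2) := by
    intro i₀
    have e1 : ∑ A ∈ (P ×ˢ (univ : Finset (Fin K))).powerset,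
        lbH N L t₀ j j' A * (Real.log ((∏ p ∈ lb i₀ A, p : ℕ) : ℝ) / Real.log N) =
        ∏ i, ∑ S ∈ P.powerset, lbh N L t₀ j j' i S *
          (if i = i₀ then (Real.log ((∏ p ∈ S, p : ℕ) : ℝ) / Real.log N) else 1) := by
      rw [← prod_labels P (fun i S => lbh N L t₀ j j' i S *
          (if i = i₀ then (Real.log ((∏ p ∈ S, p : ℕ) : ℝ) / Real.log N) else 1))]
      refine Finset.sum_congr rfl fun A _ => ?_
      rw [Finset.prod_mul_distrib]
      unfold lbH
      congr 1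
      rw [Finset.prod_ite_eq' univ i₀, if_pos (mem_univ _)]
    rw [e1, ← Finset.mul_prod_erase univ _ (mem_univ i₀)]
    rw [Finset.prod_congr (s₁ := univ.erase i₀) rfl
      (g := fun i => ∑ S ∈ P.powerset, lbh N L t₀ j j' i S)]
    · rw [← prod_lbh_sum N L P t₀ j j' hj, ← Finset.mul_prod_erase univ
        (fun i => ∑ S ∈ P.powerset, lbh N L t₀ j j' i S) (mem_univ i₀)]
      rw [← mul_assoc, ← mul_assoc]
      refine mul_le_mul_of_nonneg_right ?_ ?_
      · by_cases hij : i₀ = j ∨ i₀ = j'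
        · have e2 : ∑ S ∈ P.powerset, lbh N L t₀ j j' i₀ S *
              (if i₀ = i₀ then (Real.log ((∏ p ∈ S, p : ℕ) : ℝ) / Real.log N) else 1) = 0 := by
            refine Finset.sum_eq_zero fun S _ => ?_
            rw [if_pos rfl]
            unfold lbh
            rw [if_pos hij]
            split_ifs with hS
            · rw [hS, prod_empty, Nat.cast_one, Real.log_one, zero_div, mul_zero]
            · rw [zero_mul]
          rw [e2, mul_zero]
          exact mul_nonneg (by positivity) (Finset.sum_nonneg fun S hS => hnn i₀ S hS)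
        · have e2 : ∑ S ∈ P.powerset, lbh N L t₀ j j' i₀ S *
              (if i₀ = i₀ then (Real.log ((∏ p ∈ S, p : ℕ) : ℝ) / Real.log N) else 1) =
                U2t P N L t₀ := by
            unfold U2t
            refine Finset.sum_congr rfl fun S _ => ?_
            rw [if_pos rfl]
            unfold lbh
            rw [if_neg hij]
            rfl
          rw [e2, lbh_sum, if_neg hij]
          exact h3
      · exact Finset.prod_nonneg fun i _ => Finset.sum_nonneg fun S hS => hnn i S hS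
    · intro i hi
      refine Finset.sum_congr rfl fun S _ => ?_
      rw [if_neg (ne_of_mem_erase hi), mul_one]
  -- Markov
  have hmark : ∀ A ∈ (P ×ˢ (univ : Finset (Fin K))).powerset.filter
        (fun A => ¬ (pr A : ℝ) ≤ (N : ℝ) ^ (v / 4)),
      lbH N L t₀ j j' A ≤ 4 / v * (lbH N L t₀ j j' A * (Real.log (pr A : ℝ) / Real.log N)) := by
    intro A hA
    have h1 : (N : ℝ) ^ (v / 4) < pr A := not_le.1 (mem_filter.1 hA).2
    have h2 : v / 4 * Real.log N ≤ Real.log (pr A : ℝ) := by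
      rw [← Real.log_rpow hNpos]
      exact Real.log_le_log (Real.rpow_pos_of_pos hNpos _) h1.le
    have h3 : v / 4 ≤ Real.log (pr A : ℝ) / Real.log N := by
      rwa [le_div_iff₀ hlogN]
    have h4 : 1 ≤ 4 / v * (Real.log (pr A : ℝ) / Real.log N) := by
      calc (1 : ℝ) = 4 / v * (v / 4) := by field_simp
        _ ≤ _ := mul_le_mul_of_nonneg_left h3 (by positivity)
    calc lbH N L t₀ j j' A = lbH N L t₀ j j' A * 1 := (mul_one _).symm
      _ ≤ lbH N L t₀ j j' A * (4 / v * (Real.log (pr A : ℝ) / Real.log N)) :=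
          mul_le_mul_of_nonneg_left h4 (lbH_nn _ _ _ _ _ P hP A (mem_filter.1 hA).1)
      _ = _ := by ring
  have hlogpr : ∀ A ∈ (P ×ˢ (univ : Finset (Fin K))).powerset,
      Real.log (pr A : ℝ) = ∑ i, Real.log ((∏ p ∈ lb i A, p : ℕ) : ℝ) := by
    intro A hA
    rw [pr_lb, Nat.cast_prod, Real.log_prod]
    intro i _
    rw [Nat.cast_ne_zero, Finset.prod_ne_zero_iff]
    intro p hp
    rw [mem_lb] at hp
    exact (hP p (mem_product.1 (mem_powerset.1 hA hp)).1).ne_zero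
  have hlognn : ∀ A ∈ (P ×ˢ (univ : Finset (Fin K))).powerset, 0 ≤ Real.log (pr A : ℝ) := by
    intro A hA
    refine Real.log_nonneg ?_
    have : 1 ≤ pr A := by
      unfold pr
      exact Finset.one_le_prod' fun a ha => (hP a.1 (mem_product.1 (mem_powerset.1 hA ha)).1).one_le
    exact_mod_cast this
  calc ∑ A ∈ (P ×ˢ (univ : Finset (Fin K))).powerset.filter
        (fun A => ¬ (pr A : ℝ) ≤ (N : ℝ) ^ (v / 4)), lbH N L t₀ j j' A
      ≤ ∑ A ∈ (P ×ˢ (univ : Finset (Fin K))).powerset.filter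
        (fun A => ¬ (pr A : ℝ) ≤ (N : ℝ) ^ (v / 4)),
          4 / v * (lbH N L t₀ j j' A * (Real.log (pr A : ℝ) / Real.log N)) :=
        Finset.sum_le_sum hmark
    _ ≤ ∑ A ∈ (P ×ˢ (univ : Finset (Fin K))).powerset,
          4 / v * (lbH N L t₀ j j' A * (Real.log (pr A : ℝ) / Real.log N)) := by
        refine Finset.sum_le_sum_of_subset_of_nonneg (filter_subset _ _) ?_
        intro A hA _
        exact mul_nonneg (by positivity)
          (mul_nonneg (lbH_nn _ _ _ _ _ P hP A hA) (div_nonneg (hlognn A hA) hlogN.le))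
    _ = 4 / v * ∑ i₀ : Fin K, ∑ A ∈ (P ×ˢ (univ : Finset (Fin K))).powerset,
          lbH N L t₀ j j' A * (Real.log ((∏ p ∈ lb i₀ A, p : ℕ) : ℝ) / Real.log N) := by
        rw [← Finset.mul_sum, Finset.sum_comm]
        congr 1
        refine Finset.sum_congr rfl fun A hA => ?_
        rw [hlogpr A hA, Finset.sum_div, Finset.mul_sum]
    _ ≤ 4 / v * ∑ _i₀ : Fin K, ε * v * U2 P N L t₀ ^ (K - 2) / (4 * K) := by
        refine mul_le_mul_of_nonneg_left (Finset.sum_le_sum fun i₀ _ => ?_) (by positivity)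
        rw [le_div_iff₀ (by positivity), mul_comm]
        exact key i₀
    _ = ε * U2 P N L t₀ ^ (K - 2) := by
        rw [Finset.sum_const, card_univ, Fintype.card_fin, nsmul_eq_mul]
        field_simp

/-- sum over the sets containing `p` -/
private theorem lb_sum_mem {K : ℕ} (N L : ℕ) (P : Finset ℕ) (hP : ∀ p ∈ P, p.Prime) (t₀ : ℝ)
    (j j' i : Fin K) (p : ℕ) (hp : p ∈ P) :
    ∑ S ∈ P.powerset, lbh N L t₀ j j' i S * (if p ∈ S then 1 else 0) ≤
      gg p * ∑ S ∈ P.powerset, lbh N L t₀ j j' i S := by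
  have hnn : ∀ S ∈ P.powerset, 0 ≤ lbh N L t₀ j j' i S := fun S hS =>
    lbh_nn _ _ _ _ _ _ _ fun p hp => hP p (mem_powerset.1 hS hp)
  by_cases hij : i = j ∨ i = j'
  · rw [Finset.sum_eq_zero]
    · exact mul_nonneg (lb_gg (hP p hp)) (Finset.sum_nonneg fun S hS => hnn S hS)
    · intro S _
      unfold lbh
      rw [if_pos hij]
      by_cases hS : S = ∅
      · rw [hS, if_neg (notMem_empty p), mul_zero]
      · rw [if_neg hS, zero_mul]
  · have hPe : P = insert p (P.erase p) := (insert_erase hp).symm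
    have hnp : p ∉ P.erase p := notMem_erase p P
    have e1 : ∑ S ∈ P.powerset, lbh N L t₀ j j' i S * (if p ∈ S then 1 else 0) =
        ∑ S ∈ (P.erase p).powerset, lbh N L t₀ j j' i (insert p S) := by
      conv_lhs => rw [hPe]
      rw [Finset.sum_powerset_insert hnp]
      rw [Finset.sum_eq_zero (s := (P.erase p).powerset), zero_add]
      · refine Finset.sum_congr rfl fun S _ => ?_
        rw [if_pos (mem_insert_self p S), mul_one]
      · intro S hS
        rw [if_neg, mul_zero]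
        intro hc
        exact hnp (mem_powerset.1 hS hc)
    rw [e1]
    calc ∑ S ∈ (P.erase p).powerset, lbh N L t₀ j j' i (insert p S)
        ≤ ∑ S ∈ (P.erase p).powerset, gg p * lbh N L t₀ j j' i S := by
          refine Finset.sum_le_sum fun S hS => ?_
          have hpS : p ∉ S := fun hc => hnp (mem_powerset.1 hS hc)
          unfold lbh
          rw [if_neg hij, if_neg hij]
          have e3 : HH (insert p S) = gg p * HH S := by
            unfold HH
            rw [Finset.prod_insert hpS]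
          have e4 : pd S ≤ pd (insert p S) := by
            unfold pd
            rw [Finset.prod_insert hpS]
            exact Nat.le_mul_of_pos_left _ (hP p hp).pos
          rw [e3, mul_assoc]
          refine mul_le_mul_of_nonneg_left ?_ (lb_gg (hP p hp))
          refine mul_le_mul_of_nonneg_left ?_
            (lb_HH fun q hq => hP q (mem_of_mem_erase (mem_powerset.1 hS hq)))
          refine pow_le_pow_left₀ (yy_bd _ _ _ _).1 ?_ 2
          exact yy_anti N L t₀ _ _ e4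
      _ = gg p * ∑ S ∈ (P.erase p).powerset, lbh N L t₀ j j' i S := by rw [Finset.mul_sum]
      _ ≤ gg p * ∑ S ∈ P.powerset, lbh N L t₀ j j' i S := by
          refine mul_le_mul_of_nonneg_left ?_ (lb_gg (hP p hp))
          refine Finset.sum_le_sum_of_subset_of_nonneg
            (powerset_mono.2 (erase_subset _ _)) ?_
          intro S hS _
          exact hnn S hS

/-- the sets containing `p` with all labels of `T` -/
private theorem lb_T {K : ℕ} (N L : ℕ) (P : Finset ℕ) (hP : ∀ p ∈ P, p.Prime) (t₀ : ℝ)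
    (j j' : Fin K) (hj : j ≠ j') (p : ℕ) (hp : p ∈ P) (T : Finset (Fin K)) :
    ∑ A ∈ (P ×ˢ (univ : Finset (Fin K))).powerset,
        (if ∀ l ∈ T, (p, l) ∈ A then lbH N L t₀ j j' A else 0)
      ≤ (gg p) ^ #T * U2 P N L t₀ ^ (K - 2) := by
  have e1 : ∑ A ∈ (P ×ˢ (univ : Finset (Fin K))).powerset,
        (if ∀ l ∈ T, (p, l) ∈ A then lbH N L t₀ j j' A else 0) =
      ∏ i, ∑ S ∈ P.powerset, lbh N L t₀ j j' i S *
        (if i ∈ T then (if p ∈ S then 1 else 0) else 1) := by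
    rw [← prod_labels P (fun i S => lbh N L t₀ j j' i S *
        (if i ∈ T then (if p ∈ S then 1 else 0) else 1))]
    refine Finset.sum_congr rfl fun A _ => ?_
    rw [Finset.prod_mul_distrib]
    have e2 : (∏ i : Fin K, (if i ∈ T then (if p ∈ lb i A then (1 : ℝ) else 0) else 1)) =
        if (∀ l ∈ T, (p, l) ∈ A) then 1 else 0 := by
      split_ifs with h
      · refine Finset.prod_eq_one fun i _ => ?_
        split_ifs with h5 h6
        · rfl
        · exact absurd ((mem_lb A i p).2 (h i h5)) h6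
        · rfl
      · push Not at h
        obtain ⟨l, hl, hl2⟩ := h
        refine Finset.prod_eq_zero (mem_univ l) ?_
        rw [if_pos hl, if_neg]
        rwa [mem_lb]
    rw [e2]
    unfold lbH
    split_ifs
    · rw [mul_one]
    · rw [mul_zero]
  rw [e1]
  calc ∏ i, ∑ S ∈ P.powerset, lbh N L t₀ j j' i S *
        (if i ∈ T then (if p ∈ S then 1 else 0) else 1)
      ≤ ∏ i : Fin K, ((if i ∈ T then gg p else 1) *
          ∑ S ∈ P.powerset, lbh N L t₀ j j' i S) := by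
        refine Finset.prod_le_prod (fun i _ => ?_) (fun i _ => ?_)
        · refine Finset.sum_nonneg fun S hS => mul_nonneg
            (lbh_nn _ _ _ _ _ _ _ fun p hp => hP p (mem_powerset.1 hS hp)) ?_
          split_ifs <;> norm_num
        · by_cases h : i ∈ T
          · simp only [if_pos h]
            exact lb_sum_mem N L P hP t₀ j j' i p hp
          · simp only [if_neg h, mul_one, one_mul]
            exact le_refl _
    _ = (gg p) ^ #T * U2 P N L t₀ ^ (K - 2) := by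
        rw [Finset.prod_mul_distrib, prod_lbh_sum N L P t₀ j j' hj]
        congr 1
        rw [Finset.prod_ite_mem, Finset.univ_inter, Finset.prod_const]

private theorem lb_part2 {K : ℕ} (N L : ℕ) (P : Finset ℕ) (hP : ∀ p ∈ P, p.Prime) (t₀ : ℝ)
    (j j' : Fin K) (hj : j ≠ j') (hU : 0 ≤ U2 P N L t₀) :
    ∑ A ∈ (P ×ˢ (univ : Finset (Fin K))).powerset.filter (fun A => ¬ Lab A), lbH N L t₀ j j' A
      ≤ (K : ℝ) ^ 2 * (∑ p ∈ P, gg p ^ 2) * U2 P N L t₀ ^ (K - 2) := by
  have hcov : ∑ A ∈ (P ×ˢ (univ : Finset (Fin K))).powerset.filter (fun A => ¬ Lab A),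
      lbH N L t₀ j j' A ≤ ∑ x ∈ P ×ˢ ((univ ×ˢ univ : Finset (Fin K × Fin K)).filter
        (fun y => y.1 ≠ y.2)), ∑ A ∈ (P ×ˢ (univ : Finset (Fin K))).powerset,
          (if ∀ l ∈ ({x.2.1, x.2.2} : Finset (Fin K)), (x.1, l) ∈ A then lbH N L t₀ j j' A
            else 0) := by
    rw [Finset.sum_comm, Finset.sum_filter]
    refine Finset.sum_le_sum fun A hA => ?_
    have hnn : ∀ x ∈ P ×ˢ ((univ ×ˢ univ : Finset (Fin K × Fin K)).filter (fun y => y.1 ≠ y.2)),
        0 ≤ if (∀ l ∈ ({x.2.1, x.2.2} : Finset (Fin K)), (x.1, l) ∈ A) then lbH N L t₀ j j' A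
          else 0 := by
      intro x _
      split_ifs
      · exact lbH_nn _ _ _ _ _ P hP A hA
      · exact le_refl _
    split_ifs with hlab
    · exact Finset.sum_nonneg hnn
    · unfold Lab at hlab
      push Not at hlab
      obtain ⟨⟨p, i₁⟩, ha, ⟨q, i₂⟩, hb, hpq, hne⟩ := hlab
      simp only at hpq
      subst hpq
      have hne' : i₁ ≠ i₂ := fun hc => hne (by rw [hc])
      have hx : (p, (i₁, i₂)) ∈ P ×ˢ ((univ ×ˢ univ : Finset (Fin K × Fin K)).filter
          (fun y => y.1 ≠ y.2)) := by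
        rw [mem_product, mem_filter]
        exact ⟨(mem_product.1 (mem_powerset.1 hA ha)).1, mem_product.2 ⟨mem_univ _, mem_univ _⟩,
          hne'⟩
      refine le_trans (le_of_eq ?_) (Finset.single_le_sum hnn hx)
      rw [if_pos]
      intro l hl
      rw [mem_insert, mem_singleton] at hl
      rcases hl with h | h
      · rw [h]
        exact ha
      · rw [h]
        exact hb
  calc ∑ A ∈ (P ×ˢ (univ : Finset (Fin K))).powerset.filter (fun A => ¬ Lab A), lbH N L t₀ j j' A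
      ≤ _ := hcov
    _ ≤ ∑ x ∈ P ×ˢ ((univ ×ˢ univ : Finset (Fin K × Fin K)).filter (fun y => y.1 ≠ y.2)),
          (gg x.1) ^ 2 * U2 P N L t₀ ^ (K - 2) := by
        refine Finset.sum_le_sum fun x hx => ?_
        rw [mem_product, mem_filter] at hx
        have h1 := lb_T N L P hP t₀ j j' hj x.1 hx.1 {x.2.1, x.2.2}
        rw [card_pair hx.2.2] at h1
        exact h1
    _ = (#((univ ×ˢ univ : Finset (Fin K × Fin K)).filter (fun y => y.1 ≠ y.2)) : ℝ) *
          (∑ p ∈ P, (gg p) ^ 2) * U2 P N L t₀ ^ (K - 2) := by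
        rw [Finset.sum_product]
        simp only [Finset.sum_const, nsmul_eq_mul]
        rw [← Finset.mul_sum, ← Finset.sum_mul, mul_assoc]
    _ ≤ (K : ℝ) ^ 2 * (∑ p ∈ P, gg p ^ 2) * U2 P N L t₀ ^ (K - 2) := by
        refine mul_le_mul_of_nonneg_right ?_ (pow_nonneg hU _)
        refine mul_le_mul_of_nonneg_right ?_ (Finset.sum_nonneg fun p _ => by positivity)
        have : #((univ ×ˢ univ : Finset (Fin K × Fin K)).filter (fun y => y.1 ≠ y.2)) ≤ K ^ 2 := by
          refine (card_filter_le _ _).trans ?_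
          rw [card_product, card_univ, Fintype.card_fin, sq]
        exact_mod_cast this

private theorem lb_part3 {K : ℕ} (N L : ℕ) (P : Finset ℕ) (hP : ∀ p ∈ P, p.Prime) (t₀ : ℝ)
    (j j' : Fin K) (hj : j ≠ j') :
    ∑ A ∈ (P ×ˢ (univ : Finset (Fin K))).powerset, lbH N L t₀ j j' A * ∑ c ∈ A, gg c.1
      ≤ (K : ℝ) * (∑ p ∈ P, gg p ^ 2) * U2 P N L t₀ ^ (K - 2) := by
  have h1 : ∀ A ∈ (P ×ˢ (univ : Finset (Fin K))).powerset, lbH N L t₀ j j' A * ∑ c ∈ A, gg c.1 =
      ∑ c ∈ P ×ˢ (univ : Finset (Fin K)), gg c.1 *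
        (if ∀ l ∈ ({c.2} : Finset (Fin K)), (c.1, l) ∈ A then lbH N L t₀ j j' A else 0) := by
    intro A hA
    rw [mem_powerset] at hA
    rw [Finset.mul_sum, ← Finset.sum_subset hA]
    · refine Finset.sum_congr rfl fun c hc => ?_
      rw [if_pos]
      · ring
      · intro l hl
        rw [mem_singleton.1 hl]
        exact hc
    · intro c _ hc
      rw [if_neg, mul_zero]
      intro h
      exact hc (h c.2 (mem_singleton_self _))
  rw [Finset.sum_congr rfl h1, Finset.sum_comm]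
  calc ∑ c ∈ P ×ˢ (univ : Finset (Fin K)), ∑ A ∈ (P ×ˢ (univ : Finset (Fin K))).powerset,
        gg c.1 * (if ∀ l ∈ ({c.2} : Finset (Fin K)), (c.1, l) ∈ A then lbH N L t₀ j j' A else 0) ≤
      ∑ c ∈ P ×ˢ (univ : Finset (Fin K)), gg c.1 * (gg c.1 * U2 P N L t₀ ^ (K - 2)) := by
        refine Finset.sum_le_sum fun c hc => ?_
        have hcP := (mem_product.1 hc).1
        rw [← Finset.mul_sum]
        refine mul_le_mul_of_nonneg_left ?_ (lb_gg (hP _ hcP))
        have h2 := lb_T N L P hP t₀ j j' hj c.1 hcP {c.2}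
        rw [card_singleton, pow_one] at h2
        exact h2
    _ = _ := by
        rw [Finset.sum_product]
        simp only [Finset.sum_const, card_univ, Fintype.card_fin, nsmul_eq_mul]
        rw [← Finset.mul_sum, mul_assoc, Finset.sum_mul]
        congr 1
        refine Finset.sum_congr rfl fun p _ => ?_
        ring

private theorem lb_weier {ι : Type*} (A : Finset ι) (u d : ι → ℝ)
    (h0 : ∀ c ∈ A, 0 ≤ u c) (h1 : ∀ c ∈ A, u c ≤ 1) (hd : ∀ c ∈ A, 1 - d c ≤ u c) :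
    1 - ∑ c ∈ A, d c ≤ ∏ c ∈ A, u c := by
  classical
  induction A using Finset.induction_on with
  | empty => simp
  | insert a A ha ih =>
    rw [Finset.sum_insert ha, Finset.prod_insert ha]
    have i1 := ih (fun c hc => h0 c (mem_insert_of_mem hc)) (fun c hc => h1 c (mem_insert_of_mem hc))
      (fun c hc => hd c (mem_insert_of_mem hc))
    have i2 : 0 ≤ ∏ c ∈ A, u c := Finset.prod_nonneg fun c hc => h0 c (mem_insert_of_mem hc)
    have i3 : ∏ c ∈ A, u c ≤ 1 := Finset.prod_le_one (fun c hc => h0 c (mem_insert_of_mem hc))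
      fun c hc => h1 c (mem_insert_of_mem hc)
    have i4 := h1 a (mem_insert_self a A)
    have i5 := hd a (mem_insert_self a A)
    nlinarith

theorem tuple_ge2 {K : ℕ} (x L D₀ : ℕ) (P : Finset ℕ) (t₀ δ ε : ℝ) (i j : Fin K) (hij : i ≠ j)
    (hx : 2 ≤ x) (hP : ∀ p ∈ P, p.Prime ∧ D₀ < p) (hδ : 0 < δ) (hε : 0 < ε) (hε1 : ε ≤ 1)
    (h2 : 16 * (K : ℝ) ^ 2 ≤ ε * D₀) (h3 : 4 * K * U2t P x L t₀ ≤ ε * δ * U2 P x L t₀) :
    (1 - 2 * ε) * U2 P x L t₀ ^ (K - 2) ≤
      ∑ A ∈ (LS K P).filter (fun A => (∀ c ∈ A, c.2 ≠ i ∧ c.2 ≠ j) ∧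
          (pr A : ℝ) ≤ (x : ℝ) ^ (δ / 4)),
        (∏ l ∈ (univ.erase i).erase j, yy x L t₀ (pd (lb l A))) ^ 2 *
          (ga gg A * ∏ c ∈ A, ((1 - 1 / (c.1 : ℝ)) ^ 3 * (1 - K * gg c.1))) := by
  have hPp : ∀ p ∈ P, p.Prime := fun p hp => (hP p hp).1
  have hK : 1 ≤ K := lt_of_le_of_lt (Nat.zero_le _) i.2
  have hK' : (1 : ℝ) ≤ K := by exact_mod_cast hK
  have hD : (K : ℝ) ≤ D₀ ∧ (8 : ℝ) ≤ D₀ := by
    have h4 : (0 : ℝ) ≤ D₀ := Nat.cast_nonneg _
    have h5 : 16 * (K : ℝ) ^ 2 ≤ D₀ := by nlinarith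
    constructor <;> nlinarith
  have hD1 : 1 ≤ D₀ := by
    have : (1 : ℝ) ≤ D₀ := by linarith [hD.2]
    exact_mod_cast this
  have hD0 : (0 : ℝ) < D₀ := by linarith [hD.2]
  set V := U2 P x L t₀ with hV
  have hV0 : 0 ≤ V := by
    rw [hV]
    unfold U2
    exact Finset.sum_nonneg fun S hS => mul_nonneg
      (lb_HH fun p hp => hPp p (mem_powerset.1 hS hp)) (by positivity)
  have hVK : 0 ≤ V ^ (K - 2) := pow_nonneg hV0 _
  have hsum := sum_gg2 D₀ hD1 P fun p hp => (hP p hp).2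
  have hsum0 : 0 ≤ ∑ p ∈ P, gg p ^ 2 := Finset.sum_nonneg fun p _ => by positivity
  have p1 := lb_part1 x L P t₀ δ ε i j hij hx hPp hδ hε h3
  have p2 := lb_part2 x L P hPp t₀ i j hij hV0
  have p3 := lb_part3 x L P hPp t₀ i j hij
  rw [← hV] at p1 p2 p3
  have e0 : V ^ (K - 2) =
      ∑ A ∈ (P ×ˢ (univ : Finset (Fin K))).powerset, lbH x L t₀ i j A := by
    rw [hV, ← prod_lbh_sum x L P t₀ i j hij, ← prod_labels]
    rfl
  have hsplit : ∑ A ∈ (P ×ˢ (univ : Finset (Fin K))).powerset, lbH x L t₀ i j A ≤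
      ∑ A ∈ (LS K P).filter (fun A => (∀ a ∈ A, a.2 ≠ i ∧ a.2 ≠ j) ∧ (pr A : ℝ) ≤ (x : ℝ) ^ (δ / 4)),
        lbH x L t₀ i j A +
      ∑ A ∈ (P ×ˢ (univ : Finset (Fin K))).powerset.filter (fun A => ¬ Lab A), lbH x L t₀ i j A +
      ∑ A ∈ (P ×ˢ (univ : Finset (Fin K))).powerset.filter
        (fun A => ¬ (pr A : ℝ) ≤ (x : ℝ) ^ (δ / 4)), lbH x L t₀ i j A := by
    have e3 : (LS K P).filter (fun A => (∀ a ∈ A, a.2 ≠ i ∧ a.2 ≠ j) ∧ (pr A : ℝ) ≤ (x : ℝ) ^ (δ / 4)) =
        (P ×ˢ (univ : Finset (Fin K))).powerset.filter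
          (fun A => Lab A ∧ ((∀ a ∈ A, a.2 ≠ i ∧ a.2 ≠ j) ∧ (pr A : ℝ) ≤ (x : ℝ) ^ (δ / 4))) := by
      unfold LS
      rw [Finset.filter_filter]
    rw [e3, Finset.sum_filter, Finset.sum_filter, Finset.sum_filter, ← Finset.sum_add_distrib,
      ← Finset.sum_add_distrib]
    refine Finset.sum_le_sum fun A hA => ?_
    have hnn := lbH_nn x L t₀ i j P hPp A hA
    by_cases c1 : ∀ a ∈ A, a.2 ≠ i ∧ a.2 ≠ j
    · by_cases c2 : Lab A
      · by_cases c3 : (pr A : ℝ) ≤ (x : ℝ) ^ (δ / 4)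
        · rw [if_pos ⟨c2, c1, c3⟩, if_neg (not_not.2 c2), if_neg (not_not.2 c3)]
          linarith
        · rw [if_neg (fun h => c3 h.2.2), if_neg (not_not.2 c2), if_pos c3]
          linarith
      · rw [if_neg (fun h => c2 h.1), if_pos c2]
        split_ifs <;> linarith
    · rw [lbH_zero x L t₀ i j A c1]
      simp
  -- the factors
  have hfac : ∑ A ∈ (LS K P).filter (fun A => (∀ a ∈ A, a.2 ≠ i ∧ a.2 ≠ j) ∧ (pr A : ℝ) ≤ (x : ℝ) ^ (δ / 4)),
        lbH x L t₀ i j A - (K + 3) * ∑ A ∈ (P ×ˢ (univ : Finset (Fin K))).powerset,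
          lbH x L t₀ i j A * ∑ c ∈ A, gg c.1 ≤
      ∑ A ∈ (LS K P).filter (fun A => (∀ c ∈ A, c.2 ≠ i ∧ c.2 ≠ j) ∧ (pr A : ℝ) ≤ (x : ℝ) ^ (δ / 4)),
        (∏ l ∈ (univ.erase i).erase j, yy x L t₀ (pd (lb l A))) ^ 2 *
          (ga gg A * ∏ c ∈ A, ((1 - 1 / (c.1 : ℝ)) ^ 3 * (1 - K * gg c.1))) := by
    have h4 : ∀ A ∈ (LS K P).filter (fun A => (∀ c ∈ A, c.2 ≠ i ∧ c.2 ≠ j) ∧
        (pr A : ℝ) ≤ (x : ℝ) ^ (δ / 4)),
        lbH x L t₀ i j A - (K + 3) * (lbH x L t₀ i j A * ∑ c ∈ A, gg c.1) ≤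
        (∏ l ∈ (univ.erase i).erase j, yy x L t₀ (pd (lb l A))) ^ 2 *
          (ga gg A * ∏ c ∈ A, ((1 - 1 / (c.1 : ℝ)) ^ 3 * (1 - K * gg c.1))) := by
      intro A hA
      rw [mem_filter] at hA
      have hAp : A ∈ (P ×ˢ (univ : Finset (Fin K))).powerset := (mem_filter.1 hA.1).1
      have h5 := lbH_nn x L t₀ i j P hPp A hAp
      have h6 : 1 - ∑ c ∈ A, (K + 3) * gg c.1 ≤
          ∏ c ∈ A, ((1 - 1 / (c.1 : ℝ)) ^ 3 * (1 - K * gg c.1)) := by
        have hbd : ∀ c ∈ A, 0 ≤ gg c.1 ∧ K * gg c.1 ≤ 1 ∧ 1 / (c.1 : ℝ) ≤ gg c.1 ∧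
            gg c.1 ≤ 1 / 8 := by
          intro c hc
          have h7 := hP c.1 ((mem_LS.1 hA.1).1 c hc)
          have h8 : ((D₀ : ℝ) + 1) ≤ c.1 := by exact_mod_cast h7.2
          refine ⟨lb_gg h7.1, ?_, ?_, ?_⟩
          · unfold gg
            rw [mul_one_div, div_le_one (by linarith)]
            linarith [hD.1]
          · unfold gg
            exact one_div_le_one_div_of_le (by linarith) (by linarith)
          · unfold gg
            exact one_div_le_one_div_of_le (by norm_num) (by linarith [hD.2])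
        refine lb_weier A _ _ ?_ ?_ ?_
        · intro c hc
          obtain ⟨b1, b2, b3, b4⟩ := hbd c hc
          have b5 : 1 / (c.1 : ℝ) ≤ 1 := by linarith
          exact mul_nonneg (pow_nonneg (by linarith) 3) (by linarith)
        · intro c hc
          obtain ⟨b1, b2, b3, b4⟩ := hbd c hc
          have b5 : 0 ≤ 1 / (c.1 : ℝ) := by positivity
          have b55 : 1 / (c.1 : ℝ) ≤ 1 := by linarith
          have b6 : (1 - 1 / (c.1 : ℝ)) ^ 3 ≤ 1 := pow_le_one₀ (by linarith) (by linarith)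
          have b7 : 0 ≤ (1 - 1 / (c.1 : ℝ)) ^ 3 := pow_nonneg (by linarith) 3
          have b8 : 1 - K * gg c.1 ≤ 1 := by
            have : 0 ≤ K * gg c.1 := by positivity
            linarith
          have b9 : 0 ≤ 1 - K * gg c.1 := by linarith
          nlinarith
        · intro c hc
          obtain ⟨b1, b2, b3, b4⟩ := hbd c hc
          have b5 : 0 ≤ 1 / (c.1 : ℝ) := by positivity
          have b55 : 1 / (c.1 : ℝ) ≤ 1 := by linarith
          have b6 : 1 - 3 * gg c.1 ≤ (1 - 1 / (c.1 : ℝ)) ^ 3 := by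
            have e1 : (1 - 1 / (c.1 : ℝ)) ^ 3 = 1 - 3 * (1 / (c.1 : ℝ)) +
              (1 / (c.1 : ℝ)) ^ 2 * (3 - 1 / (c.1 : ℝ)) := by ring
            have e2 : 0 ≤ (1 / (c.1 : ℝ)) ^ 2 * (3 - 1 / (c.1 : ℝ)) :=
              mul_nonneg (by positivity) (by linarith)
            rw [e1]
            linarith
          have b9 : 0 ≤ 1 - K * gg c.1 := by linarith
          have b10 := mul_le_mul_of_nonneg_right b6 b9
          have b11 : 0 ≤ 3 * gg c.1 * (K * gg c.1) := by positivity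
          nlinarith
      rw [← Finset.mul_sum] at h6
      have h7 := mul_le_mul_of_nonneg_left h6 h5
      rw [lbH_eq x L t₀ i j hij A hA.2.1] at h7 ⊢
      linarith
    have h5 : ∑ A ∈ (LS K P).filter (fun A => (∀ a ∈ A, a.2 ≠ i ∧ a.2 ≠ j) ∧
        (pr A : ℝ) ≤ (x : ℝ) ^ (δ / 4)), lbH x L t₀ i j A * ∑ c ∈ A, gg c.1 ≤
        ∑ A ∈ (P ×ˢ (univ : Finset (Fin K))).powerset,
          lbH x L t₀ i j A * ∑ c ∈ A, gg c.1 := by
      refine Finset.sum_le_sum_of_subset_of_nonneg ?_ ?_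
      · intro A hA
        exact (mem_filter.1 (mem_filter.1 hA).1).1
      · intro A hA _
        refine mul_nonneg (lbH_nn x L t₀ i j P hPp A hA) (Finset.sum_nonneg fun c hc => ?_)
        exact lb_gg (hPp c.1 (mem_product.1 (mem_powerset.1 hA hc)).1)
    refine le_trans ?_ (Finset.sum_le_sum h4)
    rw [Finset.sum_sub_distrib, ← Finset.mul_sum]
    have h6 := mul_le_mul_of_nonneg_left h5 (show (0 : ℝ) ≤ K + 3 by linarith)
    linarith
  refine le_trans ?_ hfac
  have h9 : ((K : ℝ) ^ 2 + (K + 3) * K) * (∑ p ∈ P, gg p ^ 2) ≤ ε := by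
    have h10 : ((K : ℝ) ^ 2 + (K + 3) * K) ≤ 8 * K ^ 2 := by nlinarith
    calc ((K : ℝ) ^ 2 + (K + 3) * K) * (∑ p ∈ P, gg p ^ 2) ≤
        (8 * K ^ 2) * (2 / D₀) := mul_le_mul h10 hsum hsum0 (by positivity)
      _ = 16 * K ^ 2 / D₀ := by ring
      _ ≤ ε := by
        rw [div_le_iff₀ hD0]
        exact h2
  have h10 := mul_le_mul_of_nonneg_right h9 hVK
  have h11 := mul_le_mul_of_nonneg_left p3 (show (0 : ℝ) ≤ K + 3 by linarith)
  nlinarith

end Pool.Agent.Work.MP_70e905_nt.M3
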