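import Pool.Agent.Work.MP_70e905_nt.M3.Defs

set_option autoImplicit false

/-!
MODULE Y1 (one variable sums with `yv`), size M. Mathlib only.

Write `w = log n / (r log x) ≥ 0` for `n ≥ 1` (`pd S ≥ 1`), so `yv x r n = (1 - w)⁺ = ∫_0^1 1[n ≤ x^{r v}] dv` and
`yv² = ∫_0^1 2 (1 - v) 1[n ≤ x^{r v}] dv`. Hence `Nh P (yv) = ∫_0^1 Nz P (x^{r v}) dv` and
`Nh P (yv²) = ∫_0^1 2 (1 - v) Nz P (x^{r v}) dv` (finite sums of integrals of step functions; or use Riemann sums).
Insert `a r v ≤ Nz P (x^{r v}) ≤ A (r v + e)`: `∫ r v dv = r/2`, `∫ 2 (1-v) r v dv = r/3`.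
-/

namespace Pool.Agent.Work.MP_70e905_nt.M3

open Finset Pool.Agent.Work.MP_73869e_nt.TH Pool.Agent.Work.MP_70e905_nt.MT

private theorem y1_layer_int (g : ℝ → ℝ) (hg : Continuous g) (w a b : ℝ) (hab : a ≤ b) :
    IntervalIntegrable (fun v => if w ≤ v then g v else 0) MeasureTheory.volume a b := by
  have h1 : (fun v => if w ≤ v then g v else 0) = Set.indicator (Set.Ici w) g := by
    funext v
    rw [Set.indicator_apply]
    rfl
  rw [h1, intervalIntegrable_iff_integrableOn_Ioc_of_le hab]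
  have h2 := hg.intervalIntegrable (μ := MeasureTheory.volume) a b
  rw [intervalIntegrable_iff_integrableOn_Ioc_of_le hab] at h2
  exact h2.indicator measurableSet_Ici

private theorem y1_layer (g : ℝ → ℝ) (hg : Continuous g) (w v₀ : ℝ) (hv : v₀ ≤ 1) :
    ∫ v in v₀..1, (if w ≤ v then g v else 0) = ∫ v in (max v₀ (min w 1))..1, g v := by
  set m := max v₀ (min w 1) with hm
  have hm0 : v₀ ≤ m := le_max_left _ _
  have hm1 : m ≤ 1 := max_le hv (min_le_right _ _)
  rw [← intervalIntegral.integral_add_adjacent_intervals (b := m)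
    (y1_layer_int g hg w v₀ m hm0) (y1_layer_int g hg w m 1 hm1)]
  have h1 : ∫ v in v₀..m, (if w ≤ v then g v else 0) = ∫ v in v₀..m, (0 : ℝ) := by
    apply intervalIntegral.integral_congr_Ioo_of_le hm0
    intro v hv'
    have h2 : v < w := by
      have h3 : v < m := hv'.2
      have h4 : v < min w 1 := by
        by_contra h5
        push Not at h5
        have : m ≤ v := max_le hv'.1.le h5
        linarith
      exact lt_of_lt_of_le h4 (min_le_left _ _)
    show (if w ≤ v then g v else 0) = 0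
    rw [if_neg (not_le.2 h2)]
  have h2 : ∫ v in m..1, (if w ≤ v then g v else 0) = ∫ v in m..1, g v := by
    apply intervalIntegral.integral_congr_Ioo_of_le hm1
    intro v hv'
    have h3 : w ≤ v := by
      have h4 : min w 1 ≤ m := le_max_right _ _
      have h5 : min w 1 < v := lt_of_le_of_lt h4 hv'.1
      rcases min_choice w 1 with h6 | h6
      · rw [h6] at h5
        exact h5.le
      · rw [h6] at h5
        exact absurd hv'.2 (not_lt.2 h5.le)
    show (if w ≤ v then g v else 0) = g v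
    rw [if_pos h3]
  rw [h1, h2, intervalIntegral.integral_zero, zero_add]

private theorem y1_iff (S : Finset ℕ) (hS : ∀ p ∈ S, p.Prime) (x : ℕ) (hx : 2 ≤ x) (r : ℝ)
    (hr : 0 < r) (v : ℝ) :
    ((pd S : ℕ) : ℝ) ≤ (x : ℝ) ^ (r * v) ↔ Real.log (pd S) / (r * Real.log x) ≤ v := by
  have hxr : (2 : ℝ) ≤ x := by exact_mod_cast hx
  have hl : 0 < Real.log x := Real.log_pos (by linarith)
  have hpd : (0 : ℝ) < ((pd S : ℕ) : ℝ) := by
    have : 0 < pd S := Finset.prod_pos fun p hp => (hS p hp).pos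
    exact_mod_cast this
  rw [div_le_iff₀ (by positivity), ← Real.log_le_log_iff hpd (by positivity),
    Real.log_rpow (by linarith)]
  constructor <;> intro h <;> linarith

/-- the layer cake formula -/
theorem Y1_cake (P : Finset ℕ) (hP : ∀ p ∈ P, p.Prime) (x : ℕ) (hx : 2 ≤ x) (r : ℝ) (hr : 0 < r)
    (g : ℝ → ℝ) (hg : Continuous g) (v₀ : ℝ) (hv : v₀ ≤ 1) :
    IntervalIntegrable (fun v => g v * Nz P ((x : ℝ) ^ (r * v))) MeasureTheory.volume v₀ 1 ∧
    ∫ v in v₀..1, g v * Nz P ((x : ℝ) ^ (r * v)) =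
      ∑ S ∈ P.powerset, HH S *
        ∫ v in (max v₀ (min (Real.log (pd S) / (r * Real.log x)) 1))..1, g v := by
  have h1 : (fun v => g v * Nz P ((x : ℝ) ^ (r * v))) = fun v => ∑ S ∈ P.powerset,
      HH S * (if Real.log (pd S) / (r * Real.log x) ≤ v then g v else 0) := by
    funext v
    unfold Nz
    rw [Finset.sum_filter, Finset.mul_sum]
    refine Finset.sum_congr rfl fun S hS => ?_
    have h2 := y1_iff S (fun p hp => hP p (mem_powerset.1 hS hp)) x hx r hr v
    by_cases h3 : Real.log (pd S) / (r * Real.log x) ≤ v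
    · rw [if_pos h3, if_pos (h2.2 h3)]
      ring
    · rw [if_neg h3, if_neg (fun h => h3 (h2.1 h))]
      ring
  have h2 : ∀ S ∈ P.powerset, IntervalIntegrable (fun v : ℝ => HH S *
      (if Real.log (pd S) / (r * Real.log x) ≤ v then g v else 0)) MeasureTheory.volume v₀ 1 :=
    fun S _ => (y1_layer_int g hg _ v₀ 1 hv).const_mul _
  rw [h1]
  refine ⟨?_, ?_⟩
  · have h4 : (fun v : ℝ => ∑ S ∈ P.powerset,
        HH S * (if Real.log (pd S) / (r * Real.log x) ≤ v then g v else 0)) =
        ∑ S ∈ P.powerset, fun v : ℝ =>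
          HH S * (if Real.log (pd S) / (r * Real.log x) ≤ v then g v else 0) := by
      funext v
      rw [Finset.sum_apply]
    rw [h4]
    exact IntervalIntegrable.sum P.powerset h2
  rw [intervalIntegral.integral_finsetSum h2]
  refine Finset.sum_congr rfl fun S _ => ?_
  rw [intervalIntegral.integral_const_mul, y1_layer g hg _ v₀ hv]

theorem yv_bd (x : ℕ) (hx : 2 ≤ x) (r : ℝ) (hr : 0 < r) (n : ℕ) : 0 ≤ yv x r n ∧ yv x r n ≤ 1 := by
  have hxr : (2 : ℝ) ≤ x := by exact_mod_cast hx
  have hl : 0 < Real.log x := Real.log_pos (by linarith)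
  have h1 : 0 ≤ Real.log n / (r * Real.log x) := div_nonneg (Real.log_natCast_nonneg n) (by positivity)
  unfold yv
  exact ⟨le_max_left _ _, max_le zero_le_one (by linarith)⟩

private theorem y1_w_nonneg (x : ℕ) (hx : 2 ≤ x) (r : ℝ) (hr : 0 < r) (n : ℕ) :
    0 ≤ Real.log n / (r * Real.log x) := by
  have hxr : (2 : ℝ) ≤ x := by exact_mod_cast hx
  have hl : 0 < Real.log x := Real.log_pos (by linarith)
  exact div_nonneg (Real.log_natCast_nonneg n) (by positivity)

private theorem y1_yv (x : ℕ) (hx : 2 ≤ x) (r : ℝ) (hr : 0 < r) (n : ℕ) :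
    yv x r n = 1 - max 0 (min (Real.log n / (r * Real.log x)) 1) := by
  have h1 := y1_w_nonneg x hx r hr n
  unfold yv
  rcases le_total (Real.log n / (r * Real.log x)) 1 with h | h
  · rw [min_eq_left h, max_eq_right h1, max_eq_right (by linarith)]
  · rw [min_eq_right h, max_eq_right zero_le_one, max_eq_left (by linarith)]
    norm_num

theorem Nh_yv (P : Finset ℕ) (hP : ∀ p ∈ P, p.Prime) (x : ℕ) (hx : 2 ≤ x) (r a A e : ℝ) (hr : 0 < r)
    (ha : 0 ≤ a) (hA : 0 ≤ A) (he : 0 ≤ e)
    (hlow : ∀ t : ℝ, 0 ≤ t → t ≤ r → a * t ≤ Nz P ((x : ℝ) ^ t))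
    (hup : ∀ t : ℝ, 0 ≤ t → t ≤ r → Nz P ((x : ℝ) ^ t) ≤ A * (t + e)) :
    a * (r / 2) ≤ Nh P (yv x r) ∧ Nh P (yv x r) ≤ A * (r / 2 + e) ∧
      a * (r / 3) ≤ Nh P (fun n => yv x r n ^ 2) := by
  obtain ⟨i1, e1⟩ := Y1_cake P hP x hx r hr (fun _ => 1) continuous_const 0 zero_le_one
  obtain ⟨i2, e2⟩ := Y1_cake P hP x hx r hr (fun v => 2 * (1 - v)) (by fun_prop) 0 zero_le_one
  have f1 : Nh P (yv x r) = ∫ v in (0 : ℝ)..1, 1 * Nz P ((x : ℝ) ^ (r * v)) := by
    rw [e1]
    unfold Nh
    refine Finset.sum_congr rfl fun S _ => ?_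
    rw [y1_yv x hx r hr (pd S), intervalIntegral.integral_const, smul_eq_mul, mul_one]
  have f2 : Nh P (fun n => yv x r n ^ 2) =
      ∫ v in (0 : ℝ)..1, 2 * (1 - v) * Nz P ((x : ℝ) ^ (r * v)) := by
    rw [e2]
    unfold Nh
    refine Finset.sum_congr rfl fun S _ => ?_
    show HH S * yv x r (pd S) ^ 2 = _
    rw [y1_yv x hx r hr (pd S)]
    congr 1
    generalize max 0 (min (Real.log (pd S : ℕ) / (r * Real.log x)) 1) = m
    have h1 : ∫ v in m..1, 2 * (1 - v) = (1 - m) ^ 2 := by
      rw [intervalIntegral.integral_const_mul, intervalIntegral.integral_sub (by simp) (by simp)]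
      simp
      ring
    rw [h1]
  have g1 : ∀ v ∈ Set.Icc (0 : ℝ) 1, 0 ≤ r * v ∧ r * v ≤ r := by
    intro v hv
    exact ⟨mul_nonneg hr.le hv.1, mul_le_of_le_one_right hr.le hv.2⟩
  refine ⟨?_, ?_, ?_⟩
  · rw [f1]
    have h1 : a * (r / 2) = ∫ v in (0 : ℝ)..1, a * (r * v) := by
      rw [intervalIntegral.integral_const_mul, intervalIntegral.integral_const_mul, integral_id]
      ring
    rw [h1]
    refine intervalIntegral.integral_mono_on zero_le_one (by
      apply Continuous.intervalIntegrable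
      fun_prop) i1 fun v hv => ?_
    rw [one_mul]
    exact hlow _ (g1 v hv).1 (g1 v hv).2
  · rw [f1]
    have h1 : A * (r / 2 + e) = ∫ v in (0 : ℝ)..1, A * (r * v + e) := by
      rw [intervalIntegral.integral_const_mul, intervalIntegral.integral_add (by
        apply Continuous.intervalIntegrable
        fun_prop) (by simp), intervalIntegral.integral_const_mul, integral_id,
        intervalIntegral.integral_const]
      simp only [smul_eq_mul]
      ring
    rw [h1]
    refine intervalIntegral.integral_mono_on zero_le_one i1 (by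
      apply Continuous.intervalIntegrable
      fun_prop) fun v hv => ?_
    rw [one_mul]
    exact hup _ (g1 v hv).1 (g1 v hv).2
  · rw [f2]
    have h1 : a * (r / 3) = ∫ v in (0 : ℝ)..1, 2 * (1 - v) * (a * (r * v)) := by
      have h2 : (fun v : ℝ => 2 * (1 - v) * (a * (r * v))) =
          fun v => 2 * a * r * v - 2 * a * r * v ^ 2 := by
        funext v
        ring
      rw [h2, intervalIntegral.integral_sub (by
        apply Continuous.intervalIntegrable
        fun_prop) (by
        apply Continuous.intervalIntegrable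
        fun_prop), intervalIntegral.integral_const_mul, intervalIntegral.integral_const_mul]
      simp
      ring
    rw [h1]
    refine intervalIntegral.integral_mono_on zero_le_one (by
      apply Continuous.intervalIntegrable
      fun_prop) i2 fun v hv => ?_
    exact mul_le_mul_of_nonneg_left (hlow _ (g1 v hv).1 (g1 v hv).2) (by linarith [hv.2])

theorem yv_one (x : ℕ) (r : ℝ) : yv x r 1 = 1 := by
  unfold yv
  simp

theorem yv_anti (x : ℕ) (hx : 2 ≤ x) (r : ℝ) (hr : 0 < r) (m n : ℕ) (hm : 1 ≤ m) (hmn : m ≤ n) :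
    yv x r n ≤ yv x r m := by
  have hxr : (2 : ℝ) ≤ x := by exact_mod_cast hx
  have hl : 0 < Real.log x := Real.log_pos (by linarith)
  have hm' : (0 : ℝ) < m := by exact_mod_cast hm
  have h1 : Real.log m ≤ Real.log n := Real.log_le_log hm' (by exact_mod_cast hmn)
  unfold yv
  gcongr

theorem yv_supp (x : ℕ) (hx : 2 ≤ x) (r : ℝ) (hr : 0 < r) (n : ℕ) (h : yv x r n ≠ 0) :
    (n : ℝ) ≤ (x : ℝ) ^ r := by
  have hxr : (2 : ℝ) ≤ x := by exact_mod_cast hx
  have hl : 0 < Real.log x := Real.log_pos (by linarith)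
  rcases Nat.eq_zero_or_pos n with h0 | h0
  · subst h0
    simp
    positivity
  · have hn : (0 : ℝ) < n := by exact_mod_cast h0
    by_contra h1
    push Not at h1
    apply h
    unfold yv
    apply max_eq_left
    have h2 : r * Real.log x ≤ Real.log n := by
      rw [← Real.log_rpow (by linarith)]
      exact Real.log_le_log (by positivity) h1.le
    have h3 : 1 ≤ Real.log n / (r * Real.log x) := by
      rw [one_le_div (by positivity)]
      exact h2
    linarith

end Pool.Agent.Work.MP_70e905_nt.M3
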