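import Pool.Agent.Work.MP_70e905_nt.M3.Defs
import Pool.Agent.Work.MP_70e905_nt.M3.LA
import Pool.Agent.Work.MP_70e905_nt.M3.LB
import Pool.Agent.Work.MP_70e905_nt.M3.H1
import Pool.Agent.Work.MP_70e905_nt.M3.H2
import Pool.Agent.Work.MP_70e905_nt.M3.Y1
import Pool.Agent.Work.MP_70e905_nt.M3.N2
import Pool.Agent.Work.MP_70e905_nt.M3.N3
import Pool.Agent.Work.MP_70e905_nt.MT.M0
import Pool.Agent.Work.MP_70e905_nt.MT.A6

set_option autoImplicit false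

/-!
MODULE LC (main term of the lower bound sieve, first part), size M-L.

`Pz = Q c W (1/8)`, `P = c.P W δ = Q c W δ ⊆ Pz`, `r = 249/2000`, `h = yv x r`, `V = Yh P Pz h j Z`, `Z = Zij`. `Ex_lower` (TH/T02,
`K gg p ≤ 1` since `p - 1 ≥ D₀ ≥ K`) and `sum_Yh` (H2) with `k p = gg p * (1 - K gg p)` (for `A ∈ LS`: `ga gg A = ∏ gg`):
`Ex ≥ ∑_{A ∈ LS K P} Z(A)² ∏_{c ∈ A} gg (1 - K gg) * I(A)`,
`I(A) = (∑_{S ⊆ Pz \ E} ∏_{p ∈ S} (gg (1 - K gg)) h(pd S)²) / (Nh (Pz \ E) h)²`, `E = A.image fst`. Keep the `A` without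
labels `i, j` and with `pr A ≤ x^(δ/4)` (then `pd E = pr A ≤ x^δ`, `E ⊆ Q c W 1`).
`Z(A)² ≥ (1 - 1/D₀)² (∏ yy)² rt(E)^4 U1^4` (LA). Numerator of `I`: `Nh_in` (H1; `∑ gg² ≤ 2/D₀`) and `Nh_sdiff` for `h²`:
`≥ (1 - 2K/D₀) rt(E) Nh Pz (h²) ≥ (1 - 2K/D₀) rt(E) κ lx r/3` (Nh_yv with `a = κ lx`, `Nz_lowt`, `E = ∅`).
Denominator: `Nh (Pz \ E) h ≤ A₁ (r/2 + δ + 10^-6)` with `A₁ = (1 + 10^-6) κ rt(E) lx` (`Nh_yv` for `P := Pz \ E`, `hup` from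
`Nz_sharp` with `ε = 10^-6`, `d = δ`, `u = 1/8`). So
`Ex ≥ (1 - 1/D₀)² (1 - 2K/D₀) (r/3) / ((1 + 10^-6)² (r/2 + δ + 10^-6)²) * U1^4 / (κ lx) * ∑_A (∏ yy)² ga gg A ∏ (rt³ (1 - K gg))`
and the last sum is `≥ (1 - 2·10^-6) U2^(K-2)` (`tuple_ge2`, `ε = 10^-6`; `Conc` and `Par` with `e ≤ 10^-6`;
`rt(E)³ = ∏_{c ∈ A} (1 - 1/c.1)³`). Numerically `(r/3)/(r/2)² = 4/(3r) = 10.7095`, `D₀ ≥ 16·10^6 K²`, `δ ≤ 10^-6`; total
factor `≥ 10.708 > 107/10`.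
-/

namespace Pool.Agent.Work.MP_70e905_nt.M3

open Finset Pool.Agent.Work.MP_73869e_nt.TH Pool.Agent.Work.MP_70e905_nt.MT

private theorem lc_rt_pos (E : Finset ℕ) (hE : ∀ p ∈ E, p.Prime) : 0 < rt E := by
  unfold rt
  refine Finset.prod_pos fun p hp => ?_
  have h1 : (1 : ℝ) < p := by exact_mod_cast (hE p hp).one_lt
  have h2 : 1 / (p : ℝ) < 1 := by
    rw [div_lt_one (by linarith)]
    exact h1
  linarith

private theorem lc_kappa {K : ℕ} (c : Cfg K) (W : ℕ) : 0 < c.κ W :=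
  lc_rt_pos _ fun _ hp => (Finset.mem_filter.1 hp).2.1

private theorem lc_num {D κ δ : ℝ} (hD : 64 * 10 ^ 6 ≤ D) (hκ1 : κ ≤ 1 / 10 ^ 7)
    (hδ0 : 0 ≤ δ) (hδ : δ ≤ 1 / 10 ^ 6) :
    107 / 10 ≤ (1 - 1 / D) ^ 2 * ((1 - κ) * (249 / 2000 / 3)) /
      ((1 + 1 / 10 ^ 6) * (249 / 2000 / 2 + (δ / 4 + 1 / 10 ^ 6))) ^ 2 * (1 - 2 * (1 / 10 ^ 6)) := by
  have hD0 : (0 : ℝ) < D := by linarith
  have h1 : 1 / D ≤ 1 / (64 * 10 ^ 6) := one_div_le_one_div_of_le (by norm_num) hD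
  have h10 : 0 ≤ 1 / D := by positivity
  set y := 1 / D with hy
  have h2 : 0 < (1 + 1 / (10 : ℝ) ^ 6) * (249 / 2000 / 2 + (δ / 4 + 1 / 10 ^ 6)) := by positivity
  have h3 : (1 + 1 / (10 : ℝ) ^ 6) * (249 / 2000 / 2 + (δ / 4 + 1 / 10 ^ 6)) ≤
      (1 + 1 / (10 : ℝ) ^ 6) * (249 / 2000 / 2 + (1 / 10 ^ 6 / 4 + 1 / 10 ^ 6)) := by
    refine mul_le_mul_of_nonneg_left ?_ (by norm_num)
    linarith
  have h4 : ((1 + 1 / (10 : ℝ) ^ 6) * (249 / 2000 / 2 + (δ / 4 + 1 / 10 ^ 6))) ^ 2 ≤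
      ((1 + 1 / (10 : ℝ) ^ 6) * (249 / 2000 / 2 + (1 / 10 ^ 6 / 4 + 1 / 10 ^ 6))) ^ 2 :=
    pow_le_pow_left₀ h2.le h3 2
  have h5 : 0 < ((1 + 1 / (10 : ℝ) ^ 6) * (249 / 2000 / 2 + (δ / 4 + 1 / 10 ^ 6))) ^ 2 := by
    positivity
  have h6 : (1 - 1 / (64 * (10 : ℝ) ^ 6)) ^ 2 ≤ (1 - y) ^ 2 := by
    refine pow_le_pow_left₀ (by norm_num) (by linarith) 2
  have h7 : (1 - 1 / (64 * (10 : ℝ) ^ 6)) ^ 2 * ((1 - 1 / 10 ^ 7) * (249 / 2000 / 3)) ≤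
      (1 - y) ^ 2 * ((1 - κ) * (249 / 2000 / 3)) := by
    refine mul_le_mul h6 ?_ (by norm_num) (by positivity)
    refine mul_le_mul_of_nonneg_right (by linarith) (by norm_num)
  rw [div_mul_eq_mul_div, le_div_iff₀ h5]
  calc 107 / 10 * ((1 + 1 / (10 : ℝ) ^ 6) * (249 / 2000 / 2 + (δ / 4 + 1 / 10 ^ 6))) ^ 2 ≤
      107 / 10 * ((1 + 1 / (10 : ℝ) ^ 6) * (249 / 2000 / 2 + (1 / 10 ^ 6 / 4 + 1 / 10 ^ 6))) ^ 2 :=
        mul_le_mul_of_nonneg_left h4 (by norm_num)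
    _ ≤ (1 - 1 / (64 * (10 : ℝ) ^ 6)) ^ 2 * ((1 - 1 / 10 ^ 7) * (249 / 2000 / 3)) *
          (1 - 2 * (1 / 10 ^ 6)) := by norm_num
    _ ≤ _ := mul_le_mul_of_nonneg_right h7 (by norm_num)

theorem Ta_low (K L D₀ : ℕ) (s δ t₀ e : ℝ) (hpar : Par K L D₀ s δ t₀ e) (he6 : e ≤ 1 / 10 ^ 6)
    (W A₀ C : ℕ) : ∃ X₀ : ℕ, ∀ c : Cfg K, c.Ok D₀ W A₀ C → X₀ ≤ c.x → Conc c W L δ t₀ e →
      ∀ i j : Fin K, i ≠ j →
      107 / 10 * Um c W L δ t₀ ≤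
        Ex gg (Q c W (1 / 8)) (fun ω => (ff gg (Q c W (1 / 8))
          (Yh (c.P W δ) (Q c W (1 / 8)) (yv c.x (249 / 2000)) j (Zij c W L δ t₀ i j)) ω) ^ 2) := by
  obtain ⟨X₁, hX₁⟩ := Nz_sharp (1 / 10 ^ 6) (by norm_num) (by norm_num) K D₀ W A₀ C
  refine ⟨max X₁ 2, fun c hc hx hconc i j hij => ?_⟩
  have hx1 : X₁ ≤ c.x := (le_max_left _ _).trans hx
  have hx2 : 2 ≤ c.x := (le_max_right _ _).trans hx
  have hx11 : 1 ≤ c.x := by omega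
  have hxr : (2 : ℝ) ≤ c.x := by exact_mod_cast hx2
  have hxr1 : (1 : ℝ) ≤ c.x := by linarith
  set lx := Real.log c.x with hlx
  have hl0 : 0 < lx := Real.log_pos (by linarith)
  have hKr : (2 : ℝ) ≤ K := by exact_mod_cast hpar.hK
  have hδ0 := hpar.hδ
  have hδ6 : δ ≤ 1 / 10 ^ 6 := hpar.hδe.trans he6
  have hD : 16 * (K : ℝ) ^ 2 ≤ 1 / 10 ^ 6 * D₀ :=
    hpar.hD.trans (mul_le_mul_of_nonneg_right he6 (Nat.cast_nonneg _))
  have hD64 : (64 * 10 ^ 6 : ℝ) ≤ D₀ := by nlinarith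
  have hD0 : (0 : ℝ) < D₀ := by linarith
  have hD1 : 1 ≤ D₀ := by
    have : (1 : ℝ) ≤ D₀ := by linarith
    exact_mod_cast this
  have hDK : (K : ℝ) ≤ D₀ := by nlinarith
  have hDK2 : (K : ℝ) * 2 ≤ 1 / 10 ^ 7 * D₀ := by nlinarith
  have hδ1 : δ ≤ 1 := by linarith
  set P := c.P W δ with hPdef
  set Pz := Q c W (1 / 8) with hPz
  have hPp : ∀ p ∈ P, p.Prime ∧ D₀ < p := fun p hp => by
    have := Q_props c D₀ W A₀ C δ hc hx11 p hp
    exact ⟨this.1, this.2.1⟩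
  have hPzp : ∀ p ∈ Pz, p.Prime ∧ D₀ < p := fun p hp => by
    have := Q_props c D₀ W A₀ C (1 / 8) hc hx11 p hp
    exact ⟨this.1, this.2.1⟩
  have hsub : ∀ u : ℝ, δ ≤ u → P ⊆ Q c W u := by
    intro u hu p hp
    have h1 := (Q_mem c D₀ W A₀ C δ hc hx11 p).1 hp
    rw [Q_mem c D₀ W A₀ C u hc hx11]
    exact ⟨h1.1.trans (Real.rpow_le_rpow_of_exponent_le hxr1 hu), h1.2⟩
  have hPPz : P ⊆ Pz := hsub _ (by linarith)
  have hgg : ∀ p ∈ Pz, 0 ≤ gg p ∧ K * gg p ≤ 1 := by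
    intro p hp
    have h1 : (D₀ : ℝ) + 1 ≤ p := by exact_mod_cast (hPzp p hp).2
    unfold gg
    constructor
    · apply div_nonneg zero_le_one
      linarith
    · rw [mul_one_div, div_le_one (by linarith)]
      linarith
  set κ := c.κ W with hκdef
  have hκ : 0 < κ := lc_kappa c W
  set h := yv c.x (249 / 2000) with hh
  set Z := Zij c W L δ t₀ i j with hZdef
  have hr : (0 : ℝ) < 249 / 2000 := by norm_num
  have s1 := Ex_lower gg Pz hgg (Yh P Pz h j Z)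
  refine le_trans ?_ s1
  have hZj : ∀ A, (∃ a ∈ A, a.2 = j) → Z A = 0 := fun A hA => Zj_zero _ j _ A hA
  have s2 : ∑ A ∈ LS K Pz, Yh P Pz h j Z A ^ 2 * ga gg A * ∏ a ∈ A, (1 - K * gg a.1) =
      ∑ A ∈ LS K P, (Z A) ^ 2 * (∏ a ∈ A, gg a.1 * (1 - K * gg a.1)) *
        ((∑ S ∈ (Pz \ A.image Prod.fst).powerset, (∏ p ∈ S, gg p * (1 - K * gg p)) *
          h (pd S) ^ 2) / Nh (Pz \ A.image Prod.fst) h ^ 2) := by
    rw [← sum_Yh P Pz hPPz (fun p hp => (hPzp p hp).1) h (fun p => gg p * (1 - K * gg p)) j Z hZj]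
    refine Finset.sum_congr rfl fun A _ => ?_
    unfold ga
    rw [mul_assoc, ← Finset.prod_mul_distrib]
  rw [s2]
  set U₁ := U1 P c.x L t₀ with hU1
  set U₂ := U2 P c.x L t₀ with hU2
  have hU10 : 0 ≤ U₁ := le_trans zero_le_one
    (U_ge_one P (fun p hp => (hPp p hp).1) c.x L t₀ hx11 hpar.hL hpar.ht₀.le).1
  have hU20 : 0 ≤ U₂ := le_trans zero_le_one
    (U_ge_one P (fun p hp => (hPp p hp).1) c.x L t₀ hx11 hpar.hL hpar.ht₀.le).2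
  -- the constants
  set ε : ℝ := 1 / 10 ^ 6 with hε
  set κ' : ℝ := K * (2 / D₀) with hκ'
  have hκ'0 : 0 ≤ κ' := by positivity
  have hκ'1 : κ' ≤ 1 / 10 ^ 7 := by
    rw [hκ', mul_div_assoc', div_le_iff₀ hD0]
    exact hDK2
  set M : ℝ := ((1 + ε) * (249 / 2000 / 2 + (δ / 4 + ε))) ^ 2 with hM
  have hM0 : 0 < M := by positivity
  set G : ℝ := (1 - 1 / (D₀ : ℝ)) ^ 2 * ((1 - κ') * (249 / 2000 / 3)) / M with hG
  have hG0 : 0 ≤ G := by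
    have : 0 ≤ 1 - κ' := by linarith
    positivity
  have hkey : ∀ A ∈ (LS K P).filter (fun A => (∀ a ∈ A, a.2 ≠ i ∧ a.2 ≠ j) ∧
      (pr A : ℝ) ≤ (c.x : ℝ) ^ (δ / 4)),
      G * (U₁ ^ 4 / (κ * lx)) * ((∏ l ∈ (univ.erase i).erase j, yy c.x L t₀ (pd (lb l A))) ^ 2 *
        (ga gg A * ∏ a ∈ A, ((1 - 1 / (a.1 : ℝ)) ^ 3 * (1 - K * gg a.1)))) ≤
      (Z A) ^ 2 * (∏ a ∈ A, gg a.1 * (1 - K * gg a.1)) *
        ((∑ S ∈ (Pz \ A.image Prod.fst).powerset, (∏ p ∈ S, gg p * (1 - K * gg p)) *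
          h (pd S) ^ 2) / Nh (Pz \ A.image Prod.fst) h ^ 2) := by
    intro A hA
    rw [mem_filter] at hA
    obtain ⟨hALS, hAi, hApr⟩ := hA
    have hA1 := mem_LS.1 hALS
    set E := A.image Prod.fst with hE
    have hEP : E ⊆ P := by
      intro p hp
      obtain ⟨a, ha, rfl⟩ := mem_image.1 hp
      exact hA1.1 a ha
    have hEp : ∀ p ∈ E, p.Prime := fun p hp => (hPp p (hEP hp)).1
    have hpd : pd E = pr A := by
      unfold pd pr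
      rw [hE, Finset.prod_image]
      intro a ha b hb hab
      exact hA1.2 a ha b hb hab
    have hrE := lc_rt_pos E hEp
    have hrtE : rt E = ∏ a ∈ A, (1 - 1 / (a.1 : ℝ)) := by
      unfold rt
      rw [hE, Finset.prod_image]
      intro a ha b hb hab
      exact hA1.2 a ha b hb hab
    -- the coefficients
    have hZ1 := ZZ_geU c.x L D₀ P t₀ δ i j hij hx2 hD1 hPp hpar.ht₀ hpar.hLδ A hALS hAi hApr
    set Y := ∏ l ∈ (univ.erase i).erase j, yy c.x L t₀ (pd (lb l A)) with hY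
    have hY0 : 0 ≤ Y := Finset.prod_nonneg fun l _ => (yy_bd _ _ _ _).1
    have hd1 : 0 ≤ 1 - 1 / (D₀ : ℝ) := by
      have : 1 / (D₀ : ℝ) ≤ 1 := by
        rw [div_le_one hD0]
        linarith
      linarith
    have hZ2 : ((1 - 1 / (D₀ : ℝ)) * (Y * (rt E * U₁) ^ 2)) ^ 2 ≤ (Z A) ^ 2 :=
      pow_le_pow_left₀ (by positivity) hZ1 2
    -- the sums over the label j
    have hny := Nh_yv (Pz \ E) (fun p hp => (hPzp p (mem_sdiff.1 hp).1).1) c.x hx2 (249 / 2000)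
      (κ * rt E * lx) ((1 + ε) * (κ * rt E) * lx) (δ / 4 + ε) hr (by positivity) (by positivity)
      (by positivity)
      (fun t ht htr => by
        have := Nz_lowt c W t (1 / 8) hx11 ht (by linarith) (by norm_num) E hEp
        refine le_trans (le_of_eq ?_) this
        rw [← hκdef, ← hlx]
        ring)
      (fun t ht htr => by
        have := hX₁ c hc hx1 (δ / 4) (1 / 8) t (by linarith) (by linarith) (by norm_num) ht
          (by linarith) E (hEP.trans (hsub 1 (by linarith))) (by rw [hpd]; exact hApr)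
        refine this.trans (le_of_eq ?_)
        rw [← hκdef, ← hlx]
        ring)
    obtain ⟨-, hny2, hny3⟩ := hny
    have hnum : (1 - κ') * (κ * rt E * lx * (249 / 2000 / 3)) ≤
        ∑ S ∈ (Pz \ E).powerset, (∏ p ∈ S, gg p * (1 - K * gg p)) * h (pd S) ^ 2 := by
      have h1 := Nh_in K (Pz \ E) (fun p hp => ⟨(hPzp p (mem_sdiff.1 hp).1).1,
        (hgg p (mem_sdiff.1 hp).1).2⟩) (fun n => h n ^ 2) (fun n => sq_nonneg _)
        (fun m n hm hmn => pow_le_pow_left₀ (yv_bd c.x hx2 _ hr n).1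
          (yv_anti c.x hx2 _ hr m n hm hmn) 2)
      have h2 := sum_gg2 D₀ hD1 (Pz \ E) fun p hp => (hPzp p (mem_sdiff.1 hp).1).2
      refine le_trans ?_ h1
      have h3 : 1 - κ' ≤ 1 - K * ∑ p ∈ Pz \ E, gg p ^ 2 := by
        have := mul_le_mul_of_nonneg_left h2 (by positivity : (0 : ℝ) ≤ K)
        rw [hκ']
        linarith
      have h4 : 0 ≤ κ * rt E * lx * (249 / 2000 / 3) := by positivity
      exact mul_le_mul h3 hny3 h4 (by linarith)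
    have hden : 0 < Nh (Pz \ E) h := lt_of_lt_of_le zero_lt_one
      (Nh_one _ (fun p hp => (hPzp p (mem_sdiff.1 hp).1).1) h (fun n => (yv_bd c.x hx2 _ hr n).1)
        (yv_one c.x _))
    have hden2 : Nh (Pz \ E) h ^ 2 ≤ M * (κ * rt E * lx) ^ 2 := by
      have h1 := pow_le_pow_left₀ hden.le hny2 2
      refine h1.trans (le_of_eq ?_)
      rw [hM]
      ring
    have hI : (1 - κ') * (249 / 2000 / 3) / (M * (κ * rt E * lx)) ≤
        (∑ S ∈ (Pz \ E).powerset, (∏ p ∈ S, gg p * (1 - K * gg p)) * h (pd S) ^ 2) /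
          Nh (Pz \ E) h ^ 2 := by
      have h0 : 0 ≤ 1 - κ' := by linarith
      rw [div_le_div_iff₀ (by positivity) (by positivity)]
      calc (1 - κ') * (249 / 2000 / 3) * Nh (Pz \ E) h ^ 2 ≤
          (1 - κ') * (249 / 2000 / 3) * (M * (κ * rt E * lx) ^ 2) :=
            mul_le_mul_of_nonneg_left hden2 (by positivity)
        _ = (1 - κ') * (κ * rt E * lx * (249 / 2000 / 3)) * (M * (κ * rt E * lx)) := by ring
        _ ≤ _ := mul_le_mul_of_nonneg_right hnum (by positivity)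
    have hk0 : 0 ≤ ∏ a ∈ A, gg a.1 * (1 - K * gg a.1) := Finset.prod_nonneg fun a ha => by
      obtain ⟨g1, g2⟩ := hgg a.1 (hPPz (hA1.1 a ha))
      exact mul_nonneg g1 (by linarith)
    have hprod : ga gg A * ∏ a ∈ A, ((1 - 1 / (a.1 : ℝ)) ^ 3 * (1 - K * gg a.1)) =
        rt E ^ 3 * ∏ a ∈ A, gg a.1 * (1 - K * gg a.1) := by
      unfold ga
      rw [hrtE, ← Finset.prod_mul_distrib, ← Finset.prod_pow, ← Finset.prod_mul_distrib]
      refine Finset.prod_congr rfl fun a _ => ?_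
      ring
    rw [hprod]
    calc G * (U₁ ^ 4 / (κ * lx)) * (Y ^ 2 * (rt E ^ 3 * ∏ a ∈ A, gg a.1 * (1 - K * gg a.1)))
        = ((1 - 1 / (D₀ : ℝ)) * (Y * (rt E * U₁) ^ 2)) ^ 2 *
          (∏ a ∈ A, gg a.1 * (1 - K * gg a.1)) *
            ((1 - κ') * (249 / 2000 / 3) / (M * (κ * rt E * lx))) := by
          generalize (∏ a ∈ A, gg a.1 * (1 - (K : ℝ) * gg a.1)) = Pk
          rw [hG]
          field_simp
      _ ≤ _ := by
          have h0 : 0 ≤ 1 - κ' := by linarith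
          exact mul_le_mul (mul_le_mul_of_nonneg_right hZ2 hk0) hI (by positivity)
            (mul_nonneg (sq_nonneg _) hk0)
  have hnn : ∀ A ∈ LS K P, 0 ≤ (Z A) ^ 2 * (∏ a ∈ A, gg a.1 * (1 - K * gg a.1)) *
        ((∑ S ∈ (Pz \ A.image Prod.fst).powerset, (∏ p ∈ S, gg p * (1 - K * gg p)) *
          h (pd S) ^ 2) / Nh (Pz \ A.image Prod.fst) h ^ 2) := by
    intro A hA
    refine mul_nonneg (mul_nonneg (sq_nonneg _) ?_) (div_nonneg ?_ (sq_nonneg _))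
    · exact Finset.prod_nonneg fun a ha => by
        obtain ⟨g1, g2⟩ := hgg a.1 (hPPz ((mem_LS.1 hA).1 a ha))
        exact mul_nonneg g1 (by linarith)
    · refine Finset.sum_nonneg fun S hS => mul_nonneg ?_ (sq_nonneg _)
      exact Finset.prod_nonneg fun p hp => by
        obtain ⟨g1, g2⟩ := hgg p (mem_sdiff.1 (mem_powerset.1 hS hp)).1
        exact mul_nonneg g1 (by linarith)
  have hconc' : 4 * K * U2t P c.x L t₀ ≤ ε * δ * U₂ := by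
    refine hconc.trans ?_
    have := mul_le_mul_of_nonneg_right (mul_le_mul_of_nonneg_right he6 hδ0.le) hU20
    exact this
  have s3 := tuple_ge2 c.x L D₀ P t₀ δ ε i j hij hx2 hPp hδ0 (by norm_num) (by norm_num) hD hconc'
  calc 107 / 10 * Um c W L δ t₀ ≤ (G * (1 - 2 * ε)) * Um c W L δ t₀ := by
        refine mul_le_mul_of_nonneg_right ?_ ?_
        · exact lc_num hD64 hκ'1 hδ0.le hδ6
        · unfold Um
          positivity
    _ = G * (U₁ ^ 4 / (κ * lx)) * ((1 - 2 * ε) * U₂ ^ (K - 2)) := by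
        unfold Um
        rw [← hU1, ← hU2, ← hκdef, ← hlx]
        ring
    _ ≤ G * (U₁ ^ 4 / (κ * lx)) * _ := mul_le_mul_of_nonneg_left s3 (by positivity)
    _ = ∑ A ∈ (LS K P).filter (fun A => (∀ a ∈ A, a.2 ≠ i ∧ a.2 ≠ j) ∧
      (pr A : ℝ) ≤ (c.x : ℝ) ^ (δ / 4)),
      G * (U₁ ^ 4 / (κ * lx)) * ((∏ l ∈ (univ.erase i).erase j, yy c.x L t₀ (pd (lb l A))) ^ 2 *
        (ga gg A * ∏ a ∈ A, ((1 - 1 / (a.1 : ℝ)) ^ 3 * (1 - K * gg a.1)))) := by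
        rw [Finset.mul_sum]
    _ ≤ _ := Finset.sum_le_sum hkey
    _ ≤ _ := Finset.sum_le_sum_of_subset_of_nonneg (filter_subset _ _) fun A hA _ => hnn A hA

end Pool.Agent.Work.MP_70e905_nt.M3
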