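import Pool.Agent.Work.MP_70e905_nt.M3.Defs
import Pool.Agent.Work.MP_70e905_nt.MT.A1
import Pool.Agent.Work.MP_73869e_nt.TH.T01

set_option autoImplicit false

/-!
MODULE LD (outcomes containing `(p, j)`), size M.

Let `ω = om P a b z ∈ LS K P` (`om_LS`), `ω' = om (P.erase p) a b z = ω.filter (c.1 ≠ p)`; `(p, j) ∈ ω`, and no other label at `p`.
`sum_LS_insert` (TH/T01) for `insert p (P.erase p) = P`: `ff gg P V ω = ∑_{A ∈ LS K (P.erase p)} (V A xx(A, ω) +
∑_l V (insert (p, l) A) xx (insert (p,l) A, ω))`, `xx gg A ω = xx gg A ω'` for `A ∈ LS K (P.erase p)`, and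
`xx gg (insert (p, l) A) ω = (gg p - 1[l = j]) xx gg A ω'` (`(p,l) ∉ A`). So the coefficient of `xx gg A ω'` is
`V A + gg p ∑_l V (insert (p, l) A) - V (insert (p, j) A) = Vd V p j A`.
-/

namespace Pool.Agent.Work.MP_70e905_nt.M3

open Finset Pool.Agent.Work.MP_73869e_nt.TH Pool.Agent.Work.MP_70e905_nt.MT

theorem drop_p {K : ℕ} (P : Finset ℕ) (p : ℕ) (hp : p ∈ P) (j : Fin K) (V : Finset (ℕ × Fin K) → ℝ)
    (a b : Fin K → ℕ) (hbd : ∀ q ∈ P, ¬ bd a b q) (z : ℕ) (hd : p ∣ a j * z + b j) :
    ff gg P V (om P a b z) = ff gg (P.erase p) (Vd V p j) (om (P.erase p) a b z) := by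
  have hne : p ∉ P.erase p := notMem_erase p P
  have hω : (p, j) ∈ om P a b z := (mem_om P a b z (p, j)).2 ⟨hp, hd⟩
  have hLS := om_LS P a b hbd z
  have huniq : ∀ l, (p, l) ∈ om P a b z ↔ l = j := by
    intro l
    constructor
    · intro h
      exact congrArg Prod.snd ((mem_LS.1 hLS).2 _ h _ hω rfl)
    · rintro rfl
      exact hω
  unfold ff
  have h1 := sum_LS_insert (P.erase p) p hne (fun A => V A * xx gg A (om P a b z))
  rw [insert_erase hp] at h1
  rw [h1]
  refine Finset.sum_congr rfl fun A hA => ?_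
  have h2 : xx gg A (om P a b z) = xx gg A (om (P.erase p) a b z) :=
    xx_om gg (P.erase p) P (erase_subset p P) a b z A hA
  have h3 : ∀ l : Fin K, xx gg (insert (p, l) A) (om P a b z) =
      (gg p - if l = j then 1 else 0) * xx gg A (om (P.erase p) a b z) := by
    intro l
    have h4 : (p, l) ∉ A := notMem_of_LS hne hA l
    rw [← h2]
    unfold xx
    rw [Finset.prod_insert h4]
    congr 2
    simp only [huniq]
  have h5 : ∑ l : Fin K, V (insert (p, l) A) * xx gg (insert (p, l) A) (om P a b z) =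
      (gg p * ∑ l : Fin K, V (insert (p, l) A) - V (insert (p, j) A)) *
        xx gg A (om (P.erase p) a b z) := by
    have h6 : ∀ l : Fin K, V (insert (p, l) A) * xx gg (insert (p, l) A) (om P a b z) =
        (gg p * V (insert (p, l) A) - if l = j then V (insert (p, l) A) else 0) *
          xx gg A (om (P.erase p) a b z) := by
      intro l
      rw [h3 l]
      split_ifs <;> ring
    rw [Finset.sum_congr rfl fun l _ => h6 l, ← Finset.sum_mul, Finset.sum_sub_distrib,
      ← Finset.mul_sum, Finset.sum_ite_eq' univ j, if_pos (mem_univ j)]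
  show V A * xx gg A (om P a b z) +
    ∑ l : Fin K, V (insert (p, l) A) * xx gg (insert (p, l) A) (om P a b z) = _
  rw [h5, h2]
  unfold Vd
  ring

end Pool.Agent.Work.MP_70e905_nt.M3
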