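import Pool.Agent.Work.MP_70e905_nt.M3.Defs
import Pool.Agent.Work.MP_70e905_nt.M3.Y1

set_option autoImplicit false

/-!
MODULE Y2 (differences of `yv`), size M. Mathlib only (plus Y1).

`θ = log q / (r log x)`, `w = log (pd S) / (r log x)`. The square `(yv(n) - yv(q n))²` equals `θ²` for `w ≤ 1 - θ`,
`(1 - w)²` for `1 - θ ≤ w ≤ 1`, and `0` for `w ≥ 1` (if `θ > 1` only the last two cases); so it is
`∫_{max(0, 1 - θ)}^1 2 (1 - v) 1[pd S ≤ x^{r v}] dv`. Sum over `S`: at most
`∫_{max(0,1-θ)}^1 2 (1 - v) A (r v + e) dv`; for `θ ≤ 1` with `s = 1 - v`: `∫_0^θ 2 s (1 - s) ds = θ² - 2 θ³/3` and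
`∫_0^θ 2 s ds = θ²`; for `θ > 1` the values are `1/3` and `1`. (`q = 1`: both sides are `0`.)
-/

namespace Pool.Agent.Work.MP_70e905_nt.M3

open Finset Pool.Agent.Work.MP_73869e_nt.TH Pool.Agent.Work.MP_70e905_nt.MT

private theorem y2_int (a b : ℝ) :
    ∫ v in a..b, 2 * (1 - v) = (1 - a) ^ 2 - (1 - b) ^ 2 := by
  rw [intervalIntegral.integral_const_mul, intervalIntegral.integral_sub (by simp) (by simp),
    integral_id, intervalIntegral.integral_const]
  simp only [smul_eq_mul]
  ring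

theorem Ndif (P : Finset ℕ) (hP : ∀ p ∈ P, p.Prime) (x : ℕ) (hx : 2 ≤ x) (r A e : ℝ) (hr : 0 < r)
    (hA : 0 ≤ A) (he : 0 ≤ e)
    (hup : ∀ t : ℝ, 0 ≤ t → t ≤ r → Nz P ((x : ℝ) ^ t) ≤ A * (t + e)) (q : ℕ) (hq : 1 ≤ q) :
    ∑ S ∈ P.powerset, HH S * (yv x r (pd S) - yv x r (q * pd S)) ^ 2 ≤
      A * (r * hf (Real.log q / (r * Real.log x)) +
        e * min 1 ((Real.log q / (r * Real.log x)) ^ 2)) := by
  have hxr : (2 : ℝ) ≤ x := by exact_mod_cast hx
  have hl : 0 < Real.log x := Real.log_pos (by linarith)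
  have hrl : 0 < r * Real.log x := by positivity
  set θ := Real.log q / (r * Real.log x) with hθ
  have hθ0 : 0 ≤ θ := div_nonneg (Real.log_natCast_nonneg q) hrl.le
  set v₀ := max 0 (1 - θ) with hv₀
  have hv1 : v₀ ≤ 1 := max_le zero_le_one (by linarith)
  have hv00 : 0 ≤ v₀ := le_max_left _ _
  obtain ⟨i1, e1⟩ := Y1_cake P hP x hx r hr (fun v => 2 * (1 - v)) (by fun_prop) v₀ hv1
  have f1 : ∑ S ∈ P.powerset, HH S * (yv x r (pd S) - yv x r (q * pd S)) ^ 2 =
      ∫ v in v₀..1, 2 * (1 - v) * Nz P ((x : ℝ) ^ (r * v)) := by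
    rw [e1]
    refine Finset.sum_congr rfl fun S hS => ?_
    congr 1
    have hpd : 0 < pd S := Finset.prod_pos fun p hp => (hP p (mem_powerset.1 hS hp)).pos
    have hpd' : (0 : ℝ) < ((pd S : ℕ) : ℝ) := by exact_mod_cast hpd
    have hq' : (0 : ℝ) < q := by exact_mod_cast hq
    have hw0 : 0 ≤ Real.log (pd S : ℕ) / (r * Real.log x) :=
      div_nonneg (Real.log_natCast_nonneg _) hrl.le
    have h1 : yv x r (q * pd S) =
        max 0 (1 - Real.log (pd S : ℕ) / (r * Real.log x) - θ) := by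
      unfold yv
      push_cast
      rw [Real.log_mul hq'.ne' hpd'.ne', add_div, hθ]
      congr 1
      ring
    have h2 : yv x r (pd S) = max 0 (1 - Real.log (pd S : ℕ) / (r * Real.log x)) := rfl
    rw [h1, h2, y2_int]
    generalize Real.log (pd S : ℕ) / (r * Real.log x) = w at hw0 ⊢
    rw [hv₀]
    rcases le_total w 1 with h3 | h3
    · rw [min_eq_left h3, max_eq_right (by linarith : (0 : ℝ) ≤ 1 - w)]
      rcases le_total w (1 - θ) with h4 | h4
      · rw [max_eq_right (by linarith : (0 : ℝ) ≤ 1 - w - θ),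
          max_eq_right (by linarith : (0 : ℝ) ≤ 1 - θ), max_eq_left h4]
        ring
      · rw [max_eq_left (by linarith : 1 - w - θ ≤ (0 : ℝ)), max_eq_right (max_le hw0 h4)]
        ring
    · rw [min_eq_right h3, max_eq_left (by linarith : 1 - w ≤ (0 : ℝ)),
        max_eq_left (by linarith : 1 - w - θ ≤ (0 : ℝ)),
        max_eq_right (max_le zero_le_one (by linarith))]
      ring
  rw [f1]
  have h1 : ∫ v in v₀..1, 2 * (1 - v) * Nz P ((x : ℝ) ^ (r * v)) ≤
      ∫ v in v₀..1, 2 * (1 - v) * (A * (r * v + e)) := by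
    refine intervalIntegral.integral_mono_on hv1 i1 (by
      apply Continuous.intervalIntegrable
      fun_prop) fun v hv => ?_
    have hv0 : 0 ≤ v := hv00.trans hv.1
    exact mul_le_mul_of_nonneg_left (hup _ (mul_nonneg hr.le hv0)
      (mul_le_of_le_one_right hr.le hv.2)) (by linarith [hv.2])
  refine h1.trans (le_of_eq ?_)
  have h2 : (fun v : ℝ => 2 * (1 - v) * (A * (r * v + e))) =
      fun v => 2 * A * e + 2 * A * (r - e) * v - 2 * A * r * v ^ 2 := by
    funext v
    ring
  have h3 : ∫ v in v₀..1, 2 * (1 - v) * (A * (r * v + e)) =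
      2 * A * e * (1 - v₀) + 2 * A * (r - e) * ((1 - v₀ ^ 2) / 2) - 2 * A * r * ((1 - v₀ ^ 3) / 3) := by
    rw [h2, intervalIntegral.integral_sub (by
        apply Continuous.intervalIntegrable
        fun_prop) (by
        apply Continuous.intervalIntegrable
        fun_prop), intervalIntegral.integral_add (by simp) (by
        apply Continuous.intervalIntegrable
        fun_prop), intervalIntegral.integral_const_mul, intervalIntegral.integral_const_mul,
        intervalIntegral.integral_const_mul, intervalIntegral.integral_const, integral_id,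
        integral_pow]
    simp only [smul_eq_mul]
    norm_num
    ring
  rw [h3, hv₀]
  unfold hf
  rcases le_total θ 1 with h4 | h4
  · rw [if_pos h4, max_eq_right (by linarith : (0 : ℝ) ≤ 1 - θ),
      min_eq_right (by nlinarith : θ ^ 2 ≤ 1)]
    ring
  · have h5 : A * (r * (if θ ≤ 1 then θ ^ 2 - 2 / 3 * θ ^ 3 else 1 / 3) + e * min 1 (θ ^ 2)) =
        A * (r * (1 / 3) + e) := by
      rw [min_eq_left (by nlinarith : 1 ≤ θ ^ 2)]
      split_ifs with h6
      · have : θ = 1 := le_antisymm h6 h4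
        rw [this]
        ring
      · ring
    rw [h5, max_eq_left (by linarith : 1 - θ ≤ (0 : ℝ))]
    ring

end Pool.Agent.Work.MP_70e905_nt.M3
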