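import Pool.Agent.Work.MP_70e905_nt.M3.Defs
import Pool.Agent.Work.MP_73869e_nt.N

set_option autoImplicit false

/-!
MODULE MW (Mertens' second theorem on windows), size M.

`G N = ∑_{p ≤ N} gg p` satisfies `G ⌊y⌋₊ - log (log y) → M'` (`exists_M`, `loglog_floor` and the summability of
`gg p - 1 / p`); the window sums are differences of `G`. The second theorem follows from Mertens' first theorem
(`mertens_one`): `gg p (log p)² ≤ log y * gg p * log p` for `p ≤ y`.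
-/

namespace Pool.Agent.Work.MP_70e905_nt.M3

open Finset Pool.Agent.Work.MP_73869e_nt.TH Pool.Agent.Work.MP_70e905_nt.MT

private noncomputable def mwG (N : ℕ) : ℝ := ∑ p ∈ (Icc 1 N).filter Nat.Prime, gg p

private noncomputable def mwr (p : ℕ) : ℝ := if p.Prime then gg p - 1 / (p : ℝ) else 0

private theorem mw_gg_sub {p : ℕ} (hp : p.Prime) : gg p - 1 / (p : ℝ) ≤ 2 / (p : ℝ) ^ 2 := by
  have h2 : (2 : ℝ) ≤ p := by exact_mod_cast hp.two_le
  have h0 : (0 : ℝ) < p := by linarith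
  have h1 : (0 : ℝ) < (p : ℝ) - 1 := by linarith
  unfold gg
  rw [div_sub_div _ _ h1.ne' h0.ne', div_le_div_iff₀ (by positivity) (by positivity)]
  nlinarith

private theorem mw_gg_sub_nonneg {p : ℕ} (hp : p.Prime) : 0 ≤ gg p - 1 / (p : ℝ) := by
  have h2 : (2 : ℝ) ≤ p := by exact_mod_cast hp.two_le
  have h1 : (0 : ℝ) < (p : ℝ) - 1 := by linarith
  unfold gg
  have := one_div_le_one_div_of_le h1 (by linarith : (p : ℝ) - 1 ≤ p)
  linarith

private theorem mwr_nonneg (p : ℕ) : 0 ≤ mwr p := by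
  unfold mwr
  split_ifs with h
  · exact mw_gg_sub_nonneg h
  · exact le_rfl

private theorem mwr_le (p : ℕ) : mwr p ≤ 2 * (1 / (p : ℝ) ^ 2) := by
  unfold mwr
  split_ifs with h
  · have := mw_gg_sub h
    rw [mul_one_div]
    exact this
  · positivity

private theorem mwr_summable : Summable mwr := by
  refine Summable.of_nonneg_of_le mwr_nonneg mwr_le ?_
  exact (Real.summable_one_div_nat_pow.2 (by norm_num)).mul_left 2

private theorem mwG_eq (N : ℕ) :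
    mwG N = Pool.Agent.Work.MP_73869e_nt.M3.PP N + ∑ p ∈ range (N + 1), mwr p := by
  have h1 : ∑ p ∈ range (N + 1), mwr p =
      ∑ p ∈ (Icc 1 N).filter Nat.Prime, (gg p - 1 / (p : ℝ)) := by
    rw [← Finset.sum_subset (s₁ := (Icc 1 N).filter Nat.Prime)]
    · refine Finset.sum_congr rfl fun p hp => ?_
      simp only [Finset.mem_filter] at hp
      rw [mwr, if_pos hp.2]
    · intro p hp
      simp only [Finset.mem_filter, Finset.mem_Icc] at hp
      rw [Finset.mem_range]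
      omega
    · intro p hp hnp
      rw [Finset.mem_range] at hp
      have : ¬ p.Prime := by
        intro hpp
        apply hnp
        simp only [Finset.mem_filter, Finset.mem_Icc]
        exact ⟨⟨hpp.pos, by omega⟩, hpp⟩
      rw [mwr, if_neg this]
  have h2 : Pool.Agent.Work.MP_73869e_nt.M3.PP N =
      ∑ p ∈ (Icc 1 N).filter Nat.Prime, 1 / (p : ℝ) := by
    unfold Pool.Agent.Work.MP_73869e_nt.M3.PP
    have : Ioc 0 N = Icc 1 N := by
      ext x; simp only [Finset.mem_Ioc, Finset.mem_Icc]; omega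
    rw [this]
  rw [h1, h2, ← Finset.sum_add_distrib]
  unfold mwG
  refine Finset.sum_congr rfl fun p _ => ?_
  ring

private theorem mw_lim : ∃ M : ℝ, Filter.Tendsto (fun y : ℝ => mwG ⌊y⌋₊ - Real.log (Real.log y))
    Filter.atTop (nhds M) := by
  obtain ⟨M, hM⟩ := Pool.Agent.Work.MP_73869e_nt.M3.exists_M
  refine ⟨M + (∑' p, mwr p) + 0, ?_⟩
  have h1 := hM.comp (tendsto_nat_floor_atTop (α := ℝ))
  have h2 := (mwr_summable.hasSum.tendsto_sum_nat).comp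
    ((Filter.tendsto_add_atTop_nat 1).comp (tendsto_nat_floor_atTop (α := ℝ)))
  have h3 := Pool.Agent.Work.MP_73869e_nt.M3.loglog_floor
  refine ((h1.add h2).add h3).congr fun y => ?_
  simp only [Function.comp]
  rw [mwG_eq]
  ring

private theorem mw_win_eq {A B : ℝ} (hA : 0 ≤ A) (hAB : A ≤ B) :
    ∑ p ∈ (Icc 1 ⌊B⌋₊).filter (fun p : ℕ => p.Prime ∧ A < (p : ℝ)), gg p =
      mwG ⌊B⌋₊ - mwG ⌊A⌋₊ := by
  unfold mwG
  rw [eq_sub_iff_add_eq, ← Finset.sum_union]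
  · refine Finset.sum_congr ?_ fun _ _ => rfl
    ext p
    simp only [Finset.mem_union, Finset.mem_filter, Finset.mem_Icc]
    constructor
    · rintro (h | h)
      · exact ⟨h.1, h.2.1⟩
      · exact ⟨⟨h.1.1, h.1.2.trans (Nat.floor_le_floor hAB)⟩, h.2⟩
    · rintro ⟨h1, h2⟩
      rcases lt_or_ge A (p : ℝ) with h3 | h3
      · exact Or.inl ⟨h1, h2, h3⟩
      · exact Or.inr ⟨⟨h1.1, Nat.le_floor h3⟩, h2⟩
  · rw [Finset.disjoint_left]
    intro p hp hq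
    simp only [Finset.mem_filter, Finset.mem_Icc] at hp hq
    have h1 : (p : ℝ) ≤ A := (Nat.cast_le.2 hq.1.2).trans (Nat.floor_le hA)
    linarith [hp.2.2]

theorem mert_win (ε τ : ℝ) (hε : 0 < ε) (hτ : 0 < τ) : ∃ X₀ : ℕ, ∀ x : ℕ, X₀ ≤ x →
    ∀ s t : ℝ, τ ≤ s → s ≤ t → t ≤ 1 →
      |∑ p ∈ (Icc 1 ⌊(x : ℝ) ^ t⌋₊).filter (fun p : ℕ => p.Prime ∧ (x : ℝ) ^ s < (p : ℝ)), gg p -
        Real.log (t / s)| ≤ ε := by
  obtain ⟨M, hM⟩ := mw_lim
  rw [Metric.tendsto_atTop] at hM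
  obtain ⟨Y, hY⟩ := hM (ε / 2) (by linarith)
  have h1 : Filter.Tendsto (fun x : ℕ => (x : ℝ) ^ τ) Filter.atTop Filter.atTop :=
    (tendsto_rpow_atTop hτ).comp tendsto_natCast_atTop_atTop
  obtain ⟨X₁, hX₁⟩ := Filter.eventually_atTop.1 (h1.eventually_ge_atTop Y)
  refine ⟨max X₁ 2, fun x hx s t hs hst ht => ?_⟩
  have hx1 : X₁ ≤ x := (le_max_left _ _).trans hx
  have hx2 : 2 ≤ x := (le_max_right _ _).trans hx
  have hxr : (2 : ℝ) ≤ x := by exact_mod_cast hx2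
  have hx0 : (0 : ℝ) < x := by linarith
  have hx1' : (1 : ℝ) ≤ x := by linarith
  have hlx : 0 < Real.log x := Real.log_pos (by linarith)
  have hs0 : 0 < s := lt_of_lt_of_le hτ hs
  have ht0 : 0 < t := lt_of_lt_of_le hs0 hst
  have hxs : Y ≤ (x : ℝ) ^ s := (hX₁ x hx1).trans (Real.rpow_le_rpow_of_exponent_le hx1' hs)
  have hxt : Y ≤ (x : ℝ) ^ t := hxs.trans (Real.rpow_le_rpow_of_exponent_le hx1' hst)
  have hA := hY _ hxs
  have hB := hY _ hxt
  rw [Real.dist_eq] at hA hB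
  rw [mw_win_eq (Real.rpow_nonneg hx0.le s) (Real.rpow_le_rpow_of_exponent_le hx1' hst)]
  rw [Real.log_rpow hx0, Real.log_mul hs0.ne' hlx.ne'] at hA
  rw [Real.log_rpow hx0, Real.log_mul ht0.ne' hlx.ne'] at hB
  rw [Real.log_div ht0.ne' hs0.ne']
  rw [abs_lt] at hA hB
  rw [abs_le]
  constructor <;> linarith [hA.1, hA.2, hB.1, hB.2]

private theorem mw_log_le {p : ℕ} (hp : p.Prime) :
    gg p * Real.log p ≤ Real.log p / p + 4 * (1 / (p : ℝ) ^ (3 / 2 : ℝ)) := by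
  have h2 : (2 : ℝ) ≤ p := by exact_mod_cast hp.two_le
  have h0 : (0 : ℝ) < p := by linarith
  have hl : 0 ≤ Real.log p := Real.log_nonneg (by linarith)
  have h1 := mw_gg_sub hp
  have h3 : Real.log p ≤ (p : ℝ) ^ (1 / 2 : ℝ) / (1 / 2) := Real.log_le_rpow_div h0.le (by norm_num)
  have ha : 0 < (p : ℝ) ^ (1 / 2 : ℝ) := Real.rpow_pos_of_pos h0 _
  have hb : 0 < (p : ℝ) ^ (3 / 2 : ℝ) := Real.rpow_pos_of_pos h0 _
  have hab : (p : ℝ) ^ (1 / 2 : ℝ) * (p : ℝ) ^ (3 / 2 : ℝ) = (p : ℝ) ^ 2 := by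
    rw [← Real.rpow_add h0, ← Real.rpow_natCast]
    norm_num
  have h4 : (gg p - 1 / (p : ℝ)) * Real.log p ≤ 4 * (1 / (p : ℝ) ^ (3 / 2 : ℝ)) := by
    calc (gg p - 1 / (p : ℝ)) * Real.log p ≤ 2 / (p : ℝ) ^ 2 * ((p : ℝ) ^ (1 / 2 : ℝ) / (1 / 2)) :=
          mul_le_mul h1 h3 hl (by positivity)
      _ = 4 * (1 / (p : ℝ) ^ (3 / 2 : ℝ)) := by
          rw [← hab]
          field_simp
          norm_num
  have h5 : gg p * Real.log p = Real.log p / p + (gg p - 1 / (p : ℝ)) * Real.log p := by ring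
  rw [h5]
  linarith

private theorem mw_first : ∃ C : ℝ, 0 ≤ C ∧ ∀ N : ℕ, 0 < N →
    ∑ p ∈ (Icc 1 N).filter Nat.Prime, gg p * Real.log p ≤ Real.log N + C := by
  obtain ⟨C, hC⟩ := Pool.Agent.Work.MP_2dba45_nt.Mert.mertens_one
  have hC0 : 0 ≤ C := (abs_nonneg _).trans (hC 1 one_pos)
  have hs : Summable (fun p : ℕ => 4 * (1 / (p : ℝ) ^ (3 / 2 : ℝ))) :=
    (Real.summable_one_div_nat_rpow.2 (by norm_num)).mul_left 4
  have hs0 : ∀ p : ℕ, 0 ≤ 4 * (1 / (p : ℝ) ^ (3 / 2 : ℝ)) := fun p => by positivity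
  refine ⟨C + ∑' p : ℕ, 4 * (1 / (p : ℝ) ^ (3 / 2 : ℝ)), add_nonneg hC0 (tsum_nonneg hs0),
    fun N hN => ?_⟩
  have hI : Ioc 0 N = Icc 1 N := by
    ext x; simp only [Finset.mem_Ioc, Finset.mem_Icc]; omega
  have h1 := (abs_le.1 (hC N hN)).2
  rw [hI] at h1
  have h2 : ∑ p ∈ (Icc 1 N).filter Nat.Prime, gg p * Real.log p ≤
      ∑ p ∈ (Icc 1 N).filter Nat.Prime, (Real.log p / p + 4 * (1 / (p : ℝ) ^ (3 / 2 : ℝ))) :=
    Finset.sum_le_sum fun p hp => mw_log_le (Finset.mem_filter.1 hp).2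
  rw [Finset.sum_add_distrib] at h2
  have h3 := hs.sum_le_tsum ((Icc 1 N).filter Nat.Prime) (fun p _ => hs0 p)
  linarith

theorem mert_head : ∃ C : ℝ, 0 ≤ C ∧ ∀ τ : ℝ, 0 < τ → τ ≤ 1 → ∃ X₀ : ℕ, ∀ x : ℕ, X₀ ≤ x →
    ∑ p ∈ (Icc 1 ⌊(x : ℝ) ^ τ⌋₊).filter Nat.Prime, gg p * (Real.log p / Real.log x) ^ 2 ≤
      C * τ ^ 2 := by
  obtain ⟨C, hC, hN⟩ := mw_first
  refine ⟨2, by norm_num, fun τ hτ hτ1 => ?_⟩
  have h1 : Filter.Tendsto (fun x : ℕ => τ * Real.log (x : ℝ)) Filter.atTop Filter.atTop :=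
    (Real.tendsto_log_atTop.comp tendsto_natCast_atTop_atTop).const_mul_atTop hτ
  obtain ⟨X₁, hX₁⟩ := Filter.eventually_atTop.1 (h1.eventually_ge_atTop C)
  refine ⟨max X₁ 2, fun x hx => ?_⟩
  have hx1 : X₁ ≤ x := (le_max_left _ _).trans hx
  have hx2 : 2 ≤ x := (le_max_right _ _).trans hx
  have hxr : (2 : ℝ) ≤ x := by exact_mod_cast hx2
  have hx0 : (0 : ℝ) < x := by linarith
  have hlx : 0 < Real.log x := Real.log_pos (by linarith)
  have hxτ : (1 : ℝ) ≤ (x : ℝ) ^ τ := Real.one_le_rpow (by linarith) hτ.le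
  have hfl : 0 < ⌊(x : ℝ) ^ τ⌋₊ := Nat.floor_pos.2 hxτ
  have hflr : (0 : ℝ) < (⌊(x : ℝ) ^ τ⌋₊ : ℝ) := by exact_mod_cast hfl
  have hlf : Real.log (⌊(x : ℝ) ^ τ⌋₊ : ℝ) ≤ τ * Real.log x := by
    rw [← Real.log_rpow hx0]
    exact Real.log_le_log hflr (Nat.floor_le (by linarith))
  have h2 := hN _ hfl
  have h3 : ∑ p ∈ (Icc 1 ⌊(x : ℝ) ^ τ⌋₊).filter Nat.Prime, gg p * (Real.log p / Real.log x) ^ 2 ≤
      (τ / Real.log x) * ∑ p ∈ (Icc 1 ⌊(x : ℝ) ^ τ⌋₊).filter Nat.Prime, gg p * Real.log p := by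
    rw [Finset.mul_sum]
    refine Finset.sum_le_sum fun p hp => ?_
    rw [Finset.mem_filter, Finset.mem_Icc] at hp
    have hp2 : (2 : ℝ) ≤ p := by exact_mod_cast hp.2.two_le
    have hl : 0 ≤ Real.log p := Real.log_nonneg (by linarith)
    have hg : 0 ≤ gg p := by
      unfold gg
      exact one_div_nonneg.2 (by linarith)
    have hlp : Real.log p ≤ τ * Real.log x :=
      (Real.log_le_log (by linarith) (by exact_mod_cast hp.1.2)).trans hlf
    have h4 : (Real.log p / Real.log x) ^ 2 ≤ τ / Real.log x * Real.log p := by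
      rw [div_pow, div_mul_eq_mul_div, div_le_div_iff₀ (by positivity) hlx]
      nlinarith [mul_nonneg hl hlx.le, mul_nonneg (mul_nonneg hl hlx.le) (sub_nonneg.2 hlp)]
    calc gg p * (Real.log p / Real.log x) ^ 2 ≤ gg p * (τ / Real.log x * Real.log p) :=
          mul_le_mul_of_nonneg_left h4 hg
      _ = τ / Real.log x * (gg p * Real.log p) := by ring
  refine h3.trans ?_
  have h5 : ∑ p ∈ (Icc 1 ⌊(x : ℝ) ^ τ⌋₊).filter Nat.Prime, gg p * Real.log p ≤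
      2 * (τ * Real.log x) := by
    have := hX₁ x hx1
    linarith
  calc (τ / Real.log x) * ∑ p ∈ (Icc 1 ⌊(x : ℝ) ^ τ⌋₊).filter Nat.Prime, gg p * Real.log p ≤
        (τ / Real.log x) * (2 * (τ * Real.log x)) := mul_le_mul_of_nonneg_left h5 (by positivity)
    _ = 2 * τ ^ 2 := by
      field_simp

end Pool.Agent.Work.MP_70e905_nt.M3
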