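import Pool.Agent.Work.MP_70e905_nt.M3.Defs
import Pool.Agent.Work.MP_70e905_nt.M3.MW

set_option autoImplicit false

/-!
MODULE Y3 (the integral `5/18`), size M.

`θ_p = log p / (r log x)`, `b/r ≤ 11/10`. Choose a small `τ > 0` and a large number `N` of windows. The primes `p ≤ x^τ`
contribute at most `∑ gg p θ_p² ≤ C (τ / r)²` to both sums (`mert_head`, `hf θ ≤ θ²` for `θ ≤ 1`). For the primes in
`(x^τ, x^b]` split `(τ, b]` into `N` windows of ratio close to 1; on a window `hf θ_p` and `min 1 θ_p²` are almost constant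
(they are Lipschitz on `[0, 2]`), and the sum of `gg p` over the window is `log (t/s) + o(1)` (`mert_win`); so the sums
are `∫_{τ/r}^{b/r} hf(θ) dθ/θ + o(1)` and `∫ min(1,θ²) dθ/θ + o(1)`. `∫_0^1 (θ - 2θ²/3) dθ = 1/2 - 2/9 = 5/18`,
`∫_1^{b/r} dθ / (3θ) = log(b/r)/3`, `∫_0^1 θ dθ = 1/2` and `log(11/10) ≤ 1/10`.
(Upper Riemann sums suffice. An alternative: for a monotone function use `log (t/s) ≤ (t - s)/s`.)
-/

namespace Pool.Agent.Work.MP_70e905_nt.M3

open Finset Pool.Agent.Work.MP_73869e_nt.TH Pool.Agent.Work.MP_70e905_nt.MT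

private theorem y3_core (r b : ℝ) (hr : 0 < r) (hb0 : 0 < b) (hb : b ≤ 1) (h Hc : ℝ → ℝ)
    (h1 : ∀ θ, 0 ≤ θ → h θ ≤ 1) (hsq : ∀ θ, 0 ≤ θ → h θ ≤ θ ^ 2)
    (hmono : ∀ s t, 0 ≤ s → s ≤ t → h s ≤ h t)
    (h0 : ∀ θ, 0 ≤ θ → 0 ≤ h θ)
    (hH : ∀ s t, 0 < s → s ≤ t → h s * Real.log (t / s) ≤ Hc t - Hc s)
    (hH0 : ∀ s, 0 < s → 0 ≤ Hc s)
    (hH1 : ∀ l, 1 ≤ l → Hc (l * (b / r)) - Hc (b / r) ≤ Real.log l)
    (ε : ℝ) (hε : 0 < ε) : ∃ X₀ : ℕ, ∀ x : ℕ, X₀ ≤ x →
      ∑ p ∈ (Icc 1 ⌊(x : ℝ) ^ b⌋₊).filter Nat.Prime, gg p * h (Real.log p / (r * Real.log x)) ≤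
        Hc (b / r) + ε := by
  obtain ⟨C, hC, hhead⟩ := mert_head
  set τ : ℝ := min b (r * Real.sqrt (ε / (4 * (C + 1)))) with hτ
  have hτ0 : 0 < τ := lt_min hb0 (by positivity)
  have hτb : τ ≤ b := min_le_left _ _
  have hτ1 : τ ≤ 1 := hτb.trans hb
  have hCτ : C * τ ^ 2 ≤ ε / 4 * r ^ 2 := by
    have e1 : τ ^ 2 ≤ r ^ 2 * (ε / (4 * (C + 1))) := by
      have e2 : τ ≤ r * Real.sqrt (ε / (4 * (C + 1))) := min_le_right _ _
      calc τ ^ 2 ≤ (r * Real.sqrt (ε / (4 * (C + 1)))) ^ 2 := pow_le_pow_left₀ hτ0.le e2 2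
        _ = _ := by rw [mul_pow, Real.sq_sqrt (by positivity)]
    have e3 : C * (ε / (4 * (C + 1))) ≤ ε / 4 := by
      rw [mul_div_assoc', div_le_div_iff₀ (by positivity) (by norm_num)]
      nlinarith
    calc C * τ ^ 2 ≤ C * (r ^ 2 * (ε / (4 * (C + 1)))) := mul_le_mul_of_nonneg_left e1 hC
      _ = (C * (ε / (4 * (C + 1)))) * r ^ 2 := by ring
      _ ≤ ε / 4 * r ^ 2 := mul_le_mul_of_nonneg_right e3 (by positivity)
  have hbτ : 1 ≤ b / τ := (one_le_div hτ0).2 hτb
  have hlogb : 0 ≤ Real.log (b / τ) := Real.log_nonneg hbτ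
  obtain ⟨N, hN⟩ := exists_nat_gt (4 * Real.log (b / τ) / ε)
  have hN0 : (0 : ℝ) < N := lt_of_le_of_lt (by positivity) hN
  set κ := Real.log (b / τ) / N with hκ
  have hκ0 : 0 ≤ κ := by positivity
  have hκε : κ ≤ ε / 4 := by
    rw [hκ, div_le_iff₀ hN0]
    rw [div_lt_iff₀ hε] at hN
    nlinarith
  set s : ℕ → ℝ := fun k => τ * Real.exp (κ * k) with hs
  have hs0 : s 0 = τ := by simp [hs]
  have hsN : s N = b := by
    have : κ * N = Real.log (b / τ) := by
      rw [hκ]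
      field_simp
    simp only [hs]
    rw [this, Real.exp_log (by positivity)]
    field_simp
  have hspos : ∀ k, 0 < s k := fun k => by positivity
  have hstep : ∀ k, s (k + 1) = s k * Real.exp κ := by
    intro k
    simp only [hs]
    rw [mul_assoc, ← Real.exp_add]
    congr 2
    push_cast
    ring
  have hsmono : ∀ k, s k ≤ s (k + 1) := by
    intro k
    rw [hstep]
    exact le_mul_of_one_le_right (hspos k).le (Real.one_le_exp hκ0)
  have hsmono' : Monotone s := monotone_nat_of_le_succ hsmono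
  have hτs : ∀ k, τ ≤ s k := fun k => by
    rw [← hs0]
    exact hsmono' (Nat.zero_le k)
  set ε' := ε / (4 * N) with hε'
  have hε'0 : 0 < ε' := by positivity
  obtain ⟨X₁, hX₁⟩ := mert_win ε' τ hε'0 hτ0
  obtain ⟨X₂, hX₂⟩ := hhead τ hτ0 hτ1
  refine ⟨max (max X₁ X₂) 2, fun x hx => ?_⟩
  have hx1 : X₁ ≤ x := le_trans (le_trans (le_max_left _ _) (le_max_left _ _)) hx
  have hx2 : X₂ ≤ x := le_trans (le_trans (le_max_right _ _) (le_max_left _ _)) hx
  have hx3 : 2 ≤ x := le_trans (le_max_right _ _) hx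
  have hxr : (2 : ℝ) ≤ x := by exact_mod_cast hx3
  have hx0 : (0 : ℝ) < x := by linarith
  have hl : 0 < Real.log x := Real.log_pos (by linarith)
  have hrl : 0 < r * Real.log x := by positivity
  have hgg : ∀ p : ℕ, p.Prime → 0 ≤ gg p := fun p hp => by
    unfold gg
    have : (1 : ℝ) < p := by exact_mod_cast hp.one_lt
    exact div_nonneg zero_le_one (by linarith)
  have hθ0 : ∀ p : ℕ, 0 ≤ Real.log p / (r * Real.log x) := fun p =>
    div_nonneg (Real.log_natCast_nonneg p) hrl.le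
  set f : ℕ → ℝ := fun p => gg p * h (Real.log p / (r * Real.log x)) with hf'
  -- one window
  have hwin : ∀ k, k + 1 ≤ N → ∑ p ∈ (Icc 1 ⌊(x : ℝ) ^ s (k + 1)⌋₊).filter Nat.Prime, f p ≤
      ∑ p ∈ (Icc 1 ⌊(x : ℝ) ^ s k⌋₊).filter Nat.Prime, f p +
        (Hc (s (k + 2) / r) - Hc (s (k + 1) / r) + ε') := by
    intro k hk
    have hs1 : s (k + 1) ≤ 1 := by
      have := hsmono' hk
      rw [hsN] at this
      exact this.trans hb
    have e1 : ∑ p ∈ (Icc 1 ⌊(x : ℝ) ^ s (k + 1)⌋₊).filter Nat.Prime, f p =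
        ∑ p ∈ (Icc 1 ⌊(x : ℝ) ^ s k⌋₊).filter Nat.Prime, f p +
          ∑ p ∈ (Icc 1 ⌊(x : ℝ) ^ s (k + 1)⌋₊).filter
            (fun p : ℕ => p.Prime ∧ (x : ℝ) ^ s k < (p : ℝ)), f p := by
      rw [← Finset.sum_union]
      · congr 1
        ext p
        simp only [Finset.mem_union, Finset.mem_filter, Finset.mem_Icc]
        have hle : ⌊(x : ℝ) ^ s k⌋₊ ≤ ⌊(x : ℝ) ^ s (k + 1)⌋₊ :=
          Nat.floor_le_floor (Real.rpow_le_rpow_of_exponent_le (by linarith) (hsmono k))
        constructor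
        · rintro ⟨⟨a1, a2⟩, a3⟩
          rcases le_or_gt p ⌊(x : ℝ) ^ s k⌋₊ with a4 | a4
          · exact Or.inl ⟨⟨a1, a4⟩, a3⟩
          · refine Or.inr ⟨⟨a1, a2⟩, a3, ?_⟩
            exact (Nat.floor_lt (by positivity)).1 a4
        · rintro (⟨⟨a1, a2⟩, a3⟩ | ⟨⟨a1, a2⟩, a3, -⟩)
          · exact ⟨⟨a1, a2.trans hle⟩, a3⟩
          · exact ⟨⟨a1, a2⟩, a3⟩
      · rw [Finset.disjoint_left]
        intro p hp hp'
        simp only [Finset.mem_filter, Finset.mem_Icc] at hp hp'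
        have a1 : (p : ℝ) ≤ (x : ℝ) ^ s k := (Nat.le_floor_iff (by positivity)).1 hp.1.2
        exact absurd hp'.2.2 (not_lt.2 a1)
    rw [e1]
    refine add_le_add_right ?_ _
    have hh0 : 0 ≤ h (s (k + 1) / r) := h0 _ (by have := hspos (k + 1); positivity)
    have hh1 : h (s (k + 1) / r) ≤ 1 := h1 _ (by have := hspos (k + 1); positivity)
    have e2 : ∑ p ∈ (Icc 1 ⌊(x : ℝ) ^ s (k + 1)⌋₊).filter
        (fun p : ℕ => p.Prime ∧ (x : ℝ) ^ s k < (p : ℝ)), f p ≤
        h (s (k + 1) / r) * ∑ p ∈ (Icc 1 ⌊(x : ℝ) ^ s (k + 1)⌋₊).filter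
        (fun p : ℕ => p.Prime ∧ (x : ℝ) ^ s k < (p : ℝ)), gg p := by
      rw [Finset.mul_sum]
      refine Finset.sum_le_sum fun p hp => ?_
      simp only [Finset.mem_filter, Finset.mem_Icc] at hp
      have a1 : (p : ℝ) ≤ (x : ℝ) ^ s (k + 1) := (Nat.le_floor_iff (by positivity)).1 hp.1.2
      have a2 : Real.log p / (r * Real.log x) ≤ s (k + 1) / r := by
        have a3 : Real.log p ≤ s (k + 1) * Real.log x := by
          rw [← Real.log_rpow hx0]
          exact Real.log_le_log (by exact_mod_cast hp.2.1.pos) a1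
        rw [div_le_div_iff₀ hrl hr]
        nlinarith
      simp only [hf']
      rw [mul_comm (h _)]
      exact mul_le_mul_of_nonneg_left (hmono _ _ (hθ0 p) a2) (hgg p hp.2.1)
    have e3 := hX₁ x hx1 (s k) (s (k + 1)) (hτs k) (hsmono k) hs1
    have e4 : s (k + 1) / s k = Real.exp κ := by
      rw [hstep]
      have := (hspos k).ne'
      field_simp
    rw [e4, Real.log_exp] at e3
    have e5 := (abs_le.1 e3).2
    have e6 := hH (s (k + 1) / r) (s (k + 2) / r) (by have := hspos (k + 1); positivity)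
      (by have := hsmono (k + 1); gcongr)
    have e7 : s (k + 2) / r / (s (k + 1) / r) = Real.exp κ := by
      rw [hstep (k + 1)]
      have := (hspos (k + 1)).ne'
      field_simp
    rw [e7, Real.log_exp] at e6
    have e8 := mul_le_mul_of_nonneg_left (show ∑ p ∈ (Icc 1 ⌊(x : ℝ) ^ s (k + 1)⌋₊).filter
        (fun p : ℕ => p.Prime ∧ (x : ℝ) ^ s k < (p : ℝ)), gg p ≤ κ + ε' by linarith) hh0
    have e9 : h (s (k + 1) / r) * ε' ≤ ε' := mul_le_of_le_one_left hε'0.le hh1
    rw [mul_add] at e8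
    linarith
  have hall : ∀ k, k ≤ N → ∑ p ∈ (Icc 1 ⌊(x : ℝ) ^ s k⌋₊).filter Nat.Prime, f p ≤
      ε / 4 + (Hc (s (k + 1) / r) - Hc (s 1 / r)) + k * ε' := by
    intro k
    induction k with
    | zero =>
      intro _
      rw [hs0]
      have e1 : ∑ p ∈ (Icc 1 ⌊(x : ℝ) ^ τ⌋₊).filter Nat.Prime, f p ≤
          (1 / r ^ 2) * ∑ p ∈ (Icc 1 ⌊(x : ℝ) ^ τ⌋₊).filter Nat.Prime,
            gg p * (Real.log p / Real.log x) ^ 2 := by
        rw [Finset.mul_sum]
        refine Finset.sum_le_sum fun p hp => ?_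
        rw [Finset.mem_filter] at hp
        have a1 := hsq _ (hθ0 p)
        have a2 : (Real.log p / (r * Real.log x)) ^ 2 =
            1 / r ^ 2 * (Real.log p / Real.log x) ^ 2 := by
          field_simp
        rw [a2] at a1
        simp only [hf']
        calc gg p * h (Real.log p / (r * Real.log x)) ≤
            gg p * (1 / r ^ 2 * (Real.log p / Real.log x) ^ 2) :=
              mul_le_mul_of_nonneg_left a1 (hgg p hp.2)
          _ = _ := by ring
      have e2 := hX₂ x hx2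
      have e3 : (1 / r ^ 2) * ∑ p ∈ (Icc 1 ⌊(x : ℝ) ^ τ⌋₊).filter Nat.Prime,
            gg p * (Real.log p / Real.log x) ^ 2 ≤ ε / 4 := by
        rw [one_div_mul_eq_div, div_le_iff₀ (by positivity)]
        exact e2.trans hCτ
      simp only [Nat.cast_zero, zero_mul, add_zero, zero_add, sub_self]
      exact e1.trans e3
    | succ k ih =>
      intro hk
      have e1 := hwin k hk
      have e2 := ih (by omega)
      push_cast
      linarith
  have hfin := hall N le_rfl
  rw [hsN, hstep, hsN] at hfin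
  have e1 : b * Real.exp κ / r = Real.exp κ * (b / r) := by ring
  rw [e1] at hfin
  have e2 := hH1 (Real.exp κ) (Real.one_le_exp hκ0)
  rw [Real.log_exp] at e2
  have e3 := hH0 (s 1 / r) (by have := hspos 1; positivity)
  have e4 : (N : ℝ) * ε' = ε / 4 := by
    rw [hε']
    field_simp
  rw [e4] at hfin
  linarith

private theorem y3_cubic (s t : ℝ) (hs : 0 < s) (hst : s ≤ t) (ht : t ≤ 1) :
    (s ^ 2 - 2 / 3 * s ^ 3) * Real.log (t / s) ≤
      (t ^ 2 / 2 - 2 / 9 * t ^ 3) - (s ^ 2 / 2 - 2 / 9 * s ^ 3) := by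
  set c := s ^ 2 - 2 / 3 * s ^ 3 with hc
  have ht0 : 0 < t := lt_of_lt_of_le hs hst
  have hder : ∀ u : ℝ, 0 < u → HasDerivAt (fun u : ℝ => u ^ 2 / 2 - 2 / 9 * u ^ 3 - c * Real.log u)
      (u - 2 / 3 * u ^ 2 - c / u) u := by
    intro u hu
    have a1 : HasDerivAt (fun u : ℝ => u ^ 2 / 2) u u :=
      ((hasDerivAt_pow 2 u).div_const 2).congr_deriv (by norm_num)
    have a2 : HasDerivAt (fun u : ℝ => 2 / 9 * u ^ 3) (2 / 3 * u ^ 2) u :=
      ((hasDerivAt_pow 3 u).const_mul (2 / 9 : ℝ)).congr_deriv (by norm_num; ring)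
    have a3 : HasDerivAt (fun u : ℝ => c * Real.log u) (c / u) u :=
      ((Real.hasDerivAt_log hu.ne').const_mul c).congr_deriv (by rw [div_eq_mul_inv])
    exact (a1.sub a2).sub a3
  have hmono : MonotoneOn (fun u : ℝ => u ^ 2 / 2 - 2 / 9 * u ^ 3 - c * Real.log u)
      (Set.Icc s 1) := by
    apply monotoneOn_of_deriv_nonneg (convex_Icc s 1)
    · intro u hu
      exact (hder u (lt_of_lt_of_le hs hu.1)).continuousAt.continuousWithinAt
    · intro u hu
      rw [interior_Icc] at hu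
      exact (hder u (hs.trans hu.1)).differentiableAt.differentiableWithinAt
    · intro u hu
      rw [interior_Icc] at hu
      have hu0 : 0 < u := hs.trans hu.1
      rw [(hder u hu0).deriv]
      have a1 : c ≤ u ^ 2 - 2 / 3 * u ^ 3 := by
        rw [hc]
        nlinarith [mul_nonneg (sub_nonneg.2 hu.1.le) (sub_nonneg.2 hu.2.le),
          mul_nonneg (mul_nonneg (sub_nonneg.2 hu.1.le) hs.le) (sub_nonneg.2 hu.2.le),
          mul_nonneg (mul_nonneg (sub_nonneg.2 hu.1.le) hu0.le) (sub_nonneg.2 hu.2.le),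
          mul_nonneg (mul_nonneg (sub_nonneg.2 hu.1.le) hs.le) (sub_nonneg.2 hu.1.le),
          mul_nonneg (sub_nonneg.2 hu.1.le) hs.le]
      have a2 : c / u ≤ u - 2 / 3 * u ^ 2 := by
        rw [div_le_iff₀ hu0]
        calc c ≤ u ^ 2 - 2 / 3 * u ^ 3 := a1
          _ = _ := by ring
      linarith
  have h1 := hmono (Set.mem_Icc.2 ⟨le_rfl, hst.trans ht⟩) (Set.mem_Icc.2 ⟨hst, ht⟩) hst
  simp only at h1
  rw [Real.log_div ht0.ne' hs.ne']
  linarith

private theorem y3_sq (s t : ℝ) (hs : 0 < s) (hst : s ≤ t) :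
    s ^ 2 * Real.log (t / s) ≤ t ^ 2 / 2 - s ^ 2 / 2 := by
  have ht0 : 0 < t := lt_of_lt_of_le hs hst
  have h1 : Real.log (t / s) ≤ ((t / s) ^ 2 - 1) / 2 := by
    have h2 := Real.log_le_sub_one_of_pos (show 0 < (t / s) ^ 2 by positivity)
    rw [Real.log_pow] at h2
    push_cast at h2
    linarith
  calc s ^ 2 * Real.log (t / s) ≤ s ^ 2 * (((t / s) ^ 2 - 1) / 2) :=
        mul_le_mul_of_nonneg_left h1 (by positivity)
    _ = _ := by
      field_simp

theorem mert_h (r b ε : ℝ) (hr : 0 < r) (hrb : r ≤ b) (hb : b ≤ 1) (hbr : b ≤ 11 / 10 * r)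
    (hε : 0 < ε) : ∃ X₀ : ℕ, ∀ x : ℕ, X₀ ≤ x →
      ∑ p ∈ (Icc 1 ⌊(x : ℝ) ^ b⌋₊).filter Nat.Prime, gg p * hf (Real.log p / (r * Real.log x)) ≤
        5 / 18 + 1 / 3 * Real.log (b / r) + ε ∧
      ∑ p ∈ (Icc 1 ⌊(x : ℝ) ^ b⌋₊).filter Nat.Prime,
        gg p * min 1 ((Real.log p / (r * Real.log x)) ^ 2) ≤ 1 := by
  have hb0 : 0 < b := lt_of_lt_of_le hr hrb
  have hbr1 : 1 ≤ b / r := (one_le_div hr).2 hrb
  -- the first function
  have A : ∃ X₀ : ℕ, ∀ x : ℕ, X₀ ≤ x →
      ∑ p ∈ (Icc 1 ⌊(x : ℝ) ^ b⌋₊).filter Nat.Prime, gg p * hf (Real.log p / (r * Real.log x)) ≤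
        (fun θ : ℝ => if θ ≤ 1 then θ ^ 2 / 2 - 2 / 9 * θ ^ 3 else 5 / 18 + 1 / 3 * Real.log θ)
          (b / r) + ε := by
    have hge : ∀ θ : ℝ, 1 ≤ θ →
        (if θ ≤ 1 then θ ^ 2 / 2 - 2 / 9 * θ ^ 3 else 5 / 18 + 1 / 3 * Real.log θ) =
          5 / 18 + 1 / 3 * Real.log θ := by
      intro θ hθ
      split_ifs with h1
      · have : θ = 1 := le_antisymm h1 hθ
        rw [this, Real.log_one]
        norm_num
      · rfl
    have hfge : ∀ θ : ℝ, 1 ≤ θ → hf θ = 1 / 3 := by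
      intro θ hθ
      unfold hf
      split_ifs with h1
      · have : θ = 1 := le_antisymm h1 hθ
        rw [this]
        norm_num
      · rfl
    have hfle : ∀ θ : ℝ, θ ≤ 1 → hf θ = θ ^ 2 - 2 / 3 * θ ^ 3 := by
      intro θ hθ
      unfold hf
      rw [if_pos hθ]
    have hfm : ∀ s t : ℝ, 0 ≤ s → s ≤ t → t ≤ 1 → hf s ≤ hf t := by
      intro s t hs hst ht
      rw [hfle s (hst.trans ht), hfle t ht]
      have ht0 : 0 ≤ t := hs.trans hst
      have hs1 : s ≤ 1 := hst.trans ht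
      nlinarith [mul_nonneg (mul_nonneg (sub_nonneg.2 hst) hs) (sub_nonneg.2 ht),
        mul_nonneg (mul_nonneg (sub_nonneg.2 hst) ht0) (sub_nonneg.2 ht),
        mul_nonneg (mul_nonneg (sub_nonneg.2 hst) hs) (sub_nonneg.2 hs1),
        mul_nonneg (mul_nonneg (sub_nonneg.2 hst) ht0) (sub_nonneg.2 hs1),
        mul_nonneg (sub_nonneg.2 hst) hs, mul_nonneg (sub_nonneg.2 hst) ht0]
    have hfmono : ∀ s t : ℝ, 0 ≤ s → s ≤ t → hf s ≤ hf t := by
      intro s t hs hst
      rcases le_total t 1 with h1 | h1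
      · exact hfm s t hs hst h1
      · rcases le_total s 1 with h2 | h2
        · have h3 := hfm s 1 hs h2 le_rfl
          rw [hfge 1 le_rfl] at h3
          rw [hfge t h1]
          exact h3
        · rw [hfge s h2, hfge t h1]
    refine y3_core r b hr hb0 hb hf (fun θ : ℝ => if θ ≤ 1 then θ ^ 2 / 2 - 2 / 9 * θ ^ 3 else
      5 / 18 + 1 / 3 * Real.log θ) ?_ ?_ hfmono ?_ ?_ ?_ ?_ ε hε
    · intro θ hθ
      have h1 := hfmono θ (max θ 1) hθ (le_max_left _ _)
      rw [hfge _ (le_max_right _ _)] at h1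
      linarith
    · intro θ hθ
      rcases le_total θ 1 with h1 | h1
      · rw [hfle θ h1]
        have : 0 ≤ θ ^ 3 := by positivity
        linarith
      · rw [hfge θ h1]
        nlinarith
    · intro θ hθ
      have h1 := hfmono 0 θ le_rfl hθ
      rw [hfle 0 zero_le_one] at h1
      linarith
    · intro s t hs hst
      rcases le_total t 1 with h1 | h1
      · simp only [if_pos h1, if_pos (hst.trans h1)]
        rw [hfle s (hst.trans h1)]
        exact y3_cubic s t hs hst h1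
      · rw [hge t h1]
        rcases le_total s 1 with h2 | h2
        · have h3 := y3_cubic s 1 hs h2 le_rfl
          simp only [if_pos h2]
          rw [hfle s h2]
          have h4 : Real.log (t / s) = Real.log (1 / s) + Real.log t := by
            rw [Real.log_div (by linarith) hs.ne', Real.log_div one_ne_zero hs.ne', Real.log_one]
            ring
          have h5 : 0 ≤ Real.log t := Real.log_nonneg h1
          have h6 : s ^ 2 - 2 / 3 * s ^ 3 ≤ 1 / 3 := by
            have := hfm s 1 hs.le h2 le_rfl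
            rw [hfle s h2, hfge 1 le_rfl] at this
            exact this
          rw [h4, mul_add]
          have h7 := mul_le_mul_of_nonneg_right h6 h5
          have h8 : (1 : ℝ) ^ 2 / 2 - 2 / 9 * 1 ^ 3 = 5 / 18 := by norm_num
          rw [h8] at h3
          linarith
        · rw [hge s h2, hfge s h2, Real.log_div (by linarith) (by linarith)]
          linarith
    · intro s hs
      split_ifs with h1
      · have : s ^ 3 ≤ s ^ 2 := by nlinarith [mul_nonneg (sq_nonneg s) (sub_nonneg.2 h1)]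
        nlinarith [sq_nonneg s]
      · have := Real.log_nonneg (not_le.1 h1).le
        linarith
    · intro l hl
      have h1 : 1 ≤ l * (b / r) := by nlinarith
      rw [hge _ h1, hge _ hbr1, Real.log_mul (by linarith) (by linarith)]
      have := Real.log_nonneg hl
      linarith
  have B : ∃ X₀ : ℕ, ∀ x : ℕ, X₀ ≤ x →
      ∑ p ∈ (Icc 1 ⌊(x : ℝ) ^ b⌋₊).filter Nat.Prime,
        gg p * (fun θ : ℝ => min 1 (θ ^ 2)) (Real.log p / (r * Real.log x)) ≤
        (fun θ : ℝ => if θ ≤ 1 then θ ^ 2 / 2 else 1 / 2 + Real.log θ) (b / r) + 1 / 4 := by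
    have hge : ∀ θ : ℝ, 1 ≤ θ →
        (if θ ≤ 1 then θ ^ 2 / 2 else 1 / 2 + Real.log θ) = 1 / 2 + Real.log θ := by
      intro θ hθ
      split_ifs with h1
      · have : θ = 1 := le_antisymm h1 hθ
        rw [this, Real.log_one]
        norm_num
      · rfl
    have hmle : ∀ θ : ℝ, 0 ≤ θ → θ ≤ 1 → min 1 (θ ^ 2) = θ ^ 2 := fun θ h0 h1 =>
      min_eq_right (by nlinarith)
    have hmge : ∀ θ : ℝ, 1 ≤ θ → min 1 (θ ^ 2) = 1 := fun θ h1 => min_eq_left (by nlinarith)
    refine y3_core r b hr hb0 hb (fun θ : ℝ => min 1 (θ ^ 2))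
      (fun θ : ℝ => if θ ≤ 1 then θ ^ 2 / 2 else 1 / 2 + Real.log θ) ?_ ?_ ?_ ?_ ?_ ?_ ?_ (1 / 4)
      (by norm_num)
    · intro θ _
      exact min_le_left _ _
    · intro θ _
      exact min_le_right _ _
    · intro s t hs hst
      exact min_le_min le_rfl (pow_le_pow_left₀ hs hst 2)
    · intro θ _
      exact le_min zero_le_one (sq_nonneg _)
    · intro s t hs hst
      rcases le_total t 1 with h1 | h1
      · rw [if_pos h1, if_pos (hst.trans h1), hmle s hs.le (hst.trans h1)]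
        exact y3_sq s t hs hst
      · rw [hge t h1]
        rcases le_total s 1 with h2 | h2
        · have h3 := y3_sq s 1 hs h2
          rw [if_pos h2, hmle s hs.le h2]
          have h4 : Real.log (t / s) = Real.log (1 / s) + Real.log t := by
            rw [Real.log_div (by linarith) hs.ne', Real.log_div one_ne_zero hs.ne', Real.log_one]
            ring
          have h5 : 0 ≤ Real.log t := Real.log_nonneg h1
          have h6 : s ^ 2 ≤ 1 := by nlinarith
          rw [h4, mul_add]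
          have h7 := mul_le_mul_of_nonneg_right h6 h5
          linarith
        · rw [hge s h2, hmge s h2, Real.log_div (by linarith) (by linarith)]
          linarith
    · intro s hs
      split_ifs with h1
      · positivity
      · have := Real.log_nonneg (not_le.1 h1).le
        linarith
    · intro l hl
      have h1 : 1 ≤ l * (b / r) := by nlinarith
      rw [hge _ h1, hge _ hbr1, Real.log_mul (by linarith) (by linarith)]
      linarith
  obtain ⟨X₁, hA⟩ := A
  obtain ⟨X₂, hB⟩ := B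
  refine ⟨max X₁ X₂, fun x hx => ⟨?_, ?_⟩⟩
  · refine (hA x ((le_max_left _ _).trans hx)).trans (le_of_eq ?_)
    simp only
    split_ifs with h1
    · have : b / r = 1 := le_antisymm h1 hbr1
      rw [this, Real.log_one]
      norm_num
    · rfl
  · refine (hB x ((le_max_right _ _).trans hx)).trans ?_
    simp only
    have h2 : b / r ≤ 11 / 10 := by
      rw [div_le_iff₀ hr]
      exact hbr
    split_ifs with h1
    · have : b / r = 1 := le_antisymm h1 hbr1
      rw [this]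
      norm_num
    · have := Real.log_le_sub_one_of_pos (show 0 < b / r by linarith)
      linarith

end Pool.Agent.Work.MP_70e905_nt.M3
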