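import Pool.Agent.Work.MP_70e905_nt.M3.Defs
import Pool.Agent.Work.MP_70e905_nt.M3.Y2
import Pool.Agent.Work.MP_70e905_nt.M3.Y3
import Pool.Agent.Work.MP_70e905_nt.MT.F1

set_option autoImplicit false

/-!
MODULE Y4 (the second one variable sum), size S.

For `p ∈ P`: `Ndif` for `P.erase p` (`hup` for `P.erase p` from `hup` for `P` by `Nz_mono`), `q = p`. Multiply by
`gg p ≥ 0`, sum over `p ∈ P ⊆ primes up to x^b` (all terms are nonnegative), and use `mert_h`.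
-/

namespace Pool.Agent.Work.MP_70e905_nt.M3

open Finset Pool.Agent.Work.MP_73869e_nt.TH Pool.Agent.Work.MP_70e905_nt.MT

private theorem y4_hf_nonneg {θ : ℝ} (h : 0 ≤ θ) : 0 ≤ hf θ := by
  unfold hf
  split_ifs with h1
  · have h2 : θ ^ 2 - 2 / 3 * θ ^ 3 = θ ^ 2 * (1 - 2 / 3 * θ) := by ring
    rw [h2]
    exact mul_nonneg (sq_nonneg θ) (by linarith)
  · norm_num

theorem Tb_one (r b ε : ℝ) (hr : 0 < r) (hrb : r ≤ b) (hb : b ≤ 1) (hbr : b ≤ 11 / 10 * r)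
    (hε : 0 < ε) : ∃ X₀ : ℕ, ∀ x : ℕ, X₀ ≤ x → ∀ P : Finset ℕ,
      (∀ p ∈ P, p.Prime ∧ (p : ℝ) ≤ (x : ℝ) ^ b) → ∀ A e : ℝ, 0 ≤ A → 0 ≤ e →
      (∀ t : ℝ, 0 ≤ t → t ≤ r → Nz P ((x : ℝ) ^ t) ≤ A * (t + e)) →
      ∑ p ∈ P, gg p * ∑ S ∈ (P.erase p).powerset,
          HH S * (yv x r (pd S) - yv x r (p * pd S)) ^ 2 ≤
        A * (r * (5 / 18 + 1 / 3 * Real.log (b / r) + ε) + e) := by
  obtain ⟨X₀, hX₀⟩ := mert_h r b ε hr hrb hb hbr hε
  refine ⟨max X₀ 2, fun x hx P hP A e hA he hup => ?_⟩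
  have hx2 : 2 ≤ x := (le_max_right _ _).trans hx
  have hxr : (2 : ℝ) ≤ x := by exact_mod_cast hx2
  have hlx : 0 < Real.log x := Real.log_pos (by linarith)
  obtain ⟨h1, h2⟩ := hX₀ x ((le_max_left _ _).trans hx)
  have hsub : P ⊆ (Icc 1 ⌊(x : ℝ) ^ b⌋₊).filter Nat.Prime := by
    intro p hp
    rw [Finset.mem_filter, Finset.mem_Icc]
    exact ⟨⟨(hP p hp).1.pos, Nat.le_floor (hP p hp).2⟩, (hP p hp).1⟩
  have hgg : ∀ p : ℕ, p.Prime → 0 ≤ gg p := by
    intro p hp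
    have : (2 : ℝ) ≤ p := by exact_mod_cast hp.two_le
    unfold gg
    exact one_div_nonneg.2 (by linarith)
  have hθ : ∀ p : ℕ, p.Prime → 0 ≤ Real.log p / (r * Real.log x) := by
    intro p hp
    have : (2 : ℝ) ≤ p := by exact_mod_cast hp.two_le
    exact div_nonneg (Real.log_nonneg (by linarith)) (by positivity)
  have h3 : ∑ p ∈ P, gg p * hf (Real.log p / (r * Real.log x)) ≤
      5 / 18 + 1 / 3 * Real.log (b / r) + ε := by
    refine le_trans (Finset.sum_le_sum_of_subset_of_nonneg hsub fun p hp _ => ?_) h1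
    have hpp := (Finset.mem_filter.1 hp).2
    exact mul_nonneg (hgg p hpp) (y4_hf_nonneg (hθ p hpp))
  have h4 : ∑ p ∈ P, gg p * min 1 ((Real.log p / (r * Real.log x)) ^ 2) ≤ 1 := by
    refine le_trans (Finset.sum_le_sum_of_subset_of_nonneg hsub fun p hp _ => ?_) h2
    have hpp := (Finset.mem_filter.1 hp).2
    exact mul_nonneg (hgg p hpp) (le_min zero_le_one (sq_nonneg _))
  have h5 : ∀ p ∈ P, gg p * ∑ S ∈ (P.erase p).powerset,
          HH S * (yv x r (pd S) - yv x r (p * pd S)) ^ 2 ≤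
      gg p * (A * (r * hf (Real.log p / (r * Real.log x)) +
        e * min 1 ((Real.log p / (r * Real.log x)) ^ 2))) := by
    intro p hp
    refine mul_le_mul_of_nonneg_left ?_ (hgg p (hP p hp).1)
    refine Ndif (P.erase p) (fun l hl => (hP l (Finset.mem_of_mem_erase hl)).1) x hx2 r A e hr hA he
      (fun t ht0 htr => ?_) p (hP p hp).1.one_lt.le
    exact (Nz_mono _ _ (Finset.erase_subset p P) (fun l hl => (hP l hl).1) _).trans (hup t ht0 htr)
  refine (Finset.sum_le_sum h5).trans ?_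
  have h6 : ∑ p ∈ P, gg p * (A * (r * hf (Real.log p / (r * Real.log x)) +
        e * min 1 ((Real.log p / (r * Real.log x)) ^ 2))) =
      A * (r * ∑ p ∈ P, gg p * hf (Real.log p / (r * Real.log x)) +
        e * ∑ p ∈ P, gg p * min 1 ((Real.log p / (r * Real.log x)) ^ 2)) := by
    rw [Finset.mul_sum, Finset.mul_sum, ← Finset.sum_add_distrib, Finset.mul_sum]
    refine Finset.sum_congr rfl fun p _ => ?_
    ring
  rw [h6]
  refine mul_le_mul_of_nonneg_left ?_ hA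
  have h7 := mul_le_mul_of_nonneg_left h3 hr.le
  have h8 := mul_le_mul_of_nonneg_left h4 he
  linarith

end Pool.Agent.Work.MP_70e905_nt.M3
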