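import Pool.Agent.Work.MP_70e905_nt.M3.Defs
import Pool.Agent.Work.MP_70e905_nt.M3.H1
import Pool.Agent.Work.MP_70e905_nt.M3.H2
import Pool.Agent.Work.MP_70e905_nt.M3.Y1
import Pool.Agent.Work.MP_70e905_nt.M3.Y2
import Pool.Agent.Work.MP_70e905_nt.M3.Y4
import Pool.Agent.Work.MP_70e905_nt.M3.N2
import Pool.Agent.Work.MP_70e905_nt.M3.N3
import Pool.Agent.Work.MP_70e905_nt.M3.LE
import Pool.Agent.Work.MP_70e905_nt.MT.C2
import Pool.Agent.Work.MP_70e905_nt.MT.M0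
import Pool.Agent.Work.MP_70e905_nt.MT.A6
import Pool.Agent.Work.MP_70e905_nt.MT.A5
import Pool.Agent.Work.MP_73869e_nt.TH.T02

set_option autoImplicit false

/-!
MODULE LF (main term of the lower bound sieve, second part), size M-L.

`Pz = Q c W (1/8)`, `P = c.P W δ`, `r = 249/2000`, `b = 1/8`, `h = yv x r`, `V = Yh P Pz h j Z`. `Ex_upper` (TH/T02):
`Ex gg (Pz.erase p) (ff (Vd V p j))² ≤ ∑_{A ∈ LS K (Pz.erase p)} (Vd V p j A)² ga gg A`. For such `A` (with `A₁` = labels `≠ j`,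
`S = lb j A`, `E₁ = A₁.image fst`): `Vd = m + t`, `m = V A - V (insert (p,j) A) = Z(A₁) (h (pd S) - h (p pd S)) / Nh (Pz \ E₁) h`
(if the condition of `Yh` holds; otherwise `m = 0`) and `t = gg p ∑_l V (insert (p,l) A)` (`l = i`: `0`).
`(m + t)² ≤ (1 + 10^-4) m² + (1 + 10^4) t²`.
BOUNDS: `0 ≤ Z(A₁) ≤ (∏_{l ≠ i,j} yy) U1²` (`ZZ_leU` of MT/C2), `Nh (Pz \ E₁) h ≥ κ rt(E₁) lx r/2` (`Nh_yv`, `Nz_lowt`).
MAIN PART: `A ↔ (A₁, S)`, `S ⊆ Pz.erase p`: `∑_p gg p ∑_A m² ga gg A ≤ (∑_{A₁} (∏ yy)² U1^4 ga gg A₁ rt(E₁)^-2) / (κ lx r/2)² *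
∑_p gg p ∑_{S ⊆ Pz.erase p} HH S (h (pd S) - h (p pd S))²`. First factor: `rt_inv`, `gg_pow`, `tuple_leg` (`m = 4`):
`≤ exp (8 K / D₀) U2^(K-2) U1^4`. Second: `Tb_one` (Y4) with `A = (1 + 10^-6) κ lx`, `e = 10^-6` (`Nz_sharp`, `E = ∅`, `d = 0`):
`≤ (1 + 10^-6) κ lx (r (5/18 + log(b/r)/3 + 10^-6) + 10^-6)`. `b/r = 250/249`, `log(b/r) ≤ 1/249`, so the total constant is
`(4/r)(5/18 + 1/747)(1 + small) ≤ 8.9701`.
PART `t`: every `V (insert (p,l) A)` is at most `2 (∏ yy(A₁)) U1² h (pd S) / (κ rt(E₁) lx r/2)` in absolute value (`yy`, `h`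
decreasing, `rt (insert p E₁) ≥ rt(E₁)/2`), so `t² ≤ gg p² 4 K² (...)²`, and `∑_p gg p^3 ≤ (1/D₀) ∑ gg² ≤ 2 / D₀²`; the sum over
`A` of `(∏ yy)² U1^4 rt^-2 h² ga / (κ lx r/2)²` is at most `exp(8K/D₀) U2^(K-2) U1^4 Nh Pz h / (κ lx r/2)² ≤ 40 Um`. So the part
`t` is at most `(1 + 10^4) 8 K² / D₀² * 40 Um ≤ 10^-4 Um` (`D₀ ≥ 16·10^6 K²`). Total `≤ 8.98 Um`.
-/

namespace Pool.Agent.Work.MP_70e905_nt.M3

open Finset Pool.Agent.Work.MP_73869e_nt.TH Pool.Agent.Work.MP_70e905_nt.MT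

private theorem lf_gg {p : ℕ} (hp : p.Prime) : 0 ≤ gg p := by
  have h2 : (2 : ℝ) ≤ p := by exact_mod_cast hp.two_le
  unfold gg
  exact div_nonneg zero_le_one (by linarith)

private theorem lf_HH {S : Finset ℕ} (hS : ∀ p ∈ S, p.Prime) : 0 ≤ HH S :=
  Finset.prod_nonneg fun p hp => lf_gg (hS p hp)

private theorem lf_pd_pos {S : Finset ℕ} (hS : ∀ p ∈ S, p.Prime) : 1 ≤ pd S :=
  Finset.prod_pos fun p hp => (hS p hp).pos

private theorem lf_pd_mono {S T : Finset ℕ} (hST : S ⊆ T) (hT : ∀ p ∈ T, p.Prime) : pd S ≤ pd T := by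
  unfold pd
  exact Finset.prod_le_prod_of_subset_of_one_le' hST fun p hp _ => (hT p hp).one_lt.le

private theorem lf_filter_j {K : ℕ} (j : Fin K) (p : ℕ) (A : Finset (ℕ × Fin K)) :
    (insert (p, j) A).filter (fun c => c.2 ≠ j) = A.filter (fun c => c.2 ≠ j) := by
  ext c
  simp only [mem_filter, mem_insert]
  constructor
  · rintro ⟨h1 | h1, h2⟩
    · rw [h1] at h2
      exact absurd rfl h2
    · exact ⟨h1, h2⟩
  · rintro ⟨h1, h2⟩
    exact ⟨Or.inr h1, h2⟩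

private theorem lf_filter_l {K : ℕ} (j l : Fin K) (hl : l ≠ j) (p : ℕ) (A : Finset (ℕ × Fin K)) :
    (insert (p, l) A).filter (fun c => c.2 ≠ j) = insert (p, l) (A.filter (fun c => c.2 ≠ j)) := by
  ext c
  simp only [mem_filter, mem_insert]
  constructor
  · rintro ⟨h1 | h1, h2⟩
    · exact Or.inl h1
    · exact Or.inr ⟨h1, h2⟩
  · rintro (h1 | ⟨h1, h2⟩)
    · refine ⟨Or.inl h1, ?_⟩
      rw [h1]
      exact hl
    · exact ⟨Or.inr h1, h2⟩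

private theorem lf_lb_j {K : ℕ} (j : Fin K) (p : ℕ) (A : Finset (ℕ × Fin K)) :
    lb j (insert (p, j) A) = insert p (lb j A) := by
  ext q
  rw [mem_lb, mem_insert, mem_insert, mem_lb]
  constructor
  · rintro (h | h)
    · exact Or.inl (Prod.ext_iff.1 h).1
    · exact Or.inr h
  · rintro (h | h)
    · exact Or.inl (by rw [h])
    · exact Or.inr h

private theorem lf_lb_l {K : ℕ} (j l : Fin K) (hl : l ≠ j) (p : ℕ) (A : Finset (ℕ × Fin K)) :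
    lb j (insert (p, l) A) = lb j A := by
  ext q
  rw [mem_lb, mem_insert, mem_lb]
  constructor
  · rintro (h | h)
    · exact absurd (Prod.ext_iff.1 h).2.symm hl
    · exact h
  · exact fun h => Or.inr h

private theorem lf_lb_sub {K : ℕ} (l : Fin K) {A B : Finset (ℕ × Fin K)} (h : A ⊆ B) :
    lb l A ⊆ lb l B := by
  intro q hq
  rw [mem_lb] at hq ⊢
  exact h hq

private theorem lf_lb_mem {K : ℕ} {P : Finset ℕ} (l : Fin K) {A : Finset (ℕ × Fin K)}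
    (h : ∀ c ∈ A, c.1 ∈ P) : ∀ p ∈ lb l A, p ∈ P := by
  intro q hq
  rw [mem_lb] at hq
  exact h _ hq

private theorem lf_prod {K : ℕ} {M : Type*} [CommMonoid M] (j : Fin K) (A : Finset (ℕ × Fin K))
    (f : ℕ → M) : ∏ c ∈ A, f c.1 =
      (∏ c ∈ A.filter (fun c => c.2 ≠ j), f c.1) * ∏ p ∈ lb j A, f p := by
  rw [← Finset.prod_filter_mul_prod_filter_not A (fun c => c.2 ≠ j) (fun c => f c.1)]
  congr 1
  unfold lb
  have h1 : A.filter (fun c => ¬ c.2 ≠ j) = A.filter (fun c => c.2 = j) := by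
    refine Finset.filter_congr fun c _ => ?_
    rw [not_not]
  rw [h1, Finset.prod_image]
  intro c hc d hd hcd
  exact Prod.ext hcd ((mem_filter.1 hc).2.trans (mem_filter.1 hd).2.symm)

/-- sums of products of a function of the labels different from `j` and of the label `j` -/
private theorem lf_le {K : ℕ} (P : Finset ℕ) (j : Fin K) (G : Finset (ℕ × Fin K) → ℝ)
    (g : Finset ℕ → ℝ) (hG : ∀ A, A ∈ LS K P → (∀ a ∈ A, a.2 ≠ j) → 0 ≤ G A)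
    (hg : ∀ U, U ⊆ P → 0 ≤ g U) :
    ∑ A ∈ LS K P, G (A.filter (fun a => a.2 ≠ j)) * g (lb j A) ≤
      (∑ A ∈ (LS K P).filter (fun A => ∀ a ∈ A, a.2 ≠ j), G A) * ∑ U ∈ P.powerset, g U := by
  rw [sum_mul_sum, ← sum_product']
  have hinj : Set.InjOn (fun A : Finset (ℕ × Fin K) => (A.filter (fun a => a.2 ≠ j), lb j A))
      (LS K P : Set (Finset (ℕ × Fin K))) := by
    intro A _ B _ hAB
    have h1 : A.filter (fun a => a.2 ≠ j) = B.filter (fun a => a.2 ≠ j) := (Prod.ext_iff.1 hAB).1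
    have h2 : lb j A = lb j B := (Prod.ext_iff.1 hAB).2
    ext ⟨p, k⟩
    by_cases hk : k = j
    · subst hk
      rw [← mem_lb, ← mem_lb, h2]
    · have e1 : (p, k) ∈ A ↔ (p, k) ∈ A.filter (fun a => a.2 ≠ j) := by
        rw [mem_filter]
        exact ⟨fun h => ⟨h, hk⟩, fun h => h.1⟩
      have e2 : (p, k) ∈ B ↔ (p, k) ∈ B.filter (fun a => a.2 ≠ j) := by
        rw [mem_filter]
        exact ⟨fun h => ⟨h, hk⟩, fun h => h.1⟩
      rw [e1, e2, h1]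
  have himg : ∑ A ∈ LS K P, G (A.filter (fun a => a.2 ≠ j)) * g (lb j A) =
      ∑ x ∈ (LS K P).image (fun A => (A.filter (fun a => a.2 ≠ j), lb j A)), G x.1 * g x.2 := by
    rw [sum_image hinj]
  rw [himg]
  refine sum_le_sum_of_subset_of_nonneg ?_ ?_
  · intro x hx
    obtain ⟨A, hA, rfl⟩ := mem_image.1 hx
    rw [mem_LS] at hA
    rw [mem_product, mem_filter, mem_LS, mem_powerset]
    refine ⟨⟨⟨fun a ha => hA.1 a (mem_filter.1 ha).1, ?_⟩, fun a ha => (mem_filter.1 ha).2⟩,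
      fun p hp => hA.1 _ ((mem_lb _ _ _).1 hp)⟩
    intro a ha b hb hab
    exact hA.2 a (mem_filter.1 ha).1 b (mem_filter.1 hb).1 hab
  · intro x hx _
    rw [mem_product, mem_filter, mem_powerset] at hx
    exact mul_nonneg (hG _ hx.1.1 hx.1.2) (hg _ hx.2)

private theorem lf_rt_pos (E : Finset ℕ) (hE : ∀ p ∈ E, p.Prime) : 0 < rt E := by
  unfold rt
  refine Finset.prod_pos fun p hp => ?_
  have h2 : (2 : ℝ) ≤ p := by exact_mod_cast (hE p hp).two_le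
  have h3 : 1 / (p : ℝ) < 1 := by
    rw [div_lt_one (by linarith)]
    linarith
  linarith

/-- pointwise bound of the coefficients `Vd` -/
private theorem lf_pt {K : ℕ} (x L : ℕ) (t₀ δ : ℝ) (P Pz : Finset ℕ)
    (hPz : ∀ p ∈ Pz, p.Prime) (hP : ∀ p ∈ P, p.Prime) (h : ℕ → ℝ) (h0 : ∀ n, 0 ≤ h n)
    (ha : ∀ m n, 1 ≤ m → m ≤ n → h n ≤ h m) (a : ℝ) (ha0 : 0 < a)
    (hN : ∀ E : Finset ℕ, (∀ p ∈ E, p.Prime) → a * rt E ≤ Nh (Pz \ E) h)
    (i j : Fin K) (hij : i ≠ j) (p : ℕ) (hp : p ∈ Pz) (A : Finset (ℕ × Fin K))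
    (hA : A ∈ LS K (Pz.erase p)) (Z : Finset (ℕ × Fin K) → ℝ)
    (hZ : Z = Zj gg P j (Zj gg P i (YY x L t₀ δ)))
    (G : Finset (ℕ × Fin K) → ℝ)
    (hG : ∀ B, (∀ c ∈ B, c.1 ∈ P) → (∀ c ∈ B, c.2 ≠ i ∧ c.2 ≠ j) →
      G B = ((∏ l ∈ (univ.erase i).erase j, yy x L t₀ (pd (lb l B))) * U1 P x L t₀ ^ 2 /
        (rt (B.image Prod.fst) * a)) ^ 2)
    (hG0 : ∀ B, 0 ≤ G B) :
    (Vd (Yh P Pz h j Z) p j A) ^ 2 ≤ G (A.filter (fun c => c.2 ≠ j)) *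
      ((1 + 1 / 10 ^ 4) * (h (pd (lb j A)) - h (p * pd (lb j A))) ^ 2 +
        (1 + 10 ^ 4) * (4 * K ^ 2) * (gg p ^ 2 * h (pd (lb j A)) ^ 2)) := by
  classical
  have hpp := hPz p hp
  obtain ⟨hA1, hA2⟩ := mem_LS.1 hA
  have hgp := lf_gg hpp
  have hRHS : 0 ≤ G (A.filter (fun c => c.2 ≠ j)) *
      ((1 + 1 / 10 ^ 4) * (h (pd (lb j A)) - h (p * pd (lb j A))) ^ 2 +
        (1 + 10 ^ 4) * (4 * K ^ 2) * (gg p ^ 2 * h (pd (lb j A)) ^ 2)) := by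
    refine mul_nonneg (hG0 _) ?_
    positivity
  have hZz : ∀ B : Finset (ℕ × Fin K), (∃ c ∈ B, c.2 = i) → Z B = 0 := by
    rintro B ⟨c, hc, hci⟩
    rw [hZ]
    exact ZZ_zero P i j _ B ⟨c, hc, Or.inl hci⟩
  by_cases hi : ∃ c ∈ A, c.2 = i
  · -- label i
    have e1 : Yh P Pz h j Z A = 0 := Yh_zero P Pz h i j hij Z hZz A hi
    have e2 : ∀ l : Fin K, Yh P Pz h j Z (insert (p, l) A) = 0 := by
      intro l
      obtain ⟨c, hc, hci⟩ := hi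
      exact Yh_zero P Pz h i j hij Z hZz _ ⟨c, mem_insert_of_mem hc, hci⟩
    have e3 : Vd (Yh P Pz h j Z) p j A = 0 := by
      unfold Vd
      rw [e1, e2 j, sum_eq_zero fun l _ => e2 l]
      ring
    rw [e3]
    simpa using hRHS
  by_cases hcond : ∀ c ∈ A, c.2 ≠ j → c.1 ∈ P
  swap
  · have e1 : Yh P Pz h j Z A = 0 := by
      unfold Yh
      rw [if_neg hcond]
    have e2 : ∀ l : Fin K, Yh P Pz h j Z (insert (p, l) A) = 0 := by
      intro l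
      unfold Yh
      rw [if_neg]
      intro hc
      exact hcond fun c hc1 hc2 => hc c (mem_insert_of_mem hc1) hc2
    have e3 : Vd (Yh P Pz h j Z) p j A = 0 := by
      unfold Vd
      rw [e1, e2 j, sum_eq_zero fun l _ => e2 l]
      ring
    rw [e3]
    simpa using hRHS
  push Not at hi
  set A₁ := A.filter (fun c => c.2 ≠ j) with hA₁
  set S := lb j A with hS
  have hA₁P : ∀ c ∈ A₁, c.1 ∈ P := fun c hc => hcond c (mem_filter.1 hc).1 (mem_filter.1 hc).2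
  have hA₁l : ∀ c ∈ A₁, c.2 ≠ i ∧ c.2 ≠ j := fun c hc =>
    ⟨hi c (mem_filter.1 hc).1, (mem_filter.1 hc).2⟩
  have hpA : ∀ l, (p, l) ∉ A := by
    intro l hl
    have := hA1 _ hl
    exact (mem_erase.1 this).1 rfl
  have hpS : p ∉ S := by
    intro hc
    rw [hS, mem_lb] at hc
    exact hpA _ hc
  have hSp : ∀ q ∈ S, q.Prime := by
    intro q hq
    rw [hS, mem_lb] at hq
    exact hPz q (mem_erase.1 (hA1 _ hq)).2
  set E₁ := A₁.image Prod.fst with hE₁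
  have hE₁p : ∀ q ∈ E₁, q.Prime := by
    intro q hq
    obtain ⟨c, hc, rfl⟩ := mem_image.1 hq
    exact hP _ (hA₁P c hc)
  have hpE : p ∉ E₁ := by
    intro hq
    obtain ⟨c, hc, hcp⟩ := mem_image.1 hq
    have h1 := hA1 c (mem_filter.1 hc).1
    rw [hcp] at h1
    exact (mem_erase.1 h1).1 rfl
  have hrt := lf_rt_pos E₁ hE₁p
  have hN1 := hN E₁ hE₁p
  have hra : 0 < rt E₁ * a := by positivity
  have hNpos : 0 < Nh (Pz \ E₁) h := by
    refine lt_of_lt_of_le ?_ hN1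
    positivity
  set yA := ∏ l ∈ (univ.erase i).erase j, yy x L t₀ (pd (lb l A₁)) with hyA
  have hyA0 : 0 ≤ yA := prod_nonneg fun l _ => (yy_bd _ _ _ _).1
  set U := U1 P x L t₀ with hU
  obtain ⟨z1, z2⟩ := ZZ_leU x L P t₀ δ i j hij hP A₁ hA₁l
  rw [← hZ] at z1 z2
  rw [← hyA, ← hU] at z2
  set B := yA * U ^ 2 / (rt E₁ * a) with hB
  have hB0 : 0 ≤ B := by positivity
  have hGA : G A₁ = B ^ 2 := hG A₁ hA₁P hA₁l
  have hZN : Z A₁ / Nh (Pz \ E₁) h ≤ B := by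
    rw [hB]
    have h1 : rt E₁ * a ≤ Nh (Pz \ E₁) h := by
      rw [mul_comm]
      exact hN1
    exact div_le_div₀ (by positivity) z2 hra h1
  have hZN0 : 0 ≤ Z A₁ / Nh (Pz \ E₁) h := div_nonneg z1 hNpos.le
  have hpd : pd (insert p S) = p * pd S := by
    unfold pd
    rw [prod_insert hpS]
  have hVA : Yh P Pz h j Z A = Z A₁ / Nh (Pz \ E₁) h * h (pd S) := by
    unfold Yh
    rw [if_pos hcond, ← hA₁, ← hS, ← hE₁]
    ring
  have hVj : Yh P Pz h j Z (insert (p, j) A) = Z A₁ / Nh (Pz \ E₁) h * h (p * pd S) := by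
    unfold Yh
    rw [if_pos, lf_filter_j, lf_lb_j, ← hA₁, ← hS, ← hE₁, hpd]
    · ring
    · intro c hc hcj
      rcases mem_insert.1 hc with h1 | h1
      · rw [h1] at hcj
        exact absurd rfl hcj
      · exact hcond c h1 hcj
  have hS1 : 1 ≤ pd S := lf_pd_pos hSp
  have hhp : h (p * pd S) ≤ h (pd S) :=
    ha _ _ hS1 (Nat.le_mul_of_pos_left _ hpp.pos)
  have hVl : ∀ l : Fin K, 0 ≤ Yh P Pz h j Z (insert (p, l) A) ∧
      Yh P Pz h j Z (insert (p, l) A) ≤ 2 * B * h (pd S) := by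
    intro l
    by_cases hlj : l = j
    · subst hlj
      rw [hVj]
      refine ⟨mul_nonneg hZN0 (h0 _), ?_⟩
      calc Z A₁ / Nh (Pz \ E₁) h * h (p * pd S) ≤ B * h (pd S) :=
            mul_le_mul hZN hhp (h0 _) hB0
        _ ≤ 2 * B * h (pd S) := by
            have : 0 ≤ B * h (pd S) := mul_nonneg hB0 (h0 _)
            linarith
    by_cases hli : l = i
    · rw [Yh_zero P Pz h i j hij Z hZz _ ⟨(p, l), mem_insert_self _ _, hli⟩]
      exact ⟨le_rfl, mul_nonneg (mul_nonneg (by norm_num) hB0) (h0 _)⟩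
    by_cases hpP : p ∈ P
    swap
    · have : Yh P Pz h j Z (insert (p, l) A) = 0 := by
        unfold Yh
        rw [if_neg]
        intro hc
        exact hpP (hc (p, l) (mem_insert_self _ _) hlj)
      rw [this]
      exact ⟨le_rfl, mul_nonneg (mul_nonneg (by norm_num) hB0) (h0 _)⟩
    -- the main case
    have hval : Yh P Pz h j Z (insert (p, l) A) =
        Z (insert (p, l) A₁) / Nh (Pz \ insert p E₁) h * h (pd S) := by
      unfold Yh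
      rw [if_pos, lf_filter_l j l hlj, lf_lb_l j l hlj, ← hA₁, ← hS, image_insert, ← hE₁]
      · ring
      · intro c hc hcj
        rcases mem_insert.1 hc with h1 | h1
        · rw [h1]
          exact hpP
        · exact hcond c h1 hcj
    rw [hval]
    have hl2 : ∀ c ∈ insert (p, l) A₁, c.2 ≠ i ∧ c.2 ≠ j := by
      intro c hc
      rcases mem_insert.1 hc with h1 | h1
      · rw [h1]
        exact ⟨hli, hlj⟩
      · exact hA₁l c h1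
    obtain ⟨y1, y2⟩ := ZZ_leU x L P t₀ δ i j hij hP (insert (p, l) A₁) hl2
    rw [← hZ] at y1 y2
    have hprod : ∏ l' ∈ (univ.erase i).erase j, yy x L t₀ (pd (lb l' (insert (p, l) A₁))) ≤ yA := by
      refine prod_le_prod (fun _ _ => (yy_bd _ _ _ _).1) fun l' _ => yy_anti _ _ _ _ _ ?_
      refine lf_pd_mono (lf_lb_sub l' (subset_insert _ _)) ?_
      intro q hq
      refine hP q (lf_lb_mem l' ?_ q hq)
      intro c hc
      rcases mem_insert.1 hc with h1 | h1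
      · rw [h1]
        exact hpP
      · exact hA₁P c h1
    have hZ2 : Z (insert (p, l) A₁) ≤ yA * U ^ 2 :=
      y2.trans (mul_le_mul_of_nonneg_right hprod (by positivity))
    have hE2p : ∀ q ∈ insert p E₁, q.Prime := by
      intro q hq
      rcases mem_insert.1 hq with h1 | h1
      · rw [h1]
        exact hpp
      · exact hE₁p q h1
    have hrt2 : rt (insert p E₁) = (1 - 1 / (p : ℝ)) * rt E₁ := by
      unfold rt
      rw [prod_insert hpE]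
    have hhalf : (1 / 2 : ℝ) ≤ 1 - 1 / (p : ℝ) := by
      have h2 : (2 : ℝ) ≤ p := by exact_mod_cast hpp.two_le
      have h3 : 1 / (p : ℝ) ≤ 1 / 2 := one_div_le_one_div_of_le (by norm_num) h2
      linarith
    have hN2 := hN (insert p E₁) hE2p
    have hN3 : rt E₁ * a / 2 ≤ Nh (Pz \ insert p E₁) h := by
      refine le_trans ?_ hN2
      rw [hrt2]
      have : rt E₁ * a * (1 / 2) ≤ rt E₁ * a * (1 - 1 / (p : ℝ)) :=
        mul_le_mul_of_nonneg_left hhalf hra.le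
      linarith
    have hN3pos : 0 < Nh (Pz \ insert p E₁) h := by
      refine lt_of_lt_of_le ?_ hN3
      positivity
    refine ⟨mul_nonneg (div_nonneg y1 hN3pos.le) (h0 _), ?_⟩
    refine mul_le_mul_of_nonneg_right ?_ (h0 _)
    calc Z (insert (p, l) A₁) / Nh (Pz \ insert p E₁) h ≤ yA * U ^ 2 / (rt E₁ * a / 2) :=
          div_le_div₀ (by positivity) hZ2 (by positivity) hN3
      _ = 2 * B := by
          rw [hB]
          field_simp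
  set Sl := ∑ l : Fin K, Yh P Pz h j Z (insert (p, l) A) with hSl
  have hS0 : 0 ≤ Sl := sum_nonneg fun l _ => (hVl l).1
  have hSm : Sl ≤ K * (2 * B * h (pd S)) := by
    calc Sl ≤ ∑ _l : Fin K, 2 * B * h (pd S) := sum_le_sum fun l _ => (hVl l).2
      _ = _ := by
          rw [sum_const, card_univ, Fintype.card_fin, nsmul_eq_mul]
  have hVd : Vd (Yh P Pz h j Z) p j A =
      Z A₁ / Nh (Pz \ E₁) h * (h (pd S) - h (p * pd S)) + gg p * Sl := by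
    unfold Vd
    rw [hVA, hVj]
    ring
  rw [hVd, hGA]
  set m := Z A₁ / Nh (Pz \ E₁) h * (h (pd S) - h (p * pd S)) with hm
  set t := gg p * Sl with ht
  have hm2 : m ^ 2 ≤ B ^ 2 * (h (pd S) - h (p * pd S)) ^ 2 := by
    rw [hm, mul_pow]
    refine mul_le_mul_of_nonneg_right ?_ (sq_nonneg _)
    exact pow_le_pow_left₀ hZN0 hZN 2
  have ht2 : t ^ 2 ≤ B ^ 2 * (4 * K ^ 2 * (gg p ^ 2 * h (pd S) ^ 2)) := by
    have h1 : t ≤ gg p * (K * (2 * B * h (pd S))) := mul_le_mul_of_nonneg_left hSm hgp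
    have h2 : 0 ≤ t := mul_nonneg hgp hS0
    calc t ^ 2 ≤ (gg p * (K * (2 * B * h (pd S)))) ^ 2 := pow_le_pow_left₀ h2 h1 2
      _ = _ := by ring
  have hmt : (m + t) ^ 2 ≤ (1 + 1 / 10 ^ 4) * m ^ 2 + (1 + 10 ^ 4) * t ^ 2 := by
    have h1 := sq_nonneg (1 / 10 ^ 2 * m - 10 ^ 2 * t)
    nlinarith
  calc (m + t) ^ 2 ≤ (1 + 1 / 10 ^ 4) * m ^ 2 + (1 + 10 ^ 4) * t ^ 2 := hmt
    _ ≤ (1 + 1 / 10 ^ 4) * (B ^ 2 * (h (pd S) - h (p * pd S)) ^ 2) +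
        (1 + 10 ^ 4) * (B ^ 2 * (4 * K ^ 2 * (gg p ^ 2 * h (pd S) ^ 2))) :=
      add_le_add (mul_le_mul_of_nonneg_left hm2 (by norm_num))
        (mul_le_mul_of_nonneg_left ht2 (by norm_num))
    _ = _ := by ring

private theorem lf_Nz_mono (P : Finset ℕ) (hP : ∀ p ∈ P, p.Prime) (y z : ℝ) (hyz : y ≤ z) :
    Nz P y ≤ Nz P z := by
  unfold Nz
  refine sum_le_sum_of_subset_of_nonneg ?_ ?_
  · intro S hS
    rw [mem_filter] at hS ⊢
    exact ⟨hS.1, hS.2.trans hyz⟩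
  · intro S hS _
    rw [mem_filter, mem_powerset] at hS
    exact lf_HH fun p hp => hP p (hS.1 hp)

/-- lower bound of the denominators -/
private theorem lf_den {K : ℕ} (c : Cfg K) (D₀ W A₀ C : ℕ) (hc : c.Ok D₀ W A₀ C) (hx : 2 ≤ c.x)
    (E : Finset ℕ) (hE : ∀ p ∈ E, p.Prime) :
    c.κ W * Real.log c.x * (249 / 2000 / 2) * rt E ≤
      Nh (Q c W (1 / 8) \ E) (yv c.x (249 / 2000)) := by
  have hxr : (1 : ℝ) ≤ c.x := by exact_mod_cast (by omega : 1 ≤ c.x)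
  have hP : ∀ p ∈ Q c W (1 / 8) \ E, p.Prime := fun p hp =>
    (Q_props c D₀ W A₀ C (1 / 8) hc (by omega) p (mem_sdiff.1 hp).1).1
  obtain ⟨k1, k2⟩ := kappa_01 c W
  have hlx : 0 ≤ Real.log c.x := Real.log_nonneg hxr
  have hrt := (rt_01 E).1
  have hNz0 : 0 ≤ Nz (Q c W (1 / 8) \ E) ((c.x : ℝ) ^ (1 : ℝ)) := by
    unfold Nz
    refine sum_nonneg fun S hS => ?_
    rw [mem_filter, mem_powerset] at hS
    exact lf_HH fun p hp => hP p (hS.1 hp)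
  have h := (Nh_yv (Q c W (1 / 8) \ E) hP c.x hx (249 / 2000) (c.κ W * rt E * Real.log c.x)
    (Nz (Q c W (1 / 8) \ E) ((c.x : ℝ) ^ (1 : ℝ))) 1 (by norm_num) (by positivity) hNz0
    zero_le_one (fun t ht ht2 => by
      have := Nz_lowt c W t (1 / 8) (by omega) ht (by linarith) (by norm_num) E hE
      linarith) (fun t ht ht2 => by
      have h1 : Nz (Q c W (1 / 8) \ E) ((c.x : ℝ) ^ t) ≤
          Nz (Q c W (1 / 8) \ E) ((c.x : ℝ) ^ (1 : ℝ)) :=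
        lf_Nz_mono _ hP _ _ (Real.rpow_le_rpow_of_exponent_le hxr (by linarith))
      nlinarith)).1
  linarith

private theorem lf_phi {K : ℕ} (x L D₀ : ℕ) (P : Finset ℕ) (t₀ : ℝ) (i j : Fin K) (hij : i ≠ j)
    (hD : 2 ≤ D₀) (hP : ∀ p ∈ P, p.Prime ∧ D₀ < p) (a : ℝ) (ha : 0 < a) :
    ∑ B ∈ (LS K P).filter (fun B => ∀ c ∈ B, c.2 ≠ i ∧ c.2 ≠ j),
      ((∏ l ∈ (univ.erase i).erase j, yy x L t₀ (pd (lb l B))) * U1 P x L t₀ ^ 2 /
        (rt (B.image Prod.fst) * a)) ^ 2 * ga gg B ≤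
      Real.exp (8 * K / D₀) * (U1 P x L t₀ ^ 4 * U2 P x L t₀ ^ (K - 2)) / a ^ 2 := by
  have hg : ∀ p ∈ P, 0 ≤ (1 + gg p) ^ 2 ∧ (1 + gg p) ^ 2 ≤ 1 + (4 : ℕ) * gg p := by
    intro p hp
    obtain ⟨h1, h2⟩ := hP p hp
    have h3 := lf_gg h1
    have h4 : ((2 : ℕ) : ℝ) * gg p ≤ 1 := by
      unfold gg
      have h5 : (3 : ℝ) ≤ p := by exact_mod_cast (by omega : 3 ≤ p)
      rw [mul_one_div, div_le_one (by linarith)]
      push_cast
      linarith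
    have h6 := gg_pow p 2 h4 h3
    refine ⟨sq_nonneg _, h6.trans (le_of_eq ?_)⟩
    push_cast
    ring
  have h1 := tuple_leg x L D₀ 4 P t₀ i j hij (by omega) hP (fun p => (1 + gg p) ^ 2) hg
  have h2 : ∀ B ∈ (LS K P).filter (fun B => ∀ c ∈ B, c.2 ≠ i ∧ c.2 ≠ j),
      ((∏ l ∈ (univ.erase i).erase j, yy x L t₀ (pd (lb l B))) * U1 P x L t₀ ^ 2 /
        (rt (B.image Prod.fst) * a)) ^ 2 * ga gg B =
      U1 P x L t₀ ^ 4 / a ^ 2 * ((∏ l ∈ (univ.erase i).erase j, yy x L t₀ (pd (lb l B))) ^ 2 *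
        (ga gg B * ∏ c ∈ B, (1 + gg c.1) ^ 2)) := by
    intro B hB
    have hBL := (mem_filter.1 hB).1
    have hinv := rt_inv P (fun p hp => (hP p hp).1) B hBL
    rw [prod_pow, ← hinv]
    have hrt : 0 < rt (B.image Prod.fst) := lf_rt_pos _ (by
      intro q hq
      obtain ⟨c, hc, rfl⟩ := mem_image.1 hq
      exact (hP _ ((mem_LS.1 hBL).1 c hc)).1)
    field_simp
  rw [sum_congr rfl h2, ← mul_sum]
  have h3 : (0 : ℝ) ≤ U1 P x L t₀ ^ 4 / a ^ 2 := by positivity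
  calc _ ≤ U1 P x L t₀ ^ 4 / a ^ 2 * (Real.exp (2 * (4 : ℕ) * K / D₀) * U2 P x L t₀ ^ (K - 2)) :=
        mul_le_mul_of_nonneg_left h1 h3
    _ = _ := by
        push_cast
        ring_nf

/-- the sum for one prime -/
private theorem lf_one {K : ℕ} (x L D₀ : ℕ) (t₀ δ : ℝ) (P Pz : Finset ℕ) (hD : 2 ≤ D₀)
    (hPz : ∀ p ∈ Pz, p.Prime ∧ K * gg p ≤ 1) (hP : ∀ p ∈ P, p.Prime ∧ D₀ < p) (h : ℕ → ℝ)
    (h0 : ∀ n, 0 ≤ h n)
    (ha : ∀ m n, 1 ≤ m → m ≤ n → h n ≤ h m) (a : ℝ) (ha0 : 0 < a)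
    (hN : ∀ E : Finset ℕ, (∀ p ∈ E, p.Prime) → a * rt E ≤ Nh (Pz \ E) h)
    (i j : Fin K) (hij : i ≠ j) (p : ℕ) (hp : p ∈ Pz) (Z : Finset (ℕ × Fin K) → ℝ)
    (hZ : Z = Zj gg P j (Zj gg P i (YY x L t₀ δ))) :
    Ex gg (Pz.erase p) (fun ω => (ff gg (Pz.erase p) (Vd (Yh P Pz h j Z) p j) ω) ^ 2) ≤
      Real.exp (8 * K / D₀) * (U1 P x L t₀ ^ 4 * U2 P x L t₀ ^ (K - 2)) / a ^ 2 *
        ((1 + 1 / 10 ^ 4) * (∑ S ∈ (Pz.erase p).powerset, HH S * (h (pd S) - h (p * pd S)) ^ 2) +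
          (1 + 10 ^ 4) * (4 * K ^ 2) * (gg p ^ 2 * ∑ S ∈ Pz.powerset, HH S * h (pd S) ^ 2)) := by
  classical
  have hPe : ∀ q ∈ Pz.erase p, q.Prime := fun q hq => (hPz q (mem_erase.1 hq).2).1
  refine (Ex_upper gg (Pz.erase p) (fun q hq => ⟨lf_gg (hPe q hq), ?_⟩) _).trans ?_
  · exact (hPz q (mem_erase.1 hq).2).2
  obtain ⟨G, hG⟩ : ∃ G : Finset (ℕ × Fin K) → ℝ, ∀ B, G B =
      if (∀ c ∈ B, c.1 ∈ P) ∧ (∀ c ∈ B, c.2 ≠ i ∧ c.2 ≠ j) then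
        ((∏ l ∈ (univ.erase i).erase j, yy x L t₀ (pd (lb l B))) * U1 P x L t₀ ^ 2 /
          (rt (B.image Prod.fst) * a)) ^ 2 else 0 := ⟨_, fun _ => rfl⟩
  have hG0 : ∀ B, 0 ≤ G B := fun B => by
    rw [hG]
    split_ifs
    · exact sq_nonneg _
    · exact le_rfl
  have hG1 : ∀ B, (∀ c ∈ B, c.1 ∈ P) → (∀ c ∈ B, c.2 ≠ i ∧ c.2 ≠ j) →
      G B = ((∏ l ∈ (univ.erase i).erase j, yy x L t₀ (pd (lb l B))) * U1 P x L t₀ ^ 2 /
        (rt (B.image Prod.fst) * a)) ^ 2 := fun B h1 h2 => by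
    rw [hG, if_pos ⟨h1, h2⟩]
  set g : Finset ℕ → ℝ := fun S => HH S * ((1 + 1 / 10 ^ 4) * (h (pd S) - h (p * pd S)) ^ 2 +
        (1 + 10 ^ 4) * (4 * K ^ 2) * (gg p ^ 2 * h (pd S) ^ 2)) with hg
  have hga : ∀ A ∈ LS K (Pz.erase p), 0 ≤ ga gg A := fun A hA =>
    prod_nonneg fun c hc => lf_gg (hPe _ ((mem_LS.1 hA).1 c hc))
  have h1 : ∀ A ∈ LS K (Pz.erase p), (Vd (Yh P Pz h j Z) p j A) ^ 2 * ga gg A ≤
      (fun B => G B * ga gg B) (A.filter (fun c => c.2 ≠ j)) * g (lb j A) := by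
    intro A hA
    have e1 := lf_pt x L t₀ δ P Pz (fun q hq => (hPz q hq).1) (fun q hq => (hP q hq).1) h h0 ha a
      ha0 hN i j hij p hp A hA Z hZ G hG1 hG0
    have e2 : ga gg A = ga gg (A.filter (fun c => c.2 ≠ j)) * HH (lb j A) := lf_prod j A gg
    calc (Vd (Yh P Pz h j Z) p j A) ^ 2 * ga gg A ≤ _ := mul_le_mul_of_nonneg_right e1 (hga A hA)
      _ = _ := by
        rw [e2, hg]
        ring
  refine (sum_le_sum h1).trans ?_
  refine (lf_le (Pz.erase p) j (fun B => G B * ga gg B) g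
    (fun B hB _ => mul_nonneg (hG0 B) (hga B hB)) (fun S hS => ?_)).trans ?_
  · refine mul_nonneg (lf_HH fun q hq => hPe q (hS hq)) ?_
    positivity
  have h2 : ∑ A ∈ (LS K (Pz.erase p)).filter (fun A => ∀ a ∈ A, a.2 ≠ j), G A * ga gg A ≤
      ∑ B ∈ (LS K P).filter (fun B => ∀ c ∈ B, c.2 ≠ i ∧ c.2 ≠ j), G B * ga gg B := by
    calc ∑ A ∈ (LS K (Pz.erase p)).filter (fun A => ∀ a ∈ A, a.2 ≠ j), G A * ga gg A
        = ∑ A ∈ ((LS K (Pz.erase p)).filter (fun A => ∀ a ∈ A, a.2 ≠ j)).filter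
            (fun B => (∀ c ∈ B, c.1 ∈ P) ∧ (∀ c ∈ B, c.2 ≠ i ∧ c.2 ≠ j)), G A * ga gg A := by
          refine (sum_filter_of_ne fun A _ hne => ?_).symm
          by_contra hc
          exact hne (by rw [hG, if_neg hc, zero_mul])
      _ ≤ _ := by
          refine sum_le_sum_of_subset_of_nonneg ?_ ?_
          · intro B hB
            obtain ⟨hB1, hB2, hB3⟩ := mem_filter.1 hB
            rw [mem_filter, mem_LS]
            exact ⟨⟨hB2, (mem_LS.1 (mem_filter.1 hB1).1).2⟩, hB3⟩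
          · intro B hB _
            refine mul_nonneg (hG0 B) (prod_nonneg fun c hc => ?_)
            exact lf_gg (hP _ ((mem_LS.1 (mem_filter.1 hB).1).1 c hc)).1
  have h3 : ∑ B ∈ (LS K P).filter (fun B => ∀ c ∈ B, c.2 ≠ i ∧ c.2 ≠ j), G B * ga gg B ≤
      Real.exp (8 * K / D₀) * (U1 P x L t₀ ^ 4 * U2 P x L t₀ ^ (K - 2)) / a ^ 2 := by
    refine le_trans (le_of_eq ?_) (lf_phi x L D₀ P t₀ i j hij hD hP a ha0)
    refine sum_congr rfl fun B hB => ?_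
    obtain ⟨hB1, hB2⟩ := mem_filter.1 hB
    rw [hG1 B (mem_LS.1 hB1).1 hB2]
  have h4 : ∑ S ∈ (Pz.erase p).powerset, g S ≤
      (1 + 1 / 10 ^ 4) * (∑ S ∈ (Pz.erase p).powerset, HH S * (h (pd S) - h (p * pd S)) ^ 2) +
          (1 + 10 ^ 4) * (4 * K ^ 2) * (gg p ^ 2 * ∑ S ∈ Pz.powerset, HH S * h (pd S) ^ 2) := by
    have e1 : ∑ S ∈ (Pz.erase p).powerset, g S =
        (1 + 1 / 10 ^ 4) * (∑ S ∈ (Pz.erase p).powerset, HH S * (h (pd S) - h (p * pd S)) ^ 2) +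
          (1 + 10 ^ 4) * (4 * K ^ 2) *
            (gg p ^ 2 * ∑ S ∈ (Pz.erase p).powerset, HH S * h (pd S) ^ 2) := by
      rw [mul_sum, mul_sum, mul_sum, ← sum_add_distrib]
      refine sum_congr rfl fun S _ => ?_
      rw [hg]
      ring
    rw [e1]
    have e2 : ∑ S ∈ (Pz.erase p).powerset, HH S * h (pd S) ^ 2 ≤
        ∑ S ∈ Pz.powerset, HH S * h (pd S) ^ 2 := by
      refine sum_le_sum_of_subset_of_nonneg (powerset_mono.2 (erase_subset _ _)) fun S hS _ => ?_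
      exact mul_nonneg (lf_HH fun q hq => (hPz q (mem_powerset.1 hS hq)).1) (sq_nonneg _)
    have e3 : gg p ^ 2 * ∑ S ∈ (Pz.erase p).powerset, HH S * h (pd S) ^ 2 ≤
        gg p ^ 2 * ∑ S ∈ Pz.powerset, HH S * h (pd S) ^ 2 :=
      mul_le_mul_of_nonneg_left e2 (sq_nonneg _)
    have e4 := mul_le_mul_of_nonneg_left e3
      (by positivity : (0 : ℝ) ≤ (1 + 10 ^ 4) * (4 * K ^ 2))
    linarith
  have h5 : 0 ≤ ∑ S ∈ (Pz.erase p).powerset, g S := by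
    refine sum_nonneg fun S hS => mul_nonneg (lf_HH fun q hq => hPe q (mem_powerset.1 hS hq)) ?_
    positivity
  have h6 : 0 ≤ Real.exp (8 * K / D₀) * (U1 P x L t₀ ^ 4 * U2 P x L t₀ ^ (K - 2)) / a ^ 2 := by
    refine le_trans (sum_nonneg fun B hB => ?_) h3
    refine mul_nonneg (hG0 B) (prod_nonneg fun c hc => ?_)
    exact lf_gg (hP _ ((mem_LS.1 (mem_filter.1 hB).1).1 c hc)).1
  exact mul_le_mul (h2.trans h3) h4 h5 h6

private theorem lf_num (E Kr D κl Um' : ℝ) (hE : E ≤ 1 + 1 / 10 ^ 5) (hE0 : 0 ≤ E)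
    (hκ : 0 < κl) (hU : 0 ≤ Um') (hKD : Kr ^ 2 / D ^ 2 ≤ 1 / 10 ^ 12) (hKD0 : 0 ≤ Kr ^ 2 / D ^ 2)
    (T1 T2 g3 lg : ℝ) (hlg : lg ≤ 1 / 249) (hg3 : g3 ≤ 2 / D ^ 2) (hg30 : 0 ≤ g3) (hT20 : 0 ≤ T2)
    (hT1 : T1 ≤ (1 + 1 / 10 ^ 6) * κl * (249 / 2000 * (5 / 18 + 1 / 3 * lg + 1 / 10 ^ 6) + 1 / 10 ^ 6))
    (hT2 : T2 ≤ (1 + 1 / 10 ^ 6) * κl * (249 / 2000 / 2 + 1 / 10 ^ 6)) (hD : 0 < D) :
    E * Um' / (κl * (249 / 2000 / 2)) ^ 2 * ((1 + 1 / 10 ^ 4) * T1 +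
      (1 + 10 ^ 4) * (4 * Kr ^ 2) * (g3 * T2)) ≤ 898 / 100 * (Um' / κl) := by
  have h1 : T1 ≤ 34752 / 10 ^ 6 * κl := by
    refine hT1.trans ?_
    have e1 : (1 + 1 / 10 ^ 6) * (249 / 2000 * (5 / 18 + 1 / 3 * lg + 1 / 10 ^ 6) + 1 / 10 ^ 6) ≤
        34752 / 10 ^ 6 := by
      norm_num
      linarith
    calc (1 + 1 / 10 ^ 6) * κl * (249 / 2000 * (5 / 18 + 1 / 3 * lg + 1 / 10 ^ 6) + 1 / 10 ^ 6)
        = ((1 + 1 / 10 ^ 6) *
          (249 / 2000 * (5 / 18 + 1 / 3 * lg + 1 / 10 ^ 6) + 1 / 10 ^ 6)) * κl := by ring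
      _ ≤ _ := mul_le_mul_of_nonneg_right e1 hκ.le
  have h2 : T2 ≤ 1 / 10 * κl := by
    refine hT2.trans ?_
    have e1 : (1 + 1 / 10 ^ 6) * (249 / 2000 / 2 + 1 / 10 ^ 6) ≤ (1 / 10 : ℝ) := by norm_num
    calc (1 + 1 / 10 ^ 6) * κl * (249 / 2000 / 2 + 1 / 10 ^ 6)
        = ((1 + 1 / 10 ^ 6) * (249 / 2000 / 2 + 1 / 10 ^ 6)) * κl := by ring
      _ ≤ _ := mul_le_mul_of_nonneg_right e1 hκ.le
  have h3 : (1 + 10 ^ 4) * (4 * Kr ^ 2) * (g3 * T2) ≤ 1 / 10 ^ 7 * κl := by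
    have e1 : g3 * T2 ≤ 2 / D ^ 2 * (1 / 10 * κl) := mul_le_mul hg3 h2 hT20 (by positivity)
    have e2 : (1 + 10 ^ 4) * (4 * Kr ^ 2) * (g3 * T2) ≤
        (1 + 10 ^ 4) * (4 * Kr ^ 2) * (2 / D ^ 2 * (1 / 10 * κl)) :=
      mul_le_mul_of_nonneg_left e1 (by positivity)
    refine e2.trans ?_
    have e3 : (1 + 10 ^ 4) * (4 * Kr ^ 2) * (2 / D ^ 2 * (1 / 10 * κl)) =
        ((1 + 10 ^ 4) * 8 / 10 * κl) * (Kr ^ 2 / D ^ 2) := by
      field_simp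
      ring
    rw [e3]
    have e4 : ((1 + 10 ^ 4) * 8 / 10 * κl) * (Kr ^ 2 / D ^ 2) ≤
        ((1 + 10 ^ 4) * 8 / 10 * κl) * (1 / 10 ^ 12) :=
      mul_le_mul_of_nonneg_left hKD (by positivity)
    refine e4.trans ?_
    have e5 : ((1 + 10 ^ 4) * 8 / 10 * κl) * (1 / 10 ^ 12) =
        ((1 + 10 ^ 4) * 8 / 10 / 10 ^ 12) * κl := by ring
    rw [e5]
    exact mul_le_mul_of_nonneg_right (by norm_num) hκ.le
  have h4 : (1 + 1 / 10 ^ 4) * T1 + (1 + 10 ^ 4) * (4 * Kr ^ 2) * (g3 * T2) ≤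
      34756 / 10 ^ 6 * κl := by
    have e1 : (1 + 1 / 10 ^ 4) * T1 ≤ (1 + 1 / 10 ^ 4) * (34752 / 10 ^ 6 * κl) :=
      mul_le_mul_of_nonneg_left h1 (by norm_num)
    have e2 : (1 + 1 / 10 ^ 4) * (34752 / 10 ^ 6 * κl) + 1 / 10 ^ 7 * κl ≤
        34756 / 10 ^ 6 * κl := by
      rw [← mul_assoc, ← add_mul]
      exact mul_le_mul_of_nonneg_right (by norm_num) hκ.le
    linarith
  have hfac : 0 ≤ E * Um' / (κl * (249 / 2000 / 2)) ^ 2 := by positivity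
  calc _ ≤ E * Um' / (κl * (249 / 2000 / 2)) ^ 2 * (34756 / 10 ^ 6 * κl) :=
        mul_le_mul_of_nonneg_left h4 hfac
    _ = (E * (34756 / 10 ^ 6 / (249 / 4000) ^ 2)) * (Um' / κl) := by
        field_simp
        ring
    _ ≤ 898 / 100 * (Um' / κl) := by
        refine mul_le_mul_of_nonneg_right ?_ (by positivity)
        have : E * (34756 / 10 ^ 6 / (249 / 4000) ^ 2) ≤
            (1 + 1 / 10 ^ 5) * (34756 / 10 ^ 6 / (249 / 4000) ^ 2) :=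
          mul_le_mul_of_nonneg_right hE (by norm_num)
        refine this.trans ?_
        norm_num

theorem Tb_up (K L D₀ : ℕ) (s δ t₀ e : ℝ) (hpar : Par K L D₀ s δ t₀ e) (he6 : e ≤ 1 / 10 ^ 6)
    (W A₀ C : ℕ) : ∃ X₀ : ℕ, ∀ c : Cfg K, c.Ok D₀ W A₀ C → X₀ ≤ c.x →
      ∀ i j : Fin K, i ≠ j →
      ∑ p ∈ Q c W (1 / 8), gg p *
        Ex gg ((Q c W (1 / 8)).erase p) (fun ω => (ff gg ((Q c W (1 / 8)).erase p)
          (Vd (Yh (c.P W δ) (Q c W (1 / 8)) (yv c.x (249 / 2000)) j (Zij c W L δ t₀ i j)) p j)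
            ω) ^ 2) ≤
        898 / 100 * Um c W L δ t₀ := by
  obtain ⟨hK, hL, hs, hδ, ht₀, hsδ, hsK, hLδ, he, hδe, hD⟩ := id hpar
  have h6r : (1 / 10 ^ 6 : ℝ) = 1 / 1000000 := by norm_num
  have hKr : (2 : ℝ) ≤ K := by exact_mod_cast hK
  have hDpos : (0 : ℝ) < D₀ := by
    by_contra hcon
    push Not at hcon
    have : e * (D₀ : ℝ) ≤ 0 := mul_nonpos_of_nonneg_of_nonpos he.le hcon
    nlinarith
  have hDK : 16000000 * (K : ℝ) ^ 2 ≤ D₀ := by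
    have h1 : e * (D₀ : ℝ) ≤ 1 / 1000000 * D₀ := mul_le_mul_of_nonneg_right (by linarith) hDpos.le
    linarith
  have hDbig : (64000000 : ℝ) ≤ D₀ := by nlinarith
  have hKD : K < D₀ := by
    have h1 : (K : ℝ) < D₀ := by nlinarith
    exact_mod_cast h1
  have hD2 : 2 ≤ D₀ := by omega
  obtain ⟨X1, hX1⟩ := Tb_one (249 / 2000) (1 / 8) (1 / 10 ^ 6) (by norm_num) (by norm_num)
    (by norm_num) (by norm_num) (by norm_num)
  obtain ⟨X2, hX2⟩ := Nz_sharp (1 / 10 ^ 6) (by norm_num) (by norm_num) K D₀ W A₀ C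
  refine ⟨max (max X1 X2) 3, fun c hc hx i j hij => ?_⟩
  simp only [max_le_iff] at hx
  obtain ⟨⟨x1, x2⟩, x3⟩ := hx
  have hxr : (3 : ℝ) ≤ c.x := by exact_mod_cast x3
  have hlx : 0 < Real.log c.x := Real.log_pos (by linarith)
  obtain ⟨k1, k2⟩ := kappa_01 c W
  have hQ : ∀ u : ℝ, ∀ p ∈ Q c W u, p.Prime ∧ D₀ < p := fun u p hp => by
    have := Q_props c D₀ W A₀ C u hc (by omega) p hp
    exact ⟨this.1, this.2.1⟩
  set Pz := Q c W (1 / 8) with hPz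
  set h := yv c.x (249 / 2000) with hh
  set κl := c.κ W * Real.log c.x with hκl
  have hκl0 : 0 < κl := by positivity
  have hgg : ∀ p ∈ Pz, gg p ≤ 1 / D₀ := by
    intro p hp
    obtain ⟨p1, p2⟩ := hQ _ p hp
    unfold gg
    have h3 : (D₀ : ℝ) + 1 ≤ p := by exact_mod_cast p2
    exact one_div_le_one_div_of_le hDpos (by linarith)
  have hPz1 : ∀ p ∈ Pz, p.Prime ∧ K * gg p ≤ 1 := by
    intro p hp
    refine ⟨(hQ _ p hp).1, ?_⟩
    have h1 := hgg p hp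
    have h2 : (K : ℝ) * gg p ≤ K * (1 / D₀) := mul_le_mul_of_nonneg_left h1 (by linarith)
    refine h2.trans ?_
    rw [mul_one_div, div_le_one hDpos]
    exact_mod_cast hKD.le
  have h0 : ∀ n, 0 ≤ h n := fun n => (yv_bd c.x (by omega) _ (by norm_num) n).1
  have h1' : ∀ n, h n ≤ 1 := fun n => (yv_bd c.x (by omega) _ (by norm_num) n).2
  have hanti : ∀ m n, 1 ≤ m → m ≤ n → h n ≤ h m := fun m n hm hmn =>
    yv_anti c.x (by omega) _ (by norm_num) m n hm hmn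
  have hone := fun p hp => lf_one c.x L D₀ t₀ δ (c.P W δ) Pz hD2 hPz1 (hQ δ) h h0 hanti
    (κl * (249 / 2000 / 2)) (by positivity)
    (fun E hE => lf_den c D₀ W A₀ C hc (by omega) E hE) i j hij p hp (Zij c W L δ t₀ i j) rfl
  have hup : ∀ t : ℝ, 0 ≤ t → t ≤ 249 / 2000 → Nz Pz ((c.x : ℝ) ^ t) ≤
      (1 + 1 / 10 ^ 6) * κl * (t + 1 / 10 ^ 6) := by
    intro t ht ht2
    have e1 := hX2 c hc x2 0 (1 / 8) t le_rfl zero_le_one (by norm_num) ht (by linarith) ∅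
      (empty_subset _) (by
        have e2 : pd ∅ = 1 := by unfold pd; exact prod_empty
        rw [e2, Real.rpow_zero]
        norm_num)
    have hrt : rt ∅ = 1 := by unfold rt; exact prod_empty
    rw [hrt, sdiff_empty, mul_one, add_zero] at e1
    refine e1.trans (le_of_eq ?_)
    rw [hκl]
    ring
  have hT1 := hX1 c.x x1 Pz (fun p hp => ⟨(hQ _ p hp).1,
      ((Q_mem c D₀ W A₀ C (1 / 8) hc (by omega) p).1 hp).1⟩)
    ((1 + 1 / 10 ^ 6) * κl) (1 / 10 ^ 6) (by positivity) (by norm_num) hup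
  have hNh := (Nh_yv Pz (fun p hp => (hQ _ p hp).1) c.x (by omega) (249 / 2000) 0
    ((1 + 1 / 10 ^ 6) * κl) (1 / 10 ^ 6) (by norm_num) le_rfl (by positivity) (by norm_num)
    (fun t _ _ => by
      rw [zero_mul]
      unfold Nz
      refine sum_nonneg fun S hS => ?_
      rw [mem_filter, mem_powerset] at hS
      exact lf_HH fun p hp => (hQ _ p (hS.1 hp)).1) hup).2.1
  set Um' := U1 (c.P W δ) c.x L t₀ ^ 4 * U2 (c.P W δ) c.x L t₀ ^ (K - 2) with hUm'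
  have hP : ∀ p ∈ c.P W δ, p.Prime := fun p hp => (hQ δ p hp).1
  obtain ⟨v1, v2⟩ := U_ge_one (c.P W δ) hP c.x L t₀ (by omega) hL ht₀.le
  have hUm0 : 0 ≤ Um' := by positivity
  set E := Real.exp (8 * K / D₀) with hE
  set T1 := ∑ p ∈ Pz, gg p * ∑ S ∈ (Pz.erase p).powerset,
    HH S * (h (pd S) - h (p * pd S)) ^ 2 with hT1d
  set T2 := ∑ S ∈ Pz.powerset, HH S * h (pd S) ^ 2 with hT2d
  set g3 := ∑ p ∈ Pz, gg p * gg p ^ 2 with hg3d
  have hT2 : T2 ≤ (1 + 1 / 10 ^ 6) * κl * (249 / 2000 / 2 + 1 / 10 ^ 6) := by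
    refine le_trans ?_ hNh
    unfold Nh
    refine sum_le_sum fun S hS => ?_
    refine mul_le_mul_of_nonneg_left ?_ (lf_HH fun p hp => (hQ _ p (mem_powerset.1 hS hp)).1)
    have e1 := h0 (pd S)
    have e2 := h1' (pd S)
    nlinarith
  have hT20 : 0 ≤ T2 := sum_nonneg fun S hS =>
    mul_nonneg (lf_HH fun p hp => (hQ _ p (mem_powerset.1 hS hp)).1) (sq_nonneg _)
  have hg3 : g3 ≤ 2 / (D₀ : ℝ) ^ 2 := by
    have e1 := sum_gg2 D₀ (by omega) Pz (fun p hp => (hQ _ p hp).2)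
    calc g3 ≤ ∑ p ∈ Pz, 1 / D₀ * gg p ^ 2 :=
          sum_le_sum fun p hp => mul_le_mul_of_nonneg_right (hgg p hp) (sq_nonneg _)
      _ = 1 / D₀ * ∑ p ∈ Pz, gg p ^ 2 := by rw [mul_sum]
      _ ≤ 1 / D₀ * (2 / D₀) := mul_le_mul_of_nonneg_left e1 (by positivity)
      _ = _ := by
          field_simp
  have hg30 : 0 ≤ g3 := sum_nonneg fun p hp =>
    mul_nonneg (lf_gg (hQ _ p hp).1) (sq_nonneg _)
  have hlg : Real.log (1 / 8 / (249 / 2000)) ≤ 1 / 249 := by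
    have e1 := Real.log_le_sub_one_of_pos (x := 1 / 8 / (249 / 2000)) (by norm_num)
    refine e1.trans ?_
    norm_num
  have hKD2 : (K : ℝ) ^ 2 / (D₀ : ℝ) ^ 2 ≤ 1 / 10 ^ 12 := by
    rw [div_le_div_iff₀ (by positivity) (by norm_num)]
    nlinarith
  have hexp : E ≤ 1 + 1 / 10 ^ 5 := by
    have e0 : (0 : ℝ) ≤ 8 * K / D₀ := by positivity
    have e1 : (8 * K / D₀ : ℝ) ≤ 1 / 10 ^ 6 := by
      rw [div_le_iff₀ hDpos]
      nlinarith
    have h3 := Real.exp_bound' e0 (by linarith) (n := 2) (by norm_num)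
    have h4 : ∑ m ∈ range 2, (8 * K / D₀ : ℝ) ^ m / m.factorial = 1 + 8 * K / D₀ := by
      simp [Finset.sum_range_succ]
    rw [h4] at h3
    have h5 : (8 * K / D₀ : ℝ) ^ 2 ≤ 1 / 10 ^ 6 := by
      have : (8 * K / D₀ : ℝ) ^ 2 ≤ (1 / 10 ^ 6) ^ 2 := pow_le_pow_left₀ e0 e1 2
      refine this.trans (by norm_num)
    refine h3.trans ?_
    norm_num at h5 e1 ⊢
    linarith
  have hfin := lf_num E K D₀ κl Um' hexp (Real.exp_pos _).le hκl0 hUm0 hKD2 (by positivity) T1 T2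
    g3 (Real.log (1 / 8 / (249 / 2000))) hlg hg3 hg30 hT20 hT1 hT2 hDpos
  have hUmEq : Um c W L δ t₀ = Um' / κl := rfl
  rw [hUmEq]
  refine le_trans ?_ hfin
  calc ∑ p ∈ Pz, gg p * Ex gg (Pz.erase p) (fun ω => (ff gg (Pz.erase p)
          (Vd (Yh (c.P W δ) Pz h j (Zij c W L δ t₀ i j)) p j) ω) ^ 2)
      ≤ ∑ p ∈ Pz, gg p * (E * Um' / (κl * (249 / 2000 / 2)) ^ 2 *
        ((1 + 1 / 10 ^ 4) * (∑ S ∈ (Pz.erase p).powerset, HH S * (h (pd S) - h (p * pd S)) ^ 2) +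
          (1 + 10 ^ 4) * (4 * K ^ 2) * (gg p ^ 2 * T2))) :=
        sum_le_sum fun p hp => mul_le_mul_of_nonneg_left (hone p hp) (lf_gg (hQ _ p hp).1)
    _ = _ := by
        rw [hT1d, hg3d, sum_mul, mul_sum, mul_sum, mul_add, mul_sum, mul_sum, ← sum_add_distrib]
        refine sum_congr rfl fun p _ => ?_
        ring

end Pool.Agent.Work.MP_70e905_nt.M3
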