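import Pool.Agent.Work.MP_70e905_nt.M3.Defs
import Pool.Agent.Work.MP_70e905_nt.MT.B5

set_option autoImplicit false

/-!
MODULE Q1 (the sums over primes with an extra set of divisors), size M-L. Copy of MT/B5 (`prime_leg`).

The only change: the extra condition that all `q ∈ Q` divide `a j z + b j`. The set of conditions for `(E, B, B')` is
`E ∪ (B ∪ B') ∪ Q × {j}` in `LS K (P ∪ P₀ ∪ Q)` (the three sets of primes are pairwise disjoint), so `prime_class` (MT/B1)
applies with `P := P ∪ P₀ ∪ Q` (for `q ∈ Q`: `¬ a i b j ≡ a j b i` mod `q` by `hQbd`). The modulus is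
`a i W * (pd Q * pd T)`, `T` = set of the primes of `E ∪ (B ∪ B')`, and `1 / φ = ga gg (...) * HH Q / φ(a i W)`.
-/

namespace Pool.Agent.Work.MP_70e905_nt.M3

open Finset Pool.Agent.Work.MP_73869e_nt.TH Pool.Agent.Work.MP_70e905_nt.MT

private theorem q1_la_i {K : ℕ} (P : Finset ℕ) (Y : Finset (ℕ × Fin K) → ℝ) (i : Fin K)
    (hYi : ∀ A ∈ LS K P, (∃ c ∈ A, c.2 = i) → Y A = 0) (B : Finset (ℕ × Fin K))
    (hB : la gg P Y B ≠ 0) : ∀ c ∈ B, c.2 ≠ i := by
  intro c hc hci
  apply hB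
  unfold la
  have h1 : ∑ A ∈ (LS K P).filter (fun A => B ⊆ A), Y A * ga gg (A \ B) = 0 := by
    refine Finset.sum_eq_zero fun A hA => ?_
    rw [hYi A (mem_filter.1 hA).1 ⟨c, (mem_filter.1 hA).2 hc, hci⟩, zero_mul]
  rw [h1, mul_zero]

private theorem q1_injOn {K : ℕ} (D : Finset (ℕ × Fin K)) (hD : Lab D) :
    Set.InjOn Prod.fst (D : Set (ℕ × Fin K)) := fun a ha b hb hab =>
  hD a (Finset.mem_coe.1 ha) b (Finset.mem_coe.1 hb) hab

private theorem q1_pr {K : ℕ} (D : Finset (ℕ × Fin K)) (hD : Lab D) :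
    pr D = pd (D.image Prod.fst) := by
  unfold pr pd
  rw [Finset.prod_image (q1_injOn D hD)]

private theorem q1_ga {K : ℕ} (D : Finset (ℕ × Fin K)) (hD : Lab D) :
    ga gg D = ∏ p ∈ D.image Prod.fst, gg p := by
  unfold ga
  rw [Finset.prod_image (q1_injOn D hD)]

private theorem q1_totient (M : ℕ) (T : Finset ℕ) (hT : ∀ p ∈ T, p.Prime ∧ ¬ p ∣ M) :
    ((Nat.totient (M * pd T) : ℕ) : ℝ)⁻¹ = ((Nat.totient M : ℕ) : ℝ)⁻¹ * ∏ p ∈ T, gg p := by
  classical
  induction T using Finset.induction_on with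
  | empty =>
    unfold pd
    simp
  | insert p T hp ih =>
    have h1 := ih fun q hq => hT q (mem_insert_of_mem hq)
    have hpp := hT p (mem_insert_self _ _)
    have h2 : M * pd (insert p T) = p * (M * pd T) := by
      unfold pd
      rw [prod_insert hp]
      ring
    have h3 : Nat.Coprime p (M * pd T) := by
      refine Nat.Coprime.mul_right ((Nat.Prime.coprime_iff_not_dvd hpp.1).2 hpp.2) ?_
      unfold pd
      refine Nat.Coprime.prod_right fun q hq => ?_
      rw [Nat.coprime_primes hpp.1 (hT q (mem_insert_of_mem hq)).1]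
      rintro rfl
      exact hp hq
    rw [h2, Nat.totient_mul h3, prod_insert hp, Nat.totient_prime hpp.1]
    push_cast [Nat.cast_sub hpp.1.one_lt.le]
    rw [mul_inv, h1]
    unfold gg
    rw [one_div]
    ring

private theorem q1_count (s : Finset ℕ) (p q : ℕ → Prop) [DecidablePred p] [DecidablePred q] :
    ((s.filter (fun z => p z ∧ q z)).card : ℝ) = ∑ z ∈ s.filter p, (if q z then 1 else 0) := by
  rw [← Finset.filter_filter, Finset.card_filter _ (Finset.filter _ _)]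
  push_cast
  rfl

private theorem q1_pd_pos (T : Finset ℕ) (hT : ∀ p ∈ T, p.Prime) : 0 < pd T :=
  Finset.prod_pos fun p hp => (hT p hp).pos

/-- the bracket for good `E, B, B'` -/
private theorem q1_good {K : ℕ} (x W v : ℕ) (hW : 0 < W) (P P₀ Q : Finset ℕ) (hdis : Disjoint P P₀)
    (hdQ : Disjoint Q P) (hdQ₀ : Disjoint Q P₀)
    (a b : Fin K → ℕ) (i j : Fin K) (ha : 1 ≤ a i)
    (haW : ∀ l, ∀ p : ℕ, p.Prime → p ∣ a l → p ∣ W)
    (hcop : Nat.Coprime (a i * v + b i) W) (hP : ∀ p ∈ P ∪ P₀ ∪ Q, p.Prime ∧ ¬ p ∣ W)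
    (hQbd : ∀ q ∈ Q, ¬ a i * b j ≡ a j * b i [MOD q])
    (E U : Finset (ℕ × Fin K)) (hE : E ∈ LS K P₀) (hU : U ∈ LS K P)
    (hEi : ∀ c ∈ E, ¬ a i * b c.2 ≡ a c.2 * b i [MOD c.1])
    (hUi : ∀ c ∈ U, ¬ a i * b c.2 ≡ a c.2 * b i [MOD c.1]) :
    |(((Ioc x (2 * x)).filter (fun z => (z % W = v % W ∧ (a i * z + b i).Prime ∧
        ∀ q ∈ Q, q ∣ a j * z + b j) ∧
        E ∪ U ⊆ om (P ∪ P₀) a b z)).card : ℝ) -
      ((Nat.primeCounting (a i * (2 * x) + b i) : ℝ) - Nat.primeCounting (a i * x + b i)) /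
        Nat.totient (a i * W) * ga gg E * ga gg U * HH Q| ≤
      mx (a i * (2 * x) + b i) (a i * W * (pd Q * pd ((E ∪ U).image Prod.fst))) +
          mx (a i * x + b i) (a i * W * (pd Q * pd ((E ∪ U).image Prod.fst))) := by
  classical
  have hE1 := (mem_LS.1 hE)
  have hU1 := (mem_LS.1 hU)
  have hdis' := Finset.disjoint_left.1 hdis
  have hD0 : E ∪ U ∈ LS K (P ∪ P₀) := by
    rw [mem_LS]
    refine ⟨fun c hc => ?_, fun c hc d hd hcd => ?_⟩
    · rcases mem_union.1 hc with h | h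
      · exact mem_union_right _ (hE1.1 c h)
      · exact mem_union_left _ (hU1.1 c h)
    · rcases mem_union.1 hc with h | h <;> rcases mem_union.1 hd with h' | h'
      · exact hE1.2 c h d h' hcd
      · exact absurd (hcd ▸ hE1.1 c h) (hdis' (hU1.1 d h'))
      · exact absurd (hE1.1 d h') (hdis' (hcd ▸ hU1.1 c h))
      · exact hU1.2 c h d h' hcd
  have hdQ2 : Disjoint Q (P ∪ P₀) := Finset.disjoint_union_right.2 ⟨hdQ, hdQ₀⟩
  have hdQ3 := Finset.disjoint_left.1 hdQ2
  set J : Finset (ℕ × Fin K) := Q.image (fun q => (q, j)) with hJ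
  have hJ1 : ∀ c ∈ J, c.1 ∈ Q ∧ c.2 = j := by
    intro c hc
    obtain ⟨q, hq, rfl⟩ := mem_image.1 hc
    exact ⟨hq, rfl⟩
  have hJ2 : ∀ q ∈ Q, (q, j) ∈ J := fun q hq => mem_image_of_mem _ hq
  have hD : (E ∪ U) ∪ J ∈ LS K (P ∪ P₀ ∪ Q) := by
    rw [mem_LS]
    refine ⟨fun c hc => ?_, fun c hc d hd hcd => ?_⟩
    · rcases mem_union.1 hc with h | h
      · exact mem_union_left _ ((mem_LS.1 hD0).1 c h)
      · exact mem_union_right _ (hJ1 c h).1
    · rcases mem_union.1 hc with h | h <;> rcases mem_union.1 hd with h' | h'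
      · exact (mem_LS.1 hD0).2 c h d h' hcd
      · exact absurd (hcd ▸ (mem_LS.1 hD0).1 c h) (hdQ3 (hJ1 d h').1)
      · exact absurd ((mem_LS.1 hD0).1 d h') (hdQ3 (hcd ▸ (hJ1 c h).1))
      · exact Prod.ext hcd (by rw [(hJ1 c h).2, (hJ1 d h').2])
  obtain ⟨c, hc, hcard⟩ := prime_class x W v hW (P ∪ P₀ ∪ Q) a b i ha haW hcop hP _ hD
    (fun c hc => by
      rcases mem_union.1 hc with h | h
      · rcases mem_union.1 h with h | h
        · exact hEi c h
        · exact hUi c h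
      · rw [(hJ1 c h).2]
        exact hQbd c.1 (hJ1 c h).1)
  have hset : (Ioc x (2 * x)).filter (fun z => (z % W = v % W ∧ (a i * z + b i).Prime ∧
        ∀ q ∈ Q, q ∣ a j * z + b j) ∧ E ∪ U ⊆ om (P ∪ P₀) a b z) =
      (Ioc x (2 * x)).filter (fun z => (z % W = v % W ∧ (a i * z + b i).Prime) ∧
        (E ∪ U) ∪ J ⊆ om (P ∪ P₀ ∪ Q) a b z) := by
    refine Finset.filter_congr fun z _ => ?_
    rw [sub_om (P ∪ P₀) a b z _ (mem_LS.1 hD0).1, sub_om (P ∪ P₀ ∪ Q) a b z _ (mem_LS.1 hD).1]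
    constructor
    · rintro ⟨⟨h1, h2, h3⟩, h4⟩
      refine ⟨⟨h1, h2⟩, fun c hc => ?_⟩
      rcases mem_union.1 hc with h | h
      · exact h4 c h
      · rw [(hJ1 c h).2]
        exact h3 c.1 (hJ1 c h).1
    · rintro ⟨⟨h1, h2⟩, h3⟩
      exact ⟨⟨h1, h2, fun q hq => h3 (q, j) (mem_union_right _ (hJ2 q hq))⟩,
        fun c hc => h3 c (mem_union_left _ hc)⟩
  rw [hset, hcard]
  have hTp : ∀ p ∈ ((E ∪ U) ∪ J).image Prod.fst, p.Prime ∧ ¬ p ∣ a i * W := by
    intro p hp
    obtain ⟨c, hc, rfl⟩ := mem_image.1 hp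
    have h1 := hP c.1 ((mem_LS.1 hD).1 c hc)
    refine ⟨h1.1, fun hd => ?_⟩
    rcases (Nat.Prime.dvd_mul h1.1).1 hd with h | h
    · exact h1.2 (haW i c.1 h1.1 h)
    · exact h1.2 h
  have hJimg : J.image Prod.fst = Q := by
    rw [hJ, Finset.image_image]
    exact Finset.image_id
  have hpdu : pd (((E ∪ U) ∪ J).image Prod.fst) = pd Q * pd ((E ∪ U).image Prod.fst) := by
    rw [image_union, hJimg, mul_comm]
    unfold pd
    refine Finset.prod_union ?_
    rw [Finset.disjoint_left]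
    intro p hp hpQ
    obtain ⟨c, hc, rfl⟩ := mem_image.1 hp
    exact hdQ3 hpQ ((mem_LS.1 hD0).1 c hc)
  have hpr : pr ((E ∪ U) ∪ J) = pd Q * pd ((E ∪ U).image Prod.fst) := by
    rw [q1_pr _ (mem_LS.1 hD).2, hpdu]
  rw [hpr] at hc ⊢
  set m : ℕ := a i * W * (pd Q * pd ((E ∪ U).image Prod.fst)) with hm
  have hmpos : 0 < m := by
    rw [hm, ← hpdu]
    exact Nat.mul_pos (Nat.mul_pos ha hW) (q1_pd_pos _ fun p hp => (hTp p hp).1)
  have hφ : ((Nat.totient m : ℕ) : ℝ)⁻¹ =
      ((Nat.totient (a i * W) : ℕ) : ℝ)⁻¹ * (ga gg E * ga gg U * HH Q) := by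
    rw [hm, ← hpdu, q1_totient _ _ hTp, ← q1_ga _ (mem_LS.1 hD).2]
    congr 1
    have e1 : ga gg ((E ∪ U) ∪ J) = ga gg (E ∪ U) * ga gg J := by
      unfold ga
      refine Finset.prod_union ?_
      rw [Finset.disjoint_left]
      intro d hd hd'
      exact hdQ3 (hJ1 d hd').1 ((mem_LS.1 hD0).1 d hd)
    have e2 : ga gg (E ∪ U) = ga gg E * ga gg U := by
      unfold ga
      rw [Finset.prod_union]
      rw [Finset.disjoint_left]
      intro d hd hd'
      exact hdis' (hU1.1 d hd') (hE1.1 d hd)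
    have e3 : ga gg J = HH Q := by
      unfold ga HH
      rw [hJ, Finset.prod_image]
      intro p _ q _ h
      exact (Prod.ext_iff.1 h).1
    rw [e1, e2, e3]
  have h2 := mx_ge (a i * (2 * x) + b i) m c hmpos hc
  have h1 := mx_ge (a i * x + b i) m c hmpos hc
  have h3 : (pic (a i * (2 * x) + b i) m c : ℝ) - pic (a i * x + b i) m c -
      ((Nat.primeCounting (a i * (2 * x) + b i) : ℝ) - Nat.primeCounting (a i * x + b i)) /
        Nat.totient (a i * W) * ga gg E * ga gg U * HH Q =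
      ((pic (a i * (2 * x) + b i) m c : ℝ) -
        (Nat.primeCounting (a i * (2 * x) + b i) : ℝ) / Nat.totient m) -
      ((pic (a i * x + b i) m c : ℝ) -
        (Nat.primeCounting (a i * x + b i) : ℝ) / Nat.totient m) := by
    rw [div_eq_mul_inv _ (Nat.totient m : ℝ), div_eq_mul_inv _ (Nat.totient m : ℝ), hφ,
      div_eq_mul_inv]
    ring
  rw [h3]
  exact (abs_sub _ _).trans (add_le_add h2 h1)

theorem prime_legQ {K : ℕ} (x W v : ℕ) (hW : 0 < W) (P P₀ Q : Finset ℕ) (hdis : Disjoint P P₀)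
    (hdQ : Disjoint Q P) (hdQ₀ : Disjoint Q P₀) (a b : Fin K → ℕ) (i j : Fin K) (ha : 1 ≤ a i)
    (haW : ∀ l, ∀ p : ℕ, p.Prime → p ∣ a l → p ∣ W) (hcop : Nat.Coprime (a i * v + b i) W)
    (hP : ∀ p ∈ P ∪ P₀ ∪ Q, p.Prime ∧ ¬ p ∣ W) (hbd : ∀ p ∈ P, ¬ bd a b p)
    (hQbd : ∀ q ∈ Q, ¬ a i * b j ≡ a j * b i [MOD q]) (e Y : Finset (ℕ × Fin K) → ℝ)
    (he : ∀ E, |e E| ≤ 1)
    (hei : ∀ E, e E ≠ 0 → ∀ c ∈ E, ¬ a i * b c.2 ≡ a c.2 * b i [MOD c.1])
    (hYi : ∀ A ∈ LS K P, (∃ c ∈ A, c.2 = i) → Y A = 0) (R la0 : ℝ)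
    (hYR : ∀ A, Y A ≠ 0 → (pr A : ℝ) ≤ R) (hla : ∀ B, |la gg P Y B| ≤ la0) :
    |∑ z ∈ (Ioc x (2 * x)).filter (fun z => z % W = v % W ∧ (a i * z + b i).Prime ∧
          ∀ q ∈ Q, q ∣ a j * z + b j),
        (∑ E ∈ LS K P₀, e E * (if E ⊆ om P₀ a b z then 1 else 0)) *
          (ff gg P Y (om P a b z)) ^ 2 -
      ((Nat.primeCounting (a i * (2 * x) + b i) : ℝ) - Nat.primeCounting (a i * x + b i)) /
        Nat.totient (a i * W) * (∑ E ∈ LS K P₀, e E * ga gg E) * HH Q *
        Ex gg P (fun ω => (ff gg P Y ω) ^ 2)| ≤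
      la0 ^ 2 * ∑ T ∈ (P ∪ P₀).powerset.filter (fun T => ((pd T : ℕ) : ℝ) ≤ pd P₀ * R ^ 2),
        (3 * K : ℝ) ^ #T * (mx (a i * (2 * x) + b i) (a i * W * (pd Q * pd T)) +
          mx (a i * x + b i) (a i * W * (pd Q * pd T))) := by
  classical
  obtain ⟨N, hN⟩ : ∃ N : ℝ, N = (Nat.primeCounting (a i * (2 * x) + b i) : ℝ) -
    Nat.primeCounting (a i * x + b i) := ⟨_, rfl⟩
  have hP' : ∀ p ∈ P, p.Prime ∧ ¬ p ∣ W := fun p hp =>
    hP p (mem_union_left _ (mem_union_left _ hp))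
  have hP1 : ∀ p ∈ P, 1 ≤ p := fun p hp => (hP' p hp).1.one_lt.le
  have hla0 : 0 ≤ la0 := (abs_nonneg _).trans (hla ∅)
  -- the number of `z`
  let n : Finset (ℕ × Fin K) → Finset (ℕ × Fin K) → ℝ := fun E U =>
    (((Ioc x (2 * x)).filter (fun z => (z % W = v % W ∧ (a i * z + b i).Prime ∧
        ∀ q ∈ Q, q ∣ a j * z + b j) ∧
        E ∪ U ⊆ om (P ∪ P₀) a b z)).card : ℝ)
  -- expansion for one `z`
  have hexp : ∀ z, (∑ E ∈ LS K P₀, e E * (if E ⊆ om P₀ a b z then 1 else 0)) *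
          (ff gg P Y (om P a b z)) ^ 2 =
      ∑ E ∈ LS K P₀, ∑ B ∈ LS K P, ∑ B' ∈ LS K P, e E * la gg P Y B * la gg P Y B' *
        (if E ∪ (B ∪ B') ⊆ om (P ∪ P₀) a b z then 1 else 0) := by
    intro z
    rw [ff_exp, sq, Finset.sum_mul_sum, Finset.sum_mul]
    refine Finset.sum_congr rfl fun E hE => ?_
    rw [Finset.mul_sum]
    refine Finset.sum_congr rfl fun B hB => ?_
    rw [Finset.mul_sum]
    refine Finset.sum_congr rfl fun B' hB' => ?_
    have h1 : (if E ∪ (B ∪ B') ⊆ om (P ∪ P₀) a b z then (1 : ℝ) else 0) =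
        (if E ⊆ om P₀ a b z then 1 else 0) * (if B ⊆ om P a b z then 1 else 0) *
          (if B' ⊆ om P a b z then 1 else 0) := by
      have h2 : E ∪ (B ∪ B') ⊆ om (P ∪ P₀) a b z ↔
          E ⊆ om P₀ a b z ∧ B ⊆ om P a b z ∧ B' ⊆ om P a b z := by
        rw [sub_om P₀ a b z E (mem_LS.1 hE).1, sub_om P a b z B (mem_LS.1 hB).1,
          sub_om P a b z B' (mem_LS.1 hB').1, sub_om (P ∪ P₀) a b z]
        · constructor
          · intro h
            exact ⟨fun c hc => h c (mem_union_left _ hc),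
              fun c hc => h c (mem_union_right _ (mem_union_left _ hc)),
              fun c hc => h c (mem_union_right _ (mem_union_right _ hc))⟩
          · rintro ⟨h3, h4, h5⟩ c hc
            rcases mem_union.1 hc with h | h
            · exact h3 c h
            · rcases mem_union.1 h with h | h
              · exact h4 c h
              · exact h5 c h
        · intro c hc
          rcases mem_union.1 hc with h | h
          · exact mem_union_right _ ((mem_LS.1 hE).1 c h)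
          · rcases mem_union.1 h with h | h
            · exact mem_union_left _ ((mem_LS.1 hB).1 c h)
            · exact mem_union_left _ ((mem_LS.1 hB').1 c h)
      by_cases h3 : E ⊆ om P₀ a b z
      · by_cases h4 : B ⊆ om P a b z
        · by_cases h5 : B' ⊆ om P a b z
          · rw [if_pos (h2.2 ⟨h3, h4, h5⟩), if_pos h3, if_pos h4, if_pos h5]
            norm_num
          · rw [if_neg (fun h => h5 (h2.1 h).2.2), if_neg h5, mul_zero]
        · rw [if_neg (fun h => h4 (h2.1 h).2.1), if_neg h4, mul_zero, zero_mul]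
      · rw [if_neg (fun h => h3 (h2.1 h).1), if_neg h3, zero_mul, zero_mul]
    rw [h1]
    ring
  -- the whole sum
  have hsum : ∑ z ∈ (Ioc x (2 * x)).filter (fun z => z % W = v % W ∧ (a i * z + b i).Prime ∧
        ∀ q ∈ Q, q ∣ a j * z + b j),
        (∑ E ∈ LS K P₀, e E * (if E ⊆ om P₀ a b z then 1 else 0)) *
          (ff gg P Y (om P a b z)) ^ 2 =
      ∑ E ∈ LS K P₀, ∑ B ∈ LS K P, ∑ B' ∈ LS K P,
        e E * la gg P Y B * la gg P Y B' * n E (B ∪ B') := by
    rw [Finset.sum_congr rfl fun z _ => hexp z, Finset.sum_comm]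
    refine Finset.sum_congr rfl fun E _ => ?_
    rw [Finset.sum_comm]
    refine Finset.sum_congr rfl fun B _ => ?_
    rw [Finset.sum_comm]
    refine Finset.sum_congr rfl fun B' _ => ?_
    rw [← Finset.mul_sum]
    congr 1
    exact (q1_count (Ioc x (2 * x)) (fun z => z % W = v % W ∧ (a i * z + b i).Prime ∧
        ∀ q ∈ Q, q ∣ a j * z + b j)
      (fun z => E ∪ (B ∪ B') ⊆ om (P ∪ P₀) a b z)).symm
  have hmain : N / Nat.totient (a i * W) * (∑ E ∈ LS K P₀, e E * ga gg E) * HH Q *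
        Ex gg P (fun ω => (ff gg P Y ω) ^ 2) =
      ∑ E ∈ LS K P₀, ∑ B ∈ LS K P, ∑ B' ∈ LS K P,
        e E * la gg P Y B * la gg P Y B' * (N / Nat.totient (a i * W) * ga gg E *
          (if Lab (B ∪ B') then ga gg (B ∪ B') else 0) * HH Q) := by
    rw [Ex_sq, Finset.mul_sum (LS K P₀) (fun E => e E * ga gg E) (N / Nat.totient (a i * W)),
      Finset.sum_mul, Finset.sum_mul]
    refine Finset.sum_congr rfl fun E _ => ?_
    rw [Finset.mul_sum]
    refine Finset.sum_congr rfl fun B _ => ?_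
    rw [Finset.mul_sum]
    refine Finset.sum_congr rfl fun B' _ => ?_
    ring
  rw [← hN, hsum, hmain]
  simp only [← Finset.sum_sub_distrib, ← mul_sub]
  -- the majorant
  let F : Finset ℕ → ℝ := fun T => if ((pd T : ℕ) : ℝ) ≤ pd P₀ * R ^ 2 then
    mx (a i * (2 * x) + b i) (a i * W * (pd Q * pd T)) + mx (a i * x + b i) (a i * W * (pd Q * pd T)) else 0
  have hF : ∀ T, 0 ≤ F T := by
    intro T
    show 0 ≤ if ((pd T : ℕ) : ℝ) ≤ pd P₀ * R ^ 2 then
      mx (a i * (2 * x) + b i) (a i * W * (pd Q * pd T)) + mx (a i * x + b i) (a i * W * (pd Q * pd T)) else 0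
    split_ifs
    · exact add_nonneg (mx_nn _ _) (mx_nn _ _)
    · exact le_rfl
  have hterm : ∀ E ∈ LS K P₀, ∀ B ∈ LS K P, ∀ B' ∈ LS K P,
      |e E * la gg P Y B * la gg P Y B' * (n E (B ∪ B') - N / Nat.totient (a i * W) * ga gg E *
          (if Lab (B ∪ B') then ga gg (B ∪ B') else 0) * HH Q)| ≤
      la0 ^ 2 * (if Lab (B ∪ B') then F ((E ∪ (B ∪ B')).image Prod.fst) else 0) := by
    intro E hE B hB B' hB'
    have hR0 : 0 ≤ la0 ^ 2 * (if Lab (B ∪ B') then F ((E ∪ (B ∪ B')).image Prod.fst) else 0) := by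
      refine mul_nonneg (sq_nonneg _) ?_
      split_ifs
      · exact hF _
      · exact le_rfl
    by_cases he0 : e E = 0
    · rw [he0, zero_mul, zero_mul, zero_mul, abs_zero]
      exact hR0
    by_cases hl : la gg P Y B = 0
    · rw [hl, mul_zero, zero_mul, zero_mul, abs_zero]
      exact hR0
    by_cases hl' : la gg P Y B' = 0
    · rw [hl', mul_zero, zero_mul, abs_zero]
      exact hR0
    have hBB : ∀ c ∈ B ∪ B', c.1 ∈ P := by
      intro c hc
      rcases mem_union.1 hc with h | h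
      · exact (mem_LS.1 hB).1 c h
      · exact (mem_LS.1 hB').1 c h
    by_cases hLab : Lab (B ∪ B')
    · rw [if_pos hLab, if_pos hLab]
      have hU : B ∪ B' ∈ LS K P := mem_LS.2 ⟨hBB, hLab⟩
      have hUi : ∀ c ∈ B ∪ B', ¬ a i * b c.2 ≡ a c.2 * b i [MOD c.1] := by
        intro c hc hmod
        have hci : c.2 ≠ i := by
          rcases mem_union.1 hc with h | h
          · exact q1_la_i P Y i hYi B hl c h
          · exact q1_la_i P Y i hYi B' hl' c h
        exact hbd c.1 (hBB c hc) ⟨i, c.2, Ne.symm hci, hmod⟩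
      have hg := q1_good x W v hW P P₀ Q hdis hdQ hdQ₀ a b i j ha haW hcop hP hQbd E (B ∪ B') hE hU (hei E he0) hUi
      rw [← hN] at hg
      have hFv : F ((E ∪ (B ∪ B')).image Prod.fst) =
          mx (a i * (2 * x) + b i) (a i * W * (pd Q * pd ((E ∪ (B ∪ B')).image Prod.fst))) +
          mx (a i * x + b i) (a i * W * (pd Q * pd ((E ∪ (B ∪ B')).image Prod.fst))) := by
        show (if _ then _ else _) = _
        rw [if_pos]
        -- `pd T ≤ pd P₀ * R ^ 2`
        have hprB : (pr B : ℝ) ≤ R := la_supp gg P hP1 R Y hYR B hl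
        have hprB' : (pr B' : ℝ) ≤ R := la_supp gg P hP1 R Y hYR B' hl'
        have hR : 0 ≤ R := (Nat.cast_nonneg _).trans hprB
        have h1 : pd ((E ∪ (B ∪ B')).image Prod.fst) ∣ pd P₀ * (pr B * pr B') := by
          rw [image_union]
          have h2 : pd (E.image Prod.fst ∪ (B ∪ B').image Prod.fst) =
              pd (E.image Prod.fst) * pd ((B ∪ B').image Prod.fst) := by
            unfold pd
            rw [Finset.prod_union]
            rw [Finset.disjoint_left]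
            intro q hq hq'
            obtain ⟨c, hc, rfl⟩ := mem_image.1 hq
            obtain ⟨d, hd, hdc⟩ := mem_image.1 hq'
            exact Finset.disjoint_left.1 hdis (hdc ▸ hBB d hd) ((mem_LS.1 hE).1 c hc)
          rw [h2]
          refine Nat.mul_dvd_mul ?_ ?_
          · unfold pd
            refine Finset.prod_dvd_prod_of_subset _ _ _ fun q hq => ?_
            obtain ⟨c, hc, rfl⟩ := mem_image.1 hq
            exact (mem_LS.1 hE).1 c hc
          · rw [← q1_pr _ hLab, ← Finset.union_sdiff_self_eq_union]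
            unfold pr
            rw [Finset.prod_union (Finset.disjoint_sdiff)]
            exact Nat.mul_dvd_mul dvd_rfl (Finset.prod_dvd_prod_of_subset _ _ _
              Finset.sdiff_subset)
        have hpos : 0 < pd P₀ * (pr B * pr B') := by
          refine Nat.mul_pos (q1_pd_pos _ fun p hp => (hP p (mem_union_left _ (mem_union_right _ hp))).1) ?_
          refine Nat.mul_pos ?_ ?_
          · exact Finset.prod_pos fun c hc => (hP' c.1 ((mem_LS.1 hB).1 c hc)).1.pos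
          · exact Finset.prod_pos fun c hc => (hP' c.1 ((mem_LS.1 hB').1 c hc)).1.pos
        have h3 : ((pd ((E ∪ (B ∪ B')).image Prod.fst) : ℕ) : ℝ) ≤
            ((pd P₀ * (pr B * pr B') : ℕ) : ℝ) := by
          exact_mod_cast Nat.le_of_dvd hpos h1
        refine h3.trans ?_
        push_cast
        refine mul_le_mul_of_nonneg_left ?_ (Nat.cast_nonneg _)
        rw [sq]
        exact mul_le_mul hprB hprB' (Nat.cast_nonneg _) hR
      rw [hFv, abs_mul]
      refine mul_le_mul ?_ hg (abs_nonneg _) (sq_nonneg _)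
      rw [abs_mul, abs_mul]
      calc |e E| * |la gg P Y B| * |la gg P Y B'| ≤ 1 * la0 * la0 :=
            mul_le_mul (mul_le_mul (he E) (hla B) (abs_nonneg _) zero_le_one) (hla B')
              (abs_nonneg _) (by rw [one_mul]; exact hla0)
        _ = la0 ^ 2 := by ring
    · rw [if_neg hLab, if_neg hLab, mul_zero, mul_zero, zero_mul]
      have hn : n E (B ∪ B') = 0 := by
        show ((((Ioc x (2 * x)).filter (fun z => (z % W = v % W ∧ (a i * z + b i).Prime ∧
        ∀ q ∈ Q, q ∣ a j * z + b j) ∧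
          E ∪ (B ∪ B') ⊆ om (P ∪ P₀) a b z)).card : ℕ) : ℝ) = 0
        rw [Nat.cast_eq_zero, Finset.card_eq_zero, Finset.filter_eq_empty_iff]
        intro z _ hz
        apply hLab
        have h1 : B ∪ B' ⊆ om P a b z := by
          rw [sub_om P a b z _ hBB]
          intro c hc
          exact ((mem_om _ a b z c).1 (hz.2 (mem_union_right _ hc))).2
        have h2 := (mem_LS.1 (om_LS P a b hbd z)).2
        exact fun c hc d hd hcd => h2 c (h1 hc) d (h1 hd) hcd
      rw [hn, sub_zero, mul_zero, abs_zero]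
  have h3 : |∑ E ∈ LS K P₀, ∑ B ∈ LS K P, ∑ B' ∈ LS K P,
      e E * la gg P Y B * la gg P Y B' * (n E (B ∪ B') - N / Nat.totient (a i * W) * ga gg E *
          (if Lab (B ∪ B') then ga gg (B ∪ B') else 0) * HH Q)| ≤
      ∑ E ∈ LS K P₀, ∑ B ∈ LS K P, ∑ B' ∈ LS K P,
        la0 ^ 2 * (if Lab (B ∪ B') then F ((E ∪ (B ∪ B')).image Prod.fst) else 0) := by
    refine (Finset.abs_sum_le_sum_abs _ _).trans (Finset.sum_le_sum fun E hE => ?_)
    refine (Finset.abs_sum_le_sum_abs _ _).trans (Finset.sum_le_sum fun B hB => ?_)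
    refine (Finset.abs_sum_le_sum_abs _ _).trans (Finset.sum_le_sum fun B' hB' => ?_)
    exact hterm E hE B hB B' hB'
  refine h3.trans ?_
  simp only [← Finset.mul_sum]
  refine mul_le_mul_of_nonneg_left ((triple_le P P₀ hdis F hF).trans (le_of_eq ?_)) (sq_nonneg _)
  rw [Finset.sum_filter]
  refine Finset.sum_congr rfl fun T _ => ?_
  show (3 * K : ℝ) ^ #T * (if _ then _ else _) = _
  rw [mul_ite, mul_zero]

end Pool.Agent.Work.MP_70e905_nt.M3
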