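import Pool.Agent.Work.MP_70e905_nt.M3.Defs
import Pool.Agent.Work.MP_70e905_nt.MT.B3

set_option autoImplicit false

/-!
MODULE Q2 (errors for a family of extra divisors), size S-M.

`(Q, T) ↦ Q ∪ T` with `pd Q * pd T = pd (Q ∪ T)`, `#T ≤ #(Q ∪ T)`, and for a given set `S = Q ∪ T` there are at most
`2 ^ #S` possible `Q ⊆ S` (then `T = S \ Q`). So the double sum is at most the sum over all sets `S` of primes up to `Y`
with `m₀ pd S ≤ Y^θ` of `(2 H)^#S mx y (m₀ pd S)`: apply `wt` (MT/B3) with `2 H` and `P` = all primes up to `Y`.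
-/

namespace Pool.Agent.Work.MP_70e905_nt.M3

open Finset Pool.Agent.Work.MP_73869e_nt.TH Pool.Agent.Work.MP_70e905_nt.MT

theorem wtQ (θ : ℝ) (hθ : θ ≤ 1) (h : LD θ) (H A : ℕ) (hH : 1 ≤ H) : ∃ C : ℝ, 0 < C ∧
    ∀ Y : ℕ, 2 ≤ Y → ∀ y : ℕ, y ≤ Y → ∀ m₀ : ℕ, 1 ≤ m₀ → ∀ 𝒬 : Finset (Finset ℕ),
      ∀ PQ : Finset ℕ → Finset ℕ, (∀ Q ∈ 𝒬, ∀ p ∈ Q ∪ PQ Q, p.Prime ∧ p ≤ Y) →
      (∀ Q ∈ 𝒬, Disjoint Q (PQ Q)) →
      ∑ Q ∈ 𝒬, ∑ T ∈ (PQ Q).powerset.filter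
          (fun T => ((m₀ * (pd Q * pd T) : ℕ) : ℝ) ≤ (Y : ℝ) ^ θ),
        (H : ℝ) ^ #T * mx y (m₀ * (pd Q * pd T)) ≤ C * Y / (Real.log Y) ^ A := by
  classical
  obtain ⟨C, hC, hw⟩ := wt θ hθ h (2 * H) A
  refine ⟨C, hC, fun Y hY y hy m₀ hm₀ 𝒬 PQ hP hdis => ?_⟩
  obtain ⟨P, hPd⟩ : ∃ P : Finset ℕ, P = (Icc 1 Y).filter Nat.Prime := ⟨_, rfl⟩
  have h1 := hw Y hY y hy m₀ hm₀ P (fun p hp => by
    rw [hPd, mem_filter, mem_Icc] at hp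
    exact ⟨hp.2, hp.1.2⟩)
  refine le_trans ?_ h1
  obtain ⟨𝒮, h𝒮⟩ : ∃ 𝒮 : Finset (Finset ℕ), 𝒮 = P.powerset.filter
      (fun T => ((m₀ * pd T : ℕ) : ℝ) ≤ (Y : ℝ) ^ θ) := ⟨_, rfl⟩
  rw [← h𝒮]
  let G : Finset ℕ → ℝ := fun S => (H : ℝ) ^ #S * mx y (m₀ * pd S)
  have hG : ∀ S, 0 ≤ G S := fun S => mul_nonneg (by positivity) (mx_nn _ _)
  have hH1 : (1 : ℝ) ≤ H := by exact_mod_cast hH
  have hR : ∑ S ∈ 𝒮, ((2 * H : ℕ) : ℝ) ^ #S * mx y (m₀ * pd S) =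
      ∑ x ∈ 𝒮.sigma (fun S => S.powerset), G x.1 := by
    rw [Finset.sum_sigma]
    refine Finset.sum_congr rfl fun S _ => ?_
    show _ = ∑ _x ∈ S.powerset, (H : ℝ) ^ #S * mx y (m₀ * pd S)
    rw [Finset.sum_const, Finset.card_powerset, nsmul_eq_mul]
    push_cast
    rw [mul_pow]
    ring
  rw [hR]
  rw [Finset.sum_sigma']
  have hpd : ∀ x ∈ 𝒬.sigma (fun Q => (PQ Q).powerset.filter
      (fun T => ((m₀ * (pd Q * pd T) : ℕ) : ℝ) ≤ (Y : ℝ) ^ θ)),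
      pd x.1 * pd x.2 = pd (x.1 ∪ x.2) ∧ x.1 ∈ 𝒬 ∧ x.2 ⊆ PQ x.1 ∧
        ((m₀ * (pd x.1 * pd x.2) : ℕ) : ℝ) ≤ (Y : ℝ) ^ θ := by
    intro x hx
    rw [mem_sigma, mem_filter, mem_powerset] at hx
    refine ⟨?_, hx.1, hx.2.1, hx.2.2⟩
    unfold pd
    exact (Finset.prod_union ((hdis x.1 hx.1).mono_right hx.2.1)).symm
  have hinj : Set.InjOn (fun x : (_ : Finset ℕ) × Finset ℕ =>
      (⟨x.1 ∪ x.2, x.1⟩ : (_ : Finset ℕ) × Finset ℕ))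
      (𝒬.sigma (fun Q => (PQ Q).powerset.filter
      (fun T => ((m₀ * (pd Q * pd T) : ℕ) : ℝ) ≤ (Y : ℝ) ^ θ)) :
        Set ((_ : Finset ℕ) × Finset ℕ)) := by
    intro x hx x' hx' hxx
    have e1 := hpd x (Finset.mem_coe.1 hx)
    have e2 := hpd x' (Finset.mem_coe.1 hx')
    obtain ⟨Q, T⟩ := x
    obtain ⟨Q', T'⟩ := x'
    simp only [Sigma.mk.injEq, heq_eq_eq] at hxx
    obtain ⟨h2, h3⟩ := hxx
    subst h3
    have h4 : Disjoint Q T := (hdis Q e1.2.1).mono_right e1.2.2.1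
    have h5 : Disjoint Q T' := (hdis Q e2.2.1).mono_right e2.2.2.1
    have h6 : T = T' := by
      rw [← Finset.union_sdiff_cancel_left h4, ← Finset.union_sdiff_cancel_left h5, h2]
    rw [h6]
  calc ∑ x ∈ 𝒬.sigma (fun Q => (PQ Q).powerset.filter
          (fun T => ((m₀ * (pd Q * pd T) : ℕ) : ℝ) ≤ (Y : ℝ) ^ θ)),
        (H : ℝ) ^ #x.2 * mx y (m₀ * (pd x.1 * pd x.2))
      ≤ ∑ x ∈ 𝒬.sigma (fun Q => (PQ Q).powerset.filter
          (fun T => ((m₀ * (pd Q * pd T) : ℕ) : ℝ) ≤ (Y : ℝ) ^ θ)), G (x.1 ∪ x.2) := by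
        refine Finset.sum_le_sum fun x hx => ?_
        rw [(hpd x hx).1]
        refine mul_le_mul_of_nonneg_right ?_ (mx_nn _ _)
        exact pow_le_pow_right₀ hH1 (card_le_card subset_union_right)
    _ = ∑ x ∈ (𝒬.sigma (fun Q => (PQ Q).powerset.filter
          (fun T => ((m₀ * (pd Q * pd T) : ℕ) : ℝ) ≤ (Y : ℝ) ^ θ))).image
          (fun x : (_ : Finset ℕ) × Finset ℕ =>
            (⟨x.1 ∪ x.2, x.1⟩ : (_ : Finset ℕ) × Finset ℕ)), G x.1 := by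
        rw [Finset.sum_image hinj]
    _ ≤ ∑ x ∈ 𝒮.sigma (fun S => S.powerset), G x.1 := by
        refine Finset.sum_le_sum_of_subset_of_nonneg ?_ fun x _ _ => hG x.1
        intro z hz
        obtain ⟨x, hx, rfl⟩ := mem_image.1 hz
        have h2 := hpd x hx
        rw [mem_sigma, h𝒮, mem_filter, mem_powerset, mem_powerset]
        refine ⟨⟨fun p hp => ?_, ?_⟩, subset_union_left⟩
        · have h3 : p ∈ x.1 ∪ PQ x.1 := by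
            rcases mem_union.1 hp with h4 | h4
            · exact mem_union_left _ h4
            · exact mem_union_right _ (h2.2.2.1 h4)
          have h4 := hP x.1 h2.2.1 p h3
          rw [hPd, mem_filter, mem_Icc]
          exact ⟨⟨h4.1.one_lt.le, h4.2⟩, h4.1⟩
        · rw [← h2.1]
          exact h2.2.2.2

end Pool.Agent.Work.MP_70e905_nt.M3
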