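import Pool.Agent.Work.MP_70e905_nt.M3.Defs
import Pool.Agent.Work.MP_70e905_nt.M3.Q1
import Pool.Agent.Work.MP_70e905_nt.M3.Q2
import Pool.Agent.Work.MP_70e905_nt.MT.B6

set_option autoImplicit false

/-!
MODULE Q3 (the sums over primes with extra divisors, uniform error), size M. Copy of MT/B6 (`prime_fin`).

For every `Q ∈ 𝒬` apply `prime_legQ` (Q1) with `P := PQ Q`, `P₀ := c.P₀ W s` (disjoint from `c.PZ W x`), `e = eJ (Ji a b i)`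
(`c.q2` = sum of `e * ga gg`, `leg_i`: see MT/B6), `Y := YQ Q`, `R = x^ρ`, `la0 = Y₀ (C₁ log x)^K` (`la_le` of TH/T04 and
`sum_gg` of MT/M0); `hQbd` holds because `q ∈ c.PZ W x` is not `bd` and `i ≠ j`.
Errors: `pd P₀ ≤ 4^(s log x) ≤ x^(3 s / 2)`, so all moduli `a i W * (pd Q * pd T)` are at most
`A₀ W x^(3 s / 2 + β + 2 ρ) ≤ A₀ W x^(3 η / 4 + β + 2 ρ) ≤ Y^θ` with `Y = (2 A₀ + C) x`, `θ = 1/2 - η / 8` (large `x`);
sum over `Q ∈ 𝒬` by `wtQ` (Q2) with `PQ' Q = PQ Q ∪ P₀`, `H = 3 K`, `m₀ = a i W`, exponent `A + 2 K + 1`.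
-/

namespace Pool.Agent.Work.MP_70e905_nt.M3

open Finset Pool.Agent.Work.MP_73869e_nt.TH Pool.Agent.Work.MP_70e905_nt.MT

private theorem q3_gg_nn (p : ℕ) (hp : p.Prime) : 0 ≤ gg p := by
  unfold gg
  have h1 : (1 : ℝ) < p := by exact_mod_cast hp.one_lt
  have h2 : (0 : ℝ) < (p : ℝ) - 1 := by linarith
  positivity

private theorem q3_log4 : Real.log 4 ≤ 3 / 2 := by
  have h1 : Real.log 4 = 2 * Real.log 2 := by
    rw [show (4 : ℝ) = 2 ^ 2 by norm_num, Real.log_pow]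
    norm_num
  have h2 := Real.log_two_lt_d9
  rw [h1]
  linarith

/-- the product of the primes of a set below `y` -/
private theorem q3_pd (S : Finset ℕ) (y : ℝ) (hS : ∀ p ∈ S, p.Prime ∧ p ≤ ⌊y⌋₊) (x : ℕ) (s : ℝ)
    (hx : 1 ≤ x) (hs : 0 ≤ s) (hy : y = s * Real.log x) : ((pd S : ℕ) : ℝ) ≤ (x : ℝ) ^ (3 * s / 2) := by
  have hx' : (1 : ℝ) ≤ x := by exact_mod_cast hx
  have hlog : 0 ≤ Real.log x := Real.log_nonneg hx'
  have h1 : pd S ∣ primorial ⌊y⌋₊ := by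
    unfold pd primorial
    refine Finset.prod_dvd_prod_of_subset _ _ _ fun p hp => ?_
    rw [mem_filter, mem_range]
    exact ⟨Nat.lt_succ_of_le (hS p hp).2, (hS p hp).1⟩
  have h2 : pd S ≤ 4 ^ ⌊y⌋₊ := (Nat.le_of_dvd (primorial_pos _) h1).trans (primorial_le_four_pow _)
  have h3 : ((pd S : ℕ) : ℝ) ≤ (4 : ℝ) ^ ⌊y⌋₊ := by exact_mod_cast h2
  refine h3.trans ?_
  have hy0 : 0 ≤ y := by
    rw [hy]
    exact mul_nonneg hs hlog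
  calc (4 : ℝ) ^ ⌊y⌋₊ = (4 : ℝ) ^ ((⌊y⌋₊ : ℕ) : ℝ) := (Real.rpow_natCast _ _).symm
    _ ≤ (4 : ℝ) ^ y := Real.rpow_le_rpow_of_exponent_le (by norm_num) (Nat.floor_le hy0)
    _ = Real.exp (Real.log 4 * y) := by rw [Real.rpow_def_of_pos (by norm_num)]
    _ ≤ Real.exp (Real.log x * (3 * s / 2)) := by
        refine Real.exp_le_exp.2 ?_
        rw [hy]
        have h4 := mul_le_mul_of_nonneg_right q3_log4 (mul_nonneg hs hlog)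
        linarith
    _ = (x : ℝ) ^ (3 * s / 2) := by rw [Real.rpow_def_of_pos (by linarith)]

theorem prime_finQ (K : ℕ) (hLD : ∀ t : ℝ, t < 1 / 2 → LD t) (s η β ρ : ℝ) (hs : 0 < s) (hη : 0 < η)
    (hsη : 2 * s ≤ η) (hβ : 0 ≤ β) (hρ : 0 ≤ ρ) (hβρ : β + 2 * ρ + η ≤ 1 / 2) (A W A₀ C D₀ : ℕ) :
    ∃ X₀ : ℕ, ∀ c : Cfg K, c.Ok D₀ W A₀ C → X₀ ≤ c.x → ∀ i j : Fin K, i ≠ j →
      ∀ (𝒬 : Finset (Finset ℕ)) (PQ : Finset ℕ → Finset ℕ)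
        (YQ : Finset ℕ → Finset (ℕ × Fin K) → ℝ) (Y₀ : ℝ),
      (∀ Q' ∈ 𝒬, Q' ⊆ Q c W 1 ∧ ((pd Q' : ℕ) : ℝ) ≤ (c.x : ℝ) ^ β ∧ PQ Q' ⊆ Q c W 1 ∧
        Disjoint Q' (PQ Q')) →
      (∀ Q' ∈ 𝒬, ∀ A, |YQ Q' A| ≤ Y₀) →
      (∀ Q' ∈ 𝒬, ∀ A, YQ Q' A ≠ 0 → (pr A : ℝ) ≤ (c.x : ℝ) ^ ρ) →
      (∀ Q' ∈ 𝒬, ∀ A ∈ LS K (PQ Q'), (∃ q ∈ A, q.2 = i) → YQ Q' A = 0) →
      ∑ Q' ∈ 𝒬, |∑ z ∈ (dp c W i).filter (fun z => ∀ q ∈ Q', q ∣ c.a j * z + c.b j),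
          (if cop (c.P₀ W s) c.a c.b z then 1 else 0) *
            (ff gg (PQ Q') (YQ Q') (om (PQ Q') c.a c.b z)) ^ 2 -
        c.N i / Nat.totient (c.a i * W) * c.q2 W s * HH Q' *
          Ex gg (PQ Q') (fun ω => (ff gg (PQ Q') (YQ Q') ω) ^ 2)| ≤
        Y₀ ^ 2 * c.x / (Real.log c.x) ^ A := by
  classical
  rcases Nat.eq_zero_or_pos K with hK0 | hK0
  · subst hK0
    exact ⟨0, fun c _ _ i => i.elim0⟩
  obtain ⟨C₁, hC₁, hgg⟩ := sum_gg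
  obtain ⟨C₂, hC₂, hwt⟩ := wtQ (1 / 2 - η / 8) (by linarith) (hLD _ (by linarith)) (3 * K)
    (A + 2 * K + 1) (by omega)
  -- large `x`
  have ev1 : ∀ᶠ x : ℕ in Filter.atTop, s * Real.log x ≤ x := by
    have h1 := (Real.isLittleO_log_id_atTop.bound (c := 1 / s) (by positivity))
    have h2 := (tendsto_natCast_atTop_atTop (R := ℝ)).eventually h1
    filter_upwards [h2, Filter.eventually_ge_atTop 1] with x hx hx1
    have hx1' : (1 : ℝ) ≤ x := by exact_mod_cast hx1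
    have hlog : 0 ≤ Real.log x := Real.log_nonneg hx1'
    simp only [id, Real.norm_eq_abs] at hx
    rw [abs_of_nonneg hlog, abs_of_nonneg (by linarith : (0 : ℝ) ≤ x)] at hx
    calc s * Real.log x ≤ s * (1 / s * x) := mul_le_mul_of_nonneg_left hx hs.le
      _ = x := by field_simp
  have ev2 : ∀ᶠ x : ℕ in Filter.atTop,
      (A₀ * W : ℝ) / (2 * A₀ + C : ℝ) ^ (1 / 2 - η / 8) ≤ (x : ℝ) ^ (η / 8) :=
    ((tendsto_rpow_atTop (by positivity : (0 : ℝ) < η / 8)).comp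
      tendsto_natCast_atTop_atTop).eventually_ge_atTop _
  have ev3 : ∀ᶠ x : ℕ in Filter.atTop,
      C₁ ^ (2 * K) * (2 * C₂ * (2 * A₀ + C)) ≤ Real.log (x : ℝ) :=
    (Real.tendsto_log_atTop.comp tendsto_natCast_atTop_atTop).eventually_ge_atTop _
  obtain ⟨X₀, hX₀⟩ := Filter.eventually_atTop.1 ((ev1.and (ev2.and ev3)).and
    (Filter.eventually_ge_atTop 3))
  refine ⟨X₀, fun c hc hx i j hij 𝒬 PQ YQ Y₀ hQ hY hYR hYi => ?_⟩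
  obtain ⟨⟨hx1, hx2, hx3⟩, hx4⟩ := hX₀ c.x hx
  have hxr : (3 : ℝ) ≤ c.x := by exact_mod_cast hx4
  have hxpos : (0 : ℝ) < c.x := by linarith
  have hlog : 1 ≤ Real.log c.x := by
    rw [← Real.log_exp 1]
    refine Real.log_le_log (Real.exp_pos _) ?_
    have := Real.exp_one_lt_d9
    linarith
  have hA₀ : 1 ≤ A₀ := (hc.ha i).trans (hc.haA i)
  have hA₀r : (1 : ℝ) ≤ A₀ := by exact_mod_cast hA₀
  have hCr : (0 : ℝ) ≤ C := Nat.cast_nonneg _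
  have hlog0 : 0 < Real.log c.x := by linarith
  -- the primes
  have hQm : ∀ p ∈ Q c W 1, p.Prime ∧ p ≤ c.x ∧ ¬ p ∣ W ∧ ¬ bd c.a c.b p := by
    intro p hp
    unfold Q Cfg.PZ at hp
    rw [Real.rpow_one, mem_filter, mem_Icc, Nat.floor_natCast] at hp
    exact ⟨hp.2.1, hp.1.2, hp.2.2⟩
  have hP₀f : ∀ p ∈ c.P₀ W s, p.Prime ∧ p ≤ ⌊s * Real.log c.x⌋₊ ∧ ¬ p ∣ W ∧ bd c.a c.b p := by
    intro p hp
    unfold Cfg.P₀ at hp
    rw [mem_filter, mem_Icc] at hp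
    exact ⟨hp.2.1, hp.1.2, hp.2.2⟩
  have hP₀m : ∀ p ∈ c.P₀ W s, p.Prime ∧ p ≤ c.x ∧ ¬ p ∣ W ∧ bd c.a c.b p := by
    intro p hp
    have h1 := hP₀f p hp
    refine ⟨h1.1, h1.2.1.trans ?_, h1.2.2⟩
    have h2 : ⌊s * Real.log c.x⌋₊ ≤ ⌊(c.x : ℝ)⌋₊ := Nat.floor_le_floor hx1
    rwa [Nat.floor_natCast] at h2
  have hPr : ∀ r ∈ c.P₀ W s, r.Prime ∧ ∀ j, ¬ r ∣ c.a j := fun r hr =>
    ⟨(hP₀m r hr).1, fun j hd => (hP₀m r hr).2.2.1 (hc.haW j r (hP₀m r hr).1 hd)⟩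
  have hdis0 : ∀ S ⊆ Q c W 1, Disjoint S (c.P₀ W s) := by
    intro S hS
    rw [Finset.disjoint_left]
    intro p hp hp'
    exact (hQm p (hS hp)).2.2.2 (hP₀m p hp').2.2.2
  have hq2 : ∑ E ∈ LS K (c.P₀ W s), eJ (Ji c.a c.b i) E * ga gg E = c.q2 W s := by
    rw [sum_eJ]
    unfold Cfg.q2
    refine Finset.prod_congr rfl fun r hr => ?_
    have h1 := card_Ji c.a c.b i r (hPr r hr).1 (hPr r hr).2
    have h2 : ((#(Jr c.a c.b r) : ℕ) : ℝ) = (#(Ji c.a c.b i r) : ℝ) + 1 := by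
      rw [← h1]
      push_cast
      ring
    rw [h2]
    ring
  -- the constant `la0`
  obtain ⟨la0, hla0⟩ : ∃ la0 : ℝ, la0 = |Y₀| * (C₁ * Real.log c.x) ^ K := ⟨_, rfl⟩
  have hone : ∀ Q' ∈ 𝒬, |∑ z ∈ (dp c W i).filter (fun z => ∀ q ∈ Q', q ∣ c.a j * z + c.b j),
          (if cop (c.P₀ W s) c.a c.b z then 1 else 0) *
            (ff gg (PQ Q') (YQ Q') (om (PQ Q') c.a c.b z)) ^ 2 -
        c.N i / Nat.totient (c.a i * W) * c.q2 W s * HH Q' *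
          Ex gg (PQ Q') (fun ω => (ff gg (PQ Q') (YQ Q') ω) ^ 2)| ≤
      la0 ^ 2 * ∑ T ∈ (PQ Q' ∪ c.P₀ W s).powerset.filter (fun T => ((pd T : ℕ) : ℝ) ≤
          pd (c.P₀ W s) * ((c.x : ℝ) ^ ρ) ^ 2),
        (3 * K : ℝ) ^ #T * (mx (c.a i * (2 * c.x) + c.b i) (c.a i * W * (pd Q' * pd T)) +
          mx (c.a i * c.x + c.b i) (c.a i * W * (pd Q' * pd T))) := by
    intro Q' hQ'
    obtain ⟨hQ1, hQ2, hQ3, hQ4⟩ := hQ Q' hQ'
    have hPm : ∀ p ∈ PQ Q', p.Prime ∧ p ≤ c.x ∧ ¬ p ∣ W ∧ ¬ bd c.a c.b p := fun p hp =>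
      hQm p (hQ3 hp)
    have hPP : ∀ p ∈ PQ Q' ∪ c.P₀ W s ∪ Q', p.Prime ∧ ¬ p ∣ W := by
      intro p hp
      rcases mem_union.1 hp with h | h
      · rcases mem_union.1 h with h | h
        · exact ⟨(hPm p h).1, (hPm p h).2.2.1⟩
        · exact ⟨(hP₀m p h).1, (hP₀m p h).2.2.1⟩
      · exact ⟨(hQm p (hQ1 h)).1, (hQm p (hQ1 h)).2.2.1⟩
    set S : ℝ := ∑ p ∈ PQ Q', gg p with hS
    have hla : ∀ B, |la gg (PQ Q') (YQ Q') B| ≤ la0 := by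
      intro B
      have hY₀ : 0 ≤ Y₀ := (abs_nonneg _).trans (hY Q' hQ' ∅)
      have h1 := la_le gg (PQ Q') (fun p hp => q3_gg_nn p (hPm p hp).1) S le_rfl (YQ Q') Y₀
        (hY Q' hQ') B
      refine h1.trans ?_
      rw [hla0, abs_of_nonneg hY₀]
      refine mul_le_mul_of_nonneg_left ?_ hY₀
      rw [Real.exp_nat_mul]
      exact pow_le_pow_left₀ (Real.exp_pos _).le (hgg c.x (by omega) (PQ Q')
        (fun p hp => ⟨(hPm p hp).1, (hPm p hp).2.1⟩)) _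
    have hleg := prime_legQ c.x W c.v hc.hW (PQ Q') (c.P₀ W s) Q' (hdis0 _ hQ3) hQ4
      (hdis0 _ hQ1) c.a c.b i j (hc.ha i) hc.haW (hc.hcop i) hPP
      (fun p hp => (hPm p hp).2.2.2)
      (fun q hq hm => (hQm q (hQ1 hq)).2.2.2 ⟨i, j, hij, hm⟩)
      (eJ (Ji c.a c.b i)) (YQ Q') (eJ_le _)
      (fun E hE q hq => (mem_filter.1 (eJ_ne _ E hE q hq)).2)
      (hYi Q' hQ') ((c.x : ℝ) ^ ρ) la0 (hYR Q' hQ') hla
    have hsum : ∑ z ∈ (dp c W i).filter (fun z => ∀ q ∈ Q', q ∣ c.a j * z + c.b j),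
            (if cop (c.P₀ W s) c.a c.b z then 1 else 0) *
              (ff gg (PQ Q') (YQ Q') (om (PQ Q') c.a c.b z)) ^ 2 =
        ∑ z ∈ (Ioc c.x (2 * c.x)).filter (fun z => z % W = c.v % W ∧ (c.a i * z + c.b i).Prime ∧
            ∀ q ∈ Q', q ∣ c.a j * z + c.b j),
          (∑ E ∈ LS K (c.P₀ W s), eJ (Ji c.a c.b i) E *
            (if E ⊆ om (c.P₀ W s) c.a c.b z then 1 else 0)) *
            (ff gg (PQ Q') (YQ Q') (om (PQ Q') c.a c.b z)) ^ 2 := by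
      have hset : (dp c W i).filter (fun z => ∀ q ∈ Q', q ∣ c.a j * z + c.b j) =
          (Ioc c.x (2 * c.x)).filter (fun z => z % W = c.v % W ∧ (c.a i * z + c.b i).Prime ∧
            ∀ q ∈ Q', q ∣ c.a j * z + c.b j) := by
        unfold dp Cfg.dom
        rw [Finset.filter_filter, Finset.filter_filter]

      rw [hset]
      refine Finset.sum_congr rfl fun z hz => ?_
      rw [← leg_i (c.P₀ W s) c.a c.b hPr i z]
      intro r hr hd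
      have h1 := (mem_filter.1 hz).2.2.1
      have h2 := (Nat.prime_dvd_prime_iff_eq (hP₀m r hr).1 h1).1 hd
      have h3 := (mem_Ioc.1 (mem_filter.1 hz).1).1
      have h4 := (hP₀m r hr).2.1
      have h5 := hc.ha i
      nlinarith
    rw [hq2] at hleg
    rw [hsum]
    unfold Cfg.N
    exact hleg
  refine (Finset.sum_le_sum hone).trans ?_
  -- the error
  obtain ⟨Yb, hYb⟩ : ∃ Yb : ℕ, Yb = (2 * A₀ + C) * c.x := ⟨_, rfl⟩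
  have hYbr : (Yb : ℝ) = (2 * A₀ + C) * c.x := by
    rw [hYb]
    push_cast
    ring
  have hYbx : (c.x : ℝ) ≤ Yb := by
    rw [hYbr]
    nlinarith
  have hYbx' : c.x ≤ Yb := by exact_mod_cast hYbx
  have hy2 : c.a i * (2 * c.x) + c.b i ≤ Yb := by
    rw [hYb]
    have h1 := hc.haA i
    have h2 := hc.hb i
    nlinarith
  have hy1 : c.a i * c.x + c.b i ≤ Yb := by
    refine le_trans ?_ hy2
    have : c.a i * c.x ≤ c.a i * (2 * c.x) := Nat.mul_le_mul_left _ (by omega)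
    omega
  have hm₀ : 1 ≤ c.a i * W := Nat.mul_pos (hc.ha i) hc.hW
  have hprimes : ∀ Q' ∈ 𝒬, ∀ p ∈ Q' ∪ (PQ Q' ∪ c.P₀ W s), p.Prime ∧ p ≤ Yb := by
    intro Q' hQ' p hp
    obtain ⟨hQ1, hQ2, hQ3, hQ4⟩ := hQ Q' hQ'
    rcases mem_union.1 hp with h | h
    · exact ⟨(hQm p (hQ1 h)).1, (hQm p (hQ1 h)).2.1.trans hYbx'⟩
    · rcases mem_union.1 h with h | h
      · exact ⟨(hQm p (hQ3 h)).1, (hQm p (hQ3 h)).2.1.trans hYbx'⟩
      · exact ⟨(hP₀m p h).1, (hP₀m p h).2.1.trans hYbx'⟩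
  have hdisj : ∀ Q' ∈ 𝒬, Disjoint Q' (PQ Q' ∪ c.P₀ W s) := by
    intro Q' hQ'
    obtain ⟨hQ1, hQ2, hQ3, hQ4⟩ := hQ Q' hQ'
    exact Finset.disjoint_union_right.2 ⟨hQ4, hdis0 _ hQ1⟩
  have hw2 := hwt Yb (by omega) _ hy2 (c.a i * W) hm₀ 𝒬 (fun Q' => PQ Q' ∪ c.P₀ W s) hprimes hdisj
  have hw1 := hwt Yb (by omega) _ hy1 (c.a i * W) hm₀ 𝒬 (fun Q' => PQ Q' ∪ c.P₀ W s) hprimes hdisj
  -- comparison of the moduli
  have hpd : ((pd (c.P₀ W s) : ℕ) : ℝ) ≤ (c.x : ℝ) ^ (3 * s / 2) :=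
    q3_pd _ _ (fun p hp => ⟨(hP₀f p hp).1, (hP₀f p hp).2.1⟩) c.x s (by omega) hs.le rfl
  have hmod : ∀ Q' ∈ 𝒬, ∀ T : Finset ℕ,
      ((pd T : ℕ) : ℝ) ≤ pd (c.P₀ W s) * ((c.x : ℝ) ^ ρ) ^ 2 →
      ((c.a i * W * (pd Q' * pd T) : ℕ) : ℝ) ≤ (Yb : ℝ) ^ (1 / 2 - η / 8) := by
    intro Q' hQ' T hT
    have h1 : ((c.x : ℝ) ^ ρ) ^ 2 = (c.x : ℝ) ^ (2 * ρ) := by
      rw [← Real.rpow_natCast, ← Real.rpow_mul hxpos.le]
      congr 1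
      push_cast
      ring
    rw [h1] at hT
    have h2 : ((pd Q' * pd T : ℕ) : ℝ) ≤
        (c.x : ℝ) ^ β * ((c.x : ℝ) ^ (3 * s / 2) * (c.x : ℝ) ^ (2 * ρ)) := by
      push_cast
      refine mul_le_mul (hQ Q' hQ').2.1 (hT.trans ?_) (Nat.cast_nonneg _)
        (Real.rpow_nonneg hxpos.le _)
      exact mul_le_mul_of_nonneg_right hpd (Real.rpow_nonneg hxpos.le _)
    rw [← Real.rpow_add hxpos, ← Real.rpow_add hxpos] at h2
    have h3 : (c.x : ℝ) ^ (β + (3 * s / 2 + 2 * ρ)) ≤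
        (c.x : ℝ) ^ (1 / 2 - η / 8) / (c.x : ℝ) ^ (η / 8) := by
      rw [← Real.rpow_sub hxpos]
      refine Real.rpow_le_rpow_of_exponent_le (by linarith) ?_
      linarith
    have hB : (0 : ℝ) < (2 * A₀ + C : ℝ) := by linarith
    have hBθ : (0 : ℝ) < (2 * A₀ + C : ℝ) ^ (1 / 2 - η / 8) := Real.rpow_pos_of_pos hB _
    have hx34 : (0 : ℝ) < (c.x : ℝ) ^ (η / 8) := Real.rpow_pos_of_pos hxpos _
    have hxθ : (0 : ℝ) < (c.x : ℝ) ^ (1 / 2 - η / 8) := Real.rpow_pos_of_pos hxpos _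
    rw [div_le_iff₀ hBθ] at hx2
    have h4 : ((c.a i * W : ℕ) : ℝ) ≤ A₀ * W := by
      push_cast
      exact mul_le_mul_of_nonneg_right (by exact_mod_cast hc.haA i) (Nat.cast_nonneg _)
    rw [hYbr, Real.mul_rpow hB.le hxpos.le]
    calc ((c.a i * W * (pd Q' * pd T) : ℕ) : ℝ) =
          ((c.a i * W : ℕ) : ℝ) * ((pd Q' * pd T : ℕ) : ℝ) := by push_cast; ring
      _ ≤ (A₀ * W) * ((c.x : ℝ) ^ (1 / 2 - η / 8) / (c.x : ℝ) ^ (η / 8)) :=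
          mul_le_mul h4 (h2.trans h3) (Nat.cast_nonneg _) (by positivity)
      _ ≤ ((c.x : ℝ) ^ (η / 8) * (2 * A₀ + C : ℝ) ^ (1 / 2 - η / 8)) *
          ((c.x : ℝ) ^ (1 / 2 - η / 8) / (c.x : ℝ) ^ (η / 8)) :=
          mul_le_mul_of_nonneg_right hx2 (by positivity)
      _ = (2 * A₀ + C : ℝ) ^ (1 / 2 - η / 8) * (c.x : ℝ) ^ (1 / 2 - η / 8) := by
          field_simp
  have herr : ∑ Q' ∈ 𝒬, la0 ^ 2 * ∑ T ∈ (PQ Q' ∪ c.P₀ W s).powerset.filter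
        (fun T => ((pd T : ℕ) : ℝ) ≤ pd (c.P₀ W s) * ((c.x : ℝ) ^ ρ) ^ 2),
        (3 * K : ℝ) ^ #T * (mx (c.a i * (2 * c.x) + c.b i) (c.a i * W * (pd Q' * pd T)) +
          mx (c.a i * c.x + c.b i) (c.a i * W * (pd Q' * pd T))) ≤
      la0 ^ 2 * (2 * (C₂ * Yb / (Real.log Yb) ^ (A + 2 * K + 1))) := by
    rw [← Finset.mul_sum]
    refine mul_le_mul_of_nonneg_left ?_ (sq_nonneg _)
    have h1 : ∀ Q' ∈ 𝒬, ∑ T ∈ (PQ Q' ∪ c.P₀ W s).powerset.filter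
        (fun T => ((pd T : ℕ) : ℝ) ≤ pd (c.P₀ W s) * ((c.x : ℝ) ^ ρ) ^ 2),
        (3 * K : ℝ) ^ #T * (mx (c.a i * (2 * c.x) + c.b i) (c.a i * W * (pd Q' * pd T)) +
          mx (c.a i * c.x + c.b i) (c.a i * W * (pd Q' * pd T))) ≤
        ∑ T ∈ (PQ Q' ∪ c.P₀ W s).powerset.filter
          (fun T => ((c.a i * W * (pd Q' * pd T) : ℕ) : ℝ) ≤ (Yb : ℝ) ^ (1 / 2 - η / 8)),
        (3 * K : ℝ) ^ #T * (mx (c.a i * (2 * c.x) + c.b i) (c.a i * W * (pd Q' * pd T)) +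
          mx (c.a i * c.x + c.b i) (c.a i * W * (pd Q' * pd T))) := by
      intro Q' hQ'
      refine Finset.sum_le_sum_of_subset_of_nonneg ?_ fun T _ _ =>
        mul_nonneg (by positivity) (add_nonneg (mx_nn _ _) (mx_nn _ _))
      intro T hT
      rw [mem_filter] at hT ⊢
      exact ⟨hT.1, hmod Q' hQ' T hT.2⟩
    refine (Finset.sum_le_sum h1).trans ?_
    simp only [mul_add, Finset.sum_add_distrib]
    push_cast at hw1 hw2 ⊢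
    linarith
  refine herr.trans ?_
  have hlogY : Real.log c.x ≤ Real.log Yb := Real.log_le_log hxpos hYbx
  have herr2 : 2 * (C₂ * Yb / (Real.log Yb) ^ (A + 2 * K + 1)) ≤
      2 * (C₂ * Yb / (Real.log c.x) ^ (A + 2 * K + 1)) := by
    refine mul_le_mul_of_nonneg_left ?_ (by norm_num)
    refine div_le_div_of_nonneg_left (by positivity) (by positivity) ?_
    exact pow_le_pow_left₀ hlog0.le hlogY _
  have hla2 : la0 ^ 2 = Y₀ ^ 2 * (C₁ * Real.log c.x) ^ (2 * K) := by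
    rw [hla0, mul_pow, sq_abs, ← pow_mul, mul_comm K 2]
  refine (mul_le_mul_of_nonneg_left herr2 (sq_nonneg _)).trans ?_
  rw [hla2, hYbr]
  have h5 : Y₀ ^ 2 * (C₁ * Real.log c.x) ^ (2 * K) *
      (2 * (C₂ * ((2 * A₀ + C) * c.x) / (Real.log c.x) ^ (A + 2 * K + 1))) =
      (Y₀ ^ 2 * c.x / (Real.log c.x) ^ A) *
        (C₁ ^ (2 * K) * (2 * C₂ * (2 * A₀ + C)) / Real.log c.x) := by
    rw [mul_pow, pow_add, pow_add, pow_one]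
    field_simp
  rw [h5]
  have h6 : C₁ ^ (2 * K) * (2 * C₂ * (2 * A₀ + C)) / Real.log c.x ≤ 1 := by
    rw [div_le_one hlog0]
    exact hx3
  calc (Y₀ ^ 2 * c.x / (Real.log c.x) ^ A) *
        (C₁ ^ (2 * K) * (2 * C₂ * (2 * A₀ + C)) / Real.log c.x)
      ≤ (Y₀ ^ 2 * c.x / (Real.log c.x) ^ A) * 1 :=
        mul_le_mul_of_nonneg_left h6 (by positivity)
    _ = _ := mul_one _

end Pool.Agent.Work.MP_70e905_nt.M3
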