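import Pool.Agent.Work.MP_70e905_nt.M3.Defs
import Pool.Agent.Work.MP_70e905_nt.M3.MW
import Pool.Agent.Work.MP_70e905_nt.M3.N3
import Pool.Agent.Work.MP_70e905_nt.MT.F0

set_option autoImplicit false

/-!
MODULE WA (the special primes), size S-M.

`mert_win` (MW) with `s = 1/8`, `t = 1/8 + 1/2000`: the sum over ALL primes of the window is `≥ log (1.004) - ε ≥ 0.003992 - ε`; the
primes of the window which are not in `II` divide `W` or are `bd`, their `gg` sum is at most `2 ∑ 1/p ≤ 2 C' lx / (x^(1/8) ...) → 0`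
(`bad_sum` of MT/F0 with `y = x^(1/8)`).
-/

namespace Pool.Agent.Work.MP_70e905_nt.M3

open Finset Pool.Agent.Work.MP_73869e_nt.TH Pool.Agent.Work.MP_70e905_nt.MT

theorem kI_low (K D₀ W A₀ C : ℕ) : ∃ X₀ : ℕ, ∀ c : Cfg K, c.Ok D₀ W A₀ C → X₀ ≤ c.x →
    39 / 10 ^ 4 ≤ ∑ p ∈ II c W, gg p := by
  classical
  obtain ⟨X₁, hX₁⟩ := mert_win (1 / 50000) (1 / 8) (by norm_num) (by norm_num)
  obtain ⟨C', X₂, hX₂⟩ := bad_sum K D₀ W A₀ C
  have ev : ∀ᶠ x : ℕ in Filter.atTop, max 2 (16 * 50000 * (C' : ℝ)) ≤ (x : ℝ) ^ (1 / 8 : ℝ) :=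
    ((tendsto_rpow_atTop (by norm_num : (0 : ℝ) < 1 / 8)).comp
      tendsto_natCast_atTop_atTop).eventually_ge_atTop _
  obtain ⟨X₃, hX₃⟩ := Filter.eventually_atTop.1 ev
  refine ⟨max (max X₁ X₂) (max X₃ 3), fun c hc hx => ?_⟩
  have hx1 : X₁ ≤ c.x := (le_max_left _ _).trans ((le_max_left _ _).trans hx)
  have hx2 : X₂ ≤ c.x := (le_max_right _ _).trans ((le_max_left _ _).trans hx)
  have hx3 := hX₃ c.x ((le_max_left _ _).trans ((le_max_right _ _).trans hx))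
  have hx4 : 3 ≤ c.x := (le_max_right _ _).trans ((le_max_right _ _).trans hx)
  have hxr : (3 : ℝ) ≤ c.x := by exact_mod_cast hx4
  have hx0 : (0 : ℝ) < c.x := by linarith
  have hlog : 0 < Real.log c.x := Real.log_pos (by linarith)
  have hw := hX₁ c.x hx1 (1 / 8) (1 / 8 + 1 / 2000) le_rfl (by norm_num) (by norm_num)
  have hb := hX₂ c hc hx2 ((c.x : ℝ) ^ (1 / 8 : ℝ)) ((le_max_left _ _).trans hx3)
  set S := (Icc 1 ⌊(c.x : ℝ) ^ (1 / 8 + 1 / 2000 : ℝ)⌋₊).filter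
    (fun p : ℕ => p.Prime ∧ (c.x : ℝ) ^ (1 / 8 : ℝ) < (p : ℝ)) with hS
  have hIS : II c W ⊆ S := by
    intro p hp
    unfold II Q Cfg.PZ at hp
    rw [mem_filter, mem_filter] at hp
    rw [hS, mem_filter]
    exact ⟨hp.1.1, hp.1.2.1, hp.2⟩
  set B := ((Icc 1 c.x).filter (fun p => p.Prime ∧ (p ∣ W ∨ bd c.a c.b p))).filter
        (fun p : ℕ => (c.x : ℝ) ^ (1 / 8 : ℝ) < (p : ℝ)) with hB
  have hSB : S \ II c W ⊆ B := by
    intro p hp
    rw [mem_sdiff] at hp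
    obtain ⟨h1, h2⟩ := hp
    rw [hS, mem_filter, mem_Icc] at h1
    rw [hB, mem_filter, mem_filter, mem_Icc]
    have hpx : p ≤ c.x := by
      have h3 : ((⌊(c.x : ℝ) ^ (1 / 8 + 1 / 2000 : ℝ)⌋₊ : ℕ) : ℝ) ≤ c.x := by
        refine (Nat.floor_le (Real.rpow_nonneg hx0.le _)).trans ?_
        calc (c.x : ℝ) ^ (1 / 8 + 1 / 2000 : ℝ) ≤ (c.x : ℝ) ^ (1 : ℝ) :=
              Real.rpow_le_rpow_of_exponent_le (by linarith) (by norm_num)
          _ = c.x := Real.rpow_one _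
      have h4 : ⌊(c.x : ℝ) ^ (1 / 8 + 1 / 2000 : ℝ)⌋₊ ≤ c.x := by exact_mod_cast h3
      exact h1.1.2.trans h4
    refine ⟨⟨⟨h1.1.1, hpx⟩, h1.2.1, ?_⟩, h1.2.2⟩
    by_contra h3
    push Not at h3
    apply h2
    unfold II Q Cfg.PZ
    rw [mem_filter, mem_filter, mem_Icc]
    exact ⟨⟨h1.1, h1.2.1, h3.1, h3.2⟩, h1.2.2⟩
  have hgg : ∀ p ∈ B, 0 ≤ gg p ∧ gg p ≤ 2 * (1 / (p : ℝ)) := by
    intro p hp
    rw [hB, mem_filter, mem_filter] at hp
    have h2 : (2 : ℝ) ≤ p := by exact_mod_cast hp.1.2.1.two_le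
    unfold gg
    constructor
    · apply one_div_nonneg.2
      linarith
    · rw [mul_one_div, div_le_div_iff₀ (by linarith) (by linarith)]
      linarith
  have hsplit : ∑ p ∈ S, gg p = ∑ p ∈ II c W, gg p + ∑ p ∈ S \ II c W, gg p := by
    rw [add_comm]
    exact (Finset.sum_sdiff hIS).symm
  have hbad : ∑ p ∈ S \ II c W, gg p ≤ 1 / 50000 := by
    calc ∑ p ∈ S \ II c W, gg p ≤ ∑ p ∈ B, gg p :=
          Finset.sum_le_sum_of_subset_of_nonneg hSB fun p hp _ => (hgg p hp).1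
      _ ≤ ∑ p ∈ B, 2 * (1 / (p : ℝ)) := Finset.sum_le_sum fun p hp => (hgg p hp).2
      _ = 2 * ∑ p ∈ B, 1 / (p : ℝ) := by rw [Finset.mul_sum]
      _ ≤ 2 * (C' * Real.log c.x / ((c.x : ℝ) ^ (1 / 8 : ℝ) *
            Real.log ((c.x : ℝ) ^ (1 / 8 : ℝ)))) := by linarith
      _ = 16 * C' / (c.x : ℝ) ^ (1 / 8 : ℝ) := by
          rw [Real.log_rpow hx0]
          have h5 : (0 : ℝ) < (c.x : ℝ) ^ (1 / 8 : ℝ) := Real.rpow_pos_of_pos hx0 _
          field_simp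
          ring
      _ ≤ 1 / 50000 := by
          have h5 : (0 : ℝ) < (c.x : ℝ) ^ (1 / 8 : ℝ) := Real.rpow_pos_of_pos hx0 _
          rw [div_le_div_iff₀ h5 (by norm_num)]
          have h6 := (le_max_right _ _).trans hx3
          linarith
  have hl : 1 - (((1 / 8 + 1 / 2000 : ℝ) / (1 / 8)))⁻¹ ≤ Real.log ((1 / 8 + 1 / 2000 : ℝ) / (1 / 8)) :=
    Real.one_sub_inv_le_log_of_pos (by norm_num)
  have h7 := (abs_le.1 hw).1
  norm_num at hl h7 hbad hsplit ⊢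
  linarith

end Pool.Agent.Work.MP_70e905_nt.M3
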