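import Pool.Agent.Work.MP_70e905_nt.M3.Defs
import Pool.Agent.Work.MP_70e905_nt.M3.Q3
import Pool.Agent.Work.MP_70e905_nt.M3.LC
import Pool.Agent.Work.MP_70e905_nt.M3.LD
import Pool.Agent.Work.MP_70e905_nt.M3.LF
import Pool.Agent.Work.MP_70e905_nt.M3.WA
import Pool.Agent.Work.MP_70e905_nt.MT.F0
import Pool.Agent.Work.MP_70e905_nt.MT.F4
import Pool.Agent.Work.MP_70e905_nt.MT.C6
import Pool.Agent.Work.MP_70e905_nt.MT.A6
import Pool.Agent.Work.MP_70e905_nt.MT.C2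

set_option autoImplicit false

/-!
MODULE LG (the lower bound sieve: assembly), size M-L.

`Pz = Q c W (1/8)`, `V = Yh P Pz (yv x r) j Z`, `r = 249/2000`, `G z = ff gg Pz V (om Pz z)`, `I = II c W`.
POINTWISE, for `z ∈ dp c W i`: `1[cop] G² (1 - #{p' ∈ Pz : p' ∣ n_j}) ≤ W2 z * 1[no p' ∈ Pz divides n_j]` (if some `p'` divides, the
left side is `≤ 0`; otherwise `om Pz z` has no label `j` and `G z = FF z` by `ff_Yh`, `Zij` is `0` on sets with label `j`).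
Multiply by `1[p ∣ n_j]` and sum over `p ∈ I` and `z ∈ dp`: the right side of the theorem is at least `TA - TB`,
`TA = ∑_{p ∈ I} ∑_{z ∈ dp, p ∣ n_j} 1[cop] G²`, `TB = ∑_{p ∈ I} ∑_{p' ∈ Pz} ∑_{z ∈ dp, p ∣ n_j, p' ∣ n_j} 1[cop] G²`.
TA: `prime_finQ` (Q3) with `𝒬 = {{p} : p ∈ I}`, `PQ = Pz`, `YQ = V`. TB: `𝒬 = {{p, p'} : p ∈ I, p' ∈ Pz}` (`p > x^(1/8) ≥ p'`), `PQ {p,p'} =
Pz.erase p'`, `YQ = Vd V p' j` (`drop_p`, LD: `G z = ff gg (Pz.erase p') (Vd V p' j) (om ..)` if `p' ∣ n_j`). Parameters: `η = 1/10^4`,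
`ρ = r + δ`, `β = 1/8 + 1/2000 + 1/8`, `β + 2 ρ + η = 0.2505 + 0.249 + 2 δ + 0.0001 ≤ 1/2`; `2 s ≤ δ ≤ η`; supports: `Yh_supp`, `ZZ_supp`
(MT/C2) (for `Vd`: if it is `≠ 0` then one of the `V`'s is `≠ 0`), label `i`: `Yh_zero`, `ZZ_zero`; sizes `≤ (K + 3) 2^K (C₁ lx)²`
(`Yh_bd`, `ZZ_leU`, `U1_up`), exponent `A` large (`K + 20`). Main terms: `N_asy` (MT/F4) with `ε = 10^-6`, `Ta_low`, `Tb_up`:
`TA - TB ≥ X q2 κI (10.7 (1 - 10^-6) - 8.98 (1 + 10^-6)) Um - errors`, `κI = ∑_{p ∈ I} gg p ≥ 39/10^4` (WA), `Um ≥ 1 / lx`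
(`U_ge_one`, `κ ≤ 1`), `q2 ≥ (lx)^(-K-1)` (`q_ge`), `X = x / (φ(W) lx)`: the errors are at most `κI Hm / 1000`.
-/

namespace Pool.Agent.Work.MP_70e905_nt.M3

open Finset Pool.Agent.Work.MP_73869e_nt.TH Pool.Agent.Work.MP_70e905_nt.MT

private theorem lg_gg {p : ℕ} (hp : p.Prime) : 0 ≤ gg p ∧ gg p ≤ 1 := by
  have h2 : (2 : ℝ) ≤ p := by exact_mod_cast hp.two_le
  unfold gg
  constructor
  · exact div_nonneg zero_le_one (by linarith)
  · rw [div_le_one (by linarith)]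
    linarith

private theorem lg_HH {S : Finset ℕ} (hS : ∀ p ∈ S, p.Prime) : 0 ≤ HH S :=
  Finset.prod_nonneg fun p hp => (lg_gg (hS p hp)).1

/-- size of the coefficients -/
private theorem lg_Vd_bd {K : ℕ} (V : Finset (ℕ × Fin K) → ℝ) (M : ℝ) (hM : ∀ A, |V A| ≤ M) (p : ℕ)
    (hp : p.Prime) (j : Fin K) (A : Finset (ℕ × Fin K)) : |Vd V p j A| ≤ (K + 3) * M := by
  have hg := lg_gg hp
  have hM0 : 0 ≤ M := (abs_nonneg _).trans (hM ∅)
  have h1 : |∑ l : Fin K, V (insert (p, l) A)| ≤ K * M := by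
    refine (Finset.abs_sum_le_sum_abs _ _).trans ?_
    refine (Finset.sum_le_sum fun l _ => hM _).trans (le_of_eq ?_)
    rw [Finset.sum_const, card_univ, Fintype.card_fin, nsmul_eq_mul]
  have h2 : |gg p * ∑ l : Fin K, V (insert (p, l) A)| ≤ K * M := by
    rw [abs_mul, abs_of_nonneg hg.1]
    calc gg p * |∑ l : Fin K, V (insert (p, l) A)| ≤ 1 * |∑ l : Fin K, V (insert (p, l) A)| :=
          mul_le_mul_of_nonneg_right hg.2 (abs_nonneg _)
      _ ≤ _ := by rw [one_mul]; exact h1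
  unfold Vd
  calc |V A - V (insert (p, j) A) + gg p * ∑ l : Fin K, V (insert (p, l) A)|
      ≤ |V A - V (insert (p, j) A)| + |gg p * ∑ l : Fin K, V (insert (p, l) A)| := abs_add_le _ _
    _ ≤ (|V A| + |V (insert (p, j) A)|) + |gg p * ∑ l : Fin K, V (insert (p, l) A)| := by
        gcongr
        exact abs_sub _ _
    _ ≤ (M + M) + K * M := by
        gcongr
        · exact hM _
        · exact hM _
    _ ≤ (K + 3) * M := by nlinarith

private theorem lg_Vd_ne {K : ℕ} (V : Finset (ℕ × Fin K) → ℝ) (p : ℕ) (j : Fin K)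
    (A : Finset (ℕ × Fin K)) (h : Vd V p j A ≠ 0) : V A ≠ 0 ∨ ∃ l, V (insert (p, l) A) ≠ 0 := by
  by_contra hcon
  push Not at hcon
  apply h
  unfold Vd
  rw [hcon.1, hcon.2 j, Finset.sum_eq_zero fun l _ => hcon.2 l]
  ring

private theorem lg_pr_insert {K : ℕ} (A : Finset (ℕ × Fin K)) (q : ℕ × Fin K) (hq : 1 ≤ q.1) :
    pr A ≤ pr (insert q A) := by
  by_cases h : q ∈ A
  · rw [insert_eq_of_mem h]
  · unfold pr
    rw [Finset.prod_insert h]
    exact Nat.le_mul_of_pos_left _ hq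

/-- the final estimate -/
private theorem lg_num {X q κI U N TA TB E : ℝ} (hX : 0 ≤ X) (hq : 0 ≤ q) (hκ : 0 ≤ κI)
    (hU : 0 ≤ U) (hN1 : (1 - 1 / 10 ^ 6) * X ≤ N) (hN2 : N ≤ (1 + 1 / 10 ^ 6) * X) {EA EB : ℝ}
    (hEA : 107 / 10 * U ≤ EA) (hEB : EB ≤ 898 / 100 * U)
    (hTA : N * q * κI * EA - E ≤ TA) (hTB : TB ≤ N * q * κI * EB + E)
    (hE : E ≤ 1 / 1000 * (κI * (X * q * U))) :
    17 / 10 * κI * (X * q * U) ≤ TA - TB := by
  have hN0 : 0 ≤ N := by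
    refine le_trans (mul_nonneg ?_ hX) hN1
    norm_num
  have hY : 0 ≤ N * q * κI := by positivity
  have h1 : N * q * κI * (107 / 10 * U) ≤ N * q * κI * EA := mul_le_mul_of_nonneg_left hEA hY
  have h2 : N * q * κI * EB ≤ N * q * κI * (898 / 100 * U) := mul_le_mul_of_nonneg_left hEB hY
  have hZ : 0 ≤ κI * (q * U) := by positivity
  have h3 : (1 - 1 / 10 ^ 6) * X * (κI * (q * U)) ≤ N * (κI * (q * U)) :=
    mul_le_mul_of_nonneg_right hN1 hZ
  have h4 : N * (κI * (q * U)) ≤ (1 + 1 / 10 ^ 6) * X * (κI * (q * U)) :=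
    mul_le_mul_of_nonneg_right hN2 hZ
  have h5 : 0 ≤ κI * (X * q * U) := by positivity
  nlinarith

theorem low_all (K L D₀ : ℕ) (s δ t₀ e : ℝ) (hpar : Par K L D₀ s δ t₀ e) (he6 : e ≤ 1 / 10 ^ 6)
    (hLD : ∀ t : ℝ, t < 1 / 2 → LD t) (hPNT : PNT) (W A₀ C : ℕ) : ∃ X₀ : ℕ,
    ∀ c : Cfg K, c.Ok D₀ W A₀ C → X₀ ≤ c.x → Conc c W L δ t₀ e → ∀ i j : Fin K, i ≠ j →
      17 / 10 * (∑ p ∈ II c W, gg p) * Hm c W L s δ t₀ ≤
        ∑ z ∈ (dp c W i).filter (fun z => ∀ p ∈ Q c W (1 / 8), ¬ p ∣ c.a j * z + c.b j),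
          W2 c W L s δ t₀ i j z *
            #((II c W).filter (fun p => p ∣ c.a j * z + c.b j)) := by
  classical
  obtain ⟨C₁, hC₁, hU1up⟩ := U1_up
  have hδ : 0 < δ := hpar.hδ
  have hδ6 : δ ≤ 1 / 10 ^ 6 := hpar.hδe.trans he6
  have hδ6' : δ ≤ 1 / 1000000 := by
    refine hδ6.trans (le_of_eq ?_)
    norm_num
  have hK2 : 2 ≤ K := hpar.hK
  have hK : (2 : ℝ) ≤ K := by exact_mod_cast hK2
  have he : 0 < e := hpar.he
  have hDe : 16 * (K : ℝ) ^ 2 ≤ D₀ := by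
    have h1 := hpar.hD
    have h2 : e * (D₀ : ℝ) ≤ 1 * D₀ := by
      refine mul_le_mul_of_nonneg_right ?_ (Nat.cast_nonneg _)
      refine he6.trans ?_
      norm_num
    linarith
  have hKD : K < D₀ := by
    have : (K : ℝ) < D₀ := by nlinarith
    exact_mod_cast this
  obtain ⟨X₁, hX₁⟩ := prime_finQ K hLD s (1 / 10 ^ 4) (1 / 4 + 1 / 2000) (249 / 2000 + δ) hpar.hs
    (by norm_num) (by
      have := hpar.hsδ
      norm_num
      linarith) (by norm_num) (by linarith) (by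
      norm_num
      linarith) (K + 8) W A₀ C D₀
  obtain ⟨X₂, hX₂⟩ := N_asy K hPNT (1 / 10 ^ 6) (by norm_num) D₀ W A₀ C
  obtain ⟨X₃, hX₃⟩ := Ta_low K L D₀ s δ t₀ e hpar he6 W A₀ C
  obtain ⟨X₄, hX₄⟩ := Tb_up K L D₀ s δ t₀ e hpar he6 W A₀ C
  obtain ⟨X₅, hX₅⟩ := kI_low K D₀ W A₀ C
  obtain ⟨X₆, hX₆⟩ := q_ge K s hpar.hs
  set M : ℝ := 10 ^ 6 * ((K + 3) ^ 2 * (2 ^ K * C₁ ^ 2) ^ 2 * Nat.totient W) with hM
  have hM0 : 0 ≤ M := by positivity
  refine ⟨max (max (max X₁ X₂) (max X₃ X₄)) (max (max X₅ X₆) (⌈Real.exp (M + 1)⌉₊ + 2)),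
    fun c hc hx hconc i j hij => ?_⟩
  simp only [max_le_iff] at hx
  obtain ⟨⟨⟨hx1, hx2⟩, hx3, hx4⟩, ⟨hx5, hx6⟩, hx7⟩ := hx
  have hxx2 : 2 ≤ c.x := by omega
  have hxx1 : 1 ≤ c.x := by omega
  have hx1' : (1 : ℝ) ≤ c.x := by exact_mod_cast hxx1
  have hxpos : (0 : ℝ) < c.x := by linarith
  have hlx : M + 1 ≤ Real.log c.x := by
    rw [Real.le_log_iff_exp_le (by linarith)]
    have h1 : Real.exp (M + 1) ≤ (⌈Real.exp (M + 1)⌉₊ : ℝ) := Nat.le_ceil _
    have h2 : ((⌈Real.exp (M + 1)⌉₊ : ℕ) : ℝ) ≤ c.x := by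
      exact_mod_cast (by omega : ⌈Real.exp (M + 1)⌉₊ ≤ c.x)
    exact h1.trans h2
  have hlx1 : 1 ≤ Real.log c.x := by linarith
  have hlx0 : 0 < Real.log c.x := by linarith
  set Pz := Q c W (1 / 8) with hPz
  set P := c.P W δ with hP
  set I := II c W with hI
  have hPQ : P = Q c W δ := rfl
  have hmono : ∀ u v : ℝ, u ≤ v → Q c W u ⊆ Q c W v := by
    intro u v huv p hp
    rw [Q_mem c D₀ W A₀ C u hc hxx1] at hp
    rw [Q_mem c D₀ W A₀ C v hc hxx1]
    exact ⟨hp.1.trans (Real.rpow_le_rpow_of_exponent_le hx1' huv), hp.2⟩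
  have hPPz : P ⊆ Pz := hmono δ (1 / 8) (by linarith)
  have hPz1 : Pz ⊆ Q c W 1 := hmono (1 / 8) 1 (by norm_num)
  have hPzm : ∀ p ∈ Pz, p.Prime ∧ (p : ℝ) ≤ (c.x : ℝ) ^ (1 / 8 : ℝ) ∧ ¬ bd c.a c.b p := by
    intro p hp
    rw [hPz, Q_mem c D₀ W A₀ C (1 / 8) hc hxx1] at hp
    exact ⟨hp.2.1, hp.1, hp.2.2.2⟩
  have hPzp : ∀ p ∈ Pz, p.Prime := fun p hp => (hPzm p hp).1
  have hPp : ∀ p ∈ P, p.Prime := fun p hp => hPzp p (hPPz hp)
  have hIm : ∀ p ∈ I, p.Prime ∧ (p : ℝ) ≤ (c.x : ℝ) ^ (1 / 8 + 1 / 2000 : ℝ) ∧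
      (c.x : ℝ) ^ (1 / 8 : ℝ) < (p : ℝ) ∧ p ∈ Q c W 1 := by
    intro p hp
    rw [hI] at hp
    unfold II at hp
    rw [mem_filter] at hp
    have h1 := (Q_mem c D₀ W A₀ C (1 / 8 + 1 / 2000) hc hxx1 p).1 hp.1
    exact ⟨h1.2.1, h1.1, hp.2, hmono _ 1 (by norm_num) hp.1⟩
  have hINz : ∀ p ∈ I, ∀ q ∈ Pz, p ≠ q := by
    rintro p hp q hq rfl
    exact absurd (hPzm p hq).2.1 (not_le.2 (hIm p hp).2.2.1)
  have hpx : ∀ p ∈ Pz, p.Prime ∧ p ≤ c.x := by
    intro p hp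
    refine ⟨hPzp p hp, ?_⟩
    have h1 : (c.x : ℝ) ^ (1 / 8 : ℝ) ≤ (c.x : ℝ) ^ (1 : ℝ) :=
      Real.rpow_le_rpow_of_exponent_le hx1' (by norm_num)
    rw [Real.rpow_one] at h1
    exact_mod_cast (hPzm p hp).2.1.trans h1
  -- the coefficients
  set Z := Zij c W L δ t₀ i j with hZ
  have hZdef : ∀ A, Z A = Zj gg P j (Zj gg P i (YY c.x L t₀ δ)) A := fun _ => rfl
  set h := yv c.x (249 / 2000) with hh
  have hr0 : (0 : ℝ) < 249 / 2000 := by norm_num
  set V := Yh P Pz h j Z with hV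
  set M₁ : ℝ := 2 ^ K * (C₁ * Real.log c.x) ^ 2 with hM₁
  have hM₁0 : 0 ≤ M₁ := by positivity
  have hZbd : ∀ A, |Z A| ≤ M₁ := by
    intro A
    by_cases hl : ∃ q ∈ A, q.2 = i ∨ q.2 = j
    · rw [hZdef, ZZ_zero P i j _ A hl, abs_zero]
      exact hM₁0
    · have hl' : ∀ q ∈ A, q.2 ≠ i ∧ q.2 ≠ j := fun q hq =>
        ⟨fun hh => hl ⟨q, hq, Or.inl hh⟩, fun hh => hl ⟨q, hq, Or.inr hh⟩⟩
      have h1 := ZZ_leU c.x L P t₀ δ i j hij hPp A hl'
      rw [hZdef, abs_of_nonneg h1.1]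
      refine h1.2.trans ?_
      have hU : 0 ≤ U1 P c.x L t₀ := by
        unfold U1
        refine Finset.sum_nonneg fun S hS => ?_
        exact mul_nonneg (lg_HH fun p hp => hPp p (mem_powerset.1 hS hp)) (yy_bd _ L t₀ _).1
      refine mul_le_mul ?_ (pow_le_pow_left₀ hU (hU1up c.x hxx2 P
        (fun p hp => hpx p (hPPz hp)) L t₀) 2) (sq_nonneg _) (by positivity)
      calc ∏ l ∈ (univ.erase i).erase j, yy c.x L t₀ (pd (lb l A))
          ≤ ∏ l ∈ ((univ.erase i).erase j : Finset (Fin K)), (2 : ℝ) :=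
            Finset.prod_le_prod (fun l _ => (yy_bd _ L t₀ _).1) fun l _ => (yy_bd _ L t₀ _).2
        _ = 2 ^ #((univ.erase i).erase j : Finset (Fin K)) := by rw [Finset.prod_const]
        _ ≤ 2 ^ K := by
          refine pow_le_pow_right₀ (by norm_num) ?_
          refine (card_le_univ _).trans ?_
          rw [Fintype.card_fin]
  have hVbd : ∀ A, |V A| ≤ M₁ := Yh_bd P Pz hPzp h (yv_bd c.x hxx2 _ hr0) (yv_one c.x _) j Z M₁ hZbd
  have hVsupp : ∀ A, V A ≠ 0 → (pr A : ℝ) ≤ (c.x : ℝ) ^ (249 / 2000 + δ) := by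
    intro A hA
    have h1 := Yh_supp P Pz h ((c.x : ℝ) ^ (249 / 2000 : ℝ)) ((c.x : ℝ) ^ δ) (by positivity)
      (by positivity) j Z (fun A hA => ZZ_supp c.x L P t₀ δ i j hPp A hA)
      (fun n hn => yv_supp c.x hxx2 _ hr0 n hn) A hA
    refine h1.trans (le_of_eq ?_)
    rw [← Real.rpow_add hxpos, add_comm]
  have hVi : ∀ A, (∃ q ∈ A, q.2 = i) → V A = 0 := by
    intro A hA
    refine Yh_zero P Pz h i j hij Z (fun B hB => ?_) A hA
    obtain ⟨q, hq, hqi⟩ := hB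
    rw [hZdef]
    exact ZZ_zero P i j _ B ⟨q, hq, Or.inl hqi⟩
  -- the weights
  set B : ℕ → ℝ := fun z => (if cop (c.P₀ W s) c.a c.b z then (1 : ℝ) else 0) *
    (ff gg Pz V (om Pz c.a c.b z)) ^ 2 with hB
  have hB0 : ∀ z, 0 ≤ B z := by
    intro z
    simp only [hB]
    refine mul_nonneg ?_ (sq_nonneg _)
    split_ifs
    · exact zero_le_one
    · exact le_rfl
  have hpoint : ∀ z, B z * (1 - ∑ p ∈ Pz, (if p ∣ c.a j * z + c.b j then (1 : ℝ) else 0)) ≤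
      if (∀ p ∈ Pz, ¬ p ∣ c.a j * z + c.b j) then W2 c W L s δ t₀ i j z else 0 := by
    intro z
    split_ifs with hz
    · have h1 : ∑ p ∈ Pz, (if p ∣ c.a j * z + c.b j then (1 : ℝ) else 0) = 0 :=
        Finset.sum_eq_zero fun p hp => if_neg (hz p hp)
      rw [h1, sub_zero, mul_one]
      refine le_of_eq ?_
      have h2 : ff gg Pz V (om Pz c.a c.b z) = FF c W L δ t₀ i j z := by
        unfold FF
        refine ff_Yh P Pz hPPz hPzp h (fun n => (yv_bd c.x hxx2 _ hr0 n).1) (yv_one c.x _) j Z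
          (fun A hA => ?_) c.a c.b z (fun q hq hqj => ?_)
        · obtain ⟨q, hq, hqj⟩ := hA
          rw [hZdef]
          exact ZZ_zero P i j _ A ⟨q, hq, Or.inr hqj⟩
        · have h3 := (mem_om Pz c.a c.b z q).1 hq
          rw [hqj] at h3
          exact hz q.1 h3.1 h3.2
      simp only [hB]
      unfold W2
      rw [h2]
      split_ifs
      · rw [one_mul]
      · rw [zero_mul]
    · push Not at hz
      obtain ⟨p, hp, hpd⟩ := hz
      have h1 : (1 : ℝ) ≤ ∑ p ∈ Pz, (if p ∣ c.a j * z + c.b j then (1 : ℝ) else 0) := by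
        calc (1 : ℝ) = (if p ∣ c.a j * z + c.b j then (1 : ℝ) else 0) := by rw [if_pos hpd]
          _ ≤ _ := Finset.single_le_sum
            (f := fun p => (if p ∣ c.a j * z + c.b j then (1 : ℝ) else 0))
            (fun q _ => by
              split_ifs
              · exact zero_le_one
              · exact le_rfl) hp
      exact mul_nonpos_of_nonneg_of_nonpos (hB0 z) (by linarith)
  set T : Finset ℕ → ℝ := fun Q' => ∑ z ∈ (dp c W i).filter (fun z => ∀ q ∈ Q', q ∣ c.a j * z + c.b j),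
    B z with hT
  have hT1 : ∀ p, T {p} = ∑ z ∈ dp c W i, B z * (if p ∣ c.a j * z + c.b j then (1 : ℝ) else 0) := by
    intro p
    simp only [hT, mem_singleton, forall_eq, mul_ite, mul_one, mul_zero]
    rw [Finset.sum_filter]
  have hT2 : ∀ p p', T {p, p'} = ∑ z ∈ dp c W i, B z *
      ((if p ∣ c.a j * z + c.b j then (1 : ℝ) else 0) *
        (if p' ∣ c.a j * z + c.b j then (1 : ℝ) else 0)) := by
    intro p p'
    simp only [hT, mem_insert, mem_singleton, forall_eq_or_imp, forall_eq]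
    rw [Finset.sum_filter]
    refine Finset.sum_congr rfl fun z _ => ?_
    by_cases h1 : p ∣ c.a j * z + c.b j
    · by_cases h2 : p' ∣ c.a j * z + c.b j
      · rw [if_pos ⟨h1, h2⟩, if_pos h1, if_pos h2]
        ring
      · rw [if_neg (fun hh => h2 hh.2), if_neg h2]
        ring
    · rw [if_neg (fun hh => h1 hh.1), if_neg h1]
      ring
  have hlow : (∑ p ∈ I, T {p}) - ∑ p ∈ I, ∑ p' ∈ Pz, T {p, p'} ≤
      ∑ z ∈ (dp c W i).filter (fun z => ∀ p ∈ Pz, ¬ p ∣ c.a j * z + c.b j),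
          W2 c W L s δ t₀ i j z * #(I.filter (fun p => p ∣ c.a j * z + c.b j)) := by
    have e1 : (∑ p ∈ I, T {p}) - ∑ p ∈ I, ∑ p' ∈ Pz, T {p, p'} =
        ∑ z ∈ dp c W i, (B z * (1 - ∑ p' ∈ Pz, (if p' ∣ c.a j * z + c.b j then (1 : ℝ) else 0))) *
          ∑ p ∈ I, (if p ∣ c.a j * z + c.b j then (1 : ℝ) else 0) := by
      simp only [hT1, hT2]
      have e2 : ∑ p ∈ I, ∑ p' ∈ Pz, ∑ z ∈ dp c W i, B z *
          ((if p ∣ c.a j * z + c.b j then (1 : ℝ) else 0) *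
            (if p' ∣ c.a j * z + c.b j then (1 : ℝ) else 0)) =
          ∑ z ∈ dp c W i, ∑ p ∈ I, ∑ p' ∈ Pz, B z *
          ((if p ∣ c.a j * z + c.b j then (1 : ℝ) else 0) *
            (if p' ∣ c.a j * z + c.b j then (1 : ℝ) else 0)) := by
        rw [Finset.sum_comm' (s := dp c W i) (t := fun _ => I) (t' := I) (s' := fun _ => dp c W i)
          (by intro x y; tauto)]
        exact Finset.sum_congr rfl fun p _ => Finset.sum_comm
      rw [e2, Finset.sum_comm, ← Finset.sum_sub_distrib]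
      refine Finset.sum_congr rfl fun z _ => ?_
      rw [← Finset.mul_sum]
      have e3 : ∑ p ∈ I, ∑ p' ∈ Pz, B z *
          ((if p ∣ c.a j * z + c.b j then (1 : ℝ) else 0) *
            (if p' ∣ c.a j * z + c.b j then (1 : ℝ) else 0)) =
          B z * ((∑ p ∈ I, (if p ∣ c.a j * z + c.b j then (1 : ℝ) else 0)) *
            ∑ p' ∈ Pz, (if p' ∣ c.a j * z + c.b j then (1 : ℝ) else 0)) := by
        rw [Finset.sum_mul_sum, Finset.mul_sum]
        exact Finset.sum_congr rfl fun p _ => by rw [Finset.mul_sum]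
      rw [e3]
      ring
    rw [e1, Finset.sum_filter]
    refine Finset.sum_le_sum fun z _ => ?_
    have e3 : ((#(I.filter (fun p => p ∣ c.a j * z + c.b j)) : ℕ) : ℝ) =
        ∑ p ∈ I, (if p ∣ c.a j * z + c.b j then (1 : ℝ) else 0) := by
      rw [Finset.card_filter]
      push_cast
      rfl
    have e4 : 0 ≤ ∑ p ∈ I, (if p ∣ c.a j * z + c.b j then (1 : ℝ) else 0) := by
      rw [← e3]
      exact Nat.cast_nonneg _
    rw [e3]
    have e5 := mul_le_mul_of_nonneg_right (hpoint z) e4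
    refine e5.trans (le_of_eq ?_)
    rw [ite_mul, zero_mul]
  refine le_trans ?_ hlow
  -- the first sum
  set EA : ℝ := Ex gg Pz (fun ω => (ff gg Pz V ω) ^ 2) with hEA
  set Nφ : ℝ := c.N i / Nat.totient (c.a i * W) with hNφ
  set q₂ : ℝ := c.q2 W s with hq₂
  set κI : ℝ := ∑ p ∈ I, gg p with hκI
  set Er : ℝ := ((K + 3) * M₁) ^ 2 * c.x / Real.log c.x ^ (K + 8) with hEr
  have hK3 : M₁ ≤ (K + 3) * M₁ := by
    have : 0 ≤ ((K : ℝ) + 2) * M₁ := by positivity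
    linarith
  have hTA : Nφ * q₂ * κI * EA - Er ≤ ∑ p ∈ I, T {p} := by
    have h1 := hX₁ c hc hx1 i j hij (I.image (fun p => {p})) (fun _ => Pz) (fun _ => V)
      ((K + 3) * M₁)
      (by
        intro Q' hQ'
        obtain ⟨p, hp, rfl⟩ := mem_image.1 hQ'
        have hp' := hIm p hp
        refine ⟨singleton_subset_iff.2 hp'.2.2.2, ?_, hPz1, ?_⟩
        · unfold pd
          rw [prod_singleton]
          exact hp'.2.1.trans (Real.rpow_le_rpow_of_exponent_le hx1' (by norm_num))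
        · rw [disjoint_singleton_left]
          exact fun hh => hINz p hp p hh rfl)
      (fun _ _ A => (hVbd A).trans hK3) (fun _ _ A hA => hVsupp A hA)
      (fun _ _ A _ hA => hVi A hA)
    rw [Finset.sum_image (fun p _ q _ hpq => singleton_injective hpq)] at h1
    have h2 : ∑ p ∈ I, |T {p} - Nφ * q₂ * HH {p} * EA| ≤ Er := h1
    have h3 : ∑ p ∈ I, Nφ * q₂ * HH {p} * EA = Nφ * q₂ * κI * EA := by
      rw [hκI, Finset.mul_sum, Finset.sum_mul]
      refine Finset.sum_congr rfl fun p _ => ?_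
      unfold HH
      rw [prod_singleton]
    have h4 : |∑ p ∈ I, (T {p} - Nφ * q₂ * HH {p} * EA)| ≤ Er :=
      (Finset.abs_sum_le_sum_abs _ _).trans h2
    rw [Finset.sum_sub_distrib, h3] at h4
    have h5 := (abs_le.1 h4).1
    linarith
  set EB : ℝ := ∑ p ∈ Pz, gg p * Ex gg (Pz.erase p) (fun ω => (ff gg (Pz.erase p)
    (Vd V p j) ω) ^ 2) with hEB
  have hTB : ∑ p ∈ I, ∑ p' ∈ Pz, T {p, p'} ≤ Nφ * q₂ * κI * EB + Er := by
    have hsel : ∀ p ∈ I, ∀ p' ∈ Pz, ∑ q ∈ ({p, p'} : Finset ℕ) ∩ Pz, q = p' := by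
      intro p hp p' hp'
      have h1 : ({p, p'} : Finset ℕ) ∩ Pz = {p'} := by
        ext q
        rw [mem_inter, mem_insert, mem_singleton]
        constructor
        · rintro ⟨h2 | h2, h3⟩
          · exact absurd h2.symm (hINz p hp q h3)
          · exact h2
        · rintro rfl
          exact ⟨Or.inr rfl, hp'⟩
      rw [h1, sum_singleton]
    have hinj : Set.InjOn (fun q : ℕ × ℕ => ({q.1, q.2} : Finset ℕ)) (I ×ˢ Pz : Finset (ℕ × ℕ)) := by
      rintro ⟨p, p'⟩ hp ⟨q, q'⟩ hq hpq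
      rw [mem_coe, mem_product] at hp hq
      simp only at hp hq hpq
      have h1 := hsel p hp.1 p' hp.2
      have h2 := hsel q hq.1 q' hq.2
      rw [hpq, h2] at h1
      have h3 : p ∈ ({q, q'} : Finset ℕ) := by
        rw [← hpq]
        exact mem_insert_self _ _
      rw [mem_insert, mem_singleton] at h3
      rcases h3 with h3 | h3
      · rw [h3, h1]
      · exact absurd h3 (hINz p hp.1 q' hq.2)
    have h1 := hX₁ c hc hx1 i j hij ((I ×ˢ Pz).image (fun q => {q.1, q.2}))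
      (fun Q' => Pz.erase (∑ q ∈ Q' ∩ Pz, q)) (fun Q' => Vd V (∑ q ∈ Q' ∩ Pz, q) j)
      ((K + 3) * M₁)
      (by
        intro Q' hQ'
        obtain ⟨⟨p, p'⟩, hp, rfl⟩ := mem_image.1 hQ'
        rw [mem_product] at hp
        simp only at hp ⊢
        have hpp := hIm p hp.1
        have hpp' := hPzm p' hp.2
        have hne := hINz p hp.1 p' hp.2
        rw [hsel p hp.1 p' hp.2]
        refine ⟨?_, ?_, (erase_subset _ _).trans hPz1, ?_⟩
        · rw [insert_subset_iff, singleton_subset_iff]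
          exact ⟨hpp.2.2.2, hPz1 hp.2⟩
        · unfold pd
          rw [prod_pair hne]
          push_cast
          calc (p : ℝ) * p' ≤ (c.x : ℝ) ^ (1 / 8 + 1 / 2000 : ℝ) * (c.x : ℝ) ^ (1 / 8 : ℝ) :=
                mul_le_mul hpp.2.1 hpp'.2.1 (Nat.cast_nonneg _) (by positivity)
            _ = (c.x : ℝ) ^ (1 / 4 + 1 / 2000 : ℝ) := by
              rw [← Real.rpow_add hxpos]
              norm_num
        · rw [disjoint_left]
          intro q hq hq'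
          rw [mem_insert, mem_singleton] at hq
          rcases hq with rfl | rfl
          · exact hINz q hp.1 q (mem_of_mem_erase hq') rfl
          · exact (ne_of_mem_erase hq') rfl)
      (by
        intro Q' hQ' A
        obtain ⟨⟨p, p'⟩, hp, rfl⟩ := mem_image.1 hQ'
        rw [mem_product] at hp
        simp only at hp ⊢
        rw [hsel p hp.1 p' hp.2]
        exact lg_Vd_bd V M₁ hVbd p' (hPzp p' hp.2) j A)
      (by
        intro Q' hQ' A hA
        obtain ⟨⟨p, p'⟩, hp, rfl⟩ := mem_image.1 hQ'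
        rw [mem_product] at hp
        simp only at hp hA
        rw [hsel p hp.1 p' hp.2] at hA
        rcases lg_Vd_ne V p' j A hA with h2 | ⟨l, h2⟩
        · exact hVsupp A h2
        · refine le_trans ?_ (hVsupp _ h2)
          exact_mod_cast lg_pr_insert A (p', l) (hPzp p' hp.2).one_lt.le)
      (by
        intro Q' hQ' A _ hA
        obtain ⟨⟨p, p'⟩, hp, rfl⟩ := mem_image.1 hQ'
        by_contra hcon
        rcases lg_Vd_ne V _ j A hcon with h2 | ⟨l, h2⟩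
        · exact h2 (hVi A hA)
        · obtain ⟨q, hq, hqi⟩ := hA
          exact h2 (hVi _ ⟨q, mem_insert_of_mem hq, hqi⟩))
    rw [Finset.sum_image hinj] at h1
    have h2 : ∑ q ∈ I ×ˢ Pz, |T {q.1, q.2} - Nφ * q₂ * (gg q.1 * gg q.2) *
        Ex gg (Pz.erase q.2) (fun ω => (ff gg (Pz.erase q.2) (Vd V q.2 j) ω) ^ 2)| ≤ Er := by
      refine le_trans (le_of_eq ?_) h1
      refine Finset.sum_congr rfl fun q hq => ?_
      obtain ⟨p, p'⟩ := q
      rw [mem_product] at hq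
      simp only at hq ⊢
      rw [hsel p hq.1 p' hq.2]
      have e1 : HH {p, p'} = gg p * gg p' := by
        unfold HH
        rw [prod_pair (hINz p hq.1 p' hq.2)]
      rw [e1]
      congr 2
      refine Finset.sum_congr rfl fun z hz => ?_
      rw [mem_filter] at hz
      have e2 : p' ∣ c.a j * z + c.b j := hz.2 p' (by simp)
      simp only [hB]
      rw [drop_p Pz p' hq.2 j V c.a c.b (fun q hq => (hPzm q hq).2.2) z e2]
    have h4 := (Finset.abs_sum_le_sum_abs _ _).trans h2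
    rw [Finset.sum_sub_distrib, Finset.sum_product, Finset.sum_product] at h4
    simp only at h4
    have h3 : ∑ p ∈ I, ∑ p' ∈ Pz, Nφ * q₂ * (gg p * gg p') *
        Ex gg (Pz.erase p') (fun ω => (ff gg (Pz.erase p') (Vd V p' j) ω) ^ 2) =
        Nφ * q₂ * κI * EB := by
      rw [hκI, hEB, mul_assoc, Finset.sum_mul_sum, Finset.mul_sum]
      refine Finset.sum_congr rfl fun p _ => ?_
      rw [Finset.mul_sum]
      exact Finset.sum_congr rfl fun p' _ => by ring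
    rw [h3] at h4
    have h5 := (abs_le.1 h4).2
    linarith
  -- the sizes
  have hUge := U_ge_one P hPp c.x L t₀ hxx1 hpar.hL hpar.ht₀.le
  obtain ⟨k1, k2⟩ := kappa_01 c W
  have hUm1 : 1 / Real.log c.x ≤ Um c W L δ t₀ := by
    unfold Um
    rw [div_le_div_iff₀ hlx0 (by positivity)]
    have e1 : (1 : ℝ) ≤ U1 (c.P W δ) c.x L t₀ ^ 4 * U2 (c.P W δ) c.x L t₀ ^ (K - 2) := by
      have e2 := one_le_pow₀ hUge.1 (n := 4)
      have e3 := one_le_pow₀ hUge.2 (n := K - 2)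
      nlinarith
    have e4 : c.κ W * Real.log c.x ≤ 1 * Real.log c.x := mul_le_mul_of_nonneg_right k2 hlx0.le
    nlinarith
  have hUm0 : 0 ≤ Um c W L δ t₀ := le_trans (by positivity) hUm1
  have hq := hX₆ c D₀ W A₀ C hc hKD hx6
  have hq2 : 1 / Real.log c.x ^ (K + 1) ≤ q₂ := hq.1.trans hq.2
  have hq0 : 0 ≤ q₂ := le_trans (by positivity) hq2
  have hφ : (0 : ℝ) < Nat.totient W := by exact_mod_cast Nat.totient_pos.2 hc.hW
  have hX0 : 0 ≤ c.X W := by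
    unfold Cfg.X
    positivity
  have hκI := hX₅ c hc hx5
  have hκI0 : 0 ≤ κI := le_trans (by norm_num) hκI
  have hN := hX₂ c hc hx2 i
  unfold Hm
  refine lg_num hX0 hq0 hκI0 hUm0 hN.1 hN.2 (hX₃ c hc hx3 hconc i j hij)
    (hX₄ c hc hx4 i j hij) hTA hTB ?_
  have hlow1 : 39 / 10 ^ 4 * (c.X W * (1 / Real.log c.x ^ (K + 1)) * (1 / Real.log c.x)) ≤
      κI * (c.X W * q₂ * Um c W L δ t₀) := by
    gcongr
  refine le_trans ?_ (mul_le_mul_of_nonneg_left hlow1 (by norm_num : (0 : ℝ) ≤ 1 / 1000))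
  unfold Cfg.X
  have e1 : 1 / 1000 * (39 / 10 ^ 4 * ((c.x : ℝ) / (Nat.totient W * Real.log c.x) *
      (1 / Real.log c.x ^ (K + 1)) * (1 / Real.log c.x))) =
      (39 / 10 ^ 7 * (c.x : ℝ) / Nat.totient W) * Real.log c.x ^ 5 / Real.log c.x ^ (K + 8) := by
    field_simp
    ring
  rw [e1, hEr]
  refine div_le_div_of_nonneg_right ?_ (by positivity)
  have e2 : ((K + 3) * M₁) ^ 2 * (c.x : ℝ) =
      ((K + 3) ^ 2 * (2 ^ K * C₁ ^ 2) ^ 2 * Nat.totient W) * (c.x / Nat.totient W) *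
        Real.log c.x ^ 4 := by
    rw [hM₁]
    field_simp
  rw [e2]
  have e3 : (K + 3) ^ 2 * (2 ^ K * C₁ ^ 2) ^ 2 * Nat.totient W ≤ 39 / 10 ^ 7 * Real.log c.x := by
    have e4 : (10 : ℝ) ^ 6 * ((K + 3) ^ 2 * (2 ^ K * C₁ ^ 2) ^ 2 * Nat.totient W) ≤
        Real.log c.x := by
      rw [← hM]
      linarith
    norm_num at e4 ⊢
    linarith
  calc ((K + 3) ^ 2 * (2 ^ K * C₁ ^ 2) ^ 2 * Nat.totient W) * (c.x / Nat.totient W) *
        Real.log c.x ^ 4
      ≤ (39 / 10 ^ 7 * Real.log c.x) * (c.x / Nat.totient W) * Real.log c.x ^ 4 := by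
        gcongr
    _ = _ := by ring

end Pool.Agent.Work.MP_70e905_nt.M3
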