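import Pool.Agent.Work.MP_70e905_nt.M3.Defs
import Pool.Agent.Work.MP_73869e_nt.TH.T04
import Pool.Agent.Work.MP_73869e_nt.TH.T01
import Pool.Agent.Work.MP_70e905_nt.MT.A5

set_option autoImplicit false

/-!
MODULE ZA (two bounds for coefficients), size S-M.

la_cnt: `|la B| ≤ Y₀ exp (K S)` (`la_le` of TH/T04) and `la B ≠ 0 → pr B ≤ R` (`la_supp`), so the sum is at most
`Y₀ exp (K S) ∑_B R / pr B = Y₀ exp (K S) R ∏_{p ∈ P} (1 + K / p)` (`sum_LS_prod` of TH/T01).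
cv_bd2: `cv P Y A = ∑_{C ∈ LS K P, A ⊆ C} Y C ∏_{c ∈ C \ A} (gg - go)`, so `|cv| ≤ M A ∑_C ∏_{c ∈ C \ A} 4 (gg - go)`; `C \ A ∈ LS K P`
and `C ↦ C \ A` is injective: at most `M A ∏_{p ∈ P} (1 + 4 K (gg p - go p)) ≤ M A exp (4 K τ)`. (As `cv_bd` of MT/A5.)
-/

namespace Pool.Agent.Work.MP_70e905_nt.M3

open Finset Pool.Agent.Work.MP_73869e_nt.TH Pool.Agent.Work.MP_70e905_nt.MT

theorem la_cnt {K : ℕ} (γ : ℕ → ℝ) (P : Finset ℕ) (hP : ∀ p ∈ P, 1 ≤ p) (hγ : ∀ p ∈ P, 0 ≤ γ p)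
    (S S' R : ℝ) (hR : 0 ≤ R) (hS : ∑ p ∈ P, γ p ≤ S) (hS' : ∑ p ∈ P, 1 / (p : ℝ) ≤ S')
    (Y : Finset (ℕ × Fin K) → ℝ) (Y₀ : ℝ) (hY : ∀ A, |Y A| ≤ Y₀)
    (hYR : ∀ A, Y A ≠ 0 → (pr A : ℝ) ≤ R) :
    ∑ B ∈ LS K P, |la γ P Y B| ≤ Y₀ * Real.exp (K * S) * (R * Real.exp (K * S')) := by
  have hY0 : 0 ≤ Y₀ := (abs_nonneg _).trans (hY ∅)
  have hle := la_le γ P hγ S hS Y Y₀ hY
  have hsp := la_supp γ P hP R Y hYR
  have hprod : ∀ B ∈ LS K P, (0 : ℝ) < pr B := by
    intro B hB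
    have : 0 < pr B := by
      unfold pr
      exact Finset.prod_pos fun a ha => hP _ ((mem_LS.1 hB).1 a ha)
    exact_mod_cast this
  calc ∑ B ∈ LS K P, |la γ P Y B|
      ≤ ∑ B ∈ LS K P, (Y₀ * Real.exp (K * S) * R) * ∏ a ∈ B, (1 / ((a.1 : ℕ) : ℝ)) := by
        refine Finset.sum_le_sum fun B hB => ?_
        have hpB := hprod B hB
        have h1 : ∏ a ∈ B, (1 / ((a.1 : ℕ) : ℝ)) = 1 / (pr B : ℝ) := by
          unfold pr
          rw [Nat.cast_prod, Finset.prod_div_distrib, Finset.prod_const_one]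
        rw [h1]
        by_cases h : la γ P Y B = 0
        · rw [h, abs_zero]
          positivity
        · have h2 := hsp B h
          have h3 : 1 ≤ R * (1 / (pr B : ℝ)) := by
            rw [mul_one_div, le_div_iff₀ hpB]
            linarith
          calc |la γ P Y B| ≤ Y₀ * Real.exp (K * S) * 1 := by rw [mul_one]; exact hle B
            _ ≤ Y₀ * Real.exp (K * S) * (R * (1 / (pr B : ℝ))) :=
              mul_le_mul_of_nonneg_left h3 (by positivity)
            _ = Y₀ * Real.exp (K * S) * R * (1 / (pr B : ℝ)) := by ring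
    _ = (Y₀ * Real.exp (K * S) * R) * ∏ p ∈ P, (1 + K * (1 / (p : ℝ))) := by
        rw [← Finset.mul_sum, sum_LS_prod P (fun a : ℕ × Fin K => 1 / ((a.1 : ℕ) : ℝ))]
        congr 1
        refine Finset.prod_congr rfl fun p _ => ?_
        simp only [Finset.sum_const, Finset.card_univ, Fintype.card_fin, nsmul_eq_mul]
    _ ≤ (Y₀ * Real.exp (K * S) * R) * ∏ p ∈ P, Real.exp (K * (1 / (p : ℝ))) := by
        refine mul_le_mul_of_nonneg_left ?_ (by positivity)
        refine Finset.prod_le_prod (fun p _ => by positivity) (fun p _ => ?_)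
        have := Real.add_one_le_exp (K * (1 / (p : ℝ)))
        linarith
    _ ≤ (Y₀ * Real.exp (K * S) * R) * Real.exp (K * S') := by
        refine mul_le_mul_of_nonneg_left ?_ (by positivity)
        rw [← Real.exp_sum, ← Finset.mul_sum]
        exact Real.exp_le_exp.2 (mul_le_mul_of_nonneg_left hS' (Nat.cast_nonneg K))
    _ = Y₀ * Real.exp (K * S) * (R * Real.exp (K * S')) := by ring

private theorem za_gd {p : ℕ} (hp : 2 ≤ p) : 0 ≤ gg p - go p := by
  unfold gg go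
  have h2 : (2 : ℝ) ≤ p := by exact_mod_cast hp
  have h1 : 1 / (p : ℝ) ≤ 1 / ((p : ℝ) - 1) :=
    one_div_le_one_div_of_le (by linarith) (by linarith)
  linarith

theorem cv_bd2 {K : ℕ} (P : Finset ℕ) (hP : ∀ p ∈ P, p.Prime) (Y : Finset (ℕ × Fin K) → ℝ)
    (A : Finset (ℕ × Fin K)) (M : ℝ) (hM0 : 0 ≤ M)
    (hM : ∀ C, C ∈ LS K P → A ⊆ C → |Y C| ≤ M * 4 ^ #(C \ A)) (τ : ℝ)
    (hτ : ∑ p ∈ P, (gg p - go p) ≤ τ) : |cv P Y A| ≤ M * Real.exp (4 * K * τ) := by
  have hnn : ∀ C ∈ LS K P, ∀ D ⊆ C, 0 ≤ ∏ c ∈ D, (gg c.1 - go c.1) := by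
    intro C hC D hD
    refine Finset.prod_nonneg fun c hc => za_gd ?_
    exact (hP _ ((mem_LS.1 hC).1 c (hD hc))).two_le
  have hinj : Set.InjOn (fun C : Finset (ℕ × Fin K) => C \ A)
      ((LS K P).filter (fun C => A ⊆ C) : Set (Finset (ℕ × Fin K))) := by
    intro C hC C' hC' h
    have h1 := (mem_filter.1 (Finset.mem_coe.1 hC)).2
    have h2 := (mem_filter.1 (Finset.mem_coe.1 hC')).2
    simp only at h
    rw [← Finset.sdiff_union_of_subset h1, ← Finset.sdiff_union_of_subset h2, h]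
  unfold cv
  calc |∑ C ∈ (LS K P).filter (fun C => A ⊆ C), Y C * ∏ c ∈ C \ A, (gg c.1 - go c.1)|
      ≤ ∑ C ∈ (LS K P).filter (fun C => A ⊆ C), |Y C * ∏ c ∈ C \ A, (gg c.1 - go c.1)| :=
        Finset.abs_sum_le_sum_abs _ _
    _ ≤ ∑ C ∈ (LS K P).filter (fun C => A ⊆ C), M * ∏ c ∈ C \ A, (4 * (gg c.1 - go c.1)) := by
        refine Finset.sum_le_sum fun C hC => ?_
        rw [mem_filter] at hC
        have h0 := hnn C hC.1 _ (Finset.sdiff_subset (s := C) (t := A))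
        rw [abs_mul, abs_of_nonneg h0, Finset.prod_mul_distrib, Finset.prod_const]
        calc |Y C| * ∏ c ∈ C \ A, (gg c.1 - go c.1)
            ≤ (M * 4 ^ #(C \ A)) * ∏ c ∈ C \ A, (gg c.1 - go c.1) :=
              mul_le_mul_of_nonneg_right (hM C hC.1 hC.2) h0
          _ = M * (4 ^ #(C \ A) * ∏ c ∈ C \ A, (gg c.1 - go c.1)) := by ring
    _ = M * ∑ D ∈ ((LS K P).filter (fun C => A ⊆ C)).image (fun C => C \ A),
          ∏ c ∈ D, (4 * (gg c.1 - go c.1)) := by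
        rw [Finset.sum_image hinj, Finset.mul_sum]
    _ ≤ M * ∑ D ∈ LS K P, ∏ c ∈ D, (4 * (gg c.1 - go c.1)) := by
        refine mul_le_mul_of_nonneg_left ?_ hM0
        refine Finset.sum_le_sum_of_subset_of_nonneg ?_ ?_
        · intro D hD
          obtain ⟨C, hC, rfl⟩ := mem_image.1 hD
          have h4 := mem_LS.1 (mem_filter.1 hC).1
          rw [mem_LS]
          exact ⟨fun a ha => h4.1 a (mem_sdiff.1 ha).1,
            fun a ha b hb => h4.2 a (mem_sdiff.1 ha).1 b (mem_sdiff.1 hb).1⟩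
        · intro D hD _
          refine Finset.prod_nonneg fun c hc => ?_
          have := za_gd (hP _ ((mem_LS.1 hD).1 c hc)).two_le
          positivity
    _ = M * ∏ p ∈ P, (1 + 4 * K * (gg p - go p)) := by
        rw [sum_LS_prod P (fun c : ℕ × Fin K => 4 * (gg c.1 - go c.1))]
        congr 1
        refine Finset.prod_congr rfl fun p _ => ?_
        simp only [Finset.sum_const, Finset.card_univ, Fintype.card_fin, nsmul_eq_mul]
        ring
    _ ≤ M * ∏ p ∈ P, Real.exp (4 * K * (gg p - go p)) := by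
        refine mul_le_mul_of_nonneg_left ?_ hM0
        refine Finset.prod_le_prod (fun p hp => ?_) (fun p _ => ?_)
        · have := za_gd (hP p hp).two_le
          positivity
        · have := Real.add_one_le_exp (4 * K * (gg p - go p))
          linarith
    _ ≤ M * Real.exp (4 * K * τ) := by
        refine mul_le_mul_of_nonneg_left ?_ hM0
        rw [← Real.exp_sum, ← Finset.mul_sum]
        exact Real.exp_le_exp.2 (mul_le_mul_of_nonneg_left hτ (by positivity))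

end Pool.Agent.Work.MP_70e905_nt.M3
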