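import Pool.Agent.Work.MP_70e905_nt.M3.Defs
import Pool.Agent.Work.MP_70e905_nt.M3.ZA
import Pool.Agent.Work.MP_70e905_nt.M3.LE
import Pool.Agent.Work.MP_70e905_nt.M3.H1
import Pool.Agent.Work.MP_70e905_nt.M3.N2
import Pool.Agent.Work.MP_70e905_nt.M3.N3
import Pool.Agent.Work.MP_70e905_nt.MT.E1
import Pool.Agent.Work.MP_70e905_nt.MT.C2
import Pool.Agent.Work.MP_70e905_nt.MT.A5
import Pool.Agent.Work.MP_70e905_nt.MT.A6
import Pool.Agent.Work.MP_70e905_nt.MT.M0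
import Pool.Agent.Work.MP_70e905_nt.MT.C6

set_option autoImplicit false

/-!
MODULE ZB (the double majorant in the model `go`), size M-L.

`r = 109/2000`, `P₁ = Q c W r`, `R = x^r`, `V = Yg P₁ P₁ R i (Yg P P₁ R j Zij)`, `P = c.P W δ ⊆ P₁`. For `A ∈ LS K P₁` with `A₁` = the labels
`≠ i, j`: `V A = Zij(A₁) 1[pd (lb j A) ≤ R] 1[pd (lb i A) ≤ R] / (Nz (P₁ \ E₁) R * Nz (P₁ \ E₂) R)` if the labels `≠ i, j` are in `P` (`E₁`
= primes of `A₁`, `E₂` = primes of `A` with label `≠ i`); `Nz (P₁ \ E) R ≥ κ rt(E) r lx ≥ κ rt(A.image fst) r lx` (`Nz_lowt`, `rt_anti`).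
So `|V A| ≤ M₀(A) := (∏_{l ≠ i,j} yy) U1² 1[pd (lb j A) ≤ R] 1[pd (lb i A) ≤ R] rt(A.image fst)^-2 / (κ r lx)²` (`ZZ_leU`), and for
`A ⊆ C ∈ LS`: `M₀(C) ≤ M₀(A) 4^#(C \ A)` (`rt(C)^-1 = ∏ (1 + gg) ≤ rt(A)^-1 2^#(C \ A)`). `ff gg P₁ V = ff go P₁ (cv P₁ V)` (`ff_cv`),
`Ex_upper` for `go`, `cv_bd2` with `τ = 1/D₀` (`sum_dif`), `ga go ≤ ga gg`:
`Ex ≤ exp (8 K/D₀) ∑_{A ∈ LS} M₀(A)² ga gg A ≤ exp (8K/D₀) U1^4 / (κ r lx)^4 * (∏ over labels)`: sum over all `A ⊆ P₁ × Fin K`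
(`prod_labels`; labels `≠ i, j` in `P`), local factor `rt^-4 = ∏ (1 + gg)^4 ≤ ∏ (1 + 8 gg)` (`rt_inv`, `gg_pow` of LE):
labels `l ≠ i, j`: `exp (16/D₀) U2` each (`Nh_out` or as in LE), labels `i` and `j`: `exp (16/D₀) Nz P₁ R` each,
`Nz P₁ R ≤ (1 + 10^-7) κ (r + 10^-7) lx` (`Nz_sharp`). Total `≤ exp (24 K / D₀) (1 + 10^-5) U1^4 U2^(K-2) / (κ r lx)²`.
-/

namespace Pool.Agent.Work.MP_70e905_nt.M3

open Finset Pool.Agent.Work.MP_73869e_nt.TH Pool.Agent.Work.MP_70e905_nt.MT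

private theorem zb_prod {K : ℕ} {M : Type*} [CommMonoid M] (A : Finset (ℕ × Fin K)) (f : ℕ → M) :
    ∏ a ∈ A, f a.1 = ∏ i, ∏ p ∈ lb i A, f p := by
  rw [← Finset.prod_fiberwise (s := A) (g := fun a : ℕ × Fin K => a.2) (f := fun a => f a.1)]
  refine Finset.prod_congr rfl fun i _ => ?_
  unfold lb
  rw [Finset.prod_image]
  rintro ⟨p, k⟩ ha ⟨q, l⟩ hb hab
  have ha' := (mem_filter.1 ha).2
  have hb' := (mem_filter.1 hb).2
  simp only at ha' hb' hab
  rw [ha', hb', hab]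

private theorem zb_gg {p : ℕ} (hp : p.Prime) : 0 ≤ gg p ∧ gg p ≤ 1 := by
  unfold gg
  have : (2 : ℝ) ≤ p := by exact_mod_cast hp.two_le
  constructor
  · apply div_nonneg zero_le_one
    linarith
  · rw [div_le_one (by linarith)]
    linarith

private theorem zb_HH {S : Finset ℕ} (h : ∀ p ∈ S, p.Prime) : 0 ≤ HH S :=
  Finset.prod_nonneg fun p hp => (zb_gg (h p hp)).1

/-- the factor of the label `l` in the majorant of the coefficients -/
private noncomputable def phi {K : ℕ} (P : Finset ℕ) (x L : ℕ) (t₀ R : ℝ) (i j l : Fin K)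
    (S : Finset ℕ) : ℝ :=
  if l = i ∨ l = j then (if ((pd S : ℕ) : ℝ) ≤ R then ∏ p ∈ S, (1 + gg p) ^ 2 else 0)
  else (if S ⊆ P then yy x L t₀ (pd S) * ∏ p ∈ S, (1 + gg p) ^ 2 else 0)

private theorem phi_nn {K : ℕ} (P : Finset ℕ) (x L : ℕ) (t₀ R : ℝ) (i j l : Fin K)
    (S : Finset ℕ) : 0 ≤ phi P x L t₀ R i j l S := by
  have h1 : 0 ≤ ∏ p ∈ S, (1 + gg p) ^ 2 := Finset.prod_nonneg fun p _ => sq_nonneg _
  unfold phi
  split_ifs
  · exact h1
  · exact le_rfl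
  · exact mul_nonneg (yy_bd x L t₀ _).1 h1
  · exact le_rfl

private theorem phi_mono {K : ℕ} (P : Finset ℕ) (x L : ℕ) (t₀ R : ℝ) (i j l : Fin K)
    (S S' : Finset ℕ) (h : S ⊆ S') (hS' : ∀ p ∈ S', p.Prime) :
    phi P x L t₀ R i j l S' ≤ (∏ _p ∈ S' \ S, (4 : ℝ)) * phi P x L t₀ R i j l S := by
  have hpd : pd S ≤ pd S' := by
    unfold pd
    exact Finset.prod_le_prod_of_subset_of_one_le' h fun p hp _ => (hS' p hp).one_lt.le
  have hpd' : ((pd S : ℕ) : ℝ) ≤ pd S' := by exact_mod_cast hpd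
  have hg : ∏ p ∈ S', (1 + gg p) ^ 2 ≤
      (∏ _p ∈ S' \ S, (4 : ℝ)) * ∏ p ∈ S, (1 + gg p) ^ 2 := by
    rw [← Finset.prod_sdiff h]
    refine mul_le_mul_of_nonneg_right ?_ (Finset.prod_nonneg fun p _ => sq_nonneg _)
    refine Finset.prod_le_prod (fun p _ => sq_nonneg _) fun p hp => ?_
    have h1 := zb_gg (hS' p (mem_sdiff.1 hp).1)
    nlinarith [h1.1, h1.2]
  have h4 : 0 ≤ ∏ _p ∈ S' \ S, (4 : ℝ) := Finset.prod_nonneg fun _ _ => by norm_num
  have hnn : 0 ≤ ∏ p ∈ S, (1 + gg p) ^ 2 := Finset.prod_nonneg fun p _ => sq_nonneg _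
  have hnn' : 0 ≤ ∏ p ∈ S', (1 + gg p) ^ 2 := Finset.prod_nonneg fun p _ => sq_nonneg _
  have hR := mul_nonneg h4 (phi_nn P x L t₀ R i j l S)
  unfold phi at hR ⊢
  by_cases hl : l = i ∨ l = j
  · rw [if_pos hl, if_pos hl] at *
    by_cases h' : ((pd S' : ℕ) : ℝ) ≤ R
    · rw [if_pos h', if_pos (hpd'.trans h')]
      exact hg
    · rw [if_neg h']
      exact hR
  · rw [if_neg hl, if_neg hl] at *
    by_cases h' : S' ⊆ P
    · rw [if_pos h', if_pos (h.trans h')]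
      calc yy x L t₀ (pd S') * ∏ p ∈ S', (1 + gg p) ^ 2 ≤
          yy x L t₀ (pd S) * ((∏ _p ∈ S' \ S, (4 : ℝ)) * ∏ p ∈ S, (1 + gg p) ^ 2) :=
            mul_le_mul (yy_anti x L t₀ _ _ hpd) hg hnn' (yy_bd x L t₀ _).1
        _ = _ := by ring
    · rw [if_neg h']
      exact hR

private theorem zb_lb_mono {K : ℕ} (A C : Finset (ℕ × Fin K)) (h : A ⊆ C) (l : Fin K) :
    lb l A ⊆ lb l C := by
  intro p hp
  rw [mem_lb] at hp ⊢
  exact h hp

private theorem zb_lb_sdiff {K : ℕ} (A C : Finset (ℕ × Fin K)) (l : Fin K) :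
    lb l C \ lb l A = lb l (C \ A) := by
  ext p
  rw [mem_sdiff, mem_lb, mem_lb, mem_lb, mem_sdiff]

private theorem zb_mono {K : ℕ} (P P₁ : Finset ℕ) (hP₁ : ∀ p ∈ P₁, p.Prime) (x L : ℕ) (t₀ R : ℝ)
    (i j : Fin K) (A C : Finset (ℕ × Fin K)) (hC : C ∈ LS K P₁) (h : A ⊆ C) :
    ∏ l, phi P x L t₀ R i j l (lb l C) ≤ (∏ l, phi P x L t₀ R i j l (lb l A)) * 4 ^ #(C \ A) := by
  have h1 : (4 : ℝ) ^ #(C \ A) = ∏ l, ∏ _p ∈ lb l C \ lb l A, (4 : ℝ) := by
    have h2 := zb_prod (C \ A) (fun _ => (4 : ℝ))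
    rw [Finset.prod_const] at h2
    rw [h2]
    refine Finset.prod_congr rfl fun l _ => ?_
    rw [zb_lb_sdiff]
  rw [h1, mul_comm, ← Finset.prod_mul_distrib]
  refine Finset.prod_le_prod (fun l _ => phi_nn _ _ _ _ _ _ _ _ _) fun l _ => ?_
  refine phi_mono P x L t₀ R i j l _ _ (zb_lb_mono A C h l) fun p hp => ?_
  rw [mem_lb] at hp
  exact hP₁ p ((mem_LS.1 hC).1 _ hp)

private theorem zb_rt_pos (E : Finset ℕ) (hE : ∀ p ∈ E, p.Prime) : 0 < rt E := by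
  unfold rt
  refine Finset.prod_pos fun p hp => ?_
  have h1 : (1 : ℝ) < p := by exact_mod_cast (hE p hp).one_lt
  have h2 : 1 / (p : ℝ) < 1 := by
    rw [div_lt_one (by linarith)]
    exact h1
  linarith

/-- the coefficients of the double majorant -/
private theorem zb_V {K : ℕ} (P P₁ : Finset ℕ) (hP₁ : ∀ p ∈ P₁, p.Prime)
    (x L : ℕ) (t₀ R u a : ℝ) (ha : 0 < a) (i j : Fin K) (hij : i ≠ j)
    (Z : Finset (ℕ × Fin K) → ℝ)
    (hZ : ∀ A : Finset (ℕ × Fin K), (∀ c ∈ A, c.2 ≠ i ∧ c.2 ≠ j) → 0 ≤ Z A ∧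
      Z A ≤ (∏ l ∈ (univ.erase i).erase j, yy x L t₀ (pd (lb l A))) * u)
    (hN : ∀ E : Finset ℕ, (∀ p ∈ E, p.Prime) → a * rt E ≤ Nz (P₁ \ E) R)
    (C : Finset (ℕ × Fin K)) (hC : C ∈ LS K P₁) :
    |Yg P₁ P₁ R i (Yg P P₁ R j Z) C| ≤ u / a ^ 2 * ∏ l, phi P x L t₀ R i j l (lb l C) := by
  classical
  set Ci := C.filter (fun c => c.2 ≠ i) with hCi
  set Cij := Ci.filter (fun c => c.2 ≠ j) with hCij
  have hCp : ∀ c ∈ C, c.1.Prime := fun c hc => hP₁ _ ((mem_LS.1 hC).1 c hc)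
  have hCis : Ci ⊆ C := filter_subset _ _
  have hCijs : Cij ⊆ C := (filter_subset _ _).trans hCis
  have hyn : 0 ≤ ∏ l ∈ (univ.erase i).erase j, yy x L t₀ (pd (lb l Cij)) :=
    Finset.prod_nonneg fun l _ => (yy_bd x L t₀ _).1
  have hCij' : ∀ c ∈ Cij, c.2 ≠ i ∧ c.2 ≠ j := fun c hc => by
    rw [hCij, mem_filter, hCi, mem_filter] at hc
    exact ⟨hc.1.2, hc.2⟩
  obtain ⟨hZ0, hZ1⟩ := hZ Cij hCij'
  have hu : 0 ≤ (∏ l ∈ (univ.erase i).erase j, yy x L t₀ (pd (lb l Cij))) * u := hZ0.trans hZ1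
  set ph := ∏ l, phi P x L t₀ R i j l (lb l C) with hph
  -- the empty set gives the sign of u
  have hu0 : 0 ≤ u ∨ ∏ l ∈ (univ.erase i).erase j, yy x L t₀ (pd (lb l Cij)) = 0 := by
    by_cases h : ∏ l ∈ (univ.erase i).erase j, yy x L t₀ (pd (lb l Cij)) = 0
    · exact Or.inr h
    · left
      have h1 : 0 < ∏ l ∈ (univ.erase i).erase j, yy x L t₀ (pd (lb l Cij)) :=
        lt_of_le_of_ne hyn (Ne.symm h)
      by_contra h2
      push Not at h2
      nlinarith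
  have hlbj : lb j Ci = lb j C := by
    ext p
    rw [mem_lb, mem_lb, hCi, mem_filter]
    exact ⟨fun h => h.1, fun h => ⟨h, hij.symm⟩⟩
  have hlbl : ∀ l, l ≠ i → l ≠ j → lb l Cij = lb l C := by
    intro l h1 h2
    ext p
    rw [mem_lb, mem_lb, hCij, mem_filter, hCi, mem_filter]
    exact ⟨fun h => h.1.1, fun h => ⟨⟨h, h1⟩, h2⟩⟩
  by_cases hcond : ((∀ c ∈ C, c.2 ≠ i → c.1 ∈ P₁) ∧ ((pd (lb i C) : ℕ) : ℝ) ≤ R) ∧
      ((∀ c ∈ Ci, c.2 ≠ j → c.1 ∈ P) ∧ ((pd (lb j Ci) : ℕ) : ℝ) ≤ R)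
  · obtain ⟨h1, h2⟩ := hcond
    have hV : Yg P₁ P₁ R i (Yg P P₁ R j Z) C =
        Z Cij / Nz (P₁ \ Cij.image Prod.fst) R / Nz (P₁ \ Ci.image Prod.fst) R := by
      unfold Yg
      rw [if_pos h1, if_pos h2]
    have hE1 : ∀ p ∈ Cij.image Prod.fst, p.Prime := fun p hp => by
      obtain ⟨c, hc, rfl⟩ := mem_image.1 hp
      exact hCp c (hCijs hc)
    have hE2 : ∀ p ∈ Ci.image Prod.fst, p.Prime := fun p hp => by
      obtain ⟨c, hc, rfl⟩ := mem_image.1 hp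
      exact hCp c (hCis hc)
    have hE : ∀ p ∈ C.image Prod.fst, p.Prime := fun p hp => by
      obtain ⟨c, hc, rfl⟩ := mem_image.1 hp
      exact hCp c hc
    have hrt := zb_rt_pos _ hE
    have hN1 : a * rt (C.image Prod.fst) ≤ Nz (P₁ \ Cij.image Prod.fst) R :=
      (mul_le_mul_of_nonneg_left (rt_anti _ _ (image_subset_image hCijs)) ha.le).trans
        (hN _ hE1)
    have hN2 : a * rt (C.image Prod.fst) ≤ Nz (P₁ \ Ci.image Prod.fst) R :=
      (mul_le_mul_of_nonneg_left (rt_anti _ _ (image_subset_image hCis)) ha.le).trans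
        (hN _ hE2)
    have har : 0 < a * rt (C.image Prod.fst) := mul_pos ha hrt
    have hph1 : ph = (∏ l ∈ (univ.erase i).erase j, yy x L t₀ (pd (lb l Cij))) *
        (rt (C.image Prod.fst))⁻¹ ^ 2 := by
      rw [rt_inv P₁ hP₁ C hC, ← Finset.prod_pow, zb_prod C (fun p => (1 + gg p) ^ 2)]
      have h3 : ∏ l ∈ (univ.erase i).erase j, yy x L t₀ (pd (lb l Cij)) =
          ∏ l : Fin K, (if l = i ∨ l = j then 1 else yy x L t₀ (pd (lb l C))) := by
        have h4 : ∏ l ∈ (univ.erase i).erase j,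
            (if l = i ∨ l = j then 1 else yy x L t₀ (pd (lb l C))) =
            ∏ l : Fin K, (if l = i ∨ l = j then 1 else yy x L t₀ (pd (lb l C))) := by
          rw [Finset.prod_erase _ (by rw [if_pos (Or.inr rfl)]),
            Finset.prod_erase _ (by rw [if_pos (Or.inl rfl)])]
        rw [← h4]
        refine Finset.prod_congr rfl fun l hl => ?_
        rw [mem_erase, mem_erase] at hl
        rw [if_neg (by tauto), hlbl l hl.2.1 hl.1]
      rw [h3, ← Finset.prod_mul_distrib, hph]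
      refine Finset.prod_congr rfl fun l _ => ?_
      unfold phi
      by_cases hli : l = i ∨ l = j
      · rw [if_pos hli, if_pos hli, one_mul]
        rw [if_pos]
        rcases hli with h | h
        · rw [h]
          exact h1.2
        · rw [h, ← hlbj]
          exact h2.2
      · rw [if_neg hli, if_neg hli, if_pos]
        intro p hp
        rw [mem_lb] at hp
        have h5 : (p, l) ∈ Ci := by
          rw [hCi, mem_filter]
          exact ⟨hp, fun h => hli (Or.inl h)⟩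
        exact h2.1 _ h5 fun h => hli (Or.inr h)
    rw [hV, hph1, abs_of_nonneg (div_nonneg (div_nonneg hZ0 (har.le.trans hN1)) (har.le.trans hN2))]
    calc Z Cij / Nz (P₁ \ Cij.image Prod.fst) R / Nz (P₁ \ Ci.image Prod.fst) R ≤
        ((∏ l ∈ (univ.erase i).erase j, yy x L t₀ (pd (lb l Cij))) * u) /
          (a * rt (C.image Prod.fst)) / (a * rt (C.image Prod.fst)) := by
          have h6 : Z Cij / Nz (P₁ \ Cij.image Prod.fst) R ≤
              ((∏ l ∈ (univ.erase i).erase j, yy x L t₀ (pd (lb l Cij))) * u) /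
                (a * rt (C.image Prod.fst)) := div_le_div₀ hu hZ1 har hN1
          exact div_le_div₀ (div_nonneg hu har.le) h6 har hN2
      _ = _ := by
          field_simp
  · have hV : Yg P₁ P₁ R i (Yg P P₁ R j Z) C = 0 := by
      unfold Yg
      by_cases h1 : (∀ c ∈ C, c.2 ≠ i → c.1 ∈ P₁) ∧ ((pd (lb i C) : ℕ) : ℝ) ≤ R
      · rw [if_pos h1, if_neg (fun h2 => hcond ⟨h1, h2⟩), zero_div]
      · rw [if_neg h1]
    rw [hV, abs_zero]
    rcases hu0 with h | h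
    · exact mul_nonneg (by positivity) (Finset.prod_nonneg fun l _ => phi_nn _ _ _ _ _ _ _ _ _)
    · have h7 : ph = 0 := by
        obtain ⟨l, hl, hl0⟩ := Finset.prod_eq_zero_iff.1 h
        rw [mem_erase, mem_erase] at hl
        rw [hph]
        refine Finset.prod_eq_zero (mem_univ l) ?_
        unfold phi
        rw [if_neg (by tauto), ← hlbl l hl.2.1 hl.1, hl0, zero_mul, ite_self]
      rw [h7, mul_zero]

/-- the sum of the squares -/
private theorem zb_sum {K : ℕ} (D₀ : ℕ) (hD : 1 ≤ D₀) (P P₁ : Finset ℕ) (hPP : P ⊆ P₁)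
    (hP₁ : ∀ p ∈ P₁, p.Prime ∧ D₀ < p) (h4 : ∀ p ∈ P₁, 4 * gg p ≤ 1)
    (x L : ℕ) (t₀ R : ℝ) (i j : Fin K) (hij : i ≠ j) (N : ℝ) (hN : Nz P₁ R ≤ N) :
    ∑ A ∈ LS K P₁, (∏ l, phi P x L t₀ R i j l (lb l A)) ^ 2 * ga gg A ≤
      Real.exp (16 / D₀) ^ K * (U2 P x L t₀ ^ (K - 2) * N ^ 2) := by
  classical
  have hpr : ∀ p ∈ P₁, p.Prime := fun p hp => (hP₁ p hp).1
  have hD' : (0 : ℝ) < D₀ := by exact_mod_cast hD
  have hnn : ∀ (l : Fin K) (S : Finset ℕ), (∀ p ∈ S, p.Prime) →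
      0 ≤ phi P x L t₀ R i j l S ^ 2 * HH S := fun l S hS =>
    mul_nonneg (sq_nonneg _) (zb_HH hS)
  -- product over the labels
  have h1 : ∑ A ∈ LS K P₁, (∏ l, phi P x L t₀ R i j l (lb l A)) ^ 2 * ga gg A ≤
      ∏ l, ∑ S ∈ P₁.powerset, phi P x L t₀ R i j l S ^ 2 * HH S := by
    rw [← prod_labels P₁ (fun l S => phi P x L t₀ R i j l S ^ 2 * HH S)]
    have h2 : ∀ A ∈ LS K P₁, (∏ l, phi P x L t₀ R i j l (lb l A)) ^ 2 * ga gg A =
        ∏ l, (phi P x L t₀ R i j l (lb l A) ^ 2 * HH (lb l A)) := by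
      intro A _
      rw [ga_HH, Finset.prod_mul_distrib, Finset.prod_pow]
    rw [Finset.sum_congr rfl h2]
    refine Finset.sum_le_sum_of_subset_of_nonneg (filter_subset _ _) fun A hA _ => ?_
    refine Finset.prod_nonneg fun l _ => hnn l _ fun p hp => ?_
    rw [mem_lb] at hp
    exact hpr p (mem_product.1 ((mem_powerset.1 hA) hp)).1
  refine h1.trans ?_
  have hexp : ∀ P' : Finset ℕ, P' ⊆ P₁ → Real.exp (∑ p ∈ P', 8 * gg p * gg p) ≤
      Real.exp (16 / D₀) := by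
    intro P' hP'
    apply Real.exp_le_exp.2
    have h3 := sum_gg2 D₀ hD P' fun p hp => (hP₁ p (hP' hp)).2
    have h5 : ∑ p ∈ P', 8 * gg p * gg p = 8 * ∑ p ∈ P', gg p ^ 2 := by
      rw [Finset.mul_sum]
      refine Finset.sum_congr rfl fun p _ => ?_
      ring
    rw [h5]
    calc 8 * ∑ p ∈ P', gg p ^ 2 ≤ 8 * (2 / D₀) := by linarith
      _ = 16 / D₀ := by ring
  have hloc : ∀ S ⊆ P₁, (∏ p ∈ S, (1 + gg p) ^ 2) ^ 2 * HH S ≤
      ∏ p ∈ S, (gg p * (1 + 8 * gg p)) := by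
    intro S hS
    unfold HH
    rw [← Finset.prod_pow, ← Finset.prod_mul_distrib]
    refine Finset.prod_le_prod (fun p hp => ?_) fun p hp => ?_
    · exact mul_nonneg (sq_nonneg _) (zb_gg (hpr p (hS hp))).1
    · have h5 := gg_pow p 4 (by push_cast; exact h4 p (hS hp)) (zb_gg (hpr p (hS hp))).1
      have h6 := (zb_gg (hpr p (hS hp))).1
      calc ((1 + gg p) ^ 2) ^ 2 * gg p = gg p * (1 + gg p) ^ 4 := by ring
        _ ≤ gg p * (1 + 2 * (4 : ℕ) * gg p) := mul_le_mul_of_nonneg_left h5 h6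
        _ = gg p * (1 + 8 * gg p) := by
            push_cast
            ring
  -- the labels i and j
  have hA : ∀ l : Fin K, l = i ∨ l = j →
      ∑ S ∈ P₁.powerset, phi P x L t₀ R i j l S ^ 2 * HH S ≤ Real.exp (16 / D₀) * N := by
    intro l hl
    have h5 := Nh_out P₁ hpr (fun p => 8 * gg p) (fun p hp => by
      have := (zb_gg (hpr p hp)).1
      positivity) (fun n => if (n : ℝ) ≤ R then 1 else 0) (fun n => by split_ifs <;> norm_num)
      (fun m n _ hmn => by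
        have : (m : ℝ) ≤ n := by exact_mod_cast hmn
        split_ifs with h6 h7
        · exact le_rfl
        · exact absurd (this.trans h6) h7
        · exact zero_le_one
        · exact le_rfl)
    have h6 : Nh P₁ (fun n => if (n : ℝ) ≤ R then 1 else 0) = Nz P₁ R := by
      unfold Nh Nz
      rw [Finset.sum_filter]
      refine Finset.sum_congr rfl fun S _ => ?_
      show HH S * (if ((pd S : ℕ) : ℝ) ≤ R then (1 : ℝ) else 0) = _
      split_ifs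
      · rw [mul_one]
      · rw [mul_zero]
    rw [h6] at h5
    have h7 : 0 ≤ Nz P₁ R := by
      unfold Nz
      refine Finset.sum_nonneg fun S hS => zb_HH fun p hp => ?_
      exact hpr p (mem_powerset.1 (mem_filter.1 hS).1 hp)
    calc ∑ S ∈ P₁.powerset, phi P x L t₀ R i j l S ^ 2 * HH S ≤
        ∑ S ∈ P₁.powerset, (∏ p ∈ S, (gg p * (1 + 8 * gg p))) *
          (if ((pd S : ℕ) : ℝ) ≤ R then 1 else 0) := by
          refine Finset.sum_le_sum fun S hS => ?_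
          unfold phi
          rw [if_pos hl]
          split_ifs
          · rw [mul_one]
            exact hloc S (mem_powerset.1 hS)
          · simp
      _ ≤ _ := h5
      _ ≤ Real.exp (16 / D₀) * Nz P₁ R :=
          mul_le_mul_of_nonneg_right (hexp P₁ Subset.rfl) h7
      _ ≤ Real.exp (16 / D₀) * N := mul_le_mul_of_nonneg_left hN (Real.exp_pos _).le
  -- the other labels
  have hU0 : 0 ≤ U2 P x L t₀ := by
    unfold U2
    refine Finset.sum_nonneg fun S hS => mul_nonneg (zb_HH fun p hp => ?_) (sq_nonneg _)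
    exact hpr p (hPP (mem_powerset.1 hS hp))
  have hB : ∀ l : Fin K, ¬ (l = i ∨ l = j) →
      ∑ S ∈ P₁.powerset, phi P x L t₀ R i j l S ^ 2 * HH S ≤ Real.exp (16 / D₀) * U2 P x L t₀ := by
    intro l hl
    have h5 := Nh_out P (fun p hp => hpr p (hPP hp)) (fun p => 8 * gg p) (fun p hp => by
      have := (zb_gg (hpr p (hPP hp))).1
      positivity) (fun n => yy x L t₀ n ^ 2) (fun n => sq_nonneg _)
      (fun m n _ hmn => by
        have h6 := yy_anti x L t₀ m n hmn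
        have h7 := (yy_bd x L t₀ n).1
        exact pow_le_pow_left₀ h7 h6 2)
    have h6 : Nh P (fun n => yy x L t₀ n ^ 2) = U2 P x L t₀ := rfl
    rw [h6] at h5
    calc ∑ S ∈ P₁.powerset, phi P x L t₀ R i j l S ^ 2 * HH S ≤
        ∑ S ∈ P.powerset, (∏ p ∈ S, (gg p * (1 + 8 * gg p))) * yy x L t₀ (pd S) ^ 2 := by
          rw [← Finset.sum_subset (powerset_mono.2 hPP)]
          · refine Finset.sum_le_sum fun S hS => ?_
            have hSP := mem_powerset.1 hS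
            unfold phi
            rw [if_neg hl, if_pos hSP, mul_pow]
            have h8 := hloc S (hSP.trans hPP)
            have h9 : 0 ≤ yy x L t₀ (pd S) ^ 2 := sq_nonneg _
            calc yy x L t₀ (pd S) ^ 2 * (∏ p ∈ S, (1 + gg p) ^ 2) ^ 2 * HH S =
                ((∏ p ∈ S, (1 + gg p) ^ 2) ^ 2 * HH S) * yy x L t₀ (pd S) ^ 2 := by ring
              _ ≤ _ := mul_le_mul_of_nonneg_right h8 h9
          · intro S _ hS
            unfold phi
            rw [if_neg hl, if_neg (fun h => hS (mem_powerset.2 h))]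
            ring
      _ ≤ _ := h5
      _ ≤ Real.exp (16 / D₀) * U2 P x L t₀ :=
          mul_le_mul_of_nonneg_right (hexp P hPP) hU0
  have hN0 : 0 ≤ N := by
    refine le_trans ?_ hN
    unfold Nz
    refine Finset.sum_nonneg fun S hS => zb_HH fun p hp => ?_
    exact hpr p (mem_powerset.1 (mem_filter.1 hS).1 hp)
  have hj : j ∈ univ.erase i := mem_erase.2 ⟨hij.symm, mem_univ _⟩
  have hsp : ∀ f : Fin K → ℝ, ∏ l, f l = (∏ l ∈ (univ.erase i).erase j, f l) * f j * f i := by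
    intro f
    rw [← Finset.prod_erase_mul univ f (mem_univ i), ← Finset.prod_erase_mul (univ.erase i) f hj]
  have hcard : #((univ.erase i).erase j : Finset (Fin K)) = K - 2 := by
    rw [card_erase_of_mem hj, card_erase_of_mem (mem_univ i), card_univ, Fintype.card_fin]
    rfl
  have hK : 2 ≤ K := by
    have h5 := i.2
    have h6 := j.2
    have h7 : (i : ℕ) ≠ j := fun h => hij (Fin.ext h)
    omega
  have hs0 : ∀ l : Fin K, 0 ≤ ∑ S ∈ P₁.powerset, phi P x L t₀ R i j l S ^ 2 * HH S :=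
    fun l => Finset.sum_nonneg fun S hS => hnn l S fun p hp => hpr p (mem_powerset.1 hS hp)
  rw [hsp]
  have h8 : ∏ l ∈ (univ.erase i).erase j, ∑ S ∈ P₁.powerset, phi P x L t₀ R i j l S ^ 2 * HH S ≤
      (Real.exp (16 / D₀) * U2 P x L t₀) ^ (K - 2) := by
    rw [← hcard, ← Finset.prod_const]
    refine Finset.prod_le_prod (fun l _ => hs0 l) fun l hl => hB l ?_
    rw [mem_erase, mem_erase] at hl
    tauto
  have hE0 : 0 ≤ Real.exp (16 / (D₀ : ℝ)) := (Real.exp_pos _).le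
  calc (∏ l ∈ (univ.erase i).erase j, ∑ S ∈ P₁.powerset, phi P x L t₀ R i j l S ^ 2 * HH S) *
      (∑ S ∈ P₁.powerset, phi P x L t₀ R i j j S ^ 2 * HH S) *
      (∑ S ∈ P₁.powerset, phi P x L t₀ R i j i S ^ 2 * HH S) ≤
      (Real.exp (16 / D₀) * U2 P x L t₀) ^ (K - 2) * (Real.exp (16 / D₀) * N) *
        (Real.exp (16 / D₀) * N) := by
        refine mul_le_mul (mul_le_mul h8 (hA j (Or.inr rfl)) (hs0 j) ?_) (hA i (Or.inl rfl))
          (hs0 i) ?_
        · positivity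
        · positivity
    _ = Real.exp (16 / D₀) ^ (K - 2 + 2) * (U2 P x L t₀ ^ (K - 2) * N ^ 2) := by
        rw [mul_pow, pow_add]
        ring
    _ = _ := by rw [Nat.sub_add_cancel hK]

private theorem zb_num (u a T X N U : ℝ) (ha : 0 < a) (h1 : T ^ 2 * X ≤ 1 + 1 / 10 ^ 5)
    (h2 : N ^ 2 ≤ (1 + 1 / 10 ^ 5) * a ^ 2) (hU : 0 ≤ U) :
    (u / a ^ 2) ^ 2 * T ^ 2 * (X * (U * N ^ 2)) ≤ (1 + 1 / 10 ^ 4) * (u ^ 2 * U / a ^ 2) := by
  have e1 : (u / a ^ 2) ^ 2 * T ^ 2 * (X * (U * N ^ 2)) =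
      (T ^ 2 * X) * N ^ 2 * ((u / a ^ 2) ^ 2 * U) := by ring
  have e2 : (T ^ 2 * X) * N ^ 2 ≤ (1 + 1 / 10 ^ 5) * ((1 + 1 / 10 ^ 5) * a ^ 2) :=
    mul_le_mul h1 h2 (sq_nonneg _) (by norm_num)
  have e3 : 0 ≤ (u / a ^ 2) ^ 2 * U := by positivity
  have e4 : (1 + 1 / 10 ^ 5) * ((1 + 1 / 10 ^ 5) * a ^ 2) * ((u / a ^ 2) ^ 2 * U) =
      (1 + 1 / 10 ^ 5) ^ 2 * (u ^ 2 * U / a ^ 2) := by
    field_simp
  have e5 : 0 ≤ u ^ 2 * U / a ^ 2 := by positivity
  rw [e1]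
  refine (mul_le_mul_of_nonneg_right e2 e3).trans ?_
  rw [e4]
  exact mul_le_mul_of_nonneg_right (by norm_num) e5

theorem dbl (K L D₀ : ℕ) (s δ t₀ e : ℝ) (hpar : Par K L D₀ s δ t₀ e) (he6 : e ≤ 1 / 10 ^ 6)
    (W A₀ C : ℕ) : ∃ X₀ : ℕ, ∀ c : Cfg K, c.Ok D₀ W A₀ C → X₀ ≤ c.x → ∀ i j : Fin K, i ≠ j →
      Ex go (Q c W (109 / 2000)) (fun ω => (ff gg (Q c W (109 / 2000))
          (Yg (Q c W (109 / 2000)) (Q c W (109 / 2000)) ((c.x : ℝ) ^ (109 / 2000 : ℝ)) i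
            (Yg (c.P W δ) (Q c W (109 / 2000)) ((c.x : ℝ) ^ (109 / 2000 : ℝ)) j
              (Zij c W L δ t₀ i j))) ω) ^ 2) ≤
        (1 + 1 / 10 ^ 4) * (U1 (c.P W δ) c.x L t₀ ^ 4 * U2 (c.P W δ) c.x L t₀ ^ (K - 2) /
          (c.κ W * (109 / 2000) * Real.log c.x) ^ 2) := by
  obtain ⟨X₁, hX₁⟩ := Nz_sharp (1 / 10 ^ 7) (by norm_num) (by norm_num) K D₀ W A₀ C
  refine ⟨max X₁ 2, fun c hc hx i j hij => ?_⟩
  have hx1 : X₁ ≤ c.x := le_trans (le_max_left _ _) hx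
  have hx2 : 2 ≤ c.x := le_trans (le_max_right _ _) hx
  have hxr : (2 : ℝ) ≤ c.x := by exact_mod_cast hx2
  have hK := hpar.hK
  have hKr : (2 : ℝ) ≤ K := by exact_mod_cast hK
  have he := hpar.he
  have hDr : 16 * (K : ℝ) ^ 2 ≤ e * D₀ := hpar.hD
  -- D₀ is large
  have hDK : 16 * 10 ^ 6 * (K : ℝ) ^ 2 ≤ D₀ := by
    have h1 : e * D₀ ≤ 1 / 10 ^ 6 * (D₀ : ℝ) := mul_le_mul_of_nonneg_right he6 (Nat.cast_nonneg _)
    have h2 : 16 * (K : ℝ) ^ 2 ≤ 1 / 10 ^ 6 * (D₀ : ℝ) := hDr.trans h1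
    linarith
  have hKK : 2 * (K : ℝ) ≤ (K : ℝ) ^ 2 := by
    rw [pow_two]
    exact mul_le_mul_of_nonneg_right hKr (by linarith)
  have hDK1 : 32 * 10 ^ 6 * (K : ℝ) ≤ D₀ := by linarith
  have hD0 : (0 : ℝ) < D₀ := by linarith
  have hD1 : 1 ≤ D₀ := by
    have : 0 < D₀ := by exact_mod_cast hD0
    omega
  have hDKn : 4 * K < D₀ := by
    have h1 : ((4 * K : ℕ) : ℝ) < D₀ := by
      push_cast
      linarith
    exact_mod_cast h1
  set r : ℝ := 109 / 2000 with hr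
  set P := c.P W δ with hP
  set P₁ := Q c W r with hP₁
  have hprop : ∀ p ∈ P₁, p.Prime ∧ D₀ < p := fun p hp => by
    have h1 := Q_props c D₀ W A₀ C r hc (by omega) p hp
    exact ⟨h1.1, h1.2.1⟩
  have hpr : ∀ p ∈ P₁, p.Prime := fun p hp => (hprop p hp).1
  have hPP : P ⊆ P₁ := by
    intro p hp
    rw [hP] at hp
    rw [hP₁]
    unfold Cfg.P at hp
    unfold Q
    unfold Cfg.PZ at hp ⊢
    rw [mem_filter, mem_Icc] at hp ⊢
    refine ⟨⟨hp.1.1, hp.1.2.trans ?_⟩, hp.2⟩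
    refine Nat.floor_le_floor (Real.rpow_le_rpow_of_exponent_le (by linarith) ?_)
    have := hpar.hδe
    rw [hr]
    linarith
  have hPpr : ∀ p ∈ P, p.Prime := fun p hp => hpr p (hPP hp)
  set lx := Real.log c.x with hlx
  have hlx0 : 0 < lx := Real.log_pos (by linarith)
  have hκ := kappa_01 c W
  set κ := c.κ W with hκd
  set a : ℝ := κ * r * lx with ha
  have hr0 : 0 < r := by rw [hr]; norm_num
  have ha0 : 0 < a := mul_pos (mul_pos hκ.1 hr0) hlx0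
  set R : ℝ := (c.x : ℝ) ^ r with hR
  have hNlow : ∀ E : Finset ℕ, (∀ p ∈ E, p.Prime) → a * rt E ≤ Nz (P₁ \ E) R := by
    intro E hE
    have h1 := Nz_lowt c W r r (by omega) hr0.le le_rfl (by rw [hr]; norm_num) E hE
    calc a * rt E = c.κ W * rt E * (r * Real.log c.x) := by rw [ha, hκd, hlx]; ring
      _ ≤ _ := h1
  set N : ℝ := (1 + 1 / 10 ^ 7) * κ * ((r + 1 / 10 ^ 7) * lx) with hN
  have hNup : Nz P₁ R ≤ N := by
    have h1 := hX₁ c hc hx1 0 r r le_rfl zero_le_one (by rw [hr]; norm_num) hr0.le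
      (by rw [hr]; norm_num) ∅ (empty_subset _) (by
        rw [Real.rpow_zero]
        simp [pd])
    rw [sdiff_empty] at h1
    have h2 : rt (∅ : Finset ℕ) = 1 := by simp [rt]
    rw [h2, mul_one] at h1
    refine h1.trans (le_of_eq ?_)
    rw [hN, hκd, hlx]
    ring
  set u : ℝ := U1 P c.x L t₀ ^ 2 with hu
  have hu0 : 0 ≤ u := sq_nonneg _
  set V := Yg P₁ P₁ R i (Yg P P₁ R j (Zij c W L δ t₀ i j)) with hV
  set M : Finset (ℕ × Fin K) → ℝ := fun A =>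
    u / a ^ 2 * ∏ l, phi P c.x L t₀ R i j l (lb l A) with hM
  have hM0 : ∀ A, 0 ≤ M A := fun A => mul_nonneg (by positivity)
    (Finset.prod_nonneg fun l _ => phi_nn _ _ _ _ _ _ _ _ _)
  have hVM : ∀ B ∈ LS K P₁, |V B| ≤ M B := by
    intro B hB
    exact zb_V P P₁ hpr c.x L t₀ R u a ha0 i j hij _ (fun A hA =>
      ZZ_leU c.x L P t₀ δ i j hij hPpr A hA) hNlow B hB
  have hcv : ∀ A, |cv P₁ V A| ≤ M A * Real.exp (4 * K * (1 / D₀)) := by
    intro A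
    refine cv_bd2 P₁ hpr V A (M A) (hM0 A) (fun B hB hAB => ?_) (1 / D₀)
      (sum_dif D₀ hD1 P₁ fun p hp => (hprop p hp).2)
    refine (hVM B hB).trans ?_
    simp only [hM]
    rw [mul_assoc]
    exact mul_le_mul_of_nonneg_left (zb_mono P P₁ hpr c.x L t₀ R i j A B hB hAB) (by positivity)
  have hgo : ∀ p ∈ P₁, 0 ≤ go p ∧ K * go p ≤ 1 := by
    intro p hp
    have h1 := hprop p hp
    have h2 : (K : ℝ) ≤ p := by exact_mod_cast (by omega : K ≤ p)
    have h3 : (0 : ℝ) < p := by exact_mod_cast h1.1.pos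
    unfold go
    refine ⟨by positivity, ?_⟩
    rw [mul_one_div, div_le_one h3]
    exact h2
  have hgogg : ∀ p ∈ P₁, go p ≤ gg p := by
    intro p hp
    have h2 : (2 : ℝ) ≤ p := by exact_mod_cast (hpr p hp).two_le
    unfold go gg
    exact one_div_le_one_div_of_le (by linarith) (by linarith)
  have h4g : ∀ p ∈ P₁, 4 * gg p ≤ 1 := by
    intro p hp
    have h1 := hprop p hp
    have h2 : (5 : ℝ) ≤ p := by
      have : 5 ≤ p := by omega
      exact_mod_cast this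
    unfold gg
    rw [mul_one_div, div_le_one (by linarith)]
    linarith
  set T := Real.exp (4 * K * (1 / D₀)) with hT
  have hT0 : 0 < T := Real.exp_pos _
  have hsum := zb_sum D₀ hD1 P P₁ hPP hprop h4g c.x L t₀ R i j hij N hNup
  have step1 : Ex go P₁ (fun ω => (ff gg P₁ V ω) ^ 2) ≤
      ∑ A ∈ LS K P₁, (M A * T) ^ 2 * ga gg A := by
    have h1 : (fun ω => (ff gg P₁ V ω) ^ 2) = fun ω => (ff go P₁ (cv P₁ V) ω) ^ 2 := by
      funext ω
      rw [ff_cv]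
    rw [h1]
    refine (Ex_upper go P₁ hgo (cv P₁ V)).trans (Finset.sum_le_sum fun A hA => ?_)
    have hAp := (mem_LS.1 hA).1
    have h2 : cv P₁ V A ^ 2 ≤ (M A * T) ^ 2 := by
      rw [← sq_abs]
      exact pow_le_pow_left₀ (abs_nonneg _) (hcv A) 2
    have h3 : 0 ≤ ga go A := Finset.prod_nonneg fun b hb => (hgo _ (hAp b hb)).1
    have h5 : ga go A ≤ ga gg A := Finset.prod_le_prod (fun b hb => (hgo _ (hAp b hb)).1)
      fun b hb => hgogg _ (hAp b hb)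
    exact mul_le_mul h2 h5 h3 (sq_nonneg _)
  have step2 : ∑ A ∈ LS K P₁, (M A * T) ^ 2 * ga gg A ≤
      (u / a ^ 2) ^ 2 * T ^ 2 * (Real.exp (16 / D₀) ^ K * (U2 P c.x L t₀ ^ (K - 2) * N ^ 2)) := by
    have h1 : ∑ A ∈ LS K P₁, (M A * T) ^ 2 * ga gg A = (u / a ^ 2) ^ 2 * T ^ 2 *
        ∑ A ∈ LS K P₁, (∏ l, phi P c.x L t₀ R i j l (lb l A)) ^ 2 * ga gg A := by
      rw [Finset.mul_sum]
      refine Finset.sum_congr rfl fun A _ => ?_
      simp only [hM]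
      ring
    rw [h1]
    exact mul_le_mul_of_nonneg_left hsum (by positivity)
  have hexp : T ^ 2 * Real.exp (16 / D₀) ^ K ≤ 1 + 1 / 10 ^ 5 := by
    have h1 : T ^ 2 * Real.exp (16 / D₀) ^ K = Real.exp (24 * K / D₀) := by
      rw [hT, ← Real.exp_nat_mul, ← Real.exp_nat_mul, ← Real.exp_add]
      congr 1
      push_cast
      ring
    have h2 : 24 * (K : ℝ) / D₀ ≤ 1 / 10 ^ 6 := by
      rw [div_le_iff₀ hD0]
      linarith [hDK1, hKr]
    have h3 : 0 ≤ 24 * (K : ℝ) / D₀ := by positivity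
    have h4 := Real.abs_exp_sub_one_le (x := 24 * (K : ℝ) / D₀) (by
      rw [abs_of_nonneg h3]
      linarith)
    rw [abs_of_nonneg h3] at h4
    have h5 := le_abs_self (Real.exp (24 * (K : ℝ) / D₀) - 1)
    rw [h1]
    linarith
  have hNa : N ^ 2 ≤ (1 + 1 / 10 ^ 5) * a ^ 2 := by
    have h1 : N = (1 + 1 / 10 ^ 7) * ((r + 1 / 10 ^ 7) / r) * a := by
      rw [hN, ha]
      field_simp
    rw [h1, mul_pow]
    refine mul_le_mul_of_nonneg_right ?_ (sq_nonneg _)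
    rw [hr]
    norm_num
  have hU20 : 0 ≤ U2 P c.x L t₀ := by
    unfold U2
    refine Finset.sum_nonneg fun S hS => mul_nonneg (zb_HH fun p hp => ?_) (sq_nonneg _)
    exact hPpr p (mem_powerset.1 hS hp)
  have hfin := zb_num u a T (Real.exp (16 / D₀) ^ K) N (U2 P c.x L t₀ ^ (K - 2)) ha0 hexp hNa
    (pow_nonneg hU20 _)
  refine ((step1.trans step2).trans hfin).trans (le_of_eq ?_)
  rw [hu, ← pow_mul]

end Pool.Agent.Work.MP_70e905_nt.M3
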