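import Pool.Agent.Work.MP_70e905_nt.M3.Defs
import Pool.Agent.Work.MP_70e905_nt.M3.ZA
import Pool.Agent.Work.MP_70e905_nt.M3.ZB
import Pool.Agent.Work.MP_70e905_nt.M3.N3
import Pool.Agent.Work.MP_70e905_nt.MT.A2
import Pool.Agent.Work.MP_70e905_nt.MT.A4
import Pool.Agent.Work.MP_70e905_nt.MT.A7
import Pool.Agent.Work.MP_70e905_nt.MT.E1
import Pool.Agent.Work.MP_70e905_nt.MT.C2
import Pool.Agent.Work.MP_70e905_nt.MT.C6
import Pool.Agent.Work.MP_70e905_nt.MT.F0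
import Pool.Agent.Work.MP_70e905_nt.MT.M0

set_option autoImplicit false

/-!
MODULE ZC (switching: upper bound for `n_j` divisible by `q` up to `x^0.7818`), size M-L. See MT/A7 (`E1_up`).

`r = 109/2000`, `P₁ = Q c W r`, `V` = the double majorant of ZB, `P₀ = c.P₀ W s`. For `z` in the set `n_i` is prime and `> x^r`, so no prime
of `P₁` divides it, and no prime of `P₁ ⊆ Q c W (1/8)` divides `n_j`: `om P₁ z` has no label `i, j`, and `ff gg P₁ V (om P₁ z) = FF z`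
(`ff_Yg` of MT/E1 twice, `Yg_zero`, `ZZ_zero`). So the sum is at most the sum over ALL `z ∈ c.dom W` with `q ∣ n_j` for all `q ∈ Q'`
of `1[cop] (ff gg P₁ V (om P₁ z))²`, `ff gg P₁ V = ff go P₁ (cv P₁ V)`. `sq_leg` (MT/A4) with `P := P₁`, `P₀ := P₀ ∪ Q'` (disjoint from
`P₁`: the `q` are `> x^(1/8)`, those of `P₀` are `bd`) and `e E = eJ (Jr a b) (E ∩ P₀-part) * 1[Q'-part of E = Q' × {j}]`: then
`∑_E e E 1[E ⊆ om (P₀ ∪ Q')] = 1[cop] 1[all q ∣ n_j]` (`leg`), `∑_E e E ga go E = c.q1 W s / pd Q'` (`sum_eJ`). So the sum is at most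
`(x / W) (q1 / pd Q') Ex + #(LS K (P₀ ∪ Q')) (∑ |la|)²`.
MAIN TERM: `dbl` (ZB), `q1 = q2 rt P₀` (`q1_eq`), `rW W * rt P₀ ≤ (1 + 10^-5) κ` (`kappa_ge` of MT/F0), `x / W = X * rW W * lx`:
`≤ (1 + 10^-4)(1 + 10^-5) (2000/109)² Hm / pd Q' ≤ 336.8 Hm / pd Q'` (`(2000/109)² = 336.67...`).
ERROR: `#LS = (K+1)^(#P₀ + #Q') ≤ (K+1)^4 x^(s log(K+1)) ≤ (K+1)^4 x^(10^-5)`; `∑ |la| ≤ (lx)^(O(K)) x^(δ + 2 r)` (`la_cnt`, supports
`Yg_supp`, `ZZ_supp`, `cv ≠ 0 → ` some `V C ≠ 0`, `C ⊇ A`); total `x^(0.218 + 2 δ + 10^-5) (lx)^(O(K)) ≤ x^0.2181` while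
`Hm / pd Q' ≥ x^(1 - 0.7818) / (lx)^(K+5)` (`q_ge`, `kappa_01`, `U_ge_one`).
-/

namespace Pool.Agent.Work.MP_70e905_nt.M3

open Finset Pool.Agent.Work.MP_73869e_nt.TH Pool.Agent.Work.MP_70e905_nt.MT

private theorem zc_union {K : ℕ} (P₀ Q' : Finset ℕ) (E : Finset (ℕ × Fin K))
    (hE : ∀ c ∈ E, c.1 ∈ P₀ ∪ Q') :
    E.filter (fun c => c.1 ∈ P₀) ∪ E.filter (fun c => c.1 ∈ Q') = E := by
  ext c
  rw [mem_union, mem_filter, mem_filter]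
  constructor
  · rintro (h | h)
    · exact h.1
    · exact h.1
  · intro h
    rcases mem_union.1 (hE c h) with h' | h'
    · exact Or.inl ⟨h, h'⟩
    · exact Or.inr ⟨h, h'⟩

private theorem zc_disj {K : ℕ} (P₀ Q' : Finset ℕ) (hdis : Disjoint P₀ Q')
    (E : Finset (ℕ × Fin K)) :
    Disjoint (E.filter (fun c => c.1 ∈ P₀)) (E.filter (fun c => c.1 ∈ Q')) := by
  rw [disjoint_left]
  intro c hc hc'
  rw [mem_filter] at hc hc'
  exact disjoint_left.1 hdis hc.2 hc'.2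

private theorem zc_split {K : ℕ} (P₀ Q' : Finset ℕ) (hdis : Disjoint P₀ Q')
    (B : Finset (ℕ × Fin K)) (hB : B ∈ LS K Q') (F : Finset (ℕ × Fin K) → ℝ) :
    ∑ E ∈ LS K (P₀ ∪ Q'), (if E.filter (fun c => c.1 ∈ Q') = B then
      F (E.filter (fun c => c.1 ∈ P₀)) else 0) = ∑ E₀ ∈ LS K P₀, F E₀ := by
  have hB' := mem_LS.1 hB
  rw [← Finset.sum_filter]
  refine Finset.sum_nbij' (fun E => E.filter (fun c => c.1 ∈ P₀)) (fun E₀ => E₀ ∪ B) ?_ ?_ ?_ ?_ ?_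
  · intro E hE
    have h1 := mem_LS.1 (mem_filter.1 hE).1
    rw [mem_LS]
    exact ⟨fun c hc => (mem_filter.1 hc).2,
      fun c hc d hd => h1.2 c (mem_filter.1 hc).1 d (mem_filter.1 hd).1⟩
  · intro E₀ hE₀
    have h0 := mem_LS.1 hE₀
    rw [mem_filter, mem_LS]
    refine ⟨⟨fun c hc => ?_, fun c hc d hd hcd => ?_⟩, ?_⟩
    · rcases mem_union.1 hc with h | h
      · exact mem_union_left _ (h0.1 c h)
      · exact mem_union_right _ (hB'.1 c h)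
    · rcases mem_union.1 hc with h | h <;> rcases mem_union.1 hd with h' | h'
      · exact h0.2 c h d h' hcd
      · exact absurd (hB'.1 d h') (disjoint_left.1 hdis (hcd ▸ h0.1 c h))
      · exact absurd (hB'.1 c h) (disjoint_left.1 hdis (hcd ▸ h0.1 d h'))
      · exact hB'.2 c h d h' hcd
    · ext c
      rw [mem_filter, mem_union]
      constructor
      · rintro ⟨h | h, h'⟩
        · exact absurd h' (disjoint_left.1 hdis (h0.1 c h))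
        · exact h
      · intro h
        exact ⟨Or.inr h, hB'.1 c h⟩
  · intro E hE
    rw [mem_filter] at hE
    have h1 := mem_LS.1 hE.1
    change E.filter (fun c => c.1 ∈ P₀) ∪ B = E
    rw [← hE.2]
    exact zc_union P₀ Q' E h1.1
  · intro E₀ hE₀
    have h0 := mem_LS.1 hE₀
    change (E₀ ∪ B).filter (fun c => c.1 ∈ P₀) = E₀
    ext c
    rw [mem_filter, mem_union]
    constructor
    · rintro ⟨h | h, h'⟩
      · exact h
      · exact absurd (hB'.1 c h) (disjoint_left.1 hdis h')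
    · intro h
      exact ⟨Or.inl h, h0.1 c h⟩
  · intro E _
    rfl

private theorem zc_BLS {K : ℕ} (Q' : Finset ℕ) (j : Fin K) :
    Q'.image (fun q => (q, j)) ∈ LS K Q' := by
  rw [mem_LS]
  constructor
  · intro c hc
    obtain ⟨q, hq, rfl⟩ := mem_image.1 hc
    exact hq
  · intro c hc d hd hcd
    obtain ⟨q, _, rfl⟩ := mem_image.1 hc
    obtain ⟨q', _, rfl⟩ := mem_image.1 hd
    simp only at hcd
    rw [hcd]

/-- the coefficients: Legendre on `P₀`, all primes of `Q'` with the label `j` -/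
private noncomputable def ee {K : ℕ} (P₀ Q' : Finset ℕ) (a b : Fin K → ℕ) (j : Fin K)
    (E : Finset (ℕ × Fin K)) : ℝ :=
  if E.filter (fun c => c.1 ∈ Q') = Q'.image (fun q => (q, j)) then
    eJ (Jr a b) (E.filter (fun c => c.1 ∈ P₀)) else 0

private theorem ee_le {K : ℕ} (P₀ Q' : Finset ℕ) (a b : Fin K → ℕ) (j : Fin K)
    (E : Finset (ℕ × Fin K)) : |ee P₀ Q' a b j E| ≤ 1 := by
  unfold ee
  split_ifs
  · exact eJ_le _ _
  · rw [abs_zero]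
    exact zero_le_one

private theorem ee_leg {K : ℕ} (P₀ Q' : Finset ℕ) (hdis : Disjoint P₀ Q') (a b : Fin K → ℕ)
    (hP : ∀ r ∈ P₀, r.Prime ∧ ∀ j, ¬ r ∣ a j) (j : Fin K) (z : ℕ) :
    ∑ E ∈ LS K (P₀ ∪ Q'), ee P₀ Q' a b j E *
      (if E ⊆ om (P₀ ∪ Q') a b z then 1 else 0) =
    (if cop P₀ a b z then 1 else 0) * (if ∀ q ∈ Q', q ∣ a j * z + b j then 1 else 0) := by
  have h1 : ∀ E ∈ LS K (P₀ ∪ Q'), ee P₀ Q' a b j E *
      (if E ⊆ om (P₀ ∪ Q') a b z then (1 : ℝ) else 0) =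
      if E.filter (fun c => c.1 ∈ Q') = Q'.image (fun q => (q, j)) then
        (fun E₀ => eJ (Jr a b) E₀ * (if E₀ ⊆ om P₀ a b z then 1 else 0) *
          (if ∀ q ∈ Q', q ∣ a j * z + b j then 1 else 0)) (E.filter (fun c => c.1 ∈ P₀)) else 0 := by
    intro E hE
    have hE' := mem_LS.1 hE
    unfold ee
    by_cases h : E.filter (fun c => c.1 ∈ Q') = Q'.image (fun q => (q, j))
    · rw [if_pos h, if_pos h]
      beta_reduce
      rw [mul_assoc]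
      congr 1
      have h2 : (E ⊆ om (P₀ ∪ Q') a b z) ↔ (E.filter (fun c => c.1 ∈ P₀) ⊆ om P₀ a b z ∧
          ∀ q ∈ Q', q ∣ a j * z + b j) := by
        rw [sub_om (P₀ ∪ Q') a b z E hE'.1,
          sub_om P₀ a b z _ (fun c hc => (mem_filter.1 hc).2)]
        constructor
        · intro h3
          refine ⟨fun c hc => h3 c (mem_filter.1 hc).1, fun q hq => ?_⟩
          have h4 : (q, j) ∈ E.filter (fun c => c.1 ∈ Q') := by
            rw [h]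
            exact mem_image_of_mem _ hq
          exact h3 (q, j) (mem_filter.1 h4).1
        · rintro ⟨h3, h4⟩ c hc
          rcases mem_union.1 (hE'.1 c hc) with h5 | h5
          · exact h3 c (mem_filter.2 ⟨hc, h5⟩)
          · have h6 : c ∈ E.filter (fun c => c.1 ∈ Q') := mem_filter.2 ⟨hc, h5⟩
            rw [h] at h6
            obtain ⟨q, hq, rfl⟩ := mem_image.1 h6
            exact h4 q hq
      by_cases h3 : E.filter (fun c => c.1 ∈ P₀) ⊆ om P₀ a b z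
      · by_cases h4 : ∀ q ∈ Q', q ∣ a j * z + b j
        · rw [if_pos (h2.2 ⟨h3, h4⟩), if_pos h3, if_pos h4, one_mul]
        · rw [if_neg (fun h5 => h4 (h2.1 h5).2), if_neg h4, mul_zero]
      · rw [if_neg (fun h5 => h3 (h2.1 h5).1), if_neg h3, zero_mul]
    · rw [if_neg h, if_neg h, zero_mul]
  refine (Finset.sum_congr rfl h1).trans ?_
  refine (zc_split P₀ Q' hdis _ (zc_BLS Q' j) (fun E₀ => eJ (Jr a b) E₀ *
    (if E₀ ⊆ om P₀ a b z then 1 else 0) *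
      (if ∀ q ∈ Q', q ∣ a j * z + b j then 1 else 0))).trans ?_
  rw [leg P₀ a b hP z, Finset.sum_mul]

private theorem ee_ga {K : ℕ} (P₀ Q' : Finset ℕ) (hdis : Disjoint P₀ Q') (a b : Fin K → ℕ)
    (j : Fin K) :
    ∑ E ∈ LS K (P₀ ∪ Q'), ee P₀ Q' a b j E * ga go E =
      (∏ r ∈ P₀, (1 - #(Jr a b r) * go r)) * (1 / ((pd Q' : ℕ) : ℝ)) := by
  have hB : ga go (Q'.image (fun q => ((q, j) : ℕ × Fin K))) = 1 / ((pd Q' : ℕ) : ℝ) := by
    unfold ga go pd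
    rw [Finset.prod_image (fun x _ y _ h => (Prod.mk.injEq _ _ _ _ ▸ h).1)]
    rw [Nat.cast_prod, Finset.prod_div_distrib, Finset.prod_const_one]
  have h1 : ∀ E ∈ LS K (P₀ ∪ Q'), ee P₀ Q' a b j E * ga go E =
      if E.filter (fun c => c.1 ∈ Q') = Q'.image (fun q => (q, j)) then
        (fun E₀ => eJ (Jr a b) E₀ * ga go E₀ * (1 / ((pd Q' : ℕ) : ℝ)))
          (E.filter (fun c => c.1 ∈ P₀)) else 0 := by
    intro E hE
    have hE' := mem_LS.1 hE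
    unfold ee
    by_cases h : E.filter (fun c => c.1 ∈ Q') = Q'.image (fun q => (q, j))
    · rw [if_pos h, if_pos h]
      beta_reduce
      rw [mul_assoc]
      congr 1
      rw [← hB, ← h]
      unfold ga
      rw [← Finset.prod_union (zc_disj P₀ Q' hdis E), zc_union P₀ Q' E hE'.1]
    · rw [if_neg h, if_neg h, zero_mul]
  refine (Finset.sum_congr rfl h1).trans ?_
  refine (zc_split P₀ Q' hdis _ (zc_BLS Q' j) (fun E₀ => eJ (Jr a b) E₀ * ga go E₀ *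
    (1 / ((pd Q' : ℕ) : ℝ)))).trans ?_
  rw [← Finset.sum_mul, sum_eJ]

/-- the double majorant -/
private noncomputable def VV {K : ℕ} (c : Cfg K) (W L : ℕ) (δ t₀ : ℝ) (i j : Fin K) :
    Finset (ℕ × Fin K) → ℝ :=
  Yg (Q c W (109 / 2000)) (Q c W (109 / 2000)) ((c.x : ℝ) ^ (109 / 2000 : ℝ)) i
    (Yg (c.P W δ) (Q c W (109 / 2000)) ((c.x : ℝ) ^ (109 / 2000 : ℝ)) j
      (Zij c W L δ t₀ i j))

private theorem zc_sub {K : ℕ} (c : Cfg K) (W : ℕ) (hx : 1 ≤ c.x) (t u : ℝ) (htu : t ≤ u) :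
    Q c W t ⊆ Q c W u := by
  have hx1 : (1 : ℝ) ≤ c.x := by exact_mod_cast hx
  intro p hp
  unfold Q Cfg.PZ at hp ⊢
  rw [mem_filter, mem_Icc] at hp ⊢
  exact ⟨⟨hp.1.1, hp.1.2.trans
    (Nat.floor_le_floor (Real.rpow_le_rpow_of_exponent_le hx1 htu))⟩, hp.2⟩

private theorem zc_FF {K : ℕ} (c : Cfg K) (D₀ W A₀ C L : ℕ) (δ t₀ : ℝ) (hc : c.Ok D₀ W A₀ C)
    (hx : 1 ≤ c.x) (hδ : δ ≤ 109 / 2000) (i j : Fin K) (hij : i ≠ j) (z : ℕ) (hz : c.x < z)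
    (hpi : (c.a i * z + c.b i).Prime) (hj : ∀ p ∈ Q c W (1 / 8), ¬ p ∣ c.a j * z + c.b j) :
    ff gg (Q c W (109 / 2000)) (VV c W L δ t₀ i j) (om (Q c W (109 / 2000)) c.a c.b z) =
      FF c W L δ t₀ i j z := by
  have hx1 : (1 : ℝ) ≤ c.x := by exact_mod_cast hx
  have hP1 : ∀ p ∈ Q c W (109 / 2000), p.Prime := fun p hp =>
    (Q_props c D₀ W A₀ C _ hc hx p hp).1
  have hR : (1 : ℝ) ≤ (c.x : ℝ) ^ (109 / 2000 : ℝ) := Real.one_le_rpow hx1 (by norm_num)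
  have hPP : c.P W δ ⊆ Q c W (109 / 2000) := zc_sub c W hx δ (109 / 2000) hδ
  have hle : ∀ p ∈ Q c W (109 / 2000), p ≤ c.x := by
    intro p hp
    have h1 := ((Q_mem c D₀ W A₀ C _ hc hx p).1 hp).1
    have h2 : (c.x : ℝ) ^ (109 / 2000 : ℝ) ≤ (c.x : ℝ) ^ (1 : ℝ) :=
      Real.rpow_le_rpow_of_exponent_le hx1 (by norm_num)
    rw [Real.rpow_one] at h2
    exact_mod_cast h1.trans h2
  have hi : ∀ p ∈ Q c W (109 / 2000), ¬ p ∣ c.a i * z + c.b i := by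
    intro p hp hdiv
    have h1 : p = c.a i * z + c.b i := (Nat.prime_dvd_prime_iff_eq (hP1 p hp) hpi).1 hdiv
    have h2 := hle p hp
    have h3 : z ≤ c.a i * z := Nat.le_mul_of_pos_left z (hc.ha i)
    omega
  have hjj : ∀ p ∈ Q c W (109 / 2000), ¬ p ∣ c.a j * z + c.b j := fun p hp =>
    hj p (zc_sub c W hx (109 / 2000) (1 / 8) (by norm_num) hp)
  have hom : ∀ k : Fin K, (∀ p ∈ Q c W (109 / 2000), ¬ p ∣ c.a k * z + c.b k) →
      ∀ d ∈ om (Q c W (109 / 2000)) c.a c.b z, d.2 ≠ k := by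
    intro k hk d hd hdk
    have h1 := (mem_om _ _ _ _ _).1 hd
    rw [hdk] at h1
    exact hk d.1 h1.1 h1.2
  have hZi : ∀ A : Finset (ℕ × Fin K), (∃ d ∈ A, d.2 = i) → Zij c W L δ t₀ i j A = 0 := by
    rintro A ⟨d, hd, hd2⟩
    exact ZZ_zero _ i j _ A ⟨d, hd, Or.inl hd2⟩
  have hZj : ∀ A : Finset (ℕ × Fin K), (∃ d ∈ A, d.2 = j) → Zij c W L δ t₀ i j A = 0 := by
    rintro A ⟨d, hd, hd2⟩
    exact ZZ_zero _ i j _ A ⟨d, hd, Or.inr hd2⟩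
  unfold VV
  rw [ff_Yg (Q c W (109 / 2000)) (Q c W (109 / 2000)) (Finset.Subset.refl _) hP1 _ hR i _
    (fun A hA => Yg_zero _ _ _ i j hij _ hZi A hA) c.a c.b z (hom i hi)]
  rw [ff_Yg (c.P W δ) (Q c W (109 / 2000)) hPP hP1 _ hR j _ hZj c.a c.b z (hom j hjj)]
  rfl

private theorem VV_bd {K : ℕ} (c : Cfg K) (D₀ W A₀ C L : ℕ) (δ t₀ : ℝ) (hc : c.Ok D₀ W A₀ C)
    (hx : 1 ≤ c.x) (i j : Fin K) (hij : i ≠ j) (A : Finset (ℕ × Fin K)) :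
    |VV c W L δ t₀ i j A| ≤ 2 ^ K * U1 (c.P W δ) c.x L t₀ ^ 2 := by
  have hx1 : (1 : ℝ) ≤ c.x := by exact_mod_cast hx
  have hP1 : ∀ p ∈ Q c W (109 / 2000), p.Prime := fun p hp =>
    (Q_props c D₀ W A₀ C _ hc hx p hp).1
  have hP : ∀ p ∈ c.P W δ, p.Prime := fun p hp => (Q_props c D₀ W A₀ C δ hc hx p hp).1
  have hR : (1 : ℝ) ≤ (c.x : ℝ) ^ (109 / 2000 : ℝ) := Real.one_le_rpow hx1 (by norm_num)
  have hZ : ∀ A : Finset (ℕ × Fin K), |Zij c W L δ t₀ i j A| ≤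
      2 ^ K * U1 (c.P W δ) c.x L t₀ ^ 2 := by
    intro A
    by_cases h : ∃ d ∈ A, d.2 = i ∨ d.2 = j
    · have h0 : Zij c W L δ t₀ i j A = 0 := ZZ_zero _ i j _ A h
      rw [h0, abs_zero]
      positivity
    · push Not at h
      have h1 := ZZ_leU c.x L (c.P W δ) t₀ δ i j hij hP A h
      have h2 : |Zij c W L δ t₀ i j A| = Zij c W L δ t₀ i j A := abs_of_nonneg h1.1
      rw [h2]
      refine h1.2.trans ?_
      refine mul_le_mul_of_nonneg_right ?_ (sq_nonneg _)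
      calc ∏ l ∈ (univ.erase i).erase j, yy c.x L t₀ (pd (lb l A))
          ≤ ∏ _l ∈ (univ.erase i).erase j, (2 : ℝ) :=
            Finset.prod_le_prod (fun l _ => (yy_bd c.x L t₀ _).1)
              (fun l _ => (yy_bd c.x L t₀ _).2)
        _ = 2 ^ #((univ.erase i).erase j) := by rw [Finset.prod_const]
        _ ≤ 2 ^ K := by
            refine pow_le_pow_right₀ (by norm_num) ?_
            have h3 := card_le_univ ((univ.erase i).erase j)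
            rwa [Fintype.card_fin] at h3
  unfold VV
  exact Yg_bd _ _ hP1 _ hR i _ _ (fun A => Yg_bd _ _ hP1 _ hR j _ _ hZ A) A

private theorem VV_supp {K : ℕ} (c : Cfg K) (D₀ W A₀ C L : ℕ) (δ t₀ : ℝ) (hc : c.Ok D₀ W A₀ C)
    (hx : 1 ≤ c.x) (i j : Fin K) (A : Finset (ℕ × Fin K)) (hA : VV c W L δ t₀ i j A ≠ 0) :
    (pr A : ℝ) ≤ (c.x : ℝ) ^ (δ + 109 / 1000) := by
  have hx0 : (0 : ℝ) < c.x := by exact_mod_cast hx
  have hP : ∀ p ∈ c.P W δ, p.Prime := fun p hp => (Q_props c D₀ W A₀ C δ hc hx p hp).1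
  have h1 : ∀ A, Yg (c.P W δ) (Q c W (109 / 2000)) ((c.x : ℝ) ^ (109 / 2000 : ℝ)) j
      (Zij c W L δ t₀ i j) A ≠ 0 → (pr A : ℝ) ≤ (c.x : ℝ) ^ δ * (c.x : ℝ) ^ (109 / 2000 : ℝ) :=
    fun A hA => Yg_supp _ _ _ ((c.x : ℝ) ^ δ) (by positivity) j _
      (fun A hA => ZZ_supp c.x L (c.P W δ) t₀ δ i j hP A hA) A hA
  have h2 := Yg_supp _ _ _ _ (by positivity) i _ h1 A hA
  rw [← Real.rpow_add hx0, ← Real.rpow_add hx0] at h2
  refine h2.trans (le_of_eq ?_)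
  congr 1
  ring

private theorem zc_la (K L D₀ : ℕ) (δ t₀ : ℝ) (hK : 2 ≤ K) (hδ : δ ≤ 109 / 2000)
    (hD : 4 * K ≤ D₀) (W A₀ C : ℕ) : ∃ D : ℝ, 0 < D ∧ ∀ c : Cfg K, c.Ok D₀ W A₀ C → 3 ≤ c.x →
    ∀ i j : Fin K, i ≠ j →
      ∑ B ∈ LS K (Q c W (109 / 2000)),
        |la go (Q c W (109 / 2000)) (cv (Q c W (109 / 2000)) (VV c W L δ t₀ i j)) B| ≤
        D * Real.log c.x ^ (2 * K + 2) * (c.x : ℝ) ^ (δ + 109 / 1000) := by
  obtain ⟨C₁, hC₁, hU⟩ := U1_up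
  obtain ⟨C₂, hC₂, hgg⟩ := sum_gg
  have hC₁0 : 0 < C₁ := by linarith
  have hC₂0 : 0 < C₂ := by linarith
  refine ⟨2 ^ K * C₁ ^ 2 * Real.exp 1 * C₂ ^ (2 * K), by positivity, fun c hc hx3 i j hij => ?_⟩
  have hx : 1 ≤ c.x := by omega
  have hx1 : (1 : ℝ) ≤ c.x := by exact_mod_cast hx
  have hx0 : (0 : ℝ) < c.x := by linarith
  have hl0 : 0 ≤ Real.log c.x := Real.log_nonneg hx1
  set P₁ := Q c W (109 / 2000) with hP₁
  have hQ : ∀ p ∈ P₁, p.Prime ∧ D₀ < p ∧ ¬ p ∣ W ∧ (∀ i, ¬ p ∣ c.a i) ∧ ¬ bd c.a c.b p :=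
    fun p hp => Q_props c D₀ W A₀ C _ hc hx p hp
  have hP1 : ∀ p ∈ P₁, p.Prime := fun p hp => (hQ p hp).1
  have hle : ∀ p ∈ P₁, p ≤ c.x := by
    intro p hp
    have h1 := ((Q_mem c D₀ W A₀ C _ hc hx p).1 hp).1
    have h2 : (c.x : ℝ) ^ (109 / 2000 : ℝ) ≤ (c.x : ℝ) ^ (1 : ℝ) :=
      Real.rpow_le_rpow_of_exponent_le hx1 (by norm_num)
    rw [Real.rpow_one] at h2
    exact_mod_cast h1.trans h2
  have hPle : ∀ p ∈ c.P W δ, p.Prime ∧ p ≤ c.x := fun p hp =>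
    ⟨(Q_props c D₀ W A₀ C δ hc hx p hp).1, hle p (zc_sub c W hx δ _ hδ hp)⟩
  have hU1 : U1 (c.P W δ) c.x L t₀ ≤ C₁ * Real.log c.x := hU c.x (by omega) _ hPle L t₀
  have hU1n : 0 ≤ U1 (c.P W δ) c.x L t₀ := by
    unfold U1
    refine Finset.sum_nonneg fun S hS => mul_nonneg ?_ (yy_bd c.x L t₀ _).1
    unfold HH
    refine Finset.prod_nonneg fun p hp => ?_
    have h1 := (hPle p (mem_powerset.1 hS hp)).1.two_le
    have h2 : (2 : ℝ) ≤ p := by exact_mod_cast h1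
    unfold gg
    apply div_nonneg zero_le_one
    linarith
  have hD1 : 1 ≤ D₀ := by omega
  have hD0 : (0 : ℝ) < D₀ := by exact_mod_cast (by omega : 0 < D₀)
  have hexp : Real.exp (4 * K * (1 / (D₀ : ℝ))) ≤ Real.exp 1 := by
    rw [Real.exp_le_exp, mul_one_div, div_le_one hD0]
    exact_mod_cast hD
  have hcvb : ∀ A, |cv P₁ (VV c W L δ t₀ i j) A| ≤
      2 ^ K * (C₁ * Real.log c.x) ^ 2 * Real.exp 1 := by
    intro A
    have h1 := cv_bd2 P₁ hP1 (VV c W L δ t₀ i j) A (2 ^ K * U1 (c.P W δ) c.x L t₀ ^ 2)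
      (by positivity) (fun B _ _ => by
        refine (VV_bd c D₀ W A₀ C L δ t₀ hc hx i j hij B).trans ?_
        refine le_mul_of_one_le_right (by positivity) ?_
        exact one_le_pow₀ (by norm_num)) (1 / D₀) (sum_dif D₀ hD1 P₁ (fun p hp => (hQ p hp).2.1))
    refine h1.trans ?_
    refine mul_le_mul ?_ hexp (Real.exp_pos _).le (by positivity)
    refine mul_le_mul_of_nonneg_left ?_ (by positivity)
    exact pow_le_pow_left₀ hU1n hU1 2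
  have hcvs : ∀ A, cv P₁ (VV c W L δ t₀ i j) A ≠ 0 →
      (pr A : ℝ) ≤ (c.x : ℝ) ^ (δ + 109 / 1000) := by
    intro A hA
    unfold cv at hA
    obtain ⟨C', hC', hne⟩ := Finset.exists_ne_zero_of_sum_ne_zero hA
    rw [mem_filter] at hC'
    have h1 : VV c W L δ t₀ i j C' ≠ 0 := fun h => hne (by rw [h, zero_mul])
    have h2 := VV_supp c D₀ W A₀ C L δ t₀ hc hx i j C' h1
    have h3 : pr A ≤ pr C' := by
      unfold pr
      refine Finset.prod_le_prod_of_subset_of_one_le' hC'.2 fun a ha _ => ?_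
      exact (hP1 _ ((mem_LS.1 hC'.1).1 a ha)).one_le
    have h3' : (pr A : ℝ) ≤ pr C' := by exact_mod_cast h3
    exact h3'.trans h2
  have hgo : ∑ p ∈ P₁, go p ≤ ∑ p ∈ P₁, gg p := by
    refine Finset.sum_le_sum fun p hp => ?_
    have h1 : (2 : ℝ) ≤ p := by exact_mod_cast (hP1 p hp).two_le
    unfold go gg
    exact one_div_le_one_div_of_le (by linarith) (by linarith)
  have hexpS : Real.exp (∑ p ∈ P₁, gg p) ≤ C₂ * Real.log c.x :=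
    hgg c.x (by omega) P₁ fun p hp => ⟨hP1 p hp, hle p hp⟩
  have hexpKS : Real.exp (K * ∑ p ∈ P₁, gg p) ≤ (C₂ * Real.log c.x) ^ K := by
    rw [Real.exp_nat_mul]
    exact pow_le_pow_left₀ (Real.exp_pos _).le hexpS K
  have hla := la_cnt go P₁ (fun p hp => (hP1 p hp).one_le)
    (fun p _ => by unfold go; positivity) (∑ p ∈ P₁, gg p) (∑ p ∈ P₁, gg p)
    ((c.x : ℝ) ^ (δ + 109 / 1000)) (by positivity) hgo hgo _ _ hcvb hcvs
  refine hla.trans ?_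
  have h1 : 2 ^ K * (C₁ * Real.log c.x) ^ 2 * Real.exp 1 * Real.exp (K * ∑ p ∈ P₁, gg p) ≤
      2 ^ K * (C₁ * Real.log c.x) ^ 2 * Real.exp 1 * (C₂ * Real.log c.x) ^ K :=
    mul_le_mul_of_nonneg_left hexpKS (by positivity)
  have h2 : (c.x : ℝ) ^ (δ + 109 / 1000) * Real.exp (K * ∑ p ∈ P₁, gg p) ≤
      (c.x : ℝ) ^ (δ + 109 / 1000) * (C₂ * Real.log c.x) ^ K :=
    mul_le_mul_of_nonneg_left hexpKS (by positivity)
  refine (mul_le_mul h1 h2 (by positivity) (by positivity)).trans (le_of_eq ?_)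
  ring

private theorem zc_asym (D : ℝ) (n : ℕ) : ∃ X₀ : ℕ, ∀ x : ℕ, X₀ ≤ x →
    D * Real.log x ^ n ≤ (x : ℝ) ^ (1 / 10 ^ 4 : ℝ) := by
  have h := isLittleO_log_rpow_rpow_atTop (n : ℝ) (show (0 : ℝ) < 1 / 10 ^ 4 by norm_num)
  have h2 := (h.comp_tendsto tendsto_natCast_atTop_atTop).def
    (show (0 : ℝ) < 1 / (|D| + 1) by positivity)
  obtain ⟨X₀, hX₀⟩ := Filter.eventually_atTop.1 h2
  refine ⟨max X₀ 1, fun x hx => ?_⟩
  have h3 := hX₀ x ((le_max_left _ _).trans hx)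
  simp only [Function.comp_apply] at h3
  have hl0 : 0 ≤ Real.log x := Real.log_natCast_nonneg x
  rw [Real.rpow_natCast, Real.norm_of_nonneg (by positivity), Real.norm_of_nonneg (by positivity)]
    at h3
  have hD1 : 0 < |D| + 1 := by positivity
  have h4 : (|D| + 1) * Real.log x ^ n ≤ (x : ℝ) ^ (1 / 10 ^ 4 : ℝ) := by
    have := mul_le_mul_of_nonneg_left h3 hD1.le
    rw [← mul_assoc, mul_one_div_cancel hD1.ne', one_mul] at this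
    exact this
  refine le_trans ?_ h4
  refine mul_le_mul_of_nonneg_right ?_ (by positivity)
  have := le_abs_self D
  linarith

private theorem zc_card (K : ℕ) (s : ℝ) (hs : 0 < s) (hsK : s * Real.log (K + 1) ≤ 1 / 10 ^ 5)
    (c : Cfg K) (W : ℕ) (hx : 1 ≤ c.x) (Q' : Finset ℕ) (hQ' : #Q' ≤ 4) :
    (#(LS K (c.P₀ W s ∪ Q')) : ℝ) ≤ ((K : ℝ) + 1) ^ 4 * (c.x : ℝ) ^ (1 / 10 ^ 5 : ℝ) := by
  have hx1 : (1 : ℝ) ≤ c.x := by exact_mod_cast hx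
  have hx0 : (0 : ℝ) < c.x := by linarith
  have hl0 : 0 ≤ Real.log c.x := Real.log_nonneg hx1
  have hK1 : (1 : ℝ) ≤ (K : ℝ) + 1 := by
    have : (0 : ℝ) ≤ K := Nat.cast_nonneg K
    linarith
  have h1 : (#(LS K (c.P₀ W s ∪ Q')) : ℝ) = ((K : ℝ) + 1) ^ #(c.P₀ W s ∪ Q') := by
    have h2 := sum_LS_prod (K := K) (c.P₀ W s ∪ Q') (fun _ => (1 : ℝ))
    simp only [Finset.prod_const_one, Finset.sum_const, Finset.card_univ, Fintype.card_fin,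
      nsmul_eq_mul, mul_one, Finset.prod_const] at h2
    rw [h2, add_comm]
  have h3 : (#(c.P₀ W s) : ℝ) ≤ s * Real.log c.x := by
    have h4 : #(c.P₀ W s) ≤ ⌊s * Real.log c.x⌋₊ := by
      calc #(c.P₀ W s) ≤ #(Icc 1 ⌊s * Real.log c.x⌋₊) := by
            unfold Cfg.P₀
            exact Finset.card_filter_le _ _
        _ = ⌊s * Real.log c.x⌋₊ := by rw [Nat.card_Icc]; omega
    calc (#(c.P₀ W s) : ℝ) ≤ (⌊s * Real.log c.x⌋₊ : ℝ) := by exact_mod_cast h4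
      _ ≤ s * Real.log c.x := Nat.floor_le (by positivity)
  have hlK : 0 ≤ Real.log ((K : ℝ) + 1) := Real.log_nonneg hK1
  have h5 : ((K : ℝ) + 1) ^ #(c.P₀ W s) ≤ (c.x : ℝ) ^ (1 / 10 ^ 5 : ℝ) := by
    rw [← Real.rpow_natCast, Real.rpow_def_of_pos (by linarith),
      Real.rpow_def_of_pos hx0, Real.exp_le_exp]
    calc Real.log ((K : ℝ) + 1) * #(c.P₀ W s) ≤ Real.log ((K : ℝ) + 1) * (s * Real.log c.x) :=
          mul_le_mul_of_nonneg_left h3 hlK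
      _ = (s * Real.log ((K : ℝ) + 1)) * Real.log c.x := by ring
      _ ≤ (1 / 10 ^ 5) * Real.log c.x := mul_le_mul_of_nonneg_right hsK hl0
      _ = Real.log c.x * (1 / 10 ^ 5) := mul_comm _ _
  rw [h1]
  calc ((K : ℝ) + 1) ^ #(c.P₀ W s ∪ Q') ≤ ((K : ℝ) + 1) ^ (4 + #(c.P₀ W s)) := by
        refine pow_le_pow_right₀ hK1 ?_
        have := card_union_le (c.P₀ W s) Q'
        omega
    _ = ((K : ℝ) + 1) ^ 4 * ((K : ℝ) + 1) ^ #(c.P₀ W s) := pow_add _ _ _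
    _ ≤ _ := mul_le_mul_of_nonneg_left h5 (by positivity)

private theorem zc_low {K : ℕ} (c : Cfg K) (D₀ W A₀ C L : ℕ) (s δ t₀ : ℝ) (hc : c.Ok D₀ W A₀ C)
    (hx : 1 ≤ c.x) (hl1 : 1 ≤ Real.log c.x) (hL : 1 ≤ L) (ht₀ : 0 ≤ t₀)
    (hq : 1 / (Real.log c.x) ^ (K + 1) ≤ c.q2 W s) :
    (c.x : ℝ) / (W * Real.log c.x ^ (K + 3)) ≤ Hm c W L s δ t₀ := by
  have hW0 : (0 : ℝ) < W := by exact_mod_cast hc.hW
  have hl0 : 0 < Real.log c.x := by linarith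
  have hP : ∀ p ∈ c.P W δ, p.Prime := fun p hp => (Q_props c D₀ W A₀ C δ hc hx p hp).1
  obtain ⟨hU1, hU2⟩ := U_ge_one (c.P W δ) hP c.x L t₀ hx hL ht₀
  obtain ⟨hκ0, hκ1⟩ := kappa_01 c W
  have hX : (c.x : ℝ) / (W * Real.log c.x) ≤ c.X W := by
    unfold Cfg.X
    have h1 : 0 < Nat.totient W := Nat.totient_pos.2 hc.hW
    have h2 : (0 : ℝ) < Nat.totient W := by exact_mod_cast h1
    have h3 : ((Nat.totient W : ℕ) : ℝ) ≤ W := by exact_mod_cast Nat.totient_le W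
    refine div_le_div_of_nonneg_left (Nat.cast_nonneg _) (by positivity) ?_
    exact mul_le_mul_of_nonneg_right h3 hl0.le
  have hX0 : 0 ≤ (c.x : ℝ) / (W * Real.log c.x) := by positivity
  have hUm : 1 / Real.log c.x ≤ Um c W L δ t₀ := by
    unfold Um
    have h1 : 1 ≤ U1 (c.P W δ) c.x L t₀ ^ 4 * U2 (c.P W δ) c.x L t₀ ^ (K - 2) :=
      one_le_mul_of_one_le_of_one_le (one_le_pow₀ hU1) (one_le_pow₀ hU2)
    rw [div_le_div_iff₀ hl0 (by positivity)]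
    have h2 : c.κ W * Real.log c.x ≤ 1 * Real.log c.x := mul_le_mul_of_nonneg_right hκ1 hl0.le
    have h3 : 1 * Real.log c.x ≤ U1 (c.P W δ) c.x L t₀ ^ 4 * U2 (c.P W δ) c.x L t₀ ^ (K - 2) *
      Real.log c.x := mul_le_mul_of_nonneg_right h1 hl0.le
    linarith
  have h4 : (0 : ℝ) ≤ 1 / (Real.log c.x) ^ (K + 1) := by positivity
  have h5 : (0 : ℝ) ≤ 1 / Real.log c.x := by positivity
  unfold Hm
  calc (c.x : ℝ) / (W * Real.log c.x ^ (K + 3)) =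
      (c.x : ℝ) / (W * Real.log c.x) * (1 / (Real.log c.x) ^ (K + 1)) * (1 / Real.log c.x) := by
        rw [div_mul_div_comm, div_mul_div_comm]
        congr 1
        · ring
        · ring
    _ ≤ c.X W * c.q2 W s * Um c W L δ t₀ :=
        mul_le_mul (mul_le_mul hX hq h4 (hX0.trans hX)) hUm h5
          (mul_nonneg (hX0.trans hX) (h4.trans hq))

private theorem zc_num (A κ l q : ℝ) (hκ : 0 < κ) (hl : 0 < l) (hA : 0 ≤ A) (ρ : ℝ)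
    (hρ : ρ ≤ (1 + 1 / 10 ^ 5) * κ) (hq : 0 ≤ q) :
    l * (q * ρ) * ((1 + 1 / 10 ^ 4) * (A / (κ * (109 / 2000) * l) ^ 2)) ≤
      3368 / 10 * (q * (A / (κ * l))) := by
  have h1 : l * (q * ρ) * ((1 + 1 / 10 ^ 4) * (A / (κ * (109 / 2000) * l) ^ 2)) =
      (1 + 1 / 10 ^ 4) * (2000 / 109) ^ 2 * ρ * (q * (A / (κ * κ * l))) := by
    field_simp
  have h2 : 3368 / 10 * (q * (A / (κ * l))) = 3368 / 10 * κ * (q * (A / (κ * κ * l))) := by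
    field_simp
  rw [h1, h2]
  refine mul_le_mul_of_nonneg_right ?_ (by positivity)
  calc (1 + 1 / 10 ^ 4) * (2000 / 109) ^ 2 * ρ ≤
      (1 + 1 / 10 ^ 4) * (2000 / 109) ^ 2 * ((1 + 1 / 10 ^ 5) * κ) :=
        mul_le_mul_of_nonneg_left hρ (by norm_num)
    _ = ((1 + 1 / 10 ^ 4) * (2000 / 109) ^ 2 * (1 + 1 / 10 ^ 5)) * κ := by ring
    _ ≤ 3368 / 10 * κ := mul_le_mul_of_nonneg_right (by norm_num) hκ.le

private theorem zc_main {K : ℕ} (c : Cfg K) (D₀ W A₀ C L : ℕ) (s δ t₀ : ℝ)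
    (hc : c.Ok D₀ W A₀ C) (hl0 : 0 < Real.log c.x)
    (hU2 : 0 ≤ U2 (c.P W δ) c.x L t₀)
    (hκ : rW W * rt (c.P₀ W s) ≤ (1 + 1 / 10 ^ 5) * c.κ W) (hq2 : 0 ≤ c.q2 W s)
    (hq1 : 0 ≤ c.q1 W s) (E : ℝ)
    (hE : E ≤ (1 + 1 / 10 ^ 4) * (U1 (c.P W δ) c.x L t₀ ^ 4 *
      U2 (c.P W δ) c.x L t₀ ^ (K - 2) / (c.κ W * (109 / 2000) * Real.log c.x) ^ 2)) :
    (c.x : ℝ) / W * c.q1 W s * E ≤ 3368 / 10 * Hm c W L s δ t₀ := by
  have hW0 : (0 : ℝ) < W := by exact_mod_cast hc.hW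
  have hφ : (0 : ℝ) < Nat.totient W := by exact_mod_cast Nat.totient_pos.2 hc.hW
  obtain ⟨hκ0, -⟩ := kappa_01 c W
  have hX : (c.x : ℝ) / W = c.X W * (Real.log c.x * rW W) := by
    unfold Cfg.X rW
    field_simp
  have hX0 : 0 ≤ c.X W := by
    unfold Cfg.X
    positivity
  have h1 : (c.x : ℝ) / W * c.q1 W s * E ≤ (c.x : ℝ) / W * c.q1 W s *
      ((1 + 1 / 10 ^ 4) * (U1 (c.P W δ) c.x L t₀ ^ 4 *
      U2 (c.P W δ) c.x L t₀ ^ (K - 2) / (c.κ W * (109 / 2000) * Real.log c.x) ^ 2)) :=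
    mul_le_mul_of_nonneg_left hE (by positivity)
  refine h1.trans ?_
  have h2 := zc_num (U1 (c.P W δ) c.x L t₀ ^ 4 * U2 (c.P W δ) c.x L t₀ ^ (K - 2)) (c.κ W)
    (Real.log c.x) (c.q2 W s) hκ0 hl0 (by positivity) (rW W * rt (c.P₀ W s)) hκ hq2
  have h3 := mul_le_mul_of_nonneg_left h2 hX0
  rw [hX, q1_eq]
  unfold Hm Um
  refine le_trans (le_of_eq ?_) (h3.trans (le_of_eq ?_))
  · ring
  · ring

private theorem zc_err (K : ℕ) (δ D w : ℝ) (hδ : δ ≤ 1 / 10 ^ 6) (hw : 0 < w)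
    (x : ℕ) (hx : 1 ≤ x) (hl : 0 < Real.log x)
    (has : 5 * ((K : ℝ) + 1) ^ 4 * D ^ 2 * w * Real.log x ^ (5 * K + 7) ≤
      (x : ℝ) ^ (1 / 10 ^ 4 : ℝ))
    (n S p H : ℝ) (hn : n ≤ ((K : ℝ) + 1) ^ 4 * (x : ℝ) ^ (1 / 10 ^ 5 : ℝ))
    (hS0 : 0 ≤ S) (hS : S ≤ D * Real.log x ^ (2 * K + 2) * (x : ℝ) ^ (δ + 109 / 1000))
    (hp0 : 0 < p) (hp : p ≤ (x : ℝ) ^ (7818 / 10000 : ℝ))
    (hH : (x : ℝ) / (w * Real.log x ^ (K + 3)) ≤ H) :
    n * S ^ 2 ≤ 1 / 5 * (H / p) := by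
  have hx1 : (1 : ℝ) ≤ x := by exact_mod_cast hx
  have hx0 : (0 : ℝ) < x := by linarith
  have h1 : n * S ^ 2 ≤ (((K : ℝ) + 1) ^ 4 * (x : ℝ) ^ (1 / 10 ^ 5 : ℝ)) *
      (D * Real.log x ^ (2 * K + 2) * (x : ℝ) ^ (δ + 109 / 1000)) ^ 2 :=
    mul_le_mul hn (pow_le_pow_left₀ hS0 hS 2) (sq_nonneg _) (by positivity)
  have h2 : (x : ℝ) / (w * Real.log x ^ (K + 3)) / p ≤ H / p :=
    div_le_div_of_nonneg_right hH hp0.le
  refine h1.trans (le_trans ?_ (mul_le_mul_of_nonneg_left h2 (by norm_num)))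
  rw [div_div, mul_div_assoc', le_div_iff₀ (by positivity)]
  have e1 : ((x : ℝ) ^ (δ + 109 / 1000)) ^ 2 = (x : ℝ) ^ (2 * (δ + 109 / 1000)) := by
    rw [← Real.rpow_natCast, ← Real.rpow_mul hx0.le]
    congr 1
    push_cast
    ring
  have e2 : (((K : ℝ) + 1) ^ 4 * (x : ℝ) ^ (1 / 10 ^ 5 : ℝ)) *
      (D * Real.log x ^ (2 * K + 2) * (x : ℝ) ^ (δ + 109 / 1000)) ^ 2 *
        (w * Real.log x ^ (K + 3) * p) =
      1 / 5 * ((5 * ((K : ℝ) + 1) ^ 4 * D ^ 2 * w * Real.log x ^ (5 * K + 7)) *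
        ((x : ℝ) ^ (1 / 10 ^ 5 : ℝ) * (x : ℝ) ^ (2 * (δ + 109 / 1000))) * p) := by
    rw [← e1]
    have h9 : Real.log x ^ (5 * K + 7) =
        (Real.log x ^ (2 * K + 2)) ^ 2 * Real.log x ^ (K + 3) := by
      rw [← pow_mul, ← pow_add]
      congr 1
      ring
    rw [h9]
    ring
  rw [e2]
  refine mul_le_mul_of_nonneg_left ?_ (by norm_num)
  calc (5 * ((K : ℝ) + 1) ^ 4 * D ^ 2 * w * Real.log x ^ (5 * K + 7)) *
        ((x : ℝ) ^ (1 / 10 ^ 5 : ℝ) * (x : ℝ) ^ (2 * (δ + 109 / 1000))) * p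
      ≤ (x : ℝ) ^ (1 / 10 ^ 4 : ℝ) *
        ((x : ℝ) ^ (1 / 10 ^ 5 : ℝ) * (x : ℝ) ^ (2 * (δ + 109 / 1000))) *
          (x : ℝ) ^ (7818 / 10000 : ℝ) :=
        mul_le_mul (mul_le_mul_of_nonneg_right has (by positivity)) hp hp0.le (by positivity)
    _ = (x : ℝ) ^ (1 / 10 ^ 4 + (1 / 10 ^ 5 + 2 * (δ + 109 / 1000)) + 7818 / 10000 : ℝ) := by
        rw [Real.rpow_add hx0, Real.rpow_add hx0, Real.rpow_add hx0]
    _ ≤ (x : ℝ) ^ (1 : ℝ) := by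
        refine Real.rpow_le_rpow_of_exponent_le hx1 ?_
        linarith
    _ = x := Real.rpow_one _

theorem sw (K L D₀ : ℕ) (s δ t₀ e : ℝ) (hpar : Par K L D₀ s δ t₀ e) (he6 : e ≤ 1 / 10 ^ 6)
    (W A₀ C : ℕ) : ∃ X₀ : ℕ, ∀ c : Cfg K, c.Ok D₀ W A₀ C → X₀ ≤ c.x → ∀ i j : Fin K, i ≠ j →
      ∀ Q' : Finset ℕ, Q' ⊆ Q c W 1 → (∀ q ∈ Q', (c.x : ℝ) ^ (1 / 8 : ℝ) < (q : ℝ)) → #Q' ≤ 4 →
      ((pd Q' : ℕ) : ℝ) ≤ (c.x : ℝ) ^ (7818 / 10000 : ℝ) →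
      ∑ z ∈ (dp c W i).filter (fun z => (∀ q ∈ Q', q ∣ c.a j * z + c.b j) ∧
          ∀ p ∈ Q c W (1 / 8), ¬ p ∣ c.a j * z + c.b j),
        W2 c W L s δ t₀ i j z ≤ 337 / pd Q' * Hm c W L s δ t₀ := by
  have hK2 : (2 : ℝ) ≤ K := by exact_mod_cast hpar.hK
  have hDR : 4 * (K : ℝ) ≤ D₀ := by
    have h1 : (0 : ℝ) ≤ D₀ := Nat.cast_nonneg _
    have h2 : e * D₀ ≤ 1 * D₀ := mul_le_mul_of_nonneg_right (by linarith) h1
    have h3 := hpar.hD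
    have h4 : 4 * (K : ℝ) ≤ 16 * (K : ℝ) ^ 2 := by nlinarith
    linarith
  have hD4 : 4 * K ≤ D₀ := by exact_mod_cast hDR
  have hKD : K < D₀ := by
    have := hpar.hK
    omega
  have hδ6 : δ ≤ 1 / 10 ^ 6 := hpar.hδe.trans he6
  have hδ2 : δ ≤ 109 / 2000 := hδ6.trans (by norm_num)
  obtain ⟨X₁, hX₁⟩ := dbl K L D₀ s δ t₀ e hpar he6 W A₀ C
  obtain ⟨D, hD, hla⟩ := zc_la K L D₀ δ t₀ hpar.hK hδ2 hD4 W A₀ C
  obtain ⟨X₂, hX₂⟩ := q_ge K s hpar.hs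
  obtain ⟨X₃, hX₃⟩ := kappa_ge K s (1 / 10 ^ 5) hpar.hs (by norm_num) D₀ W A₀ C
  obtain ⟨X₄, hX₄⟩ := zc_asym (5 * ((K : ℝ) + 1) ^ 4 * D ^ 2 * W) (5 * K + 7)
  refine ⟨max (max X₁ X₂) (max (max X₃ X₄) 3), fun c hc hx i j hij Q' hQ1 hQ8 hQ4 hQp => ?_⟩
  have hxX₁ : X₁ ≤ c.x := (le_max_left _ _).trans ((le_max_left _ _).trans hx)
  have hxX₂ : X₂ ≤ c.x := (le_max_right _ _).trans ((le_max_left _ _).trans hx)
  have hx' : max (max X₃ X₄) 3 ≤ c.x := (le_max_right _ _).trans hx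
  have hxX₃ : X₃ ≤ c.x := (le_max_left _ _).trans ((le_max_left _ _).trans hx')
  have hxX₄ : X₄ ≤ c.x := (le_max_right _ _).trans ((le_max_left _ _).trans hx')
  have hx3 : 3 ≤ c.x := (le_max_right _ _).trans hx'
  have hx1 : 1 ≤ c.x := by omega
  have hxr3 : (3 : ℝ) ≤ c.x := by exact_mod_cast hx3
  have hxr0 : (0 : ℝ) < c.x := by linarith
  have hl1 : 1 ≤ Real.log c.x := by
    rw [Real.le_log_iff_exp_le hxr0]
    have := Real.exp_one_lt_d9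
    linarith
  have hl0 : 0 < Real.log c.x := by linarith
  have hW0 : (0 : ℝ) < W := by exact_mod_cast hc.hW
  -- the primes
  have hQP : ∀ q ∈ Q', q.Prime ∧ D₀ < q ∧ ¬ q ∣ W ∧ (∀ i, ¬ q ∣ c.a i) ∧ ¬ bd c.a c.b q :=
    fun q hq => Q_props c D₀ W A₀ C 1 hc hx1 q (hQ1 hq)
  have hP1P : ∀ p ∈ Q c W (109 / 2000), p.Prime ∧ D₀ < p ∧ ¬ p ∣ W ∧ (∀ i, ¬ p ∣ c.a i) ∧
      ¬ bd c.a c.b p := fun p hp => Q_props c D₀ W A₀ C _ hc hx1 p hp
  have hP0P : ∀ p ∈ c.P₀ W s, p.Prime ∧ ¬ p ∣ W ∧ (∀ i, ¬ p ∣ c.a i) ∧ bd c.a c.b p := by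
    intro p hp
    unfold Cfg.P₀ at hp
    rw [mem_filter] at hp
    exact ⟨hp.2.1, hp.2.2.1, fun i hi => hp.2.2.1 (hc.haW i p hp.2.1 hi), hp.2.2.2⟩
  have hdis0 : Disjoint (c.P₀ W s) Q' := by
    rw [disjoint_left]
    intro p hp hp'
    exact (hQP p hp').2.2.2.2 (hP0P p hp).2.2.2
  have hdis1 : Disjoint (Q c W (109 / 2000)) (c.P₀ W s ∪ Q') := by
    rw [disjoint_left]
    intro p hp hp'
    rcases mem_union.1 hp' with h | h
    · exact (hP1P p hp).2.2.2.2 (hP0P p h).2.2.2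
    · have h1 := hQ8 p h
      have h2 := ((Q_mem c D₀ W A₀ C _ hc hx1 p).1 hp).1
      have h3 : (c.x : ℝ) ^ (109 / 2000 : ℝ) ≤ (c.x : ℝ) ^ (1 / 8 : ℝ) :=
        Real.rpow_le_rpow_of_exponent_le (by linarith) (by norm_num)
      linarith
  have hpd : (0 : ℝ) < ((pd Q' : ℕ) : ℝ) := by
    have : 0 < pd Q' := by
      unfold pd
      exact Finset.prod_pos fun q hq => (hQP q hq).1.pos
    exact_mod_cast this
  -- the sum over all integers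
  have hstep1 : ∑ z ∈ (dp c W i).filter (fun z => (∀ q ∈ Q', q ∣ c.a j * z + c.b j) ∧
          ∀ p ∈ Q c W (1 / 8), ¬ p ∣ c.a j * z + c.b j), W2 c W L s δ t₀ i j z ≤
      ∑ z ∈ (Ioc c.x (2 * c.x)).filter (fun z => z % W = c.v % W),
        (∑ E ∈ LS K (c.P₀ W s ∪ Q'), ee (c.P₀ W s) Q' c.a c.b j E *
          (if E ⊆ om (c.P₀ W s ∪ Q') c.a c.b z then 1 else 0)) *
        (ff go (Q c W (109 / 2000)) (cv (Q c W (109 / 2000)) (VV c W L δ t₀ i j))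
          (om (Q c W (109 / 2000)) c.a c.b z)) ^ 2 := by
    have hleg := ee_leg (c.P₀ W s) Q' hdis0 c.a c.b
      (fun r hr => ⟨(hP0P r hr).1, (hP0P r hr).2.2.1⟩) j
    have hsub : (dp c W i).filter (fun z => (∀ q ∈ Q', q ∣ c.a j * z + c.b j) ∧
          ∀ p ∈ Q c W (1 / 8), ¬ p ∣ c.a j * z + c.b j) ⊆
        (Ioc c.x (2 * c.x)).filter (fun z => z % W = c.v % W) := by
      refine (Finset.filter_subset _ _).trans ?_
      unfold dp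
      exact Finset.filter_subset _ _
    refine le_trans (Finset.sum_le_sum fun z hz => ?_)
      (Finset.sum_le_sum_of_subset_of_nonneg hsub fun z _ _ => ?_)
    · rw [mem_filter] at hz
      obtain ⟨hz1, hz2, hz3⟩ := hz
      have hz4 := hsub (mem_filter.2 ⟨hz1, hz2, hz3⟩)
      unfold dp at hz1
      rw [mem_filter] at hz1 hz4
      rw [hleg z, if_pos hz2, mul_one, ← ff_cv,
        zc_FF c D₀ W A₀ C L δ t₀ hc hx1 hδ2 i j hij z (mem_Ioc.1 hz4.1).1 hz1.2 hz3]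
      unfold W2
      split_ifs
      · rw [one_mul]
      · rw [zero_mul]
    · rw [hleg z]
      refine mul_nonneg (mul_nonneg ?_ ?_) (sq_nonneg _)
      · split_ifs
        · exact zero_le_one
        · exact le_refl _
      · split_ifs
        · exact zero_le_one
        · exact le_refl _
  have hmain := sq_leg c.x W c.v hc.hW (Q c W (109 / 2000)) (c.P₀ W s ∪ Q') hdis1 c.a c.b (by
    intro p hp
    rcases mem_union.1 hp with h | h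
    · exact ⟨(hP1P p h).1, (hP1P p h).2.2.1, (hP1P p h).2.2.2.1⟩
    · rcases mem_union.1 h with h | h
      · exact ⟨(hP0P p h).1, (hP0P p h).2.1, (hP0P p h).2.2.1⟩
      · exact ⟨(hQP p h).1, (hQP p h).2.2.1, (hQP p h).2.2.2.1⟩)
    (fun p hp => (hP1P p hp).2.2.2.2) (ee (c.P₀ W s) Q' c.a c.b j)
    (cv (Q c W (109 / 2000)) (VV c W L δ t₀ i j)) (fun E => ee_le _ _ _ _ _ E)
  have hup := (abs_le.1 hmain).2
  rw [ee_ga (c.P₀ W s) Q' hdis0 c.a c.b j] at hup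
  have hq1e : ∏ r ∈ c.P₀ W s, (1 - #(Jr c.a c.b r) * go r) = c.q1 W s := rfl
  rw [hq1e] at hup
  obtain ⟨hq1, hq12⟩ := hX₂ c D₀ W A₀ C hc hKD hxX₂
  have hq0 : (0 : ℝ) ≤ 1 / Real.log c.x ^ (K + 1) := by positivity
  have hP : ∀ p ∈ c.P W δ, p.Prime := fun p hp => (Q_props c D₀ W A₀ C δ hc hx1 p hp).1
  obtain ⟨hU1, hU2⟩ := U_ge_one (c.P W δ) hP c.x L t₀ hx1 hpar.hL hpar.ht₀.le
  have hEx : Ex go (Q c W (109 / 2000)) (fun ω => (ff go (Q c W (109 / 2000))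
      (cv (Q c W (109 / 2000)) (VV c W L δ t₀ i j)) ω) ^ 2) ≤
      (1 + 1 / 10 ^ 4) * (U1 (c.P W δ) c.x L t₀ ^ 4 * U2 (c.P W δ) c.x L t₀ ^ (K - 2) /
        (c.κ W * (109 / 2000) * Real.log c.x) ^ 2) := by
    have h1 := hX₁ c hc hxX₁ i j hij
    have h2 : (fun ω => (ff gg (Q c W (109 / 2000))
          (Yg (Q c W (109 / 2000)) (Q c W (109 / 2000)) ((c.x : ℝ) ^ (109 / 2000 : ℝ)) i
            (Yg (c.P W δ) (Q c W (109 / 2000)) ((c.x : ℝ) ^ (109 / 2000 : ℝ)) j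
              (Zij c W L δ t₀ i j))) ω) ^ 2) =
        fun ω => (ff go (Q c W (109 / 2000))
          (cv (Q c W (109 / 2000)) (VV c W L δ t₀ i j)) ω) ^ 2 := by
      funext ω
      rw [ff_cv]
      rfl
    rw [h2] at h1
    exact h1
  have hm := zc_main c D₀ W A₀ C L s δ t₀ hc hl0 (by linarith) (hX₃ c hc hxX₃)
    (hq0.trans (hq1.trans hq12)) (hq0.trans hq1) _ hEx
  have hlow := zc_low c D₀ W A₀ C L s δ t₀ hc hx1 hl1 hpar.hL hpar.ht₀.le (hq1.trans hq12)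
  have herr := zc_err K δ D W hδ6 hW0 c.x hx1 hl0 (hX₄ c.x hxX₄) _ _ _ _
    (zc_card K s hpar.hs hpar.hsK c W hx1 Q' hQ4)
    (Finset.sum_nonneg fun _ _ => abs_nonneg _) (hla c hc hx3 i j hij) hpd hQp hlow
  have hm2 : (c.x : ℝ) / W * (c.q1 W s * (1 / ((pd Q' : ℕ) : ℝ))) *
      Ex go (Q c W (109 / 2000)) (fun ω => (ff go (Q c W (109 / 2000))
      (cv (Q c W (109 / 2000)) (VV c W L δ t₀ i j)) ω) ^ 2) ≤
      3368 / 10 * (Hm c W L s δ t₀ / ((pd Q' : ℕ) : ℝ)) := by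
    have h1 := div_le_div_of_nonneg_right hm hpd.le
    refine le_trans (le_of_eq ?_) (h1.trans (le_of_eq ?_))
    · ring
    · ring
  have hfin : 337 / ((pd Q' : ℕ) : ℝ) * Hm c W L s δ t₀ =
      3368 / 10 * (Hm c W L s δ t₀ / ((pd Q' : ℕ) : ℝ)) +
      1 / 5 * (Hm c W L s δ t₀ / ((pd Q' : ℕ) : ℝ)) := by ring
  rw [hfin]
  linarith

end Pool.Agent.Work.MP_70e905_nt.M3
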