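import Mathlib
import Pool.Agent.Work.MP_70e905_nt.M3.Defs

set_option autoImplicit false

/-!
MODULE ZD (when does the Selberg weight vanish), size M. Mathlib only, finite combinatorics.

Let `k = #T ≥ 1`. `1 - ∑ (1 - 4 α) = 1 - k + 4 ∑ α`, so `|∑ α - (k-1)/4| < 1/(2·10^6)`. `k = 1`: `T = {p}`, `α p < 10^-6`,
impossible. `k = 2`: the other element `q` has `α q ≤ 1/4 + 10^-6 - 1/8` (first case). `k = 3, 4`: the second, third case (order the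
elements of `T.erase p`). `k = 5`: `q₁ < q₂ < q₃ < q₄` the elements of `T.erase p`: `α q₁ + α q₂ + α q₃ = ∑ α - α p - α q₄ ≥ 1 - 10^-6 -
(1/8 + 1/2000) - 1/4` and `α q₁ + α q₂ + 2 α q₃ ≤ α q₁ + ... + α q₄ = ∑ α - α p ≤ 1 + 10^-6 - 1/8`. `k ≥ 6`: `∑ α ≥ 5/4 - 10^-6 > 1 + 10^-6`,
impossible. (`Finset.orderEmbOfFin` or repeated `max'`/`min'` for the enumeration.)
-/

namespace Pool.Agent.Work.MP_70e905_nt.M3

open Finset Pool.Agent.Work.MP_73869e_nt.TH Pool.Agent.Work.MP_70e905_nt.MT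

private theorem zd_enum (U : Finset ℕ) (n : ℕ) (h : #U = n) : ∃ f : Fin n → ℕ,
    StrictMono f ∧ (∀ i, f i ∈ U) ∧ ∀ α : ℕ → ℝ, ∑ q ∈ U, α q = ∑ i, α (f i) := by
  refine ⟨U.orderEmbOfFin h, (U.orderEmbOfFin h).strictMono, fun i => U.orderEmbOfFin_mem h i,
    fun α => ?_⟩
  have h1 : univ.image (U.orderEmbOfFin h) = U := U.image_orderEmbOfFin_univ h
  conv_lhs => rw [← h1]
  rw [Finset.sum_image]
  intro a _ b _ hab
  exact (U.orderEmbOfFin h).injective hab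

theorem exc_comb (T : Finset ℕ) (p : ℕ) (hp : p ∈ T) (α : ℕ → ℝ)
    (hα : ∀ q ∈ T, 1 / 8 ≤ α q ∧ α q ≤ 1 / 4) (hpa : α p ≤ 1 / 8 + 1 / 2000)
    (hmono : ∀ q ∈ T, ∀ q' ∈ T, q < q' → α q ≤ α q') (hsum : ∑ q ∈ T, α q ≤ 1 + 1 / 10 ^ 6)
    (hlam : |1 - ∑ q ∈ T, (1 - 4 * α q)| < 2 / 10 ^ 6) :
    (∃ q ∈ T.erase p, α q ≤ 1 / 8 + 2 / 10 ^ 6) ∨
    (∃ q₁ ∈ T.erase p, ∃ q₂ ∈ T.erase p, q₁ < q₂ ∧
      |α p + α q₁ + α q₂ - 1 / 2| ≤ 2 / 10 ^ 6) ∨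
    (∃ q₁ ∈ T.erase p, ∃ q₂ ∈ T.erase p, ∃ q₃ ∈ T.erase p, q₁ < q₂ ∧ q₂ < q₃ ∧
      |α p + α q₁ + α q₂ + α q₃ - 3 / 4| ≤ 2 / 10 ^ 6) ∨
    (∃ q₁ ∈ T.erase p, ∃ q₂ ∈ T.erase p, ∃ q₃ ∈ T.erase p, q₁ < q₂ ∧ q₂ < q₃ ∧
      5 / 8 - 1 / 2000 - 2 / 10 ^ 6 ≤ α q₁ + α q₂ + α q₃ ∧
      α q₁ + α q₂ + 2 * α q₃ ≤ 7 / 8 + 2 / 10 ^ 6) := by
  have hcard : #(T.erase p) + 1 = #T := Finset.card_erase_add_one hp
  have hs : ∑ q ∈ T, α q = ∑ q ∈ T.erase p, α q + α p := (Finset.sum_erase_add _ _ hp).symm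
  have hl : ∑ q ∈ T, (1 - 4 * α q) = (#T : ℝ) - 4 * ∑ q ∈ T, α q := by
    rw [Finset.sum_sub_distrib, ← Finset.mul_sum]
    simp
  have hk : (#T : ℝ) = #(T.erase p) + 1 := by exact_mod_cast hcard.symm
  rw [hl, hk, hs, abs_lt] at hlam
  rw [hs] at hsum
  have hmem : ∀ q ∈ T.erase p, q ∈ T := fun q hq => Finset.mem_of_mem_erase hq
  have hp1 := (hα p hp).1
  obtain ⟨n, hn⟩ : ∃ n, #(T.erase p) = n := ⟨_, rfl⟩
  rw [hn] at hlam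
  obtain ⟨f, hf, hfm, hfs⟩ := zd_enum (T.erase p) n hn
  rw [hfs α] at hlam hsum
  have hfα : ∀ i, 1 / 8 ≤ α (f i) ∧ α (f i) ≤ 1 / 4 := fun i => hα _ (hmem _ (hfm i))
  rcases n with _ | _ | _ | _ | _ | n
  · simp at hlam
    norm_num at hlam
    linarith [hlam.1, hlam.2]
  · left
    rw [Fin.sum_univ_one] at hlam hsum
    refine ⟨f 0, hfm 0, ?_⟩
    push_cast at hlam
    linarith [hlam.1, hlam.2]
  · right; left
    rw [Fin.sum_univ_two] at hlam hsum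
    push_cast at hlam
    refine ⟨f 0, hfm 0, f 1, hfm 1, hf (by decide), ?_⟩
    rw [abs_le]
    constructor <;> linarith [hlam.1, hlam.2]
  · right; right; left
    rw [Fin.sum_univ_three] at hlam hsum
    push_cast at hlam
    refine ⟨f 0, hfm 0, f 1, hfm 1, f 2, hfm 2, hf (by decide), hf (by decide), ?_⟩
    rw [abs_le]
    constructor <;> linarith [hlam.1, hlam.2]
  · right; right; right
    rw [Fin.sum_univ_four] at hlam hsum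
    push_cast at hlam
    refine ⟨f 0, hfm 0, f 1, hfm 1, f 2, hfm 2, hf (by decide), hf (by decide), ?_, ?_⟩
    · have := (hfα 3).2
      linarith [hlam.1, hlam.2]
    · have := hmono (f 2) (hmem _ (hfm 2)) (f 3) (hmem _ (hfm 3)) (hf (by decide))
      linarith [hlam.1, hlam.2]
  · exfalso
    push_cast at hlam
    have hn0 : (0 : ℝ) ≤ n := Nat.cast_nonneg n
    linarith [hlam.1, hlam.2]

end Pool.Agent.Work.MP_70e905_nt.M3
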