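import Pool.Agent.Work.MP_70e905_nt.M3.Defs
import Pool.Agent.Work.MP_70e905_nt.M3.MW

set_option autoImplicit false

/-!
MODULE ZE (thin sets of primes), size M.

`PP x` = primes in `(x^(1/8), x^(1/4)]`, `al x q = log q / log x`. A window `{q ∈ PP x : A - 2·10^-6 ≤ al x q ≤ A + 2·10^-6}` is contained in
`(x^s', x^t]` with `s' ≥ 1/8 - 10^-9` (or `s = max (1/8) (A - 2·10^-6)` minus a tiny number) and `t ≤ min (1/4) (A + 2·10^-6)`, `t/s ≤ 1 + 33·10^-6`,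
so its `gg` sum is at most `33.1·10^-6` for `x ≥ X₀` uniformly in `A` (`mert_win` with `ε = 10^-8`, `τ = 1/16`). Window for the first
statement: `log ((1/8 + 2·10^-6)/(1/8)) ≤ 16·10^-6`. The free variables: `∑_{q ∈ PP x} gg q ≤ log 2 + ε ≤ 0.694`.
Totals: `≤ 1.7·10^-5`, `≤ 0.694 · 33.1·10^-6 ≤ 2.4·10^-5`, `≤ 0.694² · 33.1·10^-6 ≤ 1.7·10^-5`.
-/

namespace Pool.Agent.Work.MP_70e905_nt.M3

open Finset Pool.Agent.Work.MP_73869e_nt.TH Pool.Agent.Work.MP_70e905_nt.MT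

/-- the primes in `(x^(1/8), x^(1/4)]` -/
noncomputable def PP (x : ℕ) : Finset ℕ :=
  (Icc 1 ⌊(x : ℝ) ^ (1 / 4 : ℝ)⌋₊).filter (fun p : ℕ => p.Prime ∧ (x : ℝ) ^ (1 / 8 : ℝ) < (p : ℝ))

/-- the exponent of `q` -/
noncomputable def al (x q : ℕ) : ℝ := Real.log q / Real.log x

private theorem ze_gg {p : ℕ} (hp : p.Prime) : 0 ≤ gg p := by
  have h2 : (2 : ℝ) ≤ p := by exact_mod_cast hp.two_le
  unfold gg
  exact div_nonneg zero_le_one (by linarith)

private theorem ze_PP {x q : ℕ} (h : q ∈ PP x) : q.Prime ∧ (x : ℝ) ^ (1 / 8 : ℝ) < (q : ℝ) ∧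
    (q : ℝ) ≤ (x : ℝ) ^ (1 / 4 : ℝ) := by
  unfold PP at h
  rw [mem_filter, mem_Icc] at h
  refine ⟨h.2.1, h.2.2, ?_⟩
  exact (Nat.le_floor_iff (by positivity)).1 h.1.2

/-- a subset of `PP x` with exponents in `(s, t]` -/
private theorem ze_win (ε : ℝ) (x : ℕ) (hx : 2 ≤ x) (s t : ℝ) (hst : 0 < s) (hle : s ≤ t)
    (hm : |∑ p ∈ (Icc 1 ⌊(x : ℝ) ^ t⌋₊).filter (fun p : ℕ => p.Prime ∧ (x : ℝ) ^ s < (p : ℝ)),
      gg p - Real.log (t / s)| ≤ ε) (T : Finset ℕ) (hT : ∀ q ∈ T, q ∈ PP x ∧ s < al x q ∧ al x q ≤ t) :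
    ∑ q ∈ T, gg q ≤ (t - s) / s + ε := by
  have hxr : (2 : ℝ) ≤ x := by exact_mod_cast hx
  have hx0 : (0 : ℝ) < x := by linarith
  have hlx : 0 < Real.log x := Real.log_pos (by linarith)
  have h1 : ∑ q ∈ T, gg q ≤
      ∑ p ∈ (Icc 1 ⌊(x : ℝ) ^ t⌋₊).filter (fun p : ℕ => p.Prime ∧ (x : ℝ) ^ s < (p : ℝ)), gg p := by
    refine Finset.sum_le_sum_of_subset_of_nonneg ?_ ?_
    · intro q hq
      obtain ⟨hq1, hq2, hq3⟩ := hT q hq
      have hp := (ze_PP hq1).1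
      have hq0 : (0 : ℝ) < q := by exact_mod_cast hp.pos
      rw [mem_filter, mem_Icc]
      unfold al at hq2 hq3
      rw [div_le_iff₀ hlx] at hq3
      rw [lt_div_iff₀ hlx] at hq2
      refine ⟨⟨hp.one_le, ?_⟩, hp, ?_⟩
      · refine Nat.le_floor ?_
        rw [← Real.log_le_log_iff hq0 (by positivity), Real.log_rpow hx0]
        exact hq3
      · rw [← Real.log_lt_log_iff (by positivity) hq0, Real.log_rpow hx0]
        exact hq2
    · intro p hp _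
      rw [mem_filter] at hp
      exact ze_gg hp.2.1
  have h2 : Real.log (t / s) ≤ (t - s) / s := by
    have h3 : 0 < t / s := div_pos (by linarith) hst
    have := Real.log_le_sub_one_of_pos h3
    rw [sub_div, div_self hst.ne']
    exact this
  have h3 := (abs_le.1 hm).2
  linarith

private theorem ze_al {x q : ℕ} (hx : 2 ≤ x) (h : q ∈ PP x) : 1 / 8 < al x q ∧ al x q ≤ 1 / 4 := by
  have hxr : (2 : ℝ) ≤ x := by exact_mod_cast hx
  have hx0 : (0 : ℝ) < x := by linarith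
  have hlx : 0 < Real.log x := Real.log_pos (by linarith)
  obtain ⟨h1, h2, h3⟩ := ze_PP h
  have hq0 : (0 : ℝ) < q := by exact_mod_cast h1.pos
  unfold al
  rw [div_le_iff₀ hlx, lt_div_iff₀ hlx, ← Real.log_rpow hx0, ← Real.log_rpow hx0]
  exact ⟨Real.log_lt_log (by positivity) h2, Real.log_le_log hq0 h3⟩

theorem thin : ∃ X₀ : ℕ, ∀ x : ℕ, X₀ ≤ x → ∀ a : ℝ,
    (∑ q ∈ (PP x).filter (fun q => al x q ≤ 1 / 8 + 2 / 10 ^ 6), gg q ≤ 2 / 10 ^ 5) ∧
    (∑ q₁ ∈ PP x, ∑ q₂ ∈ (PP x).filter (fun q₂ => |a + al x q₁ + al x q₂ - 1 / 2| ≤ 2 / 10 ^ 6),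
      gg q₁ * gg q₂ ≤ 3 / 10 ^ 5) ∧
    (∑ q₁ ∈ PP x, ∑ q₂ ∈ PP x,
      ∑ q₃ ∈ (PP x).filter (fun q₃ => |a + al x q₁ + al x q₂ + al x q₃ - 3 / 4| ≤ 2 / 10 ^ 6),
        gg q₁ * gg q₂ * gg q₃ ≤ 2 / 10 ^ 5) := by
  obtain ⟨X₀, hX⟩ := mert_win (1 / 10 ^ 8) (1 / 16) (by positivity) (by positivity)
  refine ⟨max X₀ 2, fun x hx a => ?_⟩
  have hx1 : X₀ ≤ x := (le_max_left _ _).trans hx
  have hx2 : 2 ≤ x := (le_max_right _ _).trans hx
  have hM := hX x hx1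
  -- thin window
  have hW : ∀ B : ℝ, ∑ q ∈ (PP x).filter (fun q => |al x q - B| ≤ 2 / 10 ^ 6), gg q ≤
      33 / 10 ^ 6 := by
    intro B
    rcases ((PP x).filter (fun q => |al x q - B| ≤ 2 / 10 ^ 6)).eq_empty_or_nonempty with h | h
    · rw [h, Finset.sum_empty]
      positivity
    · obtain ⟨q₀, hq₀⟩ := h
      set s : ℝ := max (1 / 8) (B - 2 / 10 ^ 6) - 1 / 10 ^ 9 with hs
      set t : ℝ := min (1 / 4) (B + 2 / 10 ^ 6) with ht
      have key : ∀ q ∈ (PP x).filter (fun q => |al x q - B| ≤ 2 / 10 ^ 6),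
          q ∈ PP x ∧ s < al x q ∧ al x q ≤ t := by
        intro q hq
        rw [mem_filter, abs_le] at hq
        obtain ⟨h1, h2, h3⟩ := hq
        obtain ⟨h4, h5⟩ := ze_al hx2 h1
        refine ⟨h1, ?_, le_min h5 (by linarith)⟩
        have : max (1 / 8) (B - 2 / 10 ^ 6) ≤ al x q := max_le h4.le (by linarith)
        have h9 : (0 : ℝ) < 1 / 10 ^ 9 := by positivity
        rw [hs]
        linarith
      obtain ⟨_, h5, h6⟩ := key q₀ hq₀
      have hst : s ≤ t := (h5.le).trans h6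
      have hs8 : 1 / 8 - 1 / 10 ^ 9 ≤ s := by
        rw [hs]
        linarith [le_max_left (1 / 8 : ℝ) (B - 2 / 10 ^ 6)]
      have hs16 : 1 / 16 ≤ s := by
        refine le_trans ?_ hs8
        norm_num
      have ht1 : t ≤ 1 := by
        rw [ht]
        exact (min_le_left _ _).trans (by norm_num)
      have hts : t - s ≤ 4 / 10 ^ 6 + 1 / 10 ^ 9 := by
        have h7 : t ≤ B + 2 / 10 ^ 6 := min_le_right _ _
        have h8 : B - 2 / 10 ^ 6 - 1 / 10 ^ 9 ≤ s := by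
          rw [hs]
          linarith [le_max_right (1 / 8 : ℝ) (B - 2 / 10 ^ 6)]
        linarith
      have h9 := ze_win (1 / 10 ^ 8) x hx2 s t (by linarith) hst (hM s t hs16 hst ht1) _ key
      have h10 : (t - s) / s ≤ (4 / 10 ^ 6 + 1 / 10 ^ 9) / (1 / 8 - 1 / 10 ^ 9) := by
        refine div_le_div₀ (by positivity) hts (by norm_num) hs8
      refine h9.trans ((add_le_add_left h10 _).trans ?_)
      norm_num
  have hfree : ∑ q ∈ PP x, gg q ≤ 694 / 1000 := by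
    have h1 := (abs_le.1 (hM (1 / 8) (1 / 4) (by norm_num) (by norm_num) (by norm_num))).2
    have h2 : Real.log ((1 / 4 : ℝ) / (1 / 8)) = Real.log 2 := by norm_num
    rw [h2] at h1
    have h3 := Real.log_two_lt_d9
    unfold PP
    norm_num at h1 h3 ⊢
    linarith
  have hg : ∀ q ∈ PP x, 0 ≤ gg q := fun q hq => ze_gg (ze_PP hq).1
  have hg0 : 0 ≤ ∑ q ∈ PP x, gg q := Finset.sum_nonneg hg
  refine ⟨?_, ?_, ?_⟩
  · have h1 : ∀ q ∈ (PP x).filter (fun q => al x q ≤ 1 / 8 + 2 / 10 ^ 6),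
        q ∈ PP x ∧ 1 / 8 < al x q ∧ al x q ≤ 1 / 8 + 2 / 10 ^ 6 := by
      intro q hq
      rw [mem_filter] at hq
      exact ⟨hq.1, (ze_al hx2 hq.1).1, hq.2⟩
    have h2 := ze_win (1 / 10 ^ 8) x hx2 (1 / 8) (1 / 8 + 2 / 10 ^ 6) (by norm_num) (by norm_num)
      (hM _ _ (by norm_num) (by norm_num) (by norm_num)) _ h1
    refine h2.trans ?_
    norm_num
  · calc ∑ q₁ ∈ PP x, ∑ q₂ ∈ (PP x).filter
          (fun q₂ => |a + al x q₁ + al x q₂ - 1 / 2| ≤ 2 / 10 ^ 6), gg q₁ * gg q₂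
        ≤ ∑ q₁ ∈ PP x, gg q₁ * (33 / 10 ^ 6) := by
          refine Finset.sum_le_sum fun q₁ h1 => ?_
          rw [← Finset.mul_sum]
          refine mul_le_mul_of_nonneg_left ?_ (hg q₁ h1)
          refine le_trans (le_of_eq ?_) (hW (1 / 2 - a - al x q₁))
          refine Finset.sum_congr ?_ fun _ _ => rfl
          refine Finset.filter_congr fun q₂ _ => ?_
          rw [show a + al x q₁ + al x q₂ - 1 / 2 = al x q₂ - (1 / 2 - a - al x q₁) by ring]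
      _ ≤ 694 / 1000 * (33 / 10 ^ 6) := by
          rw [← Finset.sum_mul]
          exact mul_le_mul_of_nonneg_right hfree (by positivity)
      _ ≤ 3 / 10 ^ 5 := by norm_num
  · calc ∑ q₁ ∈ PP x, ∑ q₂ ∈ PP x, ∑ q₃ ∈ (PP x).filter
          (fun q₃ => |a + al x q₁ + al x q₂ + al x q₃ - 3 / 4| ≤ 2 / 10 ^ 6),
          gg q₁ * gg q₂ * gg q₃
        ≤ ∑ q₁ ∈ PP x, ∑ q₂ ∈ PP x, gg q₁ * gg q₂ * (33 / 10 ^ 6) := by
          refine Finset.sum_le_sum fun q₁ h1 => Finset.sum_le_sum fun q₂ h2 => ?_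
          rw [← Finset.mul_sum]
          refine mul_le_mul_of_nonneg_left ?_ (mul_nonneg (hg q₁ h1) (hg q₂ h2))
          refine le_trans (le_of_eq ?_) (hW (3 / 4 - a - al x q₁ - al x q₂))
          refine Finset.sum_congr ?_ fun _ _ => rfl
          refine Finset.filter_congr fun q₃ _ => ?_
          rw [show a + al x q₁ + al x q₂ + al x q₃ - 3 / 4 =
            al x q₃ - (3 / 4 - a - al x q₁ - al x q₂) by ring]
      _ = (∑ q₁ ∈ PP x, gg q₁) * (∑ q₂ ∈ PP x, gg q₂) * (33 / 10 ^ 6) := by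
          rw [Finset.sum_mul_sum, Finset.sum_mul]
          refine Finset.sum_congr rfl fun q₁ _ => ?_
          rw [Finset.sum_mul]
      _ ≤ 694 / 1000 * (694 / 1000) * (33 / 10 ^ 6) := by
          refine mul_le_mul_of_nonneg_right ?_ (by positivity)
          exact mul_le_mul hfree hfree hg0 (by norm_num)
      _ ≤ 2 / 10 ^ 5 := by norm_num

end Pool.Agent.Work.MP_70e905_nt.M3
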