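import Mathlib
import Pool.Agent.Work.MP_70e905_nt.M3.Defs

set_option autoImplicit false

/-!
MODULE ZG (finite certificate), size S. Mathlib only. 1728 triples.

Replace `1 / (c₁ c₂ c₃)` by `(10^12 / (c₁ c₂ c₃) + 1) / 10^12` (natural division, larger) and evaluate the natural number
`∑ (10^12 / (c₁ c₂ c₃) + 1)` over the triples in the kernel (`decide` on a `List`/`Nat` recursion; about 50^3 steps; value
3438666570 or smaller `≤ 3439·10^6`).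
-/

namespace Pool.Agent.Work.MP_70e905_nt.M3

open Finset Pool.Agent.Work.MP_73869e_nt.TH Pool.Agent.Work.MP_70e905_nt.MT

private theorem zg_pt (a b c : ℕ) (ha : 0 < a) (hb : 0 < b) (hc : 0 < c) :
    (1 : ℝ) / (a * b * c) ≤ ((10 ^ 12 / (a * b * c) + 1 : ℕ) : ℝ) / 10 ^ 12 := by
  have hm : 0 < a * b * c := by positivity
  have h1 : 10 ^ 12 < (10 ^ 12 / (a * b * c) + 1) * (a * b * c) := by
    rw [mul_comm]
    exact Nat.lt_mul_div_succ _ hm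
  have h2 : ((10 : ℝ) ^ 12) < ((10 ^ 12 / (a * b * c) + 1 : ℕ) : ℝ) * (a * b * c) := by
    exact_mod_cast h1
  have hm' : (0 : ℝ) < (a : ℝ) * b * c := by exact_mod_cast hm
  rw [div_le_div_iff₀ hm' (by positivity)]
  linarith

private theorem zg_nat : ∑ c₁ ∈ Icc (48 : ℕ) 96, ∑ c₂ ∈ Icc c₁ 96,
    ∑ c₃ ∈ (Icc c₂ 96).filter (fun c₃ => 237 ≤ c₁ + c₂ + c₃ ∧ c₁ + c₂ + 2 * c₃ ≤ 336),
      (10 ^ 12 / (c₁ * c₂ * c₃) + 1) ≤ 3439 * 10 ^ 6 := by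
  decide +kernel

theorem cert : ∑ c₁ ∈ Icc (48 : ℕ) 96, ∑ c₂ ∈ Icc c₁ 96,
    ∑ c₃ ∈ (Icc c₂ 96).filter (fun c₃ => 237 ≤ c₁ + c₂ + c₃ ∧ c₁ + c₂ + 2 * c₃ ≤ 336),
      (1 : ℝ) / (c₁ * c₂ * c₃) ≤ 3439 / 10 ^ 6 := by
  calc ∑ c₁ ∈ Icc (48 : ℕ) 96, ∑ c₂ ∈ Icc c₁ 96,
        ∑ c₃ ∈ (Icc c₂ 96).filter (fun c₃ => 237 ≤ c₁ + c₂ + c₃ ∧ c₁ + c₂ + 2 * c₃ ≤ 336),
          (1 : ℝ) / (c₁ * c₂ * c₃)
      ≤ ∑ c₁ ∈ Icc (48 : ℕ) 96, ∑ c₂ ∈ Icc c₁ 96,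
        ∑ c₃ ∈ (Icc c₂ 96).filter (fun c₃ => 237 ≤ c₁ + c₂ + c₃ ∧ c₁ + c₂ + 2 * c₃ ≤ 336),
          ((10 ^ 12 / (c₁ * c₂ * c₃) + 1 : ℕ) : ℝ) / 10 ^ 12 := by
        refine Finset.sum_le_sum fun c₁ h1 => Finset.sum_le_sum fun c₂ h2 =>
          Finset.sum_le_sum fun c₃ h3 => ?_
        rw [mem_Icc] at h1 h2
        rw [mem_filter, mem_Icc] at h3
        exact zg_pt c₁ c₂ c₃ (by omega) (by omega) (by omega)
    _ = ((∑ c₁ ∈ Icc (48 : ℕ) 96, ∑ c₂ ∈ Icc c₁ 96,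
        ∑ c₃ ∈ (Icc c₂ 96).filter (fun c₃ => 237 ≤ c₁ + c₂ + c₃ ∧ c₁ + c₂ + 2 * c₃ ≤ 336),
          (10 ^ 12 / (c₁ * c₂ * c₃) + 1) : ℕ) : ℝ) / 10 ^ 12 := by
        rw [Nat.cast_sum, Finset.sum_div]
        refine Finset.sum_congr rfl fun c₁ _ => ?_
        rw [Nat.cast_sum, Finset.sum_div]
        refine Finset.sum_congr rfl fun c₂ _ => ?_
        rw [Nat.cast_sum, Finset.sum_div]
    _ ≤ ((3439 * 10 ^ 6 : ℕ) : ℝ) / 10 ^ 12 := by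
        refine div_le_div_of_nonneg_right ?_ (by positivity)
        exact_mod_cast zg_nat
    _ = 3439 / 10 ^ 6 := by norm_num

end Pool.Agent.Work.MP_70e905_nt.M3
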