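import Pool.Agent.Work.MP_70e905_nt.M3.Defs
import Pool.Agent.Work.MP_70e905_nt.M3.MW
import Pool.Agent.Work.MP_70e905_nt.M3.ZE
import Pool.Agent.Work.MP_70e905_nt.M3.ZG

set_option autoImplicit false

/-!
MODULE ZF (products of five primes), size M.

For `q ∈ PP x` let `c(q) = ⌊384 al x q⌋ ∈ [48, 96]` (`al x q > 1/8`, `≤ 1/4`). For every `c ∈ [48, 96]` the `gg` sum over the `q ∈ PP x` with
`c(q) = c` (exponents in `[c/384, (c+1)/384)`) is at most `log ((c+1)/c) + ε ≤ 1/c` for large `x` (`mert_win`; to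
include the left end point of the window enlarge it by a tiny amount, or note that the end point carries at most one prime).
For `q₁ < q₂ < q₃` in the sum: `c(q₁) ≤ c(q₂) ≤ c(q₃)`; `al q₁ + al q₂ + al q₃ ≥ 5/8 - 1/2000 - 2·10^-6` gives `c₁ + c₂ + c₃ + 3 > 384 (5/8 -
1/2000 - 2·10^-6) = 239.807...`, so `c₁ + c₂ + c₃ ≥ 237`; `al q₁ + al q₂ + 2 al q₃ ≤ 7/8 + 2·10^-6` gives `c₁ + c₂ + 2 c₃ ≤ 336.0008`, so `≤ 336`.
Hence the sum is at most `∑ 1/(c₁ c₂ c₃) ≤ 3439/10^6 ≤ 344/10^5` (`cert`).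
-/

namespace Pool.Agent.Work.MP_70e905_nt.M3

open Finset Pool.Agent.Work.MP_73869e_nt.TH Pool.Agent.Work.MP_70e905_nt.MT

private theorem zf_gg {p : ℕ} (hp : p.Prime) : 0 ≤ gg p := by
  have h2 : (2 : ℝ) ≤ p := by exact_mod_cast hp.two_le
  unfold gg
  exact div_nonneg zero_le_one (by linarith)

private theorem zf_PP {x q : ℕ} (h : q ∈ PP x) : q.Prime ∧ (x : ℝ) ^ (1 / 8 : ℝ) < (q : ℝ) ∧
    (q : ℝ) ≤ (x : ℝ) ^ (1 / 4 : ℝ) := by
  unfold PP at h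
  rw [mem_filter, mem_Icc] at h
  refine ⟨h.2.1, h.2.2, ?_⟩
  exact (Nat.le_floor_iff (by positivity)).1 h.1.2

private theorem zf_win (ε : ℝ) (x : ℕ) (hx : 2 ≤ x) (s t : ℝ)
    (hm : |∑ p ∈ (Icc 1 ⌊(x : ℝ) ^ t⌋₊).filter (fun p : ℕ => p.Prime ∧ (x : ℝ) ^ s < (p : ℝ)),
      gg p - Real.log (t / s)| ≤ ε) (T : Finset ℕ) (hT : ∀ q ∈ T, q ∈ PP x ∧ s < al x q ∧ al x q ≤ t) :
    ∑ q ∈ T, gg q ≤ Real.log (t / s) + ε := by
  have hxr : (2 : ℝ) ≤ x := by exact_mod_cast hx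
  have hx0 : (0 : ℝ) < x := by linarith
  have hlx : 0 < Real.log x := Real.log_pos (by linarith)
  have h1 : ∑ q ∈ T, gg q ≤
      ∑ p ∈ (Icc 1 ⌊(x : ℝ) ^ t⌋₊).filter (fun p : ℕ => p.Prime ∧ (x : ℝ) ^ s < (p : ℝ)), gg p := by
    refine Finset.sum_le_sum_of_subset_of_nonneg ?_ ?_
    · intro q hq
      obtain ⟨hq1, hq2, hq3⟩ := hT q hq
      have hp := (zf_PP hq1).1
      have hq0 : (0 : ℝ) < q := by exact_mod_cast hp.pos
      rw [mem_filter, mem_Icc]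
      unfold al at hq2 hq3
      rw [div_le_iff₀ hlx] at hq3
      rw [lt_div_iff₀ hlx] at hq2
      refine ⟨⟨hp.one_le, ?_⟩, hp, ?_⟩
      · refine Nat.le_floor ?_
        rw [← Real.log_le_log_iff hq0 (by positivity), Real.log_rpow hx0]
        exact hq3
      · rw [← Real.log_lt_log_iff (by positivity) hq0, Real.log_rpow hx0]
        exact hq2
    · intro p hp _
      rw [mem_filter] at hp
      exact zf_gg hp.2.1
  have h3 := (abs_le.1 hm).2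
  linarith

private theorem zf_al {x q : ℕ} (hx : 2 ≤ x) (h : q ∈ PP x) : 1 / 8 < al x q ∧ al x q ≤ 1 / 4 := by
  have hxr : (2 : ℝ) ≤ x := by exact_mod_cast hx
  have hx0 : (0 : ℝ) < x := by linarith
  have hlx : 0 < Real.log x := Real.log_pos (by linarith)
  obtain ⟨h1, h2, h3⟩ := zf_PP h
  have hq0 : (0 : ℝ) < q := by exact_mod_cast h1.pos
  unfold al
  rw [div_le_iff₀ hlx, lt_div_iff₀ hlx, ← Real.log_rpow hx0, ← Real.log_rpow hx0]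
  exact ⟨Real.log_lt_log (by positivity) h2, Real.log_le_log hq0 h3⟩

/-- the cell of `q` -/
private noncomputable def zfC (x q : ℕ) : ℕ := ⌊384 * al x q⌋₊

private theorem zf_C {x q : ℕ} (hx : 2 ≤ x) (h : q ∈ PP x) :
    48 ≤ zfC x q ∧ zfC x q ≤ 96 ∧ (zfC x q : ℝ) ≤ 384 * al x q ∧ 384 * al x q < zfC x q + 1 := by
  obtain ⟨h1, h2⟩ := zf_al hx h
  unfold zfC
  refine ⟨Nat.le_floor (by push_cast; linarith), ?_, Nat.floor_le (by linarith),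
    Nat.lt_floor_add_one _⟩
  have h3 : (⌊384 * al x q⌋₊ : ℝ) ≤ 96 := (Nat.floor_le (by linarith)).trans (by linarith)
  exact_mod_cast h3

/-- `log (1 + 1 / c)` -/
private theorem zf_log (c : ℝ) (h1 : 48 ≤ c) (h2 : c ≤ 96) :
    Real.log ((c + 1) / c) ≤ 1 / c - 53 / 10 ^ 6 := by
  have hc : 0 < c := by linarith
  have hu1 : 1 / 96 ≤ 1 / c := one_div_le_one_div_of_le hc h2
  rw [Real.log_le_iff_le_exp (by positivity)]
  have h3 : 0 ≤ 1 / c - 53 / 10 ^ 6 := by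
    have : (53 : ℝ) / 10 ^ 6 ≤ 1 / 96 := by norm_num
    linarith
  have h4 := Real.quadratic_le_exp_of_nonneg h3
  refine le_trans ?_ h4
  have h5 : (c + 1) / c = 1 + 1 / c := by field_simp
  rw [h5]
  have h6 : (1 / 96 - 53 / 10 ^ 6 : ℝ) ^ 2 ≤ (1 / c - 53 / 10 ^ 6) ^ 2 :=
    pow_le_pow_left₀ (by norm_num) (by linarith) 2
  have h7 : (2 * (53 / 10 ^ 6) : ℝ) ≤ (1 / 96 - 53 / 10 ^ 6 : ℝ) ^ 2 := by norm_num
  linarith

private theorem zf_cell : ∃ X₀ : ℕ, ∀ x : ℕ, X₀ ≤ x → ∀ c ∈ Icc (48 : ℕ) 96,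
    ∑ q ∈ (PP x).filter (fun q => zfC x q = c), gg q ≤ 1 / (c : ℝ) := by
  obtain ⟨X₀, hX⟩ := mert_win (1 / 10 ^ 8) (1 / 16) (by positivity) (by positivity)
  refine ⟨max X₀ 2, fun x hx c hc => ?_⟩
  have hx1 : X₀ ≤ x := (le_max_left _ _).trans hx
  have hx2 : 2 ≤ x := (le_max_right _ _).trans hx
  rw [mem_Icc] at hc
  have hc1 : (48 : ℝ) ≤ c := by exact_mod_cast hc.1
  have hc2 : (c : ℝ) ≤ 96 := by exact_mod_cast hc.2
  set s : ℝ := (c : ℝ) / 384 - 1 / 10 ^ 9 with hs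
  set t : ℝ := ((c : ℝ) + 1) / 384 with ht
  have h0 : (0 : ℝ) < 1 / 10 ^ 9 := by positivity
  have hs8 : 1 / 8 - 1 / 10 ^ 9 ≤ s := by rw [hs]; linarith
  have hs16 : 1 / 16 ≤ s := le_trans (by norm_num) hs8
  have hst : s ≤ t := by rw [hs, ht]; linarith
  have ht1 : t ≤ 1 := by rw [ht]; linarith
  have h1 := zf_win (1 / 10 ^ 8) x hx2 s t (hX x hx1 s t hs16 hst ht1)
    ((PP x).filter (fun q => zfC x q = c)) (by
      intro q hq
      rw [mem_filter] at hq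
      obtain ⟨h2, h3⟩ := hq
      obtain ⟨_, _, h4, h5⟩ := zf_C hx2 h2
      rw [h3] at h4 h5
      refine ⟨h2, ?_, ?_⟩
      · rw [hs]; linarith
      · rw [ht]; linarith)
  have h2 : Real.log (t / s) ≤ 1 / (c : ℝ) - 53 / 10 ^ 6 + 1 / 10 ^ 7 := by
    have hs0 : 0 < s := by linarith
    have hc0 : (0 : ℝ) < c := by linarith
    have h3 : t / s = ((c + 1) / c) * ((c / 384) / s) := by
      rw [ht]
      field_simp
    rw [h3, Real.log_mul (by positivity) (by positivity)]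
    have h4 := zf_log c hc1 hc2
    have h5 : Real.log ((c : ℝ) / 384 / s) ≤ (c : ℝ) / 384 / s - 1 :=
      Real.log_le_sub_one_of_pos (by positivity)
    have h6 : (c : ℝ) / 384 / s - 1 ≤ 1 / 10 ^ 7 := by
      rw [sub_le_iff_le_add, div_le_iff₀ hs0]
      have : (c : ℝ) / 384 = s + 1 / 10 ^ 9 := by rw [hs]; ring
      rw [this]
      nlinarith
    linarith
  have h3 : (53 : ℝ) / 10 ^ 6 ≥ 1 / 10 ^ 7 + 1 / 10 ^ 8 := by norm_num
  linarith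

/-- sum over the cells -/
private theorem zf_sum (x : ℕ) (hx : 2 ≤ x)
    (hcell : ∀ c ∈ Icc (48 : ℕ) 96, ∑ q ∈ (PP x).filter (fun q => zfC x q = c), gg q ≤ 1 / (c : ℝ))
    (F : ℕ → ℝ) (hF : ∀ c, 0 ≤ F c) :
    ∑ q ∈ PP x, gg q * F (zfC x q) ≤ ∑ c ∈ Icc (48 : ℕ) 96, 1 / (c : ℝ) * F c := by
  rw [← Finset.sum_fiberwise_of_maps_to (s := PP x) (t := Icc (48 : ℕ) 96) (g := zfC x)
    (fun q hq => mem_Icc.2 ⟨(zf_C hx hq).1, (zf_C hx hq).2.1⟩)]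
  refine Finset.sum_le_sum fun c hc => ?_
  calc ∑ q ∈ (PP x).filter (fun q => zfC x q = c), gg q * F (zfC x q)
      = (∑ q ∈ (PP x).filter (fun q => zfC x q = c), gg q) * F c := by
        rw [Finset.sum_mul]
        refine Finset.sum_congr rfl fun q hq => ?_
        rw [mem_filter] at hq
        rw [hq.2]
    _ ≤ 1 / (c : ℝ) * F c := mul_le_mul_of_nonneg_right (hcell c hc) (hF c)

theorem mu5 : ∃ X₀ : ℕ, ∀ x : ℕ, X₀ ≤ x →
    ∑ q₁ ∈ PP x, ∑ q₂ ∈ (PP x).filter (fun q₂ => q₁ < q₂),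
      ∑ q₃ ∈ (PP x).filter (fun q₃ => q₂ < q₃ ∧
          5 / 8 - 1 / 2000 - 2 / 10 ^ 6 ≤ al x q₁ + al x q₂ + al x q₃ ∧
          al x q₁ + al x q₂ + 2 * al x q₃ ≤ 7 / 8 + 2 / 10 ^ 6),
        gg q₁ * gg q₂ * gg q₃ ≤ 344 / 10 ^ 5 := by
  obtain ⟨X₀, hX⟩ := zf_cell
  refine ⟨max X₀ 2, fun x hx => ?_⟩
  have hx1 : X₀ ≤ x := (le_max_left _ _).trans hx
  have hx2 : 2 ≤ x := (le_max_right _ _).trans hx
  have hxr : (2 : ℝ) ≤ x := by exact_mod_cast hx2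
  have hlx : 0 < Real.log x := Real.log_pos (by linarith)
  have hcell := hX x hx1
  have hg : ∀ q ∈ PP x, 0 ≤ gg q := fun q hq => zf_gg (zf_PP hq).1
  have hmono : ∀ q ∈ PP x, ∀ q' ∈ PP x, q < q' → zfC x q ≤ zfC x q' := by
    intro q hq q' hq' h
    unfold zfC al
    refine Nat.floor_mono ?_
    have h1 : (0 : ℝ) < q := by exact_mod_cast (zf_PP hq).1.pos
    have h2 : (q : ℝ) ≤ q' := by exact_mod_cast h.le
    have h3 := Real.log_le_log h1 h2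
    have h4 := div_le_div_of_nonneg_right h3 hlx.le
    linarith
  set F : ℕ → ℕ → ℕ → ℝ := fun c₁ c₂ c₃ =>
    if c₁ ≤ c₂ ∧ c₂ ≤ c₃ ∧ 237 ≤ c₁ + c₂ + c₃ ∧ c₁ + c₂ + 2 * c₃ ≤ 336 then 1 else 0 with hF
  have hF0 : ∀ a b c, 0 ≤ F a b c := by
    intro a b c
    rw [hF]
    simp only
    split_ifs <;> norm_num
  have step1 : ∀ q₁ ∈ PP x, ∀ q₂ ∈ PP x, ∀ q₃ ∈ PP x, q₁ < q₂ → q₂ < q₃ →
      5 / 8 - 1 / 2000 - 2 / 10 ^ 6 ≤ al x q₁ + al x q₂ + al x q₃ →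
      al x q₁ + al x q₂ + 2 * al x q₃ ≤ 7 / 8 + 2 / 10 ^ 6 →
      F (zfC x q₁) (zfC x q₂) (zfC x q₃) = 1 := by
    intro q₁ h1 q₂ h2 q₃ h3 h12 h23 hlo hhi
    rw [hF]
    simp only
    rw [if_pos]
    obtain ⟨_, _, a1, b1⟩ := zf_C hx2 h1
    obtain ⟨_, _, a2, b2⟩ := zf_C hx2 h2
    obtain ⟨_, _, a3, b3⟩ := zf_C hx2 h3
    refine ⟨hmono _ h1 _ h2 h12, hmono _ h2 _ h3 h23, ?_, ?_⟩
    · have : (236 : ℝ) < ((zfC x q₁ + zfC x q₂ + zfC x q₃ : ℕ) : ℝ) := by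
        push_cast
        norm_num at hlo
        linarith
      exact_mod_cast this
    · have : ((zfC x q₁ + zfC x q₂ + 2 * zfC x q₃ : ℕ) : ℝ) < 337 := by
        push_cast
        norm_num at hhi
        linarith
      have h : zfC x q₁ + zfC x q₂ + 2 * zfC x q₃ < 337 := by exact_mod_cast this
      omega
  calc ∑ q₁ ∈ PP x, ∑ q₂ ∈ (PP x).filter (fun q₂ => q₁ < q₂),
      ∑ q₃ ∈ (PP x).filter (fun q₃ => q₂ < q₃ ∧
          5 / 8 - 1 / 2000 - 2 / 10 ^ 6 ≤ al x q₁ + al x q₂ + al x q₃ ∧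
          al x q₁ + al x q₂ + 2 * al x q₃ ≤ 7 / 8 + 2 / 10 ^ 6),
        gg q₁ * gg q₂ * gg q₃
      ≤ ∑ q₁ ∈ PP x, ∑ q₂ ∈ PP x, ∑ q₃ ∈ PP x,
          gg q₁ * (gg q₂ * (gg q₃ * F (zfC x q₁) (zfC x q₂) (zfC x q₃))) := by
        refine Finset.sum_le_sum fun q₁ h1 => ?_
        have hnn : ∀ q₂ ∈ PP x, 0 ≤ ∑ q₃ ∈ PP x,
            gg q₁ * (gg q₂ * (gg q₃ * F (zfC x q₁) (zfC x q₂) (zfC x q₃))) := fun q₂ h2 =>
          Finset.sum_nonneg fun q₃ h3 => mul_nonneg (hg _ h1) (mul_nonneg (hg _ h2)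
            (mul_nonneg (hg _ h3) (hF0 _ _ _)))
        refine le_trans ?_ (Finset.sum_le_sum_of_subset_of_nonneg (Finset.filter_subset
          (fun q₂ => q₁ < q₂) (PP x)) (fun q₂ h2 _ => hnn q₂ h2))
        refine Finset.sum_le_sum fun q₂ h2 => ?_
        rw [mem_filter] at h2
        refine le_trans ?_ (Finset.sum_le_sum_of_subset_of_nonneg (Finset.filter_subset
          (fun q₃ => q₂ < q₃ ∧
          5 / 8 - 1 / 2000 - 2 / 10 ^ 6 ≤ al x q₁ + al x q₂ + al x q₃ ∧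
          al x q₁ + al x q₂ + 2 * al x q₃ ≤ 7 / 8 + 2 / 10 ^ 6) (PP x)) (fun q₃ h3 _ =>
            mul_nonneg (hg _ h1) (mul_nonneg (hg _ h2.1)
            (mul_nonneg (hg _ h3) (hF0 _ _ _)))))
        refine Finset.sum_le_sum fun q₃ h3 => ?_
        rw [mem_filter] at h3
        rw [step1 q₁ h1 q₂ h2.1 q₃ h3.1 h2.2 h3.2.1 h3.2.2.1 h3.2.2.2]
        exact le_of_eq (by ring)
    _ = ∑ q₁ ∈ PP x, gg q₁ * (∑ q₂ ∈ PP x, gg q₂ * (∑ q₃ ∈ PP x,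
          gg q₃ * F (zfC x q₁) (zfC x q₂) (zfC x q₃))) := by
        refine Finset.sum_congr rfl fun q₁ _ => ?_
        rw [Finset.mul_sum]
        refine Finset.sum_congr rfl fun q₂ _ => ?_
        rw [Finset.mul_sum, Finset.mul_sum]
    _ ≤ ∑ q₁ ∈ PP x, gg q₁ * (∑ c₂ ∈ Icc (48 : ℕ) 96, 1 / (c₂ : ℝ) * (∑ c₃ ∈ Icc (48 : ℕ) 96,
          1 / (c₃ : ℝ) * F (zfC x q₁) c₂ c₃)) := by
        refine Finset.sum_le_sum fun q₁ h1 => mul_le_mul_of_nonneg_left ?_ (hg q₁ h1)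
        refine le_trans (Finset.sum_le_sum fun q₂ h2 => mul_le_mul_of_nonneg_left
          (zf_sum x hx2 hcell (fun c₃ => F (zfC x q₁) (zfC x q₂) c₃) (fun _ => hF0 _ _ _))
          (hg q₂ h2)) ?_
        exact zf_sum x hx2 hcell (fun c₂ => ∑ c₃ ∈ Icc (48 : ℕ) 96,
          1 / (c₃ : ℝ) * F (zfC x q₁) c₂ c₃) (fun c₂ => Finset.sum_nonneg fun c₃ _ =>
            mul_nonneg (by positivity) (hF0 _ _ _))
    _ ≤ ∑ c₁ ∈ Icc (48 : ℕ) 96, 1 / (c₁ : ℝ) * (∑ c₂ ∈ Icc (48 : ℕ) 96, 1 / (c₂ : ℝ) *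
          (∑ c₃ ∈ Icc (48 : ℕ) 96, 1 / (c₃ : ℝ) * F c₁ c₂ c₃)) :=
        zf_sum x hx2 hcell (fun c₁ => ∑ c₂ ∈ Icc (48 : ℕ) 96, 1 / (c₂ : ℝ) *
          (∑ c₃ ∈ Icc (48 : ℕ) 96, 1 / (c₃ : ℝ) * F c₁ c₂ c₃)) (fun c₁ =>
            Finset.sum_nonneg fun c₂ _ => mul_nonneg (by positivity) (Finset.sum_nonneg fun c₃ _ =>
              mul_nonneg (by positivity) (hF0 _ _ _)))
    _ = ∑ c₁ ∈ Icc (48 : ℕ) 96, ∑ c₂ ∈ Icc c₁ 96,
        ∑ c₃ ∈ (Icc c₂ 96).filter (fun c₃ => 237 ≤ c₁ + c₂ + c₃ ∧ c₁ + c₂ + 2 * c₃ ≤ 336),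
          (1 : ℝ) / (c₁ * c₂ * c₃) := by
        refine Finset.sum_congr rfl fun c₁ h1 => ?_
        rw [mem_Icc] at h1
        have hsub : Icc c₁ 96 ⊆ Icc 48 96 := Finset.Icc_subset_Icc_left h1.1
        rw [Finset.mul_sum, ← Finset.sum_subset hsub]
        · refine Finset.sum_congr rfl fun c₂ h2 => ?_
          rw [mem_Icc] at h2
          have hsub2 : (Icc c₂ 96).filter (fun c₃ => 237 ≤ c₁ + c₂ + c₃ ∧
              c₁ + c₂ + 2 * c₃ ≤ 336) ⊆ Icc 48 96 :=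
            (Finset.filter_subset _ _).trans (Finset.Icc_subset_Icc_left (h1.1.trans h2.1))
          rw [Finset.mul_sum, Finset.mul_sum, ← Finset.sum_subset hsub2]
          · refine Finset.sum_congr rfl fun c₃ h3 => ?_
            rw [mem_filter, mem_Icc] at h3
            have : F c₁ c₂ c₃ = 1 := by
              rw [hF]
              simp only
              rw [if_pos ⟨h2.1, h3.1.1, h3.2.1, h3.2.2⟩]
            rw [this, mul_one, one_div_mul_one_div, one_div_mul_one_div, mul_assoc]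
          · intro c₃ h3 h3'
            have : F c₁ c₂ c₃ = 0 := by
              rw [hF]
              simp only
              rw [if_neg]
              rintro ⟨k1, k2, k3, k4⟩
              rw [mem_Icc] at h3
              exact h3' (mem_filter.2 ⟨mem_Icc.2 ⟨k2, h3.2⟩, k3, k4⟩)
            rw [this]
            ring
        · intro c₂ h2 h2'
          rw [mem_Icc] at h2
          have : ∑ c₃ ∈ Icc (48 : ℕ) 96, 1 / (c₃ : ℝ) * F c₁ c₂ c₃ = 0 := by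
            refine Finset.sum_eq_zero fun c₃ _ => ?_
            have : F c₁ c₂ c₃ = 0 := by
              rw [hF]
              simp only
              rw [if_neg]
              rintro ⟨k1, k2, k3, k4⟩
              exact h2' (mem_Icc.2 ⟨k1, h2.2⟩)
            rw [this, mul_zero]
          rw [this, mul_zero, mul_zero]
    _ ≤ 3439 / 10 ^ 6 := cert
    _ ≤ 344 / 10 ^ 5 := by norm_num

end Pool.Agent.Work.MP_70e905_nt.M3
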