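import Pool.Agent.Work.MP_70e905_nt.M3.Defs
import Pool.Agent.Work.MP_70e905_nt.M3.ZC
import Pool.Agent.Work.MP_70e905_nt.M3.ZD
import Pool.Agent.Work.MP_70e905_nt.M3.ZE
import Pool.Agent.Work.MP_70e905_nt.M3.ZF
import Pool.Agent.Work.MP_70e905_nt.M3.MD
import Pool.Agent.Work.MP_70e905_nt.M3.N3
import Pool.Agent.Work.MP_70e905_nt.MT.F0
import Pool.Agent.Work.MP_70e905_nt.MT.C6
import Pool.Agent.Work.MP_70e905_nt.MT.A6

set_option autoImplicit false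

/-!
MODULE ZH (the exceptional integers: total), size M-L.

Let `z` be in the set, `p ∈ II c W`, `p ∣ n_j`, `P' = Q c W (1/4 - 2δ)`, `T = {q ∈ P' : q ∣ n_j}`; `II ⊆ P'`, so `p ∈ T`. All `q ∈ T` are `> x^(1/8)`
(`n_j` has no prime factor in `Q c W (1/8)`), `≤ x^(1/4)`, `∏_T q ≤ n_j ≤ (2 A₀ + C) x`, so `#T ≤ 8` and `∑_T al x q ≤ 1 + 10^-6` for large
`x`. `Lam_T` (MD) and `|Lam| < 10^-6` give `|1 - ∑_T (1 - 4 al)| < 2·10^-6`; `exc_comb` (ZD) with `α = al x`: there is a set `Q'` with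
`p ∈ Q' ⊆ T` of one of the four kinds: `{p, q}`, `{p, q₁, q₂}`, `{p, q₁, q₂, q₃}` (two kinds), the `q`'s in `PP x`. So the sum is at most
`∑_{p ∈ II} ∑_{Q'} (∑_{z : all q ∈ Q' divide n_j, n_j rough} W2) ≤ ∑_p ∑_{Q'} (337 / pd Q') Hm` by `sw` (ZC), `1 / pd Q' ≤ HH Q'`.
Sizes: `pd Q' = x^(sum of al)`: `≤ 0.26`, `≤ 0.51`, `≤ 0.76`, and for the last kind `al q₃ ≥ (al q₁ + al q₂ + al q₃)/3`, so
`(4/3) ∑ ≤ 7/8 + 2·10^-6`, `∑ + al p ≤ 0.656252 + 0.1255 ≤ 0.7818`. For fixed `p` the sum of `HH (Q'.erase p)` is at most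
`2·10^-5 + 3·10^-5 + 2·10^-5 + 344·10^-5 = 351·10^-5` (`thin` with `a = al x p`, `mu5`), `337 · 351·10^-5 = 1.18287 ≤ 12/10`.
-/

namespace Pool.Agent.Work.MP_70e905_nt.M3

open Finset Pool.Agent.Work.MP_73869e_nt.TH Pool.Agent.Work.MP_70e905_nt.MT

private theorem zh_gg {p : ℕ} (hp : p.Prime) : 0 ≤ gg p := by
  have h2 : (2 : ℝ) ≤ p := by exact_mod_cast hp.two_le
  unfold gg
  exact div_nonneg zero_le_one (by linarith)

private theorem zh_inv {p : ℕ} (hp : p.Prime) : 1 / (p : ℝ) ≤ gg p := by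
  have h2 : (2 : ℝ) ≤ p := by exact_mod_cast hp.two_le
  unfold gg
  exact one_div_le_one_div_of_le (by linarith) (by linarith)

private theorem zh_cover {ι : Type*} (S : Finset ℕ) (w : ℕ → ℝ) (A : Finset ι)
    (D : ι → ℕ → Prop) [∀ a z, Decidable (D a z)] :
    ∑ z ∈ S, w z * (#(A.filter (fun a => D a z)) : ℝ) =
      ∑ a ∈ A, ∑ z ∈ S.filter (fun z => D a z), w z := by
  simp only [Finset.sum_filter]
  rw [Finset.sum_comm]
  refine Finset.sum_congr rfl fun z _ => ?_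
  rw [Finset.card_filter]
  push_cast
  rw [Finset.mul_sum]
  refine Finset.sum_congr rfl fun a _ => ?_
  split_ifs
  · exact mul_one _
  · exact mul_zero _

private theorem zh_kind {ι : Type*} (A : Finset ι) (Qf : ι → Finset ℕ) (F : Finset ℕ → ℝ)
    (G : ι → ℝ) (H b g : ℝ) (hH : 0 ≤ H) (hg : 0 ≤ g)
    (hF : ∀ a ∈ A, F (Qf a) ≤ 337 / (pd (Qf a) : ℝ) * H)
    (hG : ∀ a ∈ A, 1 / ((pd (Qf a) : ℕ) : ℝ) ≤ g * G a) (hb : ∑ a ∈ A, G a ≤ b) :
    ∑ a ∈ A, F (Qf a) ≤ 337 * b * g * H := by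
  calc ∑ a ∈ A, F (Qf a) ≤ ∑ a ∈ A, 337 * (g * G a) * H := by
        refine Finset.sum_le_sum fun a ha => (hF a ha).trans ?_
        refine mul_le_mul_of_nonneg_right ?_ hH
        rw [div_eq_mul_one_div]
        exact mul_le_mul_of_nonneg_left (hG a ha) (by norm_num)
    _ = 337 * (∑ a ∈ A, G a) * g * H := by
        rw [Finset.mul_sum, Finset.sum_mul, Finset.sum_mul]
        exact Finset.sum_congr rfl fun a _ => by ring
    _ ≤ 337 * b * g * H := by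
        gcongr

private theorem zh_pow {x q : ℕ} (hx : 2 ≤ x) (hq : q.Prime) : (x : ℝ) ^ (al x q) = q := by
  have hx' : (2 : ℝ) ≤ x := by exact_mod_cast hx
  have hl : 0 < Real.log x := Real.log_pos (by linarith)
  have hq' : (0 : ℝ) < q := by exact_mod_cast hq.pos
  unfold al
  rw [Real.rpow_def_of_pos (by linarith), mul_div_cancel₀ _ hl.ne', Real.exp_log hq']

private theorem zh_pd2 {p q : ℕ} (h : p ≠ q) : pd {p, q} = p * q := by
  unfold pd
  rw [prod_pair h]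

private theorem zh_pd3 {p q r : ℕ} (h1 : p ≠ q) (h2 : p ≠ r) (h3 : q ≠ r) :
    pd {p, q, r} = p * (q * r) := by
  unfold pd
  rw [prod_insert (by simp [h1, h2]), prod_pair h3]

private theorem zh_pd4 {p q r t : ℕ} (h1 : p ≠ q) (h2 : p ≠ r) (h3 : p ≠ t) (h4 : q ≠ r)
    (h5 : q ≠ t) (h6 : r ≠ t) : pd {p, q, r, t} = p * (q * (r * t)) := by
  unfold pd
  rw [prod_insert (by simp [h1, h2, h3]), prod_insert (by simp [h4, h5]), prod_pair h6]

/-- the sum over pairs -/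
private theorem zh_sum2 (B P : Finset ℕ) (hBP : B ⊆ P) (f : ℕ → ℝ) (hf : ∀ q ∈ P, 0 ≤ f q)
    (D : ℕ → ℕ → Prop) [∀ a b, Decidable (D a b)] :
    ∑ q ∈ (B ×ˢ B).filter (fun q => q.1 < q.2 ∧ D q.1 q.2), f q.1 * f q.2 ≤
      ∑ q₁ ∈ P, ∑ q₂ ∈ P.filter (fun q₂ => D q₁ q₂), f q₁ * f q₂ := by
  have h1 : ∑ q₁ ∈ P, ∑ q₂ ∈ P.filter (fun q₂ => D q₁ q₂), f q₁ * f q₂ =
      ∑ q ∈ (P ×ˢ P).filter (fun q => D q.1 q.2), f q.1 * f q.2 := by
    rw [Finset.sum_filter, Finset.sum_product]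
    exact Finset.sum_congr rfl fun q _ => Finset.sum_filter _ _
  rw [h1]
  refine Finset.sum_le_sum_of_subset_of_nonneg ?_ ?_
  · intro q hq
    rw [mem_filter, mem_product] at hq ⊢
    exact ⟨⟨hBP hq.1.1, hBP hq.1.2⟩, hq.2.2⟩
  · intro q hq _
    rw [mem_filter, mem_product] at hq
    exact mul_nonneg (hf _ hq.1.1) (hf _ hq.1.2)

/-- the sum over triples -/
private theorem zh_sum3 (B P : Finset ℕ) (hBP : B ⊆ P) (f : ℕ → ℝ) (hf : ∀ q ∈ P, 0 ≤ f q)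
    (D : ℕ → ℕ → ℕ → Prop) [∀ a b c, Decidable (D a b c)] :
    ∑ q ∈ (B ×ˢ (B ×ˢ B)).filter
        (fun q => q.1 < q.2.1 ∧ q.2.1 < q.2.2 ∧ D q.1 q.2.1 q.2.2), f q.1 * f q.2.1 * f q.2.2 ≤
      ∑ q₁ ∈ P, ∑ q₂ ∈ P, ∑ q₃ ∈ P.filter (fun q₃ => D q₁ q₂ q₃), f q₁ * f q₂ * f q₃ := by
  have h1 : ∑ q₁ ∈ P, ∑ q₂ ∈ P, ∑ q₃ ∈ P.filter (fun q₃ => D q₁ q₂ q₃), f q₁ * f q₂ * f q₃ =
      ∑ q ∈ (P ×ˢ (P ×ˢ P)).filter (fun q => D q.1 q.2.1 q.2.2), f q.1 * f q.2.1 * f q.2.2 := by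
    rw [Finset.sum_filter, Finset.sum_product]
    refine Finset.sum_congr rfl fun q _ => ?_
    rw [Finset.sum_product]
    exact Finset.sum_congr rfl fun r _ => Finset.sum_filter _ _
  rw [h1]
  refine Finset.sum_le_sum_of_subset_of_nonneg ?_ ?_
  · intro q hq
    rw [mem_filter, mem_product, mem_product] at hq ⊢
    exact ⟨⟨hBP hq.1.1, hBP hq.1.2.1, hBP hq.1.2.2⟩, hq.2.2.2⟩
  · intro q hq _
    rw [mem_filter, mem_product, mem_product] at hq
    exact mul_nonneg (mul_nonneg (hf _ hq.1.1) (hf _ hq.1.2.1)) (hf _ hq.1.2.2)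

/-- the sum over increasing triples -/
private theorem zh_sum4 (B P : Finset ℕ) (hBP : B ⊆ P) (f : ℕ → ℝ) (hf : ∀ q ∈ P, 0 ≤ f q)
    (D : ℕ → ℕ → ℕ → Prop) [∀ a b c, Decidable (D a b c)] :
    ∑ q ∈ (B ×ˢ (B ×ˢ B)).filter
        (fun q => q.1 < q.2.1 ∧ q.2.1 < q.2.2 ∧ D q.1 q.2.1 q.2.2), f q.1 * f q.2.1 * f q.2.2 ≤
      ∑ q₁ ∈ P, ∑ q₂ ∈ P.filter (fun q₂ => q₁ < q₂),
        ∑ q₃ ∈ P.filter (fun q₃ => q₂ < q₃ ∧ D q₁ q₂ q₃), f q₁ * f q₂ * f q₃ := by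
  have h1 : ∑ q₁ ∈ P, ∑ q₂ ∈ P.filter (fun q₂ => q₁ < q₂),
        ∑ q₃ ∈ P.filter (fun q₃ => q₂ < q₃ ∧ D q₁ q₂ q₃), f q₁ * f q₂ * f q₃ =
      ∑ q ∈ (P ×ˢ (P ×ˢ P)).filter
        (fun q => q.1 < q.2.1 ∧ q.2.1 < q.2.2 ∧ D q.1 q.2.1 q.2.2), f q.1 * f q.2.1 * f q.2.2 := by
    rw [Finset.sum_filter, Finset.sum_product]
    refine Finset.sum_congr rfl fun q _ => ?_
    rw [Finset.sum_product, Finset.sum_filter]
    refine Finset.sum_congr rfl fun r _ => ?_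
    by_cases h : q < r
    · rw [if_pos h, Finset.sum_filter]
      refine Finset.sum_congr rfl fun t _ => ?_
      by_cases h2 : r < t ∧ D q r t
      · rw [if_pos h2, if_pos ⟨h, h2⟩]
      · rw [if_neg h2, if_neg (fun hh => h2 hh.2)]
    · rw [if_neg h]
      refine (Finset.sum_eq_zero fun t _ => ?_).symm
      rw [if_neg (fun hh => h hh.1)]
  rw [h1]
  refine Finset.sum_le_sum_of_subset_of_nonneg ?_ ?_
  · intro q hq
    rw [mem_filter, mem_product, mem_product] at hq ⊢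
    exact ⟨⟨hBP hq.1.1, hBP hq.1.2.1, hBP hq.1.2.2⟩, hq.2⟩
  · intro q hq _
    rw [mem_filter, mem_product, mem_product] at hq
    exact mul_nonneg (mul_nonneg (hf _ hq.1.1) (hf _ hq.1.2.1)) (hf _ hq.1.2.2)

theorem exc_all (K L D₀ : ℕ) (s δ t₀ e : ℝ) (hpar : Par K L D₀ s δ t₀ e) (he9 : e ≤ 1 / 10 ^ 9)
    (W A₀ C : ℕ) : ∃ X₀ : ℕ, ∀ c : Cfg K, c.Ok D₀ W A₀ C → X₀ ≤ c.x → ∀ i j : Fin K, i ≠ j →
      ∑ z ∈ (dp c W i).filter (fun z => (∀ p ∈ Q c W (1 / 8), ¬ p ∣ c.a j * z + c.b j) ∧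
          |Lam (Q c W (1 / 4 - 2 * δ)) ((c.x : ℝ) ^ (1 / 4 - 2 * δ)) (c.a j * z + c.b j)| <
            1 / 10 ^ 6),
        W2 c W L s δ t₀ i j z * #((II c W).filter (fun p => p ∣ c.a j * z + c.b j)) ≤
      12 / 10 * (∑ p ∈ II c W, gg p) * Hm c W L s δ t₀ := by
  classical
  have he6 : e ≤ 1 / 10 ^ 6 := he9.trans (by norm_num)
  have hδ : 0 < δ := hpar.hδ
  have hδ6 : δ ≤ 1 / 10 ^ 6 := hpar.hδe.trans he6
  have hδ6' : δ ≤ 1 / 1000000 := by
    refine hδ6.trans (le_of_eq ?_)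
    norm_num
  obtain ⟨X₁, hX₁⟩ := sw K L D₀ s δ t₀ e hpar he6 W A₀ C
  obtain ⟨X₂, hX₂⟩ := Lam_T K L D₀ s δ t₀ e hpar he9 W A₀ C
  obtain ⟨X₃, hX₃⟩ := thin
  obtain ⟨X₄, hX₄⟩ := mu5
  obtain ⟨X₆, hX₆⟩ := q_ge K s hpar.hs
  have hKD : K < D₀ := by
    have h1 := hpar.hD
    have hK : (2 : ℝ) ≤ K := by exact_mod_cast hpar.hK
    have h2 : e * (D₀ : ℝ) ≤ 1 * D₀ := by
      refine mul_le_mul_of_nonneg_right ?_ (Nat.cast_nonneg _)
      refine he9.trans ?_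
      norm_num
    have : (K : ℝ) < D₀ := by nlinarith
    exact_mod_cast this
  set M : ℝ := 10 ^ 6 * Real.log (2 * A₀ + C + 1) with hM
  have hA₀r : (0 : ℝ) ≤ A₀ := Nat.cast_nonneg _
  have hCr : (0 : ℝ) ≤ C := Nat.cast_nonneg _
  have hM0 : 0 ≤ M := by
    have : 0 ≤ Real.log (2 * A₀ + C + 1 : ℝ) := Real.log_nonneg (by linarith)
    positivity
  refine ⟨max (max X₁ X₂) (max (max X₃ X₄) (max X₆ (⌈Real.exp (M + 1)⌉₊ + 2))),
    fun c hc hx i j hij => ?_⟩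
  simp only [max_le_iff] at hx
  obtain ⟨⟨hx1, hx2⟩, ⟨hx3, hx4⟩, hx6, hx5⟩ := hx
  have hxx2 : 2 ≤ c.x := by omega
  have hxx1 : 1 ≤ c.x := by omega
  have hx1' : (1 : ℝ) ≤ c.x := by exact_mod_cast hxx1
  have hx2' : (2 : ℝ) ≤ c.x := by exact_mod_cast hxx2
  have hxpos : (0 : ℝ) < c.x := by linarith
  have hlx : M + 1 ≤ Real.log c.x := by
    rw [Real.le_log_iff_exp_le (by linarith)]
    have h1 : Real.exp (M + 1) ≤ (⌈Real.exp (M + 1)⌉₊ : ℝ) := Nat.le_ceil _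
    have h2 : ((⌈Real.exp (M + 1)⌉₊ : ℕ) : ℝ) ≤ c.x := by
      exact_mod_cast (by omega : ⌈Real.exp (M + 1)⌉₊ ≤ c.x)
    exact h1.trans h2
  have hlx0 : 0 < Real.log c.x := by linarith
  have hmono : ∀ u v : ℝ, u ≤ v → Q c W u ⊆ Q c W v := by
    intro u v huv p hp
    rw [Q_mem c D₀ W A₀ C u hc hxx1] at hp
    rw [Q_mem c D₀ W A₀ C v hc hxx1]
    exact ⟨hp.1.trans (Real.rpow_le_rpow_of_exponent_le hx1' huv), hp.2⟩
  have hale : ∀ q : ℕ, q.Prime → ∀ u : ℝ, (q : ℝ) ≤ (c.x : ℝ) ^ u → al c.x q ≤ u := by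
    intro q hq u h
    unfold al
    rw [div_le_iff₀ hlx0, ← Real.log_rpow hxpos]
    exact Real.log_le_log (by exact_mod_cast hq.pos) h
  have halg : ∀ q : ℕ, ∀ u : ℝ, (c.x : ℝ) ^ u < (q : ℝ) → u < al c.x q := by
    intro q u h
    unfold al
    rw [lt_div_iff₀ hlx0, ← Real.log_rpow hxpos]
    exact Real.log_lt_log (Real.rpow_pos_of_pos hxpos _) h
  set B := (Q c W (1 / 4)).filter (fun q : ℕ => (c.x : ℝ) ^ (1 / 8 : ℝ) < (q : ℝ)) with hB
  have hBm : ∀ q ∈ B, q.Prime ∧ (c.x : ℝ) ^ (1 / 8 : ℝ) < (q : ℝ) ∧ q ∈ Q c W 1 ∧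
      1 / 8 < al c.x q ∧ al c.x q ≤ 1 / 4 := by
    intro q hq
    rw [hB, mem_filter] at hq
    have h1 := (Q_mem c D₀ W A₀ C (1 / 4) hc hxx1 q).1 hq.1
    exact ⟨h1.2.1, hq.2, hmono _ 1 (by norm_num) hq.1, halg q _ hq.2, hale q h1.2.1 _ h1.1⟩
  have hBPP : B ⊆ PP c.x := by
    intro q hq
    rw [hB] at hq
    unfold Q Cfg.PZ at hq
    rw [mem_filter, mem_filter] at hq
    unfold PP
    rw [mem_filter]
    exact ⟨hq.1.1, hq.1.2.1, hq.2⟩
  have hPPg : ∀ q ∈ PP c.x, 0 ≤ gg q := by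
    intro q hq
    unfold PP at hq
    rw [mem_filter] at hq
    exact zh_gg hq.2.1
  have hIm : ∀ p ∈ II c W, p.Prime ∧ (c.x : ℝ) ^ (1 / 8 : ℝ) < (p : ℝ) ∧ p ∈ Q c W 1 ∧
      al c.x p ≤ 1 / 8 + 1 / 2000 ∧ p ∈ Q c W (1 / 4 - 2 * δ) := by
    intro p hp
    unfold II at hp
    rw [mem_filter] at hp
    have h1 := (Q_mem c D₀ W A₀ C (1 / 8 + 1 / 2000) hc hxx1 p).1 hp.1
    exact ⟨h1.2.1, hp.2, hmono _ 1 (by norm_num) hp.1, hale p h1.2.1 _ h1.1,
      hmono _ _ (by linarith) hp.1⟩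
  have hal_mono : ∀ q q' : ℕ, q.Prime → q ≤ q' → al c.x q ≤ al c.x q' := by
    intro q q' hq hqq
    unfold al
    refine div_le_div_of_nonneg_right (Real.log_le_log (by exact_mod_cast hq.pos) ?_) hlx0.le
    exact_mod_cast hqq
  have hHm0 : 0 ≤ Hm c W L s δ t₀ := by
    have hPp : ∀ p ∈ c.P W δ, p.Prime := by
      intro p hp
      exact ((Q_mem c D₀ W A₀ C δ hc hxx1 p).1 hp).2.1
    have h1 := U_ge_one (c.P W δ) hPp c.x L t₀ hxx1 hpar.hL hpar.ht₀.le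
    obtain ⟨k1, k2⟩ := kappa_01 c W
    have h2 := hX₆ c D₀ W A₀ C hc hKD hx6
    have h3 : 0 ≤ c.q2 W s := le_trans (by positivity) (h2.1.trans h2.2)
    unfold Hm Um Cfg.X
    have h4 : 0 ≤ U1 (c.P W δ) c.x L t₀ := by linarith [h1.1]
    have h5 : 0 ≤ U2 (c.P W δ) c.x L t₀ := by linarith [h1.2]
    positivity
  have hW20 : ∀ z, 0 ≤ W2 c W L s δ t₀ i j z := by
    intro z
    unfold W2
    split_ifs
    · exact sq_nonneg _
    · exact le_rfl
  set F : Finset ℕ → ℝ := fun Q' => ∑ z ∈ (dp c W i).filter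
    (fun z => (∀ q ∈ Q', q ∣ c.a j * z + c.b j) ∧ ∀ p ∈ Q c W (1 / 8), ¬ p ∣ c.a j * z + c.b j),
    W2 c W L s δ t₀ i j z with hF
  have hsw : ∀ Q' : Finset ℕ, Q' ⊆ Q c W 1 → (∀ q ∈ Q', (c.x : ℝ) ^ (1 / 8 : ℝ) < (q : ℝ)) →
      #Q' ≤ 4 → ((pd Q' : ℕ) : ℝ) ≤ (c.x : ℝ) ^ (7818 / 10000 : ℝ) →
      F Q' ≤ 337 / (pd Q' : ℝ) * Hm c W L s δ t₀ := fun Q' h1 h2 h3 h4 =>
    hX₁ c hc hx1 i j hij Q' h1 h2 h3 h4
  rw [zh_cover]
  have hmain : ∀ p ∈ II c W, ∑ z ∈ ((dp c W i).filter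
      (fun z => (∀ p ∈ Q c W (1 / 8), ¬ p ∣ c.a j * z + c.b j) ∧
          |Lam (Q c W (1 / 4 - 2 * δ)) ((c.x : ℝ) ^ (1 / 4 - 2 * δ)) (c.a j * z + c.b j)| <
            1 / 10 ^ 6)).filter (fun z => p ∣ c.a j * z + c.b j), W2 c W L s δ t₀ i j z ≤
      12 / 10 * gg p * Hm c W L s δ t₀ := by
    intro p hp
    obtain ⟨hpp, hp8, hpQ, hpa, hpP⟩ := hIm p hp
    have hgp := zh_gg hpp
    obtain ⟨t1, t2, t3⟩ := hX₃ c.x hx3 (al c.x p)
    have t4 := hX₄ c.x hx4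
    set A1 := (B.erase p).filter (fun q => al c.x q ≤ 1 / 8 + 2 / 10 ^ 6) with hA1
    set A2 := ((B.erase p) ×ˢ (B.erase p)).filter (fun q => q.1 < q.2 ∧
      |al c.x p + al c.x q.1 + al c.x q.2 - 1 / 2| ≤ 2 / 10 ^ 6) with hA2
    set A3 := ((B.erase p) ×ˢ ((B.erase p) ×ˢ (B.erase p))).filter (fun q => q.1 < q.2.1 ∧
      q.2.1 < q.2.2 ∧
      |al c.x p + al c.x q.1 + al c.x q.2.1 + al c.x q.2.2 - 3 / 4| ≤ 2 / 10 ^ 6) with hA3
    set A4 := ((B.erase p) ×ˢ ((B.erase p) ×ˢ (B.erase p))).filter (fun q => q.1 < q.2.1 ∧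
      q.2.1 < q.2.2 ∧
      (5 / 8 - 1 / 2000 - 2 / 10 ^ 6 ≤ al c.x q.1 + al c.x q.2.1 + al c.x q.2.2 ∧
          al c.x q.1 + al c.x q.2.1 + 2 * al c.x q.2.2 ≤ 7 / 8 + 2 / 10 ^ 6)) with hA4
    have hsub : B.erase p ⊆ PP c.x := (erase_subset _ _).trans hBPP
    -- the four sums
    have s1 : ∑ q ∈ A1, gg q ≤ 2 / 10 ^ 5 := by
      refine le_trans (Finset.sum_le_sum_of_subset_of_nonneg ?_ ?_) t1
      · exact filter_subset_filter _ hsub
      · intro q hq _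
        exact hPPg q (mem_filter.1 hq).1
    have s2 : ∑ q ∈ A2, gg q.1 * gg q.2 ≤ 3 / 10 ^ 5 :=
      (zh_sum2 (B.erase p) (PP c.x) hsub gg hPPg
        (fun q₁ q₂ => |al c.x p + al c.x q₁ + al c.x q₂ - 1 / 2| ≤ 2 / 10 ^ 6)).trans t2
    have s3 : ∑ q ∈ A3, gg q.1 * gg q.2.1 * gg q.2.2 ≤ 2 / 10 ^ 5 :=
      (zh_sum3 (B.erase p) (PP c.x) hsub gg hPPg
        (fun q₁ q₂ q₃ => |al c.x p + al c.x q₁ + al c.x q₂ + al c.x q₃ - 3 / 4| ≤
          2 / 10 ^ 6)).trans t3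
    have s4 : ∑ q ∈ A4, gg q.1 * gg q.2.1 * gg q.2.2 ≤ 344 / 10 ^ 5 :=
      (zh_sum4 (B.erase p) (PP c.x) hsub gg hPPg
        (fun q₁ q₂ q₃ => 5 / 8 - 1 / 2000 - 2 / 10 ^ 6 ≤ al c.x q₁ + al c.x q₂ + al c.x q₃ ∧
          al c.x q₁ + al c.x q₂ + 2 * al c.x q₃ ≤ 7 / 8 + 2 / 10 ^ 6)).trans t4
    have hexp : ∀ v : ℝ, v ≤ 7818 / 10000 → (c.x : ℝ) ^ v ≤ (c.x : ℝ) ^ (7818 / 10000 : ℝ) :=
      fun v hv => Real.rpow_le_rpow_of_exponent_le hx1' hv
    have hprod2 : ∀ q : ℕ, q.Prime → (p : ℝ) * q = (c.x : ℝ) ^ (al c.x p + al c.x q) := by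
      intro q hq
      rw [Real.rpow_add hxpos, zh_pow hxx2 hpp, zh_pow hxx2 hq]
    have hprod3 : ∀ q r : ℕ, q.Prime → r.Prime →
        (p : ℝ) * (q * r) = (c.x : ℝ) ^ (al c.x p + al c.x q + al c.x r) := by
      intro q r hq hr
      rw [Real.rpow_add hxpos, Real.rpow_add hxpos, zh_pow hxx2 hpp, zh_pow hxx2 hq,
        zh_pow hxx2 hr]
      ring
    have hprod4 : ∀ q r t : ℕ, q.Prime → r.Prime → t.Prime →
        (p : ℝ) * (q * (r * t)) =
          (c.x : ℝ) ^ (al c.x p + al c.x q + al c.x r + al c.x t) := by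
      intro q r t hq hr ht
      rw [Real.rpow_add hxpos, Real.rpow_add hxpos, Real.rpow_add hxpos, zh_pow hxx2 hpp,
        zh_pow hxx2 hq, zh_pow hxx2 hr, zh_pow hxx2 ht]
      ring
    have hpinv := zh_inv hpp
    have hp0 : (0 : ℝ) < p := by exact_mod_cast hpp.pos
    -- first kind
    have k1 : ∑ q ∈ A1, F {p, q} ≤ 337 * (2 / 10 ^ 5) * gg p * Hm c W L s δ t₀ := by
      refine zh_kind A1 (fun q => {p, q}) F gg _ _ _ hHm0 hgp (fun q hq => ?_) (fun q hq => ?_) s1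
      · rw [hA1, mem_filter, mem_erase] at hq
        obtain ⟨⟨hqp, hqB⟩, hqa⟩ := hq
        obtain ⟨b1, b2, b3, b4, b5⟩ := hBm q hqB
        refine hsw {p, q} ?_ ?_ ?_ ?_
        · rw [insert_subset_iff, singleton_subset_iff]
          exact ⟨hpQ, b3⟩
        · intro r hr
          rw [mem_insert, mem_singleton] at hr
          rcases hr with rfl | rfl
          · exact hp8
          · exact b2
        · exact card_le_two.trans (by norm_num)
        · rw [zh_pd2 hqp.symm]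
          push_cast
          rw [hprod2 q b1]
          refine hexp _ ?_
          norm_num at hqa ⊢
          linarith
      · rw [hA1, mem_filter, mem_erase] at hq
        obtain ⟨⟨hqp, hqB⟩, hqa⟩ := hq
        obtain ⟨b1, b2, b3, b4, b5⟩ := hBm q hqB
        rw [zh_pd2 hqp.symm]
        push_cast
        rw [← one_div_mul_one_div]
        exact mul_le_mul hpinv (zh_inv b1) (by positivity) hgp
    -- second kind
    have k2 : ∑ q ∈ A2, F {p, q.1, q.2} ≤ 337 * (3 / 10 ^ 5) * gg p * Hm c W L s δ t₀ := by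
      have hex : ∀ q ∈ A2, p ≠ q.1 ∧ p ≠ q.2 ∧ q.1 ≠ q.2 ∧ q.1 ∈ B ∧ q.2 ∈ B ∧
          |al c.x p + al c.x q.1 + al c.x q.2 - 1 / 2| ≤ 2 / 10 ^ 6 := by
        intro q hq
        rw [hA2, mem_filter, mem_product, mem_erase, mem_erase] at hq
        obtain ⟨⟨⟨h1, h2⟩, h3, h4⟩, h5, h6⟩ := hq
        exact ⟨h1.symm, h3.symm, h5.ne, h2, h4, h6⟩
      refine zh_kind A2 (fun q => {p, q.1, q.2}) F (fun q => gg q.1 * gg q.2) _ _ _ hHm0 hgp
        (fun q hq => ?_) (fun q hq => ?_) s2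
      · obtain ⟨h1, h2, h3, h4, h5, h6⟩ := hex q hq
        obtain ⟨b1, b2, b3, b4, b5⟩ := hBm q.1 h4
        obtain ⟨c1, c2, c3, c4, c5⟩ := hBm q.2 h5
        refine hsw {p, q.1, q.2} ?_ ?_ ?_ ?_
        · rw [insert_subset_iff, insert_subset_iff, singleton_subset_iff]
          exact ⟨hpQ, b3, c3⟩
        · intro r hr
          rw [mem_insert, mem_insert, mem_singleton] at hr
          rcases hr with rfl | rfl | rfl
          · exact hp8
          · exact b2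
          · exact c2
        · exact card_le_three.trans (by norm_num)
        · rw [zh_pd3 h1 h2 h3]
          push_cast
          rw [hprod3 q.1 q.2 b1 c1]
          refine hexp _ ?_
          have h7 := (abs_le.1 h6).2
          norm_num at h7 ⊢
          linarith
      · obtain ⟨h1, h2, h3, h4, h5, h6⟩ := hex q hq
        obtain ⟨b1, b2, b3, b4, b5⟩ := hBm q.1 h4
        obtain ⟨c1, c2, c3, c4, c5⟩ := hBm q.2 h5
        rw [zh_pd3 h1 h2 h3]
        push_cast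
        rw [← one_div_mul_one_div, ← one_div_mul_one_div]
        refine mul_le_mul hpinv ?_ (by positivity) hgp
        exact mul_le_mul (zh_inv b1) (zh_inv c1) (by positivity) (zh_gg b1)
    -- third and fourth kind
    have kk : ∀ (A : Finset (ℕ × ℕ × ℕ)) (b : ℝ), (∀ q ∈ A, p ≠ q.1 ∧ p ≠ q.2.1 ∧ p ≠ q.2.2 ∧
          q.1 ≠ q.2.1 ∧ q.1 ≠ q.2.2 ∧ q.2.1 ≠ q.2.2 ∧ q.1 ∈ B ∧ q.2.1 ∈ B ∧ q.2.2 ∈ B ∧
          al c.x p + al c.x q.1 + al c.x q.2.1 + al c.x q.2.2 ≤ 7818 / 10000) →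
        ∑ q ∈ A, gg q.1 * gg q.2.1 * gg q.2.2 ≤ b →
        ∑ q ∈ A, F {p, q.1, q.2.1, q.2.2} ≤ 337 * b * gg p * Hm c W L s δ t₀ := by
      intro A b hA hb
      refine zh_kind A (fun q => {p, q.1, q.2.1, q.2.2}) F
        (fun q => gg q.1 * gg q.2.1 * gg q.2.2) _ _ _ hHm0 hgp
        (fun q hq => ?_) (fun q hq => ?_) hb
      · obtain ⟨h1, h2, h3, h4, h5, h6, h7, h8, h9, h10⟩ := hA q hq
        obtain ⟨b1, b2, b3, b4, b5⟩ := hBm q.1 h7
        obtain ⟨c1, c2, c3, c4, c5⟩ := hBm q.2.1 h8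
        obtain ⟨d1, d2, d3, d4, d5⟩ := hBm q.2.2 h9
        refine hsw {p, q.1, q.2.1, q.2.2} ?_ ?_ ?_ ?_
        · rw [insert_subset_iff, insert_subset_iff, insert_subset_iff, singleton_subset_iff]
          exact ⟨hpQ, b3, c3, d3⟩
        · intro r hr
          rw [mem_insert, mem_insert, mem_insert, mem_singleton] at hr
          rcases hr with rfl | rfl | rfl | rfl
          · exact hp8
          · exact b2
          · exact c2
          · exact d2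
        · exact card_le_four
        · rw [zh_pd4 h1 h2 h3 h4 h5 h6]
          push_cast
          rw [hprod4 q.1 q.2.1 q.2.2 b1 c1 d1]
          exact hexp _ h10
      · obtain ⟨h1, h2, h3, h4, h5, h6, h7, h8, h9, h10⟩ := hA q hq
        obtain ⟨b1, b2, b3, b4, b5⟩ := hBm q.1 h7
        obtain ⟨c1, c2, c3, c4, c5⟩ := hBm q.2.1 h8
        obtain ⟨d1, d2, d3, d4, d5⟩ := hBm q.2.2 h9
        rw [zh_pd4 h1 h2 h3 h4 h5 h6]
        push_cast
        rw [← one_div_mul_one_div, ← one_div_mul_one_div, ← one_div_mul_one_div]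
        refine mul_le_mul hpinv ?_ (by positivity) hgp
        rw [mul_assoc]
        refine mul_le_mul (zh_inv b1) ?_ (by positivity) (zh_gg b1)
        exact mul_le_mul (zh_inv c1) (zh_inv d1) (by positivity) (zh_gg c1)
    have k3 : ∑ q ∈ A3, F {p, q.1, q.2.1, q.2.2} ≤
        337 * (2 / 10 ^ 5) * gg p * Hm c W L s δ t₀ := by
      refine kk A3 _ (fun q hq => ?_) s3
      rw [hA3, mem_filter, mem_product, mem_product, mem_erase, mem_erase, mem_erase] at hq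
      obtain ⟨⟨⟨h1, h2⟩, ⟨h3, h4⟩, h5, h6⟩, h7, h8, h9⟩ := hq
      refine ⟨h1.symm, h3.symm, h5.symm, h7.ne, (h7.trans h8).ne, h8.ne, h2, h4, h6, ?_⟩
      have h10 := (abs_le.1 h9).2
      norm_num at h10 ⊢
      linarith
    have k4 : ∑ q ∈ A4, F {p, q.1, q.2.1, q.2.2} ≤
        337 * (344 / 10 ^ 5) * gg p * Hm c W L s δ t₀ := by
      refine kk A4 _ (fun q hq => ?_) s4
      rw [hA4, mem_filter, mem_product, mem_product, mem_erase, mem_erase, mem_erase] at hq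
      obtain ⟨⟨⟨h1, h2⟩, ⟨h3, h4⟩, h5, h6⟩, h7, h8, h9, h10⟩ := hq
      refine ⟨h1.symm, h3.symm, h5.symm, h7.ne, (h7.trans h8).ne, h8.ne, h2, h4, h6, ?_⟩
      have h11 := hal_mono q.1 q.2.2 (hBm _ h2).1 (h7.trans h8).le
      have h12 := hal_mono q.2.1 q.2.2 (hBm _ h4).1 h8.le
      norm_num at h10 ⊢
      norm_num at hpa
      linarith
    -- the cover
    have hcov : ∀ z ∈ ((dp c W i).filter
      (fun z => (∀ p ∈ Q c W (1 / 8), ¬ p ∣ c.a j * z + c.b j) ∧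
          |Lam (Q c W (1 / 4 - 2 * δ)) ((c.x : ℝ) ^ (1 / 4 - 2 * δ)) (c.a j * z + c.b j)| <
            1 / 10 ^ 6)).filter (fun z => p ∣ c.a j * z + c.b j),
        (∃ q ∈ A1, ∀ r ∈ ({p, q} : Finset ℕ), r ∣ c.a j * z + c.b j) ∨
        (∃ q ∈ A2, ∀ r ∈ ({p, q.1, q.2} : Finset ℕ), r ∣ c.a j * z + c.b j) ∨
        (∃ q ∈ A3, ∀ r ∈ ({p, q.1, q.2.1, q.2.2} : Finset ℕ), r ∣ c.a j * z + c.b j) ∨
        (∃ q ∈ A4, ∀ r ∈ ({p, q.1, q.2.1, q.2.2} : Finset ℕ), r ∣ c.a j * z + c.b j) := by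
      intro z hz
      rw [mem_filter, mem_filter] at hz
      obtain ⟨⟨hzd, hzr, hzl⟩, hzp⟩ := hz
      have hzx : c.x < z ∧ z ≤ 2 * c.x := by
        unfold dp Cfg.dom at hzd
        rw [mem_filter, mem_filter, mem_Ioc] at hzd
        exact hzd.1.1
      set n := c.a j * z + c.b j with hn
      have hn0 : 0 < n := by
        have h1 := hc.ha j
        have : 0 < c.a j * z := Nat.mul_pos (by omega) (by omega)
        omega
      set T := (Q c W (1 / 4 - 2 * δ)).filter (fun q => q ∣ n) with hT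
      have hTm : ∀ q ∈ T, q ∈ B ∧ q ∣ n := by
        intro q hq
        rw [hT, mem_filter] at hq
        refine ⟨?_, hq.2⟩
        rw [hB, mem_filter]
        refine ⟨hmono _ _ (by linarith) hq.1, ?_⟩
        by_contra hcon
        push Not at hcon
        refine hzr q ?_ hq.2
        have h1 := (Q_mem c D₀ W A₀ C _ hc hxx1 q).1 hq.1
        rw [Q_mem c D₀ W A₀ C _ hc hxx1]
        exact ⟨hcon, h1.2⟩
      have hpT : p ∈ T := by
        rw [hT, mem_filter]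
        exact ⟨hpP, hzp⟩
      have hdvd : ∏ q ∈ T, q ∣ n :=
        Finset.prod_primes_dvd _ (fun q hq => (hBm q (hTm q hq).1).1.prime)
          (fun q hq => (hTm q hq).2)
      have hle : ∏ q ∈ T, q ≤ n := Nat.le_of_dvd hn0 hdvd
      have hle2 : n ≤ (2 * A₀ + C) * c.x := by
        have h1 := hc.haA j
        have h2 := hc.hb j
        have h3 : c.a j * z ≤ A₀ * (2 * c.x) := Nat.mul_le_mul h1 hzx.2
        rw [hn]
        nlinarith
      have hsum : ∑ q ∈ T, al c.x q ≤ 1 + 1 / 10 ^ 6 := by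
        unfold al
        rw [← Finset.sum_div, div_le_iff₀ hlx0, ← Real.log_prod (fun q hq => by
          have := (hBm q (hTm q hq).1).1.pos
          positivity)]
        have h1 : (∏ q ∈ T, (q : ℝ)) ≤ (2 * A₀ + C + 1) * c.x := by
          have h2 : ((∏ q ∈ T, q : ℕ) : ℝ) ≤ (((2 * A₀ + C) * c.x : ℕ) : ℝ) := by
            exact_mod_cast hle.trans hle2
          push_cast at h2
          refine h2.trans ?_
          nlinarith
        have h3 : (0 : ℝ) < ∏ q ∈ T, (q : ℝ) := Finset.prod_pos fun q hq => by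
          have := (hBm q (hTm q hq).1).1.pos
          positivity
        have h4 := Real.log_le_log h3 h1
        rw [Real.log_mul (by positivity) (by positivity)] at h4
        have h5 : Real.log (2 * A₀ + C + 1 : ℝ) ≤ 1 / 10 ^ 6 * Real.log c.x := by
          have h6 : (10 : ℝ) ^ 6 * Real.log (2 * A₀ + C + 1) ≤ Real.log c.x := by
            rw [← hM]
            linarith
          norm_num at h6 ⊢
          linarith
        linarith
      have hcard : #T ≤ 8 := by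
        have h1 : (#T : ℝ) * (1 / 8) ≤ ∑ q ∈ T, al c.x q := by
          rw [← nsmul_eq_mul, ← Finset.sum_const]
          exact Finset.sum_le_sum fun q hq => (hBm q (hTm q hq).1).2.2.2.1.le
        have h2 : (#T : ℝ) < 9 := by
          norm_num at hsum
          linarith
        have h3 : #T < 9 := by exact_mod_cast h2
        omega
      have hlam := hX₂ c hc hx2 n hzr hcard
      have hlam2 : |1 - ∑ q ∈ T, (1 - 4 * al c.x q)| < 2 / 10 ^ 6 := by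
        have h1 : |1 - ∑ q ∈ T, (1 - 4 * al c.x q)| ≤
            |Lam (Q c W (1 / 4 - 2 * δ)) ((c.x : ℝ) ^ (1 / 4 - 2 * δ)) n -
              (1 - ∑ q ∈ T, (1 - 4 * al c.x q))| +
            |Lam (Q c W (1 / 4 - 2 * δ)) ((c.x : ℝ) ^ (1 / 4 - 2 * δ)) n| := by
          have h2 := abs_sub (Lam (Q c W (1 / 4 - 2 * δ)) ((c.x : ℝ) ^ (1 / 4 - 2 * δ)) n)
            (Lam (Q c W (1 / 4 - 2 * δ)) ((c.x : ℝ) ^ (1 / 4 - 2 * δ)) n -
              (1 - ∑ q ∈ T, (1 - 4 * al c.x q)))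
          rw [sub_sub_cancel] at h2
          linarith
        refine lt_of_le_of_lt h1 ?_
        have h3 : |Lam (Q c W (1 / 4 - 2 * δ)) ((c.x : ℝ) ^ (1 / 4 - 2 * δ)) n -
              (1 - ∑ q ∈ T, (1 - 4 * al c.x q))| ≤ 1 / 10 ^ 6 := hlam
        calc _ < (1 : ℝ) / 10 ^ 6 + 1 / 10 ^ 6 := add_lt_add_of_le_of_lt h3 hzl
          _ = _ := by norm_num
      have hTe : ∀ q ∈ T.erase p, q ∈ B.erase p ∧ q ∣ n := by
        intro q hq
        rw [mem_erase] at hq ⊢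
        exact ⟨⟨hq.1, (hTm q hq.2).1⟩, (hTm q hq.2).2⟩
      rcases exc_comb T p hpT (al c.x)
        (fun q hq => ⟨(hBm q (hTm q hq).1).2.2.2.1.le, (hBm q (hTm q hq).1).2.2.2.2⟩) hpa
        (fun q hq q' _ hqq => hal_mono q q' (hBm q (hTm q hq).1).1 hqq.le) hsum hlam2 with
        ⟨q, hq, h1⟩ | ⟨q₁, hq₁, q₂, hq₂, h1, h2⟩ | ⟨q₁, hq₁, q₂, hq₂, q₃, hq₃, h1, h2, h3⟩ |
        ⟨q₁, hq₁, q₂, hq₂, q₃, hq₃, h1, h2, h3, h4⟩
      · refine Or.inl ⟨q, ?_, ?_⟩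
        · rw [hA1, mem_filter]
          exact ⟨(hTe q hq).1, h1⟩
        · intro r hr
          rw [mem_insert, mem_singleton] at hr
          rcases hr with rfl | rfl
          · exact hzp
          · exact (hTe _ hq).2
      · refine Or.inr (Or.inl ⟨(q₁, q₂), ?_, ?_⟩)
        · rw [hA2, mem_filter, mem_product]
          exact ⟨⟨(hTe _ hq₁).1, (hTe _ hq₂).1⟩, h1, h2⟩
        · intro r hr
          simp only [mem_insert, mem_singleton] at hr
          rcases hr with rfl | rfl | rfl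
          · exact hzp
          · exact (hTe _ hq₁).2
          · exact (hTe _ hq₂).2
      · refine Or.inr (Or.inr (Or.inl ⟨(q₁, q₂, q₃), ?_, ?_⟩))
        · rw [hA3, mem_filter, mem_product, mem_product]
          exact ⟨⟨(hTe _ hq₁).1, (hTe _ hq₂).1, (hTe _ hq₃).1⟩, h1, h2, h3⟩
        · intro r hr
          simp only [mem_insert, mem_singleton] at hr
          rcases hr with rfl | rfl | rfl | rfl
          · exact hzp
          · exact (hTe _ hq₁).2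
          · exact (hTe _ hq₂).2
          · exact (hTe _ hq₃).2
      · refine Or.inr (Or.inr (Or.inr ⟨(q₁, q₂, q₃), ?_, ?_⟩))
        · rw [hA4, mem_filter, mem_product, mem_product]
          exact ⟨⟨(hTe _ hq₁).1, (hTe _ hq₂).1, (hTe _ hq₃).1⟩, h1, h2, h3, h4⟩
        · intro r hr
          simp only [mem_insert, mem_singleton] at hr
          rcases hr with rfl | rfl | rfl | rfl
          · exact hzp
          · exact (hTe _ hq₁).2
          · exact (hTe _ hq₂).2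
          · exact (hTe _ hq₃).2
    set R := (dp c W i).filter (fun z => ∀ p ∈ Q c W (1 / 8), ¬ p ∣ c.a j * z + c.b j) with hR
    have hFR : ∀ Q' : Finset ℕ, F Q' = ∑ z ∈ R.filter (fun z => ∀ q ∈ Q', q ∣ c.a j * z + c.b j),
        W2 c W L s δ t₀ i j z := by
      intro Q'
      simp only [hF, hR]
      rw [Finset.filter_filter]
      refine Finset.sum_congr (Finset.filter_congr fun z _ => ?_) fun _ _ => rfl
      exact and_comm
    have hfin : ∑ z ∈ ((dp c W i).filter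
      (fun z => (∀ p ∈ Q c W (1 / 8), ¬ p ∣ c.a j * z + c.b j) ∧
          |Lam (Q c W (1 / 4 - 2 * δ)) ((c.x : ℝ) ^ (1 / 4 - 2 * δ)) (c.a j * z + c.b j)| <
            1 / 10 ^ 6)).filter (fun z => p ∣ c.a j * z + c.b j), W2 c W L s δ t₀ i j z ≤
        ∑ q ∈ A1, F {p, q} + ∑ q ∈ A2, F {p, q.1, q.2} + ∑ q ∈ A3, F {p, q.1, q.2.1, q.2.2} +
          ∑ q ∈ A4, F {p, q.1, q.2.1, q.2.2} := by
      simp only [hFR]
      rw [← zh_cover R _ A1 (fun q z => ∀ r ∈ ({p, q} : Finset ℕ), r ∣ c.a j * z + c.b j),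
        ← zh_cover R _ A2 (fun q z => ∀ r ∈ ({p, q.1, q.2} : Finset ℕ), r ∣ c.a j * z + c.b j),
        ← zh_cover R _ A3
          (fun q z => ∀ r ∈ ({p, q.1, q.2.1, q.2.2} : Finset ℕ), r ∣ c.a j * z + c.b j),
        ← zh_cover R _ A4
          (fun q z => ∀ r ∈ ({p, q.1, q.2.1, q.2.2} : Finset ℕ), r ∣ c.a j * z + c.b j),
        ← Finset.sum_add_distrib, ← Finset.sum_add_distrib, ← Finset.sum_add_distrib]
      refine le_trans (Finset.sum_le_sum fun z hz => ?_)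
        (Finset.sum_le_sum_of_subset_of_nonneg ?_ fun z _ _ => ?_)
      · have hw := hW20 z
        have hcard : ∀ {ι : Type} (A : Finset ι) (D : ι → Prop) [DecidablePred D],
            (∃ q ∈ A, D q) → (1 : ℝ) ≤ #(A.filter D) := by
          intro ι A D _ hD
          obtain ⟨q, hq, hqD⟩ := hD
          have : 0 < #(A.filter D) := card_pos.2 ⟨q, mem_filter.2 ⟨hq, hqD⟩⟩
          exact_mod_cast this
        have hc0 : ∀ {ι : Type} (A : Finset ι) (D : ι → Prop) [DecidablePred D],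
            0 ≤ W2 c W L s δ t₀ i j z * (#(A.filter D) : ℝ) := fun A D _ => by positivity
        have hc1 : ∀ {ι : Type} (A : Finset ι) (D : ι → Prop) [DecidablePred D],
            (∃ q ∈ A, D q) →
            W2 c W L s δ t₀ i j z ≤ W2 c W L s δ t₀ i j z * (#(A.filter D) : ℝ) := by
          intro ι A D _ hD
          have h1 := mul_le_mul_of_nonneg_left (hcard A D hD) hw
          rwa [mul_one] at h1
        have z1 := hc0 A1 (fun q => ∀ r ∈ ({p, q} : Finset ℕ), r ∣ c.a j * z + c.b j)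
        have z2 := hc0 A2 (fun q => ∀ r ∈ ({p, q.1, q.2} : Finset ℕ), r ∣ c.a j * z + c.b j)
        have z3 := hc0 A3
          (fun q => ∀ r ∈ ({p, q.1, q.2.1, q.2.2} : Finset ℕ), r ∣ c.a j * z + c.b j)
        have z4 := hc0 A4
          (fun q => ∀ r ∈ ({p, q.1, q.2.1, q.2.2} : Finset ℕ), r ∣ c.a j * z + c.b j)
        rcases hcov z hz with h | h | h | h
        · have := hc1 A1 _ h
          linarith
        · have := hc1 A2 _ h
          linarith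
        · have := hc1 A3 _ h
          linarith
        · have := hc1 A4 _ h
          linarith
      · intro z hz
        rw [mem_filter, mem_filter] at hz
        rw [hR, mem_filter]
        exact ⟨hz.1.1, hz.1.2.1⟩
      · have hw := hW20 z
        positivity
    refine hfin.trans ((add_le_add (add_le_add (add_le_add k1 k2) k3) k4).trans ?_)
    have h0 : 0 ≤ gg p * Hm c W L s δ t₀ := mul_nonneg hgp hHm0
    norm_num
    nlinarith
  refine (Finset.sum_le_sum hmain).trans (le_of_eq ?_)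
  rw [Finset.mul_sum, Finset.sum_mul]

end Pool.Agent.Work.MP_70e905_nt.M3
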