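import Pool.Agent.Work.MP_70e905_nt.M3.Defs
import Pool.Agent.Work.MP_70e905_nt.M3.LG
import Pool.Agent.Work.MP_70e905_nt.M3.ZH
import Pool.Agent.Work.MP_70e905_nt.M3.WA
import Pool.Agent.Work.MP_70e905_nt.MT.C6
import Pool.Agent.Work.MP_70e905_nt.MT.F0
import Pool.Agent.Work.MP_70e905_nt.MT.A6
import Pool.Agent.Work.MP_70e905_nt.MT.D1

set_option autoImplicit false

/-!
MODULE WB (the waste), size S-M.

`low_all - exc_all`: the sum over `z ∈ dp` with `n_j` rough (no prime factor in `Q c W (1/8)`) and `|Lam| ≥ 10^-6` of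
`W2 z * #{p ∈ II : p ∣ n_j}` is at least `(17/10 - 12/10) κI Hm ≥ (1/2)(39/10^4) Hm`. Only `z` with `#{...} ≥ 1` count: `n_j` is divisible by
a prime `p ≤ x^(1/8 + 1/2000) < n_j`, so it is not prime; and `#{...} ≤ 8` (the primes are `> x^(1/8)` and `n_j ≤ (2A₀ + C) x < x^(9/8)`).
So `W2 * # ≤ 8·10^12 W2 * Lam²` and the left side is at least `(39/20000) / (8·10^12) Hm ≥ Hm / 10^16`.
-/

namespace Pool.Agent.Work.MP_70e905_nt.M3

open Finset Pool.Agent.Work.MP_73869e_nt.TH Pool.Agent.Work.MP_70e905_nt.MT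

private theorem wb_card {K : ℕ} (c : Cfg K) (D₀ W A₀ C : ℕ) (hc : c.Ok D₀ W A₀ C)
    (hx : (2 * A₀ + C) ^ 8 + 1 ≤ c.x) (j : Fin K) (z : ℕ) (hz : z ∈ c.dom W) :
    #((II c W).filter (fun p => p ∣ c.a j * z + c.b j)) ≤ 8 := by
  have hx1 : 1 ≤ c.x := by omega
  have hxr : (1 : ℝ) ≤ c.x := by exact_mod_cast hx1
  set T := (II c W).filter (fun p => p ∣ c.a j * z + c.b j) with hT
  by_contra hcon
  push Not at hcon
  have hprime : ∀ p ∈ T, Prime p := fun p hp => by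
    have h := (mem_filter.1 hp).1
    unfold II Q Cfg.PZ at h
    exact ((mem_filter.1 (mem_filter.1 h).1).2.1).prime
  have hbig : ∀ p ∈ T, (c.x : ℝ) ^ (1 / 8 : ℝ) ≤ p := fun p hp => by
    have h := (mem_filter.1 hp).1
    unfold II at h
    exact (mem_filter.1 h).2.le
  have hdvd : ∏ p ∈ T, p ∣ c.a j * z + c.b j :=
    Finset.prod_primes_dvd _ hprime (fun p hp => (mem_filter.1 hp).2)
  have hz' : c.x < z ∧ z ≤ 2 * c.x := by
    have h := hz
    unfold Cfg.dom at h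
    rw [mem_filter, mem_Ioc] at h
    exact h.1
  have hpos : 0 < c.a j * z + c.b j := by
    have h1 := hc.ha j
    have : 0 < c.a j * z := Nat.mul_pos (by omega) (by omega)
    omega
  have hle : ∏ p ∈ T, p ≤ c.a j * z + c.b j := Nat.le_of_dvd hpos hdvd
  have hle2 : c.a j * z + c.b j ≤ (2 * A₀ + C) * c.x := by
    have h1 := hc.haA j
    have h2 := hc.hb j
    have h3 : c.a j * z ≤ A₀ * (2 * c.x) := Nat.mul_le_mul h1 hz'.2
    nlinarith
  have hle3 : ((∏ p ∈ T, p : ℕ) : ℝ) ≤ (2 * A₀ + C) * c.x := by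
    exact_mod_cast hle.trans hle2
  have hy0 : (0 : ℝ) ≤ (c.x : ℝ) ^ (1 / 8 : ℝ) := by positivity
  have hy1 : (1 : ℝ) ≤ (c.x : ℝ) ^ (1 / 8 : ℝ) := Real.one_le_rpow hxr (by norm_num)
  have h8 : ((c.x : ℝ) ^ (1 / 8 : ℝ)) ^ 8 = c.x := by
    rw [← Real.rpow_natCast, ← Real.rpow_mul (by positivity)]
    norm_num
  have hyb : (2 * A₀ + C : ℝ) < (c.x : ℝ) ^ (1 / 8 : ℝ) := by
    refine lt_of_pow_lt_pow_left₀ 8 hy0 ?_
    rw [h8]
    exact_mod_cast (by omega : (2 * A₀ + C) ^ 8 < c.x)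
  have hge : ((c.x : ℝ) ^ (1 / 8 : ℝ)) ^ 9 ≤ ((∏ p ∈ T, p : ℕ) : ℝ) := by
    calc ((c.x : ℝ) ^ (1 / 8 : ℝ)) ^ 9 ≤ ((c.x : ℝ) ^ (1 / 8 : ℝ)) ^ #T :=
          pow_le_pow_right₀ hy1 (by omega)
      _ = ∏ _p ∈ T, (c.x : ℝ) ^ (1 / 8 : ℝ) := by rw [prod_const]
      _ ≤ ∏ p ∈ T, (p : ℝ) := prod_le_prod (fun p _ => hy0) (fun p hp => hbig p hp)
      _ = _ := by push_cast; rfl
  have h9 : ((c.x : ℝ) ^ (1 / 8 : ℝ)) ^ 9 = (c.x : ℝ) ^ (1 / 8 : ℝ) * c.x := by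
    rw [pow_succ, h8, mul_comm]
  rw [h9] at hge
  have hxp : (0 : ℝ) < c.x := by linarith
  nlinarith

theorem waste (K L D₀ : ℕ) (s δ t₀ e : ℝ) (hpar : Par K L D₀ s δ t₀ e) (he9 : e ≤ 1 / 10 ^ 9)
    (hLD : ∀ t : ℝ, t < 1 / 2 → LD t) (hPNT : PNT) (W A₀ C : ℕ) : ∃ X₀ : ℕ,
    ∀ c : Cfg K, c.Ok D₀ W A₀ C → X₀ ≤ c.x → Conc c W L δ t₀ e → ∀ i j : Fin K, i ≠ j →
      1 / 10 ^ 16 * Hm c W L s δ t₀ ≤
        ∑ z ∈ (dp c W i).filter (fun z => ¬ (c.a j * z + c.b j).Prime),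
          W2 c W L s δ t₀ i j z *
            (Lam (Q c W (1 / 4 - 2 * δ)) ((c.x : ℝ) ^ (1 / 4 - 2 * δ)) (c.a j * z + c.b j)) ^ 2 := by
  have he6 : e ≤ 1 / 10 ^ 6 := he9.trans (by norm_num)
  obtain ⟨X1, hX1⟩ := low_all K L D₀ s δ t₀ e hpar he6 hLD hPNT W A₀ C
  obtain ⟨X2, hX2⟩ := exc_all K L D₀ s δ t₀ e hpar he9 W A₀ C
  obtain ⟨X3, hX3⟩ := kI_low K D₀ W A₀ C
  refine ⟨max (max X1 X2) (max X3 ((2 * A₀ + C) ^ 8 + 1)), fun c hc hx hC i j hij => ?_⟩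
  simp only [max_le_iff] at hx
  obtain ⟨⟨x1, x2⟩, x3, x4⟩ := hx
  have m1 := hX1 c hc x1 hC i j hij
  have m2 := hX2 c hc x2 i j hij
  have m3 := hX3 c hc x3
  have hx1 : 1 ≤ c.x := by omega
  have hxr : (1 : ℝ) ≤ c.x := by exact_mod_cast hx1
  have hW0 : ∀ z, 0 ≤ W2 c W L s δ t₀ i j z := fun z => by
    unfold W2
    split_ifs
    · positivity
    · exact le_rfl
  set κI := ∑ p ∈ II c W, gg p with hκI
  set H := Hm c W L s δ t₀ with hH
  set Lm : ℕ → ℝ := fun z =>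
    Lam (Q c W (1 / 4 - 2 * δ)) ((c.x : ℝ) ^ (1 / 4 - 2 * δ)) (c.a j * z + c.b j) with hLm
  set G : ℕ → ℝ := fun z => W2 c W L s δ t₀ i j z *
    #((II c W).filter (fun p => p ∣ c.a j * z + c.b j)) with hG
  have hG0 : ∀ z, 0 ≤ G z := fun z => mul_nonneg (hW0 z) (Nat.cast_nonneg _)
  have hR0 : 0 ≤ ∑ z ∈ (dp c W i).filter (fun z => ¬ (c.a j * z + c.b j).Prime),
      W2 c W L s δ t₀ i j z * (Lm z) ^ 2 :=
    sum_nonneg fun z _ => mul_nonneg (hW0 z) (sq_nonneg _)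
  rcases le_or_gt H 0 with h0 | h0
  · exact (mul_nonpos_of_nonneg_of_nonpos (by norm_num) h0).trans hR0
  set D := (dp c W i).filter (fun z => ∀ p ∈ Q c W (1 / 8), ¬ p ∣ c.a j * z + c.b j) with hD
  have hsplit := sum_filter_add_sum_filter_not D (fun z => |Lm z| < 1 / 10 ^ 6) G
  have hB : ∑ z ∈ D.filter (fun z => |Lm z| < 1 / 10 ^ 6), G z ≤ 12 / 10 * κI * H := by
    rw [hD, filter_filter]
    exact m2
  have hpt : ∀ z ∈ D.filter (fun z => ¬ |Lm z| < 1 / 10 ^ 6),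
      G z ≤ (if (c.a j * z + c.b j).Prime then 0 else
        8 * 10 ^ 12 * (W2 c W L s δ t₀ i j z * (Lm z) ^ 2)) := by
    intro z hz
    obtain ⟨hz1, hz2⟩ := mem_filter.1 hz
    have hz3 : z ∈ c.dom W := by
      have := (mem_filter.1 hz1).1
      unfold dp at this
      exact (mem_filter.1 this).1
    have hcard := wb_card c D₀ W A₀ C hc x4 j z hz3
    have hG8 : G z ≤ 8 * 10 ^ 12 * (W2 c W L s δ t₀ i j z * (Lm z) ^ 2) := by
      have h1 : ((#((II c W).filter (fun p => p ∣ c.a j * z + c.b j)) : ℕ) : ℝ) ≤ 8 := by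
        exact_mod_cast hcard
      push Not at hz2
      have h2 : (1 / 10 ^ 6 : ℝ) ^ 2 ≤ (Lm z) ^ 2 := by
        rw [← sq_abs (Lm z)]
        exact pow_le_pow_left₀ (by norm_num) hz2 2
      have h3 : (1 : ℝ) ≤ 10 ^ 12 * (Lm z) ^ 2 := by
        have : (1 / 10 ^ 6 : ℝ) ^ 2 = 1 / 10 ^ 12 := by norm_num
        rw [this] at h2
        rw [div_le_iff₀ (by norm_num)] at h2
        linarith
      calc G z ≤ W2 c W L s δ t₀ i j z * 8 := mul_le_mul_of_nonneg_left h1 (hW0 z)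
        _ = W2 c W L s δ t₀ i j z * 8 * 1 := by ring
        _ ≤ W2 c W L s δ t₀ i j z * 8 * (10 ^ 12 * (Lm z) ^ 2) :=
            mul_le_mul_of_nonneg_left h3 (mul_nonneg (hW0 z) (by norm_num))
        _ = _ := by ring
    split_ifs with hp
    · -- the form is prime: no special prime divides it
      have hemp : (II c W).filter (fun p => p ∣ c.a j * z + c.b j) = ∅ := by
        refine filter_eq_empty_iff.2 fun p hpI hd => ?_
        unfold II at hpI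
        have h1 := (mem_filter.1 hpI).1
        have h2 : p ∈ c.P W (1 / 8 + 1 / 2000) := h1
        have h3 := D1_lt c D₀ W A₀ C (1 / 8 + 1 / 2000) hc (by norm_num) z hz3 j p h2
        have h5 := (D1_P c D₀ W A₀ C (1 / 8 + 1 / 2000) hc (by norm_num) hx1 p h2).1
        have h6 := (Nat.prime_dvd_prime_iff_eq h5 hp).1 hd
        omega
      rw [hG]
      simp only []
      rw [hemp]
      simp
    · exact hG8
  have hsum : ∑ z ∈ D.filter (fun z => ¬ |Lm z| < 1 / 10 ^ 6), G z ≤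
      8 * 10 ^ 12 * ∑ z ∈ (dp c W i).filter (fun z => ¬ (c.a j * z + c.b j).Prime),
        W2 c W L s δ t₀ i j z * (Lm z) ^ 2 := by
    calc ∑ z ∈ D.filter (fun z => ¬ |Lm z| < 1 / 10 ^ 6), G z
        ≤ ∑ z ∈ D.filter (fun z => ¬ |Lm z| < 1 / 10 ^ 6),
          (if (c.a j * z + c.b j).Prime then 0 else
            8 * 10 ^ 12 * (W2 c W L s δ t₀ i j z * (Lm z) ^ 2)) := sum_le_sum hpt
      _ ≤ ∑ z ∈ dp c W i, (if (c.a j * z + c.b j).Prime then 0 else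
            8 * 10 ^ 12 * (W2 c W L s δ t₀ i j z * (Lm z) ^ 2)) := by
          refine sum_le_sum_of_subset_of_nonneg ?_ fun z _ _ => ?_
          · exact (filter_subset _ _).trans (filter_subset _ _)
          · split_ifs
            · exact le_rfl
            · exact mul_nonneg (by norm_num) (mul_nonneg (hW0 z) (sq_nonneg _))
      _ = _ := by
          rw [mul_sum, sum_filter]
          refine sum_congr rfl fun z _ => ?_
          by_cases hp : (c.a j * z + c.b j).Prime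
          · simp [hp]
          · simp [hp]
  have hA : 17 / 10 * κI * H ≤ ∑ z ∈ D, G z := m1
  have h1 : 1 / 2 * κI * H ≤ ∑ z ∈ D.filter (fun z => ¬ |Lm z| < 1 / 10 ^ 6), G z := by
    have : 1 / 2 * κI * H = 17 / 10 * κI * H - 12 / 10 * κI * H := by ring
    rw [this]
    linarith
  have h2 : 39 / 20000 * H ≤ 1 / 2 * κI * H := by
    refine mul_le_mul_of_nonneg_right ?_ h0.le
    linarith
  have h3 := (h2.trans h1).trans hsum
  have h4 : 1 / 10 ^ 16 * H * (8 * 10 ^ 12) ≤ 39 / 20000 * H := by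
    have : 1 / 10 ^ 16 * H * (8 * 10 ^ 12) = 8 / 10 ^ 4 * H := by ring
    rw [this]
    exact mul_le_mul_of_nonneg_right (by norm_num) h0.le
  have h5 := h4.trans h3
  have h6 : 0 < (8 * 10 ^ 12 : ℝ) := by norm_num
  rw [mul_comm (8 * 10 ^ 12 : ℝ)] at h5
  exact le_of_mul_le_mul_right h5 h6

end Pool.Agent.Work.MP_70e905_nt.M3
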