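import Pool.Agent.Work.MP_70e905_nt.M3.Defs
import Pool.Agent.Work.MP_70e905_nt.M3.MC
import Pool.Agent.Work.MP_70e905_nt.M3.MD
import Pool.Agent.Work.MP_70e905_nt.M3.WB
import Pool.Agent.Work.MP_70e905_nt.MT.D1
import Pool.Agent.Work.MP_70e905_nt.MT.C2
import Pool.Agent.Work.MP_70e905_nt.MT.A1

set_option autoImplicit false

/-!
MODULE E3 (the pair sum, constant `4 - 10^-17`), size M.

`e₀ = 10^-19`. For `z ∈ c.dom W` with `n_i`, `n_j` prime: `c.w z = W2 z`: `c.f z = ff gg P (Zj gg P i YY) (om P z)` (`f_one` of MT/D1) `= FF z`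
(`ff_Zj` of TH/T05 for `j`, `om_no` of MT/A1), and `Lam = 1` (`Lam_one` of MD: `n_j` is a prime `> x > x^(1/4 - 2δ)`). So the sum equals the
sum over `z ∈ dp c W i` with `n_j` prime of `W2 z * Lam²`, which is `maj` minus the sum over the `z` with `n_j` not prime (`waste`):
`≤ (4 + 100 e₀ - 10^-16) Hm = (4 + 10^-17 - 10^-16) Hm ≤ (4 - 10^-17) Hm` (`Hm ≥ 0`).
-/

namespace Pool.Agent.Work.MP_70e905_nt.M3

open Finset Pool.Agent.Work.MP_73869e_nt.TH Pool.Agent.Work.MP_70e905_nt.MT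

private theorem w_eq {K : ℕ} (c : Cfg K) (D₀ W A₀ C L : ℕ) (s δ t₀ : ℝ) (hc : c.Ok D₀ W A₀ C)
    (hδ : δ ≤ 1 / 8) (hδ0 : 0 < δ) (i j : Fin K) (z : ℕ) (hz : z ∈ c.dom W)
    (hi : (c.a i * z + c.b i).Prime) (hj : (c.a j * z + c.b j).Prime) :
    c.w W L s δ t₀ z = W2 c W L s δ t₀ i j z *
      (Lam (Q c W (1 / 4 - 2 * δ)) ((c.x : ℝ) ^ (1 / 4 - 2 * δ)) (c.a j * z + c.b j)) ^ 2 := by
  have hx : 1 ≤ c.x := by
    have h := hz
    unfold Cfg.dom at h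
    rw [mem_filter, mem_Ioc] at h
    omega
  have hxr : (1 : ℝ) ≤ c.x := by exact_mod_cast hx
  have h1 := f_one c D₀ W A₀ C L δ t₀ hc (by linarith) z hz i hi
  have h2 : ff gg (c.P W δ) (Zj gg (c.P W δ) i (YY c.x L t₀ δ)) (om (c.P W δ) c.a c.b z) =
      FF c W L δ t₀ i j z := by
    unfold FF Zij
    apply ff_Zj
    refine om_no _ _ _ _ _ (fun p hp => ⟨?_, D1_lt c D₀ W A₀ C δ hc (by linarith) z hz j p hp⟩) hj
    unfold Cfg.P Cfg.PZ at hp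
    exact (mem_filter.1 hp).2.1
  have h3 : Lam (Q c W (1 / 4 - 2 * δ)) ((c.x : ℝ) ^ (1 / 4 - 2 * δ)) (c.a j * z + c.b j) = 1 := by
    refine Lam_one _ ?_ _ ?_ _ ?_
    · intro p hp
      unfold Q Cfg.PZ at hp
      exact (mem_filter.1 hp).2.1
    · exact Real.one_le_rpow hxr (by linarith)
    · intro p hp hd
      have hp' : p ∈ c.P W (1 / 4 - 2 * δ) := hp
      have h4 := D1_lt c D₀ W A₀ C (1 / 4 - 2 * δ) hc (by linarith) z hz j p hp'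
      have h5 := (D1_P c D₀ W A₀ C (1 / 4 - 2 * δ) hc (by linarith) hx p hp').1
      have h6 := (Nat.prime_dvd_prime_iff_eq h5 hj).1 hd
      omega
  rw [h3]
  unfold Cfg.w W2
  rw [h1, h2]
  simp

theorem E3_four (hLD : ∀ t : ℝ, t < 1 / 2 → LD t) (hPNT : PNT) : ∃ e₀ : ℝ, 0 < e₀ ∧
    ∀ (K L D₀ : ℕ) (s δ t₀ : ℝ), Par K L D₀ s δ t₀ e₀ → ∀ W A₀ C : ℕ, ∃ X₀ : ℕ,
    ∀ c : Cfg K, c.Ok D₀ W A₀ C → X₀ ≤ c.x → Conc c W L δ t₀ e₀ → ∀ i j : Fin K, i ≠ j →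
      ∑ z ∈ (c.dom W).filter (fun z => (c.a i * z + c.b i).Prime ∧ (c.a j * z + c.b j).Prime),
          c.w W L s δ t₀ z ≤
        (4 - 1 / 10 ^ 17) * Hm c W L s δ t₀ := by
  refine ⟨1 / 10 ^ 19, by norm_num, fun K L D₀ s δ t₀ hpar W A₀ C => ?_⟩
  obtain ⟨X1, hX1⟩ := maj K L D₀ s δ t₀ _ hpar (by norm_num) hLD hPNT W A₀ C
  obtain ⟨X2, hX2⟩ := waste K L D₀ s δ t₀ _ hpar (by norm_num) hLD hPNT W A₀ C
  refine ⟨max X1 X2, fun c hc hx hC i j hij => ?_⟩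
  have m1 := hX1 c hc ((le_max_left _ _).trans hx) i j hij
  have m2 := hX2 c hc ((le_max_right _ _).trans hx) hC i j hij
  have hδ : δ ≤ 1 / 8 := by
    have := hpar.hδe
    have h2 : (1 / 10 ^ 19 : ℝ) ≤ 1 / 8 := by norm_num
    linarith
  set G : ℕ → ℝ := fun z => W2 c W L s δ t₀ i j z *
    (Lam (Q c W (1 / 4 - 2 * δ)) ((c.x : ℝ) ^ (1 / 4 - 2 * δ)) (c.a j * z + c.b j)) ^ 2 with hG
  have hG0 : ∀ z, 0 ≤ G z := fun z => by
    rw [hG]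
    refine mul_nonneg ?_ (sq_nonneg _)
    unfold W2
    split_ifs
    · positivity
    · exact le_rfl
  have hsplit := sum_filter_add_sum_filter_not (dp c W i) (fun z => (c.a j * z + c.b j).Prime) G
  have hle : ∑ z ∈ (dp c W i).filter (fun z => ¬ (c.a j * z + c.b j).Prime), G z ≤
      ∑ z ∈ dp c W i, G z :=
    sum_le_sum_of_subset_of_nonneg (filter_subset _ _) (fun z _ _ => hG0 z)
  have heq : ∑ z ∈ (c.dom W).filter
      (fun z => (c.a i * z + c.b i).Prime ∧ (c.a j * z + c.b j).Prime), c.w W L s δ t₀ z =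
      ∑ z ∈ (dp c W i).filter (fun z => (c.a j * z + c.b j).Prime), G z := by
    unfold dp
    rw [filter_filter]
    refine sum_congr rfl fun z hz => ?_
    obtain ⟨hz1, hz2, hz3⟩ := mem_filter.1 hz
    exact w_eq c D₀ W A₀ C L s δ t₀ hc hδ hpar.hδ i j z hz1 hz2 hz3
  rw [heq]
  have hH : 0 ≤ Hm c W L s δ t₀ := by
    have h1 : 1 / 10 ^ 16 * Hm c W L s δ t₀ ≤ (4 + 100 * (1 / 10 ^ 19)) * Hm c W L s δ t₀ :=
      (m2.trans hle).trans m1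
    by_contra hcon
    push Not at hcon
    nlinarith
  have h3 : (4 + 100 * (1 / 10 ^ 19)) * Hm c W L s δ t₀ - 1 / 10 ^ 16 * Hm c W L s δ t₀ ≤
      (4 - 1 / 10 ^ 17) * Hm c W L s δ t₀ := by
    have : (0 : ℝ) ≤ (1 / 10 ^ 16 - 1 / 10 ^ 17 - 100 * (1 / 10 ^ 19)) * Hm c W L s δ t₀ :=
      mul_nonneg (by norm_num) hH
    linarith
  linarith

end Pool.Agent.Work.MP_70e905_nt.M3
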